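import Pool.Agent.H79.LA.W111_LAR_Crit

set_option autoImplicit false

/-!
The load criterion and locally injective homomorphisms.
-/

namespace Pool.Agent.TH486.LAC

open Finset SimpleGraph H931R3.LA Pool.Agent.W111.LAR

/-- A decomposition into `N` graphs of maximum degree two with load at most one. -/
def LD {V : Type} (G : SimpleGraph V) (N : ℕ) : Prop :=
  ∃ (κ : Type) (_ : Fintype κ) (P : κ → SimpleGraph V), Fintype.card κ = N ∧
    (∀ i v, ((P i).neighborSet v).ncard ≤ 2) ∧ (∀ v, ∑ i, (2 : ℝ) / csize (P i) v ≤ 1) ∧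
    G = ⨆ i, P i

theorem pull_inj {V W : Type} {G' : SimpleGraph W} {f : W → V}
    (inj : ∀ a b b', G'.Adj a b → G'.Adj a b' → f b = f b' → b = b') (P : SimpleGraph V) (a : W) :
    Set.InjOn f ((G' ⊓ P.comap f).neighborSet a) := by
  intro b hb b' hb' hbb
  have h1 : (G' ⊓ P.comap f).Adj a b := hb
  have h2 : (G' ⊓ P.comap f).Adj a b' := hb'
  rw [inf_adj] at h1 h2
  exact inj a b b' h1.1 h2.1 hbb

theorem pull_maps {V W : Type} {G' : SimpleGraph W} {f : W → V} (P : SimpleGraph V) (a : W) :
    f '' ((G' ⊓ P.comap f).neighborSet a) ⊆ P.neighborSet (f a) := by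
  rintro _ ⟨b, hb, rfl⟩
  have h1 : (G' ⊓ P.comap f).Adj a b := hb
  rw [inf_adj] at h1
  exact h1.2

theorem pull_size {V W : Type} [Finite V] [Finite W] {G' : SimpleGraph W} {f : W → V}
    (inj : ∀ a b b', G'.Adj a b → G'.Adj a b' → f b = f b' → b = b') (P : SimpleGraph V)
    (hP : ∀ v, (P.neighborSet v).ncard ≤ 2) (a : W) (hcyc : Cyc (G' ⊓ P.comap f) a) :
    csize P (f a) ≤ csize (G' ⊓ P.comap f) a := by
  have key : ∀ w, P.Reachable (f a) w → ∃ b, (G' ⊓ P.comap f).Reachable a b ∧ f b = w := by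
    have walk : ∀ {x y : V} (_q : P.Walk x y) (b : W), (G' ⊓ P.comap f).Reachable a b → f b = x →
        ∃ b', (G' ⊓ P.comap f).Reachable a b' ∧ f b' = y := by
      intro x y q
      induction q with
      | nil => intro b hb hbx; exact ⟨b, hb, hbx⟩
      | cons hadj q ih =>
        rename_i x z y
        intro b hb hbx
        have h1 := hcyc b hb
        have h2 : f '' ((G' ⊓ P.comap f).neighborSet b) = P.neighborSet (f b) := by
          apply Set.eq_of_subset_of_ncard_le (pull_maps P b) _ (Set.toFinite _)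
          rw [(pull_inj inj P b).ncard_image, h1]
          exact hP _
        have h3 : z ∈ f '' ((G' ⊓ P.comap f).neighborSet b) := by
          rw [h2, hbx]; exact hadj
        obtain ⟨b', hb', hz⟩ := h3
        exact ih b' (hb.trans (Adj.reachable hb')) hz
    rintro w ⟨q⟩
    exact walk q a (Reachable.refl a) rfl
  have hsub : {w | P.Reachable (f a) w} ⊆ f '' {b | (G' ⊓ P.comap f).Reachable a b} := by
    intro w hw
    obtain ⟨b, hb, hbw⟩ := key w hw
    exact ⟨b, hb, hbw⟩
  exact (Set.ncard_le_ncard hsub (Set.toFinite _)).trans (Set.ncard_image_le (Set.toFinite _))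

theorem LD.lift {V W : Type} [Finite V] [Finite W] {G : SimpleGraph V} {N : ℕ} (hG : LD G N)
    (G' : SimpleGraph W) (f : W → V) (hom : ∀ a b, G'.Adj a b → G.Adj (f a) (f b))
    (inj : ∀ a b b', G'.Adj a b → G'.Adj a b' → f b = f b' → b = b') : Cov G' (N + 1) := by
  obtain ⟨κ, _, P, hc, h1, h2, rfl⟩ := hG
  have hQ : G' = ⨆ i, (G' ⊓ (P i).comap f) := by
    ext a b
    rw [iSup_adj]
    constructor
    · intro h
      have h3 := hom a b h
      rw [iSup_adj] at h3
      obtain ⟨i, hi⟩ := h3
      exact ⟨i, by rw [inf_adj]; exact ⟨h, hi⟩⟩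
    · rintro ⟨i, hi⟩
      rw [inf_adj] at hi
      exact hi.1
  have h3 := cov_of_load (fun i => G' ⊓ (P i).comap f) (by
    intro i a
    rw [← (pull_inj inj (P i) a).ncard_image]
    exact (Set.ncard_le_ncard (pull_maps (P i) a) (Set.toFinite _)).trans (h1 i (f a))) (by
    intro a
    refine le_trans ?_ (h2 (f a))
    refine sum_le_sum fun i _ => ?_
    split_ifs with hcyc
    · have h4 : (csize (P i) (f a) : ℝ) ≤ csize (G' ⊓ (P i).comap f) a := by
        exact_mod_cast pull_size inj (P i) (h1 i) a hcyc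
      have h5 : (0 : ℝ) < csize (P i) (f a) := by
        exact_mod_cast csize_pos (P i) (f a)
      exact div_le_div_of_nonneg_left (by norm_num) h5 h4
    · positivity)
  rw [← hQ, hc] at h3
  exact h3

end Pool.Agent.TH486.LAC
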