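import Pool.Agent.H79.LA.W111_LAR_Odd

set_option autoImplicit false

/-!
Linear arboricity of Cayley graphs whose generators have large order.
-/

namespace Pool.Agent.W111.LAR

open Finset SimpleGraph H931R3.LA

variable {Γ : Type} [Group Γ]

/-- The graph of one generator. -/
def gen (s : Γ) (hs : s ≠ 1) : SimpleGraph Γ where
  Adj g h := h = g * s ∨ g = h * s
  symm.symm g h hh := hh.symm
  loopless.irrefl g h := by
    rcases h with h | h <;> exact hs (by simpa using h)

theorem gen_deg [Finite Γ] (s : Γ) (hs : s ≠ 1) (g : Γ) : ((gen s hs).neighborSet g).ncard ≤ 2 := by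
  have hsub : (gen s hs).neighborSet g ⊆ {g * s, g * s⁻¹} := by
    rintro h (hh | hh)
    · left; exact hh
    · right
      rw [Set.mem_singleton_iff, hh]
      group
  refine le_trans (Set.ncard_le_ncard hsub (Set.toFinite _)) ?_
  exact Set.ncard_insert_le _ _ |>.trans (by simp)

theorem gen_size [Finite Γ] (s : Γ) (hs : s ≠ 1) (g : Γ) : orderOf s ≤ csize (gen s hs) g := by
  have h1 : ∀ n : ℕ, (gen s hs).Reachable g (g * s ^ n) := by
    intro n
    induction n with
    | zero => simp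
    | succ n ih =>
      refine ih.trans (SimpleGraph.Adj.reachable ?_)
      left
      rw [pow_succ, mul_assoc]
  have h2 : (fun x => g * x) '' (Subgroup.zpowers s : Set Γ) ⊆ {h | (gen s hs).Reachable g h} := by
    rintro _ ⟨x, hx, rfl⟩
    have hx' : x ∈ Submonoid.powers s := mem_powers_iff_mem_zpowers.2 hx
    obtain ⟨n, rfl⟩ := hx'
    exact h1 n
  have h3 := Set.ncard_le_ncard h2 (Set.toFinite _)
  rw [Set.ncard_image_of_injective _ (mul_right_injective g)] at h3
  rw [← Nat.card_zpowers]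
  refine le_trans (le_of_eq ?_) h3
  rfl

/-- Halving a symmetric set without involutions. -/
theorem halve [Fintype Γ] [DecidableEq Γ] (S : Finset Γ) (hinv : ∀ s ∈ S, s⁻¹ ∈ S)
    (hno : ∀ s ∈ S, s * s ≠ 1) :
    ∃ T ⊆ S, (∀ s ∈ S, s ∈ T ∨ s⁻¹ ∈ T) ∧ S.card = 2 * T.card ∧
      ∀ f : Γ → ℝ, (∀ s, f s⁻¹ = f s) → ∑ s ∈ S, f s = 2 * ∑ s ∈ T, f s := by
  let code : Γ → ℕ := fun v => (Fintype.equivFin Γ v : ℕ)
  have hcode : ∀ v w, code v = code w → v = w := fun v w h =>
    (Fintype.equivFin Γ).injective (Fin.ext h)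
  let T := S.filter (fun s => code s < code s⁻¹)
  have hne : ∀ s ∈ S, code s ≠ code s⁻¹ := by
    intro s hs h
    have h1 := hcode _ _ h
    refine hno s hs ?_
    calc s * s = s * s⁻¹ := by rw [← h1]
      _ = 1 := mul_inv_cancel s
  have hS : ∀ f : Γ → ℝ, (∀ s, f s⁻¹ = f s) → ∑ s ∈ S, f s = 2 * ∑ s ∈ T, f s := by
    intro f hf
    rw [← sum_filter_add_sum_filter_not S (fun s => code s < code s⁻¹), two_mul]
    congr 1
    symm
    refine sum_bij (fun s _ => s⁻¹) ?_ ?_ ?_ ?_
    · intro s hs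
      obtain ⟨h1, h2⟩ := mem_filter.1 hs
      refine mem_filter.2 ⟨hinv s h1, ?_⟩
      rw [inv_inv]
      omega
    · intro s _ s' _ h
      exact inv_injective h
    · intro s hs
      obtain ⟨h1, h2⟩ := mem_filter.1 hs
      refine ⟨s⁻¹, mem_filter.2 ⟨hinv s h1, ?_⟩, inv_inv s⟩
      have := hne s h1
      rw [inv_inv]
      omega
    · intro s _
      exact (hf s).symm
  refine ⟨T, filter_subset _ _, ?_, ?_, hS⟩
  · intro s hs
    by_cases h : code s < code s⁻¹
    · left
      exact mem_filter.2 ⟨hs, h⟩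
    · right
      refine mem_filter.2 ⟨hinv s hs, ?_⟩
      have := hne s hs
      rw [inv_inv]
      omega
  · have h1 := hS (fun _ => 1) (fun _ => rfl)
    simp only [sum_const, nsmul_eq_mul, mul_one] at h1
    exact_mod_cast h1

theorem cay_deg [Finite Γ] (S : Finset Γ) (G : SimpleGraph Γ)
    (hG : ∀ g h, G.Adj g h ↔ g⁻¹ * h ∈ S) (g : Γ) : (G.neighborSet g).ncard = S.card := by
  have : G.neighborSet g = (fun x => g * x) '' (S : Set Γ) := by
    ext h
    constructor
    · intro hh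
      exact ⟨g⁻¹ * h, (hG g h).1 hh, by simp⟩
    · rintro ⟨x, hx, rfl⟩
      show G.Adj g (g * x)
      rw [hG]
      simpa using hx
  rw [this, Set.ncard_image_of_injective _ (mul_right_injective g), Set.ncard_coe_finset]

theorem cay_sup (T S : Finset Γ) (hTS : T ⊆ S) (hone : (1 : Γ) ∉ S) (hinv : ∀ s ∈ S, s⁻¹ ∈ S)
    (hT : ∀ s ∈ S, s ∈ T ∨ s⁻¹ ∈ T) (g h : Γ) :
    (⨆ s : T, gen s.1 (fun h => hone (h ▸ hTS s.2))).Adj g h ↔ g⁻¹ * h ∈ S := by
  rw [iSup_adj]
  constructor
  · rintro ⟨s, hs | hs⟩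
    · rw [hs, inv_mul_cancel_left]
      exact hTS s.2
    · rw [hs]
      have : (h * s.1)⁻¹ * h = s.1⁻¹ := by group
      rw [this]
      exact hinv _ (hTS s.2)
  · intro hS
    rcases hT _ hS with h1 | h1
    · exact ⟨⟨_, h1⟩, Or.inl (by simp)⟩
    · exact ⟨⟨_, h1⟩, Or.inr (by simp)⟩

/-- Cayley graphs without involutions. -/
theorem cay_even [Finite Γ] (S : Finset Γ) (hone : (1 : Γ) ∉ S) (hinv : ∀ s ∈ S, s⁻¹ ∈ S)
    (hno : ∀ s ∈ S, s * s ≠ 1) (hsum : ∑ s ∈ S, (1 : ℝ) / orderOf s ≤ 1) (G : SimpleGraph Γ)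
    (hG : ∀ g h, G.Adj g h ↔ g⁻¹ * h ∈ S) : Cov G (S.card / 2 + 1) := by
  classical
  have := Fintype.ofFinite Γ
  obtain ⟨T, hTS, hT, hcard, hf⟩ := halve S hinv hno
  have hGT : G = ⨆ s : T, gen s.1 (fun h => hone (h ▸ hTS s.2)) := by
    ext g h
    rw [hG, cay_sup T S hTS hone hinv hT]
  have h1 := cov_of_load (fun s : T => gen s.1 (fun h => hone (h ▸ hTS s.2)))
    (fun s g => gen_deg _ _ g) (by
      intro g
      refine le_trans ?_ hsum
      rw [hf (fun s => 1 / orderOf s) (fun s => by rw [orderOf_inv]), mul_sum,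
        ← sum_coe_sort T]
      refine sum_le_sum fun s _ => ?_
      have hpos : (0 : ℝ) < orderOf s.1 := by exact_mod_cast orderOf_pos s.1
      split_ifs with h
      · have h2 : (orderOf s.1 : ℝ) ≤ csize (gen s.1 (fun h => hone (h ▸ hTS s.2))) g := by
          exact_mod_cast gen_size _ _ g
        rw [mul_one_div]
        exact div_le_div_of_nonneg_left (by norm_num) hpos h2
      · positivity)
  rw [Fintype.card_coe, ← hGT] at h1
  have h2 : S.card / 2 = T.card := by omega
  rwa [h2]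

/-- Cayley graphs with one involution. -/
theorem cay_odd [Finite Γ] (S : Finset Γ) (hone : (1 : Γ) ∉ S) (hinv : ∀ s ∈ S, s⁻¹ ∈ S)
    (t : Γ) (ht : t ∈ S) (htt : t * t = 1) (hno : ∀ s ∈ S, s ≠ t → s * s ≠ 1)
    (hord : ∀ s ∈ S, s ≠ t → 6 * S.card ≤ orderOf s + 14) (G : SimpleGraph Γ)
    (hG : ∀ g h, G.Adj g h ↔ g⁻¹ * h ∈ S) : Cov G (S.card / 2 + 1) := by
  classical
  have := Fintype.ofFinite Γ
  have htinv : t⁻¹ = t := inv_eq_of_mul_eq_one_right htt
  have ht1 : t ≠ 1 := fun h => hone (h ▸ ht)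
  set S' := S.erase t with hS'
  have hS'S : S' ⊆ S := erase_subset _ _
  have hinv' : ∀ s ∈ S', s⁻¹ ∈ S' := by
    intro s hs
    obtain ⟨h1, h2⟩ := mem_erase.1 hs
    refine mem_erase.2 ⟨fun h => h1 ?_, hinv s h2⟩
    rw [← htinv, ← h, inv_inv]
  have hone' : (1 : Γ) ∉ S' := fun h => hone (hS'S h)
  obtain ⟨T, hTS, hT, hcard, _⟩ := halve S' hinv' (fun s hs => hno s (hS'S hs)
    (mem_erase.1 hs).1)
  have hScard : S.card = S'.card + 1 := (card_erase_add_one ht).symm
  let P : SimpleGraph Γ := gen t ht1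
  have hP : ∀ g, (P.neighborSet g).ncard ≤ 1 := by
    intro g
    have hsub : P.neighborSet g ⊆ {g * t} := by
      rintro h (hh | hh)
      · exact hh
      · rw [Set.mem_singleton_iff, hh, mul_assoc, htt, mul_one]
    exact le_trans (Set.ncard_le_ncard hsub (Set.toFinite _)) (by simp)
  have hGT : G = P ⊔ ⨆ s : T, gen s.1 (fun h => hone' (h ▸ hTS s.2)) := by
    ext g h
    rw [hG, sup_adj, cay_sup T S' hTS hone' hinv' hT]
    constructor
    · intro hh
      by_cases hgt : g⁻¹ * h = t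
      · left
        left
        rw [← hgt]; simp
      · right
        exact mem_erase.2 ⟨hgt, hh⟩
    · rintro ((h1 | h1) | h1)
      · rw [h1]; simpa using ht
      · rw [h1]
        have : (h * t)⁻¹ * h = t⁻¹ := by group
        rw [this, htinv]
        exact ht
      · exact hS'S h1
  have h1 := cov_matching (fun s : T => gen s.1 (fun h => hone' (h ▸ hTS s.2))) P
    (fun s g => gen_deg _ _ g) hP (6 * S.card - 14) (by
      rw [Fintype.card_coe]
      omega) (by
      intro s g _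
      have h2 := gen_size s.1 (fun h => hone' (h ▸ hTS s.2)) g
      have h3 := mem_erase.1 (hTS s.2)
      have h4 := hord s.1 h3.2 h3.1
      omega)
  rw [Fintype.card_coe, ← hGT] at h1
  have h2 : S.card / 2 = T.card := by omega
  rwa [h2]

end Pool.Agent.W111.LAR
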