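import Pool.Agent.H79.LA.W111_LAR_Girth
import Pool.Agent.H79.LA.W111_LAR_Cay

set_option autoImplicit false

/-!
Final assembly: linear arboricity of regular graphs of large girth and of Cayley graphs.
-/

namespace Pool.Agent.W111.LAR

open Finset SimpleGraph H931R3.LA

theorem la_eq_of_cov {V : Type} [Finite V] [Nonempty V] {G : SimpleGraph V} {r : ℕ} (hr : 0 < r)
    (hreg : ∀ v, (G.neighborSet v).ncard = r) (h : Cov G ((r + 2) / 2)) :
    la G = (r + 2) / 2 := by
  have h1 := la_le h
  have h2 : Cov G (la G) := la_le_iff.1 le_rfl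
  have h3 := lower hr h2 hreg
  omega

theorem even_girth {V : Type} [Finite V] [Nonempty V] (G : SimpleGraph V) (r : ℕ) (hr : 0 < r)
    (he : Even r) (hreg : ∀ v, (G.neighborSet v).ncard = r)
    (hcyc : ∀ (v : V) (c : G.Walk v v), c.IsCycle → r ≤ c.length) : la G = (r + 2) / 2 := by
  obtain ⟨k, rfl⟩ := he
  refine la_eq_of_cov hr hreg ?_
  have h1 := cov_girth G k k (by omega) (fun v => by rw [hreg v]; omega)
    (fun v c hc => by have := hcyc v c hc; omega)
  have h2 : (k + k - 1) / k = 1 := by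
    rw [Nat.div_eq_of_lt_le] <;> omega
  rw [h2] at h1
  have h3 : (k + k + 2) / 2 = k + 1 := by omega
  rwa [h3]

/-- Removing a spanning subgraph of degree one. -/
theorem ncard_sdiff_matching {V : Type} [Finite V] {G : SimpleGraph V} {M : G.Subgraph}
    (hM : M.IsPerfectMatching) (v : V) :
    (M.spanningCoe.neighborSet v).ncard = 1 ∧
      ((G \ M.spanningCoe).neighborSet v).ncard + 1 = (G.neighborSet v).ncard := by
  have h1 : (M.spanningCoe.neighborSet v).ncard = 1 := by
    obtain ⟨w, hw, hw'⟩ := hM.1 (hM.2 v)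
    rw [Set.ncard_eq_one]
    refine ⟨w, ?_⟩
    ext u
    constructor
    · intro hu
      exact hw' u hu
    · rintro rfl
      exact hw
  refine ⟨h1, ?_⟩
  have h2 : (G \ M.spanningCoe).neighborSet v = G.neighborSet v \ M.spanningCoe.neighborSet v := by
    ext u
    simp [SimpleGraph.sdiff_adj]
  have h3 : M.spanningCoe.neighborSet v ⊆ G.neighborSet v := fun u hu => M.adj_sub hu
  rw [h2, ← h1]
  exact Set.ncard_sdiff_add_ncard_of_subset h3 (Set.toFinite _)

theorem odd_girth {V : Type} [Finite V] [Nonempty V] (G : SimpleGraph V) (r : ℕ)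
    (ho : Odd r) (hreg : ∀ v, (G.neighborSet v).ncard = r)
    (hM : ∃ M : G.Subgraph, M.IsPerfectMatching)
    (hcyc : ∀ (v : V) (c : G.Walk v v), c.IsCycle → 6 * r ≤ c.length + 14) :
    la G = (r + 2) / 2 := by
  classical
  obtain ⟨k, rfl⟩ := ho
  obtain ⟨M, hM⟩ := hM
  refine la_eq_of_cov (by omega) hreg ?_
  have hle : G \ M.spanningCoe ≤ G := sdiff_le
  obtain ⟨H, hH, hsup⟩ := decomp (G \ M.spanningCoe) k (fun v => by
    have := (ncard_sdiff_matching hM v).2
    rw [hreg v] at this
    omega)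
  have h1 := cov_matching H M.spanningCoe hH (fun v => (ncard_sdiff_matching hM v).1.le)
    (12 * k - 8) (by rw [Fintype.card_fin]; omega) (fun i v h => by
      obtain ⟨w, c, hc, hlen⟩ := exists_cycle h
      have hle' : H i ≤ G := (le_iSup H i).trans (hsup.le.trans hle)
      have h2 := hcyc w (c.mapLe hle') (hc.mapLe hle')
      rw [Walk.length_mapLe] at h2
      omega)
  rw [Fintype.card_fin, hsup] at h1
  have h4 : M.spanningCoe ⊔ G \ M.spanningCoe = G := by
    rw [sup_sdiff_self_right]
    exact sup_eq_right.2 (fun u w h => M.adj_sub h)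
  rw [h4] at h1
  have h3 : (2 * k + 1 + 2) / 2 = k + 1 := by omega
  rwa [h3]

end Pool.Agent.W111.LAR
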