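import Mathlib

/-!
Decomposition of a nonnegative integer matrix with constant line sums into permutations.
-/

namespace Pool.Agent.H150R2.ZSF

open Finset
open scoped Classical

theorem exists_perm {V : Type*} [Fintype V] (M : V → V → ℕ) (k : ℕ) (hk : k ≠ 0)
    (hrow : ∀ v, ∑ w, M v w = k) (hcol : ∀ w, ∑ v, M v w = k) :
    ∃ σ : Equiv.Perm V, ∀ v, M v (σ v) ≠ 0 := by
  have hall : ∀ s : Finset V, s.card ≤ (s.biUnion (fun v => univ.filter (fun w => M v w ≠ 0))).card := by
    intro s
    set N := s.biUnion (fun v => univ.filter (fun w => M v w ≠ 0)) with hN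
    have h1 : k * s.card = ∑ v ∈ s, ∑ w ∈ N, M v w := by
      rw [mul_comm, ← smul_eq_mul, ← Finset.sum_const]
      apply Finset.sum_congr rfl
      intro v hv
      rw [← hrow v]
      symm
      apply Finset.sum_subset (Finset.subset_univ _)
      intro w _ hw
      by_contra h
      apply hw
      rw [hN, Finset.mem_biUnion]
      exact ⟨v, hv, by simpa using h⟩
    have h2 : ∑ v ∈ s, ∑ w ∈ N, M v w ≤ k * N.card := by
      rw [Finset.sum_comm, mul_comm, ← smul_eq_mul, ← Finset.sum_const]
      apply Finset.sum_le_sum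
      intro w _
      rw [← hcol w]
      exact Finset.sum_le_sum_of_subset (Finset.subset_univ _)
    rw [← h1] at h2
    exact Nat.le_of_mul_le_mul_left h2 (Nat.pos_of_ne_zero hk)
  obtain ⟨f, hf, hft⟩ := (Finset.all_card_le_biUnion_card_iff_exists_injective _).1 hall
  refine ⟨Equiv.ofBijective f (Finite.injective_iff_bijective.1 hf), ?_⟩
  intro v
  have := hft v
  simpa using this

theorem koenig {V : Type*} [Fintype V] (k : ℕ) : ∀ (M : V → V → ℕ)
    (_ : ∀ v, ∑ w, M v w = k) (_ : ∀ w, ∑ v, M v w = k),
    ∃ σ : Fin k → Equiv.Perm V, ∀ v w, M v w = ∑ i, (if σ i v = w then 1 else 0) := by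
  induction k with
  | zero =>
    intro M hrow _
    refine ⟨fun i => Fin.elim0 i, ?_⟩
    intro v w
    rw [Finset.univ_eq_empty, Finset.sum_empty]
    exact (Finset.sum_eq_zero_iff.1 (hrow v)) w (Finset.mem_univ w)
  | succ k ih =>
    intro M hrow hcol
    obtain ⟨σ0, hσ0⟩ := exists_perm M (k + 1) (by omega) hrow hcol
    have hle : ∀ v w, (if σ0 v = w then 1 else 0) ≤ M v w := by
      intro v w
      by_cases h : σ0 v = w
      · rw [if_pos h, ← h]
        exact Nat.pos_of_ne_zero (hσ0 v)
      · rw [if_neg h]; exact Nat.zero_le _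
    have hr1 : ∀ v, ∑ w, (if σ0 v = w then 1 else 0) = 1 := by
      intro v; simp
    have hc1 : ∀ w, ∑ v, (if σ0 v = w then 1 else 0) = 1 := by
      intro w
      rw [Finset.sum_eq_single (σ0.symm w)]
      · simp
      · intro b _ hb
        rw [if_neg]
        intro h
        apply hb
        rw [← h]; simp
      · intro h; exact absurd (Finset.mem_univ _) h
    obtain ⟨σ, hσ⟩ := ih (fun v w => M v w - (if σ0 v = w then 1 else 0))
      (by
        intro v
        have h1 : ∑ w, (M v w - (if σ0 v = w then 1 else 0)) + ∑ w, (if σ0 v = w then 1 else 0)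
            = ∑ w, M v w := by
          rw [← Finset.sum_add_distrib]
          apply Finset.sum_congr rfl
          intro w _
          exact Nat.sub_add_cancel (hle v w)
        rw [hr1, hrow] at h1
        exact Nat.add_right_cancel h1)
      (by
        intro w
        have h1 : ∑ v, (M v w - (if σ0 v = w then 1 else 0)) + ∑ v, (if σ0 v = w then 1 else 0)
            = ∑ v, M v w := by
          rw [← Finset.sum_add_distrib]
          apply Finset.sum_congr rfl
          intro v _
          exact Nat.sub_add_cancel (hle v w)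
        rw [hc1, hcol] at h1
        exact Nat.add_right_cancel h1)
    refine ⟨Fin.cons σ0 σ, ?_⟩
    intro v w
    rw [Fin.sum_univ_succ]
    simp only [Fin.cons_zero, Fin.cons_succ]
    rw [← hσ v w]
    exact (Nat.add_sub_cancel' (hle v w)).symm

end Pool.Agent.H150R2.ZSF
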