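import Pool.Agent.H79.LA.MPd14d18_Core
set_option autoImplicit false
namespace Pool.Agent.MPd14d18

open Finset

section count

variable {W : Type*} [Fintype W] [DecidableEq W]

theorem sum_mu (L : Finset ℕ) (m : ℕ → W → W) (u : W) : ∑ w, mu L m u w = L.card := by
  unfold mu
  rw [Finset.sum_comm]
  simp

theorem missing_add (L : Finset ℕ) (m : ℕ → W → W) (u : W) :
    (L.filter (fun c => m c u = u)).card + ∑ w ∈ univ.erase u, mu L m u w = L.card := by
  rw [← mu_eq_card, Finset.add_sum_erase univ (fun w => mu L m u w) (mem_univ u), sum_mu]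

end count

section star

variable {V : Type*} [Fintype V] [DecidableEq V]

/-- the prescribed multiplicities -/
def tgt (Γ : SimpleGraph V) [DecidableRel Γ.Adj] (F : V → Finset ℕ) (X : Finset V) :
    Option V → Option V → ℕ
  | some a, some b => if Γ.Adj a b ∧ a ∈ X ∧ b ∈ X then 1 else 0
  | some a, none => if a ∈ X then (F a).card else 0
  | none, some a => if a ∈ X then (F a).card else 0
  | none, none => 0

omit [Fintype V] in
theorem tgt_self (Γ : SimpleGraph V) [DecidableRel Γ.Adj] (F : V → Finset ℕ) (X : Finset V)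
    (u : Option V) : tgt Γ F X u u = 0 := by
  cases u <;> simp [tgt]

theorem missing_tgt (Γ : SimpleGraph V) [DecidableRel Γ.Adj] (F : V → Finset ℕ) (X : Finset V)
    (L : Finset ℕ) (m : ℕ → Option V → Option V)
    (hm : ∀ u w, u ≠ w → mu L m u w = tgt Γ F X u w) (u : Option V) :
    (L.filter (fun c => m c u = u)).card + ∑ w, tgt Γ F X u w = L.card := by
  rw [← missing_add L m u]
  congr 1
  rw [← Finset.sum_erase univ (tgt_self Γ F X u)]
  refine Finset.sum_congr rfl fun w hw => ?_
  rw [mem_erase] at hw
  exact (hm u w hw.1.symm).symm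

theorem sum_tgt_some (Γ : SimpleGraph V) [DecidableRel Γ.Adj] (F : V → Finset ℕ) (X : Finset V)
    (a : V) (ha : a ∈ X) :
    ∑ w, tgt Γ F X (some a) w = (F a).card + (X.filter (fun b => Γ.Adj a b)).card := by
  rw [Fintype.sum_option]
  congr 1
  · simp [tgt, ha]
  · rw [Finset.card_filter, ← Finset.sum_subset (Finset.subset_univ X)]
    · refine Finset.sum_congr rfl fun b hb => ?_
      simp [tgt, ha, hb]
    · intro b _ hb
      simp [tgt, hb]

theorem sum_tgt_some_not (Γ : SimpleGraph V) [DecidableRel Γ.Adj] (F : V → Finset ℕ)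
    (X : Finset V) (a : V) (ha : a ∉ X) :
    ∑ w, tgt Γ F X (some a) w = 0 := by
  apply Finset.sum_eq_zero
  intro w _
  cases w <;> simp [tgt, ha]

theorem sum_tgt_none (Γ : SimpleGraph V) [DecidableRel Γ.Adj] (F : V → Finset ℕ) (X : Finset V) :
    ∑ w, tgt Γ F X none w = ∑ a ∈ X, (F a).card := by
  rw [Fintype.sum_option]
  have : tgt Γ F X none none = 0 := rfl
  rw [this, zero_add, ← Finset.sum_subset (Finset.subset_univ X)]
  · refine Finset.sum_congr rfl fun b hb => ?_
    simp [tgt, hb]
  · intro b _ hb
    simp [tgt, hb]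

theorem star_step (Γ : SimpleGraph V) [DecidableRel Γ.Adj] (F : V → Finset ℕ) (L : Finset ℕ)
    (D : ℕ) (hdeg : ∀ v, Γ.degree v + (F v).card ≤ D) (hsum : ∑ v, (F v).card ≤ D)
    (hL : D + 1 ≤ L.card) (X : Finset V) (x : V) (hx : x ∉ X) (hFx : (F x).card ≤ 1)
    (hP : ∃ m : ℕ → Option V → Option V, (∀ c v, m c (m c v) = v) ∧
      ∀ u w, u ≠ w → mu L m u w = tgt Γ F X u w) :
    ∃ m : ℕ → Option V → Option V, (∀ c v, m c (m c v) = v) ∧
      ∀ u w, u ≠ w → mu L m u w = tgt Γ F (insert x X) u w := by
  classical
  obtain ⟨m, hm, hmu⟩ := hP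
  have hmiss := missing_tgt Γ F X L m hmu
  let U : Finset (Option V) := univ.filter (fun w => (∃ a, w = some a ∧ a ∈ X ∧ Γ.Adj x a) ∨
    (w = none ∧ (F x).card = 1))
  have hUs : ∀ a, some a ∈ U ↔ a ∈ X ∧ Γ.Adj x a := by
    intro a
    simp [U]
  have hUn : none ∈ U ↔ (F x).card = 1 := by
    simp [U]
  have hiso : ∀ c ∈ L, m c (some x) = some x := by
    have h1 := hmiss (some x)
    rw [sum_tgt_some_not Γ F X x hx, add_zero] at h1
    exact Finset.card_filter_eq_iff.mp h1
  have hxU : some x ∉ U := by
    rw [hUs]; exact fun h => hx h.1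
  have hUc : U.card ≤ L.card := by
    have h1 : U.card = ∑ w : Option V, if w ∈ U then 1 else 0 := by
      simp
    rw [Fintype.sum_option] at h1
    have h2 : (if none ∈ U then 1 else 0) ≤ (F x).card := by
      by_cases h : (F x).card = 1
      · rw [if_pos (hUn.mpr h)]; omega
      · rw [if_neg (fun h' => h (hUn.mp h'))]; omega
    have h3 : (∑ a : V, if some a ∈ U then 1 else 0) ≤ Γ.degree x := by
      rw [← SimpleGraph.card_neighborFinset_eq_degree, ← Finset.card_filter]
      apply Finset.card_le_card
      intro a ha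
      rw [mem_filter, hUs] at ha
      rw [SimpleGraph.mem_neighborFinset]
      exact ha.2.2
    have h4 := hdeg x
    omega
  obtain ⟨m', hm', -, hmu'⟩ := add_vertex (some x) L.card L rfl m hm hiso U (some x) hxU hUc
    (by
      intro u hu
      have h2 : 2 ≤ (L.filter (fun c => m c u = u)).card := by
        have h1 := hmiss u
        cases u with
        | some a =>
          rw [hUs] at hu
          rw [sum_tgt_some Γ F X a hu.1] at h1
          have h3 : (X.filter (fun b => Γ.Adj a b)).card + 1 ≤ Γ.degree a := by
            rw [← SimpleGraph.card_neighborFinset_eq_degree,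
              ← Finset.card_insert_of_notMem (a := x) (s := X.filter (fun b => Γ.Adj a b))
                (fun h => hx (mem_filter.mp h).1)]
            apply Finset.card_le_card
            intro b hb
            rw [mem_insert, mem_filter] at hb
            rw [SimpleGraph.mem_neighborFinset]
            rcases hb with rfl | hb
            · exact hu.2.symm
            · exact hb.2
          have h4 := hdeg a
          omega
        | none =>
          rw [hUn] at hu
          rw [sum_tgt_none] at h1
          have h3 : ∑ a ∈ X, (F a).card + (F x).card ≤ ∑ v, (F v).card := by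
            rw [add_comm, ← Finset.sum_insert (f := fun v => (F v).card) hx]
            exact Finset.sum_le_sum_of_subset (Finset.subset_univ _)
          omega
      split_ifs <;> omega)
  refine ⟨m', hm', ?_⟩
  intro u w huw
  rw [hmu' u w huw, hmu u w huw]
  cases u with
  | some a =>
    cases w with
    | some b =>
      simp only [tgt, Option.some.injEq, mem_insert, hUs]
      have hab : a ≠ b := fun h => huw (by rw [h])
      by_cases hax : a = x
      · subst hax
        have hbx : b ≠ a := hab.symm
        by_cases hbX : b ∈ X <;> by_cases hadj : Γ.Adj a b <;> simp [hbX, hadj, hx, hbx]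
      · by_cases hbx : b = x
        · subst hbx
          have hadj' : Γ.Adj b a ↔ Γ.Adj a b := Γ.adj_comm b a
          by_cases haX : a ∈ X <;> by_cases hadj : Γ.Adj a b <;>
            simp [haX, hadj, hadj', hx, hax]
        · simp [hax, hbx]
    | none =>
      simp only [tgt, Option.some.injEq, mem_insert, hUn]
      by_cases hax : a = x
      · subst hax
        by_cases h1 : (F a).card = 1
        · simp [hx, h1]
        · have h0 : (F a).card = 0 := by omega
          simp [hx, h0]
      · simp [hax]
  | none =>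
    cases w with
    | some b =>
      simp only [tgt, Option.some.injEq, mem_insert, hUn]
      by_cases hbx : b = x
      · subst hbx
        by_cases h1 : (F b).card = 1
        · simp [hx, h1]
        · have h0 : (F b).card = 0 := by omega
          simp [hx, h0]
      · simp [hbx]
    | none => exact absurd rfl huw

/-- multiplicities while the edges inside `B` are being added -/
def tgtE (F : V → Finset ℕ) (B : Finset V) (T : Finset (Sym2 V)) :
    Option V → Option V → ℕ
  | some a, some b => if s(a, b) ∈ T then 1 else 0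
  | some a, none => if a ∈ B then (F a).card else 0
  | none, some a => if a ∈ B then (F a).card else 0
  | none, none => 0

omit [Fintype V] in
theorem star_base_zero (F : V → Finset ℕ) (L : Finset ℕ) (hFL : ∀ v, F v ⊆ L)
    (hdisj : ∀ u v, u ≠ v → Disjoint (F u) (F v)) (B : Finset V) :
    ∃ m : ℕ → Option V → Option V, (∀ c v, m c (m c v) = v) ∧
      ∀ u w, u ≠ w → mu L m u w = tgtE F B ∅ u w := by
  classical
  let own : ℕ → Option V := fun c => if h : ∃ v ∈ B, c ∈ F v then some h.choose else none
  have hown : ∀ c a, own c = some a ↔ a ∈ B ∧ c ∈ F a := by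
    intro c a
    constructor
    · intro h
      by_cases h' : ∃ v ∈ B, c ∈ F v
      · simp only [own, dif_pos h', Option.some.injEq] at h
        rw [← h]
        exact h'.choose_spec
      · simp only [own, dif_neg h'] at h
        exact absurd h (by simp)
    · intro h
      have h' : ∃ v ∈ B, c ∈ F v := ⟨a, h.1, h.2⟩
      simp only [own, dif_pos h', Option.some.injEq]
      by_contra hne
      have := Finset.disjoint_left.mp (hdisj _ _ hne) h'.choose_spec.2
      exact this h.2
  refine ⟨fun c w => Equiv.swap none (own c) w, fun c w => by simp, ?_⟩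
  have hcount : ∀ a, (L.filter (fun c => own c = some a)).card =
      if a ∈ B then (F a).card else 0 := by
    intro a
    by_cases ha : a ∈ B
    · rw [if_pos ha]
      congr 1
      ext c
      rw [mem_filter, hown]
      exact ⟨fun h => h.2.2, fun h => ⟨hFL a h, ha, h⟩⟩
    · rw [if_neg ha, Finset.card_eq_zero, Finset.filter_eq_empty_iff]
      intro c _ h
      rw [hown] at h
      exact ha h.1
  intro u w huw
  rw [mu_eq_card]
  cases u with
  | some a =>
    cases w with
    | some b =>
      have hab : a ≠ b := fun h => huw (by rw [h])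
      simp only [tgtE, Finset.notMem_empty, if_false]
      rw [Finset.card_eq_zero, Finset.filter_eq_empty_iff]
      intro c _ h
      by_cases ho : own c = some a
      · rw [ho, Equiv.swap_apply_right] at h
        exact absurd h (by simp)
      · rw [Equiv.swap_apply_of_ne_of_ne (by simp) (fun h => ho h.symm)] at h
        exact hab (Option.some.inj h)
    | none =>
      simp only [tgtE]
      rw [← hcount a]
      congr 1
      apply Finset.filter_congr
      intro c _
      constructor
      · intro h
        by_contra ho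
        rw [Equiv.swap_apply_of_ne_of_ne (by simp) (fun h => ho h.symm)] at h
        exact absurd h (by simp)
      · intro ho
        rw [ho, Equiv.swap_apply_right]
  | none =>
    cases w with
    | some b =>
      simp only [tgtE]
      rw [← hcount b]
      have h1 : (L.filter (fun c => (Equiv.swap none (own c)) none = some b)) =
          L.filter (fun c => own c = some b) := by
        apply Finset.filter_congr
        intro c _
        rw [Equiv.swap_apply_left]
      exact congrArg Finset.card h1
    | none => exact absurd rfl huw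

theorem star_base (F : V → Finset ℕ) (L : Finset ℕ) (D : ℕ) (hFL : ∀ v, F v ⊆ L)
    (hdisj : ∀ u v, u ≠ v → Disjoint (F u) (F v)) (hsum : ∑ v, (F v).card ≤ D)
    (hL : D + 1 ≤ L.card) (B : Finset V) (hB : ∀ v ∈ B, 2 ≤ (F v).card) (T : Finset (Sym2 V)) :
    (∀ a b, s(a, b) ∈ T → a ≠ b ∧ a ∈ B ∧ b ∈ B) →
    ∃ m : ℕ → Option V → Option V, (∀ c v, m c (m c v) = v) ∧
      ∀ u w, u ≠ w → mu L m u w = tgtE F B T u w := by
  classical
  induction T using Finset.induction_on with
  | empty => intro _; exact star_base_zero F L hFL hdisj B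
  | insert e T heT ih =>
    intro hT
    obtain ⟨m, hm, hmu⟩ := ih (fun a b h => hT a b (mem_insert_of_mem h))
    induction e using Sym2.ind with
    | _ a b =>
    obtain ⟨hab, haB, hbB⟩ := hT a b (mem_insert_self _ _)
    -- counting the colours present
    have hpres : ∀ p q : V, p ≠ q → p ∈ B → q ∈ B → s(p, q) ∉ T →
        (L.filter (fun c => m c (some p) ≠ some p)).card + 2 ≤ (F p).card + B.card := by
      intro p q hpq hp hq hnot
      have h1 := missing_add L m (some p)
      have h2 : (L.filter (fun c => m c (some p) = some p)).card +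
          (L.filter (fun c => ¬ (m c (some p) = some p))).card = L.card :=
        Finset.card_filter_add_card_filter_not _
      have h3 : ∑ w ∈ univ.erase (some p), mu L m (some p) w =
          ∑ w ∈ univ.erase (some p), tgtE F B T (some p) w := by
        refine Finset.sum_congr rfl fun w hw => ?_
        rw [mem_erase] at hw
        exact hmu _ _ hw.1.symm
      have h4 : ∑ w ∈ univ.erase (some p), tgtE F B T (some p) w ≤
          (F p).card + (B.card - 2) := by
        have h5 : tgtE F B T (some p) (some p) = 0 := by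
          simp only [tgtE]
          rw [if_neg]
          intro h
          exact (hT p p (mem_insert_of_mem h)).1 rfl
        rw [Finset.sum_erase univ h5, Fintype.sum_option]
        apply add_le_add
        · simp [tgtE, hp]
        · have h6 : ∑ b', tgtE F B T (some p) (some b') =
              (univ.filter (fun b' => s(p, b') ∈ T)).card := by
            rw [Finset.card_filter]
            rfl
          rw [h6]
          have h7 : ((B.erase p).erase q).card = B.card - 2 := by
            rw [Finset.card_erase_of_mem (mem_erase.mpr ⟨hpq.symm, hq⟩),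
              Finset.card_erase_of_mem hp]
            omega
          rw [← h7]
          apply Finset.card_le_card
          intro b' hb'
          rw [mem_filter] at hb'
          have h8 := hT p b' (mem_insert_of_mem hb'.2)
          rw [mem_erase, mem_erase]
          refine ⟨?_, h8.1.symm, h8.2.2⟩
          rintro rfl
          exact hnot hb'.2
      have h9 : 2 ≤ B.card := by
        have : ({p, q} : Finset V) ⊆ B := by
          intro r hr
          rw [mem_insert, mem_singleton] at hr
          rcases hr with rfl | rfl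
          · exact hp
          · exact hq
        have h10 := Finset.card_le_card this
        rwa [Finset.card_pair hpq] at h10
      rw [h3] at h1
      have h11 : (L.filter (fun c => m c (some p) ≠ some p)).card =
        (L.filter (fun c => ¬ (m c (some p) = some p))).card := rfl
      omega
    have hpa := hpres a b hab haB hbB heT
    have hpb := hpres b a hab.symm hbB haB (by rw [Sym2.eq_swap]; exact heT)
    have hsumB : (F a).card + (F b).card + 2 * (B.card - 2) ≤ ∑ v, (F v).card := by
      have h1 : ∑ v ∈ B, (F v).card ≤ ∑ v, (F v).card :=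
        Finset.sum_le_sum_of_subset (Finset.subset_univ B)
      rw [← Finset.add_sum_erase B (fun v => (F v).card) haB,
        ← Finset.add_sum_erase (B.erase a) (fun v => (F v).card)
          (mem_erase.mpr ⟨hab.symm, hbB⟩)] at h1
      have h2 : ((B.erase a).erase b).card = B.card - 2 := by
        rw [Finset.card_erase_of_mem (mem_erase.mpr ⟨hab.symm, hbB⟩),
          Finset.card_erase_of_mem haB]
        omega
      have h3 : 2 * (B.card - 2) ≤ ∑ v ∈ (B.erase a).erase b, (F v).card := by
        rw [← h2, mul_comm, ← smul_eq_mul]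
        apply Finset.card_nsmul_le_sum
        intro v hv
        exact hB v (mem_of_mem_erase (mem_of_mem_erase hv))
      omega
    have hB2 : 2 ≤ B.card := by
      have : ({a, b} : Finset V) ⊆ B := by
        intro r hr
        rw [mem_insert, mem_singleton] at hr
        rcases hr with rfl | rfl
        · exact haB
        · exact hbB
      have h10 := Finset.card_le_card this
      rwa [Finset.card_pair hab] at h10
    obtain ⟨c, hcL, hca, hcb⟩ : ∃ c ∈ L, m c (some a) = some a ∧ m c (some b) = some b := by
      by_contra hno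
      push Not at hno
      have hsub : L ⊆ (L.filter (fun c => m c (some a) ≠ some a)) ∪
          (L.filter (fun c => m c (some b) ≠ some b)) := by
        intro c hc
        rw [mem_union, mem_filter, mem_filter]
        by_cases h : m c (some a) = some a
        · exact Or.inr ⟨hc, hno c hc h⟩
        · exact Or.inl ⟨hc, h⟩
      have h1 := Finset.card_le_card hsub
      have h2 := Finset.card_union_le (L.filter (fun c => m c (some a) ≠ some a))
        (L.filter (fun c => m c (some b) ≠ some b))
      omega
    obtain ⟨m', hm', -, hmu'⟩ := add_edge L m hm c hcL (some a) (some b)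
      (fun h => hab (Option.some.inj h)) hca hcb
    refine ⟨m', hm', ?_⟩
    intro u w huw
    rw [hmu' u w huw, hmu u w huw]
    cases u with
    | some p =>
      cases w with
      | some q =>
        simp only [tgtE, Option.some.injEq, mem_insert, Sym2.eq_iff]
        by_cases h1 : (p = a ∧ q = b) ∨ (p = b ∧ q = a)
        · have h2 : s(p, q) ∉ T := by
            rcases h1 with ⟨rfl, rfl⟩ | ⟨rfl, rfl⟩
            · exact heT
            · rw [Sym2.eq_swap]; exact heT
          simp [h1, h2]
        · simp [h1]
      | none => simp [tgtE]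
    | none =>
      cases w with
      | some q => simp [tgtE]
      | none => exact absurd rfl huw

theorem star_family (Γ : SimpleGraph V) [DecidableRel Γ.Adj] (F : V → Finset ℕ) (L : Finset ℕ)
    (D : ℕ) (hdeg : ∀ v, Γ.degree v + (F v).card ≤ D) (hFL : ∀ v, F v ⊆ L)
    (hdisj : ∀ u v, u ≠ v → Disjoint (F u) (F v)) (hsum : ∑ v, (F v).card ≤ D)
    (hL : D + 1 ≤ L.card) :
    ∃ m : ℕ → Option V → Option V, (∀ c v, m c (m c v) = v) ∧
      ∀ u w, u ≠ w → mu L m u w = tgt Γ F univ u w := by
  classical
  let B : Finset V := univ.filter (fun v => 2 ≤ (F v).card)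
  have hBmem : ∀ v, v ∈ B ↔ 2 ≤ (F v).card := by intro v; simp [B]
  let T : Finset (Sym2 V) := Γ.edgeFinset.filter (fun e => ∀ a ∈ e, a ∈ B)
  have hTmem : ∀ a b, s(a, b) ∈ T ↔ Γ.Adj a b ∧ a ∈ B ∧ b ∈ B := by
    intro a b
    simp [T]
  obtain ⟨m0, hm0, hmu0⟩ := star_base F L D hFL hdisj hsum hL B
    (fun v hv => (hBmem v).mp hv) T (by
      intro a b h
      rw [hTmem] at h
      exact ⟨h.1.ne, h.2⟩)
  have hbase : ∃ m : ℕ → Option V → Option V, (∀ c v, m c (m c v) = v) ∧
      ∀ u w, u ≠ w → mu L m u w = tgt Γ F B u w := by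
    refine ⟨m0, hm0, fun u w huw => ?_⟩
    rw [hmu0 u w huw]
    cases u <;> cases w <;> simp [tgt, tgtE, hTmem]
  have hall : ∀ Y : Finset V, (∀ y ∈ Y, y ∉ B) →
      ∃ m : ℕ → Option V → Option V, (∀ c v, m c (m c v) = v) ∧
      ∀ u w, u ≠ w → mu L m u w = tgt Γ F (B ∪ Y) u w := by
    intro Y
    induction Y using Finset.induction_on with
    | empty => intro _; rw [Finset.union_empty]; exact hbase
    | insert y Y hy ih =>
      intro hY
      have h1 := ih (fun z hz => hY z (mem_insert_of_mem hz))
      have hyB := hY y (mem_insert_self _ _)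
      have h2 := star_step Γ F L D hdeg hsum hL (B ∪ Y) y
        (by rw [mem_union]; rintro (h | h); exacts [hyB h, hy h])
        (by rw [hBmem] at hyB; omega) h1
      rwa [← Finset.union_insert] at h2
  obtain ⟨m, hm, hmu⟩ := hall (univ \ B) (fun y hy => (mem_sdiff.mp hy).2)
  refine ⟨m, hm, fun u w huw => ?_⟩
  rw [hmu u w huw]
  have : B ∪ (univ \ B) = univ := by
    ext v; simp
  rw [this]

/-- Vizing's theorem in terms of involutions. -/
theorem vizing_family (Γ : SimpleGraph V) [DecidableRel Γ.Adj] (L : Finset ℕ)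
    (D : ℕ) (hdeg : ∀ v, Γ.degree v ≤ D) (hL : D + 1 ≤ L.card) :
    ∃ N : ℕ → V → V, (∀ c v, N c (N c v) = v) ∧
      (∀ c ∈ L, ∀ v, N c v ≠ v → Γ.Adj v (N c v)) ∧
      (∀ c ∈ L, ∀ c' ∈ L, ∀ v, N c v ≠ v → N c v = N c' v → c = c') ∧
      (∀ v, (L.filter (fun c => N c v = v)).card + Γ.degree v = L.card) := by
  classical
  obtain ⟨m, hm, hmu⟩ := star_family Γ (fun _ => ∅) L D (by simpa using hdeg) (by simp)
    (by simp) (by simp) hL
  have hnone : ∀ c ∈ L, ∀ v, m c (some v) ≠ none := by
    intro c hc v h
    have h1 := hmu (some v) none (by simp)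
    rw [mu_eq_card] at h1
    simp only [tgt, mem_univ, if_true, Finset.card_empty, Finset.card_eq_zero,
      Finset.filter_eq_empty_iff] at h1
    exact h1 hc h
  have hadj : ∀ v w, v ≠ w → (L.filter (fun c => m c (some v) = some w)).card =
      if Γ.Adj v w then 1 else 0 := by
    intro v w hvw
    have h1 := hmu (some v) (some w) (by simpa using hvw)
    rw [mu_eq_card] at h1
    simpa [tgt] using h1
  let N : ℕ → V → V := fun c v => if c ∈ L then (m c (some v)).getD v else v
  have hN : ∀ c ∈ L, ∀ v, some (N c v) = m c (some v) := by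
    intro c hc v
    simp only [N, hc, if_true]
    obtain ⟨w, hw⟩ := Option.ne_none_iff_exists'.mp (hnone c hc v)
    rw [hw]; rfl
  refine ⟨N, ?_, ?_, ?_, ?_⟩
  · intro c v
    by_cases hc : c ∈ L
    · have h1 := hN c hc (N c v)
      rw [hN c hc v, hm] at h1
      exact Option.some.inj h1
    · simp only [N, hc, if_false]
  · intro c hc v hne
    have h1 := hadj v (N c v) hne.symm
    by_contra hcon
    rw [if_neg hcon, Finset.card_eq_zero, Finset.filter_eq_empty_iff] at h1
    exact h1 hc (hN c hc v).symm
  · intro c hc c' hc' v hne heq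
    have h1 := hadj v (N c v) hne.symm
    have h2 : (L.filter (fun k => m k (some v) = some (N c v))).card ≤ 1 := by
      rw [h1]; split_ifs <;> omega
    rw [Finset.card_le_one] at h2
    apply h2
    · rw [mem_filter]; exact ⟨hc, (hN c hc v).symm⟩
    · rw [mem_filter]; refine ⟨hc', ?_⟩
      rw [heq]; exact (hN c' hc' v).symm
  · intro v
    have h1 := missing_tgt Γ (fun _ => ∅) univ L m hmu (some v)
    rw [sum_tgt_some _ _ _ _ (mem_univ v)] at h1
    have h2 : (L.filter (fun c => N c v = v)) = L.filter (fun c => m c (some v) = some v) := by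
      apply Finset.filter_congr
      intro c hc
      rw [← hN c hc v]
      simp
    rw [h2, ← h1]
    congr 1
    rw [Finset.card_empty, zero_add, ← SimpleGraph.card_neighborFinset_eq_degree]
    congr 1
    ext w
    simp

/-- The star version of Vizing's theorem: pairwise disjoint forbidden sets. -/
theorem star_colouring (Γ : SimpleGraph V) [DecidableRel Γ.Adj] (F : V → Finset ℕ)
    (L : Finset ℕ) (D : ℕ) (hdeg : ∀ v, Γ.degree v + (F v).card ≤ D) (hFL : ∀ v, F v ⊆ L)
    (hdisj : ∀ u v, u ≠ v → Disjoint (F u) (F v)) (hsum : ∑ v, (F v).card ≤ D)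
    (hL : D + 1 ≤ L.card) :
    ∃ φ : V → V → ℕ, (∀ u v, φ u v = φ v u) ∧
      (∀ u v, Γ.Adj u v → φ u v ∈ L ∧ φ u v ∉ F u) ∧
      (∀ u v w, Γ.Adj u v → Γ.Adj u w → v ≠ w → φ u v ≠ φ u w) := by
  classical
  obtain ⟨m, hm, hmu⟩ := star_family Γ F L D hdeg hFL hdisj hsum hL
  let T : V → Finset ℕ := fun a => L.filter (fun c => m c (some a) = none)
  have hTc : ∀ a, (T a).card = (F a).card := by
    intro a
    have h1 := hmu (some a) none (by simp)
    rw [mu_eq_card] at h1
    simpa [tgt] using h1
  have hTd : ∀ a b c, c ∈ T a → c ∈ T b → a = b := by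
    intro a b c ha hb
    simp only [T, mem_filter] at ha hb
    have h1 : m c none = some a := by rw [← ha.2, hm]
    have h2 : m c none = some b := by rw [← hb.2, hm]
    rw [h1] at h2
    exact Option.some.inj h2
  let q : ∀ a, (T a) ≃ (F a) := fun a => Finset.equivOfCardEq (hTc a)
  let f : {c // c ∈ L} → ℕ := fun c => if h : ∃ a, c.1 ∈ T a then (q h.choose ⟨c.1, h.choose_spec⟩).1
    else 0
  have hf : ∀ (c : {c // c ∈ L}) (a : V) (h : c.1 ∈ T a), f c = (q a ⟨c.1, h⟩).1 := by
    intro c a h
    have hex : ∃ a, c.1 ∈ T a := ⟨a, h⟩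
    have h1 : f c = (q hex.choose ⟨c.1, hex.choose_spec⟩).1 := by
      simp only [f, dif_pos hex]
    rw [h1]
    have h2 : hex.choose = a := hTd _ _ _ hex.choose_spec h
    have h3 : ∀ (b : V) (hb : c.1 ∈ T b), b = a → (q b ⟨c.1, hb⟩).1 = (q a ⟨c.1, h⟩).1 := by
      intro b hb hba
      subst hba
      rfl
    exact h3 _ _ h2
  let s : Finset {c // c ∈ L} := univ.filter (fun c => ∃ a, c.1 ∈ T a)
  have hsmem : ∀ c, c ∈ s ↔ ∃ a, c.1 ∈ T a := by intro c; simp [s]
  have hfs : Set.InjOn f (s : Set {c // c ∈ L}) := by
    intro c hc c' hc' heq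
    rw [Finset.mem_coe, hsmem] at hc hc'
    obtain ⟨a, ha⟩ := hc
    obtain ⟨b, hb⟩ := hc'
    rw [hf c a ha, hf c' b hb] at heq
    have h1 : (q a ⟨c.1, ha⟩).1 ∈ F a := (q a ⟨c.1, ha⟩).2
    have h2 : (q b ⟨c'.1, hb⟩).1 ∈ F b := (q b ⟨c'.1, hb⟩).2
    have hab : a = b := by
      by_contra hne
      rw [heq] at h1
      exact Finset.disjoint_left.mp (hdisj a b hne) h1 h2
    subst hab
    have h3 := (q a).injective (Subtype.ext heq)
    exact Subtype.ext (by simpa using h3)
  have himg : Finset.image f s ⊆ L := by
    intro k hk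
    rw [mem_image] at hk
    obtain ⟨c, hc, rfl⟩ := hk
    rw [hsmem] at hc
    obtain ⟨a, ha⟩ := hc
    rw [hf c a ha]
    exact hFL a (q a ⟨c.1, ha⟩).2
  obtain ⟨g, hg⟩ := Finset.exists_equiv_extend_of_card_eq (α := {c // c ∈ L}) (t := L)
    (by simp) himg hfs
  -- key property of g
  have hgF : ∀ (c : {c // c ∈ L}) (a : V), (g c).1 ∈ F a → c.1 ∈ T a := by
    intro c a hc
    obtain ⟨t, ht⟩ := (q a).surjective ⟨(g c).1, hc⟩
    have htL : t.1 ∈ L := (mem_filter.mp t.2).1
    have h1 : (g ⟨t.1, htL⟩ : ℕ) = f ⟨t.1, htL⟩ := hg _ ((hsmem _).mpr ⟨a, t.2⟩)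
    have h2 : f ⟨t.1, htL⟩ = (q a ⟨t.1, t.2⟩).1 := hf _ a t.2
    have h3 : (g ⟨t.1, htL⟩ : ℕ) = (g c : ℕ) := by
      rw [h1, h2]
      have : (q a ⟨t.1, t.2⟩) = ⟨(g c).1, hc⟩ := ht
      rw [this]
    have h4 := g.injective (Subtype.ext h3)
    rw [← h4]
    exact t.2
  have hone : ∀ a b, Γ.Adj a b → (L.filter (fun c => m c (some a) = some b)).card = 1 := by
    intro a b hab
    have h1 := hmu (some a) (some b) (by simpa using hab.ne)
    rw [mu_eq_card] at h1
    simpa [tgt, hab] using h1
  have hex : ∀ a b, Γ.Adj a b → ∃ c : {c // c ∈ L}, m c.1 (some a) = some b := by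
    intro a b hab
    have h1 : (L.filter (fun c => m c (some a) = some b)).Nonempty := by
      rw [← Finset.card_pos, hone a b hab]; norm_num
    obtain ⟨c, hc⟩ := h1
    rw [mem_filter] at hc
    exact ⟨⟨c, hc.1⟩, hc.2⟩
  have huniq : ∀ a b, Γ.Adj a b → ∀ c c' : {c // c ∈ L}, m c.1 (some a) = some b →
      m c'.1 (some a) = some b → c = c' := by
    intro a b hab c c' hc hc'
    have h1 := (hone a b hab).le
    rw [Finset.card_le_one] at h1
    exact Subtype.ext (h1 _ (mem_filter.mpr ⟨c.2, hc⟩) _ (mem_filter.mpr ⟨c'.2, hc'⟩))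
  let φ : V → V → ℕ := fun a b => if h : Γ.Adj a b then (g (hex a b h).choose : ℕ) else 0
  have hφ : ∀ a b (h : Γ.Adj a b) (c : {c // c ∈ L}), m c.1 (some a) = some b →
      φ a b = (g c : ℕ) := by
    intro a b h c hc
    simp only [φ, dif_pos h]
    rw [huniq a b h _ c (hex a b h).choose_spec hc]
  refine ⟨φ, ?_, ?_, ?_⟩
  · intro a b
    by_cases h : Γ.Adj a b
    · obtain ⟨c, hc⟩ := hex a b h
      have hc' : m c.1 (some b) = some a := by rw [← hc, hm]
      rw [hφ a b h c hc, hφ b a h.symm c hc']
    · have h' : ¬ Γ.Adj b a := fun h2 => h h2.symm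
      simp only [φ, dif_neg h, dif_neg h']
  · intro a b h
    obtain ⟨c, hc⟩ := hex a b h
    rw [hφ a b h c hc]
    refine ⟨(g c).2, fun hcF => ?_⟩
    have h1 := hgF c a hcF
    simp only [T, mem_filter] at h1
    rw [hc] at h1
    exact absurd h1.2 (by simp)
  · intro a b b' h h' hne heq
    obtain ⟨c, hc⟩ := hex a b h
    obtain ⟨c', hc'⟩ := hex a b' h'
    rw [hφ a b h c hc, hφ a b' h' c' hc'] at heq
    have h1 := g.injective (Subtype.ext heq)
    subst h1
    rw [hc] at hc'
    exact hne (Option.some.inj hc')

end star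

end Pool.Agent.MPd14d18
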