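import Pool.Agent.H79.LA.H931R3_LAFin

set_option autoImplicit false

/-!
Every finite graph of maximum degree at most `r` is an induced subgraph of a finite `r`-regular
graph, and the trivial lower bound for the linear arboricity.
-/

namespace Pool.Agent.TH525.LAD

open Finset H931R3.LA

/-- Two copies of `G`, the two copies of a vertex of degree less than `r` being joined. -/
def dbl {V : Type} (G : SimpleGraph V) (r : ℕ) : SimpleGraph (V × Bool) where
  Adj x y := (x.2 = y.2 ∧ G.Adj x.1 y.1) ∨
    (x.2 ≠ y.2 ∧ x.1 = y.1 ∧ (G.neighborSet x.1).ncard < r)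
  symm := ⟨fun x y h => by
    rcases h with h | h
    · exact Or.inl ⟨h.1.symm, h.2.symm⟩
    · exact Or.inr ⟨h.1.symm, h.2.1.symm, h.2.1 ▸ h.2.2⟩⟩
  loopless := ⟨fun x h => by
    rcases h with h | h
    · exact G.loopless.irrefl _ h.2
    · exact h.1 rfl⟩

theorem dbl_deg {V : Type} [Finite V] (G : SimpleGraph V) (r : ℕ) (x : V × Bool) :
    ((dbl G r).neighborSet x).ncard = (G.neighborSet x.1).ncard +
      if (G.neighborSet x.1).ncard < r then 1 else 0 := by
  classical
  obtain ⟨v, b⟩ := x
  have hinj : Function.Injective (fun u : V => (u, b)) := fun a c h => (Prod.mk.inj h).1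
  have h1 : (dbl G r).neighborSet (v, b) = (fun u => (u, b)) '' (G.neighborSet v) ∪
      (if (G.neighborSet v).ncard < r then {(v, !b)} else ∅) := by
    ext ⟨u, c⟩
    simp only [SimpleGraph.mem_neighborSet, dbl, Set.mem_union, Set.mem_image, Prod.mk.injEq]
    by_cases hlt : (G.neighborSet v).ncard < r
    · simp only [hlt, if_true, and_true, Set.mem_singleton_iff, Prod.mk.injEq]
      constructor
      · rintro (⟨h1, h2⟩ | ⟨h1, h2⟩)
        · exact Or.inl ⟨u, h2, rfl, h1⟩
        · refine Or.inr ⟨h2.symm, ?_⟩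
          cases b <;> cases c <;> simp_all
      · rintro (⟨w, h1, h2, h3⟩ | ⟨h1, h2⟩)
        · subst h2
          exact Or.inl ⟨h3, h1⟩
        · refine Or.inr ⟨?_, h1.symm⟩
          rw [h2]; cases b <;> simp
    · simp only [hlt, if_false, and_false, or_false, Set.mem_empty_iff_false]
      constructor
      · rintro ⟨h1, h2⟩
        exact ⟨u, h2, rfl, h1⟩
      · rintro ⟨w, h1, h2, h3⟩
        subst h2
        exact ⟨h3, h1⟩
  rw [h1]
  by_cases hlt : (G.neighborSet v).ncard < r
  · simp only [hlt, if_true]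
    rw [Set.ncard_union_eq]
    · rw [Set.ncard_image_of_injective _ hinj, Set.ncard_singleton]
    · rw [Set.disjoint_left]
      rintro ⟨u, c⟩ ⟨w, _, h2⟩ h3
      rw [Set.mem_singleton_iff] at h3
      have h4 := (Prod.mk.inj h2).2
      have h5 := (Prod.mk.inj h3).2
      rw [← h4] at h5
      cases b <;> simp at h5
  · simp only [hlt, if_false, Set.union_empty, add_zero]
    rw [Set.ncard_image_of_injective _ hinj]

theorem exists_regular (r : ℕ) : ∀ (m : ℕ) (V : Type) [Finite V] (G : SimpleGraph V),
    (∀ v, (G.neighborSet v).ncard ≤ r) → (∀ v, r ≤ (G.neighborSet v).ncard + m) →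
    ∃ (W : Type) (_ : Finite W) (H : SimpleGraph W), (∀ w, (H.neighborSet w).ncard = r) ∧
      Nonempty (G ↪g H) := by
  intro m
  induction m with
  | zero =>
    intro V _ G h1 h2
    exact ⟨V, inferInstance, G, fun v => le_antisymm (h1 v) (h2 v), ⟨RelEmbedding.refl _⟩⟩
  | succ m ih =>
    intro V _ G h1 h2
    obtain ⟨W, hW, H, hH, ⟨e⟩⟩ := ih (V × Bool) (dbl G r)
      (by
        intro x
        rw [dbl_deg]
        have := h1 x.1
        split_ifs with h <;> omega)
      (by
        intro x
        rw [dbl_deg]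
        have := h2 x.1
        split_ifs with h <;> omega)
    refine ⟨W, hW, H, hH, ⟨RelEmbedding.trans ⟨⟨fun v => (v, false), ?_⟩, ?_⟩ e⟩⟩
    · intro a b h
      exact (Prod.mk.inj h).1
    · intro a b
      show (dbl G r).Adj (a, false) (b, false) ↔ G.Adj a b
      simp [dbl]

theorem deg_le_of_cov {V : Type} [Finite V] {G : SimpleGraph V} {k : ℕ} (h : Cov G k) (v : V) :
    (G.neighborSet v).ncard ≤ 2 * k := by
  classical
  have := Fintype.ofFinite V
  obtain ⟨F, hF, hG⟩ := h
  have h1 : G.neighborSet v = ⋃ i ∈ (Finset.univ : Finset (Fin k)), (F i).neighborSet v := by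
    ext u
    rw [← hG]
    simp
  rw [h1]
  refine le_trans (Finset.set_ncard_biUnion_le _ _) ?_
  refine le_trans (Finset.sum_le_sum (fun i _ => (hF i).2 v)) ?_
  simp [mul_comm]

end Pool.Agent.TH525.LAD
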