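import Pool.Agent.H79.LA.W111_LAR_Crit
import Pool.Agent.H79.LA.TH525_FRG_Quot
import Pool.Agent.H79.LA.TH525_LAD_Reg

set_option autoImplicit false

/-!
Families (multigraphs) of graphs of maximum degree two whose cyclic components are not too short:
one more linear forest covers every edge as often as it occurs in the family.
-/

namespace Pool.Agent.H355.LAQ

open Finset SimpleGraph H931R3.LA Pool.Agent.W111.LAR

section sel

variable {V E ι : Type} [Fintype V] [DecidableEq V] [Fintype E] [DecidableEq E]
  [Fintype ι] [DecidableEq ι]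

/-- The selection theorem, with distinct selected edges. -/
theorem selection_simple (a b : E → V) (hab : ∀ e, a e ≠ b e) (κ : E → ι) (x : E → ℝ)
    (h0 : ∀ e, 0 ≤ x e) (hc : ∀ i, ∑ e ∈ univ.filter (fun e => κ e = i), x e = 1)
    (hv : ∀ v, ∑ e ∈ star a b univ v, x e ≤ 1) :
    ∃ s : ι → E, (∀ i, κ (s i) = i) ∧ H931R3.LA.IsLF (selGraph a b s) ∧
      ∀ i j, s(a (s i), b (s i)) = s(a (s j), b (s j)) → i = j := by
  classical
  obtain ⟨M, hM1, hM2, hM3⟩ := exists_selection a b hab κ _ univ ∅ rfl (by simp) ⟨x, h0, by simp,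
    hc, fun v _ => hv v, by
      intro U hU hcl
      obtain ⟨v, hv⟩ := hU
      exact absurd (hcl.1 hv) (by simp)⟩
  have hs : ∀ i, ∃ e, M.filter (fun e => κ e = i) = {e} := fun i => card_eq_one.1 (hM1 i)
  choose s hs using hs
  have sM : ∀ i, s i ∈ M ∧ κ (s i) = i := by
    intro i
    have : s i ∈ M.filter (fun e => κ e = i) := by rw [hs i]; simp
    exact mem_filter.1 this
  refine ⟨s, fun i => (sM i).2, ⟨?_, ?_⟩, ?_⟩
  · -- acyclic
    intro v c hcyc
    obtain ⟨w, hw, hcard⟩ := hM3 c.support.toFinset ⟨v, by simp⟩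
    have hwc : w ∈ c.support := by simpa using hw
    have h2 := hcyc.ncard_neighborSet_toSubgraph_eq_two hwc
    have hsub : c.toSubgraph.neighborSet w ⊆
        ((((star a b M w).filter (fun e => a e ∈ c.support.toFinset ∧
          b e ∈ c.support.toFinset)).image (fun e => if a e = w then b e else a e) :
          Finset V) : Set V) := by
      intro w' hw'
      have hadj : c.toSubgraph.Adj w w' := hw'
      have hw's : w' ∈ c.support := by
        have := hadj.snd_mem
        rwa [SimpleGraph.Walk.mem_verts_toSubgraph] at this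
      obtain ⟨hne, i, hi⟩ := hadj.adj_sub
      rw [Finset.mem_coe, mem_image]
      refine ⟨s i, ?_, ?_⟩
      · rw [mem_filter]
        refine ⟨mem_filter.2 ⟨(sM i).1, ?_⟩, ?_, ?_⟩
        · rcases hi with ⟨h1, h2⟩ | ⟨h1, h2⟩
          · exact Or.inl h1
          · exact Or.inr h2
        · rcases hi with ⟨h1, h2⟩ | ⟨h1, h2⟩
          · rw [h1]; simpa using hwc
          · rw [h1]; simpa using hw's
        · rcases hi with ⟨h1, h2⟩ | ⟨h1, h2⟩
          · rw [h2]; simpa using hw's
          · rw [h2]; simpa using hwc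
      · rcases hi with ⟨h1, h2⟩ | ⟨h1, h2⟩
        · rw [if_pos h1, h2]
        · have : a (s i) ≠ w := by rw [h1]; exact hne.symm
          rw [if_neg this, h1]
    have h3 := Set.ncard_le_ncard hsub (Finset.finite_toSet _)
    rw [Set.ncard_coe_finset, h2] at h3
    have h4 := card_image_le (s := (star a b M w).filter (fun e => a e ∈ c.support.toFinset ∧
          b e ∈ c.support.toFinset)) (f := fun e => if a e = w then b e else a e)
    omega
  · intro w
    have hsub : (selGraph a b s).neighborSet w ⊆
        (((star a b M w).image (fun e => if a e = w then b e else a e) : Finset V) : Set V) := by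
      intro w' hw'
      obtain ⟨hne, i, hi⟩ := hw'
      rw [Finset.mem_coe, mem_image]
      refine ⟨s i, ?_, ?_⟩
      · refine mem_filter.2 ⟨(sM i).1, ?_⟩
        rcases hi with ⟨h1, h2⟩ | ⟨h1, h2⟩
        · exact Or.inl h1
        · exact Or.inr h2
      · rcases hi with ⟨h1, h2⟩ | ⟨h1, h2⟩
        · rw [if_pos h1, h2]
        · have : a (s i) ≠ w := by rw [h1]; exact hne.symm
          rw [if_neg this, h1]
    have h3 := Set.ncard_le_ncard hsub (Finset.finite_toSet _)
    rw [Set.ncard_coe_finset] at h3
    exact h3.trans (card_image_le.trans (hM2 w))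
  · intro i j hij
    by_contra hne
    have hsne : s i ≠ s j := by
      intro h
      apply hne
      rw [← (sM i).2, ← (sM j).2, h]
    obtain ⟨w, hw, hcard⟩ := hM3 {a (s i), b (s i)} ⟨a (s i), by simp⟩
    have hsub : ({s i, s j} : Finset E) ⊆ (star a b M w).filter
        (fun e => a e ∈ ({a (s i), b (s i)} : Finset V) ∧
          b e ∈ ({a (s i), b (s i)} : Finset V)) := by
      intro e he
      rw [mem_insert, mem_singleton] at he
      rw [mem_insert, mem_singleton] at hw
      rw [mem_filter, Pool.Agent.W111.LAR.star, mem_filter]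
      rcases he with rfl | rfl
      · refine ⟨⟨(sM i).1, ?_⟩, by simp, by simp⟩
        rcases hw with h | h
        · exact Or.inl h.symm
        · exact Or.inr h.symm
      · rcases Sym2.eq_iff.1 hij with ⟨h1, h2⟩ | ⟨h1, h2⟩
        · refine ⟨⟨(sM j).1, ?_⟩, by simp [← h1], by simp [← h2]⟩
          rcases hw with h | h
          · exact Or.inl (by rw [h, h1])
          · exact Or.inr (by rw [h, h2])
        · refine ⟨⟨(sM j).1, ?_⟩, by simp [← h2], by simp [← h1]⟩
          rcases hw with h | h
          · exact Or.inr (by rw [h, h1])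
          · exact Or.inl (by rw [h, h2])
    have h5 := card_le_card hsub
    rw [card_pair hsne] at h5
    omega

end sel

/-- Breaking all cyclic components of a family; every edge is covered with its multiplicity. -/
theorem assemble_multi {V κ : Type} [Finite V] [Fintype κ] {H : κ → SimpleGraph V}
    (hdeg : ∀ i v, ((H i).neighborSet v).ncard ≤ 2) (s : II H → EE H) (hs : ∀ c, cl (s c) = c)
    (hinj : ∀ c c', s(aa (s c), bb (s c)) = s(aa (s c'), bb (s c')) → c = c')
    (Q : SimpleGraph V) (hQ : IsLF Q) (hsel : ∀ c, Q.Adj (aa (s c)) (bb (s c))) :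
    ∃ F : Option κ → SimpleGraph V, (∀ t, IsLF (F t)) ∧
      (∀ u v, {i | (H i).Adj u v}.ncard ≤ {t | (F t).Adj u v}.ncard) ∧ F none = Q := by
  classical
  let F : Option κ → SimpleGraph V := fun t => match t with
    | none => Q
    | some i => (H i).deleteEdges {d | ∃ c : II H, c.1.1 = i ∧ d = (s c).1.2}
  have hsi : ∀ c : II H, (s c).1.1 = c.1.1 := fun c => ((cl_iff (s c) c).1 (hs c)).1
  refine ⟨F, ?_, ?_, rfl⟩
  · intro t
    cases t with
    | none => exact hQ
    | some i =>
      have hle : F (some i) ≤ H i := deleteEdges_le _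
      refine ⟨?_, fun v => le_trans (Set.ncard_le_ncard (fun u hu => hle hu) (Set.toFinite _))
        (hdeg i v)⟩
      intro v c hc
      have hcl' := closed_cycle hle (hdeg i) hc
      have hcyc : Cyc (H i) v := fun w hw => (hcl' w hw).2.1
      let c0 : II H := ⟨(i, rep (H i) v), hcyc.trans (rep_reach _ _).symm, rep_eq (rep_reach _ _)⟩
      have h1 := (cl_iff (s c0) c0).1 (hs c0)
      have h2 : (H i).Reachable v (aa (s c0)) := (rep_reach (H i) v).symm.trans h1.2.symm
      have h3 : (H i).Adj (aa (s c0)) (bb (s c0)) := by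
        have := adj_ends (s c0)
        rw [hsi c0] at this
        exact this
      have h4 := (hcl' _ h2).2.2 _ h3
      have h5 : (F (some i)).Adj (aa (s c0)) (bb (s c0)) ↔ (H i).Adj (aa (s c0)) (bb (s c0)) ∧
          s(aa (s c0), bb (s c0)) ∉ {d | ∃ c : II H, c.1.1 = i ∧ d = (s c).1.2} := deleteEdges_adj
      exact (h5.1 h4).2 ⟨c0, rfl, mk_ends _⟩
  · intro u v
    let g : κ → Option κ := fun i => if ∃ c : II H, c.1.1 = i ∧ s(u, v) = (s c).1.2 then none
      else some i
    refine Set.ncard_le_ncard_of_injOn g ?_ ?_ (Set.toFinite _)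
    · intro i hi
      have hi' : (H i).Adj u v := hi
      show (F (g i)).Adj u v
      by_cases hd : ∃ c : II H, c.1.1 = i ∧ s(u, v) = (s c).1.2
      · have hg : g i = none := if_pos hd
        rw [hg]
        obtain ⟨c, _, hc2⟩ := hd
        rw [← mk_ends] at hc2
        rcases Sym2.eq_iff.1 hc2 with ⟨h1, h2⟩ | ⟨h1, h2⟩
        · rw [h1, h2]; exact hsel c
        · rw [h1, h2]; exact (hsel c).symm
      · have hg : g i = some i := if_neg hd
        rw [hg]
        exact deleteEdges_adj.2 ⟨hi', hd⟩
    · intro i _ j _ hij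
      by_cases hd : ∃ c : II H, c.1.1 = i ∧ s(u, v) = (s c).1.2
      · have hg : g i = none := if_pos hd
        by_cases hd' : ∃ c : II H, c.1.1 = j ∧ s(u, v) = (s c).1.2
        · obtain ⟨c, hc1, hc2⟩ := hd
          obtain ⟨c', hc1', hc2'⟩ := hd'
          have h1 : c = c' := by
            apply hinj
            rw [mk_ends, mk_ends, ← hc2, ← hc2']
          rw [← hc1, ← hc1', h1]
        · have hg' : g j = some j := if_neg hd'
          rw [hg, hg'] at hij
          cases hij
      · have hg : g i = some i := if_neg hd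
        by_cases hd' : ∃ c : II H, c.1.1 = j ∧ s(u, v) = (s c).1.2
        · have hg' : g j = none := if_pos hd'
          rw [hg, hg'] at hij
          cases hij
        · have hg' : g j = some j := if_neg hd'
          rw [hg, hg'] at hij
          exact Option.some.inj hij

open Classical in
/-- The criterion for families. -/
theorem multi_of_load {V κ : Type} [Finite V] [Fintype κ] (H : κ → SimpleGraph V)
    (hdeg : ∀ i v, ((H i).neighborSet v).ncard ≤ 2)
    (hload : ∀ v, ∑ i, (if Cyc (H i) v then (2 : ℝ) / csize (H i) v else 0) ≤ 1) :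
    ∃ F : Option κ → SimpleGraph V, (∀ t, IsLF (F t)) ∧
      ∀ u v, {i | (H i).Adj u v}.ncard ≤ {t | (F t).Adj u v}.ncard := by
  have := Fintype.ofFinite V
  have : Fintype (EE H) := Fintype.ofFinite (EE H)
  have : Fintype (II H) := Fintype.ofFinite (II H)
  let x : EE H → ℝ := fun e => 1 / csize (H e.1.1) (aa e)
  have hclass : ∀ c : II H, ∑ e ∈ univ.filter (fun e => cl e = c), x e = 1 := by
    intro c
    have hx : ∀ e ∈ univ.filter (fun e : EE H => cl e = c), x e = 1 / csize (H c.1.1) c.1.2 := by
      intro e he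
      obtain ⟨h1, h2⟩ := (cl_iff e c).1 (mem_filter.1 he).2
      show (1 : ℝ) / csize (H e.1.1) (aa e) = _
      rw [h1, csize_eq h2]
    rw [sum_congr rfl hx, sum_const, nsmul_eq_mul, class_card]
    have hpos : (0 : ℝ) < csize (H c.1.1) c.1.2 := by exact_mod_cast csize_pos _ _
    field_simp
  have hvert : ∀ v, ∑ e ∈ star aa bb univ v, x e ≤ 1 := by
    intro v
    refine le_trans (le_of_eq ?_) (hload v)
    rw [← sum_fiberwise (star aa bb univ v) (fun e : EE H => e.1.1) x]
    refine sum_congr rfl fun i _ => ?_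
    by_cases hcyc : Cyc (H i) v
    · rw [if_pos hcyc]
      have hx : ∀ e ∈ (star aa bb (univ : Finset (EE H)) v).filter (fun e => e.1.1 = i), x e =
          1 / csize (H i) v := by
        intro e he
        obtain ⟨he1, he2⟩ := mem_filter.1 he
        obtain ⟨_, hinc⟩ := mem_filter.1 he1
        show (1 : ℝ) / csize (H e.1.1) (aa e) = _
        rw [← csize_eq (ends_reach e v hinc), he2]
      rw [sum_congr rfl hx, sum_const, cnt i v hcyc, nsmul_eq_mul]
      push_cast
      ring
    · rw [if_neg hcyc, cnt0 i v hcyc, sum_empty]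
  have hx0 : ∀ e, 0 ≤ x e := fun e => by
    show (0 : ℝ) ≤ 1 / csize (H e.1.1) (aa e)
    positivity
  obtain ⟨s, hs, hLF, hinj⟩ := selection_simple aa bb ends_ne cl x hx0 hclass hvert
  obtain ⟨F, h1, h2, _⟩ := assemble_multi hdeg s hs hinj (selGraph aa bb s) hLF
    (fun c => ⟨ends_ne _, c, Or.inl ⟨rfl, rfl⟩⟩)
  exact ⟨F, h1, h2⟩

open Classical in
/-- The criterion for graphs over a family. -/
theorem cov_over {V W κ : Type} [Finite V] [Finite W] [Fintype κ] (H : κ → SimpleGraph W)
    (hdeg : ∀ i w, ((H i).neighborSet w).ncard ≤ 2)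
    (hload : ∀ w, ∑ i, (if Cyc (H i) w then (2 : ℝ) / csize (H i) w else 0) ≤ 1)
    (G : SimpleGraph V) (p : V → W)
    (h : ∀ u j, {v | G.Adj u v ∧ p v = j}.ncard ≤ {i | (H i).Adj (p u) j}.ncard) :
    Cov G (Fintype.card κ + 1) := by
  obtain ⟨F, hF, hcount⟩ := multi_of_load H hdeg hload
  have hcard : Fintype.card (Option κ) = Fintype.card κ + 1 := Fintype.card_option
  let e : Option κ ≃ Fin (Fintype.card κ + 1) := (Fintype.equivFin (Option κ)).trans
    (finCongr hcard)
  refine Pool.Agent.TH525.FRG.cov_quot G (Fintype.card κ + 1) (fun c => F (e.symm c))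
    (fun c => hF _) p ?_
  intro u j
  refine (h u j).trans ((hcount (p u) j).trans (le_of_eq ?_))
  have himg : {c | (F (e.symm c)).Adj (p u) j} = e '' {t | (F t).Adj (p u) j} := by
    ext c
    simp only [Set.mem_ofPred_eq, Set.mem_image]
    constructor
    · intro hc
      exact ⟨e.symm c, hc, e.apply_symm_apply c⟩
    · rintro ⟨t, ht, rfl⟩
      rwa [e.symm_apply_apply]
  rw [himg, Set.ncard_image_of_injective _ e.injective]

end Pool.Agent.H355.LAQ
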