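import Pool.Agent.H79.LA.H931R3_LAGen2

set_option autoImplicit false

/-!
Consequences for the linear arboricity of Cartesian products.
-/

namespace H931R3.LA

open SimpleGraph

/-- The hypercube of dimension `n`. -/
def cube (n : ℕ) : SimpleGraph (Fin n → Bool) where
  Adj x y := hammingDist x y = 1
  symm.symm x y h := by rw [hammingDist_comm]; exact h
  loopless.irrefl x h := by rw [hammingDist_self] at h; exact absurd h (by omega)

theorem cov_bot {V : Type} : Cov (⊥ : SimpleGraph V) 0 := by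
  refine ⟨fun _ => ⊥, fun _ => isLF_bot, ?_⟩
  ext x y
  simp

theorem la_bot {V : Type} : la (⊥ : SimpleGraph V) = 0 := Nat.le_zero.mp (la_le cov_bot)

theorem Cov.comap {V W : Type} [Finite V] [Finite W] {G : SimpleGraph V} {H : SimpleGraph W}
    {k : ℕ} (h : Cov H k) (f : G ↪g H) : Cov G k := by
  obtain ⟨F, hF, hH⟩ := h
  refine ⟨fun i => (F i).comap f, ?_, ?_⟩
  · intro i
    refine ⟨?_, ?_⟩
    · refine (hF i).1.comap (G := (F i).comap f) ⟨f, fun h => h⟩ f.injective
    · intro w
      refine le_trans ?_ ((hF i).2 (f w))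
      rw [← Set.ncard_image_of_injective _ f.injective]
      refine Set.ncard_le_ncard ?_ (Set.toFinite _)
      rintro _ ⟨x, hx, rfl⟩
      exact hx
  · ext x y
    rw [iSup_adj]
    have : (∃ i, ((F i).comap f).Adj x y) ↔ (⨆ i, F i).Adj (f x) (f y) := by
      rw [iSup_adj]; exact Iff.rfl
    rw [this, hH]
    exact f.map_adj_iff

theorem la_iso {V W : Type} [Finite V] [Finite W] {G : SimpleGraph V} {H : SimpleGraph W}
    (e : G ≃g H) : la G = la H :=
  le_antisymm (la_le ((cov_la H).iso e.symm)) (la_le ((cov_la G).iso e))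

theorem la_le_boxProd {V W : Type} [Finite V] [Finite W] [Nonempty W] (G : SimpleGraph V)
    (H : SimpleGraph W) : la G ≤ la (G □ H) := by
  obtain ⟨w⟩ := ‹Nonempty W›
  exact la_le ((cov_la (G □ H)).comap (boxProdLeft G H w))

/-- A linear forest has an acyclic edge colouring with two colours. -/
theorem aec_of_isLF {W : Type} [Finite W] (F : SimpleGraph W) (hF : IsLF F) : AEC F 2 := by
  classical
  have := Fintype.ofFinite W
  obtain ⟨ε, hε⟩ := edge_two_col F hF
  refine ⟨fun e => if ε e then 1 else 0, ?_, ?_⟩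
  · intro w a b ha hb hab h
    have inj : ∀ b b' : Bool, (if b = true then (1 : Fin 2) else 0) =
        (if b' = true then 1 else 0) → b = b' := by decide
    exact hε w a b ha hb hab (inj _ _ h)
  · intro x y
    refine hF.1.anti ?_
    rintro a b ⟨h, _⟩
    exact h

/-- Absorption of an acyclically edge coloured graph. -/
theorem la_absorb {V W : Type} [Finite V] [Finite W] (G : SimpleGraph V)
    (H₁ H₂ : SimpleGraph W) (q k : ℕ) (hq : 2 ≤ q) (h₁ : AEC H₁ q) (hk : la G ≤ k)
    (hdeg : ∀ v, (G.neighborSet v).ncard + q ≤ 2 * k) :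
    la (G □ (H₁ ⊔ H₂)) ≤ k + la H₂ := by
  obtain ⟨p, rfl⟩ : ∃ p, q = p + 2 := ⟨q - 2, by omega⟩
  exact la_le (cov_boxProd_gen (la_le_iff.mp hk) h₁ (cov_la H₂) hdeg)

/-- Removal of one forest. -/
theorem cov_split {V : Type} [Finite V] {G : SimpleGraph V} {m : ℕ} (h : Cov G (m + 1)) :
    ∃ F R : SimpleGraph V, IsLF F ∧ Cov R m ∧ F ⊔ R = G := by
  obtain ⟨F, hF, hG⟩ := h
  refine ⟨F 0, ⨆ i : Fin m, F i.succ, hF 0, ⟨fun i => F i.succ, fun i => hF _, rfl⟩, ?_⟩
  rw [← hG]
  ext x y
  rw [sup_adj, iSup_adj, iSup_adj]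
  constructor
  · rintro (h | ⟨i, h⟩)
    · exact ⟨0, h⟩
    · exact ⟨_, h⟩
  · rintro ⟨i, h⟩
    revert h
    refine Fin.cases ?_ (fun i => ?_) i
    · intro h; exact Or.inl h
    · intro h; exact Or.inr ⟨i, h⟩

/-- If all degrees of `G` are at most `2 k - 2` one forest of `H` is absorbed. -/
theorem cov_absorb_one {V W : Type} [Finite V] [Finite W] {G : SimpleGraph V}
    {H : SimpleGraph W} {k m : ℕ} (hG : Cov G k) (hH : Cov H (m + 1))
    (hdeg : ∀ v, (G.neighborSet v).ncard + 2 ≤ 2 * k) : Cov (G □ H) (k + m) := by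
  obtain ⟨F, R, hF, hR, rfl⟩ := cov_split hH
  exact cov_boxProd_gen (q := 0) hG (aec_of_isLF F hF) hR hdeg

/-- Subadditivity of the excess over `⌈(Δ + 1) / 2⌉`. -/
theorem la_excess {V W : Type} [Finite V] [Finite W] (G : SimpleGraph V) (H : SimpleGraph W)
    (a b e f : ℕ) (ha : ∀ v, (G.neighborSet v).ncard ≤ a) (hb : ∀ w, (H.neighborSet w).ncard ≤ b)
    (hG : la G ≤ (a + 2) / 2 + e) (hH : la H ≤ (b + 2) / 2 + f) :
    la (G □ H) ≤ (a + b + 2) / 2 + e + f := by
  have cG := la_le_iff.mp hG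
  have cH := la_le_iff.mp hH
  rcases Nat.even_or_odd a with ⟨a', rfl⟩ | ⟨a', rfl⟩
  · have h1 : (b + 2) / 2 + f = ((b + 2) / 2 + f - 1) + 1 := by omega
    rw [h1] at cH
    refine le_trans (la_le (cov_absorb_one cG cH ?_)) (by omega)
    intro v
    have := ha v
    omega
  · rcases Nat.even_or_odd b with ⟨b', rfl⟩ | ⟨b', rfl⟩
    · have h1 : (2 * a' + 1 + 2) / 2 + e = ((2 * a' + 1 + 2) / 2 + e - 1) + 1 := by omega
      rw [h1] at cG
      have h2 := cov_absorb_one cH cG (by
        intro v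
        have := hb v
        omega)
      refine le_trans (la_le (h2.iso (boxProdComm H G))) (by omega)
    · exact le_trans (la_le (cov_boxProd cG cH)) (by omega)

theorem la_greedy {V : Type} [Finite V] (G : SimpleGraph V) (D : ℕ)
    (hD : ∀ v, (G.neighborSet v).ncard ≤ D) : la G ≤ D :=
  la_le (cov_greedy D _ G rfl hD)

theorem deg_reg {V W : Type} [Finite V] [Finite W] (G : SimpleGraph V) (H : SimpleGraph W)
    (r s : ℕ) (hG : ∀ v, (G.neighborSet v).ncard = r) (hH : ∀ w, (H.neighborSet w).ncard = s)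
    (x : V × W) : ((G □ H).neighborSet x).ncard = r + s := by
  rw [deg_boxProd, hG, hH]

/-- The regular case: closure of the equality. -/
theorem la_regular {V W : Type} [Finite V] [Finite W] [Nonempty V] [Nonempty W]
    (G : SimpleGraph V) (H : SimpleGraph W) (r s : ℕ) (hr : 1 ≤ r)
    (hG : ∀ v, (G.neighborSet v).ncard = r) (hH : ∀ w, (H.neighborSet w).ncard = s)
    (lG : la G = (r + 2) / 2) (lH : la H = (s + 2) / 2) :
    la (G □ H) = (r + s + 2) / 2 := by
  refine le_antisymm ?_ ?_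
  · exact la_excess G H r s 0 0 (fun v => (hG v).le) (fun w => (hH w).le) lG.le lH.le
  · exact lower (by omega) (cov_la (G □ H)) (deg_reg G H r s hG hH)

/-- The exact value for a factor with an acyclic edge colouring. -/
theorem la_aec {V W : Type} [Finite V] [Finite W] [Nonempty V] [Nonempty W]
    (G : SimpleGraph V) (H : SimpleGraph W) (r s q : ℕ) (hr : 1 ≤ r)
    (hG : ∀ v, (G.neighborSet v).ncard = r) (hH : ∀ w, (H.neighborSet w).ncard = s)
    (hq : 2 ≤ q) (hq' : AEC H q) (hrq : r + q ≤ 2 * ((r + s + 2) / 2)) :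
    la (G □ H) = max (la G) ((r + s + 2) / 2) := by
  refine le_antisymm ?_ (max_le (la_le_boxProd G H) ?_)
  · have h := la_absorb G H ⊥ q (max (la G) ((r + s + 2) / 2)) hq hq' (le_max_left _ _) (by
      intro v
      rw [hG v]
      have := le_max_right (la G) ((r + s + 2) / 2)
      omega)
    rw [la_bot, sup_bot_eq] at h
    exact h
  · exact lower (by omega) (cov_la (G □ H)) (deg_reg G H r s hG hH)

/-- The complete graph on two vertices. -/
theorem aec_K2 : AEC (⊤ : SimpleGraph Bool) 2 := by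
  apply aec_of_isLF
  refine ⟨?_, ?_⟩
  · have h : (⊤ : SimpleGraph Bool) = ⊥ ⊔ edge false true := by
      ext x y
      rw [sup_adj, edge_adj, top_adj, bot_adj]
      cases x <;> cases y <;> simp
    rw [h]
    refine IsAcyclic.sup_edge_of_not_reachable ?_ isAcyclic_bot
    rw [reachable_bot]
    simp
  · intro v
    refine le_trans (Set.ncard_le_ncard (Set.subset_univ _) (Set.toFinite _)) ?_
    rw [Set.ncard_univ]
    simp

theorem deg_K2 (b : Bool) : ((⊤ : SimpleGraph Bool).neighborSet b).ncard = 1 := by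
  have : (⊤ : SimpleGraph Bool).neighborSet b = {!b} := by
    ext x
    rw [mem_neighborSet, top_adj, Set.mem_singleton_iff]
    cases b <;> cases x <;> simp
  rw [this, Set.ncard_singleton]

/-- Splitting off the first coordinate of the hypercube. -/
theorem hamming_cons {n : ℕ} (b b' : Bool) (x x' : Fin n → Bool) :
    hammingDist (Fin.cons b x : Fin (n + 1) → Bool) (Fin.cons b' x' : Fin (n + 1) → Bool) =
      (if b ≠ b' then 1 else 0) + hammingDist x x' := by
  unfold hammingDist
  rw [Finset.card_filter, Fin.sum_univ_succ, Finset.card_filter]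
  simp only [Fin.cons_zero, Fin.cons_succ]

def cubeIso {V : Type} (G : SimpleGraph V) (n : ℕ) :
    SimpleGraph.boxProd (SimpleGraph.boxProd G (⊤ : SimpleGraph Bool)) (cube n) ≃g
      SimpleGraph.boxProd G (cube (n + 1)) where
  toFun p := (p.1.1, Fin.cons p.1.2 p.2)
  invFun p := ((p.1, p.2 0), Fin.tail p.2)
  left_inv p := by
    obtain ⟨⟨v, b⟩, x⟩ := p
    simp
  right_inv p := by
    obtain ⟨v, x⟩ := p
    simp
  map_rel_iff' := by
    rintro ⟨⟨v, b⟩, x⟩ ⟨⟨v', b'⟩, x'⟩
    simp only [Equiv.coe_fn_mk, boxProd_adj, top_adj, Prod.mk.injEq]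
    show (G.Adj v v' ∧ (Fin.cons b x : Fin (n + 1) → Bool) = Fin.cons b' x' ∨
      hammingDist (Fin.cons b x : Fin (n + 1) → Bool) (Fin.cons b' x' : Fin (n + 1) → Bool) = 1 ∧
        v = v') ↔ _
    show _ ↔ ((G.Adj v v' ∧ b = b' ∨ b ≠ b' ∧ v = v') ∧ x = x' ∨
      hammingDist x x' = 1 ∧ v = v' ∧ b = b')
    rw [hamming_cons, Fin.cons_inj]
    have h0 : hammingDist x x' = 0 ↔ x = x' := hammingDist_eq_zero
    by_cases hb : b = b'
    · simp [hb]
    · have h1 : (1 + hammingDist x x' = 1) ↔ x = x' := by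
        rw [← h0]; omega
      simp only [hb, ne_eq, not_false_eq_true, if_true, h1]
      tauto

def cubeZero {V : Type} (G : SimpleGraph V) : SimpleGraph.boxProd G (cube 0) ≃g G where
  toFun p := p.1
  invFun v := (v, default)
  left_inv p := by
    obtain ⟨v, x⟩ := p
    exact Prod.ext rfl (Subsingleton.elim _ _)
  right_inv v := rfl
  map_rel_iff' := by
    rintro ⟨v, x⟩ ⟨v', x'⟩
    have hx : x = x' := Subsingleton.elim _ _
    subst hx
    show G.Adj v v' ↔ (G.Adj v v' ∧ x = x ∨ (cube 0).Adj x x ∧ v = v')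
    constructor
    · intro h; exact Or.inl ⟨h, rfl⟩
    · rintro (⟨h, _⟩ | ⟨h, _⟩)
      · exact h
      · exact absurd h (SimpleGraph.irrefl _)

/-- The exact value for products with hypercubes. -/
theorem la_cube (n : ℕ) : ∀ (V : Type) [Finite V] [Nonempty V] (G : SimpleGraph V) (r : ℕ),
    1 ≤ r → (∀ v, (G.neighborSet v).ncard = r) →
    la (G □ cube n) = max (la G) ((r + n + 2) / 2) := by
  induction n with
  | zero =>
    intro V _ _ G r hr hG
    rw [la_iso (cubeZero G)]
    exact (max_eq_left (lower hr (cov_la G) hG)).symm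
  | succ n ih =>
    intro V _ _ G r hr hG
    rw [← la_iso (cubeIso G n)]
    rw [ih (V × Bool) (G □ ⊤) (r + 1) (by omega) (deg_reg G ⊤ r 1 hG deg_K2)]
    rw [la_aec G ⊤ r 1 2 hr hG deg_K2 le_rfl aec_K2 (by omega)]
    omega

end H931R3.LA
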