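import Pool.Agent.H79.LA.H931R3_LAMain

set_option autoImplicit false

/-!
The general construction: absorbing an acyclically edge-coloured graph.
-/

namespace H931R3.LA

open SimpleGraph

/-- The edges of `H` whose colour is `x` or `y`. -/
def twoClasses {W : Type} {q : ℕ} (H : SimpleGraph W) (ε : Sym2 W → Fin q) (x y : Fin q) :
    SimpleGraph W where
  Adj a b := H.Adj a b ∧ (ε s(a, b) = x ∨ ε s(a, b) = y)
  symm.symm a b h := ⟨h.1.symm, by rw [Sym2.eq_swap]; exact h.2⟩
  loopless.irrefl a h := h.1.ne rfl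

/-- `H` has an acyclic edge colouring with `q` colours: a proper edge colouring in which the
union of any two colour classes contains no cycle. -/
def AEC {W : Type} (H : SimpleGraph W) (q : ℕ) : Prop :=
  ∃ ε : Sym2 W → Fin q, (∀ w a b, H.Adj w a → H.Adj w b → a ≠ b → ε s(w, a) ≠ ε s(w, b)) ∧
    ∀ x y : Fin q, (twoClasses H ε x y).IsAcyclic

/-- Assignment of `q + 2` labels to slots. -/
theorem q_pick {V Q : Type} [Fintype V] (q : ℕ) :
    ∀ κ : V × Fin (q + 2) → Q,
      (∀ s₁ s₂ s₃ : V × Fin (q + 2), s₁ ≠ s₂ → s₁ ≠ s₃ → s₂ ≠ s₃ →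
        κ s₁ = κ s₂ → κ s₁ = κ s₃ → False) →
      ∃ pick : V → Fin (q + 2) → Fin (q + 2), (∀ v, Function.Injective (pick v)) ∧
        ∀ x v w, κ (v, pick v x) = κ (w, pick w x) → v = w := by
  classical
  induction q with
  | zero =>
    intro κ hκ
    let tf : Bool → Fin 2 := fun b => if b then 1 else 0
    let tb : Fin 2 → Bool := fun x => decide (x = 1)
    have htf : Function.Injective tf := by decide
    have htb : Function.Injective tb := by decide
    have htt : ∀ x, tf (tb x) = x := by decide
    obtain ⟨c, hc1, hc2⟩ := two_col (Finset.univ : Finset V) (fun s => κ (s.1, tf s.2)) (by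
      intro s₁ s₂ s₃ _ _ _ h12 h13 h23 e12 e13
      have inj : ∀ s s' : V × Bool, s ≠ s' → (s.1, tf s.2) ≠ (s'.1, tf s'.2) := by
        intro s s' hs h
        apply hs
        have h1 := congrArg Prod.fst h
        have h2 := htf (congrArg Prod.snd h)
        exact Prod.ext h1 h2
      exact hκ _ _ _ (inj _ _ h12) (inj _ _ h13) (inj _ _ h23) e12 e13)
    let pk : V → Fin 2 → Bool := fun v x => if c (v, false) = tb x then false else true
    have hpk : ∀ v x, c (v, pk v x) = tb x := by
      intro v x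
      have h1 := hc1 v (Finset.mem_univ v)
      by_cases h : c (v, false) = tb x
      · have : pk v x = false := if_pos h
        rw [this, h]
      · have : pk v x = true := if_neg h
        rw [this]
        revert h h1
        cases c (v, false) <;> cases c (v, true) <;> cases tb x <;> simp
    refine ⟨fun v x => tf (pk v x), ?_, ?_⟩
    · intro v x y hxy
      have h1 : pk v x = pk v y := htf hxy
      apply htb
      rw [← hpk v x, ← hpk v y, h1]
    · intro x v w h
      by_contra hvw
      have hne : (v, pk v x) ≠ (w, pk w x) := fun h' => hvw (congrArg Prod.fst h')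
      have := hc2 _ _ (Finset.mem_univ _) (Finset.mem_univ _) hne h
      rw [hpk, hpk] at this
      exact this rfl
  | succ q ih =>
    intro κ hκ
    -- Hall
    let t : V → Finset Q := fun v => Finset.univ.image (fun x => κ (v, x))
    have hall : ∀ A : Finset V, A.card ≤ (A.biUnion t).card := by
      intro A
      have himg : A.biUnion t = (A ×ˢ (Finset.univ : Finset (Fin (q + 1 + 2)))).image κ := by
        ext b
        simp only [t, Finset.mem_biUnion, Finset.mem_image, Finset.mem_univ, true_and,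
          Finset.mem_product, and_true, Prod.exists]
        constructor
        · rintro ⟨v, hv, x, hx⟩; exact ⟨v, x, hv, hx⟩
        · rintro ⟨v, x, hv, hx⟩; exact ⟨v, hv, x, hx⟩
      have h1 := Finset.card_le_mul_card_image (f := κ)
        (A ×ˢ (Finset.univ : Finset (Fin (q + 1 + 2)))) 2 (by
          intro b _
          by_contra hcon
          push Not at hcon
          obtain ⟨s₁, m1, s₂, m2, s₃, m3, h12, h13, h23⟩ := Finset.two_lt_card.mp hcon
          rw [Finset.mem_filter] at m1 m2 m3
          exact hκ s₁ s₂ s₃ h12 h13 h23 (m1.2.trans m2.2.symm) (m1.2.trans m3.2.symm))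
      rw [← himg, Finset.card_product, Finset.card_univ, Fintype.card_fin] at h1
      nlinarith
    obtain ⟨g, hg1, hg2⟩ := (Finset.all_card_le_biUnion_card_iff_exists_injective t).mp hall
    have hg3 : ∀ v, ∃ x, κ (v, x) = g v := by
      intro v
      have := hg2 v
      simp only [t, Finset.mem_image, Finset.mem_univ, true_and] at this
      exact this
    choose f hf using hg3
    obtain ⟨pk, hp1, hp2⟩ := ih (fun s => κ (s.1, (f s.1).succAbove s.2)) (by
      intro s₁ s₂ s₃ h12 h13 h23 e12 e13
      have inj : ∀ s s' : V × Fin (q + 2), s ≠ s' →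
          (s.1, (f s.1).succAbove s.2) ≠ (s'.1, (f s'.1).succAbove s'.2) := by
        rintro ⟨v, x⟩ ⟨w, y⟩ hs h
        apply hs
        have h1 : v = w := congrArg Prod.fst h
        subst h1
        have h2 := Fin.succAbove_right_injective (congrArg Prod.snd h)
        exact Prod.ext rfl h2
      exact hκ _ _ _ (inj _ _ h12) (inj _ _ h13) (inj _ _ h23) e12 e13)
    refine ⟨fun v => Fin.cons (f v) (fun x => (f v).succAbove (pk v x)), ?_, ?_⟩
    · intro v
      rw [Fin.cons_injective_iff]
      refine ⟨?_, ?_⟩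
      · rintro ⟨x, hx⟩
        exact Fin.succAbove_ne _ _ hx
      · intro x y hxy
        exact hp1 v (Fin.succAbove_right_injective hxy)
    · intro x v w
      refine Fin.cases ?_ (fun x => ?_) x
      · simp only [Fin.cons_zero]
        intro h
        rw [hf, hf] at h
        exact hg1 h
      · simp only [Fin.cons_succ]
        intro h
        exact hp2 x v w h

/-- Choice of `q` free slots at a vertex. -/
theorem q_slots (d : ℕ → ℕ) (k q : ℕ) (hd : ∀ i, d i ≤ 2)
    (hs : (∑ i ∈ Finset.range k, d i) + q ≤ 2 * k) :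
    ∃ s : Fin q → ℕ × Bool, Function.Injective s ∧ (∀ x, (s x).1 < k) ∧
      (∀ x, d (s x).1 ≤ 1) ∧ (∀ x, (s x).2 = true → d (s x).1 = 0) := by
  classical
  let P : Finset (ℕ × Bool) := (Finset.range k ×ˢ (Finset.univ : Finset Bool)).filter
    (fun p => d p.1 ≤ 1 ∧ (p.2 = true → d p.1 = 0))
  have hP : q ≤ P.card := by
    have h1 : P.card = ∑ i ∈ Finset.range k, ∑ b : Bool,
        (if d i ≤ 1 ∧ (b = true → d i = 0) then 1 else 0) := by
      rw [Finset.card_filter, Finset.sum_product]
    have h2 : ∀ i ∈ Finset.range k, (∑ b : Bool,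
        (if d i ≤ 1 ∧ (b = true → d i = 0) then 1 else 0)) + d i = 2 := by
      intro i _
      have := hd i
      have h3 : d i = 0 ∨ d i = 1 ∨ d i = 2 := by omega
      rcases h3 with h | h | h <;> simp [h]
    have h4 : ∑ i ∈ Finset.range k, ((∑ b : Bool,
        (if d i ≤ 1 ∧ (b = true → d i = 0) then 1 else 0)) + d i) = ∑ i ∈ Finset.range k, 2 :=
      Finset.sum_congr rfl h2
    rw [Finset.sum_add_distrib, ← h1, Finset.sum_const, Finset.card_range, smul_eq_mul] at h4
    omega
  obtain ⟨e⟩ : Nonempty (Fin q ↪ {p // p ∈ P}) := by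
    apply Function.Embedding.nonempty_of_card_le
    rw [Fintype.card_fin, Fintype.card_coe]
    exact hP
  have hmem : ∀ x, (e x).1 ∈ P := fun x => (e x).2
  refine ⟨fun x => (e x).1, ?_, ?_, ?_, ?_⟩
  · intro x y hxy
    exact e.injective (Subtype.ext hxy)
  · intro x
    have := (Finset.mem_filter.mp (hmem x)).1
    exact Finset.mem_range.mp (Finset.mem_product.mp this).1
  · intro x
    exact (Finset.mem_filter.mp (hmem x)).2.1
  · intro x
    exact (Finset.mem_filter.mp (hmem x)).2.2

/-- The selection of slots, general version. -/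
theorem exists_sel_gen {V : Type} [Fintype V] (G : SimpleGraph V) (k q : ℕ) (c : Sym2 V → ℕ)
    (hlt : ∀ u v, G.Adj u v → c s(u, v) < k) (hc : ∀ i, IsLF (cls G c i))
    (hdeg : ∀ v, (G.neighborSet v).ncard + (q + 2) ≤ 2 * k) :
    ∃ sel : V → Fin (q + 2) → ℕ, (∀ v x, sel v x < k) ∧
      (∀ v i, {x | sel v x = i}.ncard + ((cls G c i).neighborSet v).ncard ≤ 2) ∧
      (∀ v w x, sel v x = sel w x → (cls G c (sel v x)).Reachable v w → v = w) ∧
      (∀ i v₁ v₂ v₃ x₁ x₂ x₃, x₁ ≠ x₂ → x₁ ≠ x₃ → x₂ ≠ x₃ → sel v₁ x₁ = i → sel v₂ x₂ = i →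
        sel v₃ x₃ = i → (cls G c i).Reachable v₁ v₂ → (cls G c i).Reachable v₁ v₃ → False) := by
  classical
  have hslots : ∀ v, ∃ s : Fin (q + 2) → ℕ × Bool, Function.Injective s ∧ (∀ x, (s x).1 < k) ∧
      (∀ x, ((cls G c (s x).1).neighborSet v).ncard ≤ 1) ∧
      (∀ x, (s x).2 = true → ((cls G c (s x).1).neighborSet v).ncard = 0) := by
    intro v
    refine q_slots (fun i => ((cls G c i).neighborSet v).ncard) k (q + 2) (fun i => (hc i).2 v) ?_
    rw [sum_cls G c k hlt v]
    exact hdeg v
  choose slot hs0 hs1 hs2 hs3 using hslots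
  -- two slots of a vertex in the same colour
  have hboth : ∀ v x y, x ≠ y → (slot v x).1 = (slot v y).1 →
      ((cls G c (slot v x).1).neighborSet v).ncard = 0 := by
    intro v x y hxy h
    have hne : (slot v x).2 ≠ (slot v y).2 := fun h' => hxy (hs0 v (Prod.ext h h'))
    by_cases hx : (slot v x).2 = true
    · exact hs3 v x hx
    · have hy : (slot v y).2 = true := by
        revert hne hx
        cases (slot v x).2 <;> cases (slot v y).2 <;> simp
      rw [h]
      exact hs3 v y hy
  -- three slots in the same box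
  have hthree : ∀ i v₁ v₂ v₃ x₁ x₂ x₃, (v₁, x₁) ≠ (v₂, x₂) → (v₁, x₁) ≠ (v₃, x₃) →
      (v₂, x₂) ≠ (v₃, x₃) → (slot v₁ x₁).1 = i → (slot v₂ x₂).1 = i → (slot v₃ x₃).1 = i →
      (cls G c i).Reachable v₁ v₂ → (cls G c i).Reachable v₁ v₃ → False := by
    intro i v₁ v₂ v₃ x₁ x₂ x₃ h12 h13 h23 i1 i2 i3 r12 r13
    have d1 : ((cls G c i).neighborSet v₁).ncard ≤ 1 := by rw [← i1]; exact hs2 v₁ x₁
    have d2 : ((cls G c i).neighborSet v₂).ncard ≤ 1 := by rw [← i2]; exact hs2 v₂ x₂
    have d3 : ((cls G c i).neighborSet v₃).ncard ≤ 1 := by rw [← i3]; exact hs2 v₃ x₃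
    have same : ∀ v x y z, x ≠ y → x ≠ z → y ≠ z → (slot v x).1 = i → (slot v y).1 = i →
        (slot v z).1 = i → False := by
      intro v x y z hxy hxz hyz a1 a2 a3
      have n1 : (slot v x).2 ≠ (slot v y).2 := fun h' => hxy (hs0 v (Prod.ext (a1.trans a2.symm) h'))
      have n2 : (slot v x).2 ≠ (slot v z).2 := fun h' => hxz (hs0 v (Prod.ext (a1.trans a3.symm) h'))
      have n3 : (slot v y).2 ≠ (slot v z).2 := fun h' => hyz (hs0 v (Prod.ext (a2.trans a3.symm) h'))
      revert n1 n2 n3
      cases (slot v x).2 <;> cases (slot v y).2 <;> cases (slot v z).2 <;> simp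
    by_cases e1 : v₁ = v₂
    · subst e1
      have n12 : x₁ ≠ x₂ := fun h => h12 (by rw [h])
      have z := hboth v₁ x₁ x₂ n12 (i1.trans i2.symm)
      rw [i1] at z
      have e2 := eq_of_deg_zero _ _ _ z r13
      subst e2
      exact same v₁ x₁ x₂ x₃ n12 (fun h => h13 (by rw [h])) (fun h => h23 (by rw [h])) i1 i2 i3
    · by_cases e2 : v₁ = v₃
      · subst e2
        have n13 : x₁ ≠ x₃ := fun h => h13 (by rw [h])
        have z := hboth v₁ x₁ x₃ n13 (i1.trans i3.symm)
        rw [i1] at z
        exact e1 (eq_of_deg_zero _ _ _ z r12)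
      · by_cases e3 : v₂ = v₃
        · subst e3
          have n23 : x₂ ≠ x₃ := fun h => h23 (by rw [h])
          have z := hboth v₂ x₂ x₃ n23 (i2.trans i3.symm)
          rw [i2] at z
          exact e1 (eq_of_deg_zero _ _ _ z r12.symm).symm
        · exact three_ends _ (hc _) v₁ v₂ v₃ e1 e2 e3 d1 d2 d3 r12 r13
  let κ : V × Fin (q + 2) → ℕ × Set V := fun s =>
    ((slot s.1 s.2).1, {w | (cls G c (slot s.1 s.2).1).Reachable s.1 w})
  have hκ : ∀ s s' : V × Fin (q + 2), κ s = κ s' → (slot s.1 s.2).1 = (slot s'.1 s'.2).1 ∧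
      (cls G c (slot s.1 s.2).1).Reachable s.1 s'.1 := by
    intro s s' h
    have h1 : (κ s).1 = (κ s').1 := by rw [h]
    have h2 : (κ s).2 = (κ s').2 := by rw [h]
    change (slot s.1 s.2).1 = (slot s'.1 s'.2).1 at h1
    change {w | (cls G c (slot s.1 s.2).1).Reachable s.1 w} =
        {w | (cls G c (slot s'.1 s'.2).1).Reachable s'.1 w} at h2
    refine ⟨h1, ?_⟩
    have h3 : s'.1 ∈ {w | (cls G c (slot s'.1 s'.2).1).Reachable s'.1 w} := Reachable.refl _
    rw [← h2] at h3
    exact h3
  obtain ⟨pick, hp1, hp2⟩ := q_pick q κ (by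
    intro s₁ s₂ s₃ h12 h13 h23 e12 e13
    obtain ⟨i12, r12⟩ := hκ s₁ s₂ e12
    obtain ⟨i13, r13⟩ := hκ s₁ s₃ e13
    exact hthree _ s₁.1 s₂.1 s₃.1 s₁.2 s₂.2 s₃.2 h12 h13 h23 rfl i12.symm i13.symm r12 r13)
  refine ⟨fun v x => (slot v (pick v x)).1, fun v x => hs1 _ _, ?_, ?_, ?_⟩
  · intro v i
    set T := {x | (slot v (pick v x)).1 = i} with hT
    have hinj : Set.InjOn (fun x => (slot v (pick v x)).2) T := by
      intro a ha b hb hab
      exact hp1 v (hs0 v (Prod.ext (ha.trans hb.symm) hab))
    have hcard : T.ncard = ((fun x => (slot v (pick v x)).2) '' T).ncard :=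
      hinj.ncard_image.symm
    rcases Set.eq_empty_or_nonempty T with h0 | ⟨x, hx⟩
    · rw [h0, Set.ncard_empty, Nat.zero_add]
      exact (hc i).2 v
    · have d1 : ((cls G c i).neighborSet v).ncard ≤ 1 := by
        have := hs2 v (pick v x)
        rw [show (slot v (pick v x)).1 = i from hx] at this
        exact this
      rcases Nat.eq_zero_or_pos ((cls G c i).neighborSet v).ncard with hz | hz
      · rw [hz, Nat.add_zero, hcard]
        refine le_trans (Set.ncard_le_ncard (Set.subset_univ _) (Set.toFinite _)) ?_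
        rw [Set.ncard_univ]
        simp
      · have hsub : (fun x => (slot v (pick v x)).2) '' T ⊆ {false} := by
          rintro _ ⟨y, hy, rfl⟩
          by_contra hcon
          have hyt : (slot v (pick v y)).2 = true := by
            revert hcon
            show ¬ ((slot v (pick v y)).2 = false) → _
            cases (slot v (pick v y)).2 <;> simp
          have := hs3 v (pick v y) hyt
          rw [show (slot v (pick v y)).1 = i from hy] at this
          omega
        have h1 := Set.ncard_le_ncard hsub (Set.toFinite _)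
        rw [Set.ncard_singleton] at h1
        omega
  · intro v w x h hr
    change (slot v (pick v x)).1 = (slot w (pick w x)).1 at h
    change (cls G c (slot v (pick v x)).1).Reachable v w at hr
    apply hp2 x v w
    refine Prod.ext h ?_
    show {u | (cls G c (slot v (pick v x)).1).Reachable v u} =
      {u | (cls G c (slot w (pick w x)).1).Reachable w u}
    rw [← h]
    ext u
    show (cls G c (slot v (pick v x)).1).Reachable v u ↔ (cls G c (slot v (pick v x)).1).Reachable w u
    exact ⟨fun hu => hr.symm.trans hu, fun hu => hr.trans hu⟩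
  · intro i v₁ v₂ v₃ x₁ x₂ x₃ n12 n13 n23 i1 i2 i3 r12 r13
    have ne : ∀ v w x y, x ≠ y → (v, pick v x) ≠ (w, pick w y) := by
      intro v w x y hxy h
      have h1 : v = w := congrArg Prod.fst h
      subst h1
      exact hxy (hp1 v (congrArg Prod.snd h))
    exact hthree i v₁ v₂ v₃ _ _ _ (ne _ _ _ _ n12) (ne _ _ _ _ n13) (ne _ _ _ _ n23)
      i1 i2 i3 r12 r13

end H931R3.LA
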