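import Pool.Agent.H79.LA.H931R3_LAGen

set_option autoImplicit false

/-!
The general construction: acyclicity and the cover.
-/

namespace H931R3.LA

open SimpleGraph

/-- The part of the second factor which is used above the component of `u`. -/
def part {V W : Type} (L : SimpleGraph V) (F : SimpleGraph W) (p : V → Sym2 W → Prop) (u : V) :
    SimpleGraph W where
  Adj a b := F.Adj a b ∧ ∃ v, L.Reachable u v ∧ p v s(a, b)
  symm.symm a b h := ⟨h.1.symm, by rw [Sym2.eq_swap]; exact h.2⟩
  loopless.irrefl a h := h.1.ne rfl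

theorem mix_acyclic_gen {V W : Type} (L : SimpleGraph V) (F : SimpleGraph W)
    (p : V → Sym2 W → Prop) (hL : L.IsAcyclic) (hF : ∀ u, (part L F p u).IsAcyclic)
    (hp : ∀ u v e, p u e → p v e → L.Reachable u v → u = v) : (mix L F p).IsAcyclic := by
  classical
  simp only [isAcyclic_iff_forall_adj_isBridge] at hL hF ⊢
  rintro ⟨u, h⟩ ⟨w, h'⟩ (⟨h1, h2⟩ | ⟨h1, h2, h3⟩)
  · -- horizontal edge
    dsimp only at h1 h2
    subst h1
    rw [isBridge_iff]
    intro hreach
    have hbr := hL h2
    rw [isBridge_iff] at hbr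
    have hle : L.deleteEdges {s(u, w)} ≤ L := L.deleteEdges_le _
    let S : V × W → Prop := fun x =>
      (x.2 = h ∧ (L.deleteEdges {s(u, w)}).Reachable u x.1) ∨
      (x.2 ≠ h ∧ L.Reachable u x.1 ∧ ∃ z, (part L F p u).Adj h z ∧
        ((part L F p u).deleteEdges {s(h, z)}).Reachable z x.2 ∧
        ∃ s, p s s(h, z) ∧ (L.deleteEdges {s(u, w)}).Reachable u s)
    have hS : S (w, h) := by
      refine reach_induct hreach (R := S) (Or.inl ⟨rfl, Reachable.refl _⟩) ?_
      rintro ⟨a, y⟩ ⟨a', y'⟩ hSa hadj
      rw [deleteEdges_adj] at hadj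
      obtain ⟨hadj, hne⟩ := hadj
      simp only [Set.mem_singleton_iff] at hne
      rcases hadj with ⟨e1, e2⟩ | ⟨e1, e2, e3⟩
      · dsimp only at e1 e2
        subst e1
        rcases hSa with ⟨hy, hr⟩ | ⟨hy, hr, hz⟩
        · dsimp only at hy hr
          subst hy
          refine Or.inl ⟨rfl, hr.trans (Adj.reachable ?_)⟩
          rw [deleteEdges_adj]
          refine ⟨e2, ?_⟩
          simp only [Set.mem_singleton_iff]
          intro hcon
          apply hne
          rw [Sym2.eq_iff] at hcon ⊢
          rcases hcon with ⟨c1, c2⟩ | ⟨c1, c2⟩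
          · exact Or.inl ⟨by rw [c1], by rw [c2]⟩
          · exact Or.inr ⟨by rw [c1], by rw [c2]⟩
        · exact Or.inr ⟨hy, hr.trans e2.reachable, hz⟩
      · dsimp only at e1 e2 e3
        subst e1
        rcases hSa with ⟨hy, hr⟩ | ⟨hy, hr, z, hz1, hz2, s, hs1, hs2⟩
        · dsimp only at hy hr
          subst hy
          exact Or.inr ⟨e2.ne', hr.mono hle, y', ⟨e2, a, hr.mono hle, e3⟩, Reachable.refl _,
            a, e3, hr⟩
        · dsimp only at hy hr hz2
          have e2' : (part L F p u).Adj y y' := ⟨e2, a, hr, e3⟩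
          by_cases hy' : y' = h
          · -- returns to the level of h
            subst hy'
            have hyz : y = z := by
              by_contra hyz
              have hb := hF u hz1
              rw [isBridge_iff] at hb
              apply hb
              refine (hz2.trans (Adj.reachable ?_)).symm
              rw [deleteEdges_adj]
              refine ⟨e2', ?_⟩
              simp only [Set.mem_singleton_iff]
              intro hcon
              rw [Sym2.eq_iff] at hcon
              rcases hcon with ⟨c1, _⟩ | ⟨c1, _⟩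
              · exact hy c1
              · exact hyz c1
            subst hyz
            have hsa : a = s := by
              refine hp a s s(y', y) ?_ hs1 (hr.symm.trans (hs2.mono hle))
              rw [Sym2.eq_swap]; exact e3
            exact Or.inl ⟨rfl, hsa ▸ hs2⟩
          · refine Or.inr ⟨hy', hr, z, hz1, hz2.trans (Adj.reachable ?_), s, hs1, hs2⟩
            rw [deleteEdges_adj]
            refine ⟨e2', ?_⟩
            simp only [Set.mem_singleton_iff]
            intro hcon
            rw [Sym2.eq_iff] at hcon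
            rcases hcon with ⟨c1, _⟩ | ⟨_, c2⟩
            · exact hy c1
            · exact hy' c2
    rcases hS with ⟨_, hr⟩ | ⟨hy, _⟩
    · exact hbr hr
    · exact hy rfl
  · -- vertical edge
    dsimp only at h1 h2 h3
    subst h1
    rw [isBridge_iff]
    intro hreach
    have hbr := hF u (v := h) (w := h') ⟨h2, u, Reachable.refl _, h3⟩
    rw [isBridge_iff] at hbr
    let R : V × W → Prop := fun x =>
      L.Reachable u x.1 ∧ ((part L F p u).deleteEdges {s(h, h')}).Reachable h x.2
    have hR : R (u, h') := by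
      refine reach_induct hreach (R := R) ⟨Reachable.refl _, Reachable.refl _⟩ ?_
      rintro ⟨a, y⟩ ⟨a', y'⟩ ⟨hRa, hRy⟩ hadj
      rw [deleteEdges_adj] at hadj
      obtain ⟨hadj, hne⟩ := hadj
      simp only [Set.mem_singleton_iff] at hne
      dsimp only at hRa hRy
      rcases hadj with ⟨e1, e2⟩ | ⟨e1, e2, e3⟩
      · dsimp only at e1 e2
        subst e1
        exact ⟨hRa.trans e2.reachable, hRy⟩
      · dsimp only at e1 e2 e3
        subst e1
        refine ⟨hRa, hRy.trans (Adj.reachable ?_)⟩
        rw [deleteEdges_adj]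
        refine ⟨⟨e2, a, hRa, e3⟩, ?_⟩
        simp only [Set.mem_singleton_iff]
        intro hcon
        have hua : u = a := by
          refine hp u a s(h, h') h3 ?_ hRa
          rw [← hcon]; exact e3
        apply hne
        subst hua
        rw [Sym2.eq_iff] at hcon ⊢
        rcases hcon with ⟨c1, c2⟩ | ⟨c1, c2⟩
        · exact Or.inl ⟨by rw [c1], by rw [c2]⟩
        · exact Or.inr ⟨by rw [c1], by rw [c2]⟩
    exact hbr hR.2

/-- Two labels out of a set with no three distinct elements. -/
theorem two_labels {q : ℕ} (P : Fin (q + 2) → Prop)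
    (h : ∀ x y z, x ≠ y → x ≠ z → y ≠ z → P x → P y → P z → False) :
    ∃ x y, ∀ z, P z → z = x ∨ z = y := by
  classical
  by_cases h1 : ∃ x, P x
  · obtain ⟨x, hx⟩ := h1
    by_cases h2 : ∃ y, P y ∧ y ≠ x
    · obtain ⟨y, hy, hyx⟩ := h2
      refine ⟨x, y, fun z hz => ?_⟩
      by_contra hcon
      push Not at hcon
      exact h x y z hyx.symm hcon.1.symm hcon.2.symm hx hy hz
    · push Not at h2
      exact ⟨x, x, fun z hz => Or.inl (h2 z hz)⟩
  · push Not at h1
    exact ⟨0, 0, fun z hz => absurd hz (h1 z)⟩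

/-- **Main construction**: if `G` is covered by `k` linear forests, all degrees of `G` are at most
`2 k - (q + 2)`, and `H₁` has an acyclic edge colouring with `q + 2` colours, then the copies of
`H₁` can be absorbed by the `k` forests. -/
theorem cov_boxProd_gen {V W : Type} [Finite V] [Finite W] {G : SimpleGraph V}
    {H₁ H₂ : SimpleGraph W} {k m q : ℕ} (hG : Cov G k) (hH₁ : AEC H₁ (q + 2)) (hH₂ : Cov H₂ m)
    (hdeg : ∀ v, (G.neighborSet v).ncard + (q + 2) ≤ 2 * k) : Cov (G □ (H₁ ⊔ H₂)) (k + m) := by
  classical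
  have := Fintype.ofFinite V
  have := Fintype.ofFinite W
  obtain ⟨c, hlt, hc⟩ := exists_col hG
  obtain ⟨B, hB, hBH⟩ := hH₂
  obtain ⟨sel, s0, s1, s2, s3⟩ := exists_sel_gen G k q c hlt hc hdeg
  obtain ⟨ε, hε, hε2⟩ := hH₁
  refine ⟨Fin.append
    (fun i => mix (cls G c i.val) H₁ (fun v e => sel v (ε e) = i.val))
    (fun j => mix ⊥ (B j) (fun _ _ => True)), ?_, ?_⟩
  · intro i
    refine Fin.addCases (fun i => ?_) (fun j => ?_) i
    · rw [Fin.append_left]
      refine ⟨mix_acyclic_gen _ _ _ (hc _).1 ?_ ?_, ?_⟩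
      · intro u
        obtain ⟨x, y, hxy⟩ := two_labels
          (fun z => ∃ v, (cls G c i.val).Reachable u v ∧ sel v z = i.val) (by
            rintro x y z n1 n2 n3 ⟨a, ra, ha⟩ ⟨b, rb, hb⟩ ⟨d, rd, hd⟩
            exact s3 i.val a b d x y z n1 n2 n3 ha hb hd (ra.symm.trans rb) (ra.symm.trans rd))
        refine (hε2 x y).anti ?_
        rintro a b ⟨hab, v, hv, hs⟩
        exact ⟨hab, hxy _ ⟨v, hv, hs⟩⟩
      · intro u v e hu hv hr
        exact s2 u v (ε e) (hu.trans hv.symm) (by rw [hu]; exact hr)
      · rintro ⟨v, h⟩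
        refine le_trans (mix_degree _ _ _ _) ?_
        dsimp only
        set T := {h' | H₁.Adj h h' ∧ sel v (ε s(h, h')) = i.val} with hT
        have hinj : Set.InjOn (fun h' => ε s(h, h')) T := by
          intro a ha b hb hab
          by_contra hne
          exact hε h a b ha.1 hb.1 hne hab
        have hT1 : T.ncard ≤ {x | sel v x = i.val}.ncard := by
          rw [← hinj.ncard_image]
          refine Set.ncard_le_ncard ?_ (Set.toFinite _)
          rintro _ ⟨a, ha, rfl⟩
          exact ha.2
        have := s1 v i.val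
        omega
    · rw [Fin.append_right]
      exact isLF_vertical _ (hB j)
  · ext x y
    rw [iSup_adj, boxProd_adj]
    constructor
    · rintro ⟨i, hi⟩
      revert hi
      refine Fin.addCases (fun i => ?_) (fun j => ?_) i
      · rw [Fin.append_left]
        rintro (⟨h1, h2⟩ | ⟨h1, h2, _⟩)
        · exact Or.inl ⟨h2.1, h1⟩
        · exact Or.inr ⟨Or.inl h2, h1⟩
      · rw [Fin.append_right]
        rintro (⟨_, h2⟩ | ⟨h1, h2, _⟩)
        · exact absurd h2 (by simp)
        · refine Or.inr ⟨Or.inr ?_, h1⟩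
          rw [← hBH, iSup_adj]
          exact ⟨j, h2⟩
    · rintro (⟨h1, h2⟩ | ⟨h1, h2⟩)
      · refine ⟨Fin.castAdd m ⟨c s(x.1, y.1), hlt _ _ h1⟩, ?_⟩
        rw [Fin.append_left]
        exact Or.inl ⟨h2, h1, rfl⟩
      · rcases h1 with h1 | h1
        · refine ⟨Fin.castAdd m ⟨sel x.1 (ε s(x.2, y.2)), s0 _ _⟩, ?_⟩
          rw [Fin.append_left]
          exact Or.inr ⟨h2, h1, rfl⟩
        · rw [← hBH, iSup_adj] at h1
          obtain ⟨j, hj⟩ := h1
          refine ⟨Fin.natAdd k j, ?_⟩
          rw [Fin.append_right]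
          exact Or.inr ⟨h2, hj, trivial⟩

end H931R3.LA
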