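import Pool.Agent.H79.LA.H931R3_LAFin

set_option autoImplicit false

/-!
Pairing of slots (Petersen's two-factor theorem in the form needed here).
-/

namespace H931R3.LA

open SimpleGraph

/-- Koenig: a regular bipartite multigraph is the union of perfect matchings. -/
theorem konig {V E : Type} [Fintype V] [DecidableEq V] [DecidableEq E] (l r : E → V) :
    ∀ (m : ℕ) (A : Finset E), (∀ v, (A.filter (fun e => l e = v)).card = m) →
    (∀ v, (A.filter (fun e => r e = v)).card = m) →
    ∃ ℓ : E → ℕ, (∀ e ∈ A, ℓ e < m) ∧
      (∀ e ∈ A, ∀ e' ∈ A, l e = l e' → ℓ e = ℓ e' → e = e') ∧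
      (∀ e ∈ A, ∀ e' ∈ A, r e = r e' → ℓ e = ℓ e' → e = e') := by
  intro m
  induction m with
  | zero =>
    intro A h1 _
    have hA : ∀ e, e ∉ A := by
      intro e he
      have := h1 (l e)
      rw [Finset.card_eq_zero] at this
      have h2 : e ∈ A.filter (fun x => l x = l e) := Finset.mem_filter.mpr ⟨he, rfl⟩
      rw [this] at h2
      exact absurd h2 (Finset.notMem_empty _)
    exact ⟨fun _ => 0, fun e he => absurd he (hA e), fun e he => absurd he (hA e),
      fun e he => absurd he (hA e)⟩
  | succ m ih =>
    intro A h1 h2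
    let t : V → Finset V := fun v => (A.filter (fun e => l e = v)).image r
    have hall : ∀ S : Finset V, S.card ≤ (S.biUnion t).card := by
      intro S
      have hB : (A.filter (fun e => l e ∈ S)).card = S.card * (m + 1) := by
        rw [Finset.card_eq_sum_card_fiberwise (f := l) (t := S)]
        · have : ∀ v ∈ S, ((A.filter (fun e => l e ∈ S)).filter (fun e => l e = v)).card
              = m + 1 := by
            intro v hv
            rw [← h1 v, Finset.filter_filter]
            congr 1
            ext e
            simp only [Finset.mem_filter]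
            constructor
            · rintro ⟨a, _, b⟩; exact ⟨a, b⟩
            · rintro ⟨a, b⟩; exact ⟨a, b ▸ hv, b⟩
          rw [Finset.sum_congr rfl this, Finset.sum_const, smul_eq_mul]
        · intro e he
          have := (Finset.mem_filter.mp he).2
          exact this
      have hB2 : (A.filter (fun e => l e ∈ S)).card ≤ (m + 1) * (S.biUnion t).card := by
        refine Finset.card_le_mul_card_image_of_maps_to (f := r) ?_ (m + 1) ?_
        · intro e he
          obtain ⟨ha, hs⟩ := Finset.mem_filter.mp he
          rw [Finset.mem_biUnion]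
          exact ⟨l e, hs, Finset.mem_image.mpr ⟨e, Finset.mem_filter.mpr ⟨ha, rfl⟩, rfl⟩⟩
        · intro w _
          rw [← h2 w]
          refine Finset.card_le_card ?_
          intro e he
          simp only [Finset.mem_filter] at he ⊢
          exact ⟨he.1.1, he.2⟩
      rw [hB] at hB2
      nlinarith
    obtain ⟨g, hg1, hg2⟩ := (Finset.all_card_le_biUnion_card_iff_exists_injective t).mp hall
    have hg3 : ∀ v, ∃ e, e ∈ A ∧ l e = v ∧ r e = g v := by
      intro v
      have := hg2 v
      simp only [t, Finset.mem_image, Finset.mem_filter] at this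
      obtain ⟨e, ⟨h1, h2⟩, h3⟩ := this
      exact ⟨e, h1, h2, h3⟩
    choose e he1 he2 he3 using hg3
    have hgb : Function.Bijective g := Finite.injective_iff_bijective.mp hg1
    let A' : Finset E := A.filter (fun x => ∀ v, x ≠ e v)
    have hA' : ∀ x, x ∈ A' ↔ x ∈ A ∧ ∀ v, x ≠ e v := fun x => Finset.mem_filter
    have c1 : ∀ v, (A'.filter (fun x => l x = v)).card = m := by
      intro v
      have h3 : A'.filter (fun x => l x = v) = (A.filter (fun x => l x = v)).erase (e v) := by
        ext x
        rw [Finset.mem_filter, hA', Finset.mem_erase, Finset.mem_filter]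
        constructor
        · rintro ⟨⟨a, b⟩, d⟩; exact ⟨b v, a, d⟩
        · rintro ⟨a, b, d⟩
          refine ⟨⟨b, ?_⟩, d⟩
          rintro w rfl
          rw [he2] at d
          exact a (by rw [d])
      rw [h3, Finset.card_erase_of_mem (Finset.mem_filter.mpr ⟨he1 v, he2 v⟩), h1 v]
      rfl
    have c2 : ∀ w, (A'.filter (fun x => r x = w)).card = m := by
      intro w
      obtain ⟨v, rfl⟩ := hgb.2 w
      have h3 : A'.filter (fun x => r x = g v) = (A.filter (fun x => r x = g v)).erase (e v) := by
        ext x
        rw [Finset.mem_filter, hA', Finset.mem_erase, Finset.mem_filter]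
        constructor
        · rintro ⟨⟨a, b⟩, d⟩; exact ⟨b v, a, d⟩
        · rintro ⟨a, b, d⟩
          refine ⟨⟨b, ?_⟩, d⟩
          rintro w rfl
          rw [he3] at d
          exact a (by rw [hg1 d])
      rw [h3, Finset.card_erase_of_mem (Finset.mem_filter.mpr ⟨he1 v, he3 v⟩), h2 (g v)]
      rfl
    obtain ⟨ℓ, l1, l2, l3⟩ := ih A' c1 c2
    have hout : ∀ x ∈ A, x ∉ A' → ∃ v, x = e v := by
      intro x hx hx'
      rw [hA'] at hx'
      by_contra hcon
      push Not at hcon
      exact hx' ⟨hx, hcon⟩
    refine ⟨fun x => if x ∈ A' then ℓ x else m, ?_, ?_, ?_⟩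
    · intro x _
      by_cases h : x ∈ A'
      · simp only [h, if_true]
        have := l1 x h
        omega
      · simp only [h, if_false]
        omega
    · intro x hx y hy hl hxy
      by_cases h : x ∈ A'
      · by_cases h' : y ∈ A'
        · simp only [h, h', if_true] at hxy
          exact l2 x h y h' hl hxy
        · simp only [h, h', if_true, if_false] at hxy
          have := l1 x h
          omega
      · by_cases h' : y ∈ A'
        · simp only [h, h', if_true, if_false] at hxy
          have := l1 y h'
          omega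
        · obtain ⟨v, rfl⟩ := hout x hx h
          obtain ⟨w, rfl⟩ := hout y hy h'
          rw [he2, he2] at hl
          rw [hl]
    · intro x hx y hy hl hxy
      by_cases h : x ∈ A'
      · by_cases h' : y ∈ A'
        · simp only [h, h', if_true] at hxy
          exact l3 x h y h' hl hxy
        · simp only [h, h', if_true, if_false] at hxy
          have := l1 x h
          omega
      · by_cases h' : y ∈ A'
        · simp only [h, h', if_true, if_false] at hxy
          have := l1 y h'
          omega
        · obtain ⟨v, rfl⟩ := hout x hx h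
          obtain ⟨w, rfl⟩ := hout y hy h'
          rw [he3, he3] at hl
          rw [hg1 hl]

/-- Labels `(j, b)` for the `2 m` slots of each vertex such that two slots in the same box have
labels `(j, false)` and `(j, true)`. -/
theorem pair_labels {V Q : Type} [Fintype V] (m : ℕ) (κ : V × (Fin m × Bool) → Q)
    (hκ : ∀ s₁ s₂ s₃ : V × (Fin m × Bool), s₁ ≠ s₂ → s₁ ≠ s₃ → s₂ ≠ s₃ →
        κ s₁ = κ s₂ → κ s₁ = κ s₃ → False) :
    ∃ lab : V → Fin m × Bool → Fin m × Bool, (∀ v, Function.Injective (lab v)) ∧
      ∀ v w x y, (v, lab v x) ≠ (w, lab w y) → κ (v, lab v x) = κ (w, lab w y) →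
        x.1 = y.1 ∧ x.2 ≠ y.2 := by
  classical
  obtain ⟨c, hc1, hc2⟩ := two_col (Finset.univ : Finset (V × Fin m))
    (fun s => κ (s.1.1, (s.1.2, s.2))) (by
      intro s₁ s₂ s₃ _ _ _ h12 h13 h23 e12 e13
      have inj : ∀ s s' : (V × Fin m) × Bool, s ≠ s' →
          (s.1.1, (s.1.2, s.2)) ≠ (s'.1.1, (s'.1.2, s'.2)) := by
        rintro ⟨⟨a, b⟩, d⟩ ⟨⟨a', b'⟩, d'⟩ hs h
        apply hs
        simp only [Prod.mk.injEq] at h
        rw [h.1, h.2.1, h.2.2]
      exact hκ _ _ _ (inj _ _ h12) (inj _ _ h13) (inj _ _ h23) e12 e13)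
  let sl : V × Fin m → Bool → Bool := fun u b => if c (u, false) = b then false else true
  have hsl : ∀ u b, c (u, sl u b) = b := by
    intro u b
    have h1 := hc1 u (Finset.mem_univ u)
    by_cases h : c (u, false) = b
    · have : sl u b = false := if_pos h
      rw [this, h]
    · have : sl u b = true := if_neg h
      rw [this]
      revert h h1
      cases c (u, false) <;> cases c (u, true) <;> cases b <;> simp
  let K : V × Fin m → Bool → Q := fun u b => κ (u.1, (u.2, sl u b))
  have hKdiff : ∀ u u' b b', (u, sl u b) ≠ (u', sl u' b') → K u b = K u' b' → b ≠ b' := by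
    intro u u' b b' hne hK
    have := hc2 (u, sl u b) (u', sl u' b') (Finset.mem_univ _) (Finset.mem_univ _) hne hK
    rw [hsl, hsl] at this
    exact this
  have ha : ∀ u u' b, K u b = K u' b → u = u' := by
    intro u u' b hK
    by_contra hne
    exact hKdiff u u' b b (fun h => hne (congrArg Prod.fst h)) hK rfl
  -- extend the pairing of slots to a permutation
  let f : {u // ∃ w, K u false = K w true} → {w // ∃ u, K u false = K w true} :=
    fun u => ⟨Classical.choose u.2, ⟨u.1, Classical.choose_spec u.2⟩⟩
  have hf : ∀ u, K u.1 false = K (f u).1 true := fun u => Classical.choose_spec u.2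
  have hfb : Function.Bijective f := by
    constructor
    · intro u u' h
      have h1 := hf u
      have h2 := hf u'
      rw [h, ← h2] at h1
      exact Subtype.ext (ha _ _ _ h1)
    · rintro ⟨w, u, hu⟩
      refine ⟨⟨u, w, hu⟩, ?_⟩
      have h1 := hf ⟨u, w, hu⟩
      apply Subtype.ext
      show (f ⟨u, w, hu⟩).1 = w
      exact ha _ _ _ (h1.symm.trans hu)
  let σ : Equiv.Perm (V × Fin m) := (Equiv.ofBijective f hfb).extendSubtype
  have hσ : ∀ u w, K u false = K w true → σ u = w := by
    intro u w h
    have hp : ∃ w, K u false = K w true := ⟨w, h⟩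
    have h1 : σ u = (f ⟨u, hp⟩).1 := Equiv.extendSubtype_apply_of_mem _ u hp
    rw [h1]
    exact ha _ _ _ ((hf ⟨u, hp⟩).symm.trans h)
  have count1 : ∀ v : V, ((Finset.univ : Finset (V × Fin m)).filter (fun u => u.1 = v)).card
      = m := by
    intro v
    have : (Finset.univ : Finset (V × Fin m)).filter (fun u => u.1 = v) =
        ({v} : Finset V) ×ˢ (Finset.univ : Finset (Fin m)) := by
      ext ⟨a, b⟩
      simp [eq_comm]
    rw [this, Finset.card_product, Finset.card_singleton, Finset.card_univ, Fintype.card_fin,
      Nat.one_mul]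
  have count2 : ∀ v : V, ((Finset.univ : Finset (V × Fin m)).filter (fun u => (σ u).1 = v)).card
      = m := by
    intro v
    refine Eq.trans ?_ (count1 v)
    refine Finset.card_bij (fun u _ => σ u) ?_ ?_ ?_
    · intro u hu
      simpa using hu
    · intro u _ u' _ h
      exact σ.injective h
    · intro w hw
      refine ⟨σ.symm w, ?_, by simp⟩
      simpa using hw
  obtain ⟨ℓ, l1, l2, l3⟩ := konig (fun u : V × Fin m => u.1) (fun u => (σ u).1) m Finset.univ
    count1 count2
  have l1' : ∀ u, ℓ u < m := fun u => l1 u (Finset.mem_univ _)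
  have hfo : ∀ (v : V) (j : Fin m), ∃ x : Fin m, ℓ (v, x) = j.val := by
    intro v j
    have hinj : Function.Injective (fun x : Fin m => (⟨ℓ (v, x), l1' _⟩ : Fin m)) := by
      intro x y h
      have h1 : ℓ (v, x) = ℓ (v, y) := congrArg Fin.val h
      exact congrArg Prod.snd (l2 (v, x) (Finset.mem_univ _) (v, y) (Finset.mem_univ _) rfl h1)
    obtain ⟨x, hx⟩ := (Finite.injective_iff_surjective.mp hinj) j
    exact ⟨x, congrArg Fin.val hx⟩
  have hfi : ∀ (v : V) (j : Fin m), ∃ x : Fin m, ℓ (σ.symm (v, x)) = j.val := by
    intro v j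
    have hinj : Function.Injective (fun x : Fin m => (⟨ℓ (σ.symm (v, x)), l1' _⟩ : Fin m)) := by
      intro x y h
      have h1 : ℓ (σ.symm (v, x)) = ℓ (σ.symm (v, y)) := congrArg Fin.val h
      have h2 := l3 (σ.symm (v, x)) (Finset.mem_univ _) (σ.symm (v, y)) (Finset.mem_univ _)
        (by simp) h1
      exact congrArg Prod.snd (σ.symm.injective h2)
    obtain ⟨x, hx⟩ := (Finite.injective_iff_surjective.mp hinj) j
    exact ⟨x, congrArg Fin.val hx⟩
  choose fo hfo using hfo
  choose fi hfi using hfi
  let lab : V → Fin m × Bool → Fin m × Bool := fun v x =>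
    if x.2 = true then (fi v x.1, sl (v, fi v x.1) true) else (fo v x.1, sl (v, fo v x.1) false)
  have labt : ∀ v j, lab v (j, true) = (fi v j, sl (v, fi v j) true) := fun v j => rfl
  have labf : ∀ v j, lab v (j, false) = (fo v j, sl (v, fo v j) false) := fun v j => rfl
  have hfi_inj : ∀ v j j', fi v j = fi v j' → j = j' := by
    intro v j j' h
    apply Fin.ext
    rw [← hfi v j, ← hfi v j', h]
  have hfo_inj : ∀ v j j', fo v j = fo v j' → j = j' := by
    intro v j j' h
    apply Fin.ext
    rw [← hfo v j, ← hfo v j', h]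
  have cross : ∀ v w j j', K (v, fo v j) false = K (w, fi w j') true → j = j' := by
    intro v w j j' h
    have h1 := hσ _ _ h
    apply Fin.ext
    rw [← hfo v j, ← hfi w j', ← h1, Equiv.symm_apply_apply]
  refine ⟨lab, ?_, ?_⟩
  · rintro v ⟨j, b⟩ ⟨j', b'⟩ h
    have key : ∀ u u' : Fin m, (u, sl (v, u) true) = (u', sl (v, u') false) → False := by
      intro u u' h
      have h1 : u = u' := congrArg Prod.fst h
      subst h1
      have h2 : sl (v, u) true = sl (v, u) false := congrArg Prod.snd h
      have h3 := hsl (v, u) true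
      rw [h2, hsl] at h3
      exact absurd h3 (by simp)
    cases b <;> cases b'
    · rw [labf, labf] at h
      rw [hfo_inj v j j' (congrArg Prod.fst h)]
    · rw [labf, labt] at h
      exact (key _ _ h.symm).elim
    · rw [labf, labt] at h
      exact (key _ _ h).elim
    · rw [labt, labt] at h
      rw [hfi_inj v j j' (congrArg Prod.fst h)]
  · rintro v w ⟨j, b⟩ ⟨j', b'⟩ hne h
    have hne' : ∀ u u' : Fin m, ∀ x y : Bool, (v, (u, x)) ≠ (w, (u', y)) →
        (((v, u), x) : (V × Fin m) × Bool) ≠ ((w, u'), y) := by
      intro u u' x y h1 h2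
      apply h1
      simp only [Prod.mk.injEq] at h2
      rw [h2.1.1, h2.1.2, h2.2]
    cases b <;> cases b'
    · rw [labf, labf] at hne h
      exact absurd rfl (hKdiff (v, fo v j) (w, fo w j') false false (hne' _ _ _ _ hne) h)
    · rw [labf, labt] at h
      exact ⟨cross v w j j' h, by simp⟩
    · rw [labf, labt] at h
      exact ⟨(cross w v j' j h.symm).symm, by simp⟩
    · rw [labt, labt] at hne h
      exact absurd rfl (hKdiff (v, fi v j) (w, fi w j') true true (hne' _ _ _ _ hne) h)

end H931R3.LA
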