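import Pool.Agent.H79.LA.H931R3_LAMax

set_option autoImplicit false

/-!
The final inequalities.
-/

namespace H931R3.LA

open SimpleGraph

/-- `la (G □ H) ≤ max (la G) (la H + ⌈Δ(G)/2⌉)`. -/
theorem la_max {V W : Type} [Finite V] [Finite W] (G : SimpleGraph V) (H : SimpleGraph W) (k : ℕ)
    (hk : la G ≤ k) (hdeg : ∀ v, (G.neighborSet v).ncard + 2 * la H ≤ 2 * k) :
    la (G □ H) ≤ k :=
  la_le (cov_boxProd_all (la_le_iff.mp hk) (cov_la H) hdeg)

theorem la_comm {V W : Type} [Finite V] [Finite W] (G : SimpleGraph V) (H : SimpleGraph W) :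
    la (G □ H) = la (H □ G) := la_iso (boxProdComm G H)

/-- The excess over the conjectured value does not grow. -/
theorem la_excess_max {V W : Type} [Finite V] [Finite W] (G : SimpleGraph V) (H : SimpleGraph W)
    (a b e : ℕ) (ha : ∀ v, (G.neighborSet v).ncard ≤ a) (hb : ∀ w, (H.neighborSet w).ncard ≤ b)
    (hG : la G ≤ (a + 2) / 2 + e) (hH : la H ≤ (b + 2) / 2 + e) :
    la (G □ H) ≤ (a + b + 2) / 2 + e := by
  rcases Nat.even_or_odd a with ⟨a', rfl⟩ | ⟨a', rfl⟩
  · refine la_max G H _ (by omega) ?_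
    intro v
    have := ha v
    omega
  · rcases Nat.even_or_odd b with ⟨b', rfl⟩ | ⟨b', rfl⟩
    · rw [la_comm]
      refine la_max H G _ (by omega) ?_
      intro v
      have := hb v
      omega
    · refine la_max G H _ (by omega) ?_
      intro v
      have := ha v
      omega

/-- One good factor suffices. -/
theorem la_one_factor {V W : Type} [Finite V] [Finite W] [Nonempty V] [Nonempty W]
    (G : SimpleGraph V) (H : SimpleGraph W) (r s : ℕ) (hs : 1 ≤ s)
    (hG : ∀ v, (G.neighborSet v).ncard = r) (hH : ∀ w, (H.neighborSet w).ncard = s)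
    (lH : la H = (s + 2) / 2) (hpar : Even r ∨ Odd s) :
    la (G □ H) = max (la G) ((r + s + 2) / 2) := by
  refine le_antisymm ?_ (max_le (la_le_boxProd G H) ?_)
  · refine la_max G H _ (le_max_left _ _) ?_
    intro v
    rw [hG v, lH]
    have h1 := le_max_right (la G) ((r + s + 2) / 2)
    rcases hpar with ⟨r', rfl⟩ | ⟨s', rfl⟩
    · omega
    · omega
  · exact lower (by omega) (cov_la (G □ H)) (deg_reg G H r s hG hH)

end H931R3.LA
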