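import Mathlib
set_option autoImplicit false
namespace Pool.Agent.MPd14d18

open Finset

/-- number of colours of `L` joining `u` to `w` -/
def mu {W : Type*} [DecidableEq W] (L : Finset ℕ) (m : ℕ → W → W) (u w : W) : ℕ :=
  ∑ c ∈ L, if m c u = w then 1 else 0

section orbit

variable {W : Type*} [Fintype W] [DecidableEq W]

theorem orbit_exists (g h : W → W)
    (hg : ∀ v, g (g v) = v) (hh : ∀ v, h (h v) = v) (v : W) (hv : g v = v) :
    ∃ S : Finset W, v ∈ S ∧ (∀ w ∈ S, g w ∈ S) ∧ (∀ w ∈ S, h w ∈ S) ∧
      (S.filter (fun w => g w = w)).card ≤ 2 := by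
  classical
  let p : Equiv.Perm W := ⟨fun v => g (h v), fun v => h (g v),
    fun v => by simp [hg, hh], fun v => by simp [hg, hh]⟩
  let gp : Equiv.Perm W := ⟨g, g, hg, hg⟩
  have hconj : gp * p * gp⁻¹ = p⁻¹ := by
    ext w
    show g (g (h (g w))) = h (g w)
    rw [hg]
  have key : ∀ k : ℤ, ∀ w, g ((p ^ k) w) = (p ^ (-k)) (g w) := by
    intro k w
    have h1 : gp * p ^ k * gp⁻¹ = p ^ (-k) := by
      rw [← conj_zpow, hconj, inv_zpow, zpow_neg]
    have h2 : gp * p ^ k = p ^ (-k) * gp := by
      rw [← h1]; group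
    have := congrArg (fun q : Equiv.Perm W => q w) h2
    exact this
  let S : Finset W := univ.filter (fun w => ∃ k : ℤ, (p ^ k) v = w)
  refine ⟨S, ?_, ?_, ?_, ?_⟩
  · simp only [S, mem_filter, mem_univ, true_and]
    exact ⟨0, by simp⟩
  · intro w hw
    simp only [S, mem_filter, mem_univ, true_and] at hw ⊢
    obtain ⟨k, rfl⟩ := hw
    exact ⟨-k, by rw [key, hv]⟩
  · intro w hw
    simp only [S, mem_filter, mem_univ, true_and] at hw ⊢
    obtain ⟨k, rfl⟩ := hw
    refine ⟨-(k + 1), ?_⟩
    have h1 : (p ^ (k + 1)) v = g (h ((p ^ k) v)) := by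
      rw [add_comm, zpow_add, zpow_one]; rfl
    have h2 := key (k + 1) v
    rw [hv, h1, hg] at h2
    exact h2.symm
  · by_contra hcon
    rw [not_le, Finset.two_lt_card] at hcon
    obtain ⟨a, ha, b, hb, c, hc, hab, hac, hbc⟩ := hcon
    simp only [S, mem_filter, mem_univ, true_and] at ha hb hc
    obtain ⟨⟨ka, rfl⟩, ha⟩ := ha
    obtain ⟨⟨kb, rfl⟩, hb⟩ := hb
    obtain ⟨⟨kc, rfl⟩, hc⟩ := hc
    have per : ∀ k : ℤ, g ((p ^ k) v) = (p ^ k) v →
        ((MulAction.period p v : ℕ) : ℤ) ∣ 2 * k := by
      intro k hk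
      rw [key, hv] at hk
      rw [← MulAction.zpow_smul_eq_iff_period_dvd]
      have : (p ^ (2 * k)) v = v := by
        have h3 : (p ^ (2 * k)) v = (p ^ k) ((p ^ k) v) := by
          rw [two_mul, zpow_add]; rfl
        rw [h3, ← hk]
        have h4 : (p ^ k) ((p ^ (-k)) v) = (p ^ k * p ^ (-k)) v := rfl
        rw [h4, ← zpow_add]; simp
      exact this
    have eqv : ∀ k l : ℤ, ((MulAction.period p v : ℕ) : ℤ) ∣ k - l →
        (p ^ k) v = (p ^ l) v := by
      intro k l hkl
      rw [← MulAction.zpow_smul_eq_iff_period_dvd] at hkl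
      have h3 : (p ^ (k - l)) v = v := hkl
      have h4 : (p ^ k) v = (p ^ l) ((p ^ (k - l)) v) := by
        have : (p ^ l) ((p ^ (k - l)) v) = (p ^ l * p ^ (k - l)) v := rfl
        rw [this, ← zpow_add]; congr 2; ring
      rw [h4, h3]
    set N : ℤ := ((MulAction.period p v : ℕ) : ℤ) with hN
    obtain ⟨x, hx⟩ := per ka ha
    obtain ⟨y, hy⟩ := per kb hb
    obtain ⟨z, hz⟩ := per kc hc
    have par : ∀ k l s t : ℤ, 2 * k = N * s → 2 * l = N * t → (s - t) % 2 = 0 →
        N ∣ k - l := by
      intro k l s t hs ht hst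
      obtain ⟨r, hr⟩ := Int.dvd_of_emod_eq_zero hst
      refine ⟨r, ?_⟩
      have : 2 * (k - l) = 2 * (N * r) := by
        have : 2 * (k - l) = N * (s - t) := by rw [mul_sub, hs, ht]; ring
        rw [this, hr]; ring
      linarith
    have h3 : (x - y) % 2 = 0 ∨ (x - z) % 2 = 0 ∨ (y - z) % 2 = 0 := by omega
    rcases h3 with h3 | h3 | h3
    · exact hab (eqv _ _ (par _ _ _ _ hx hy h3))
    · exact hac (eqv _ _ (par _ _ _ _ hx hz h3))
    · exact hbc (eqv _ _ (par _ _ _ _ hy hz h3))

theorem closed_exists (g h : W → W)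
    (hg : ∀ v, g (g v) = v) (hh : ∀ v, h (h v) = v) (X Y : Finset W)
    (hX : ∀ w ∈ X, g w = w) :
    ∀ (n : ℕ) (S : Finset W), S.card = n → (∀ w ∈ S, g w ∈ S) → (∀ w ∈ S, h w ∈ S) →
      (S ∩ Y).card < (S ∩ X).card →
      ∃ T : Finset W, (∀ w ∈ T, g w ∈ T) ∧ (∀ w ∈ T, h w ∈ T) ∧
        (T ∩ Y).card < (T ∩ X).card ∧ (T ∩ X).card ≤ 2 := by
  intro n
  induction n using Nat.strong_induction_on with
  | _ n ih =>
    intro S hS hSg hSh hlt
    have hne : (S ∩ X).Nonempty := by
      rw [← Finset.card_pos]; omega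
    obtain ⟨v, hv⟩ := hne
    rw [mem_inter] at hv
    obtain ⟨O, hvO, hOg, hOh, hO2⟩ := orbit_exists g h hg hh v (hX v hv.2)
    by_cases hcase : ((S \ O) ∩ Y).card < ((S \ O) ∩ X).card
    · refine ih (S \ O).card ?_ (S \ O) rfl ?_ ?_ hcase
      · rw [← hS]
        apply Finset.card_lt_card
        refine ⟨Finset.sdiff_subset, fun hsub => ?_⟩
        have := hsub hv.1
        rw [mem_sdiff] at this
        exact this.2 hvO
      · intro w hw
        rw [mem_sdiff] at hw ⊢
        refine ⟨hSg w hw.1, fun h1 => hw.2 ?_⟩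
        have := hOg _ h1
        rwa [hg] at this
      · intro w hw
        rw [mem_sdiff] at hw ⊢
        refine ⟨hSh w hw.1, fun h1 => hw.2 ?_⟩
        have := hOh _ h1
        rwa [hh] at this
    · refine ⟨S ∩ O, ?_, ?_, ?_, ?_⟩
      · intro w hw
        rw [mem_inter] at hw ⊢
        exact ⟨hSg w hw.1, hOg w hw.2⟩
      · intro w hw
        rw [mem_inter] at hw ⊢
        exact ⟨hSh w hw.1, hOh w hw.2⟩
      · have e : ∀ Z : Finset W, (S ∩ Z).card = ((S ∩ O) ∩ Z).card + ((S \ O) ∩ Z).card := by
          intro Z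
          rw [← Finset.card_union_of_disjoint]
          · congr 1
            ext w
            simp only [mem_inter, mem_union, mem_sdiff]
            tauto
          · rw [Finset.disjoint_left]
            intro w hw
            simp only [mem_inter, mem_sdiff] at hw ⊢
            tauto
        have e1 := e X
        have e2 := e Y
        omega
      · refine le_trans (Finset.card_le_card ?_) hO2
        intro w hw
        simp only [mem_inter, mem_filter] at hw ⊢
        exact ⟨hw.1.2, hX w hw.2⟩

end orbit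

section basic

variable {W : Type*} [DecidableEq W]

theorem mu_congr (L : Finset ℕ) (m m' : ℕ → W → W) (h : ∀ c ∈ L, m c = m' c) (u w : W) :
    mu L m u w = mu L m' u w := by
  unfold mu
  refine Finset.sum_congr rfl fun c hc => ?_
  rw [h c hc]

theorem mu_erase (L : Finset ℕ) (m : ℕ → W → W) (i : ℕ) (hi : i ∈ L) (u w : W) :
    mu L m u w = (if m i u = w then 1 else 0) + mu (L.erase i) m u w := by
  unfold mu
  rw [Finset.add_sum_erase L (fun c => if m c u = w then 1 else 0) hi]

theorem mu_eq_card (L : Finset ℕ) (m : ℕ → W → W) (u w : W) :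
    mu L m u w = (L.filter (fun c => m c u = w)).card := by
  unfold mu
  rw [Finset.card_filter]

theorem mu_comm (L : Finset ℕ) (m : ℕ → W → W) (hm : ∀ c v, m c (m c v) = v) (u w : W) :
    mu L m u w = mu L m w u := by
  unfold mu
  refine Finset.sum_congr rfl fun c hc => ?_
  have : m c u = w ↔ m c w = u := by
    constructor
    · intro h; rw [← h, hm]
    · intro h; rw [← h, hm]
  simp only [this]

theorem add_edge (L : Finset ℕ) (m : ℕ → W → W) (hm : ∀ c v, m c (m c v) = v) (c : ℕ)
    (hc : c ∈ L) (a b : W) (hab : a ≠ b) (ha : m c a = a) (hb : m c b = b) :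
    ∃ m' : ℕ → W → W, (∀ c v, m' c (m' c v) = v) ∧ (∀ c', c' ≠ c → m' c' = m c') ∧
      ∀ u w, u ≠ w → mu L m' u w = mu L m u w +
        if (u = a ∧ w = b) ∨ (u = b ∧ w = a) then 1 else 0 := by
  classical
  refine ⟨fun c' v => if c' = c then (if v = a then b else if v = b then a else m c v)
    else m c' v, ?_, ?_, ?_⟩
  · intro c' v
    by_cases hcc : c' = c
    · subst hcc
      simp only [if_true]
      by_cases h1 : v = a
      · subst h1
        simp [hab.symm]
      · by_cases h2 : v = b
        · subst h2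
          simp [hab.symm]
        · have h3 : m c' v ≠ a := by
            intro h; apply h1; rw [← hm c' v, h, ha]
          have h4 : m c' v ≠ b := by
            intro h; apply h2; rw [← hm c' v, h, hb]
          simp [h1, h2, h3, h4, hm]
    · simp [hcc, hm]
  · intro c' hc'
    funext v
    simp [hc']
  · intro u w huw
    rw [mu_erase L _ c hc, mu_erase L m c hc]
    have h1 : mu (L.erase c) (fun c' v => if c' = c then
        (if v = a then b else if v = b then a else m c v) else m c' v) u w =
        mu (L.erase c) m u w := by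
      apply mu_congr
      intro c' hc'
      funext v
      simp [Finset.ne_of_mem_erase hc']
    rw [h1]
    simp only [if_true]
    by_cases h2 : u = a
    · subst h2
      have h3 : ¬ (m c u = w) := by rw [ha]; exact huw
      simp only [if_true, h3, if_false]
      by_cases h4 : w = b
      · subst h4; simp; omega
      · have h5 : ¬ (b = w) := fun h => h4 h.symm
        simp [h4, h5, hab]
    · by_cases h2' : u = b
      · subst h2'
        have h3 : ¬ (m c u = w) := by rw [hb]; exact huw
        simp only [h2, if_false, if_true, h3]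
        by_cases h4 : w = a
        · subst h4; simp; omega
        · have h5 : ¬ (a = w) := fun h => h4 h.symm
          simp [h4, h5]
      · simp [h2, h2']

end basic

section kempe

variable {W : Type*} [DecidableEq W]

theorem kempe (L : Finset ℕ) (m : ℕ → W → W) (hm : ∀ c v, m c (m c v) = v) (i j : ℕ)
    (hi : i ∈ L) (hj : j ∈ L) (S : Finset W) (hSi : ∀ w ∈ S, m i w ∈ S)
    (hSj : ∀ w ∈ S, m j w ∈ S) (m' : ℕ → W → W)
    (hm' : ∀ c v, m' c v = if v ∈ S then m (Equiv.swap i j c) v else m c v) :
    (∀ c v, m' c (m' c v) = v) ∧ (∀ c, c ∉ L → m' c = m c) ∧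
      ∀ u w, mu L m' u w = mu L m u w := by
  have hSi' : ∀ w, w ∉ S → m i w ∉ S := by
    intro w hw h; apply hw; have := hSi _ h; rwa [hm] at this
  have hSj' : ∀ w, w ∉ S → m j w ∉ S := by
    intro w hw h; apply hw; have := hSj _ h; rwa [hm] at this
  refine ⟨?_, ?_, ?_⟩
  · intro c v
    by_cases hci : c = i
    · subst hci
      by_cases hv : v ∈ S
      · rw [hm' c v, if_pos hv, Equiv.swap_apply_left, hm', if_pos (hSj v hv),
          Equiv.swap_apply_left, hm]
      · rw [hm' c v, if_neg hv, hm', if_neg (hSi' v hv), hm]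
    · by_cases hcj : c = j
      · subst hcj
        by_cases hv : v ∈ S
        · rw [hm' c v, if_pos hv, Equiv.swap_apply_right, hm', if_pos (hSi v hv),
            Equiv.swap_apply_right, hm]
        · rw [hm' c v, if_neg hv, hm', if_neg (hSj' v hv), hm]
      · have e : ∀ v, m' c v = m c v := by
          intro v
          rw [hm' c v, Equiv.swap_apply_of_ne_of_ne hci hcj]; simp
        rw [e, e, hm]
  · intro c hc
    have hci : c ≠ i := fun h => hc (h ▸ hi)
    have hcj : c ≠ j := fun h => hc (h ▸ hj)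
    funext v
    rw [hm' c v, Equiv.swap_apply_of_ne_of_ne hci hcj]; simp
  · intro u w
    by_cases hu : u ∈ S
    · rw [mu_eq_card, mu_eq_card]
      refine Finset.card_bij' (fun c _ => Equiv.swap i j c) (fun c _ => Equiv.swap i j c)
        ?_ ?_ ?_ ?_
      · intro c hc
        rw [mem_filter] at hc ⊢
        rw [hm' c u, if_pos hu] at hc
        refine ⟨?_, hc.2⟩
        by_cases hci : c = i
        · subst hci; rw [Equiv.swap_apply_left]; exact hj
        · by_cases hcj : c = j
          · subst hcj; rw [Equiv.swap_apply_right]; exact hi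
          · rw [Equiv.swap_apply_of_ne_of_ne hci hcj]; exact hc.1
      · intro c hc
        rw [mem_filter] at hc ⊢
        refine ⟨?_, ?_⟩
        · by_cases hci : c = i
          · subst hci; rw [Equiv.swap_apply_left]; exact hj
          · by_cases hcj : c = j
            · subst hcj; rw [Equiv.swap_apply_right]; exact hi
            · rw [Equiv.swap_apply_of_ne_of_ne hci hcj]; exact hc.1
        · rw [hm', if_pos hu]
          simpa using hc.2
      · intro c _; simp
      · intro c _; simp
    · unfold mu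
      refine Finset.sum_congr rfl fun c _ => ?_
      rw [hm' c u, if_neg hu]

end kempe

end Pool.Agent.MPd14d18
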