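import Pool.Agent.H79.LA.N411_TG_Cov
import Pool.Agent.H79.LA.TH702_LLG_Line

set_option autoImplicit false

/-!
Total graphs.
-/

namespace Pool.Agent.N411.TG

open SimpleGraph H931R3.LA Pool.Agent.TH702.LLG

/-- The total graph `T(H)`: its vertices are the vertices and the edges of `H`; two of them are
adjacent if they are adjacent vertices, a vertex and an edge containing it, or two different edges
with a common end. -/
def totalGraph {V : Type} (H : SimpleGraph V) : SimpleGraph (V ⊕ H.edgeSet) where
  Adj
    | .inl u, .inl v => H.Adj u v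
    | .inl u, .inr e => u ∈ (e : Sym2 V)
    | .inr e, .inl u => u ∈ (e : Sym2 V)
    | .inr e, .inr e' => H.lineGraph.Adj e e'
  symm := ⟨by
    rintro (u | e) (v | e') h
    · exact SimpleGraph.Adj.symm (G := H) h
    · exact h
    · exact h
    · exact SimpleGraph.Adj.symm (G := H.lineGraph) h⟩
  loopless := ⟨by
    rintro (u | e) h
    · exact H.loopless.irrefl u h
    · exact H.lineGraph.loopless.irrefl e h⟩

variable {V : Type} (H : SimpleGraph V)

theorem tg_ll (u v : V) : (totalGraph H).Adj (.inl u) (.inl v) ↔ H.Adj u v := Iff.rfl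
theorem tg_lr (u : V) (e : H.edgeSet) : (totalGraph H).Adj (.inl u) (.inr e) ↔ u ∈ (e : Sym2 V) :=
  Iff.rfl
theorem tg_rl (u : V) (e : H.edgeSet) : (totalGraph H).Adj (.inr e) (.inl u) ↔ u ∈ (e : Sym2 V) :=
  Iff.rfl
theorem tg_rr (e e' : H.edgeSet) :
    (totalGraph H).Adj (.inr e) (.inr e') ↔ H.lineGraph.Adj e e' := Iff.rfl

/-- The edges at `x` of a class correspond to neighbours. -/
theorem edges_at (x : V) (p : Sym2 V → Prop) :
    {e : H.edgeSet | x ∈ (e : Sym2 V) ∧ p e}.ncard = {y | H.Adj x y ∧ p s(x, y)}.ncard := by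
  symm
  refine Set.ncard_congr (fun y hy => ⟨s(x, y), hy.1⟩) ?_ ?_ ?_
  · intro y hy
    exact ⟨Sym2.mem_mk_left x y, hy.2⟩
  · intro a b ha hb hab
    have h : s(x, a) = s(x, b) := congrArg Subtype.val hab
    exact Sym2.congr_right.1 h
  · rintro ⟨e, he⟩ ⟨h1, h2⟩
    obtain ⟨y, rfl⟩ := h1
    exact ⟨y, ⟨he, h2⟩, rfl⟩

theorem ends_ncard [Finite V] (e : H.edgeSet) : {u | u ∈ (e : Sym2 V)}.ncard = 2 := by
  obtain ⟨⟨x, y⟩, hxy⟩ := e
  have hxy' : H.Adj x y := hxy
  have : {u | u ∈ (s(x, y) : Sym2 V)} = {x, y} := by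
    ext u
    simp [Sym2.mem_iff]
  exact (congrArg Set.ncard this).trans (Set.ncard_pair hxy'.ne)

theorem total_cov [Finite V] (k : ℕ) (hdeg : ∀ v, (H.neighborSet v).ncard ≤ 2 * k) :
    Cov (totalGraph H) (2 * k + 1) := by
  classical
  rcases Nat.eq_zero_or_pos k with hk | hk
  · subst hk
    have hH : ∀ u v, ¬ H.Adj u v := by
      intro u v h
      have h1 : (H.neighborSet u).Nonempty := ⟨v, h⟩
      have h2 := (Set.ncard_pos (Set.toFinite _)).2 h1
      have := hdeg u
      omega
    have he : IsEmpty H.edgeSet := by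
      refine ⟨?_⟩
      rintro ⟨⟨x, y⟩, hxy⟩
      exact hH x y hxy
    have hT : totalGraph H = ⊥ := by
      ext a b
      simp only [bot_adj, iff_false]
      intro h
      rcases a with u | e
      · rcases b with v | e'
        · exact hH u v h
        · exact he.elim e'
      · exact he.elim e
    rw [hT]
    exact cov_bot.mono (Nat.zero_le _)
  · obtain ⟨cl, h1, h2⟩ := exists_classes H k hdeg
    let f : V ⊕ H.edgeSet → ℕ := Sum.elim (fun _ => k) (fun e => cl e)
    have hfl : ∀ u : V, f (.inl u) = k := fun u => rfl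
    have hfr : ∀ e : H.edgeSet, f (.inr e) = cl e := fun e => rfl
    have hlt : ∀ e : H.edgeSet, f (.inr e) < k := fun e => h1 e e.2
    have h2' : ∀ x j, {y | ∃ h : H.Adj x y, cl s(x, y) = j}.ncard ≤ 2 := by
      intro x j
      refine (Set.ncard_le_ncard ?_ (Set.toFinite _)).trans (h2 x j)
      rintro y ⟨hy, hy'⟩
      exact ⟨hy, hy'⟩
    refine cov_special (totalGraph H) k f hk ?_ ?_ ?_ ?_ ?_ ?_
    · rintro (u | e)
      · exact le_refl _
      · exact (hlt e).le
    · rintro (u | e) j hu hj hne
      · exact absurd hu (lt_irrefl _)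
      · have : {v | (totalGraph H).Adj (.inr e) v ∧ f v = j} ⊆
            Sum.inr '' {e' | H.lineGraph.Adj e e' ∧ cl e' = j} := by
          rintro (v | e') ⟨hv, hv'⟩
          · rw [hfl] at hv'
            omega
          · exact ⟨e', ⟨hv, hv'⟩, rfl⟩
        refine (Set.ncard_le_ncard this (Set.toFinite _)).trans ?_
        rw [Set.ncard_image_of_injective _ Sum.inr_injective]
        exact star_count H (fun e => cl e) j 2 (fun x => h2' x j) e
    · rintro (u | e) hu
      · exact absurd hu (lt_irrefl _)
      · have : {v | (totalGraph H).Adj (.inr e) v ∧ f v = f (.inr e)} ⊆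
            Sum.inr '' {e' | H.lineGraph.Adj e e' ∧ cl e' = cl e} := by
          rintro (v | e') ⟨hv, hv'⟩
          · rw [hfl] at hv'
            have := hlt e
            omega
          · exact ⟨e', ⟨hv, hv'⟩, rfl⟩
        refine (Set.ncard_le_ncard this (Set.toFinite _)).trans ?_
        rw [Set.ncard_image_of_injective _ Sum.inr_injective]
        exact star_count_own H (fun e => cl e) 1 e (fun x => h2' x _)
    · rintro (u | e) hu
      · exact absurd hu (lt_irrefl _)
      · have : {v | (totalGraph H).Adj (.inr e) v ∧ f v = k} ⊆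
            Sum.inl '' {u | u ∈ (e : Sym2 V)} := by
          rintro (v | e') ⟨hv, hv'⟩
          · exact ⟨v, hv, rfl⟩
          · have := hlt e'
            omega
        refine (Set.ncard_le_ncard this (Set.toFinite _)).trans ?_
        rw [Set.ncard_image_of_injective _ Sum.inl_injective, ends_ncard]
    · rintro (u | e) j hu hj
      · have : {v | (totalGraph H).Adj (.inl u) v ∧ f v = j} ⊆
            Sum.inr '' {e : H.edgeSet | u ∈ (e : Sym2 V) ∧ cl e = j} := by
          rintro (v | e') ⟨hv, hv'⟩
          · rw [hfl] at hv'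
            omega
          · exact ⟨e', ⟨hv, hv'⟩, rfl⟩
        refine (Set.ncard_le_ncard this (Set.toFinite _)).trans ?_
        rw [Set.ncard_image_of_injective _ Sum.inr_injective,
          edges_at H u (fun e => cl e = j)]
        exact h2 u j
      · have := hlt e
        omega
    · rintro (u | e) hu
      · have : {v | (totalGraph H).Adj (.inl u) v ∧ f v = k} ⊆
            Sum.inl '' (H.neighborSet u) := by
          rintro (v | e') ⟨hv, hv'⟩
          · exact ⟨v, hv, rfl⟩
          · have := hlt e'
            omega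
        refine (Set.ncard_le_ncard this (Set.toFinite _)).trans ?_
        rw [Set.ncard_image_of_injective _ Sum.inl_injective]
        exact hdeg u
      · have := hlt e
        omega

theorem total_degree [Finite V] (d : ℕ) (hd : 1 ≤ d) (hdeg : ∀ v, (H.neighborSet v).ncard = d)
    (x : V ⊕ H.edgeSet) : ((totalGraph H).neighborSet x).ncard = 2 * d := by
  classical
  have hdisj : ∀ (A : Set V) (B : Set H.edgeSet), (Sum.inl '' A ∪ Sum.inr '' B).ncard =
      A.ncard + B.ncard := by
    intro A B
    rw [Set.ncard_union_eq, Set.ncard_image_of_injective _ Sum.inl_injective,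
      Set.ncard_image_of_injective _ Sum.inr_injective]
    rw [Set.disjoint_left]
    rintro _ ⟨a, _, rfl⟩ ⟨b, _, h⟩
    exact absurd h (by simp)
  rcases x with u | e
  · have : (totalGraph H).neighborSet (.inl u) =
        Sum.inl '' (H.neighborSet u) ∪ Sum.inr '' {e : H.edgeSet | u ∈ (e : Sym2 V) ∧ True} := by
      ext (v | e')
      · simp [tg_ll]
      · simp [tg_lr]
    rw [this, hdisj, edges_at H u (fun _ => True)]
    have h2 : {y | H.Adj u y ∧ True} = H.neighborSet u := by
      ext y; simp
    rw [h2, hdeg]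
    omega
  · have : (totalGraph H).neighborSet (.inr e) =
        Sum.inl '' {u | u ∈ (e : Sym2 V)} ∪ Sum.inr '' (H.lineGraph.neighborSet e) := by
      ext (v | e')
      · simp [tg_rl]
      · simp [tg_rr]
    rw [this, hdisj, ends_ncard, line_degree H d hdeg]
    omega

end Pool.Agent.N411.TG
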