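import Pool.Agent.H79.LA.Q105_LAB_Split
import Pool.Agent.H79.LA.W111_LAR_Crit

set_option autoImplicit false

/-!
The criterion: linear forest decompositions of blow-ups are the same as colourings of a multigraph
on the base graph.
-/

namespace Pool.Agent.Q105.LAB

open Finset SimpleGraph H931R3.LA Pool.Agent.W111.LAR

/-- The blow-up of `G`: every vertex is replaced by the set `A` of independent vertices. -/
def bl {V : Type} (G : SimpleGraph V) (A : Type) : SimpleGraph (V × A) where
  Adj x y := G.Adj x.1 y.1
  symm := ⟨fun _ _ h => h.symm⟩
  loopless := ⟨fun _ h => G.loopless.irrefl _ h⟩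

section amal

variable {V J : Type} {m : ℕ}

open Classical in
/-- Multiplicities of the blow-up with an additional vertex. -/
noncomputable def mup (G : SimpleGraph V) (m : ℕ) (β : V → ℕ) :
    Option (V × Fin m) → Option (V × Fin m) → ℕ
  | none, none => 0
  | none, some y => β y.1
  | some x, none => β x.1
  | some x, some y => if G.Adj x.1 y.1 then 1 else 0

/-- Weights. -/
def wp (V : Type) {m : ℕ} (o : Fin m) : Option (V × Fin m) → ℕ
  | none => 1
  | some x => if x.2 = o then m else 0

/-- Multiplicities. -/
def np (o : Fin m) (N : J → V → V → ℕ) (T : J → V → ℕ) (j : J) :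
    Option (V × Fin m) → Option (V × Fin m) → ℕ
  | none, none => 0
  | none, some y => if y.2 = o then T j y.1 else 0
  | some x, none => if x.2 = o then T j x.1 else 0
  | some x, some y => if x.2 = o ∧ y.2 = o then N j x.1 y.1 else 0

/-- Degrees. -/
def dp [Fintype V] (T : J → V → ℕ) (j : J) : Option (V × Fin m) → ℕ
  | none => ∑ v, T j v
  | some _ => 2

theorem cov_crit [Fintype V] [Fintype J] (G : SimpleGraph V) (hm1 : 1 ≤ m)
    (N : J → V → V → ℕ) (hsym : ∀ j u v, N j u v = N j v u)
    (hoff : ∀ j u v, ¬ G.Adj u v → N j u v = 0)
    (htot : ∀ u v, G.Adj u v → ∑ j, N j u v = m * m)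
    (hdeg : ∀ j u, ∑ v, N j u v ≤ 2 * m)
    (hdef : ∀ j v, ∃ u, (cg N j).Reachable v u ∧ ∑ w, N j u w < 2 * m) :
    Cov (bl G (Fin m)) (Fintype.card J) := by
  classical
  let o : Fin m := ⟨0, hm1⟩
  let T : J → V → ℕ := fun j v => 2 * m - ∑ u, N j v u
  let dG : V → ℕ := fun v => ∑ u, if G.Adj v u then 1 else 0
  let β : V → ℕ := fun v => 2 * Fintype.card J - m * dG v
  have hNdeg : ∀ v, ∑ j, ∑ u, N j v u = m * (m * dG v) := by
    intro v
    rw [sum_comm]
    have h1 : ∀ u, ∑ j, N j v u = m * m * (if G.Adj v u then 1 else 0) := by
      intro u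
      by_cases h : G.Adj v u
      · rw [htot v u h, if_pos h, mul_one]
      · rw [if_neg h, mul_zero]
        exact sum_eq_zero fun j _ => hoff j v u h
    rw [sum_congr rfl (fun u _ => h1 u), ← mul_sum, mul_assoc]
  have hTN : ∀ j v, T j v + ∑ u, N j v u = 2 * m := by
    intro j v
    have := hdeg j v
    show 2 * m - ∑ u, N j v u + ∑ u, N j v u = 2 * m
    omega
  have hT : ∀ v, ∑ j, T j v = m * β v := by
    intro v
    have h1 : ∑ j, T j v + ∑ j, ∑ u, N j v u = Fintype.card J * (2 * m) := by
      rw [← sum_add_distrib, sum_congr rfl (fun j _ => hTN j v), sum_const, card_univ, smul_eq_mul]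
    rw [hNdeg] at h1
    show _ = m * (2 * Fintype.card J - m * dG v)
    rw [Nat.mul_sub]
    have h2 : m * (2 * Fintype.card J) = Fintype.card J * (2 * m) := by ring
    omega
  have hN0 : ∀ j v, N j v v = 0 := fun j v => hoff j v v (G.loopless.irrefl v)
  have hconn : ∀ j (v : V), (cg (np o N T) j).Reachable (some (v, o)) none := by
    intro j v
    obtain ⟨u, hu, hTu⟩ := hdef j v
    have h1 : (cg (np o N T) j).Reachable (some (v, o)) (some (u, o)) :=
      hu.map (⟨fun u => some (u, o), fun {a b} hab => by
        refine ⟨fun h => hab.1 (congrArg Prod.fst (Option.some_injective _ h)), ?_⟩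
        rcases hab.2 with h | h
        · left
          show 0 < if (o = o ∧ o = o) then N j a b else 0
          rw [if_pos ⟨rfl, rfl⟩]
          exact h
        · right
          show 0 < if (o = o ∧ o = o) then N j b a else 0
          rw [if_pos ⟨rfl, rfl⟩]
          exact h⟩ : cg N j →g cg (np o N T) j)
    refine h1.trans (Adj.reachable ⟨by simp, Or.inl ?_⟩)
    show 0 < if o = o then T j u else 0
    rw [if_pos rfl]
    show 0 < 2 * m - ∑ w, N j u w
    omega
  have hA : Amal (mup G m β) (dp T) (wp V o) (np o N T) := by
    refine ⟨?_, ?_, ?_, ?_⟩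
    · rintro j (_ | x) (_ | y)
      · rfl
      · rfl
      · rfl
      · show (if x.2 = o ∧ y.2 = o then N j x.1 y.1 else 0) =
          if y.2 = o ∧ x.2 = o then N j y.1 x.1 else 0
        rw [hsym]
        by_cases h : x.2 = o ∧ y.2 = o
        · rw [if_pos h, if_pos h.symm]
        · rw [if_neg h, if_neg (fun h' => h h'.symm)]
    · rintro (_ | x) (_ | y)
      · show ∑ _j : J, 0 = 1 * (1 * 0)
        simp
      · show ∑ j, (if y.2 = o then T j y.1 else 0) = 1 * ((if y.2 = o then m else 0) * β y.1)
        split_ifs
        · rw [hT, one_mul]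
        · simp
      · show ∑ j, (if x.2 = o then T j x.1 else 0) = (if x.2 = o then m else 0) * (1 * β x.1)
        split_ifs
        · rw [hT, one_mul]
        · simp
      · show ∑ j : J, (if x.2 = o ∧ y.2 = o then N j x.1 y.1 else 0) =
          (if x.2 = o then m else 0) * ((if y.2 = o then m else 0) *
            (if G.Adj x.1 y.1 then 1 else 0))
        by_cases h : x.2 = o ∧ y.2 = o
        · simp only [if_pos h]
          rw [if_pos h.1, if_pos h.2]
          by_cases hxy : G.Adj x.1 y.1
          · rw [htot x.1 y.1 hxy, if_pos hxy, mul_one]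
          · rw [if_neg hxy, mul_zero, mul_zero]
            exact sum_eq_zero fun j _ => hoff j _ _ hxy
        · simp only [if_neg h]
          rw [sum_const_zero]
          by_cases h1 : x.2 = o
          · have h2 : ¬ y.2 = o := fun h2 => h ⟨h1, h2⟩
            rw [if_neg h2, zero_mul, mul_zero]
          · rw [if_neg h1, zero_mul]
    · rintro j (_ | x)
      · rw [Fintype.sum_option]
        show 0 + ∑ y : V × Fin m, (if y.2 = o then T j y.1 else 0) = 1 * ∑ v, T j v
        rw [zero_add, one_mul, Fintype.sum_prod_type]
        refine sum_congr rfl fun v _ => ?_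
        show ∑ b : Fin m, (if b = o then T j v else 0) = T j v
        rw [sum_ite_eq' univ o, if_pos (mem_univ _)]
      · rw [Fintype.sum_option]
        show (if x.2 = o then T j x.1 else 0) +
          ∑ y : V × Fin m, (if x.2 = o ∧ y.2 = o then N j x.1 y.1 else 0) =
          (if x.2 = o then m else 0) * 2
        rw [Fintype.sum_prod_type]
        by_cases h : x.2 = o
        · rw [if_pos h, if_pos h, mul_comm m 2, ← hTN j x.1]
          congr 1
          refine sum_congr rfl fun v _ => ?_
          simp only [h, true_and]
          rw [sum_ite_eq' univ o, if_pos (mem_univ _)]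
        · simp [h]
    · intro j x y hx hy
      have hall : ∀ x, 0 < wp V o x → (cg (np o N T) j).Reachable x none := by
        rintro (_ | x) hx
        · exact Reachable.refl _
        · have hx2 : x.2 = o := by
            by_contra hne
            have : wp V o (some x) = 0 := if_neg hne
            omega
          have e1 : x = (x.1, o) := Prod.ext rfl hx2
          rw [e1]
          exact hconn j x.1
      exact (hall x hx).trans (hall y hy).symm
  have hD : ∀ j (x : Option (V × Fin m)), Even (dp T j x) := by
    rintro j (_ | x)
    · show Even (∑ v, T j v)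
      have h1 : ∑ v, T j v + ∑ v, ∑ u, N j v u = Fintype.card V * (2 * m) := by
        rw [← sum_add_distrib, sum_congr rfl (fun v _ => hTN j v), sum_const, card_univ,
          smul_eq_mul]
      have h2 : Even (∑ v, ∑ u, N j v u) := even_sq _ (hsym j) (hN0 j) univ
      have h3 : Even (∑ v, T j v + ∑ v, ∑ u, N j v u) := by
        rw [h1]
        exact ((even_two_mul m)).mul_left _
      exact (Nat.even_add.1 h3).2 h2
    · exact even_two
  obtain ⟨n', hn'⟩ := detach (μ := mup G m β)
    (by
      rintro (_ | x) (_ | y)
      · rfl
      · rfl
      · rfl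
      · exact if_congr (G.adj_comm x.1 y.1) rfl rfl)
    (by
      rintro (_ | x)
      · rfl
      · exact if_neg (G.loopless.irrefl x.1))
    hD (Option.map Prod.fst : Option (V × Fin m) → Option V)
    (by
      rintro (_ | x) (_ | x') (_ | y) h
      · rfl
      · rfl
      · simp at h
      · simp at h
      · simp at h
      · simp at h
      · have h' : x.1 = x'.1 := Option.some_injective _ h
        show β x.1 = β x'.1
        rw [h']
      · have h' : x.1 = x'.1 := Option.some_injective _ h
        show (if G.Adj x.1 y.1 then 1 else 0) = (if G.Adj x'.1 y.1 then 1 else 0)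
        rw [h'])
    (by
      rintro j (_ | x) (_ | x') hne h
      · exact absurd rfl hne
      · simp at h
      · rfl
      · rfl) _ (wp V o) (np o N T) rfl (by
      rintro (_ | u)
      · have h1 : univ.filter (fun x : Option (V × Fin m) => Option.map Prod.fst x = none) =
            {none} := by
          ext x
          cases x <;> simp
        rw [h1, sum_singleton, card_singleton]
        rfl
      · have h1 : univ.filter (fun x : Option (V × Fin m) => Option.map Prod.fst x = some u) =
            (univ : Finset (Fin m)).image (fun a => some (u, a)) := by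
          ext x
          cases x with
          | none => simp
          | some x =>
            simp only [mem_filter, mem_univ, true_and, mem_image, Option.map_some,
              Option.some.injEq]
            constructor
            · rintro rfl
              exact ⟨x.2, rfl⟩
            · rintro ⟨a, rfl⟩
              rfl
        have h2 : Function.Injective (fun a : Fin m => some (u, a)) := fun a b h =>
          (Prod.mk.inj (Option.some_injective _ h)).2
        rw [h1, sum_image (fun a _ b _ h => h2 h), card_image_of_injective _ h2, card_univ,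
          Fintype.card_fin]
        show ∑ a : Fin m, (if a = o then m else 0) = m
        rw [sum_ite_eq' univ o, if_pos (mem_univ _)]) hA
  let F : J → SimpleGraph (V × Fin m) := fun j => (cg n' j).comap some
  have hFadj : ∀ j x y, (F j).Adj x y ↔ x ≠ y ∧ 0 < n' j (some x) (some y) := by
    intro j x y
    constructor
    · rintro ⟨h1, h2⟩
      refine ⟨fun h => h1 (congrArg some h), ?_⟩
      rcases h2 with h | h
      · exact h
      · rw [hn'.symm]; exact h
    · rintro ⟨h1, h2⟩
      exact ⟨fun h => h1 (Option.some_injective _ h), Or.inl h2⟩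
  have hsum2 : ∀ j (x : V × Fin m), (univ.filter (fun y => 0 < n' j (some x) y)).card ≤ 2 := by
    intro j x
    have h2 := hn'.deg j (some x)
    rw [one_mul] at h2
    have h3 : dp T j (some x) = 2 := rfl
    rw [card_eq_sum_ones, ← h3, ← h2]
    refine le_trans (sum_le_sum (fun y hy => ?_)) (sum_le_sum_of_subset (subset_univ _))
    exact (mem_filter.1 hy).2
  have hcard : Nat.card J = Fintype.card J := Nat.card_eq_fintype_card
  rw [← hcard]
  refine cov_of_type F ?_ ?_
  · intro j
    constructor
    · intro v c hc
      have hclosed : ∀ w ∈ c.support, ∀ y, (cg n' j).Adj (some w) y →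
          ∃ w' ∈ c.support, y = some w' := by
        intro w hw y hy
        have h2 := hc.ncard_neighborSet_toSubgraph_eq_two hw
        have hsub : (some '' (c.toSubgraph.neighborSet w) : Set (Option (V × Fin m))) ⊆
            ((univ.filter (fun y => 0 < n' j (some w) y) : Finset _) : Set _) := by
          rintro _ ⟨w', hw', rfl⟩
          have h3 : (F j).Adj w w' := (hw' : c.toSubgraph.Adj w w').adj_sub
          rw [mem_coe, mem_filter]
          exact ⟨mem_univ _, ((hFadj j w w').1 h3).2⟩
        have heq := Set.eq_of_subset_of_ncard_le hsub (by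
          rw [Set.ncard_coe_finset, Set.ncard_image_of_injective _ (Option.some_injective _), h2]
          exact hsum2 j w) (Finset.finite_toSet _)
        have hy' : y ∈ ((univ.filter (fun y => 0 < n' j (some w) y) : Finset _) :
            Set (Option (V × Fin m))) := by
          rw [mem_coe, mem_filter]
          refine ⟨mem_univ _, ?_⟩
          rcases hy.2 with h | h
          · exact h
          · rw [hn'.symm]; exact h
        rw [← heq] at hy'
        obtain ⟨w', hw', rfl⟩ := hy'
        refine ⟨w', ?_, rfl⟩
        have := (hw' : c.toSubgraph.Adj w w').snd_mem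
        rwa [Walk.mem_verts_toSubgraph] at this
      have hr : (cg n' j).Reachable (some v) none :=
        hn'.conn j (some v) none Nat.one_pos Nat.one_pos
      obtain ⟨p⟩ := hr
      have hwalk : ∀ {x y : Option (V × Fin m)} (_ : (cg n' j).Walk x y),
          (∃ w ∈ c.support, x = some w) → ∃ w ∈ c.support, y = some w := by
        intro x y p
        induction p with
        | nil => exact id
        | cons h _ ih =>
          rintro ⟨w, hw, rfl⟩
          exact ih (hclosed w hw _ h)
      obtain ⟨w, _, hw⟩ := hwalk p ⟨v, c.start_mem_support, rfl⟩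
      exact absurd hw (by simp)
    · intro x
      have h1 : (some '' ((F j).neighborSet x) : Set (Option (V × Fin m))) ⊆
          ((univ.filter (fun y => 0 < n' j (some x) y) : Finset _) : Set _) := by
        rintro _ ⟨y, hy, rfl⟩
        rw [mem_coe, mem_filter]
        exact ⟨mem_univ _, ((hFadj j x y).1 hy).2⟩
      rw [← Set.ncard_image_of_injective _ (Option.some_injective (V × Fin m))]
      refine le_trans (Set.ncard_le_ncard h1 (Finset.finite_toSet _)) ?_
      rw [Set.ncard_coe_finset]
      exact hsum2 j x
  · have htot1 : ∀ x y : V × Fin m, ∑ j, n' j (some x) (some y) =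
        if G.Adj x.1 y.1 then 1 else 0 := by
      intro x y
      have h1 := hn'.tot (some x) (some y)
      rw [one_mul, one_mul] at h1
      exact h1
    ext x y
    rw [iSup_adj]
    constructor
    · rintro ⟨j, h⟩
      rw [hFadj] at h
      by_contra hB
      have h5 := htot1 x y
      have hB' : ¬ G.Adj x.1 y.1 := hB
      rw [if_neg hB', sum_eq_zero_iff] at h5
      have := h5 j (mem_univ _)
      omega
    · intro hxy
      have h1 := htot1 x y
      have hB' : G.Adj x.1 y.1 := hxy
      rw [if_pos hB'] at h1
      have h2 : ∃ j, 0 < n' j (some x) (some y) := by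
        by_contra hcon
        push Not at hcon
        rw [sum_eq_zero (fun j _ => Nat.le_zero.1 (hcon j))] at h1
        simp at h1
      obtain ⟨j, hj⟩ := h2
      exact ⟨j, (hFadj j x y).2 ⟨hxy.ne, hj⟩⟩

end amal

end Pool.Agent.Q105.LAB
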