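import Pool.Agent.H79.LA.W111_LAR_Crit

set_option autoImplicit false

/-!
Decomposition of a graph of maximum degree at most `2 k` into `k` graphs of maximum degree two
(Petersen), and cycles in cyclic components.
-/

namespace Pool.Agent.W111.LAR

open Finset SimpleGraph H931R3.LA

/-- Balanced orientation of a regular multigraph of even degree. -/
theorem orient {V E : Type} [Fintype V] [DecidableEq V] [Fintype E] [DecidableEq E] (p q : E → V)
    (k : ℕ) (h : ∀ v, (univ.filter (fun e => p e = v)).card +
      (univ.filter (fun e => q e = v)).card = 2 * k) :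
    ∃ t : E → Bool, (∀ v, (univ.filter (fun e => (if t e then p e else q e) = v)).card = k) ∧
      ∀ v, (univ.filter (fun e => (if t e then q e else p e) = v)).card = k := by
  classical
  let T : E → Finset (V × Fin k) := fun e => ({p e, q e} : Finset V) ×ˢ univ
  have hE : ∀ (s : Finset E) (W : Finset V), (∀ e ∈ s, p e ∈ W ∧ q e ∈ W) →
      s.card ≤ W.card * k := by
    intro s W hW
    have h1 : s.card = ∑ v ∈ W, (s.filter (fun e => p e = v)).card :=
      card_eq_sum_card_fiberwise (fun e he => (hW e he).1)
    have h2 : s.card = ∑ v ∈ W, (s.filter (fun e => q e = v)).card :=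
      card_eq_sum_card_fiberwise (fun e he => (hW e he).2)
    have h3 : ∑ v ∈ W, ((s.filter (fun e => p e = v)).card +
        (s.filter (fun e => q e = v)).card) ≤ ∑ v ∈ W, 2 * k := by
      refine sum_le_sum fun v _ => ?_
      rw [← h v]
      exact add_le_add (card_le_card (filter_subset_filter _ (subset_univ _)))
        (card_le_card (filter_subset_filter _ (subset_univ _)))
    rw [sum_add_distrib, ← h1, ← h2, sum_const, smul_eq_mul] at h3
    have h4 : W.card * (2 * k) = 2 * (W.card * k) := by ring
    omega
  have hall : ∀ s : Finset E, s.card ≤ (s.biUnion T).card := by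
    intro s
    have h1 : s.biUnion T = (s.biUnion (fun e => ({p e, q e} : Finset V))) ×ˢ univ := by
      ext ⟨v, i⟩
      simp [T]
    rw [h1, card_product, card_univ, Fintype.card_fin]
    refine hE s _ fun e he => ⟨?_, ?_⟩
    · exact mem_biUnion.2 ⟨e, he, by simp⟩
    · exact mem_biUnion.2 ⟨e, he, by simp⟩
  obtain ⟨f, hf, hfT⟩ := (Finset.all_card_le_biUnion_card_iff_exists_injective T).1 hall
  have htot : Fintype.card E = Fintype.card V * k := by
    have h1 : (univ : Finset E).card = ∑ v ∈ (univ : Finset V), (univ.filter (fun e => p e = v)).card :=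
      card_eq_sum_card_fiberwise (fun e _ => mem_univ _)
    have h2 : (univ : Finset E).card = ∑ v ∈ (univ : Finset V), (univ.filter (fun e => q e = v)).card :=
      card_eq_sum_card_fiberwise (fun e _ => mem_univ _)
    have h3 : ∑ v ∈ (univ : Finset V), ((univ.filter (fun e => p e = v)).card +
        (univ.filter (fun e => q e = v)).card) = ∑ v ∈ (univ : Finset V), 2 * k :=
      sum_congr rfl fun v _ => h v
    rw [sum_add_distrib, ← h1, ← h2, sum_const, smul_eq_mul, card_univ, card_univ] at h3
    have h4 : Fintype.card V * (2 * k) = 2 * (Fintype.card V * k) := by ring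
    omega
  have hbij : Function.Bijective f :=
    (Fintype.bijective_iff_injective_and_card f).2 ⟨hf, by
      rw [htot, Fintype.card_prod, Fintype.card_fin]⟩
  have hmem : ∀ e, (f e).1 = p e ∨ (f e).1 = q e := by
    intro e
    have := hfT e
    simp only [T, mem_product, mem_insert, mem_singleton, mem_univ, and_true] at this
    exact this
  refine ⟨fun e => decide ((f e).1 = p e), ?_⟩
  have htail : ∀ e, (if decide ((f e).1 = p e) = true then p e else q e) = (f e).1 := by
    intro e
    by_cases h1 : (f e).1 = p e
    · simp [h1]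
    · rcases hmem e with h2 | h2
      · exact absurd h2 h1
      · rw [if_neg (by simpa using h1), h2]
  have h1 : ∀ v, (univ.filter (fun e => (if decide ((f e).1 = p e) = true then p e else q e)
      = v)).card = k := by
    intro v
    have h2 : (univ.filter (fun e => (if decide ((f e).1 = p e) = true then p e else q e)
      = v)).card = (({v} : Finset V) ×ˢ (univ : Finset (Fin k))).card := by
      refine card_bij (fun e _ => f e) ?_ ?_ ?_
      · intro e he
        rw [mem_filter, htail] at he
        rw [mem_product, mem_singleton]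
        exact ⟨he.2, mem_univ _⟩
      · intro e _ e' _ h
        exact hf h
      · intro x hx
        obtain ⟨e, he⟩ := hbij.2 x
        refine ⟨e, ?_, he⟩
        rw [mem_filter, htail, he]
        simp only [mem_product, mem_singleton, mem_univ, and_true] at hx
        exact ⟨mem_univ _, hx⟩
    rw [h2, card_product]
    simp
  refine ⟨h1, fun v => ?_⟩
  have h2 : (univ.filter (fun e => (if decide ((f e).1 = p e) = true then p e else q e)
      = v)).card + (univ.filter (fun e => (if decide ((f e).1 = p e) = true then q e else p e)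
      = v)).card = 2 * k := by
    rw [← h v]
    simp only [card_filter]
    rw [← sum_add_distrib, ← sum_add_distrib]
    refine sum_congr rfl fun e _ => ?_
    by_cases h3 : (f e).1 = p e
    · simp [h3]
    · simp [h3, add_comm]
  have h5 := h1 v
  have h6 : (univ.filter (fun e => (if decide ((f e).1 = p e) = true then q e else p e)
      = v)).card = k := by omega
  exact h6

theorem decomp {V : Type} [Finite V] (G : SimpleGraph V) (k : ℕ)
    (hdeg : ∀ v, (G.neighborSet v).ncard ≤ 2 * k) :
    ∃ H : Fin k → SimpleGraph V, (∀ i v, ((H i).neighborSet v).ncard ≤ 2) ∧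
      (⨆ i, H i) = G := by
  classical
  have := Fintype.ofFinite V
  let E1 := {e : Sym2 V // e ∈ G.edgeSet}
  have : Fintype E1 := Fintype.ofFinite E1
  let p1 : E1 → V := fun e => e.1.out.1
  let q1 : E1 → V := fun e => e.1.out.2
  have hpq : ∀ e : E1, s(p1 e, q1 e) = e.1 := fun e => Quot.out_eq e.1
  have hadj : ∀ e : E1, G.Adj (p1 e) (q1 e) := by
    intro e
    have := e.2
    rw [← hpq e] at this
    exact this
  have real : ∀ v, (univ.filter (fun e => p1 e = v)).card + (univ.filter (fun e => q1 e = v)).card =
      (G.neighborSet v).ncard := by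
    intro v
    rw [← card_union_of_disjoint, Set.ncard_eq_toFinset_card']
    · symm
      refine card_bij (fun w hw => (⟨s(v, w), ?_⟩ : E1)) ?_ ?_ ?_
      · rw [Set.mem_toFinset] at hw
        exact hw
      · intro w hw
        have h1 : s((s(v, w) : Sym2 V).out.1, (s(v, w) : Sym2 V).out.2) = s(v, w) :=
          Quot.out_eq _
        rw [mem_union, mem_filter, mem_filter]
        rcases Sym2.eq_iff.1 h1 with ⟨h2, _⟩ | ⟨_, h2⟩
        · exact Or.inl ⟨mem_univ _, h2⟩
        · exact Or.inr ⟨mem_univ _, h2⟩
      · intro w hw w' hw' h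
        have h1 : s(v, w) = s(v, w') := congrArg (fun e : E1 => e.1) h
        exact Sym2.congr_right.1 h1
      · intro e he
        rw [mem_union, mem_filter, mem_filter] at he
        rcases he with ⟨_, h⟩ | ⟨_, h⟩
        · refine ⟨q1 e, ?_, ?_⟩
          · rw [Set.mem_toFinset, ← h]; exact hadj e
          · apply Subtype.ext
            show s(v, q1 e) = e.1
            rw [← h, hpq]
        · refine ⟨p1 e, ?_, ?_⟩
          · rw [Set.mem_toFinset, ← h]; exact (hadj e).symm
          · apply Subtype.ext
            show s(v, p1 e) = e.1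
            rw [← h, Sym2.eq_swap, hpq]
    · rw [Finset.disjoint_left]
      intro e h1 h2
      exact (hadj e).ne ((mem_filter.1 h1).2.trans (mem_filter.1 h2).2.symm)
  let d : V → ℕ := fun v => 2 * k - (G.neighborSet v).ncard
  have hsum1 : ∑ v, (G.neighborSet v).ncard = 2 * Fintype.card E1 := by
    have h1 : (univ : Finset E1).card = ∑ v ∈ (univ : Finset V), (univ.filter (fun e => p1 e = v)).card :=
      card_eq_sum_card_fiberwise (fun e _ => mem_univ _)
    have h2 : (univ : Finset E1).card = ∑ v ∈ (univ : Finset V), (univ.filter (fun e => q1 e = v)).card :=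
      card_eq_sum_card_fiberwise (fun e _ => mem_univ _)
    simp_rw [← real]
    rw [sum_add_distrib, ← h1, ← h2, card_univ, two_mul]
  have hsum2 : ∑ v, d v + ∑ v, (G.neighborSet v).ncard = 2 * (Fintype.card V * k) := by
    rw [← sum_add_distrib]
    have : ∀ v, d v + (G.neighborSet v).ncard = 2 * k := fun v => by
      have := hdeg v
      show 2 * k - (G.neighborSet v).ncard + (G.neighborSet v).ncard = 2 * k
      omega
    simp_rw [this]
    rw [sum_const, smul_eq_mul, card_univ]
    ring
  let qn : ℕ := Fintype.card V * k - Fintype.card E1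
  have hqn : 2 * qn = ∑ v, d v := by
    show 2 * (Fintype.card V * k - Fintype.card E1) = _
    omega
  have hcard : Fintype.card (Fin qn × Bool) = Fintype.card (Σ v : V, Fin (d v)) := by
    rw [Fintype.card_prod, Fintype.card_fin, Fintype.card_bool, Fintype.card_sigma]
    simp only [Fintype.card_fin]
    omega
  let slot : Fin qn × Bool ≃ (Σ v : V, Fin (d v)) := Fintype.equivOfCardEq hcard
  let p : E1 ⊕ Fin qn → V := Sum.elim p1 (fun j => (slot (j, true)).1)
  let q : E1 ⊕ Fin qn → V := Sum.elim q1 (fun j => (slot (j, false)).1)
  have hdum : ∀ v, (univ.filter (fun j : Fin qn => (slot (j, true)).1 = v)).card +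
      (univ.filter (fun j : Fin qn => (slot (j, false)).1 = v)).card = d v := by
    intro v
    have h1 : (univ.filter (fun x : Fin qn × Bool => (slot x).1 = v)).card = d v := by
      have h2 : (univ.filter (fun x : Fin qn × Bool => (slot x).1 = v)).card =
          (univ : Finset (Fin (d v))).card := by
        symm
        refine card_bij (fun i _ => slot.symm ⟨v, i⟩) ?_ ?_ ?_
        · intro i _
          simp
        · intro i _ j _ h
          have := slot.symm.injective h
          simpa using this
        · intro x hx
          obtain ⟨_, hx⟩ := mem_filter.1 hx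
          subst hx
          exact ⟨(slot x).2, mem_univ _, by simp⟩
      rw [h2, card_univ, Fintype.card_fin]
    rw [← h1]
    simp only [card_filter]
    rw [Fintype.sum_prod_type]
    rw [← sum_add_distrib]
    refine sum_congr rfl fun j _ => ?_
    rw [Fintype.sum_bool]
  obtain ⟨t, ht1, ht2⟩ := orient p q k (by
    intro v
    have h1 : (univ.filter (fun e : E1 ⊕ Fin qn => p e = v)).card =
        (univ.filter (fun e => p1 e = v)).card +
        (univ.filter (fun j : Fin qn => (slot (j, true)).1 = v)).card := by
      simp only [card_filter]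
      rw [Fintype.sum_sum_type]
      rfl
    have h2 : (univ.filter (fun e : E1 ⊕ Fin qn => q e = v)).card =
        (univ.filter (fun e => q1 e = v)).card +
        (univ.filter (fun j : Fin qn => (slot (j, false)).1 = v)).card := by
      simp only [card_filter]
      rw [Fintype.sum_sum_type]
      rfl
    have h3 := real v
    have h4 := hdum v
    have h5 := hdeg v
    have h6 : d v = 2 * k - (G.neighborSet v).ncard := rfl
    omega)
  obtain ⟨ℓ, hℓ, hl1, hl2⟩ := konig (fun e => if t e then p e else q e)
    (fun e => if t e then q e else p e) k univ ht1 ht2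
  let H : Fin k → SimpleGraph V := fun i =>
    { Adj := fun u v => G.Adj u v ∧ ∃ e : E1, ℓ (Sum.inl e) = i ∧ e.1 = s(u, v)
      symm.symm := by
        rintro u v ⟨h, e, he, he2⟩
        exact ⟨h.symm, e, he, by rw [he2, Sym2.eq_swap]⟩
      loopless.irrefl := fun u h => G.loopless.irrefl u h.1 }
  refine ⟨H, ?_, ?_⟩
  · intro i v
    let A : Set V := {x | ∃ e : E1 ⊕ Fin qn, ℓ e = i ∧ (if t e then p e else q e) = v ∧
      (if t e then q e else p e) = x}
    let B : Set V := {x | ∃ e : E1 ⊕ Fin qn, ℓ e = i ∧ (if t e then q e else p e) = v ∧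
      (if t e then p e else q e) = x}
    have hA : A.ncard ≤ 1 := by
      refine (Set.ncard_le_one (Set.toFinite _)).2 ?_
      rintro x ⟨e, he, he1, he2⟩ y ⟨e', he', he1', he2'⟩
      have : e = e' := hl1 e (mem_univ _) e' (mem_univ _) (he1.trans he1'.symm) (he.trans he'.symm)
      rw [← he2, ← he2', this]
    have hB : B.ncard ≤ 1 := by
      refine (Set.ncard_le_one (Set.toFinite _)).2 ?_
      rintro x ⟨e, he, he1, he2⟩ y ⟨e', he', he1', he2'⟩
      have : e = e' := hl2 e (mem_univ _) e' (mem_univ _) (he1.trans he1'.symm) (he.trans he'.symm)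
      rw [← he2, ← he2', this]
    have hsub : (H i).neighborSet v ⊆ A ∪ B := by
      rintro w ⟨_, e, he, he2⟩
      rw [← hpq e] at he2
      rcases Sym2.eq_iff.1 he2 with ⟨h1, h2⟩ | ⟨h1, h2⟩
      · by_cases hte : t (Sum.inl e) = true
        · left
          exact ⟨Sum.inl e, he, by rw [if_pos hte]; exact h1, by rw [if_pos hte]; exact h2⟩
        · right
          exact ⟨Sum.inl e, he, by rw [if_neg hte]; exact h1, by rw [if_neg hte]; exact h2⟩
      · by_cases hte : t (Sum.inl e) = true
        · right
          exact ⟨Sum.inl e, he, by rw [if_pos hte]; exact h2, by rw [if_pos hte]; exact h1⟩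
        · left
          exact ⟨Sum.inl e, he, by rw [if_neg hte]; exact h2, by rw [if_neg hte]; exact h1⟩
    have h1 := Set.ncard_le_ncard hsub (Set.toFinite _)
    have h2 := Set.ncard_union_le A B
    omega
  · ext u v
    simp only [iSup_adj]
    constructor
    · rintro ⟨i, hi⟩
      exact hi.1
    · intro h
      exact ⟨⟨ℓ (Sum.inl ⟨s(u, v), h⟩), hℓ _ (mem_univ _)⟩, h, ⟨s(u, v), h⟩, rfl, rfl⟩

/-- A cyclic component contains a cycle whose length is at most its size. -/
theorem exists_cycle {V : Type} [Finite V] {H : SimpleGraph V} {v : V} (h : Cyc H v) :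
    ∃ (w : V) (c : H.Walk w w), c.IsCycle ∧ c.length ≤ csize H v := by
  classical
  have := Fintype.ofFinite V
  let K : Set V := {w | H.Reachable v w}
  let T := H.induce K
  have hdegT : ∀ x : K, (T.neighborSet x).ncard = 2 := by
    intro x
    rw [← h x.1 x.2]
    have : (Subtype.val '' (T.neighborSet x)) = H.neighborSet x.1 := by
      ext w
      constructor
      · rintro ⟨y, hy, rfl⟩
        exact hy
      · intro hw
        exact ⟨⟨w, (x.2 : H.Reachable v x.1).trans (SimpleGraph.Adj.reachable hw)⟩, hw, rfl⟩
    rw [← this, Set.ncard_image_of_injective _ Subtype.val_injective]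
  have hnot : ¬ T.IsAcyclic := by
    intro hac
    obtain ⟨x, hx⟩ := exists_end T ⟨hac, fun x => (hdegT x).le⟩ ⟨v, Reachable.refl v⟩
    rw [hdegT x] at hx
    omega
  unfold SimpleGraph.IsAcyclic at hnot
  push Not at hnot
  obtain ⟨x, c, hc⟩ := hnot
  have hlen : (c.map (Embedding.induce (G := H) K).toHom).length = c.length :=
    Walk.length_map _ _
  refine ⟨_, c.map (Embedding.induce (G := H) K).toHom, ?_, ?_⟩
  · exact hc.map (Embedding.induce (G := H) K).injective
  · rw [hlen]
    have h1 : c.support.tail.Nodup := hc.support_nodup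
    have h2 := h1.length_le_card
    rw [List.length_tail, Walk.length_support, Nat.add_sub_cancel] at h2
    refine h2.trans (le_of_eq ?_)
    rw [csize, ← Nat.card_coe_set_eq, Nat.card_eq_fintype_card]

end Pool.Agent.W111.LAR
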