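import Pool.Agent.H79.LA.Q105_LAB_Crit
import Pool.Agent.H79.LA.W111_LAR_Dec
import Pool.Agent.H79.LA.H931R3_LAPet

set_option autoImplicit false

/-!
Factorizations of regular graphs, sizes of components.
-/

namespace Pool.Agent.Q105.LAB

open Finset SimpleGraph H931R3.LA Pool.Agent.W111.LAR

open Classical in
theorem sum_adj {V : Type} [Fintype V] (G : SimpleGraph V) (u : V) :
    ∑ v, (if G.Adj u v then 1 else 0) = (G.neighborSet u).ncard := by
  rw [← card_filter, ← Set.ncard_coe_finset]
  congr 1
  ext v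
  simp

open Classical in
/-- Petersen's theorem in the form of multiplicities. -/
theorem two_fac {V : Type} [Fintype V] (G : SimpleGraph V) (k : ℕ)
    (hreg : ∀ v, (G.neighborSet v).ncard = 2 * k) :
    ∃ H : Fin k → SimpleGraph V, (∀ i u, ((H i).neighborSet u).ncard = 2) ∧
      (⨆ i, H i) = G ∧ ∀ u v, G.Adj u v → ∑ i, (if (H i).Adj u v then 1 else 0) = 1 := by
  obtain ⟨H, hH, hsup⟩ := decomp G k (fun v => (hreg v).le)
  have hG : ∀ u v, G.Adj u v ↔ ∃ i, (H i).Adj u v := by
    intro u v
    rw [← hsup, iSup_adj]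
  have h1 : ∀ u v, (if G.Adj u v then 1 else 0) ≤ ∑ i, (if (H i).Adj u v then 1 else 0) := by
    intro u v
    split_ifs with h
    · obtain ⟨i, hi⟩ := (hG u v).1 h
      have h2 := single_le_sum (f := fun i => if (H i).Adj u v then 1 else 0)
        (fun _ _ => Nat.zero_le _) (mem_univ i)
      simp only [if_pos hi] at h2
      exact h2
    · exact Nat.zero_le _
  have h2 : ∀ u, ∑ v, ∑ i, (if (H i).Adj u v then 1 else 0) =
      ∑ i, ((H i).neighborSet u).ncard := by
    intro u
    rw [sum_comm]
    exact sum_congr rfl fun i _ => sum_adj (H i) u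
  have h3 : ∀ u, ∑ i, ((H i).neighborSet u).ncard ≤ ∑ _i : Fin k, 2 := fun u =>
    sum_le_sum fun i _ => hH i u
  have h4 : ∑ _i : Fin k, 2 = 2 * k := by
    rw [sum_const, card_univ, Fintype.card_fin, smul_eq_mul, mul_comm]
  have h5 : ∀ u, ∑ v, (if G.Adj u v then 1 else 0) = 2 * k := fun u => by rw [sum_adj, hreg]
  have h6 : ∀ u, ∑ v, (if G.Adj u v then 1 else 0) ≤
      ∑ v, ∑ i, (if (H i).Adj u v then 1 else 0) := fun u => sum_le_sum fun v _ => h1 u v
  refine ⟨H, ?_, hsup, ?_⟩
  · intro i u
    refine (sum_eq_sum_iff_of_le (fun i _ => hH i u)).1 ?_ i (mem_univ i)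
    have := h3 u
    have := h5 u
    have := h6 u
    have := h2 u
    omega
  · intro u v huv
    have h7 := (sum_eq_sum_iff_of_le (fun v _ => h1 u v)).1 (by
      have := h3 u
      have := h5 u
      have := h6 u
      have := h2 u
      omega) v (mem_univ v)
    rw [← h7, if_pos huv]

/-- The arcs of a regular graph are the union of permutations. -/
theorem perms {V : Type} [Fintype V] (G : SimpleGraph V) (r : ℕ)
    (hreg : ∀ v, (G.neighborSet v).ncard = r) :
    ∃ σ : Fin r → Equiv.Perm V, (∀ i v, G.Adj v (σ i v)) ∧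
      ∀ u v, G.Adj u v → ∃ i, σ i u = v ∧ ∀ j, σ j u = v → j = i := by
  classical
  let E : Type := {p : V × V // G.Adj p.1 p.2}
  have : Fintype E := Fintype.ofFinite E
  have hl : ∀ v, ((univ : Finset E).filter (fun e => e.1.1 = v)).card = r := by
    intro v
    rw [← hreg v, ← Set.ncard_coe_finset, ← Set.InjOn.ncard_image (f := fun e : E => e.1.2)]
    · congr 1
      ext u
      constructor
      · rintro ⟨e, he, rfl⟩
        have h1 : e.1.1 = v := (mem_filter.1 (mem_coe.1 he)).2
        have h2 := e.2
        rw [h1] at h2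
        exact h2
      · intro hu
        exact ⟨⟨(v, u), hu⟩, mem_coe.2 (mem_filter.2 ⟨mem_univ _, rfl⟩), rfl⟩
    · intro e he e' he' h
      have h1 : e.1.1 = v := (mem_filter.1 (mem_coe.1 he)).2
      have h2 : e'.1.1 = v := (mem_filter.1 (mem_coe.1 he')).2
      exact Subtype.ext (Prod.ext (h1.trans h2.symm) h)
  have hr : ∀ v, ((univ : Finset E).filter (fun e => e.1.2 = v)).card = r := by
    intro v
    rw [← hl v]
    refine card_bij (fun e _ => (⟨(e.1.2, e.1.1), e.2.symm⟩ : E)) ?_ ?_ ?_
    · intro e he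
      exact mem_filter.2 ⟨mem_univ _, (mem_filter.1 he).2⟩
    · intro e _ e' _ h
      have h1 := congrArg Subtype.val h
      exact Subtype.ext (Prod.ext (congrArg Prod.snd h1) (congrArg Prod.fst h1))
    · intro e he
      exact ⟨⟨(e.1.2, e.1.1), e.2.symm⟩, mem_filter.2 ⟨mem_univ _, (mem_filter.1 he).2⟩, rfl⟩
  obtain ⟨ℓ, h0, h1, h2⟩ := konig (fun e : E => e.1.1) (fun e : E => e.1.2) r univ hl hr
  have hsur : ∀ (v : V) (i : Fin r), ∃ e : E, e.1.1 = v ∧ ℓ e = i := by
    intro v i
    have h3 : ((univ : Finset E).filter (fun e => e.1.1 = v)).image ℓ = range r := by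
      refine eq_of_subset_of_card_le ?_ ?_
      · intro x hx
        obtain ⟨e, _, rfl⟩ := mem_image.1 hx
        exact mem_range.2 (h0 e (mem_univ _))
      · rw [card_range, card_image_of_injOn, hl]
        intro e he e' he' h
        exact h1 e (mem_univ _) e' (mem_univ _) ((mem_filter.1 (mem_coe.1 he)).2.trans
          (mem_filter.1 (mem_coe.1 he')).2.symm) h
    have h4 : (i : ℕ) ∈ range r := mem_range.2 i.2
    rw [← h3] at h4
    obtain ⟨e, he, hei⟩ := mem_image.1 h4
    exact ⟨e, (mem_filter.1 he).2, hei⟩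
  choose g hg1 hg2 using hsur
  have hinj : ∀ i, Function.Injective (fun v => (g v i).1.2) := by
    intro i v v' h
    have h3 := h2 (g v i) (mem_univ _) (g v' i) (mem_univ _) h (by rw [hg2, hg2])
    rw [← hg1 v i, ← hg1 v' i, h3]
  let σ : Fin r → Equiv.Perm V := fun i =>
    Equiv.ofBijective (fun v => (g v i).1.2) (Finite.injective_iff_bijective.1 (hinj i))
  refine ⟨σ, ?_, ?_⟩
  · intro i v
    have h3 := (g v i).2
    rw [hg1] at h3
    exact h3
  · intro u v huv
    let e : E := ⟨(u, v), huv⟩
    have he : ∀ j : Fin r, σ j u = v → ℓ e = j := by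
      intro j hj
      have h3 : g u j = e := Subtype.ext (Prod.ext (hg1 u j) hj)
      rw [← h3, hg2]
    refine ⟨⟨ℓ e, h0 e (mem_univ _)⟩, ?_, ?_⟩
    · have h3 : g u ⟨ℓ e, h0 e (mem_univ _)⟩ = e :=
        h1 _ (mem_univ _) _ (mem_univ _) (hg1 _ _) (hg2 _ _)
      show (g u ⟨ℓ e, h0 e (mem_univ _)⟩).1.2 = v
      rw [h3]
    · intro j hj
      exact Fin.ext (he j hj).symm

/-- In a graph of minimum degree at least `d` every vertex starts a path with `d` edges. -/
theorem greedy_path {V : Type} [Finite V] (G : SimpleGraph V) (d : ℕ)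
    (hd : ∀ v, d ≤ (G.neighborSet v).ncard) (v : V) : ∀ n ≤ d, ∃ x : ℕ → V, x 0 = v ∧
      (∀ i < n, G.Adj (x i) (x (i + 1))) ∧ ∀ i ≤ n, ∀ j ≤ n, x i = x j → i = j := by
  classical
  intro n
  induction n with
  | zero =>
    intro _
    exact ⟨fun _ => v, rfl, fun i hi => absurd hi (by omega), fun i hi j hj _ => by omega⟩
  | succ n ih =>
    intro hn
    obtain ⟨x, h0, h1, h2⟩ := ih (by omega)
    have hex : ∃ w ∈ G.neighborSet (x n), w ∉ x '' {i | i < n} := by
      by_contra hcon
      push Not at hcon
      have h3 : G.neighborSet (x n) ⊆ x '' {i | i < n} := hcon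
      have h4 := Set.ncard_le_ncard h3 (Set.toFinite _)
      have h5 : (x '' {i | i < n}).ncard ≤ ({i | i < n} : Set ℕ).ncard :=
        Set.ncard_image_le (Set.finite_lt_nat n)
      have h6 : ({i | i < n} : Set ℕ).ncard = n := by
        have : ({i | i < n} : Set ℕ) = ((range n : Finset ℕ) : Set ℕ) := by
          ext i
          simp
        rw [this, Set.ncard_coe_finset, card_range]
      have := hd (x n)
      omega
    obtain ⟨w, hw1, hw2⟩ := hex
    have hw3 : w ≠ x n := (show G.Adj (x n) w from hw1).ne'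
    have hw4 : ∀ i ≤ n, x i ≠ w := by
      intro i hi h
      rcases Nat.lt_or_ge i n with h3 | h3
      · exact hw2 ⟨i, h3, h⟩
      · have : i = n := by omega
        subst this
        exact hw3 h.symm
    refine ⟨Function.update x (n + 1) w, ?_, ?_, ?_⟩
    · rw [Function.update_of_ne (by omega)]
      exact h0
    · intro i hi
      rw [Function.update_of_ne (by omega : i ≠ n + 1)]
      rcases Nat.lt_or_ge i n with h3 | h3
      · rw [Function.update_of_ne (by omega : i + 1 ≠ n + 1)]
        exact h1 i h3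
      · have : i = n := by omega
        subst this
        rw [Function.update_self]
        exact hw1
    · intro i hi j hj h
      by_cases h3 : i = n + 1
      · by_cases h4 : j = n + 1
        · omega
        · rw [h3, Function.update_self, Function.update_of_ne h4] at h
          exact absurd h.symm (hw4 j (by omega))
      · by_cases h4 : j = n + 1
        · rw [h4, Function.update_self, Function.update_of_ne h3] at h
          exact absurd h (hw4 i (by omega))
        · rw [Function.update_of_ne h3, Function.update_of_ne h4] at h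
          exact h2 i (by omega) j (by omega) h

end Pool.Agent.Q105.LAB
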