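import Pool.Agent.H79.LA.Q105_LAB_Crit
import Pool.Agent.H79.LA.W111_LAR_Dec
import Pool.Agent.H79.LA.W111_LAR_Cay

set_option autoImplicit false

/-!
Blow-ups with classes of arbitrary size: decompositions of small load, large girth, Cayley graphs.
-/

namespace Pool.Agent.Q105.LAB

open Finset SimpleGraph H931R3.LA Pool.Agent.W111.LAR

open Classical in
/-- A linear forest which meets all cyclic components, for decompositions of load at most one. -/
theorem sel_of_load {V κ : Type} [Finite V] [Fintype κ] (H : κ → SimpleGraph V)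
    (hload : ∀ v, ∑ i, (if Cyc (H i) v then (2 : ℝ) / csize (H i) v else 0) ≤ 1) :
    ∃ Q : SimpleGraph V, IsLF Q ∧ Q ≤ (⨆ i, H i) ∧
      ∀ i v, Cyc (H i) v → ∃ a b, (H i).Reachable v a ∧ (H i).Adj a b ∧ Q.Adj a b := by
  have := Fintype.ofFinite V
  have : Fintype (EE H) := Fintype.ofFinite (EE H)
  have : Fintype (II H) := Fintype.ofFinite (II H)
  let x : EE H → ℝ := fun e => 1 / csize (H e.1.1) (aa e)
  have hclass : ∀ c : II H, ∑ e ∈ univ.filter (fun e => cl e = c), x e = 1 := by
    intro c
    have hx : ∀ e ∈ univ.filter (fun e : EE H => cl e = c), x e = 1 / csize (H c.1.1) c.1.2 := by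
      intro e he
      obtain ⟨h1, h2⟩ := (cl_iff e c).1 (mem_filter.1 he).2
      show (1 : ℝ) / csize (H e.1.1) (aa e) = _
      rw [h1, csize_eq h2]
    rw [sum_congr rfl hx, sum_const, nsmul_eq_mul, class_card]
    have hpos : (0 : ℝ) < csize (H c.1.1) c.1.2 := by exact_mod_cast csize_pos _ _
    field_simp
  have hvert : ∀ v, ∑ e ∈ Pool.Agent.W111.LAR.star aa bb univ v, x e ≤ 1 := by
    intro v
    refine le_trans (le_of_eq ?_) (hload v)
    rw [← sum_fiberwise (Pool.Agent.W111.LAR.star aa bb univ v) (fun e : EE H => e.1.1) x]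
    refine sum_congr rfl fun i _ => ?_
    by_cases hcyc : Cyc (H i) v
    · rw [if_pos hcyc]
      have hx : ∀ e ∈ (Pool.Agent.W111.LAR.star aa bb (univ : Finset (EE H)) v).filter
          (fun e => e.1.1 = i), x e = 1 / csize (H i) v := by
        intro e he
        obtain ⟨he1, he2⟩ := mem_filter.1 he
        obtain ⟨_, hinc⟩ := mem_filter.1 he1
        show (1 : ℝ) / csize (H e.1.1) (aa e) = _
        rw [← csize_eq (ends_reach e v hinc), he2]
      rw [sum_congr rfl hx, sum_const, cnt i v hcyc, nsmul_eq_mul]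
      push_cast
      ring
    · rw [if_neg hcyc, cnt0 i v hcyc, sum_empty]
  have hx0 : ∀ e, 0 ≤ x e := fun e => by
    show (0 : ℝ) ≤ 1 / csize (H e.1.1) (aa e)
    positivity
  obtain ⟨s, hs, hLF⟩ := selection aa bb ends_ne cl x hx0 hclass hvert
  refine ⟨selGraph aa bb s, hLF, ?_, ?_⟩
  · rintro u v ⟨_, c, hc⟩
    rw [iSup_adj]
    refine ⟨(s c).1.1, ?_⟩
    rcases hc with ⟨h1, h2⟩ | ⟨h1, h2⟩
    · rw [← h1, ← h2]; exact adj_ends _
    · rw [← h1, ← h2]; exact (adj_ends _).symm
  · intro i v hv
    let c : II H := ⟨(i, rep (H i) v), hv.trans (rep_reach _ _).symm, rep_eq (rep_reach _ _)⟩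
    obtain ⟨h1, h2⟩ := (cl_iff (s c) c).1 (hs c)
    have h1' : (s c).1.1 = i := h1
    refine ⟨aa (s c), bb (s c), (rep_reach (H i) v).symm.trans h2.symm, ?_,
      ends_ne _, c, Or.inl ⟨rfl, rfl⟩⟩
    have := adj_ends (s c)
    rw [h1'] at this
    exact this

/-- Every vertex of a linear forest reaches a vertex of degree at most one. -/
theorem lf_end {V : Type} [Finite V] {Q : SimpleGraph V} (hQ : IsLF Q) (v : V) :
    ∃ u, Q.Reachable v u ∧ (Q.neighborSet u).ncard ≤ 1 := by
  by_contra hcon
  push Not at hcon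
  have hc : Cyc Q v := fun w hw => by
    have := hcon w hw
    have := hQ.2 w
    omega
  obtain ⟨w, c, hcy, _⟩ := exists_cycle hc
  exact hQ.1 c hcy

open Classical in
/-- Blow-ups of graphs with a system of disjoint graphs of maximum degree two. -/
theorem cov_sys {V κ : Type} [Finite V] [Fintype κ] (H : κ → SimpleGraph V)
    (hdeg : ∀ i v, ((H i).neighborSet v).ncard ≤ 2)
    (hdis : ∀ i j u v, (H i).Adj u v → (H j).Adj u v → i = j)
    (hload : ∀ v, ∑ i, (if Cyc (H i) v then (2 : ℝ) / csize (H i) v else 0) ≤ 1)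
    {m : ℕ} (hm1 : 1 ≤ m) : Cov (bl (⨆ i, H i) (Fin m)) (m * Fintype.card κ + 1) := by
  obtain ⟨Q, hQ, hQG, hsel⟩ := sel_of_load H hload
  have iV : Fintype V := Fintype.ofFinite V
  have sadj : ∀ (F : SimpleGraph V) (u : V), ∑ v, (if F.Adj u v then 1 else 0) =
      (F.neighborSet u).ncard := by
    intro F u
    rw [← card_filter, ← Set.ncard_coe_finset]
    congr 1
    ext v
    simp
  let N : Option (κ × Fin m) → V → V → ℕ := fun j u v => match j with
    | none => m * (if Q.Adj u v then 1 else 0)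
    | some j => m * (if (H j.1).Adj u v then 1 else 0) -
        (if (H j.1).Adj u v ∧ Q.Adj u v then 1 else 0)
  have hcard : Fintype.card (Option (κ × Fin m)) = m * Fintype.card κ + 1 := by
    rw [Fintype.card_option, Fintype.card_prod, Fintype.card_fin, mul_comm]
  rw [← hcard]
  refine cov_crit (⨆ i, H i) hm1 N ?_ ?_ ?_ ?_ ?_
  · rintro (_ | j) u v
    · show m * (if Q.Adj u v then 1 else 0) = m * (if Q.Adj v u then 1 else 0)
      rw [if_congr (Q.adj_comm u v) rfl rfl]
    · show m * (if (H j.1).Adj u v then 1 else 0) -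
        (if (H j.1).Adj u v ∧ Q.Adj u v then 1 else 0) =
        m * (if (H j.1).Adj v u then 1 else 0) -
        (if (H j.1).Adj v u ∧ Q.Adj v u then 1 else 0)
      rw [if_congr ((H j.1).adj_comm u v) rfl rfl,
        if_congr (and_congr ((H j.1).adj_comm u v) (Q.adj_comm u v)) rfl rfl]
  · rintro (_ | j) u v huv
    · show m * (if Q.Adj u v then 1 else 0) = 0
      rw [if_neg (fun h => huv (hQG h)), mul_zero]
    · have h1 : ¬ (H j.1).Adj u v := by
        intro h
        apply huv
        rw [iSup_adj]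
        exact ⟨_, h⟩
      show m * (if (H j.1).Adj u v then 1 else 0) -
        (if (H j.1).Adj u v ∧ Q.Adj u v then 1 else 0) = 0
      rw [if_neg h1, mul_zero, Nat.zero_sub]
  · intro u v huv
    rw [iSup_adj] at huv
    obtain ⟨i, hi⟩ := huv
    rw [Fintype.sum_option, Fintype.sum_prod_type]
    show m * (if Q.Adj u v then 1 else 0) + ∑ i, ∑ _b : Fin m,
      (m * (if (H i).Adj u v then 1 else 0) - (if (H i).Adj u v ∧ Q.Adj u v then 1 else 0)) = m * m
    have h1 : ∀ j, ∑ _b : Fin m, (m * (if (H j).Adj u v then 1 else 0) -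
        (if (H j).Adj u v ∧ Q.Adj u v then 1 else 0)) =
        if j = i then m * (m - (if Q.Adj u v then 1 else 0)) else 0 := by
      intro j
      rw [sum_const, card_univ, Fintype.card_fin, smul_eq_mul]
      by_cases hj : j = i
      · subst hj
        rw [if_pos rfl, if_pos hi, mul_one]
        congr 2
        exact if_congr ⟨fun h => h.2, fun h => ⟨hi, h⟩⟩ rfl rfl
      · have h2 : ¬ (H j).Adj u v := fun h => hj (hdis j i u v h hi)
        rw [if_neg hj, if_neg h2, mul_zero, Nat.zero_sub, mul_zero]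
    rw [sum_congr rfl (fun j _ => h1 j), sum_ite_eq' univ i, if_pos (mem_univ _), ← mul_add]
    congr 1
    split_ifs <;> omega
  · rintro (_ | j) u
    · show ∑ v, m * (if Q.Adj u v then 1 else 0) ≤ 2 * m
      rw [← mul_sum, sadj, mul_comm]
      exact Nat.mul_le_mul_right m (hQ.2 u)
    · show ∑ v, (m * (if (H j.1).Adj u v then 1 else 0) -
        (if (H j.1).Adj u v ∧ Q.Adj u v then 1 else 0)) ≤ 2 * m
      refine le_trans (sum_le_sum (fun v _ => Nat.sub_le _ _)) ?_
      rw [← mul_sum, sadj, mul_comm]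
      exact Nat.mul_le_mul_right m (hdeg _ u)
  · rintro (_ | j) v
    · obtain ⟨u, hu1, hu2⟩ := lf_end hQ v
      refine ⟨u, hu1.mono ?_, ?_⟩
      · intro a b hab
        refine ⟨hab.ne, Or.inl ?_⟩
        show 0 < m * (if Q.Adj a b then 1 else 0)
        rw [if_pos hab]
        omega
      · show ∑ w, m * (if Q.Adj u w then 1 else 0) < 2 * m
        rw [← mul_sum, sadj]
        calc m * (Q.neighborSet u).ncard ≤ m * 1 := Nat.mul_le_mul_left m hu2
          _ < 2 * m := by omega
    · let i := j.1
      have hgood : ∀ u, (((H i).neighborSet u).ncard ≤ 1 ∨ ∃ b, (H i).Adj u b ∧ Q.Adj u b) →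
          ∑ w, N (some j) u w < 2 * m := by
        intro u hu
        show ∑ w, (m * (if (H i).Adj u w then 1 else 0) -
          (if (H i).Adj u w ∧ Q.Adj u w then 1 else 0)) < 2 * m
        rcases hu with hu | ⟨b, hb1, hb2⟩
        · refine lt_of_le_of_lt (sum_le_sum (fun v _ => Nat.sub_le _ _)) ?_
          rw [← mul_sum, sadj]
          calc m * ((H i).neighborSet u).ncard ≤ m * 1 := Nat.mul_le_mul_left m hu
            _ < 2 * m := by omega
        · have h1 : ∑ w, (m * (if (H i).Adj u w then 1 else 0) -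
              (if (H i).Adj u w ∧ Q.Adj u w then 1 else 0)) <
              ∑ w, m * (if (H i).Adj u w then 1 else 0) := by
            refine sum_lt_sum (fun v _ => Nat.sub_le _ _) ⟨b, mem_univ _, ?_⟩
            rw [if_pos hb1, if_pos ⟨hb1, hb2⟩]
            omega
          rw [← mul_sum, sadj] at h1
          refine lt_of_lt_of_le h1 ?_
          rw [mul_comm]
          exact Nat.mul_le_mul_right m (hdeg i u)
      have hex : ∃ u, (H i).Reachable v u ∧
          (((H i).neighborSet u).ncard ≤ 1 ∨ ∃ b, (H i).Adj u b ∧ Q.Adj u b) := by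
        by_cases hc : Cyc (H i) v
        · obtain ⟨a, b, h1, h2, h3⟩ := hsel i v hc
          exact ⟨a, h1, Or.inr ⟨b, h2, h3⟩⟩
        · unfold Cyc at hc
          push Not at hc
          obtain ⟨w, hw1, hw2⟩ := hc
          refine ⟨w, hw1, Or.inl ?_⟩
          have := hdeg i w
          omega
      obtain ⟨u, ⟨p⟩, hu⟩ := hex
      have hwalk : ∀ {b c : V} (_ : (H i).Walk b c), ∑ w, N (some j) c w < 2 * m →
          ∃ u, (cg N (some j)).Reachable b u ∧ ∑ w, N (some j) u w < 2 * m := by
        intro b c p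
        induction p with
        | nil => intro h; exact ⟨_, Reachable.refl _, h⟩
        | @cons b d c hbd p ih =>
          intro h
          by_cases hq : Q.Adj b d
          · exact ⟨b, Reachable.refl _, hgood b (Or.inr ⟨d, hbd, hq⟩)⟩
          · obtain ⟨u, hu1, hu2⟩ := ih h
            refine ⟨u, Reachable.trans (Adj.reachable ⟨hbd.ne, Or.inl ?_⟩) hu1, hu2⟩
            show 0 < m * (if (H i).Adj b d then 1 else 0) -
              (if (H i).Adj b d ∧ Q.Adj b d then 1 else 0)
            rw [if_pos hbd, if_neg (fun h => hq h.2)]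
            omega
      exact hwalk p (hgood u hu)

end Pool.Agent.Q105.LAB
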