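import Pool.Agent.H79.LA.Q105_LAB_Asm

set_option autoImplicit false

/-!
Blow-ups of regular graphs of arbitrary degree with classes of even size; ownership lemma.
-/

namespace Pool.Agent.Q105.LAB

open Finset SimpleGraph H931R3.LA Pool.Agent.W111.LAR

section

variable {V : Type}

open Classical in
/-- The two-factor (with multiplicities) given by a permutation. -/
noncomputable def ff (σ : Equiv.Perm V) (u v : V) : ℕ :=
  (if σ u = v then 1 else 0) + (if σ v = u then 1 else 0)

theorem ff_symm (σ : Equiv.Perm V) (u v : V) : ff σ u v = ff σ v u := by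
  unfold ff
  rw [add_comm]

theorem ff_sum [Fintype V] (σ : Equiv.Perm V) (u : V) : ∑ v, ff σ u v = 2 := by
  classical
  unfold ff
  rw [sum_add_distrib]
  have h1 : ∑ v, (if σ u = v then 1 else 0) = 1 := by
    rw [sum_ite_eq univ (σ u), if_pos (mem_univ _)]
  have h2 : ∑ v, (if σ v = u then 1 else 0) = 1 := by
    rw [sum_eq_single (σ.symm u)]
    · rw [if_pos (Equiv.apply_symm_apply _ _)]
    · intro v _ hv
      refine if_neg fun h => hv ?_
      rw [← h, Equiv.symm_apply_apply]
    · intro h
      exact absurd (mem_univ _) h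
  rw [h1, h2]

theorem ff_tot {G : SimpleGraph V} {r : ℕ} {σ : Fin r → Equiv.Perm V}
    (h2 : ∀ u v, G.Adj u v → ∃ i, σ i u = v ∧ ∀ j, σ j u = v → j = i) {u v : V}
    (h : G.Adj u v) : ∑ i, ff (σ i) u v = 2 := by
  classical
  unfold ff
  rw [sum_add_distrib]
  have h1 : ∀ a b, G.Adj a b → ∑ i, (if σ i a = b then 1 else 0) = 1 := by
    intro a b hab
    obtain ⟨i, hi, hi'⟩ := h2 a b hab
    rw [sum_eq_single i, if_pos hi]
    · intro j _ hj
      exact if_neg fun h => hj (hi' j h)
    · intro h
      exact absurd (mem_univ _) h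
  rw [h1 u v h, h1 v u h.symm]

theorem ff_off {G : SimpleGraph V} {r : ℕ} {σ : Fin r → Equiv.Perm V}
    (h1 : ∀ i v, G.Adj v (σ i v)) (i : Fin r) {u v : V} (h : ¬ G.Adj u v) :
    ff (σ i) u v = 0 := by
  classical
  unfold ff
  rw [if_neg, if_neg]
  · intro h3
    apply h
    have := h1 i v
    rw [h3] at this
    exact this.symm
  · intro h3
    apply h
    have := h1 i u
    rw [h3] at this
    exact this

end

/-- Classes of even size. -/
theorem cov_any_even {V : Type} [Finite V] (G : SimpleGraph V) (r M B : ℕ)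
    (hM : 1 ≤ M) (hrm : r ≤ 2 * (2 * M) * B) (hreg : ∀ v, (G.neighborSet v).ncard = r) :
    Cov (bl G (Fin (2 * M))) (r * M + B) := by
  classical
  have := Fintype.ofFinite V
  obtain ⟨σ, h1, h2⟩ := perms G r hreg
  obtain ⟨p, hp⟩ := exists_parts r (2 * M) B (by omega) hrm
  have hex : ∀ x, ∃ (N : {i // p i = x} × Fin M → V → V → ℕ) (Q : V → V → ℕ),
      Grp (2 * M) (fun u v => M * (2 * M * ∑ i : {i // p i = x}, ff (σ i.1) u v)) N Q := by
    intro x
    have hι : Fintype.card {i // p i = x} ≤ 2 * M := by
      rw [Fintype.card_subtype]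
      exact hp x
    let e : {i // p i = x} ≃ Fin (Fintype.card {i // p i = x}) := Fintype.equivFin _
    let a : {i // p i = x} × Fin M → ℕ := fun t => e t.1
    have c1 : ∀ c, (univ.filter (fun t => a t = c)).card ≤ M := by
      intro c
      have h0 : Set.InjOn (fun t : {i // p i = x} × Fin M => t.2)
          (univ.filter (fun t => a t = c)) := by
        intro s hs t ht hst
        have h1 : (e s.1 : ℕ) = c := (mem_filter.1 (mem_coe.1 hs)).2
        have h2 : (e t.1 : ℕ) = c := (mem_filter.1 (mem_coe.1 ht)).2
        exact Prod.ext (e.injective (Fin.ext (h1.trans h2.symm))) hst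
      rw [← card_image_of_injOn h0]
      exact le_trans (card_le_univ _) (by rw [Fintype.card_fin])
    have c3 : ∀ c, (univ.filter (fun t => a t + 1 = c + 1)) = univ.filter (fun t => a t = c) := by
      intro c
      ext t
      simp
    refine grp_of (2 * M) M (Fintype.card {i // p i = x}) (by omega) hι _
      (fun i u v => ff (σ i.1) u v) (fun u v => rfl) (fun i u v => ff_symm _ u v)
      (fun i u => ff_sum _ u) a (fun t => (e t.1).2) ?_ ?_ ?_
    · intro c
      have := c1 c
      omega
    · intro c
      cases c with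
      | zero =>
        have h1 : univ.filter (fun t : {i // p i = x} × Fin M => a t + 1 = 0) = ∅ := by
          ext t
          simp
        rw [h1, card_empty]
        have := c1 0
        omega
      | succ c =>
        rw [c3]
        have := c1 c
        have := c1 (c + 1)
        omega
    · intro v
      have h4 : Set.range (fun i : {i // p i = x} => σ i.1 v) ⊆
          (cg (fun _ : Unit => fun u v => ∑ i : {i // p i = x}, ff (σ i.1) u v) ()).neighborSet v := by
        rintro _ ⟨i, rfl⟩
        refine ⟨(h1 i.1 v).ne, Or.inl ?_⟩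
        have h5 : 0 < ff (σ i.1) v (σ i.1 v) := by
          unfold ff
          rw [if_pos rfl]
          omega
        exact lt_of_lt_of_le h5 (single_le_sum (f := fun j : {i // p i = x} =>
          ff (σ j.1) v (σ i.1 v)) (fun _ _ => Nat.zero_le _) (mem_univ i))
      have h5 : Function.Injective (fun i : {i // p i = x} => σ i.1 v) := by
        intro i j hij
        obtain ⟨k, _, hk⟩ := h2 v (σ i.1 v) (h1 i.1 v)
        have h6 := hk i.1 rfl
        have h7 := hk j.1 hij.symm
        exact Subtype.ext (h6.trans h7.symm)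
      refine le_trans (le_of_eq ?_) (Set.ncard_le_ncard h4 (Set.toFinite _))
      rw [← Set.image_univ, Set.ncard_image_of_injective _ h5, Set.ncard_univ,
        Nat.card_eq_fintype_card]
  choose N Q hNQ using hex
  have h3 := cov_grps (by omega) G hNQ (by
    intro u v
    rw [← mul_sum, ← mul_sum]
    have h4 : ∑ x, ∑ i : {i // p i = x}, ff (σ i.1) u v = ∑ i, ff (σ i) u v := by
      rw [← sum_fiberwise univ p (fun i => ff (σ i) u v)]
      refine sum_congr rfl fun x _ => ?_
      rw [← sum_subtype (univ.filter (fun i => p i = x)) (fun i => by simp)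
        (fun i => ff (σ i) u v)]
    rw [h4]
    split_ifs with h5
    · rw [ff_tot h2 h5]
      ring
    · rw [sum_eq_zero, mul_zero, mul_zero]
      intro i _
      exact ff_off h1 i h5)
  have h4 : ∑ x, Fintype.card ({i // p i = x} × Fin M) = r * M := by
    have h5 : ∀ x, Fintype.card ({i // p i = x} × Fin M) =
        M * (univ.filter (fun i => p i = x)).card := by
      intro x
      rw [Fintype.card_prod, Fintype.card_fin, Fintype.card_subtype, mul_comm]
    rw [sum_congr rfl (fun x _ => h5 x), ← mul_sum, mul_comm r M]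
    congr 1
    rw [← card_eq_sum_card_fiberwise (f := p) (t := univ) (fun _ _ => mem_coe.2 (mem_univ _)),
      card_univ, Fintype.card_fin]
  rw [h4] at h3
  exact h3

theorem comp_ge {V : Type} [Finite V] (G : SimpleGraph V) (v : V) :
    (G.neighborSet v).ncard + 1 ≤ {w | G.Reachable v w}.ncard := by
  have h1 : insert v (G.neighborSet v) ⊆ {w | G.Reachable v w} := by
    intro w hw
    rcases hw with rfl | hw
    · exact Reachable.refl _
    · exact Adj.reachable hw
  have h2 := Set.ncard_le_ncard h1 (Set.toFinite _)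
  have h3 : v ∉ G.neighborSet v := G.loopless.irrefl v
  rw [Set.ncard_insert_of_notMem h3 (Set.toFinite _)] at h2
  exact h2

/-- Every component assigns the colours to its vertices, at most `p` to a vertex. -/
theorem exists_owner {V : Type} [Finite V] (G : SimpleGraph V) (p q c : ℕ)
    (hc : ∀ v, c ≤ {w | G.Reachable v w}.ncard) (hq : q ≤ c * p) :
    ∃ g : V → Fin q → V, (∀ v j, G.Reachable v (g v j)) ∧
      (∀ v v' j, G.Reachable v v' → g v j = g v' j) ∧
      ∀ v, {j | g v j = v}.ncard ≤ p := by
  classical
  have hex : ∀ v : V, ∃ φ : Fin q → {w | G.Reachable v w} × Fin p, Function.Injective φ := by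
    intro v
    have : Fintype ({w | G.Reachable v w} × Fin p) := Fintype.ofFinite _
    have h1 : Fintype.card (Fin q) ≤ Fintype.card ({w | G.Reachable v w} × Fin p) := by
      rw [Fintype.card_fin, ← Nat.card_eq_fintype_card, Nat.card_prod, Nat.card_fin,
        Nat.card_coe_set_eq]
      exact le_trans hq (Nat.mul_le_mul_right p (hc v))
    obtain ⟨φ⟩ := Function.Embedding.nonempty_of_card_le h1
    exact ⟨φ, φ.injective⟩
  choose φ hφ using hex
  refine ⟨fun v j => (φ (rep G v) j).1.1, ?_, ?_, ?_⟩
  · intro v j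
    exact (rep_reach G v).symm.trans (φ (rep G v) j).1.2
  · intro v v' j h
    show (φ (rep G v) j).1.1 = (φ (rep G v') j).1.1
    rw [rep_eq h]
  · intro v
    have h1 : Set.InjOn (fun j => (φ (rep G v) j).2) {j | (φ (rep G v) j).1.1 = v} := by
      intro j hj j' hj' h
      apply hφ (rep G v)
      refine Prod.ext (Subtype.ext ?_) h
      exact (hj : (φ (rep G v) j).1.1 = v).trans (hj' : (φ (rep G v) j').1.1 = v).symm
    show {j | (φ (rep G v) j).1.1 = v}.ncard ≤ p
    rw [← h1.ncard_image]
    refine le_trans (Set.ncard_le_ncard (Set.subset_univ _) (Set.toFinite _)) ?_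
    rw [Set.ncard_univ, Nat.card_fin]

/-- The criterion with connected classes. -/
theorem cov_amal {V J : Type} [Finite V] [Fintype J] {m : ℕ} (G : SimpleGraph V) (hm1 : 1 ≤ m)
    (N : J → V → V → ℕ) (T : J → V → ℕ) (hsym : ∀ j u v, N j u v = N j v u)
    (hoff : ∀ j u v, ¬ G.Adj u v → N j u v = 0)
    (htot : ∀ u v, G.Adj u v → ∑ j, N j u v = m * m)
    (hdeg : ∀ (_ : Fintype V) (j : J) (u : V), ∑ v, N j u v + T j u = m * 2)
    (hpos : ∀ j u v, G.Adj u v → 0 < N j u v)
    (hatt : ∀ j v, ∃ u, G.Reachable v u ∧ 0 < T j u) :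
    Cov (bl G (Fin m)) (Fintype.card J) := by
  have iV : Fintype V := Fintype.ofFinite V
  refine cov_crit G hm1 N hsym hoff htot ?_ ?_
  · intro j u
    have := hdeg iV j u
    omega
  · intro j v
    obtain ⟨u, hu1, hu2⟩ := hatt j v
    refine ⟨u, hu1.mono ?_, ?_⟩
    · intro a b hab
      exact ⟨hab.ne, Or.inl (hpos j a b hab)⟩
    · have := hdeg iV j u
      omega

end Pool.Agent.Q105.LAB
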