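import Pool.Agent.H79.LA.Q105_LAB_Amal

set_option autoImplicit false

/-!
Splitting off one vertex of weight one.
-/

namespace Pool.Agent.Q105.LAB

open Finset SimpleGraph

variable {X J : Type}

/-- The new multiplicities. -/
def nn [DecidableEq X] (n : J → X → X → ℕ) (x x' : X) (z : J → X → ℕ) (j : J) (u v : X) : ℕ :=
  if u = x' then z j v else if v = x' then z j u else
    if u = x then n j x v - z j v else if v = x then n j x u - z j u else n j u v

theorem Amal.split [Fintype X] [DecidableEq X] [Fintype J] {μ : X → X → ℕ} {D : J → X → ℕ}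
    {w : X → ℕ} {n : J → X → X → ℕ} (h : Amal μ D w n) (hμs : ∀ x y, μ x y = μ y x)
    (hμ : ∀ x, μ x x = 0) (hD : ∀ j x, Even (D j x)) {x x' : X}
    (hne : x ≠ x') (hw : 2 ≤ w x) (hw' : w x' = 0) (htw : ∀ y, μ x y = μ x' y)
    (hDx : ∀ j, D j x = 2) (hDx' : ∀ j, D j x' = 2) :
    ∃ n', Amal μ D (Function.update (Function.update w x (w x - 1)) x' 1) n' := by
  classical
  obtain ⟨z, hz1, hz2, hz3, hz4⟩ := exists_z h hw hDx
  have hxx : μ x x = 0 := hμ x
  have hxx' : μ x x' = 0 := by rw [htw]; exact hμ x'
  have hnx' : ∀ j u, n j x' u = 0 := by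
    intro j u
    have h1 := h.tot x' u
    rw [hw', zero_mul, sum_eq_zero_iff] at h1
    exact h1 j (mem_univ _)
  have hnux' : ∀ j u, n j u x' = 0 := fun j u => by rw [h.symm]; exact hnx' j u
  have hnuu : ∀ j u, n j u u = 0 := fun j u => h.off j (hμ u)
  have hzx : ∀ j, z j x = 0 := fun j => Nat.le_zero.1 (by rw [← hnuu j x]; exact hz1 j x)
  have hzx' : ∀ j, z j x' = 0 := fun j => Nat.le_zero.1 (by rw [← hnux' j x]; exact hz1 j x')
  set n' := nn n x x' z with hn'
  have e1 : ∀ j v, n' j x' v = z j v := fun j v => by
    rw [hn']; unfold nn; rw [if_pos rfl]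
  have e2 : ∀ j u, n' j u x' = z j u := fun j u => by
    rw [hn']; unfold nn
    by_cases hu : u = x'
    · rw [if_pos hu, hu]
    · rw [if_neg hu, if_pos rfl]
  have e3 : ∀ j v, v ≠ x' → n' j x v = n j x v - z j v := fun j v hv => by
    rw [hn']; unfold nn
    rw [if_neg hne, if_neg hv, if_pos rfl]
  have e4 : ∀ j u, u ≠ x' → n' j u x = n j x u - z j u := fun j u hu => by
    rw [hn']; unfold nn
    rw [if_neg hu, if_neg hne]
    by_cases hux : u = x
    · rw [if_pos hux, hux]
    · rw [if_neg hux, if_pos rfl]
  have e5 : ∀ j u v, u ≠ x' → v ≠ x' → u ≠ x → v ≠ x → n' j u v = n j u v :=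
    fun j u v h1 h2 h3 h4 => by
      rw [hn']; unfold nn
      rw [if_neg h1, if_neg h2, if_neg h3, if_neg h4]
  set w' := Function.update (Function.update w x (w x - 1)) x' 1 with hw''
  have f1 : w' x' = 1 := by rw [hw'']; simp
  have f2 : w' x = w x - 1 := by
    rw [hw'', Function.update_of_ne hne, Function.update_self]
  have f3 : ∀ u, u ≠ x → u ≠ x' → w' u = w u := fun u h1 h2 => by
    rw [hw'', Function.update_of_ne h2, Function.update_of_ne h1]
  have hsymm : ∀ j u v, n' j u v = n' j v u := by
    intro j u v
    by_cases h1 : u = x'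
    · rw [h1, e1, e2]
    · by_cases h2 : v = x'
      · rw [h2, e1, e2]
      · by_cases h3 : u = x
        · rw [h3, e3 j v h2, e4 j v h2]
        · by_cases h4 : v = x
          · rw [h4, e4 j u h1, e3 j u h1]
          · rw [e5 j u v h1 h2 h3 h4, e5 j v u h2 h1 h4 h3, h.symm]
  have hsub : ∀ v, ∑ j, (n j x v - z j v) = (w x - 1) * (w v * μ x v) := by
    intro v
    rw [sum_tsub_distrib _ (fun j _ => hz1 j v), h.tot x v, hz3 v, Nat.sub_mul, one_mul]
  refine ⟨n', hsymm, ?_, ?_, ?_⟩
  · intro u v
    by_cases h1 : u = x'
    · subst h1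
      rw [sum_congr rfl (fun j _ => e1 j v), hz3 v, f1, one_mul]
      by_cases h6 : v = x
      · rw [h6, hxx, ← htw x, hxx, mul_zero, mul_zero]
      · by_cases h7 : v = u
        · rw [h7, hxx', hμ, mul_zero, mul_zero]
        · rw [f3 v h6 h7, htw v]
    · by_cases h2 : v = x'
      · subst h2
        rw [sum_congr rfl (fun j _ => e2 j u), hz3 u, f1, one_mul, hμs u v, ← htw u]
        by_cases h6 : u = x
        · rw [h6, hxx, mul_zero, mul_zero]
        · rw [f3 u h6 h1]
      · by_cases h3 : u = x
        · subst h3
          rw [sum_congr rfl (fun j _ => e3 j v h2), hsub v, f2]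
          by_cases h6 : v = u
          · rw [h6, hxx]
            simp
          · rw [f3 v h6 h2]
        · by_cases h4 : v = x
          · subst h4
            rw [sum_congr rfl (fun j _ => e4 j u h1), hsub u, f2, f3 u h3 h1, hμs u v]
            ring
          · rw [sum_congr rfl (fun j _ => e5 j u v h1 h2 h3 h4), h.tot u v, f3 u h3 h1,
              f3 v h4 h2]
  · intro j u
    by_cases h1 : u = x'
    · subst h1
      rw [sum_congr rfl (fun v _ => e1 j v), hz2, f1, hDx', one_mul]
    · by_cases h3 : u = x
      · subst h3
        have h4 : ∀ v, n' j u v = n j u v - z j v := by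
          intro v
          by_cases hv : v = x'
          · subst hv
            rw [e2, hzx, hzx', hnux']
          · exact e3 j v hv
        rw [sum_congr rfl (fun v _ => h4 v), sum_tsub_distrib _ (fun v _ => hz1 j v), h.deg, hz2,
          f2, hDx, Nat.sub_mul, one_mul]
      · have h4 : ∀ v, n' j u v + (if v = x then z j u else 0) =
            n j u v + (if v = x' then z j u else 0) := by
          intro v
          by_cases hv : v = x'
          · subst hv
            rw [if_neg hne.symm, if_pos rfl, e2, hnux']
            omega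
          · by_cases hv2 : v = x
            · subst hv2
              rw [if_pos rfl, if_neg hv, e4 j u h1, h.symm j u v]
              have := hz1 j u
              omega
            · rw [if_neg hv, if_neg hv2, e5 j u v h1 hv h3 hv2]
        have h5 := sum_congr rfl (fun v (_ : v ∈ (univ : Finset X)) => h4 v)
        rw [sum_add_distrib, sum_add_distrib, sum_ite_eq' univ x, sum_ite_eq' univ x',
          if_pos (mem_univ _), if_pos (mem_univ _)] at h5
        rw [f3 u h3 h1, ← h.deg j u]
        omega
  · intro j
    have hmono : dg n x j ≤ cg n' j := by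
      rintro a b ⟨h1, h2, h3, h4⟩
      refine ⟨h3, Or.inl ?_⟩
      have h5 : 0 < n j a b := by
        rcases h4 with h | h'
        · exact h
        · rw [h.symm]; exact h'
      have h6 : a ≠ x' := by
        rintro rfl
        rw [hnx'] at h5
        omega
      have h7 : b ≠ x' := by
        rintro rfl
        rw [hnux'] at h5
        omega
      rw [e5 j a b h6 h7 h1 h2]
      exact h5
    have hA : ∀ a, a ≠ x → a ≠ x' → 0 < w a → (cg n' j).Reachable a x := by
      intro a ha ha' hwa
      obtain ⟨y, hy1, hy2⟩ := last_step (h.symm j) (h.conn j a x hwa (by omega)) ha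
      let C : Finset X := univ.filter (fun y => (dg n x j).Reachable a y)
      have hev : Even (∑ y ∈ C, n j x y) := even_comp h hμ hD x a ha j C (fun y => by simp [C])
      have hpos : 0 < ∑ y ∈ C, n j x y := by
        refine lt_of_lt_of_le hy2 (single_le_sum (f := fun y => n j x y)
          (fun _ _ => Nat.zero_le _) (mem_filter.2 ⟨mem_univ _, hy1⟩))
      have hlt : ∑ y ∈ C, z j y < ∑ y ∈ C, n j x y := by
        have h5 : ∑ y ∈ C, z j y ≤ 2 := by
          rw [← hz2 j]
          exact sum_le_sum_of_subset (subset_univ _)
        by_cases h6 : ∑ y ∈ C, n j x y = 2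
        · have := hz4 j a C (fun y => by simp [C]) h6
          omega
        · obtain ⟨r, hr⟩ := hev
          omega
      obtain ⟨y', hy', hlt'⟩ := exists_lt_of_sum_lt hlt
      have h7 : (dg n x j).Reachable a y' := (mem_filter.1 hy').2
      have h8 : y' ≠ x := dg_reach_ne h7 ha
      have h9 : y' ≠ x' := by
        rintro rfl
        rw [hnux'] at hlt'
        omega
      refine (h7.mono hmono).trans (Adj.reachable ⟨h8, Or.inl ?_⟩)
      rw [e4 j y' h9]
      omega
    have hxt : ∃ y, 0 < z j y := by
      by_contra hcon
      push Not at hcon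
      have h5 := hz2 j
      rw [sum_eq_zero (fun y _ => Nat.le_zero.1 (hcon y))] at h5
      omega
    obtain ⟨y0, hy0⟩ := hxt
    have hny0 : 0 < n j x y0 := lt_of_lt_of_le hy0 (hz1 j y0)
    have hwy0 : 0 < w y0 := by
      have h5 : n j x y0 ≤ ∑ j, n j x y0 := single_le_sum (f := fun j => n j x y0)
        (fun _ _ => Nat.zero_le _) (mem_univ j)
      rw [h.tot x y0] at h5
      rcases Nat.eq_zero_or_pos (w y0) with h6 | h6
      · rw [h6, zero_mul, mul_zero] at h5
        omega
      · exact h6
    have hy0x : y0 ≠ x := by
      rintro rfl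
      rw [hzx] at hy0
      omega
    have hy0x' : y0 ≠ x' := by
      rintro rfl
      rw [hzx'] at hy0
      omega
    have hB : (cg n' j).Reachable x' x := by
      have h5 : (cg n' j).Adj x' y0 := ⟨hy0x'.symm, Or.inl (by rw [e1]; exact hy0)⟩
      exact h5.reachable.trans (hA y0 hy0x hy0x' hwy0)
    have hall : ∀ u, 0 < w' u → (cg n' j).Reachable u x := by
      intro u hu
      by_cases h1 : u = x
      · rw [h1]
      · by_cases h2 : u = x'
        · rw [h2]; exact hB
        · exact hA u h1 h2 (by rw [← f3 u h1 h2]; exact hu)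
    intro u v hu hv
    exact (hall u hu).trans (hall v hv).symm

/-- Splitting all vertices. -/
theorem detach [Fintype X] [DecidableEq X] [Fintype J] {U : Type} [DecidableEq U]
    {μ : X → X → ℕ} {D : J → X → ℕ} (hμs : ∀ x y, μ x y = μ y x)
    (hμ : ∀ x, μ x x = 0) (hD : ∀ j x, Even (D j x)) (π : X → U)
    (htw : ∀ x x' y, π x = π x' → μ x y = μ x' y)
    (hD2 : ∀ j x x', x ≠ x' → π x = π x' → D j x = 2) :
    ∀ (c : ℕ) (w : X → ℕ) (n : J → X → X → ℕ), (univ.filter (fun x => w x = 0)).card = c →
      (∀ u, ∑ x ∈ univ.filter (fun x => π x = u), w x = (univ.filter (fun x => π x = u)).card) →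
      Amal μ D w n → ∃ n', Amal μ D (fun _ => 1) n' := by
  classical
  intro c
  induction c with
  | zero =>
    intro w n hc hs h
    have h0 : ∀ x, 1 ≤ w x := by
      intro x
      by_contra hx
      have h1 : x ∈ univ.filter (fun x => w x = 0) := mem_filter.2 ⟨mem_univ _, by omega⟩
      rw [card_eq_zero.1 hc] at h1
      exact notMem_empty _ h1
    have h1 : w = fun _ => 1 := by
      funext x
      have h2 := hs (π x)
      rw [card_eq_sum_ones] at h2
      exact ((sum_eq_sum_iff_of_le (fun y _ => h0 y)).1 h2.symm x
        (mem_filter.2 ⟨mem_univ _, rfl⟩)).symm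
    exact ⟨n, h1 ▸ h⟩
  | succ c ih =>
    intro w n hc hs h
    obtain ⟨x', hx'⟩ := card_pos.1 (by rw [hc]; omega : 0 < (univ.filter (fun x => w x = 0)).card)
    have hw' : w x' = 0 := (mem_filter.1 hx').2
    have hex : ∃ x ∈ univ.filter (fun x => π x = π x'), 2 ≤ w x := by
      by_contra hcon
      push Not at hcon
      have h1 : ∑ x ∈ univ.filter (fun x => π x = π x'), w x <
          ∑ x ∈ univ.filter (fun x => π x = π x'), 1 := by
        refine sum_lt_sum (fun x hx => by have := hcon x hx; omega)
          ⟨x', mem_filter.2 ⟨mem_univ _, rfl⟩, by omega⟩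
      rw [hs, card_eq_sum_ones] at h1
      exact lt_irrefl _ h1
    obtain ⟨x, hx, hw⟩ := hex
    have hπ : π x = π x' := (mem_filter.1 hx).2
    have hne : x ≠ x' := by
      rintro rfl
      omega
    obtain ⟨n', hn'⟩ := h.split hμs hμ hD hne hw hw' (fun y => htw x x' y hπ)
      (fun j => hD2 j x x' hne hπ) (fun j => hD2 j x' x hne.symm hπ.symm)
    refine ih _ n' ?_ ?_ hn'
    · have h1 : univ.filter (fun y => (Function.update (Function.update w x (w x - 1)) x' 1) y = 0)
          = (univ.filter (fun x => w x = 0)).erase x' := by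
        ext y
        simp only [mem_filter, mem_univ, true_and, mem_erase]
        by_cases h2 : y = x'
        · subst h2
          simp
        · by_cases h3 : y = x
          · subst h3
            rw [Function.update_of_ne h2, Function.update_self]
            constructor
            · intro h; omega
            · intro h; omega
          · rw [Function.update_of_ne h2, Function.update_of_ne h3]
            exact ⟨fun h => ⟨h2, h⟩, fun h => h.2⟩
      rw [h1, card_erase_of_mem hx', hc]
      omega
    · intro u
      rw [← hs u]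
      by_cases hu : π x' = u
      · subst hu
        have hx1 : x ∈ univ.filter (fun x => π x = π x') := hx
        have hx2 : x' ∈ (univ.filter (fun x => π x = π x')).erase x :=
          mem_erase.2 ⟨hne.symm, mem_filter.2 ⟨mem_univ _, rfl⟩⟩
        rw [← add_sum_erase _ _ hx1, ← add_sum_erase _ _ hx2, ← add_sum_erase _ w hx1,
          ← add_sum_erase _ w hx2]
        rw [Function.update_of_ne hne, Function.update_self, Function.update_self, hw']
        have h4 : ∑ y ∈ ((univ.filter (fun x => π x = π x')).erase x).erase x',
            (Function.update (Function.update w x (w x - 1)) x' 1) y =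
            ∑ y ∈ ((univ.filter (fun x => π x = π x')).erase x).erase x', w y := by
          refine sum_congr rfl fun y hy => ?_
          obtain ⟨h5, h6⟩ := mem_erase.1 hy
          obtain ⟨h7, _⟩ := mem_erase.1 h6
          rw [Function.update_of_ne h5, Function.update_of_ne h7]
        rw [h4]
        omega
      · refine sum_congr rfl fun y hy => ?_
        have h5 : π y = u := (mem_filter.1 hy).2
        have h6 : y ≠ x' := by
          rintro rfl
          exact hu h5
        have h7 : y ≠ x := by
          rintro rfl
          exact hu (hπ.symm.trans h5)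
        rw [Function.update_of_ne h6, Function.update_of_ne h7]

end Pool.Agent.Q105.LAB
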