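import Pool.Agent.H79.LA.Q105_LAB_OddTop
import Pool.Agent.H79.LA.Q105_LAB_Load2
import Pool.Agent.H79.LA.TH525_LAD_Reg
import Pool.Agent.H79.LA.TH525_FRG_Hom
import Pool.Agent.H79.LA.W111_LAR_Top

set_option autoImplicit false

/-!
Top: converse of the criterion, transfer to homomorphisms with small fibres, final bounds.
-/

namespace Pool.Agent.Q105.LAB

open Finset SimpleGraph H931R3.LA Pool.Agent.W111.LAR Pool.Agent.TH525.FRG

/-- Colourings of the multigraph `m² G` in which every union of components of a colour class has a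
vertex of degree less than `2 m`. -/
def Good {V : Type} [Fintype V] (G : SimpleGraph V) [DecidableRel G.Adj] (m K : ℕ)
    (N : Fin K → V → V → ℕ) : Prop :=
  (∀ j u v, N j u v = N j v u) ∧
  (∀ u v, ∑ j, N j u v = if G.Adj u v then m ^ 2 else 0) ∧
  (∀ j u, ∑ v, N j u v ≤ 2 * m) ∧
  ∀ (j : Fin K) (C : Set V), C.Nonempty → (∀ u ∈ C, ∀ v, 0 < N j u v → v ∈ C) →
    ∃ u ∈ C, ∑ v, N j u v < 2 * m

theorem cov_of_good {V : Type} [Fintype V] (G : SimpleGraph V) [DecidableRel G.Adj] {m K : ℕ}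
    (hm1 : 1 ≤ m) {N : Fin K → V → V → ℕ} (h : Good G m K N) : Cov (bl G (Fin m)) K := by
  obtain ⟨h1, h2, h3, h4⟩ := h
  have h5 := cov_crit G hm1 N h1 (by
    intro j u v huv
    have h := h2 u v
    rw [if_neg huv, sum_eq_zero_iff] at h
    exact h j (mem_univ _)) (by
    intro u v huv
    rw [h2, if_pos huv, sq]) h3 (by
    intro j v
    obtain ⟨u, hu1, hu2⟩ := h4 j {u | (cg N j).Reachable v u} ⟨v, Reachable.refl _⟩ (by
      intro u hu w hw
      have hne : u ≠ w := by
        rintro rfl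
        have h := h2 u u
        rw [if_neg (G.loopless.irrefl u), sum_eq_zero_iff] at h
        have := h j (mem_univ _)
        omega
      exact Reachable.trans hu (Adj.reachable ⟨hne, Or.inl hw⟩))
    exact ⟨u, hu1, hu2⟩)
  rw [Fintype.card_fin] at h5
  exact h5

theorem good_of_cov {V : Type} [Fintype V] (G : SimpleGraph V) [DecidableRel G.Adj] {m K : ℕ}
    (hm1 : 1 ≤ m) (h : Cov (bl G (Fin m)) K) : ∃ N, Good G m K N := by
  classical
  obtain ⟨c, hc1, hc2⟩ := exists_col h
  let P := bl G (Fin m)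
  let F : ℕ → SimpleGraph (V × Fin m) := fun i => cls P c i
  have hF : ∀ i, IsLF (F i) := hc2
  let N : Fin K → V → V → ℕ := fun j u v =>
    ∑ a : Fin m, ∑ b : Fin m, (if (F j).Adj (u, a) (v, b) then 1 else 0)
  have hsym : ∀ j u v, N j u v = N j v u := by
    intro j u v
    show ∑ a : Fin m, ∑ b : Fin m, (if (F j).Adj (u, a) (v, b) then 1 else 0) =
      ∑ a : Fin m, ∑ b : Fin m, (if (F j).Adj (v, a) (u, b) then 1 else 0)
    rw [sum_comm]
    exact sum_congr rfl fun a _ => sum_congr rfl fun b _ => if_congr ((F j).adj_comm _ _) rfl rfl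
  have hdeg : ∀ j u, ∑ v, N j u v = ∑ a : Fin m, ((F j).neighborSet (u, a)).ncard := by
    intro j u
    show ∑ v, ∑ a : Fin m, ∑ b : Fin m, (if (F j).Adj (u, a) (v, b) then 1 else 0) = _
    rw [sum_comm]
    refine sum_congr rfl fun a _ => ?_
    have h1 := sum_adj (F j) (u, a)
    rw [Fintype.sum_prod_type] at h1
    exact h1
  refine ⟨N, hsym, ?_, ?_, ?_⟩
  · intro u v
    show ∑ j : Fin K, ∑ a : Fin m, ∑ b : Fin m, (if (F j).Adj (u, a) (v, b) then 1 else 0) = _
    by_cases huv : G.Adj u v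
    · rw [if_pos huv, sum_comm]
      have h1 : ∀ a b : Fin m, ∑ j : Fin K, (if (F j).Adj (u, a) (v, b) then 1 else 0) = 1 := by
        intro a b
        have hP : P.Adj (u, a) (v, b) := huv
        have h2 := hc1 (u, a) (v, b) hP
        rw [sum_eq_single ⟨c s((u, a), (v, b)), h2⟩]
        · exact if_pos ⟨hP, rfl⟩
        · intro j _ hj
          refine if_neg fun h => hj ?_
          exact Fin.ext h.2.symm
        · intro h
          exact absurd (mem_univ _) h
      have h2 : ∀ a : Fin m, ∑ j : Fin K, ∑ b : Fin m,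
          (if (F j).Adj (u, a) (v, b) then 1 else 0) = m := by
        intro a
        rw [sum_comm, sum_congr rfl (fun b _ => h1 a b), sum_const, card_univ, Fintype.card_fin,
          smul_eq_mul, mul_one]
      rw [sum_congr rfl (fun a _ => h2 a), sum_const, card_univ, Fintype.card_fin, smul_eq_mul, sq]
    · rw [if_neg huv]
      refine sum_eq_zero fun j _ => sum_eq_zero fun a _ => sum_eq_zero fun b _ => ?_
      exact if_neg fun h => huv h.1
  · intro j u
    rw [hdeg]
    refine le_trans (sum_le_sum fun a _ => (hF j).2 (u, a)) ?_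
    rw [sum_const, card_univ, Fintype.card_fin, smul_eq_mul, mul_comm]
  · intro j C ⟨v, hv⟩ hC
    by_contra hcon
    push Not at hcon
    have h2 : ∀ u ∈ C, ∀ a, ((F j).neighborSet (u, a)).ncard = 2 := by
      intro u hu a
      have h3 := hcon u hu
      rw [hdeg] at h3
      have h4 : ∑ a : Fin m, ((F j).neighborSet (u, a)).ncard ≤ ∑ _a : Fin m, 2 :=
        sum_le_sum fun a _ => (hF j).2 (u, a)
      have h5 : ∑ _a : Fin m, 2 = 2 * m := by
        rw [sum_const, card_univ, Fintype.card_fin, smul_eq_mul, mul_comm]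
      exact (sum_eq_sum_iff_of_le (fun a _ => (hF j).2 (u, a))).1 (by omega) a (mem_univ a)
    have hcl : ∀ {x y : V × Fin m} (_ : (F j).Walk x y), x.1 ∈ C → y.1 ∈ C := by
      intro x y p
      induction p with
      | nil => exact id
      | @cons x y z hxy p ih =>
        intro hx
        apply ih
        refine hC x.1 hx y.1 ?_
        show 0 < ∑ a : Fin m, ∑ b : Fin m, (if (F j).Adj (x.1, a) (y.1, b) then 1 else 0)
        have h6 : (if (F j).Adj (x.1, x.2) (y.1, y.2) then 1 else 0) = 1 := if_pos hxy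
        have h7 : 1 ≤ ∑ b : Fin m, (if (F j).Adj (x.1, x.2) (y.1, b) then 1 else 0) := by
          refine le_trans h6.ge ?_
          exact single_le_sum (f := fun b : Fin m => if (F j).Adj (x.1, x.2) (y.1, b) then 1 else 0)
            (fun _ _ => Nat.zero_le _) (mem_univ y.2)
        exact lt_of_lt_of_le Nat.zero_lt_one (le_trans h7 (single_le_sum
          (f := fun a : Fin m => ∑ b : Fin m, if (F j).Adj (x.1, a) (y.1, b) then 1 else 0)
          (fun _ _ => Nat.zero_le _) (mem_univ x.2)))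
    have hcyc : Cyc (F j) (v, ⟨0, hm1⟩) := by
      rintro w ⟨p⟩
      exact h2 w.1 (hcl p hv) w.2
    obtain ⟨w, cc, hcc, _⟩ := exists_cycle hcyc
    exact (hF j).1 cc hcc

/-- Numbering of the fibres. -/
theorem exists_idx {V X : Type} [Finite X] (f : X → V) (m : ℕ)
    (hf : ∀ v, (f ⁻¹' {v}).ncard ≤ m) : ∃ h : X → Fin m, ∀ x y, f x = f y → h x = h y → x = y := by
  classical
  have hex : ∀ v, ∃ g : (f ⁻¹' {v} : Set X) → Fin m, Function.Injective g := by
    intro v
    have : Fintype (f ⁻¹' {v} : Set X) := Fintype.ofFinite _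
    have h1 : Fintype.card (f ⁻¹' {v} : Set X) ≤ Fintype.card (Fin m) := by
      rw [Fintype.card_fin, ← Nat.card_eq_fintype_card, Nat.card_coe_set_eq]
      exact hf v
    obtain ⟨g⟩ := Function.Embedding.nonempty_of_card_le h1
    exact ⟨g, g.injective⟩
  choose g hg using hex
  refine ⟨fun x => g (f x) ⟨x, rfl⟩, ?_⟩
  have key : ∀ (v : V) (x y : X) (hx : x ∈ f ⁻¹' {v}) (hy : y ∈ f ⁻¹' {v}),
      g v ⟨x, hx⟩ = g v ⟨y, hy⟩ → x = y := fun v x y hx hy h =>
    congrArg Subtype.val (hg v h)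
  intro x y hxy h
  have h2 : ∀ (v : V) (hv : v = f y) (hyv : y ∈ f ⁻¹' {v}), g v ⟨y, hyv⟩ = g (f y) ⟨y, rfl⟩ := by
    rintro v rfl hyv
    rfl
  exact key (f x) x y rfl hxy.symm (h.trans (h2 (f x) hxy hxy.symm).symm)

/-- Graphs with a homomorphism with fibres of at most `m` elements. -/
theorem cov_fibres {V X W : Type} [Finite V] [Finite X] [Finite W] {G : SimpleGraph V}
    {P : SimpleGraph X} {H : SimpleGraph W} (e : G ↪g H) (f : X → V) {m K : ℕ}
    (hom : ∀ x y, P.Adj x y → G.Adj (f x) (f y)) (hf : ∀ v, (f ⁻¹' {v}).ncard ≤ m)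
    (h : Cov (bl H (Fin m)) K) : Cov P K := by
  obtain ⟨g, hg⟩ := exists_idx f m hf
  refine cov_hom P (bl H (Fin m)) (fun x => (e (f x), g x)) ?_ ?_ K h
  · intro x y hxy
    exact e.map_rel_iff.2 (hom x y hxy)
  · intro x y z _ _ hyz
    have h1 := Prod.mk.inj hyz
    exact hg y z (e.injective h1.1) h1.2

theorem bound_even {V X : Type} [Finite V] [Finite X] (G : SimpleGraph V) (P : SimpleGraph X)
    (f : X → V) (k m B : ℕ) (hm : 2 ≤ m) (hB : k ≤ 2 * m * B)
    (hG : ∀ v, (G.neighborSet v).ncard ≤ 2 * k) (hom : ∀ x y, P.Adj x y → G.Adj (f x) (f y))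
    (hf : ∀ v, (f ⁻¹' {v}).ncard ≤ m) : Cov P (m * k + B) := by
  obtain ⟨W, hW, H, hH, ⟨e⟩⟩ := Pool.Agent.TH525.LAD.exists_regular (2 * k) (2 * k) V G hG
    (fun v => by omega)
  exact cov_fibres e f hom hf (cov_even H k m B hm hB hH)

theorem bound_any {V X : Type} [Finite V] [Finite X] (G : SimpleGraph V) (P : SimpleGraph X)
    (f : X → V) (r M B : ℕ) (hM : 1 ≤ M) (hB : r ≤ 2 * (2 * M) * B)
    (hG : ∀ v, (G.neighborSet v).ncard ≤ r) (hom : ∀ x y, P.Adj x y → G.Adj (f x) (f y))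
    (hf : ∀ v, (f ⁻¹' {v}).ncard ≤ 2 * M) : Cov P (r * M + B) := by
  obtain ⟨W, hW, H, hH, ⟨e⟩⟩ := Pool.Agent.TH525.LAD.exists_regular r r V G hG
    (fun v => by omega)
  exact cov_fibres e f hom hf (cov_any_even H r M B hM hB hH)

theorem bound_odd {V X : Type} [Finite V] [Finite X] (G : SimpleGraph V) (P : SimpleGraph X)
    (f : X → V) (ρ p : ℕ) (hρ : ρ ≤ p)
    (hG : ∀ v, (G.neighborSet v).ncard ≤ 2 * ρ + 1) (hom : ∀ x y, P.Adj x y → G.Adj (f x) (f y))
    (hf : ∀ v, (f ⁻¹' {v}).ncard ≤ 2 * p + 1) : Cov P (2 * ρ * p + ρ + p + 1) := by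
  obtain ⟨W, hW, H, hH, ⟨e⟩⟩ := Pool.Agent.TH525.LAD.exists_regular (2 * ρ + 1) (2 * ρ + 1) V G hG
    (fun v => by omega)
  exact cov_fibres e f hom hf (cov_odd_odd H ρ p hρ hH)

/-- Degrees of blow-ups. -/
theorem blow_deg {V X : Type} [Finite V] [Finite X] {G : SimpleGraph V} {P : SimpleGraph X}
    {f : X → V} {r m : ℕ} (hP : ∀ x y, P.Adj x y ↔ G.Adj (f x) (f y))
    (hf : ∀ v, (f ⁻¹' {v}).ncard = m) (hG : ∀ v, (G.neighborSet v).ncard = r) (x : X) :
    (P.neighborSet x).ncard = r * m := by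
  classical
  have := Fintype.ofFinite V
  have := Fintype.ofFinite X
  have h1 : P.neighborSet x = ((univ.filter (fun y => G.Adj (f x) (f y)) : Finset X) : Set X) := by
    ext y
    simp [hP]
  have h2 : (univ.filter (fun v => G.Adj (f x) v)).card = r := by
    rw [← hG (f x), ← Set.ncard_coe_finset]
    congr 1
    ext v
    simp
  rw [h1, Set.ncard_coe_finset, card_eq_sum_card_fiberwise (f := f)
    (t := univ.filter (fun v => G.Adj (f x) v)), ← h2, ← smul_eq_mul, ← sum_const]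
  · refine sum_congr rfl fun v hv => ?_
    rw [← hf v, ← Set.ncard_coe_finset]
    congr 1
    ext y
    have hv' := (mem_filter.1 hv).2
    simp only [mem_coe, mem_filter, mem_univ, true_and, Set.mem_preimage, Set.mem_singleton_iff]
    constructor
    · rintro ⟨_, h⟩
      exact h
    · intro h
      exact ⟨h ▸ hv', h⟩
  · intro y hy
    exact mem_coe.2 (mem_filter.2 ⟨mem_univ _, (mem_filter.1 (mem_coe.1 hy)).2⟩)

/-- The bound `⌈(rm+1)/2⌉`. -/
theorem bound_lac {V X : Type} [Finite V] [Finite X] (G : SimpleGraph V) (P : SimpleGraph X)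
    (f : X → V) (r m : ℕ) (hr : 1 ≤ r)
    (hrm : (Even r ∧ 2 ≤ m ∧ r ≤ 4 * m) ∨ (Even m ∧ r ≤ 2 * m) ∨ r ≤ m)
    (hG : ∀ v, (G.neighborSet v).ncard ≤ r) (hom : ∀ x y, P.Adj x y → G.Adj (f x) (f y))
    (hf : ∀ v, (f ⁻¹' {v}).ncard ≤ m) : Cov P ((r * m + 2) / 2) := by
  have hE : Even r → 2 ≤ m → r ≤ 4 * m → Cov P ((r * m + 2) / 2) := by
    rintro ⟨k, rfl⟩ hm h
    have h1 := bound_even G P f k m 1 hm (by omega) (fun v => by have := hG v; omega) hom hf
    have h2 : ((k + k) * m + 2) / 2 = m * k + 1 := by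
      have : (k + k) * m + 2 = 2 * (m * k + 1) := by ring
      rw [this, Nat.mul_div_cancel_left _ (by norm_num)]
    rw [h2]
    exact h1
  have hM : Even m → r ≤ 2 * m → Cov P ((r * m + 2) / 2) := by
    rintro ⟨M, rfl⟩ h
    have h1 := bound_any G P f r M 1 (by omega) (by omega) hG hom
      (fun v => by have := hf v; omega)
    have h2 : (r * (M + M) + 2) / 2 = r * M + 1 := by
      have : r * (M + M) + 2 = 2 * (r * M + 1) := by ring
      rw [this, Nat.mul_div_cancel_left _ (by norm_num)]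
    rw [h2]
    exact h1
  rcases hrm with ⟨h1, h2, h3⟩ | ⟨h1, h2⟩ | h
  · exact hE h1 h2 h3
  · exact hM h1 h2
  · rcases Nat.even_or_odd r with h1 | ⟨ρ, h1⟩
    · refine hE h1 ?_ (by omega)
      obtain ⟨k, hk⟩ := h1
      omega
    · rcases Nat.even_or_odd m with h2 | ⟨p, h2⟩
      · exact hM h2 (by omega)
      · subst h1 h2
        have h3 := bound_odd G P f ρ p (by omega) hG hom hf
        have h4 : ((2 * ρ + 1) * (2 * p + 1) + 2) / 2 = 2 * ρ * p + ρ + p + 1 := by
          have : (2 * ρ + 1) * (2 * p + 1) + 2 = 1 + 2 * (2 * ρ * p + ρ + p + 1) := by ring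
          rw [this, Nat.add_mul_div_left _ _ (by norm_num)]
          norm_num
        rw [h4]
        exact h3

end Pool.Agent.Q105.LAB
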