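import Pool.Agent.H79.LA.Q105_LAB_Split
import Pool.Agent.H79.LA.W111_LAR_Top

set_option autoImplicit false

/-!
Project LAT of helper105, row MP_0a041d_co (linear arboricity conjecture, hard).

Target (`Target` below): let `P` be a finite graph with all degrees at most `D`.  Two vertices are
twins if every other vertex is adjacent to both or to none of them (open or closed twins), `t x` is the
number of twins of `x` (with `x`).  An edge `x y` is heavy if `x`, `y` are twins or `t x * t y > D`.
If the two ends of every edge are joined by a path of heavy edges (for instance if `t x ^ 2 > D` for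
all `x`), then `P` is the union of `(D + 2) / 2 = ⌈(D + 1) / 2⌉` linear forests.

Method: amalgamate every twin class to one vertex with loops, decompose the resulting multigraph,
detach again.  The files `Pool/Agent/Q105/LAB/*` do this for classes of equal size `m` without loops;
here the classes have arbitrary sizes, and loops are allowed.
-/

namespace Pool.Agent.Q105.LAT

open Finset SimpleGraph H931R3.LA Pool.Agent.Q105.LAB

/-- An amalgamated decomposition of the graph with adjacency `μ`: the vertex `x` stands for `w x`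
twins, `n j x y` (`x ≠ y`) is the number of edges of colour `j` between `x` and `y`, and `n j x x` is
TWICE the number of loops of colour `j` at `x`.  All colour classes are connected. -/
structure AmalL {X J : Type} [Fintype X] [Fintype J] (μ : X → X → ℕ) (D : J → X → ℕ) (w : X → ℕ)
    (n : J → X → X → ℕ) : Prop where
  symm : ∀ j x y, n j x y = n j y x
  evn : ∀ j x, Even (n j x x)
  tot : ∀ x y, x ≠ y → ∑ j, n j x y = w x * (w y * μ x y)
  totd : ∀ x, ∑ j, n j x x = w x * ((w x - 1) * μ x x)
  deg : ∀ j x, ∑ y, n j x y = w x * D j x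
  conn : ∀ j x y, 0 < w x → 0 < w y → (cg n j).Reachable x y

/-- The graph on the copies of the vertices of `V`, `s v` copies of `v`: different copies of `u`, `v`
(`u = v` allowed) are adjacent iff `A u v`. -/
def blw {V : Type} (A : V → V → Prop) (s : V → ℕ) : SimpleGraph (Σ v, Fin (s v)) :=
  SimpleGraph.fromRel (fun x y => A x.1 y.1)

open Classical in
/-- The number of edges of `blw A s` between the classes `u` and `v`; twice this number if
`u = v`. -/
noncomputable def ee {V : Type} (A : V → V → Prop) (s : V → ℕ) (u v : V) : ℕ :=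
  if A u v then (if u = v then s u * (s u - 1) else s u * s v) else 0

/-- The graph of the heavy pairs. -/
def hv {V : Type} (A : V → V → Prop) (s : V → ℕ) (D : ℕ) : SimpleGraph V :=
  SimpleGraph.fromRel (fun u v => A u v ∧ D < s u * s v)

/-- JOB LAT1.  The choice of the edges which move to the new vertex.  This is
`Pool.Agent.Q105.LAB.exists_z` (file `Q105/LAB/Amal.lean`) with loops; copy its proof and change the
following.  `z j x` is the number of the loops of colour `j` at `x` one end of which moves.
Tokens `S = Tok n x` and `pick` are used as before, with `b y = w y * μ x y` for `y ≠ x` and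
`b x = (w x - 1) * μ x x` (the number of tokens with end `x` is `w x * b x` by `totd`).  The map `q`:
for a token `s` with `s.2.1 ≠ x` as before (tokens in the same component of `dg n x j` form a pair if
the component has exactly two tokens); for `s.2.1 = x` let `q s = (s.1, {s' | s'.1 = s.1 ∧ s'.2.1 = x ∧
(s'.2.2 : ℕ) / 2 = (s.2.2 : ℕ) / 2})`, a set of at most two tokens (the two ends of one loop).  A
token `s` always belongs to the set `(q s).2`, so at most two tokens have the same value of `q`.
`2 * z j x ≤ n j x x`: the chosen tokens `⟨j, x, i⟩` have different values of `i / 2 < n j x x / 2`,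
because `q` is injective on the chosen set, and `n j x x` is even.  (`x` is isolated in `dg n x j`, so
the two kinds of tokens do not interfere; in the last assertion `a ≠ x`, hence `x ∉ C` by
`dg_reach_ne`.) -/
def S_Z : Prop :=
  ∀ (X J : Type) [Fintype X] [Fintype J] (μ : X → X → ℕ) (D : J → X → ℕ) (w : X → ℕ)
    (n : J → X → X → ℕ), AmalL μ D w n → ∀ x : X, 2 ≤ w x → (∀ j, D j x = 2) →
    ∃ z : J → X → ℕ, (∀ j y, z j y ≤ n j x y) ∧ (∀ j, 2 * z j x ≤ n j x x) ∧
      (∀ j, ∑ y, z j y = 2) ∧ (∀ y, y ≠ x → ∑ j, z j y = w y * μ x y) ∧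
      ∑ j, z j x = (w x - 1) * μ x x ∧
      ∀ (j : J) (a : X) (C : Finset X), a ≠ x → (∀ y, y ∈ C ↔ (dg n x j).Reachable a y) →
        ∑ y ∈ C, n j x y = 2 → ∑ y ∈ C, z j y ≤ 1

/-- JOB LAT2.  Splitting off one vertex.  This is `Pool.Agent.Q105.LAB.Amal.split` (file
`Q105/LAB/Split.lean`) with loops; copy its proof.  New multiplicities, for `z` of `S_Z`:
`n' j x' v = n' j v x' = z j v` for `v ≠ x'` and `n' j x' x' = 0` (note `n j x x' = 0` as `w x' = 0`, so
`z j x' = 0`); `n' j x x = n j x x - 2 * z j x`; `n' j x v = n' j v x = n j x v - z j v` for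
`v ≠ x, x'`; `n' j u v = n j u v` otherwise.  Totals: between `x` and `x'`:
`∑ j, z j x = (w x - 1) * μ x x` and `μ x x = μ x' x = μ x x' = μ x' x'`; loops at `x`:
`w x (w x - 1) μ x x - 2 (w x - 1) μ x x = (w x - 1) (w x - 2) μ x x`.  Degree of `x`:
`(n j x x - 2 z j x) + z j x + ∑_{v ≠ x, x'} (n j x v - z j v) = 2 w x - 2`.  Connectivity: the number
of edges of colour `j` from `x` to a component of `dg n x j` (not containing `x`) is even, as in
`even_comp` (the diagonal entries are even now, instead of zero); so, if it is positive, at least one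
such edge stays at `x`; the new vertex `x'` is adjacent to `x` if `z j x > 0` and otherwise to some
`y ≠ x, x'` with `z j y > 0`, `w y > 0`. -/
def S_Split : Prop :=
  ∀ (X J : Type) [Fintype X] [DecidableEq X] [Fintype J] (μ : X → X → ℕ) (D : J → X → ℕ)
    (w : X → ℕ) (n : J → X → X → ℕ), AmalL μ D w n → (∀ x y, μ x y = μ y x) →
    (∀ j x, Even (D j x)) → ∀ x x' : X, x ≠ x' → 2 ≤ w x → w x' = 0 → (∀ y, μ x y = μ x' y) →
    (∀ j, D j x = 2) → (∀ j, D j x' = 2) →
    ∃ n', AmalL μ D (Function.update (Function.update w x (w x - 1)) x' 1) n'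

/-- JOB LAT3.  Splitting all vertices.  This is `Pool.Agent.Q105.LAB.detach` (end of
`Q105/LAB/Split.lean`) with loops; the same proof (induction on the number of vertices of weight
zero, `S_Split` in the step). -/
def S_Det : Prop :=
  ∀ (X J U : Type) [Fintype X] [DecidableEq X] [Fintype J] [DecidableEq U] (μ : X → X → ℕ)
    (D : J → X → ℕ), (∀ x y, μ x y = μ y x) → (∀ j x, Even (D j x)) → ∀ π : X → U,
    (∀ x x' y, π x = π x' → μ x y = μ x' y) →
    (∀ j x x', x ≠ x' → π x = π x' → D j x = 2) →
    ∀ (w : X → ℕ) (n : J → X → X → ℕ),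
      (∀ u, ∑ x ∈ univ.filter (fun x => π x = u), w x = (univ.filter (fun x => π x = u)).card) →
      AmalL μ D w n → ∃ n', AmalL μ D (fun _ => 1) n'

/-- JOB LAT4.  The criterion.  This is `Pool.Agent.Q105.LAB.cov_crit` (file `Q105/LAB/Crit.lean`)
with classes of different sizes `s v ≥ 1` and loops; copy its proof with `Σ v, Fin (s v)` instead of
`V × Fin m` (the base copy of `v` is `⟨v, ⟨0, _⟩⟩`) and `S_Det` instead of `detach`.  Additional vertex
`none` of weight one, joined to the class `v` by `T j v = 2 * s v - ∑ u, N j v u` edges of colour `j`;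
`∑ j, T j v = s v * β v` with `β v = 2 * card J - (∑ u ≠ v, A v u, of s u) - (if A v v then s v - 1)`, since
`∑ u, ee A s v u = s v * (...)`.  `μ (some x) (some y) = if A x.1 y.1 then 1 else 0`, also for `x = y`;
`μ none none = 0`.  The degree of `none` in colour `j` is `∑ v, T j v`, even because
`∑ v, ∑ u, N j v u` is even (symmetric with even diagonal).  After detaching, `n' j x x = 0` (by
`totd`) and `∑ j, n' j (some x) (some y) = [A x.1 y.1]` for `x ≠ y`; every colour class is connected and
contains `none`, all other vertices have degree two in it, so without `none` it is a linear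
forest. -/
def S_Crit : Prop :=
  ∀ (V J : Type) [Fintype V] [Fintype J] (A : V → V → Prop) (s : V → ℕ) (N : J → V → V → ℕ),
    (∀ u v, A u v → A v u) → (∀ v, 1 ≤ s v) → (∀ j u v, N j u v = N j v u) →
    (∀ j u, Even (N j u u)) → (∀ u v, ∑ j, N j u v = ee A s u v) →
    (∀ j u, ∑ v, N j u v ≤ 2 * s u) →
    (∀ j v, ∃ u, (cg N j).Reachable v u ∧ ∑ w, N j u w < 2 * s u) →
    Cov (blw A s) (Fintype.card J)

/-- JOB LAT5.  Nearly balanced orientation of a multigraph.  Put `e u v / 2` edges in each direction;
the pairs with `e u v` odd (then `u ≠ v`) form a simple graph `H`, and it remains to orient `H` such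
that the out-degree and the in-degree of every vertex differ by at most one.  For this join the
vertices of odd degree of `H` to a new vertex, add loops until all degrees are equal to some `2 k` and
apply `Pool.Agent.W111.LAR.orient` (file `W111/LAR/Dec.lean`); or induct over the edges. -/
def S_Or : Prop :=
  ∀ (V : Type) [Fintype V] (e : V → V → ℕ), (∀ u v, e u v = e v u) → (∀ u, Even (e u u)) →
    ∃ a : V → V → ℕ, (∀ u v, a u v + a v u = e u v) ∧ (∀ u v, a u v ≤ a v u + 1) ∧
      (∀ u, ∑ v, a u v ≤ ∑ v, a v u + 1) ∧ ∀ u, ∑ v, a v u ≤ ∑ v, a u v + 1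

/-- JOB LAT6.  Integer decomposition of transportation matrices.  Proof: let `W` be the disjoint
union of `Σ r, Fin (p r)` and `Σ c, Fin (q c)`.  Number the `∑ c, a r c ≤ K * p r` units of the row `r`
and put the unit number `i` into the copy `(r, i / K)`; the same for the columns.  This gives a
matrix on `W` with all row and column sums at most `K`.  Enlarge it to a matrix with all row and
column sums equal to `K` (see `Pool/Agent/TH525/LAD/Konig.lean`) and write it as a sum of `K`
permutation matrices (`Pool.Agent.H150R2` `koenig` in `Pool/Agent/H150R2/Konig.lean`, or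
`H931R3.LA.konig` in `Pool/Agent/H931R3/LAPet.lean`).  Among the `K` permutations that use the pair
of two copies choose as many as there are units of `a` in that entry.  Alternative: induction on `K`
with Hall's theorem. -/
def S_Int : Prop :=
  ∀ (R C : Type) [Fintype R] [Fintype C] (K : ℕ) (a : R → C → ℕ) (p : R → ℕ) (q : C → ℕ),
    (∀ r, ∑ c, a r c ≤ K * p r) → (∀ c, ∑ r, a r c ≤ K * q c) →
    ∃ B : Fin K → R → C → ℕ, (∀ r c, ∑ j, B j r c = a r c) ∧ (∀ j r, ∑ c, B j r c ≤ p r) ∧
      ∀ j c, ∑ r, B j r c ≤ q c

/-- JOB LAT7.  The decomposition of the amalgamated graph.  Let `K = (D + 2) / 2`, so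
`2 * K ≥ D + 1` and `2 * K ≤ D + 2`, `K ≥ 1`.  Take `a` from `S_Or` for `e = ee A s`; let
`R u = ∑ v, a u v`, `L u = ∑ v, a v u`.  Then `R u + L u = ∑ v, ee A s u v ≤ s u * D`, so
`2 R u ≤ s u * D + 1 ≤ 2 K s u` and `R u ≤ K s u`, in the same way `L u ≤ K s u`.
For a heavy pair `u ~ v` (in `hv A s D`) `a u v + a v u = s u * s v ≥ D + 1 ≥ 2 K - 1` and the two
numbers differ by at most one, so one of them is at least `K`.  Let `F u v ∈ {0, 1}` be one if
`(hv A s D).Adj u v ∧ K ≤ a u v` (both directions may be one, this does no harm).  Let `ρ u = ∑ v, F u v`,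
`ρ' v = ∑ u, F u v`; `K * ρ u ≤ R u ≤ K * s u`, so `ρ u ≤ s u`, in the same way `ρ' v ≤ s v`.
Let `C` be a connected component of `hv A s D`, `N = ∑_{u ∈ C} s u`.  By hypothesis every `v` with
`A u v`, `u ∈ C`, is in `C`, so `∑ v, ee A s u v ≤ s u * (N - 1)` for `u ∈ C`, and
`2 ∑_{u ∈ C} R u = ∑_{u ∈ C} ∑ v, ee A s u v ≤ N * min D (N - 1) ≤ (D + 1) * (N - 1) ≤ 2 K (N - 1)`.
Hence `∑_{u ∈ C} (K s u - R u) ≥ K`, and there are numbers `τ u ≤ K s u - R u` with
`∑_{u ∈ C} τ u = K` for every component `C`.
Apply `S_Int` with rows `V`, columns `V ⊕ (components)`, the matrix `a u v - K * F u v`, and `τ u` in the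
column of the component of `u` (zero in the columns of the other components), `p u = s u - ρ u`,
`q v = s v - ρ' v`, `q C = 1`.  The `K` column sums at `C` are at most one and sum up to `K`, so all
are one.  Let `B j u v` be the matrices (columns `V` only), `B' j u v = B j u v + F u v` and
`N j u v = B' j u v + B' j v u`.  Then `∑ j, N j u v = a u v + a v u`, the diagonal is even,
`∑ v, N j u v ≤ (p u + ρ u) + (q u + ρ' u) = 2 s u`, `N j u v ≥ 1` for all heavy pairs, so the
component `C` is connected in colour `j`, and the vertex `u ∈ C` whose row uses the column `C` in the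
`j`-th matrix satisfies `∑ v, N j u v ≤ 2 s u - 1`. -/
def S_Mat : Prop :=
  ∀ (V : Type) [Fintype V] (A : V → V → Prop) (s : V → ℕ) (D : ℕ), (∀ u v, A u v → A v u) →
    (∀ v, 1 ≤ s v) → (∀ u, ∑ v, ee A s u v ≤ s u * D) →
    (∀ u v, A u v → (hv A s D).Reachable u v) →
    ∃ N : Fin ((D + 2) / 2) → V → V → ℕ, (∀ j u v, N j u v = N j v u) ∧
      (∀ j u, Even (N j u u)) ∧ (∀ u v, ∑ j, N j u v = ee A s u v) ∧
      (∀ j u, ∑ v, N j u v ≤ 2 * s u) ∧
      ∀ j v, ∃ u, (cg N j).Reachable v u ∧ ∑ w, N j u w < 2 * s u

/-- Every other vertex is adjacent to both of `x`, `y` or to none of them. -/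
def Twins {X : Type} (P : SimpleGraph X) (x y : X) : Prop :=
  ∀ z, z ≠ x → z ≠ y → (P.Adj z x ↔ P.Adj z y)

/-- The number of twins of `x`, with `x` itself. -/
noncomputable def twinNum {X : Type} (P : SimpleGraph X) (x : X) : ℕ := {y | Twins P x y}.ncard

/-- The graph of the heavy edges. -/
def heavy {X : Type} (P : SimpleGraph X) (D : ℕ) : SimpleGraph X :=
  SimpleGraph.fromRel (fun x y => P.Adj x y ∧ (Twins P x y ∨ D < twinNum P x * twinNum P y))

/-- JOB LAT8.  Twin classes.  `Twins P` is an equivalence relation: for the transitivity let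
`x, y` and `y, z` be twins and `w ≠ x, z`; if `w ≠ y` the assertion is clear; if `w = y` and
`x, y, z` are different, then `Adj y x ↔ Adj x z` (test vertex `x` of the pair `y, z`) and
`Adj z x ↔ Adj z y` (test vertex `z` of the pair `x, y`).  Let `V` be the quotient, `f` the projection
and `A u v` iff some edge of `P` joins the classes `u` and `v`.  If `x, x'` and `y, y'` are twins,
`x ≠ y`, `x' ≠ y'`, then `Adj x y ↔ Adj x' y'`: replace one end after the other; if this is impossible
(`x' = y` or so) all four are in one class, and in a class all pairs of different vertices are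
adjacent or none is. -/
def S_Cls : Prop :=
  ∀ (X : Type) [Finite X] (P : SimpleGraph X), ∃ (V : Type) (_ : Finite V) (f : X → V)
    (A : V → V → Prop), Function.Surjective f ∧ (∀ u v, A u v → A v u) ∧
    (∀ x y, f x = f y ↔ Twins P x y) ∧ ∀ x y, P.Adj x y ↔ x ≠ y ∧ A (f x) (f y)

/-- JOB LAT9.  The theorem, from `S_Cls`, `S_Crit`, `S_Mat`.  Let `s v = (f ⁻¹' {v}).ncard ≥ 1`; so
`twinNum P x = s (f x)`.  `P` embeds into `blw A s` (`x ↦ ⟨f x, number of x in its class⟩`; see
`Pool.Agent.Q105.LAB.exists_idx` and use `H931R3.LA.Cov.comap`).  For `u = f x` the number of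
neighbours of `x` is `∑_{v ≠ u, A u v} s v + (if A u u then s u - 1 else 0)`, so
`∑ v, ee A s u v = s u * (degree of x) ≤ s u * D`.  `A u v` gives: `u = v`, or an edge `x y` of `P` with
`f x = u`, `f y = v`, hence a path of heavy edges from `x` to `y`; its image under `f` is a walk in
`hv A s D` (an edge of `heavy P D` inside a class is mapped to one vertex). -/
def Target : Prop :=
  ∀ (X : Type) [Finite X] (P : SimpleGraph X) (D : ℕ), (∀ x, (P.neighborSet x).ncard ≤ D) →
    (∀ x y, P.Adj x y → (heavy P D).Reachable x y) → Cov P ((D + 2) / 2)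

end Pool.Agent.Q105.LAT
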