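import Pool.Agent.H79.LA.Q105_LAT_Stm

set_option autoImplicit false

/-!
Project LAT, job LAT2: splitting off one vertex (adapted from `Pool.Agent.Q105.LAB.Amal.split`).
-/

namespace Pool.Agent.Q208.LAT

open Finset SimpleGraph Pool.Agent.Q105.LAB Pool.Agent.Q105.LAT

variable {X J : Type}

theorem even_sqL [DecidableEq X] (f : X → X → ℕ) (h1 : ∀ x y, f x y = f y x)
    (h2 : ∀ x, Even (f x x)) (C : Finset X) : Even (∑ y ∈ C, ∑ v ∈ C, f y v) := by
  induction C using Finset.induction_on with
  | empty => simp
  | insert a C ha ih =>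
    rw [sum_insert ha, sum_insert ha]
    have h3 : ∑ y ∈ C, ∑ v ∈ insert a C, f y v = ∑ y ∈ C, f a y + ∑ y ∈ C, ∑ v ∈ C, f y v := by
      rw [← sum_add_distrib]
      refine sum_congr rfl fun y _ => ?_
      rw [sum_insert ha, h1]
    rw [h3]
    obtain ⟨r, hr⟩ := ih
    obtain ⟨t, ht⟩ := h2 a
    exact ⟨t + ∑ y ∈ C, f a y + r, by rw [hr, ht]; ring⟩

/-- The number of edges from `x` to a component of the rest is even. -/
theorem even_compL [Fintype X] [DecidableEq X] [Fintype J] {μ : X → X → ℕ} {D : J → X → ℕ}
    {w : X → ℕ} {n : J → X → X → ℕ} (h : AmalL μ D w n)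
    (hD : ∀ j x, Even (D j x)) (x a : X)
    (ha : a ≠ x) (j : J) (C : Finset X) (hC : ∀ y, y ∈ C ↔ (dg n x j).Reachable a y) :
    Even (∑ y ∈ C, n j x y) := by
  have h1 : ∑ y ∈ C, ∑ v, n j y v = ∑ y ∈ C, ∑ v ∈ C, n j y v + ∑ y ∈ C, n j x y := by
    rw [← sum_add_distrib]
    refine sum_congr rfl fun y hy => ?_
    have hyx : y ≠ x := dg_reach_ne ((hC y).1 hy) ha
    have hx : x ∉ C := fun hx => dg_reach_ne ((hC x).1 hx) ha rfl
    rw [h.symm j x y, add_comm, ← sum_insert (f := fun v => n j y v) hx]
    symm
    refine sum_subset (subset_univ _) fun v _ hv => ?_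
    by_contra hne
    apply hv
    by_cases hvx : v = x
    · rw [hvx]; exact mem_insert_self _ _
    · by_cases hyv : y = v
      · rw [← hyv]; exact mem_insert_of_mem hy
      · exact mem_insert_of_mem ((hC v).2 (((hC y).1 hy).trans (Adj.reachable ⟨hyx, hvx, hyv,
          Or.inl (Nat.pos_of_ne_zero hne)⟩)))
  have h2 : Even (∑ y ∈ C, ∑ v, n j y v) := by
    rw [sum_congr rfl (fun y _ => h.deg j y)]
    exact even_sum _ (fun y _ => (hD j y).mul_left _)
  have h3 : Even (∑ y ∈ C, ∑ v ∈ C, n j y v) := even_sqL _ (h.symm j) (fun y => h.evn j y) C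
  rw [h1] at h2
  exact (Nat.even_add.1 h2).1 h3

/-- The new multiplicities. -/
def nnL [DecidableEq X] (n : J → X → X → ℕ) (x x' : X) (z : J → X → ℕ) (j : J) (u v : X) : ℕ :=
  if u = x' then z j v else if v = x' then z j u else
    if u = x then (if v = x then n j x x - 2 * z j x else n j x v - z j v) else
      if v = x then n j x u - z j u else n j u v

theorem t_Split (hZ : S_Z) : S_Split := by
  classical
  intro X J _ _ _ μ D w n h hμs hD x x' hne hw hw' htw hDx hDx'
  obtain ⟨z, hz1, hz1', hz2, hz3, hz3', hz4⟩ := hZ X J μ D w n h x hw hDx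
  have hnx' : ∀ j u, n j x' u = 0 := by
    intro j u
    by_cases hu : u = x'
    · subst hu
      have h1 := h.totd u
      rw [hw', zero_mul, sum_eq_zero_iff] at h1
      exact h1 j (mem_univ _)
    · have h1 := h.tot x' u (fun e => hu e.symm)
      rw [hw', zero_mul, sum_eq_zero_iff] at h1
      exact h1 j (mem_univ _)
  have hnux' : ∀ j u, n j u x' = 0 := fun j u => by rw [h.symm]; exact hnx' j u
  have hzx' : ∀ j, z j x' = 0 := fun j => Nat.le_zero.1 (by rw [← hnux' j x]; exact hz1 j x')
  set n' := nnL n x x' z with hn'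
  have e1 : ∀ j v, n' j x' v = z j v := fun j v => by
    rw [hn']; unfold nnL; rw [if_pos rfl]
  have e2 : ∀ j u, n' j u x' = z j u := fun j u => by
    rw [hn']; unfold nnL
    by_cases hu : u = x'
    · rw [if_pos hu, hu]
    · rw [if_neg hu, if_pos rfl]
  have e3 : ∀ j v, v ≠ x' → v ≠ x → n' j x v = n j x v - z j v := fun j v hv hv2 => by
    rw [hn']; unfold nnL
    rw [if_neg hne, if_neg hv, if_pos rfl, if_neg hv2]
  have e3' : ∀ j, n' j x x = n j x x - 2 * z j x := fun j => by
    rw [hn']; unfold nnL
    rw [if_neg hne, if_neg hne, if_pos rfl, if_pos rfl]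
  have e4 : ∀ j u, u ≠ x' → u ≠ x → n' j u x = n j x u - z j u := fun j u hu hux => by
    rw [hn']; unfold nnL
    rw [if_neg hu, if_neg hne, if_neg hux, if_pos rfl]
  have e5 : ∀ j u v, u ≠ x' → v ≠ x' → u ≠ x → v ≠ x → n' j u v = n j u v :=
    fun j u v h1 h2 h3 h4 => by
      rw [hn']; unfold nnL
      rw [if_neg h1, if_neg h2, if_neg h3, if_neg h4]
  set w' := Function.update (Function.update w x (w x - 1)) x' 1 with hw''
  have f1 : w' x' = 1 := by rw [hw'']; simp
  have f2 : w' x = w x - 1 := by
    rw [hw'', Function.update_of_ne hne, Function.update_self]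
  have f3 : ∀ u, u ≠ x → u ≠ x' → w' u = w u := fun u h1 h2 => by
    rw [hw'', Function.update_of_ne h2, Function.update_of_ne h1]
  have hsymm : ∀ j u v, n' j u v = n' j v u := by
    intro j u v
    by_cases h1 : u = x'
    · rw [h1, e1, e2]
    · by_cases h2 : v = x'
      · rw [h2, e1, e2]
      · by_cases h3 : u = x
        · by_cases h4 : v = x
          · rw [h3, h4]
          · rw [h3, e3 j v h2 h4, e4 j v h2 h4]
        · by_cases h4 : v = x
          · rw [h4, e4 j u h1 h3, e3 j u h1 h3]
          · rw [e5 j u v h1 h2 h3 h4, e5 j v u h2 h1 h4 h3, h.symm]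
  have hsub : ∀ v, v ≠ x → ∑ j, (n j x v - z j v) = (w x - 1) * (w v * μ x v) := by
    intro v hv
    rw [sum_tsub_distrib _ (fun j _ => hz1 j v), h.tot x v (fun e => hv e.symm), hz3 v hv,
      Nat.sub_mul, one_mul]
  refine ⟨n', hsymm, ?_, ?_, ?_, ?_, ?_⟩
  · intro j u
    by_cases h1 : u = x'
    · rw [h1, e1, hzx']
      exact Even.zero
    · by_cases h3 : u = x
      · rw [h3, e3']
        obtain ⟨r, hr⟩ := h.evn j x
        have := hz1' j
        exact ⟨r - z j x, by omega⟩
      · rw [e5 j u u h1 h1 h3 h3]
        exact h.evn j u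
  · intro u v huv
    by_cases h1 : u = x'
    · subst h1
      rw [sum_congr rfl (fun j _ => e1 j v), f1, one_mul]
      by_cases h6 : v = x
      · rw [h6, hz3', f2, htw x]
      · rw [hz3 v h6, f3 v h6 (fun e => huv e.symm), htw v]
    · by_cases h2 : v = x'
      · subst h2
        rw [sum_congr rfl (fun j _ => e2 j u), f1, one_mul, hμs u v, ← htw u]
        by_cases h6 : u = x
        · rw [h6, hz3', f2]
        · rw [hz3 u h6, f3 u h6 h1]
      · by_cases h3 : u = x
        · subst h3
          have h6 : v ≠ u := fun e => huv e.symm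
          rw [sum_congr rfl (fun j _ => e3 j v h2 h6), hsub v h6, f2, f3 v h6 h2]
        · by_cases h4 : v = x
          · subst h4
            rw [sum_congr rfl (fun j _ => e4 j u h1 h3), hsub u h3, f2, f3 u h3 h1, hμs u v]
            ring
          · rw [sum_congr rfl (fun j _ => e5 j u v h1 h2 h3 h4), h.tot u v huv, f3 u h3 h1,
              f3 v h4 h2]
  · intro u
    by_cases h1 : u = x'
    · subst h1
      rw [sum_congr rfl (fun j _ => (e1 j u).trans (hzx' j)), f1]
      simp
    · by_cases h3 : u = x
      · subst h3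
        rw [sum_congr rfl (fun j _ => e3' j), sum_tsub_distrib _ (fun j _ => hz1' j), h.totd u,
          ← mul_sum, hz3', f2]
        obtain ⟨k, hk⟩ : ∃ k, w u = k + 2 := ⟨w u - 2, by omega⟩
        rw [hk]
        simp only [Nat.add_sub_cancel, show k + 2 - 1 = k + 1 from rfl,
          show k + 1 - 1 = k from rfl]
        have h5 : (k + 2) * ((k + 1) * μ u u) = (k + 1) * (k * μ u u) + 2 * ((k + 1) * μ u u) := by
          ring
        omega
      · rw [sum_congr rfl (fun j _ => e5 j u u h1 h1 h3 h3), h.totd u, f3 u h3 h1]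
  · intro j u
    by_cases h1 : u = x'
    · subst h1
      rw [sum_congr rfl (fun v _ => e1 j v), hz2, f1, hDx', one_mul]
    · by_cases h3 : u = x
      · subst h3
        have h4 : ∀ v, n' j u v + z j v + (if v = u then z j u else 0) =
            n j u v + (if v = x' then z j u else 0) := by
          intro v
          by_cases hv : v = x'
          · subst hv
            rw [if_neg hne.symm, if_pos rfl, e2, hnux', hzx']
            omega
          · by_cases hv2 : v = u
            · subst hv2
              rw [if_pos rfl, if_neg hv, e3']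
              have := hz1' j
              omega
            · rw [if_neg hv, if_neg hv2, e3 j v hv hv2]
              have := hz1 j v
              omega
        have h5 := sum_congr rfl (fun v (_ : v ∈ (univ : Finset X)) => h4 v)
        rw [sum_add_distrib, sum_add_distrib, sum_add_distrib, sum_ite_eq' univ u,
          sum_ite_eq' univ x', if_pos (mem_univ _), if_pos (mem_univ _), hz2, h.deg, hDx] at h5
        rw [f2, hDx, Nat.sub_mul]
        omega
      · have h4 : ∀ v, n' j u v + (if v = x then z j u else 0) =
            n j u v + (if v = x' then z j u else 0) := by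
          intro v
          by_cases hv : v = x'
          · subst hv
            rw [if_neg hne.symm, if_pos rfl, e2, hnux']
            omega
          · by_cases hv2 : v = x
            · subst hv2
              rw [if_pos rfl, if_neg hv, e4 j u h1 h3, h.symm j u v]
              have := hz1 j u
              omega
            · rw [if_neg hv, if_neg hv2, e5 j u v h1 hv h3 hv2]
        have h5 := sum_congr rfl (fun v (_ : v ∈ (univ : Finset X)) => h4 v)
        rw [sum_add_distrib, sum_add_distrib, sum_ite_eq' univ x, sum_ite_eq' univ x',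
          if_pos (mem_univ _), if_pos (mem_univ _)] at h5
        rw [f3 u h3 h1, ← h.deg j u]
        omega
  · intro j
    have hmono : dg n x j ≤ cg n' j := by
      rintro a b ⟨h1, h2, h3, h4⟩
      refine ⟨h3, Or.inl ?_⟩
      have h5 : 0 < n j a b := by
        rcases h4 with h | h'
        · exact h
        · rw [h.symm]; exact h'
      have h6 : a ≠ x' := by
        rintro rfl
        rw [hnx'] at h5
        omega
      have h7 : b ≠ x' := by
        rintro rfl
        rw [hnux'] at h5
        omega
      rw [e5 j a b h6 h7 h1 h2]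
      exact h5
    have hA : ∀ a, a ≠ x → a ≠ x' → 0 < w a → (cg n' j).Reachable a x := by
      intro a ha ha' hwa
      obtain ⟨y, hy1, hy2⟩ := last_step (h.symm j) (h.conn j a x hwa (by omega)) ha
      let C : Finset X := univ.filter (fun y => (dg n x j).Reachable a y)
      have hev : Even (∑ y ∈ C, n j x y) := even_compL h hD x a ha j C (fun y => by simp [C])
      have hpos : 0 < ∑ y ∈ C, n j x y := by
        refine lt_of_lt_of_le hy2 (single_le_sum (f := fun y => n j x y)
          (fun _ _ => Nat.zero_le _) (mem_filter.2 ⟨mem_univ _, hy1⟩))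
      have hlt : ∑ y ∈ C, z j y < ∑ y ∈ C, n j x y := by
        have h5 : ∑ y ∈ C, z j y ≤ 2 := by
          rw [← hz2 j]
          exact sum_le_sum_of_subset (subset_univ _)
        by_cases h6 : ∑ y ∈ C, n j x y = 2
        · have := hz4 j a C ha (fun y => by simp [C]) h6
          omega
        · obtain ⟨r, hr⟩ := hev
          omega
      obtain ⟨y', hy', hlt'⟩ := exists_lt_of_sum_lt hlt
      have h7 : (dg n x j).Reachable a y' := (mem_filter.1 hy').2
      have h8 : y' ≠ x := dg_reach_ne h7 ha
      have h9 : y' ≠ x' := by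
        rintro rfl
        rw [hnux'] at hlt'
        omega
      refine (h7.mono hmono).trans (Adj.reachable ⟨h8, Or.inl ?_⟩)
      rw [e4 j y' h9 h8]
      omega
    have hxt : ∃ y, 0 < z j y := by
      by_contra hcon
      push Not at hcon
      have h5 := hz2 j
      rw [sum_eq_zero (fun y _ => Nat.le_zero.1 (hcon y))] at h5
      omega
    obtain ⟨y0, hy0⟩ := hxt
    have hy0x' : y0 ≠ x' := by
      rintro rfl
      rw [hzx'] at hy0
      omega
    have hB : (cg n' j).Reachable x' x := by
      have h5 : (cg n' j).Adj x' y0 := ⟨hy0x'.symm, Or.inl (by rw [e1]; exact hy0)⟩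
      by_cases hy0x : y0 = x
      · rw [hy0x] at h5
        exact h5.reachable
      · have hny0 : 0 < n j x y0 := lt_of_lt_of_le hy0 (hz1 j y0)
        have hwy0 : 0 < w y0 := by
          have h5 : n j x y0 ≤ ∑ j, n j x y0 := single_le_sum (f := fun j => n j x y0)
            (fun _ _ => Nat.zero_le _) (mem_univ j)
          rw [h.tot x y0 (fun e => hy0x e.symm)] at h5
          rcases Nat.eq_zero_or_pos (w y0) with h6 | h6
          · rw [h6, zero_mul, mul_zero] at h5
            omega
          · exact h6
        exact h5.reachable.trans (hA y0 hy0x hy0x' hwy0)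
    have hall : ∀ u, 0 < w' u → (cg n' j).Reachable u x := by
      intro u hu
      by_cases h1 : u = x
      · rw [h1]
      · by_cases h2 : u = x'
        · rw [h2]; exact hB
        · exact hA u h1 h2 (by rw [← f3 u h1 h2]; exact hu)
    intro u v hu hv
    exact (hall u hu).trans (hall v hv).symm

end Pool.Agent.Q208.LAT
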