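import Pool.Agent.H79.LA.Q105_LAT_Stm

/-! # Project LAT (helper105), job LAT3: splitting all vertices -/

set_option autoImplicit false

namespace Pool.Agent.Q241.LAT

open Finset SimpleGraph Pool.Agent.Q105.LAB Pool.Agent.Q105.LAT

theorem t_Det (hSp : S_Split) : S_Det := by
  classical
  intro X J U _ _ _ _ μ D hμs hD π htw hD2
  have key : ∀ (c : ℕ) (w : X → ℕ) (n : J → X → X → ℕ),
      (univ.filter (fun x => w x = 0)).card = c →
      (∀ u, ∑ x ∈ univ.filter (fun x => π x = u), w x = (univ.filter (fun x => π x = u)).card) →
      AmalL μ D w n → ∃ n', AmalL μ D (fun _ => 1) n' := by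
    intro c
    induction c with
    | zero =>
      intro w n hc hs h
      have h0 : ∀ x, 1 ≤ w x := by
        intro x
        by_contra hx
        have h1 : x ∈ univ.filter (fun x => w x = 0) := mem_filter.2 ⟨mem_univ _, by omega⟩
        rw [card_eq_zero.1 hc] at h1
        exact notMem_empty _ h1
      have h1 : w = fun _ => 1 := by
        funext x
        have h2 := hs (π x)
        rw [card_eq_sum_ones] at h2
        exact ((sum_eq_sum_iff_of_le (fun y _ => h0 y)).1 h2.symm x
          (mem_filter.2 ⟨mem_univ _, rfl⟩)).symm
      exact ⟨n, h1 ▸ h⟩
    | succ c ih =>
      intro w n hc hs h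
      obtain ⟨x', hx'⟩ := card_pos.1 (by rw [hc]; omega : 0 < (univ.filter (fun x => w x = 0)).card)
      have hw' : w x' = 0 := (mem_filter.1 hx').2
      have hex : ∃ x ∈ univ.filter (fun x => π x = π x'), 2 ≤ w x := by
        by_contra hcon
        push Not at hcon
        have h1 : ∑ x ∈ univ.filter (fun x => π x = π x'), w x <
            ∑ x ∈ univ.filter (fun x => π x = π x'), 1 := by
          refine sum_lt_sum (fun x hx => by have := hcon x hx; omega)
            ⟨x', mem_filter.2 ⟨mem_univ _, rfl⟩, by omega⟩
        rw [hs, card_eq_sum_ones] at h1
        exact lt_irrefl _ h1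
      obtain ⟨x, hx, hw⟩ := hex
      have hπ : π x = π x' := (mem_filter.1 hx).2
      have hne : x ≠ x' := by
        rintro rfl
        omega
      obtain ⟨n', hn'⟩ := hSp X J μ D w n h hμs hD x x' hne hw hw' (fun y => htw x x' y hπ)
        (fun j => hD2 j x x' hne hπ) (fun j => hD2 j x' x hne.symm hπ.symm)
      refine ih _ n' ?_ ?_ hn'
      · have h1 : univ.filter (fun y => (Function.update (Function.update w x (w x - 1)) x' 1) y = 0)
            = (univ.filter (fun x => w x = 0)).erase x' := by
          ext y
          simp only [mem_filter, mem_univ, true_and, mem_erase]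
          by_cases h2 : y = x'
          · subst h2
            simp
          · by_cases h3 : y = x
            · subst h3
              rw [Function.update_of_ne h2, Function.update_self]
              constructor
              · intro h; omega
              · intro h; omega
            · rw [Function.update_of_ne h2, Function.update_of_ne h3]
              exact ⟨fun h => ⟨h2, h⟩, fun h => h.2⟩
        rw [h1, card_erase_of_mem hx', hc]
        omega
      · intro u
        rw [← hs u]
        by_cases hu : π x' = u
        · subst hu
          have hx1 : x ∈ univ.filter (fun x => π x = π x') := hx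
          have hx2 : x' ∈ (univ.filter (fun x => π x = π x')).erase x :=
            mem_erase.2 ⟨hne.symm, mem_filter.2 ⟨mem_univ _, rfl⟩⟩
          rw [← add_sum_erase _ _ hx1, ← add_sum_erase _ _ hx2, ← add_sum_erase _ w hx1,
            ← add_sum_erase _ w hx2]
          rw [Function.update_of_ne hne, Function.update_self, Function.update_self, hw']
          have h4 : ∑ y ∈ ((univ.filter (fun x => π x = π x')).erase x).erase x',
              (Function.update (Function.update w x (w x - 1)) x' 1) y =
              ∑ y ∈ ((univ.filter (fun x => π x = π x')).erase x).erase x', w y := by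
            refine sum_congr rfl fun y hy => ?_
            obtain ⟨h5, h6⟩ := mem_erase.1 hy
            obtain ⟨h7, _⟩ := mem_erase.1 h6
            rw [Function.update_of_ne h5, Function.update_of_ne h7]
          rw [h4]
          omega
        · refine sum_congr rfl fun y hy => ?_
          have h5 : π y = u := (mem_filter.1 hy).2
          have h6 : y ≠ x' := by
            rintro rfl
            exact hu h5
          have h7 : y ≠ x := by
            rintro rfl
            exact hu (hπ.symm.trans h5)
          rw [Function.update_of_ne h6, Function.update_of_ne h7]
  intro w n hs h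
  exact key _ w n rfl hs h

end Pool.Agent.Q241.LAT
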