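import Pool.Agent.H79.LA.Q105_LAT_Stm

set_option autoImplicit false

/-! Job LAT5: nearly balanced orientation of a multigraph. -/

namespace Pool.Agent.Q47.LAT

open Finset Pool.Agent.Q105.LAT

/-- Kronecker delta. -/
def dl {X : Type} [DecidableEq X] (x y : X) : ℕ := if x = y then 1 else 0

theorem cf {E X : Type} [Fintype E] [DecidableEq X] (f : E → X) (o : X) :
    (univ.filter (fun e => f e = o)).card = ∑ e, dl (f e) o := by
  rw [Finset.card_filter]; rfl

/-- A nearly balanced orientation of an arbitrary finite multigraph. -/
theorem near {W E : Type} [Fintype W] [DecidableEq W] [Fintype E] [DecidableEq E] (p q : E → W) :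
    ∃ t : E → Bool, ∀ w, (univ.filter (fun e => (if t e then p e else q e) = w)).card ≤
      (univ.filter (fun e => (if t e then q e else p e) = w)).card + 1 ∧
      (univ.filter (fun e => (if t e then q e else p e) = w)).card ≤
      (univ.filter (fun e => (if t e then p e else q e) = w)).card + 1 := by
  let dg : W → ℕ := fun w => (univ.filter (fun e => p e = w)).card +
    (univ.filter (fun e => q e = w)).card
  let ev : ℕ := (univ.filter (fun w => ¬ Odd (dg w))).card
  let k : ℕ := Fintype.card E + Fintype.card W + 1
  have hsum : ∑ w, dg w = 2 * Fintype.card E := by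
    have h1 : ∑ w, (univ.filter (fun e => p e = w)).card = Fintype.card E :=
      (card_eq_sum_card_fiberwise (fun e _ => mem_univ (p e))).symm
    have h2 : ∑ w, (univ.filter (fun e => q e = w)).card = Fintype.card E :=
      (card_eq_sum_card_fiberwise (fun e _ => mem_univ (q e))).symm
    simp only [dg]
    rw [Finset.sum_add_distrib, h1, h2]; ring
  have hodd : Even (univ.filter (fun w => Odd (dg w))).card := by
    rw [← Finset.even_sum_iff_even_card_odd, hsum]
    exact even_two_mul _
  have hcw : (univ.filter (fun w => Odd (dg w))).card + ev = Fintype.card W := by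
    rw [← Finset.card_univ (α := W)]
    exact Finset.card_filter_add_card_filter_not _
  have hdg : ∀ w, dg w ≤ 2 * Fintype.card E := by
    intro w
    rw [← hsum]
    exact Finset.single_le_sum (f := dg) (fun _ _ => Nat.zero_le _) (mem_univ w)
  let c : Option W → ℕ := fun o => match o with
    | none => k - (ev + Fintype.card W) / 2
    | some w => k - (dg w + if Odd (dg w) then 1 else 0) / 2
  let P : E ⊕ (W ⊕ (Σ o : Option W, Fin (c o))) → Option W :=
    Sum.elim (fun e => some (p e)) (Sum.elim (fun w => if Odd (dg w) then some w else none)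
      (fun x => x.1))
  let Q : E ⊕ (W ⊕ (Σ o : Option W, Fin (c o))) → Option W :=
    Sum.elim (fun e => some (q e)) (Sum.elim (fun _ => none) (fun x => x.1))
  have hloop : ∀ (o : Option W), ∑ x : (Σ o : Option W, Fin (c o)), dl x.1 o = c o := by
    intro o
    rw [Fintype.sum_sigma, Finset.sum_eq_single o]
    · simp [dl]
    · intro x _ hx
      simp [dl, hx]
    · intro h; exact absurd (mem_univ o) h
  have hsome : ∀ x y : W, dl (some x) (some y) = dl x y := by
    intro x y; simp [dl]
  have hsn : ∀ x : W, dl (some x) none = 0 := by
    intro x; simp [dl]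
  have hns : ∀ x : W, dl none (some x) = 0 := by
    intro x; simp [dl]
  have hnn : dl (none : Option W) none = 1 := by simp [dl]
  have hreg : ∀ o, (univ.filter (fun e => P e = o)).card + (univ.filter (fun e => Q e = o)).card =
      2 * k := by
    intro o
    rw [cf, cf, Fintype.sum_sum_type, Fintype.sum_sum_type,
      Fintype.sum_sum_type, Fintype.sum_sum_type]
    simp only [P, Q, Sum.elim_inl, Sum.elim_inr]
    rw [hloop o]
    rcases o with _ | w
    · simp only [hsn, hnn, Finset.sum_const_zero, zero_add]
      have h1 : ∑ x : W, dl (if Odd (dg x) then some x else none) none = ev := by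
        simp only [ev]
        rw [Finset.card_filter]
        refine Finset.sum_congr rfl fun x _ => ?_
        by_cases h : Odd (dg x)
        · rw [if_pos h, hsn, if_neg (not_not.2 h)]
        · rw [if_neg h, hnn, if_pos h]
      rw [h1]
      simp only [c, Finset.sum_const, Finset.card_univ, smul_eq_mul, mul_one]
      have h2 : ev ≤ Fintype.card W := by omega
      obtain ⟨r, hr⟩ := hodd
      omega
    · simp only [hsome, hns, Finset.sum_const_zero, zero_add]
      have h1 : ∑ x : W, dl (if Odd (dg x) then some x else none) (some w) =
          if Odd (dg w) then 1 else 0 := by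
        rw [Finset.sum_eq_single w]
        · by_cases h : Odd (dg w) <;> simp [dl, h]
        · intro x _ hx
          by_cases h : Odd (dg x) <;> simp [dl, h, hx]
        · intro h; exact absurd (mem_univ w) h
      rw [h1, ← cf, ← cf]
      have h3 : (univ.filter (fun e => p e = w)).card + (univ.filter (fun e => q e = w)).card =
        dg w := rfl
      have h4 := hdg w
      simp only [c]
      by_cases h : Odd (dg w)
      · simp only [h, if_true]
        obtain ⟨r, hr⟩ := h
        omega
      · simp only [h, if_false]
        obtain ⟨r, hr⟩ := Nat.not_odd_iff_even.1 h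
        omega
  obtain ⟨t, ht1, ht2⟩ := Pool.Agent.W111.LAR.orient P Q k hreg
  refine ⟨fun e => t (Sum.inl e), fun w => ?_⟩
  have a1 := ht1 (some w)
  have a2 := ht2 (some w)
  rw [cf, Fintype.sum_sum_type, Fintype.sum_sum_type] at a1 a2
  simp only [P, Q, Sum.elim_inl, Sum.elim_inr, ite_self] at a1 a2
  rw [hloop] at a1 a2
  have e1 : ∑ x : E, dl (if t (Sum.inl x) = true then some (p x) else some (q x)) (some w) =
      (univ.filter (fun e => (if t (Sum.inl e) then p e else q e) = w)).card := by
    rw [cf]
    refine Finset.sum_congr rfl fun x _ => ?_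
    by_cases h : t (Sum.inl x) = true
    · rw [if_pos h, if_pos h, hsome]
    · rw [if_neg h, if_neg h, hsome]
  have e2 : ∑ x : E, dl (if t (Sum.inl x) = true then some (q x) else some (p x)) (some w) =
      (univ.filter (fun e => (if t (Sum.inl e) then q e else p e) = w)).card := by
    rw [cf]
    refine Finset.sum_congr rfl fun x _ => ?_
    by_cases h : t (Sum.inl x) = true
    · rw [if_pos h, if_pos h, hsome]
    · rw [if_neg h, if_neg h, hsome]
  have f1 : ∑ x : W, dl (if t (Sum.inr (Sum.inl x)) = true then
      (if Odd (dg x) then some x else none) else none) (some w) ≤ 1 := by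
    rw [← cf]
    refine Finset.card_le_one.2 fun x hx y hy => ?_
    have g : ∀ z, (if t (Sum.inr (Sum.inl z)) = true then
      (if Odd (dg z) then some z else none) else none) = some w → z = w := by
      intro z hz
      split_ifs at hz
      exact Option.some_injective _ hz
    rw [g x (mem_filter.1 hx).2, g y (mem_filter.1 hy).2]
  have f2 : ∑ x : W, dl (if t (Sum.inr (Sum.inl x)) = true then none else
      (if Odd (dg x) then some x else none)) (some w) ≤ 1 := by
    rw [← cf]
    refine Finset.card_le_one.2 fun x hx y hy => ?_
    have g : ∀ z, (if t (Sum.inr (Sum.inl z)) = true then none else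
      (if Odd (dg z) then some z else none)) = some w → z = w := by
      intro z hz
      split_ifs at hz
      exact Option.some_injective _ hz
    rw [g x (mem_filter.1 hx).2, g y (mem_filter.1 hy).2]
  rw [e1] at a1
  rw [e2] at a2
  generalize (univ.filter (fun e => (if t (Sum.inl e) then p e else q e) = w)).card = r1 at *
  generalize (univ.filter (fun e => (if t (Sum.inl e) then q e else p e) = w)).card = r2 at *
  constructor <;> omega

theorem pick1 {V : Type} [Fintype V] [DecidableEq V] (G : V → V → ℕ) (u : V) :
    ∑ x, ∑ y, (if x = u then G x y else 0) = ∑ y, G u y := by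
  rw [Finset.sum_eq_single u]
  · simp
  · intro x _ hx; simp [hx]
  · intro h; exact absurd (mem_univ u) h

theorem pick2 {V : Type} [Fintype V] [DecidableEq V] (G : V → V → ℕ) (u : V) :
    ∑ x, ∑ y, (if y = u then G x y else 0) = ∑ x, G x u := by
  refine Finset.sum_congr rfl fun x _ => ?_
  rw [Finset.sum_eq_single u]
  · simp
  · intro y _ hy; simp [hy]
  · intro h; exact absurd (mem_univ u) h

theorem t_Or : S_Or := by
  classical
  intro V _ e hsym hev
  let f := Fintype.equivFin V
  let cd : V → V → Prop := fun u v => Odd (e u v) ∧ f u < f v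
  obtain ⟨t, ht⟩ := near (fun x : V × V => x.1) (fun x : V × V => if cd x.1 x.2 then x.2 else x.1)
  let A : V → V → ℕ := fun u v => if cd u v ∧ t (u, v) = true then 1 else 0
  let B : V → V → ℕ := fun u v => if cd u v ∧ ¬ t (u, v) = true then 1 else 0
  let N : V → V → ℕ := fun u v => if cd u v then 0 else 1
  let b : V → V → ℕ := fun u v => A u v + B v u
  have hne : ∀ u v, Odd (e u v) → u ≠ v := by
    rintro u v h rfl
    exact (Nat.not_odd_iff_even.2 (hev u)) h
  have hb1 : ∀ u v, b u v + b v u = if Odd (e u v) then 1 else 0 := by
    intro u v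
    simp only [b, A, B, cd]
    by_cases h : Odd (e u v)
    · have h' : Odd (e v u) := by rw [← hsym]; exact h
      have hn : f u ≠ f v := fun h2 => hne u v h (f.injective h2)
      rcases lt_or_gt_of_ne hn with h3 | h3
      · have h4 : ¬ f v < f u := not_lt.2 h3.le
        by_cases h5 : t (u, v) = true <;> simp [h, h', h3, h4, h5]
      · have h4 : ¬ f u < f v := not_lt.2 h3.le
        by_cases h5 : t (v, u) = true <;> simp [h, h', h3, h4, h5]
    · have h' : ¬ Odd (e v u) := by rw [← hsym]; exact h
      simp [h, h']
  have hb2 : ∀ u v, b u v ≤ 1 := by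
    intro u v
    have := hb1 u v
    split_ifs at this <;> omega
  have hout : ∀ u, (univ.filter (fun x : V × V => (if t x then x.1 else
      (if cd x.1 x.2 then x.2 else x.1)) = u)).card = ∑ v, b u v + ∑ v, N u v := by
    intro u
    rw [Finset.card_filter, ← Finset.univ_product_univ, Finset.sum_product]
    have h1 : ∀ x y, (if (if t (x, y) = true then x else if cd x y then y else x) = u then 1 else 0) =
        (if x = u then A x y + N x y else 0) + (if y = u then B x y else 0) := by
      intro x y
      by_cases h2 : t (x, y) = true <;> by_cases h3 : cd x y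
      · have e1 : A x y = 1 := if_pos ⟨h3, h2⟩
        have e2 : B x y = 0 := if_neg (fun h => h.2 h2)
        have e3 : N x y = 0 := if_pos h3
        rw [if_pos h2, e1, e2, e3]; simp
      · have e1 : A x y = 0 := if_neg (fun h => h3 h.1)
        have e2 : B x y = 0 := if_neg (fun h => h3 h.1)
        have e3 : N x y = 1 := if_neg h3
        rw [if_pos h2, e1, e2, e3]; simp
      · have e1 : A x y = 0 := if_neg (fun h => h2 h.2)
        have e2 : B x y = 1 := if_pos ⟨h3, h2⟩
        have e3 : N x y = 0 := if_pos h3
        rw [if_neg h2, if_pos h3, e1, e2, e3]; simp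
      · have e1 : A x y = 0 := if_neg (fun h => h3 h.1)
        have e2 : B x y = 0 := if_neg (fun h => h3 h.1)
        have e3 : N x y = 1 := if_neg h3
        rw [if_neg h2, if_neg h3, e1, e2, e3]; simp
    simp only [h1, Finset.sum_add_distrib]
    rw [pick1 (fun x y => A x y + N x y) u, pick2 B u]
    simp only [b, Finset.sum_add_distrib]
    ring
  have hin : ∀ u, (univ.filter (fun x : V × V => (if t x then
      (if cd x.1 x.2 then x.2 else x.1) else x.1) = u)).card = ∑ v, b v u + ∑ v, N u v := by
    intro u
    rw [Finset.card_filter, ← Finset.univ_product_univ, Finset.sum_product]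
    have h1 : ∀ x y, (if (if t (x, y) = true then (if cd x y then y else x) else x) = u then 1 else 0) =
        (if x = u then B x y + N x y else 0) + (if y = u then A x y else 0) := by
      intro x y
      by_cases h2 : t (x, y) = true <;> by_cases h3 : cd x y
      · have e1 : A x y = 1 := if_pos ⟨h3, h2⟩
        have e2 : B x y = 0 := if_neg (fun h => h.2 h2)
        have e3 : N x y = 0 := if_pos h3
        rw [if_pos h2, if_pos h3, e1, e2, e3]; simp
      · have e1 : A x y = 0 := if_neg (fun h => h3 h.1)
        have e2 : B x y = 0 := if_neg (fun h => h3 h.1)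
        have e3 : N x y = 1 := if_neg h3
        rw [if_pos h2, if_neg h3, e1, e2, e3]; simp
      · have e1 : A x y = 0 := if_neg (fun h => h2 h.2)
        have e2 : B x y = 1 := if_pos ⟨h3, h2⟩
        have e3 : N x y = 0 := if_pos h3
        rw [if_neg h2, e1, e2, e3]; simp
      · have e1 : A x y = 0 := if_neg (fun h => h3 h.1)
        have e2 : B x y = 0 := if_neg (fun h => h3 h.1)
        have e3 : N x y = 1 := if_neg h3
        rw [if_neg h2, e1, e2, e3]; simp
    simp only [h1, Finset.sum_add_distrib]
    rw [pick1 (fun x y => B x y + N x y) u, pick2 A u]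
    simp only [b, Finset.sum_add_distrib]
    ring
  have hsumd : ∀ u, ∑ v, e v u / 2 = ∑ v, e u v / 2 := fun u =>
    Finset.sum_congr rfl fun v _ => by rw [hsym v u]
  refine ⟨fun u v => e u v / 2 + b u v, fun u v => ?_, fun u v => ?_, fun u => ?_, fun u => ?_⟩
  · have h1 := hb1 u v
    have h2 := hsym u v
    by_cases h : Odd (e u v)
    · rw [if_pos h] at h1
      obtain ⟨r, hr⟩ := h
      simp only
      omega
    · rw [if_neg h] at h1
      obtain ⟨r, hr⟩ := Nat.not_odd_iff_even.1 h
      simp only
      omega
  · have h1 := hb2 u v
    have h2 := hsym u v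
    simp only
    rw [← h2]
    omega
  · simp only [Finset.sum_add_distrib]
    rw [hsumd u]
    have h1 := (ht u).1
    have h2 := hout u
    have h3 := hin u
    rw [h2, h3] at h1
    omega
  · simp only [Finset.sum_add_distrib]
    rw [hsumd u]
    have h1 := (ht u).2
    have h2 := hout u
    have h3 := hin u
    rw [h2, h3] at h1
    omega

end Pool.Agent.Q47.LAT
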