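import Pool.Agent.H79.LA.Q105_LAB_Top
import Pool.Agent.H79.LA.Q208_LAT_Z
import Pool.Agent.H79.LA.Q208_LAT_Split
import Pool.Agent.H79.LA.Q241_LAT_LAT3
import Pool.Agent.H79.LA.Q241_LAT_LAT8
import Pool.Agent.H79.LA.Q241_LAT_LAT9
import Pool.Agent.H79.LA.Q150_LAT_LAT4
import Pool.Agent.H79.LA.Q47_LAT_Or
import Pool.Agent.H79.LA.Q47_LAT_Mat

set_option autoImplicit false

/-!
Top: the lemmas put together, and the criterion for graphs with a partition into classes of twins.
-/

namespace Pool.Agent.Q105.LAT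

open Finset SimpleGraph H931R3.LA Pool.Agent.W111.LAR Pool.Agent.Q105.LAB

theorem s_crit : S_Crit :=
  Pool.Agent.Q150.LAT.t_Crit (Pool.Agent.Q241.LAT.t_Det
    (Pool.Agent.Q208.LAT.t_Split Pool.Agent.Q208.LAT.t_Z))

theorem target : Target :=
  Pool.Agent.Q241.LAT.t_Target Pool.Agent.Q241.LAT.t_Cls s_crit
    (Pool.Agent.Q47.LAT.t_Mat Pool.Agent.Q47.LAT.t_Or Pool.Agent.Q47.LAT.t_Int)

/-- `f` maps the vertices of `P` onto `V`, and two different vertices of `P` are adjacent iff their
images are in the symmetric relation `A`.  So the fibres of `f` consist of twins. -/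
def TwinMap {V X : Type} (P : SimpleGraph X) (A : V → V → Prop) (f : X → V) : Prop :=
  Function.Surjective f ∧ (∀ u v, A u v → A v u) ∧ ∀ x y, P.Adj x y ↔ x ≠ y ∧ A (f x) (f y)

/-- The number of pairs `(x, y)` of adjacent vertices with `f x = u`, `f y = v`. -/
noncomputable def adjPairs {V X : Type} (P : SimpleGraph X) (f : X → V) (u v : V) : ℕ :=
  {p : X × X | f p.1 = u ∧ f p.2 = v ∧ P.Adj p.1 p.2}.ncard

/-- Edge colourings of the quotient multigraph. -/
def GoodCol {V X : Type} [Fintype V] (P : SimpleGraph X) (f : X → V) (K : ℕ)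
    (N : Fin K → V → V → ℕ) : Prop :=
  (∀ j u v, N j u v = N j v u) ∧ (∀ j u, Even (N j u u)) ∧
  (∀ u v, ∑ j, N j u v = adjPairs P f u v) ∧
  (∀ j u, ∑ v, N j u v ≤ 2 * (f ⁻¹' {u}).ncard) ∧
  ∀ (j : Fin K) (C : Set V), C.Nonempty → (∀ u ∈ C, ∀ v, 0 < N j u v → v ∈ C) →
    ∃ u ∈ C, ∑ v, N j u v < 2 * (f ⁻¹' {u}).ncard

open Classical in
theorem fib_card {V X : Type} [Fintype X] (f : X → V) (u : V) :
    (f ⁻¹' {u}).ncard = (univ.filter (fun x => f x = u)).card := by
  rw [← Set.ncard_coe_finset]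
  congr 1
  ext y
  simp

open Classical in
theorem adjPairs_eq {V X : Type} [Fintype X] (P : SimpleGraph X) (f : X → V) (u v : V) :
    adjPairs P f u v = ∑ x ∈ univ.filter (fun x => f x = u), ∑ y ∈ univ.filter (fun y => f y = v),
      (if P.Adj x y then 1 else 0) := by
  have h1 : {p : X × X | f p.1 = u ∧ f p.2 = v ∧ P.Adj p.1 p.2} =
      (((univ.filter (fun x => f x = u)) ×ˢ (univ.filter (fun y => f y = v))).filter
        (fun p => P.Adj p.1 p.2) : Finset (X × X)) := by
    ext p
    simp [and_assoc]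
  unfold adjPairs
  rw [h1, Set.ncard_coe_finset, card_filter, sum_product]

open Classical in
theorem adjPairs_ee {V X : Type} [Fintype X] {P : SimpleGraph X} {A : V → V → Prop} {f : X → V}
    (h : TwinMap P A f) (u v : V) : adjPairs P f u v = ee A (fun v => (f ⁻¹' {v}).ncard) u v := by
  obtain ⟨h1, h2, h3⟩ := h
  rw [adjPairs_eq]
  unfold ee
  by_cases hA : A u v
  · rw [if_pos hA]
    by_cases huv : u = v
    · subst huv
      rw [if_pos rfl]
      have h4 : ∀ x ∈ univ.filter (fun x => f x = u),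
          ∑ y ∈ univ.filter (fun y => f y = u), (if P.Adj x y then 1 else 0) =
            (f ⁻¹' {u}).ncard - 1 := by
        intro x hx
        rw [← card_filter, fib_card, ← card_erase_of_mem hx]
        congr 1
        ext y
        simp only [mem_filter, mem_univ, true_and, mem_erase] at hx ⊢
        constructor
        · rintro ⟨h5, h6⟩
          exact ⟨h6.ne', h5⟩
        · rintro ⟨h5, h6⟩
          exact ⟨h6, (h3 x y).2 ⟨Ne.symm h5, by rw [hx, h6]; exact hA⟩⟩
      rw [sum_congr rfl h4, sum_const, ← fib_card, smul_eq_mul]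
    · rw [if_neg huv]
      have h4 : ∀ x ∈ univ.filter (fun x => f x = u),
          ∑ y ∈ univ.filter (fun y => f y = v), (if P.Adj x y then 1 else 0) =
            (f ⁻¹' {v}).ncard := by
        intro x hx
        rw [← card_filter, fib_card]
        congr 1
        ext y
        simp only [mem_filter, mem_univ, true_and] at hx ⊢
        constructor
        · exact fun h5 => h5.1
        · intro h5
          refine ⟨h5, (h3 x y).2 ⟨?_, by rw [hx, h5]; exact hA⟩⟩
          rintro rfl
          exact huv (hx.symm.trans h5)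
      rw [sum_congr rfl h4, sum_const, ← fib_card, smul_eq_mul]
  · rw [if_neg hA]
    refine sum_eq_zero fun x hx => sum_eq_zero fun y hy => if_neg fun h4 => hA ?_
    have h5 := ((h3 x y).1 h4).2
    rwa [(mem_filter.1 hx).2, (mem_filter.1 hy).2] at h5

theorem cov_of_good {V X : Type} [Fintype V] [Finite X] {P : SimpleGraph X} {A : V → V → Prop}
    {f : X → V} (h : TwinMap P A f) {K : ℕ} {N : Fin K → V → V → ℕ} (hN : GoodCol P f K N) :
    Cov P K := by
  classical
  haveI : Fintype X := Fintype.ofFinite X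
  obtain ⟨hN1, hN2, hN3, hN4, hN5⟩ := hN
  have hh := h
  obtain ⟨h1, h2, h3⟩ := h
  set s : V → ℕ := fun v => (f ⁻¹' {v}).ncard with hs
  have hs1 : ∀ v, 1 ≤ s v := by
    intro v
    obtain ⟨x, hx⟩ := h1 v
    have : 0 < (f ⁻¹' {v}).ncard := (Set.ncard_pos (Set.toFinite _)).2 ⟨x, hx⟩
    exact this
  have hcov := s_crit V (Fin K) A s N h2 hs1 hN1 hN2 (fun u v => by
      rw [hN3, adjPairs_ee hh]) hN4 (by
    intro j v
    obtain ⟨u, hu1, hu2⟩ := hN5 j {u | (cg N j).Reachable v u} ⟨v, Reachable.refl _⟩ (by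
      intro u hu w hw
      by_cases hne : u = w
      · rw [← hne]; exact hu
      · exact Reachable.trans hu (Adj.reachable ⟨hne, Or.inl hw⟩))
    exact ⟨u, hu1, hu2⟩)
  rw [Fintype.card_fin] at hcov
  have hcard : ∀ v, Nonempty ({x // f x = v} ≃ Fin (s v)) := by
    intro v
    refine ⟨Finite.equivFinOfCardEq ?_⟩
    show Nat.card (f ⁻¹' {v} : Set X) = _
    exact Nat.card_coe_set_eq _
  let ψ : X ≃ Σ v, Fin (s v) := (Equiv.sigmaFiberEquiv f).symm.trans
    (Equiv.sigmaCongrRight fun v => (hcard v).some)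
  have hψ : ∀ x, (ψ x).1 = f x := fun x => rfl
  refine hcov.comap ⟨ψ.toEmbedding, ?_⟩
  intro x y
  change (blw A s).Adj (ψ x) (ψ y) ↔ P.Adj x y
  rw [blw, fromRel_adj, hψ, hψ, h3 x y]
  constructor
  · rintro ⟨h4, h5⟩
    refine ⟨fun h => h4 (by rw [h]), ?_⟩
    rcases h5 with h5 | h5
    · exact h5
    · exact h2 _ _ h5
  · rintro ⟨h4, h5⟩
    exact ⟨fun h => h4 (ψ.injective h), Or.inl h5⟩

theorem good_of_cov {V X : Type} [Fintype V] [Finite X] {P : SimpleGraph X} (f : X → V)
    (hf : Function.Surjective f) {K : ℕ} (h : Cov P K) : ∃ N, GoodCol P f K N := by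
  classical
  haveI : Fintype X := Fintype.ofFinite X
  obtain ⟨c, hc1, hc2⟩ := exists_col h
  let F : ℕ → SimpleGraph X := fun i => cls P c i
  have hF : ∀ i, IsLF (F i) := hc2
  let fb : V → Finset X := fun u => univ.filter (fun x => f x = u)
  have hfb : ∀ x u, x ∈ fb u ↔ f x = u := fun x u => by simp [fb]
  let N : Fin K → V → V → ℕ := fun j u v =>
    ∑ x ∈ fb u, ∑ y ∈ fb v, (if (F j).Adj x y then 1 else 0)
  have hdeg : ∀ j u, ∑ v, N j u v = ∑ x ∈ fb u, ((F j).neighborSet x).ncard := by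
    intro j u
    show ∑ v, ∑ x ∈ fb u, ∑ y ∈ fb v, (if (F j).Adj x y then 1 else 0) = _
    rw [sum_comm]
    refine sum_congr rfl fun x _ => ?_
    rw [← sum_adj (F j) x, ← sum_fiberwise (s := (univ : Finset X)) (g := f)]
  refine ⟨N, ?_, ?_, ?_, ?_, ?_⟩
  · intro j u v
    show ∑ x ∈ fb u, ∑ y ∈ fb v, (if (F j).Adj x y then 1 else 0) =
      ∑ x ∈ fb v, ∑ y ∈ fb u, (if (F j).Adj x y then 1 else 0)
    rw [sum_comm]
    exact sum_congr rfl fun a _ => sum_congr rfl fun b _ => if_congr ((F j).adj_comm _ _) rfl rfl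
  · intro j u
    exact Pool.Agent.Q150.LAT.even_sq' (fun x y => if (F j).Adj x y then 1 else 0)
      (fun x y => if_congr ((F j).adj_comm _ _) rfl rfl)
      (fun x => by
        show Even (if (F j).Adj x x then 1 else 0)
        rw [if_neg ((F j).loopless.irrefl x)]
        exact Even.zero) (fb u)
  · intro u v
    rw [adjPairs_eq]
    show ∑ j : Fin K, ∑ x ∈ fb u, ∑ y ∈ fb v, (if (F j).Adj x y then 1 else 0) = _
    rw [sum_comm]
    refine sum_congr rfl fun x _ => ?_
    rw [sum_comm]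
    refine sum_congr rfl fun y _ => ?_
    by_cases hxy : P.Adj x y
    · rw [if_pos hxy]
      have h2 := hc1 x y hxy
      rw [sum_eq_single ⟨c s(x, y), h2⟩]
      · exact if_pos ⟨hxy, rfl⟩
      · intro j _ hj
        refine if_neg fun h => hj ?_
        exact Fin.ext h.2.symm
      · intro h
        exact absurd (mem_univ _) h
    · rw [if_neg hxy]
      exact sum_eq_zero fun j _ => if_neg fun h => hxy h.1
  · intro j u
    rw [hdeg, fib_card]
    refine le_trans (sum_le_sum fun x _ => (hF j).2 x) ?_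
    rw [sum_const, smul_eq_mul, mul_comm]
  · intro j C ⟨v, hv⟩ hC
    by_contra hcon
    push Not at hcon
    have h2 : ∀ x, f x ∈ C → ((F j).neighborSet x).ncard = 2 := by
      intro x hx
      have h3 := hcon (f x) hx
      rw [hdeg, fib_card] at h3
      have h4 : ∑ x ∈ fb (f x), ((F j).neighborSet x).ncard ≤ ∑ _x ∈ fb (f x), 2 :=
        sum_le_sum fun a _ => (hF j).2 a
      have h5 : ∑ _x ∈ fb (f x), 2 = 2 * (fb (f x)).card := by
        rw [sum_const, smul_eq_mul, mul_comm]
      exact (sum_eq_sum_iff_of_le (fun a _ => (hF j).2 a)).1 (le_antisymm h4 (by rw [h5]; exact h3)) x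
        ((hfb _ _).2 rfl)
    have hcl : ∀ {x y : X} (_ : (F j).Walk x y), f x ∈ C → f y ∈ C := by
      intro x y p
      induction p with
      | nil => exact id
      | @cons x y z hxy p ih =>
        intro hx
        apply ih
        refine hC (f x) hx (f y) ?_
        show 0 < ∑ a ∈ fb (f x), ∑ b ∈ fb (f y), (if (F j).Adj a b then 1 else 0)
        have h6 : (if (F j).Adj x y then 1 else 0) = 1 := if_pos hxy
        have h7 : 1 ≤ ∑ b ∈ fb (f y), (if (F j).Adj x b then 1 else 0) := by
          refine le_trans h6.ge ?_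
          exact single_le_sum (f := fun b : X => if (F j).Adj x b then 1 else 0)
            (fun _ _ => Nat.zero_le _) ((hfb _ _).2 rfl)
        exact lt_of_lt_of_le Nat.zero_lt_one (le_trans h7 (single_le_sum
          (f := fun a : X => ∑ b ∈ fb (f y), (if (F j).Adj a b then 1 else 0))
          (fun _ _ => Nat.zero_le _) ((hfb _ _).2 rfl)))
    obtain ⟨x0, hx0⟩ := hf v
    have hcyc : Cyc (F j) x0 := by
      rintro w ⟨p⟩
      exact h2 w (hcl p (by rw [hx0]; exact hv))
    obtain ⟨w, cc, hcc, _⟩ := exists_cycle hcyc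
    exact (hF j).1 cc hcc

/-- If all twin classes are large, all edges are heavy. -/
theorem all_heavy {X : Type} {P : SimpleGraph X} {D : ℕ} (h : ∀ x, D < twinNum P x ^ 2) (x y : X)
    (hxy : P.Adj x y) : (heavy P D).Reachable x y := by
  refine Adj.reachable ?_
  rw [heavy, fromRel_adj]
  refine ⟨hxy.ne, ?_⟩
  left
  refine ⟨hxy, Or.inr ?_⟩
  have h1 := h x
  have h2 := h y
  rcases le_total (twinNum P x) (twinNum P y) with h3 | h3
  · rw [sq] at h1
    exact lt_of_lt_of_le h1 (Nat.mul_le_mul_left _ h3)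
  · rw [sq] at h2
    exact lt_of_lt_of_le h2 (Nat.mul_le_mul_right _ h3)

end Pool.Agent.Q105.LAT
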