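import Pool.Agent.H79.LA.Q251_LA_Step

/-!
# Full detachment
-/

set_option autoImplicit false

namespace Pool.Agent.Q251.LA

open Finset SimpleGraph

section

variable {V D C : Type} [Fintype D] {G : SimpleGraph V} {m : ℕ} {ι : D → D} {b : D → V}
  {col : D → C} {Q : C → SimpleGraph V}

open Classical in
/-- **Full detachment.** -/
theorem detach [Fintype C] [Fintype V] [Nonempty C] (hι : ∀ d, ι (ι d) = d)
    (hG : ∀ d, G.Adj (b d) (b (ι d))) (hc : ∀ d, col (ι d) = col d) :
    ∀ (N : ℕ) (μ : V × Fin m → ℕ) (loc : D → V × Fin m),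
      (univ.filter (fun x => μ x = 0)).card ≤ N → St G m ι b col Q μ loc →
      ∃ loc' : D → V × Fin m, St G m ι b col Q (fun _ => 1) loc' := by
  intro N
  induction N with
  | zero =>
    intro μ loc hN h
    have h1 : ∀ x, 1 ≤ μ x := by
      intro x
      by_contra h2
      have h3 : x ∈ univ.filter (fun x => μ x = 0) := mem_filter.2 ⟨mem_univ _, by omega⟩
      rw [card_eq_zero.1 (Nat.le_zero.1 hN)] at h3
      exact absurd h3 (notMem_empty _)
    have h2 : μ = fun _ => 1 := by
      funext x
      obtain ⟨v, i⟩ := x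
      have h3 : ∑ i : Fin m, 1 = ∑ i, μ (v, i) := by
        rw [h.tot v, sum_const, card_univ, Fintype.card_fin, smul_eq_mul, mul_one]
      exact ((sum_eq_sum_iff_of_le (fun i _ => h1 (v, i))).1 h3 i (mem_univ _)).symm
    rw [h2] at h
    exact ⟨loc, h⟩
  | succ N ih =>
    intro μ loc hN h
    by_cases hz : ∃ z, μ z = 0
    swap
    · refine ih μ loc ?_ h
      have h1 : univ.filter (fun x => μ x = 0) = ∅ := by
        rw [filter_eq_empty_iff]
        intro x _ h2
        exact hz ⟨x, h2⟩
      rw [h1, card_empty]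
      exact Nat.zero_le _
    obtain ⟨z, hz⟩ := hz
    have h1 : ∃ i, 2 ≤ μ (z.1, i) := by
      by_contra h2
      push Not at h2
      have h3 : ∑ i, μ (z.1, i) < ∑ i : Fin m, 1 := by
        refine sum_lt_sum (fun i _ => by have := h2 i; omega) ⟨z.2, mem_univ _, ?_⟩
        show μ z < 1
        omega
      rw [h.tot z.1, sum_const, card_univ, Fintype.card_fin, smul_eq_mul, mul_one] at h3
      exact lt_irrefl _ h3
    obtain ⟨i, hi⟩ := h1
    obtain ⟨loc', h'⟩ := step hι hG hc h (z.1, i) z hz rfl hi
    refine ih _ loc' ?_ h'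
    have h2 : (univ.filter (fun x => Function.update (Function.update μ (z.1, i)
        (μ (z.1, i) - 1)) z 1 x = 0)) ⊆ (univ.filter (fun x => μ x = 0)).erase z := by
      intro x hx
      have h3 := (mem_filter.1 hx).2
      have h4 : x ≠ z := by
        rintro rfl
        rw [Function.update_self] at h3
        exact one_ne_zero h3
      rw [Function.update_of_ne h4] at h3
      refine mem_erase.2 ⟨h4, mem_filter.2 ⟨mem_univ _, ?_⟩⟩
      by_cases h5 : x = (z.1, i)
      · rw [h5, Function.update_self] at h3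
        omega
      · rwa [Function.update_of_ne h5] at h3
    have h3 := card_le_card h2
    have h4 : z ∈ univ.filter (fun x => μ x = 0) := mem_filter.2 ⟨mem_univ _, hz⟩
    rw [card_erase_of_mem h4] at h3
    have h5 := card_pos.2 ⟨z, h4⟩
    omega

end

end Pool.Agent.Q251.LA
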