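import Mathlib

/-!
# Choosing a balanced transversal (Hall)

`S` is a finite set, coloured by `col` (`2 m` elements of every colour) and by `nb` (`m n_w` elements
with `nb = w`), with a pairing `τ` inside the colours. There is a subset `X` with two elements of every
colour, `n_w` elements with `nb = w`, and at most one element of every pair.
-/

set_option autoImplicit false

namespace Pool.Agent.Q251.LA

open Finset

variable {D W C : Type} [DecidableEq D] [DecidableEq W] [DecidableEq C]

/-- slots: every fibre of `nb` is divided into `n w` parts with `m` elements -/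
theorem slots (S : Finset D) (nb : D → W) (m : ℕ) (n : W → ℕ)
    (h1 : ∀ w, (S.filter (fun d => nb d = w)).card = m * n w) :
    ∃ s : D → ℕ, (∀ d ∈ S, s d < n (nb d)) ∧
      ∀ w j, j < n w → (S.filter (fun d => nb d = w ∧ s d = j)).card = m := by
  classical
  have h2 : ∀ w, Fintype.card {d // d ∈ S.filter (fun d => nb d = w)} =
      Fintype.card (Fin (n w) × Fin m) := by
    intro w
    rw [Fintype.card_coe, h1, Fintype.card_prod, Fintype.card_fin, Fintype.card_fin, mul_comm]
  have e : ∀ w, {d // d ∈ S.filter (fun d => nb d = w)} ≃ (Fin (n w) × Fin m) := fun w =>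
    Fintype.equivOfCardEq (h2 w)
  let s : D → ℕ := fun d => if h : d ∈ S then
    ((e (nb d) ⟨d, mem_filter.2 ⟨h, rfl⟩⟩).1 : ℕ) else 0
  have hs : ∀ (w : W) (d : D) (h : d ∈ S.filter (fun d => nb d = w)),
      s d = ((e w ⟨d, h⟩).1 : ℕ) := by
    intro w d h
    obtain ⟨h3, rfl⟩ := mem_filter.1 h
    simp only [s, dif_pos h3]
  refine ⟨s, ?_, ?_⟩
  · intro d hd
    rw [hs (nb d) d (mem_filter.2 ⟨hd, rfl⟩)]
    exact (e (nb d) _).1.2
  · intro w j hj
    have h3 : (S.filter (fun d => nb d = w ∧ s d = j)) =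
        (univ : Finset (Fin m)).image (fun i => ((e w).symm (⟨j, hj⟩, i) : D)) := by
      ext d
      rw [mem_filter, mem_image]
      constructor
      · rintro ⟨h4, h5, h6⟩
        have h7 : d ∈ S.filter (fun d => nb d = w) := mem_filter.2 ⟨h4, h5⟩
        refine ⟨(e w ⟨d, h7⟩).2, mem_univ _, ?_⟩
        have h8 : (⟨j, hj⟩, (e w ⟨d, h7⟩).2) = e w ⟨d, h7⟩ := by
          refine Prod.ext (Fin.ext ?_) rfl
          show j = ((e w ⟨d, h7⟩).1 : ℕ)
          rw [← hs w d h7, h6]
        rw [h8, Equiv.symm_apply_apply]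
      · rintro ⟨i, -, rfl⟩
        have h7 := ((e w).symm (⟨j, hj⟩, i)).2
        refine ⟨(mem_filter.1 h7).1, (mem_filter.1 h7).2, ?_⟩
        rw [hs w _ h7]
        simp
    rw [h3, card_image_of_injective, card_univ, Fintype.card_fin]
    intro i i' h4
    have h5 := (e w).symm.injective (Subtype.ext h4)
    exact (Prod.ext_iff.1 h5).2

/-- **The choice of a transversal.** -/
theorem select [Fintype C] (S : Finset D) (nb : D → W) (col : D → C) (m : ℕ) (hm : 2 ≤ m)
    (n : W → ℕ) (h1 : ∀ w, (S.filter (fun d => nb d = w)).card = m * n w)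
    (h2 : ∀ c, (S.filter (fun d => col d = c)).card = 2 * m) (τ : D → D) (r : D → Bool)
    (hS : ∀ d ∈ S, τ d ∈ S) (hττ : ∀ d ∈ S, τ (τ d) = d) (hcol : ∀ d ∈ S, col (τ d) = col d)
    (hr : ∀ d ∈ S, r (τ d) = !r d) :
    ∃ X ⊆ S, (∀ w, (X.filter (fun d => nb d = w)).card = n w) ∧
      (∀ c, (X.filter (fun d => col d = c)).card = 2) ∧ ∀ d ∈ X, τ d ∉ X := by
  classical
  obtain ⟨s, hs1, hs2⟩ := slots S nb m n h1
  let P : Finset D := S.filter (fun d => r d = true)
  have hPS : ∀ p ∈ P, p ∈ S := fun p hp => (mem_filter.1 hp).1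
  have hPr : ∀ p ∈ P, r p = true := fun p hp => (mem_filter.1 hp).2
  -- sums over `S` are sums over the pairs
  have hsum : ∀ g : D → ℕ, ∑ p ∈ P, (g p + g (τ p)) = ∑ d ∈ S, g d := by
    intro g
    rw [sum_add_distrib, ← sum_filter_add_sum_filter_not S (fun d => r d = true) g]
    congr 1
    refine sum_bij (fun p _ => τ p) ?_ ?_ ?_ ?_
    · intro p hp
      rw [mem_filter]
      refine ⟨hS p (hPS p hp), ?_⟩
      rw [hr p (hPS p hp), hPr p hp]
      decide
    · intro p hp q hq h
      rw [← hττ p (hPS p hp), ← hττ q (hPS q hq), h]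
    · intro d hd
      obtain ⟨hd1, hd2⟩ := mem_filter.1 hd
      refine ⟨τ d, mem_filter.2 ⟨hS d hd1, ?_⟩, hττ d hd1⟩
      rw [hr d hd1]
      simpa using hd2
    · intro p _
      rfl
  have hPc : ∀ c, (P.filter (fun d => col d = c)).card = m := by
    intro c
    have h3 := hsum (fun d => if col d = c then 1 else 0)
    rw [← card_filter, h2 c] at h3
    have h4 : ∑ p ∈ P, ((if col p = c then 1 else 0) + (if col (τ p) = c then 1 else 0)) =
        ∑ p ∈ P, 2 * (if col p = c then 1 else 0) := by
      refine sum_congr rfl fun p hp => ?_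
      rw [hcol p (hPS p hp)]
      ring
    rw [h4, ← mul_sum, ← card_filter] at h3
    omega
  -- the bipartite graph
  let T : D → Finset ((W × ℕ) ⊕ (C × ℕ)) := fun p =>
    {Sum.inl (nb p, s p), Sum.inl (nb (τ p), s (τ p))} ∪
      (range (m - 2)).image (fun j => Sum.inr (col p, j))
  let R : Finset ((W × ℕ) ⊕ (C × ℕ)) := (S.image fun d => Sum.inl (nb d, s d)) ∪
      ((univ : Finset C) ×ˢ range (m - 2)).image (fun x => Sum.inr x)
  have hTR : ∀ p ∈ P, T p ⊆ R := by
    intro p hp x hx
    rcases mem_union.1 hx with h | h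
    · refine mem_union_left _ (mem_image.2 ?_)
      rcases mem_insert.1 h with h | h
      · exact ⟨p, hPS p hp, h.symm⟩
      · exact ⟨τ p, hS p (hPS p hp), (mem_singleton.1 h).symm⟩
    · obtain ⟨j, hj, rfl⟩ := mem_image.1 h
      exact mem_union_right _ (mem_image.2 ⟨(col p, j), mem_product.2 ⟨mem_univ _, hj⟩, rfl⟩)
  let wt : D → ((W × ℕ) ⊕ (C × ℕ)) → ℕ := fun p x =>
    (if Sum.inl (nb p, s p) = x then 1 else 0) + (if Sum.inl (nb (τ p), s (τ p)) = x then 1 else 0) +
      ∑ j ∈ range (m - 2), (if Sum.inr (col p, j) = x then 1 else 0)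
  have hwt1 : ∀ (p : D) (N : Finset ((W × ℕ) ⊕ (C × ℕ))), T p ⊆ N → ∑ x ∈ N, wt p x = m := by
    intro p N hN
    have ha : Sum.inl (nb p, s p) ∈ N := hN (by simp [T])
    have hb : Sum.inl (nb (τ p), s (τ p)) ∈ N := hN (by simp [T])
    have hc : ∀ j ∈ range (m - 2), (Sum.inr (col p, j) : (W × ℕ) ⊕ (C × ℕ)) ∈ N := by
      intro j hj
      exact hN (mem_union_right _ (mem_image_of_mem _ hj))
    simp only [wt]
    rw [sum_add_distrib, sum_add_distrib, sum_ite_eq, sum_ite_eq, if_pos ha, if_pos hb, sum_comm]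
    have h3 : ∑ j ∈ range (m - 2), ∑ x ∈ N, (if (Sum.inr (col p, j) : (W × ℕ) ⊕ (C × ℕ)) = x
        then 1 else 0) = ∑ j ∈ range (m - 2), 1 := by
      refine sum_congr rfl fun j hj => ?_
      rw [sum_ite_eq, if_pos (hc j hj)]
    rw [h3, sum_const, card_range, smul_eq_mul, mul_one]
    omega
  have hwt2 : ∀ x ∈ R, ∑ p ∈ P, wt p x = m := by
    intro x hx
    simp only [wt]
    rw [sum_add_distrib, hsum (fun d => if (Sum.inl (nb d, s d) : (W × ℕ) ⊕ (C × ℕ)) = x
      then 1 else 0)]
    rcases mem_union.1 hx with hx | hx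
    · obtain ⟨d0, hd0, rfl⟩ := mem_image.1 hx
      have h3 : ∑ p ∈ P, ∑ i ∈ range (m - 2), (if (Sum.inr (col p, i) : (W × ℕ) ⊕ (C × ℕ)) =
          Sum.inl (nb d0, s d0) then 1 else 0) = 0 := by
        refine sum_eq_zero fun p _ => sum_eq_zero fun i _ => ?_
        rw [if_neg (by simp)]
      rw [h3, add_zero, ← card_filter]
      rw [← hs2 (nb d0) (s d0) (hs1 d0 hd0)]
      congr 1
      refine filter_congr fun d _ => ?_
      simp
    · obtain ⟨⟨c, j⟩, hcj, rfl⟩ := mem_image.1 hx
      have hj : j ∈ range (m - 2) := (mem_product.1 hcj).2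
      have h3 : ∑ d ∈ S, (if (Sum.inl (nb d, s d) : (W × ℕ) ⊕ (C × ℕ)) = Sum.inr (c, j)
          then 1 else 0) = 0 := by
        refine sum_eq_zero fun p _ => ?_
        rw [if_neg (by simp)]
      rw [h3, zero_add]
      refine Eq.trans ?_ (hPc c)
      rw [card_filter]
      refine sum_congr rfl fun p _ => ?_
      by_cases hp : col p = c
      · rw [if_pos hp]
        have h4 : ∀ i ∈ range (m - 2), (if (Sum.inr (col p, i) : (W × ℕ) ⊕ (C × ℕ)) =
            Sum.inr (c, j) then 1 else 0) = (if i = j then 1 else 0) := by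
          intro i _
          by_cases hij : i = j
          · rw [if_pos hij, if_pos (by rw [hp, hij])]
          · rw [if_neg hij, if_neg]
            intro h5
            have h6 : col p = c ∧ i = j := by simpa using h5
            exact hij h6.2
        rw [sum_congr rfl h4, sum_ite_eq', if_pos hj]
      · rw [if_neg hp]
        refine sum_eq_zero fun i _ => ?_
        rw [if_neg]
        intro h5
        have h6 : col p = c ∧ i = j := by simpa using h5
        exact hp h6.1
  -- Hall
  have hHall : ∀ A : Finset {p // p ∈ P}, A.card ≤ (A.biUnion (fun p => T p.1)).card := by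
    intro A
    have h3 : ∑ p ∈ A, m = ∑ p ∈ A, ∑ x ∈ A.biUnion (fun p => T p.1), wt p.1 x := by
      refine sum_congr rfl fun p hp => ?_
      rw [hwt1 p.1 _ (subset_biUnion_of_mem (fun p : {p // p ∈ P} => T p.1) hp)]
    have h4 : ∑ p ∈ A, ∑ x ∈ A.biUnion (fun p => T p.1), wt p.1 x ≤
        ∑ x ∈ A.biUnion (fun p => T p.1), m := by
      rw [sum_comm]
      refine sum_le_sum fun x hx => ?_
      obtain ⟨p0, _, hx0⟩ := mem_biUnion.1 hx
      refine le_trans ?_ (le_of_eq (hwt2 x (hTR p0.1 p0.2 hx0)))
      rw [← sum_coe_sort P (fun p => wt p x)]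
      exact sum_le_sum_of_subset (subset_univ A)
    rw [← h3, sum_const, sum_const, smul_eq_mul, smul_eq_mul] at h4
    exact Nat.le_of_mul_le_mul_right h4 (by omega)
  obtain ⟨f, hf1, hf2⟩ := (Finset.all_card_le_biUnion_card_iff_exists_injective
    (fun p : {p // p ∈ P} => T p.1)).1 hHall
  -- `f` is onto `R`
  have hcard : P.card = R.card := by
    have h3 : ∑ p ∈ P, ∑ x ∈ R, wt p x = ∑ x ∈ R, ∑ p ∈ P, wt p x := sum_comm
    rw [sum_congr rfl (fun p hp => hwt1 p R (hTR p hp)), sum_congr rfl hwt2, sum_const, sum_const,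
      smul_eq_mul, smul_eq_mul] at h3
    exact Nat.eq_of_mul_eq_mul_right (by omega) h3
  have himg : (univ : Finset {p // p ∈ P}).image f = R := by
    refine eq_of_subset_of_card_le ?_ ?_
    · intro x hx
      obtain ⟨p, _, rfl⟩ := mem_image.1 hx
      exact hTR p.1 p.2 (hf2 p)
    · rw [card_image_of_injective _ hf1, card_univ, Fintype.card_coe, hcard]
  have hsurj : ∀ x ∈ R, ∃ p : {p // p ∈ P}, f p = x := by
    intro x hx
    rw [← himg] at hx
    obtain ⟨p, _, h⟩ := mem_image.1 hx
    exact ⟨p, h⟩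
  -- the chosen dart of a pair
  let g : {p // p ∈ P} → D := fun p => if f p = Sum.inl (nb p.1, s p.1) then p.1 else τ p.1
  have hg0 : ∀ p, g p = p.1 ∨ g p = τ p.1 := by
    intro p
    simp only [g]
    split_ifs
    · exact Or.inl rfl
    · exact Or.inr rfl
  have hgS : ∀ p, g p ∈ S := by
    intro p
    rcases hg0 p with h | h
    · rw [h]; exact hPS _ p.2
    · rw [h]; exact hS _ (hPS _ p.2)
  have hgcol : ∀ p, col (g p) = col p.1 := by
    intro p
    rcases hg0 p with h | h
    · rw [h]
    · rw [h, hcol _ (hPS _ p.2)]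
  have hginj : ∀ p q, (g p = g q ∨ τ (g p) = g q) → p = q := by
    intro p q h
    have hp := hPS _ p.2
    have hq := hPS _ q.2
    have h3 : p.1 = q.1 ∨ p.1 = τ q.1 := by
      rcases hg0 p with h4 | h4 <;> rcases hg0 q with h5 | h5 <;> rw [h4, h5] at h
      · rcases h with h | h
        · exact Or.inl h
        · refine Or.inr ?_
          rw [← h, hττ _ hp]
      · rcases h with h | h
        · exact Or.inr h
        · refine Or.inl ?_
          rw [← hττ _ hp, h, hττ _ hq]
      · rcases h with h | h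
        · refine Or.inr ?_
          rw [← h, hττ _ hp]
        · rw [hττ _ hp] at h
          exact Or.inl h
      · rcases h with h | h
        · refine Or.inl ?_
          rw [← hττ _ hp, h, hττ _ hq]
        · rw [hττ _ hp] at h
          exact Or.inr h
    rcases h3 with h3 | h3
    · exact Subtype.ext h3
    · exfalso
      have h4 := hr _ hq
      rw [← h3, hPr _ p.2, hPr _ q.2] at h4
      exact absurd h4 (by decide)
  have hgf : ∀ p w j, f p = Sum.inl (w, j) → nb (g p) = w ∧ s (g p) = j := by
    intro p w j h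
    by_cases h3 : f p = Sum.inl (nb p.1, s p.1)
    · have h4 : g p = p.1 := if_pos h3
      rw [h4]
      rw [h] at h3
      have h5 : w = nb p.1 ∧ j = s p.1 := by simpa using h3
      exact ⟨h5.1.symm, h5.2.symm⟩
    · have h4 : g p = τ p.1 := if_neg h3
      rw [h4]
      have h5 := hf2 p
      rw [h] at h5 h3
      rcases mem_union.1 h5 with h6 | h6
      · rcases mem_insert.1 h6 with h7 | h7
        · exact absurd h7 h3
        · have h8 := mem_singleton.1 h7
          have h9 : w = nb (τ p.1) ∧ j = s (τ p.1) := by simpa using h8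
          exact ⟨h9.1.symm, h9.2.symm⟩
      · obtain ⟨i, _, h7⟩ := mem_image.1 h6
        exact absurd h7 (by simp)
  let X : Finset D := ((univ : Finset {p // p ∈ P}).filter (fun p => (f p).isLeft = true)).image g
  have hginj' : Function.Injective g := fun p q h => hginj p q (Or.inl h)
  refine ⟨X, ?_, ?_, ?_, ?_⟩
  · intro d hd
    obtain ⟨p, _, rfl⟩ := mem_image.1 hd
    exact hgS p
  · intro w
    refine Eq.trans ?_ (card_range (n w))
    refine card_bij (fun d _ => s d) ?_ ?_ ?_
    · intro d hd
      obtain ⟨h3, h4⟩ := mem_filter.1 hd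
      obtain ⟨p, _, rfl⟩ := mem_image.1 h3
      rw [mem_range, ← h4]
      exact hs1 _ (hgS p)
    · intro d hd d' hd' h
      obtain ⟨h3, h4⟩ := mem_filter.1 hd
      obtain ⟨h5, h6⟩ := mem_filter.1 hd'
      obtain ⟨p, hp, rfl⟩ := mem_image.1 h3
      obtain ⟨q, hq, rfl⟩ := mem_image.1 h5
      have key : ∀ p : {p // p ∈ P}, (f p).isLeft = true → f p = Sum.inl (nb (g p), s (g p)) := by
        intro p hp
        obtain ⟨⟨w', j'⟩, h7⟩ := Sum.isLeft_iff.1 hp
        obtain ⟨h8, h9⟩ := hgf p w' j' h7
        rw [h7, h8, h9]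
      have h7 : f p = f q := by
        rw [key p (mem_filter.1 hp).2, key q (mem_filter.1 hq).2, h4, h6]
        have h8 : s (g p) = s (g q) := h
        rw [h8]
      rw [hf1 h7]
    · intro j hj
      have hj' := mem_range.1 hj
      have h3 : (S.filter (fun d => nb d = w ∧ s d = j)).Nonempty := by
        rw [← card_pos, hs2 w j hj']
        omega
      obtain ⟨d, hd⟩ := h3
      obtain ⟨hd1, hd2, hd3⟩ := mem_filter.1 hd
      obtain ⟨p, hp⟩ := hsurj (Sum.inl (w, j)) (mem_union_left _ (mem_image.2 ⟨d, hd1, by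
        rw [hd2, hd3]⟩))
      obtain ⟨h4, h5⟩ := hgf p w j hp
      refine ⟨g p, mem_filter.2 ⟨mem_image.2 ⟨p, mem_filter.2 ⟨mem_univ _, by rw [hp]; rfl⟩,
        rfl⟩, h4⟩, h5⟩
  · intro c
    have h3 : X.filter (fun d => col d = c) =
        ((univ : Finset {p // p ∈ P}).filter (fun p => (f p).isLeft = true ∧ col p.1 = c)).image g := by
      ext d
      constructor
      · intro hd
        obtain ⟨h3, h4⟩ := mem_filter.1 hd
        obtain ⟨p, hp, rfl⟩ := mem_image.1 h3
        refine mem_image.2 ⟨p, mem_filter.2 ⟨mem_univ _, (mem_filter.1 hp).2, ?_⟩, rfl⟩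
        rw [← hgcol p, h4]
      · intro hd
        obtain ⟨p, hp, rfl⟩ := mem_image.1 hd
        obtain ⟨-, h4, h5⟩ := mem_filter.1 hp
        refine mem_filter.2 ⟨mem_image.2 ⟨p, mem_filter.2 ⟨mem_univ _, h4⟩, rfl⟩, ?_⟩
        rw [hgcol p, h5]
    rw [h3, card_image_of_injective _ hginj']
    have h4 : ((univ : Finset {p // p ∈ P}).filter (fun p => col p.1 = c)).card = m := by
      rw [← hPc c]
      refine card_bij (fun p _ => p.1) ?_ ?_ ?_
      · intro p hp
        exact mem_filter.2 ⟨p.2, (mem_filter.1 hp).2⟩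
      · intro p _ q _ h
        exact Subtype.ext h
      · intro d hd
        obtain ⟨h5, h6⟩ := mem_filter.1 hd
        exact ⟨⟨d, h5⟩, mem_filter.2 ⟨mem_univ _, h6⟩, rfl⟩
    have h5 : ((univ : Finset {p // p ∈ P}).filter
        (fun p => ¬ (f p).isLeft = true ∧ col p.1 = c)).card = m - 2 := by
      rw [← card_range (m - 2)]
      symm
      have h6 : ∀ j ∈ range (m - 2), (Sum.inr (c, j) : (W × ℕ) ⊕ (C × ℕ)) ∈ R := fun j hj =>
        mem_union_right _ (mem_image.2 ⟨(c, j), mem_product.2 ⟨mem_univ _, hj⟩, rfl⟩)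
      refine card_bij (fun j hj => Classical.choose (hsurj _ (h6 j hj))) ?_ ?_ ?_
      · intro j hj
        have h7 := Classical.choose_spec (hsurj _ (h6 j hj))
        refine mem_filter.2 ⟨mem_univ _, ?_, ?_⟩
        · rw [h7]
          exact Bool.false_ne_true
        · have h8 := hf2 (Classical.choose (hsurj _ (h6 j hj)))
          rw [h7] at h8
          rcases mem_union.1 h8 with h9 | h9
          · rcases mem_insert.1 h9 with h10 | h10
            · exact absurd h10 (by simp)
            · exact absurd (mem_singleton.1 h10) (by simp)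
          · obtain ⟨i, _, h10⟩ := mem_image.1 h9
            have h11 : col (Classical.choose (hsurj _ (h6 j hj))).1 = c ∧ i = j := by
              simpa using h10
            exact h11.1
      · intro i hi j hj h
        have h7 := Classical.choose_spec (hsurj _ (h6 i hi))
        have h8 := Classical.choose_spec (hsurj _ (h6 j hj))
        have h0 : Classical.choose (hsurj _ (h6 i hi)) = Classical.choose (hsurj _ (h6 j hj)) := h
        rw [h0, h8] at h7
        have h9 : j = i := by simpa using h7
        exact h9.symm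
      · intro p hp
        obtain ⟨-, h7, h8⟩ := mem_filter.1 hp
        have h9 : (f p).isRight = true := by
          rcases hfp : f p with a | a
          · rw [hfp] at h7
            exact absurd rfl h7
          · rfl
        obtain ⟨⟨c', j⟩, h10⟩ := Sum.isRight_iff.1 h9
        have h11 := hf2 p
        rw [h10] at h11
        rcases mem_union.1 h11 with h12 | h12
        · rcases mem_insert.1 h12 with h13 | h13
          · exact absurd h13 (by simp)
          · exact absurd (mem_singleton.1 h13) (by simp)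
        · obtain ⟨i, hi, h13⟩ := mem_image.1 h12
          have h14 : col p.1 = c' ∧ i = j := by simpa using h13
          have hj : j ∈ range (m - 2) := h14.2 ▸ hi
          refine ⟨j, hj, ?_⟩
          have h15 := Classical.choose_spec (hsurj _ (h6 j hj))
          refine hf1 ?_
          rw [h15, h10, ← h14.1, h8]
    have h6 := card_filter_add_card_filter_not (s := (univ : Finset {p // p ∈ P}).filter
      (fun p => col p.1 = c)) (fun p => (f p).isLeft = true)
    rw [filter_filter, filter_filter, h4] at h6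
    have h7 : ((univ : Finset {p // p ∈ P}).filter
        (fun p => col p.1 = c ∧ ¬ (f p).isLeft = true)).card = m - 2 := by
      rw [← h5]
      congr 1
      exact filter_congr fun p _ => and_comm
    have h8 : ((univ : Finset {p // p ∈ P}).filter
        (fun p => (f p).isLeft = true ∧ col p.1 = c)).card = ((univ : Finset {p // p ∈ P}).filter
        (fun p => col p.1 = c ∧ (f p).isLeft = true)).card := by
      congr 1
      exact filter_congr fun p _ => and_comm
    rw [h8]
    omega
  · intro d hd hd'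
    obtain ⟨p, hp, rfl⟩ := mem_image.1 hd
    obtain ⟨q, hq, h⟩ := mem_image.1 hd'
    have h3 := hginj p q (Or.inr h.symm)
    subst h3
    have h4 := hr _ (hgS p)
    rw [← h] at h4
    exact absurd h4 (by cases r (g p) <;> decide)

end Pool.Agent.Q251.LA
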