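import Pool.Agent.H79.LA.Q251_LO_Core
import Pool.Agent.H79.LA.Q251_LA_Col

/-!
# A colouring of the parallel edges with one class of half degree
-/

set_option autoImplicit false

namespace Pool.Agent.Q251.LO

open Finset SimpleGraph Pool.Agent.Q251.LA

open Classical in
theorem nbr_sum {V : Type} [Fintype V] (G : SimpleGraph V) (r : ℕ)
    (hdeg : ∀ v, (G.neighborSet v).ncard = r) (v : V) :
    ∑ w, (if G.Adj v w then 1 else 0) = r := by
  rw [← card_filter, ← hdeg v]
  have h5 : G.neighborSet v = ((univ.filter (fun u => G.Adj v u) : Finset V) : Set V) := by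
    ext u
    simp
  rw [h5, Set.ncard_coe_finset]

open Classical in
theorem third {V J : Type} [Fintype V] [Fintype J] {K C : Type} [Fintype K] (G : SimpleGraph V)
    (g : V → V → Bool → K)
    (hg : ∀ v i, (univ.filter (fun p : V × Bool => G.Adj v p.1 ∧ g v p.1 p.2 = i)).card = 2)
    (A : J × K → C) (v : V) (c : C) :
    (univ.filter (fun p : V × (Bool × J) => G.Adj v p.1 ∧ A (p.2.2, g v p.1 p.2.1) = c)).card =
      2 * (univ.filter (fun x => A x = c)).card := by
  rw [card_eq_sum_card_fiberwise (f := fun p : V × (Bool × J) => (p.2.2, g v p.1 p.2.1))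
    (t := univ.filter (fun x => A x = c))]
  · rw [sum_congr rfl (g := fun _ => 2), sum_const, smul_eq_mul, mul_comm]
    intro x _
    rw [← hg v x.2]
    refine card_bij (fun p _ => (p.1, p.2.1)) ?_ ?_ ?_
    · intro p hp
      obtain ⟨h1, h2⟩ := mem_filter.1 hp
      exact mem_filter.2 ⟨mem_univ _, (mem_filter.1 h1).2.1, congrArg Prod.snd h2⟩
    · intro p hp q hq h
      have h1 : p.2.2 = q.2.2 := (congrArg Prod.fst (mem_filter.1 hp).2).trans
        (congrArg Prod.fst (mem_filter.1 hq).2).symm
      have h2 := Prod.ext_iff.1 h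
      exact Prod.ext h2.1 (Prod.ext h2.2 h1)
    · intro q hq
      obtain ⟨-, h1, h2⟩ := mem_filter.1 hq
      by_cases hx : A x = c
      · refine ⟨(q.1, (q.2, x.1)), mem_filter.2 ⟨mem_filter.2 ⟨mem_univ _, h1, ?_⟩, ?_⟩, rfl⟩
        · show A (x.1, g v q.1 q.2) = c
          rw [h2]
          exact hx
        · show (x.1, g v q.1 q.2) = x
          rw [h2]
      · rename_i hx'
        exact absurd (mem_filter.1 hx').2 hx
  · intro p hp
    exact mem_filter.2 ⟨mem_univ _, (mem_filter.1 hp).2.2⟩

open Classical in
theorem colour {V : Type} [Fintype V] (G : SimpleGraph V) (r m κ t : ℕ) [NeZero r]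
    (hm : m = r + 2 * t) (hκ : r * m = 2 * κ + 1) (hdeg : ∀ v, (G.neighborSet v).ncard = r) :
    ∃ f : V → V → Fin m × Fin m → Option (Fin κ), (∀ v u ab, f v u ab = f u v ab) ∧
      (∀ v (c : Fin κ), (univ.filter (fun p : V × (Fin m × Fin m) => G.Adj v p.1 ∧
        f v p.1 p.2 = some c)).card = 2 * m) ∧
      (∀ v, (univ.filter (fun p : V × (Fin m × Fin m) => G.Adj v p.1 ∧
        f v p.1 p.2 = none)).card = m) ∧
      ∀ v u (c : Fin κ), ∃ ab, f v u ab = some c := by
  obtain ⟨g, hg1, hg2⟩ := col_dbl G r hdeg
  have e : (Fin m × Fin m) ≃ ((Option (Fin κ) ⊕ Fin κ) ⊕ (Bool × Fin (m * t))) := by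
    refine Fintype.equivOfCardEq ?_
    rw [Fintype.card_prod, Fintype.card_sum, Fintype.card_sum, Fintype.card_option,
      Fintype.card_prod, Fintype.card_bool, Fintype.card_fin, Fintype.card_fin, Fintype.card_fin]
    have h1 : m * m = r * m + 2 * (m * t) := by
      nth_rewrite 1 [hm]
      ring
    omega
  have eA : (Fin (m * t) × ZMod r) ≃ ((Fin κ × Fin (2 * t)) ⊕ Fin t) := by
    refine Fintype.equivOfCardEq ?_
    rw [Fintype.card_prod, Fintype.card_sum, Fintype.card_prod, Fintype.card_fin, Fintype.card_fin,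
      Fintype.card_fin, Fintype.card_fin, ZMod.card]
    calc m * t * r = r * m * t := by ring
      _ = (2 * κ + 1) * t := by rw [hκ]
      _ = κ * (2 * t) + t := by ring
  let A : Fin (m * t) × ZMod r → Option (Fin κ) := fun x =>
    Sum.elim (fun y : Fin κ × Fin (2 * t) => some y.1) (fun _ => none) (eA x)
  have hA1 : ∀ c : Fin κ, (univ.filter (fun x => A x = some c)).card = 2 * t := by
    intro c
    rw [card_filter, Equiv.sum_comp eA (fun y => if Sum.elim (fun y : Fin κ × Fin (2 * t) =>
      some y.1) (fun _ : Fin t => (none : Option (Fin κ))) y = some c then 1 else 0),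
      Fintype.sum_sum_type]
    simp only [Sum.elim_inl, Sum.elim_inr, Option.some_inj]
    rw [Fintype.sum_prod_type]
    have h3 : ∀ x : Fin κ, ∑ _y : Fin (2 * t), (if x = c then 1 else 0) =
        if x = c then 2 * t else 0 := by
      intro x
      split_ifs <;> simp
    simp only [h3]
    simp
  have hA2 : (univ.filter (fun x => A x = none)).card = t := by
    rw [card_filter, Equiv.sum_comp eA (fun y => if Sum.elim (fun y : Fin κ × Fin (2 * t) =>
      some y.1) (fun _ : Fin t => (none : Option (Fin κ))) y = none then 1 else 0),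
      Fintype.sum_sum_type]
    simp
  let F : V → V → ((Option (Fin κ) ⊕ Fin κ) ⊕ (Bool × Fin (m * t))) → Option (Fin κ) :=
    fun v u => Sum.elim (Sum.elim id some) (fun y => A (y.2, g v u y.1))
  let f : V → V → Fin m × Fin m → Option (Fin κ) := fun v u ab => F v u (e ab)
  have hcount : ∀ v c, (univ.filter (fun p : V × (Fin m × Fin m) => G.Adj v p.1 ∧
      f v p.1 p.2 = c)).card = r + r * (univ.filter (fun c' : Fin κ => some c' = c)).card +
        2 * (univ.filter (fun x => A x = c)).card := by
    intro v c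
    rw [card_filter, Fintype.sum_prod_type]
    have h1 : ∀ u : V, ∑ ab : Fin m × Fin m, (if G.Adj v u ∧ f v u ab = c then 1 else 0) =
        (∑ o : Option (Fin κ), (if G.Adj v u ∧ o = c then 1 else 0) +
          ∑ c' : Fin κ, (if G.Adj v u ∧ some c' = c then 1 else 0)) +
          ∑ y : Bool × Fin (m * t), (if G.Adj v u ∧ A (y.2, g v u y.1) = c then 1 else 0) := by
      intro u
      rw [Equiv.sum_comp e (fun x => if G.Adj v u ∧ F v u x = c then 1 else 0),
        Fintype.sum_sum_type, Fintype.sum_sum_type]
      rfl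
    show ∑ u : V, ∑ ab : Fin m × Fin m, (if G.Adj v u ∧ f v u ab = c then 1 else 0) = _
    rw [sum_congr rfl (fun u _ => h1 u), sum_add_distrib, sum_add_distrib]
    congr 1
    · congr 1
      · rw [← nbr_sum G r hdeg v]
        refine sum_congr rfl fun u _ => ?_
        by_cases hu : G.Adj v u
        · simp [hu]
        · simp [hu]
      · rw [← nbr_sum G r hdeg v, sum_mul]
        refine sum_congr rfl fun u _ => ?_
        by_cases hu : G.Adj v u
        · simp [hu]
        · simp [hu]
    · have h2 := third G g (fun v i => by convert hg2 v i) A v c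
      rw [card_filter, Fintype.sum_prod_type] at h2
      convert h2
  refine ⟨f, ?_, ?_, ?_, ?_⟩
  · intro v u ab
    show F v u (e ab) = F u v (e ab)
    have h1 : g v u = g u v := funext fun b => hg1 v u b
    simp only [F, h1]
  · intro v c
    rw [hcount, hA1]
    have h1 : (univ.filter (fun c' : Fin κ => some c' = some c)).card = 1 := by
      have h2 : univ.filter (fun c' : Fin κ => some c' = some c) = {c} := by
        ext c'
        simp
      rw [h2, card_singleton]
    rw [h1, hm]
    ring
  · intro v
    rw [hcount, hA2]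
    have h1 : (univ.filter (fun c' : Fin κ => some c' = none)).card = 0 := by
      simp
    rw [h1, hm]
    ring
  · intro v u c
    refine ⟨e.symm (Sum.inl (Sum.inr c)), ?_⟩
    show F v u (e (e.symm (Sum.inl (Sum.inr c)))) = some c
    rw [Equiv.apply_symm_apply]
    rfl

end Pool.Agent.Q251.LO
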