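import Pool.Agent.H79.LA.Q251_LA_Core
import Pool.Agent.H79.LA.Q251_LO_Iter

/-!
# Factorisations of odd blow-ups into a perfect matching and 2-factors
-/

set_option autoImplicit false

namespace Pool.Agent.Q251.LO

open Finset SimpleGraph Pool.Agent.Q251.LA

section

variable {V C : Type} {G : SimpleGraph V} {m : ℕ}

open Classical in
/-- **Detachment of a coloured multiple graph.** -/
theorem coreO [Fintype V] [Fintype C] [NeZero m] (f : V → V → Fin m × Fin m → Option C)
    (hf : ∀ v u ab, f v u ab = f u v ab)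
    (hdeg : ∀ v (c : C), (univ.filter (fun p : V × (Fin m × Fin m) => G.Adj v p.1 ∧
      f v p.1 p.2 = some c)).card = 2 * m)
    (hdeg0 : ∀ v, (univ.filter (fun p : V × (Fin m × Fin m) => G.Adj v p.1 ∧
      f v p.1 p.2 = none)).card = m) :
    ∃ H : Option C → SimpleGraph (V × Fin m),
      (∀ (c : C) x, ((H (some c)).neighborSet x).ncard = 2) ∧
      (∀ x, ((H none).neighborSet x).ncard = 1) ∧ (⨆ c, H c) = blow G m ∧
      ∀ (c : C) x y, (sup0 G m f (some c)).Reachable x.1 y.1 → (H (some c)).Reachable x y := by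
  let D : Type := {p : V × V // G.Adj p.1 p.2} × (Fin m × Fin m)
  let ι : D → D := fun d => (⟨(d.1.1.2, d.1.1.1), d.1.2.symm⟩, d.2)
  let b : D → V := fun d => d.1.1.1
  let col : D → Option C := fun d => f d.1.1.1 d.1.1.2 d.2
  let Q : C → SimpleGraph V := fun c => sup0 G m f (some c)
  let μ : V × Fin m → ℕ := fun x => if x.2 = 0 then m else 0
  let loc : D → V × Fin m := fun d => (d.1.1.1, 0)
  have hι : ∀ d, ι (ι d) = d := fun d => rfl
  have hG : ∀ d, G.Adj (b d) (b (ι d)) := fun d => d.1.2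
  have hc : ∀ d, col (ι d) = col d := fun d => hf _ _ _
  have hdc : ∀ (c : Option C) (q : ℕ), (∀ v, (univ.filter (fun p : V × (Fin m × Fin m) =>
      G.Adj v p.1 ∧ f v p.1 p.2 = c)).card = q * m) → ∀ x : V × Fin m,
      (univ.filter (fun d => loc d = x ∧ col d = c)).card = q * μ x := by
    intro c q hq x
    by_cases hx : x.2 = 0
    swap
    · have h1 : μ x = 0 := if_neg hx
      rw [h1, mul_zero, card_eq_zero, filter_eq_empty_iff]
      rintro d - ⟨h2, -⟩
      exact hx (by rw [← h2])
    have h1 : μ x = m := if_pos hx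
    rw [h1, ← hq x.1]
    refine card_bij (fun d _ => (d.1.1.2, d.2)) ?_ ?_ ?_
    · intro d hd
      obtain ⟨-, h5, h6⟩ := mem_filter.1 hd
      have h7 : d.1.1.1 = x.1 := congrArg Prod.fst h5
      refine mem_filter.2 ⟨mem_univ _, ?_, ?_⟩
      · show G.Adj x.1 d.1.1.2
        rw [← h7]
        exact d.1.2
      · show f x.1 d.1.1.2 d.2 = c
        rw [← h7]
        exact h6
    · intro d hd d' hd' h4
      obtain ⟨-, h5, -⟩ := mem_filter.1 hd
      obtain ⟨-, h7, -⟩ := mem_filter.1 hd'
      have h8 : d.1.1.2 = d'.1.1.2 ∧ d.2 = d'.2 := Prod.ext_iff.1 h4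
      refine Prod.ext (Subtype.ext (Prod.ext ?_ ?_)) h8.2
      · exact (congrArg Prod.fst h5).trans (congrArg Prod.fst h7).symm
      · exact h8.1
    · intro p hp
      obtain ⟨-, h5, h6⟩ := mem_filter.1 hp
      exact ⟨(⟨(x.1, p.1), h5⟩, p.2), mem_filter.2 ⟨mem_univ _, Prod.ext rfl hx.symm, h6⟩, rfl⟩
  have hSt : StO G m ι b col Q μ loc := by
    refine ⟨fun d => rfl, ?_, ?_, ?_, ?_, ?_⟩
    · intro x y hxy
      by_cases hx : x.2 = 0
      swap
      · have h1 : μ x = 0 := if_neg hx
        rw [h1, zero_mul, card_eq_zero, filter_eq_empty_iff]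
        rintro d - ⟨h2, -⟩
        exact hx (by rw [← h2])
      by_cases hy : y.2 = 0
      swap
      · have h1 : μ y = 0 := if_neg hy
        rw [h1, mul_zero, card_eq_zero, filter_eq_empty_iff]
        rintro d - ⟨-, h2⟩
        exact hy (by rw [← h2])
      have h1 : μ x = m := if_pos hx
      have h2 : μ y = m := if_pos hy
      rw [h1, h2]
      have h3 : (univ : Finset (Fin m × Fin m)).card = m * m := by
        rw [card_univ, Fintype.card_prod, Fintype.card_fin]
      rw [← h3]
      refine card_bij (fun d _ => d.2) ?_ ?_ ?_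
      · intro d _
        exact mem_univ _
      · intro d hd d' hd' h4
        obtain ⟨-, h5, h6⟩ := mem_filter.1 hd
        obtain ⟨-, h7, h8⟩ := mem_filter.1 hd'
        refine Prod.ext (Subtype.ext (Prod.ext ?_ ?_)) h4
        · exact (congrArg Prod.fst h5).trans (congrArg Prod.fst h7).symm
        · exact (congrArg Prod.fst h6).trans (congrArg Prod.fst h8).symm
      · intro ab _
        refine ⟨(⟨(x.1, y.1), hxy⟩, ab), mem_filter.2 ⟨mem_univ _, ?_, ?_⟩, rfl⟩
        · exact Prod.ext rfl hx.symm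
        · exact Prod.ext rfl hy.symm
    · intro c x
      exact hdc (some c) 2 (fun v => hdeg v c) x
    · intro x
      have h3 := hdc none 1 (fun v => by rw [one_mul]; exact hdeg0 v) x
      rw [one_mul] at h3
      exact h3
    · intro c x y hx hy hxy
      have hx0 : x.2 = 0 := by
        by_contra h1
        exact hx (if_neg h1)
      have hy0 : y.2 = 0 := by
        by_contra h1
        exact hy (if_neg h1)
      have h1 : ∀ v u, (Q c).Reachable v u → (gr ι col loc (some c)).Reachable (v, 0) (u, 0) := by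
        intro v u h
        rw [SimpleGraph.reachable_iff_reflTransGen] at h
        induction h with
        | refl => exact SimpleGraph.Reachable.refl _
        | @tail v' u' _ h4 ih =>
          refine ih.trans (SimpleGraph.Adj.reachable ?_)
          have h5 : (sup0 G m f (some c)).Adj v' u' := h4
          rw [sup0, SimpleGraph.fromRel_adj] at h5
          rw [gr, SimpleGraph.fromRel_adj]
          refine ⟨fun h6 => h5.1 (congrArg Prod.fst h6), ?_⟩
          rcases h5.2 with ⟨h6, ab, h7⟩ | ⟨h6, ab, h7⟩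
          · exact Or.inl ⟨(⟨(v', u'), h6⟩, ab), h7, rfl, rfl⟩
          · exact Or.inr ⟨(⟨(u', v'), h6⟩, ab), h7, rfl, rfl⟩
      have h2 := h1 x.1 y.1 hxy
      rw [← hx0] at h2
      have h3 : (y.1, x.2) = y := Prod.ext rfl (hx0.trans hy0.symm)
      rw [h3] at h2
      exact h2
    · intro v
      show ∑ i : Fin m, (if i = 0 then m else 0) = m
      rw [sum_ite_eq', if_pos (mem_univ _)]
  obtain ⟨loc', h⟩ := detachO hι hG hc _ μ loc le_rfl hSt
  have hadj : ∀ c x y, (gr ι col loc' c).Adj x y ↔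
      ∃ d, col d = c ∧ loc' d = x ∧ loc' (ι d) = y := by
    intro c x y
    rw [gr, SimpleGraph.fromRel_adj]
    constructor
    · rintro ⟨-, ⟨d, h1, h2, h3⟩ | ⟨d, h1, h2, h3⟩⟩
      · exact ⟨d, h1, h2, h3⟩
      · exact ⟨ι d, (hc d).trans h1, h3, by rw [hι]; exact h2⟩
    · rintro ⟨d, h1, rfl, rfl⟩
      refine ⟨fun h4 => ?_, Or.inl ⟨d, h1, rfl, rfl⟩⟩
      have h5 := hG d
      rw [← h.base d, ← h.base (ι d), h4] at h5
      exact G.irrefl h5
  have huniq : ∀ d d', loc' d = loc' d' → loc' (ι d) = loc' (ι d') → d = d' := by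
    intro d d' h1 h2
    have h3 : G.Adj (loc' d).1 (loc' (ι d)).1 := by
      rw [h.base, h.base]
      exact hG d
    have h4 := h.cnt _ _ h3
    rw [mul_one, card_eq_one] at h4
    obtain ⟨a, ha⟩ := h4
    have h5 : d ∈ ({a} : Finset D) := by
      rw [← ha]
      exact mem_filter.2 ⟨mem_univ _, rfl, rfl⟩
    have h6 : d' ∈ ({a} : Finset D) := by
      rw [← ha]
      exact mem_filter.2 ⟨mem_univ _, h1.symm, h2.symm⟩
    rw [mem_singleton.1 h5, mem_singleton.1 h6]
  have hnb : ∀ (c : Option C) (q : ℕ) (x : V × Fin m),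
      (univ.filter (fun d => loc' d = x ∧ col d = c)).card = q →
      ((gr ι col loc' c).neighborSet x).ncard = q := by
    intro c q x hq
    have h1 : (gr ι col loc' c).neighborSet x =
        ((univ.filter (fun d => loc' d = x ∧ col d = c)).image (fun d => loc' (ι d)) :
          Finset (V × Fin m)) := by
      ext y
      rw [SimpleGraph.mem_neighborSet, hadj, mem_coe, mem_image]
      constructor
      · rintro ⟨d, h2, h3, h4⟩
        exact ⟨d, mem_filter.2 ⟨mem_univ _, h3, h2⟩, h4⟩
      · rintro ⟨d, h2, h3⟩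
        obtain ⟨-, h4, h5⟩ := mem_filter.1 h2
        exact ⟨d, h5, h4, h3⟩
    rw [h1, Set.ncard_coe_finset, card_image_of_injOn]
    · exact hq
    · intro d hd d' hd' h2
      rw [mem_coe] at hd hd'
      exact huniq d d' ((mem_filter.1 hd).2.1.trans (mem_filter.1 hd').2.1.symm) h2
  refine ⟨gr ι col loc', ?_, ?_, ?_, ?_⟩
  · intro c x
    exact hnb _ _ _ (h.deg c x)
  · intro x
    exact hnb _ _ _ (h.deg0 x)
  · ext x y
    rw [SimpleGraph.iSup_adj]
    show _ ↔ G.Adj x.1 y.1
    constructor
    · rintro ⟨c, h1⟩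
      obtain ⟨d, -, rfl, rfl⟩ := (hadj c x y).1 h1
      rw [h.base, h.base]
      exact hG d
    · intro h1
      have h2 := h.cnt x y h1
      rw [mul_one, card_eq_one] at h2
      obtain ⟨a, ha⟩ := h2
      have h3 : a ∈ univ.filter (fun d => loc' d = x ∧ loc' (ι d) = y) := by
        rw [ha]
        exact mem_singleton_self a
      obtain ⟨-, h4, h5⟩ := mem_filter.1 h3
      exact ⟨col a, (hadj _ _ _).2 ⟨a, rfl, h4, h5⟩⟩
  · intro c x y hxy
    exact h.con c x y one_ne_zero one_ne_zero hxy

end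

end Pool.Agent.Q251.LO
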