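import Pool.Agent.H79.LA.Q251_LA_Step
import Pool.Agent.H79.LA.Q251_LO_Sel

/-!
# Detaching one vertex from an amalgamated graph, with a matching class

Darts `d : D` with the reversal `ι`, base vertices `b d`, colours `col d`, and places `loc d`. The
vertex `x` of the amalgamated graph stands for `μ x` vertices of the blow-up.
-/

set_option autoImplicit false

namespace Pool.Agent.Q251.LO

open Finset SimpleGraph Pool.Agent.Q251.LA

open Classical in
/-- The state of the detachment. -/
structure StO {V D C : Type} [Fintype D] (G : SimpleGraph V) (m : ℕ) (ι : D → D) (b : D → V)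
    (col : D → Option C) (Q : C → SimpleGraph V) (μ : V × Fin m → ℕ) (loc : D → V × Fin m) : Prop where
  base : ∀ d, (loc d).1 = b d
  cnt : ∀ x y : V × Fin m, G.Adj x.1 y.1 →
    (univ.filter (fun d => loc d = x ∧ loc (ι d) = y)).card = μ x * μ y
  deg : ∀ (c : C) (x : V × Fin m),
    (univ.filter (fun d => loc d = x ∧ col d = some c)).card = 2 * μ x
  deg0 : ∀ x : V × Fin m, (univ.filter (fun d => loc d = x ∧ col d = none)).card = μ x
  con : ∀ (c : C) (x y : V × Fin m), μ x ≠ 0 → μ y ≠ 0 → (Q c).Reachable x.1 y.1 →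
    (gr ι col loc (some c)).Reachable x y
  tot : ∀ v, ∑ i, μ (v, i) = m

section

variable {V D C : Type} [Fintype D] {G : SimpleGraph V} {m : ℕ} {ι : D → D} {b : D → V}
  {col : D → Option C} {Q : C → SimpleGraph V} {μ : V × Fin m → ℕ} {loc : D → V × Fin m}

open Classical in
/-- The classes of the darts at `v0` (same colour, same component without `v0`) are even. -/
theorem cls_evenO [Fintype C] [Fintype V] (hι : ∀ d, ι (ι d) = d) (hG : ∀ d, G.Adj (b d) (b (ι d)))
    (hc : ∀ d, col (ι d) = col d) (h : StO G m ι b col Q μ loc) (v0 : V × Fin m)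
    (c0 : C) (K : Set (V × Fin m)) :
    Even ((univ.filter (fun d => loc d = v0)).filter (fun d =>
      (col d, {x | (gm ι col loc v0 (col d)).Reachable (loc (ι d)) x}) = (some c0, K))).card := by
  obtain ⟨c, hc0⟩ : ∃ c : Option C, c = some c0 := ⟨_, rfl⟩
  rw [← hc0]
  by_cases hne : ((univ.filter (fun d => loc d = v0)).filter (fun d =>
      (col d, {x | (gm ι col loc v0 (col d)).Reachable (loc (ι d)) x}) = (c, K))).Nonempty
  swap
  · rw [not_nonempty_iff_eq_empty.1 hne]
    exact ⟨0, rfl⟩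
  obtain ⟨d0, hd0⟩ := hne
  obtain ⟨h1, h2⟩ := mem_filter.1 hd0
  have h3 : loc d0 = v0 := (mem_filter.1 h1).2
  have h4 : col d0 = c := (Prod.ext_iff.1 h2).1
  have h5 : {x | (gm ι col loc v0 (col d0)).Reachable (loc (ι d0)) x} = K := (Prod.ext_iff.1 h2).2
  rw [h4] at h5
  have hloc : ∀ d, loc d ≠ loc (ι d) := by
    intro d h6
    have h7 := hG d
    rw [← h.base d, ← h.base (ι d), h6] at h7
    exact G.irrefl h7
  have hv0 : v0 ∉ K := by
    rw [← h5]
    intro h6
    refine reach_iso ?_ ?_ h6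
    · intro x h7
      rw [gm, SimpleGraph.fromRel_adj] at h7
      rcases h7.2 with h8 | h8
      · exact h8.2.1 rfl
      · exact h8.1 rfl
    · rw [← h3]
      exact (hloc d0).symm
  -- the class
  have h6 : (univ.filter (fun d => loc d = v0)).filter (fun d =>
      (col d, {x | (gm ι col loc v0 (col d)).Reachable (loc (ι d)) x}) = (c, K)) =
      univ.filter (fun d => loc d = v0 ∧ col d = c ∧ loc (ι d) ∈ K) := by
    ext d
    rw [mem_filter, mem_filter, mem_filter]
    constructor
    · rintro ⟨⟨-, h7⟩, h8⟩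
      refine ⟨mem_univ _, h7, (Prod.ext_iff.1 h8).1, ?_⟩
      have h9 : {x | (gm ι col loc v0 (col d)).Reachable (loc (ι d)) x} = K := (Prod.ext_iff.1 h8).2
      rw [← h9]
      exact SimpleGraph.Reachable.refl _
    · rintro ⟨-, h7, h8, h9⟩
      refine ⟨⟨mem_univ _, h7⟩, ?_⟩
      rw [h8]
      refine Prod.ext rfl ?_
      show {x | (gm ι col loc v0 c).Reachable (loc (ι d)) x} = K
      rw [← h5] at h9 ⊢
      ext x
      exact ⟨fun h10 => SimpleGraph.Reachable.trans h9 h10,
        fun h10 => (SimpleGraph.Reachable.symm h9).trans h10⟩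
  rw [h6]
  -- the darts of the component
  have hA : Even (univ.filter (fun d => col d = c ∧ loc d ∈ K)).card := by
    have h7 : (univ.filter (fun d => col d = c ∧ loc d ∈ K)).card =
        ∑ x ∈ (univ.filter (fun x => x ∈ K)),
          (univ.filter (fun d => loc d = x ∧ col d = c)).card := by
      rw [card_eq_sum_card_fiberwise (f := loc) (t := univ.filter (fun x => x ∈ K))]
      · refine sum_congr rfl fun x hx => ?_
        congr 1
        ext d
        simp only [mem_filter, mem_univ, true_and]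
        constructor
        · rintro ⟨⟨h8, h9⟩, h10⟩
          exact ⟨h10, h8⟩
        · rintro ⟨h8, h9⟩
          exact ⟨⟨h9, by rw [h8]; exact (mem_filter.1 hx).2⟩, h8⟩
      · intro d hd
        rw [mem_coe, mem_filter] at hd
        rw [mem_coe, mem_filter]
        exact ⟨mem_univ _, hd.2.2⟩
    rw [h7, hc0, sum_congr rfl (fun x _ => h.deg c0 x), ← mul_sum]
    exact even_two_mul _
  have hA2 : Even (univ.filter (fun d => (col d = c ∧ loc d ∈ K) ∧ ¬ loc (ι d) = v0)).card := by
    refine even_of_inv _ ι ?_ hι ?_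
    · intro d hd
      rw [mem_filter] at hd ⊢
      obtain ⟨-, ⟨h7, h8⟩, h9⟩ := hd
      have h10 : loc d ≠ v0 := fun h11 => hv0 (h11 ▸ h8)
      refine ⟨mem_univ _, ⟨?_, ?_⟩, ?_⟩
      · rw [hc, h7]
      · rw [← h5] at h8 ⊢
        refine SimpleGraph.Reachable.trans h8 (SimpleGraph.Adj.reachable ?_)
        rw [gm, SimpleGraph.fromRel_adj]
        exact ⟨hloc d, Or.inl ⟨h10, h9, d, h7, rfl, rfl⟩⟩
      · rw [hι]
        exact h10
    · intro d h7
      have h8 := hG d
      rw [h7] at h8
      exact G.irrefl h8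
  have hsplit := card_filter_add_card_filter_not
    (s := univ.filter (fun d => col d = c ∧ loc d ∈ K)) (fun d => loc (ι d) = v0)
  rw [filter_filter, filter_filter] at hsplit
  have hA1 : Even (univ.filter (fun d => (col d = c ∧ loc d ∈ K) ∧ loc (ι d) = v0)).card := by
    rw [← hsplit] at hA
    exact (Nat.even_add.1 hA).2 hA2
  have h7 : (univ.filter (fun d => loc d = v0 ∧ col d = c ∧ loc (ι d) ∈ K)).card =
      (univ.filter (fun d => (col d = c ∧ loc d ∈ K) ∧ loc (ι d) = v0)).card := by
    refine card_bij (fun d _ => ι d) ?_ ?_ ?_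
    · intro d hd
      rw [mem_filter] at hd ⊢
      obtain ⟨-, h8, h9, h10⟩ := hd
      exact ⟨mem_univ _, ⟨by rw [hc, h9], h10⟩, by rw [hι, h8]⟩
    · intro d _ d' _ h8
      rw [← hι d, ← hι d', h8]
    · intro d hd
      rw [mem_filter] at hd
      obtain ⟨-, ⟨h8, h9⟩, h10⟩ := hd
      refine ⟨ι d, mem_filter.2 ⟨mem_univ _, h10, by rw [hc, h8], by rw [hι]; exact h9⟩, hι d⟩
  rw [h7]
  exact hA1

open Classical in
/-- **One detachment.** -/
theorem stepO [Fintype C] [Fintype V] (hι : ∀ d, ι (ι d) = d) (hG : ∀ d, G.Adj (b d) (b (ι d)))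
    (hc : ∀ d, col (ι d) = col d) (h : StO G m ι b col Q μ loc) (v0 z : V × Fin m)
    (hz : μ z = 0) (hv : v0.1 = z.1) (hv2 : 2 ≤ μ v0) :
    ∃ loc' : D → V × Fin m,
      StO G m ι b col Q (Function.update (Function.update μ v0 (μ v0 - 1)) z 1) loc' := by
  have hzv : z ≠ v0 := by
    rintro rfl
    omega
  have hloc : ∀ d, loc d ≠ loc (ι d) := by
    intro d h6
    have h7 := hG d
    rw [← h.base d, ← h.base (ι d), h6] at h7
    exact G.irrefl h7
  have hlz : ∀ d, loc d ≠ z := by
    intro d h6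
    rcases hcd : col d with _ | c
    · have h7 := h.deg0 z
      rw [hz, card_eq_zero, filter_eq_empty_iff] at h7
      exact h7 (mem_univ d) ⟨h6, hcd⟩
    · have h7 := h.deg c z
      rw [hz, mul_zero, card_eq_zero, filter_eq_empty_iff] at h7
      exact h7 (mem_univ d) ⟨h6, hcd⟩
  let S : Finset D := univ.filter (fun d => loc d = v0)
  have hS : ∀ d, d ∈ S ↔ loc d = v0 := by
    intro d
    simp [S]
  obtain ⟨τ, r, hτ1, hτ2, hτ3, hτ4⟩ := pairing (S.filter (fun d => col d ≠ none))
    (fun d => (col d, {x | (gm ι col loc v0 (col d)).Reachable (loc (ι d)) x}))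
    (fun k => by
      obtain ⟨c, K⟩ := k
      rcases c with _ | c
      · have h3 : ((S.filter (fun d => col d ≠ none)).filter (fun d =>
            (col d, {x | (gm ι col loc v0 (col d)).Reachable (loc (ι d)) x}) = (none, K))) = ∅ := by
          rw [filter_eq_empty_iff]
          intro d hd h4
          exact (mem_filter.1 hd).2 (Prod.ext_iff.1 h4).1
        rw [h3, card_empty]
        exact ⟨0, rfl⟩
      · have h3 : ((S.filter (fun d => col d ≠ none)).filter (fun d =>
            (col d, {x | (gm ι col loc v0 (col d)).Reachable (loc (ι d)) x}) = (some c, K))) =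
            (S.filter (fun d =>
            (col d, {x | (gm ι col loc v0 (col d)).Reachable (loc (ι d)) x}) = (some c, K))) := by
          ext d
          constructor
          · intro h4
            exact mem_filter.2 ⟨(mem_filter.1 (mem_filter.1 h4).1).1, (mem_filter.1 h4).2⟩
          · intro h4
            refine mem_filter.2 ⟨mem_filter.2 ⟨(mem_filter.1 h4).1, ?_⟩, (mem_filter.1 h4).2⟩
            have h6 : col d = some c := (Prod.ext_iff.1 (mem_filter.1 h4).2).1
            rw [h6]
            exact Option.some_ne_none c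
        rw [h3]
        exact cls_evenO hι hG hc h v0 c K)
  have hS1 : ∀ d, d ∈ S.filter (fun d => col d ≠ none) ↔ d ∈ S ∧ col d ≠ none :=
    fun d => mem_filter
  let n : V × Fin m → ℕ := fun w => if G.Adj v0.1 w.1 then μ w else 0
  have h1 : ∀ w, (S.filter (fun d => loc (ι d) = w)).card = μ v0 * n w := by
    intro w
    rw [filter_filter]
    by_cases hw : G.Adj v0.1 w.1
    · have h2 : n w = μ w := if_pos hw
      rw [h2]
      exact h.cnt v0 w hw
    · have h2 : n w = 0 := if_neg hw
      rw [h2, mul_zero, card_eq_zero, filter_eq_empty_iff]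
      rintro d - ⟨h3, h4⟩
      refine hw ?_
      rw [← h3, ← h4, h.base, h.base]
      exact hG d
  have h2 : ∀ c : C, (S.filter (fun d => col d = some c)).card = 2 * μ v0 := by
    intro c
    rw [filter_filter]
    exact h.deg c v0
  have h20 : (S.filter (fun d => col d = none)).card = μ v0 := by
    rw [filter_filter]
    exact h.deg0 v0
  obtain ⟨X, hX0, hX1, hX2, hX20, hX3⟩ := selectO S (fun d => loc (ι d)) col (μ v0) hv2 n h1 h2 h20
    τ r (fun d hd hd' => ((hS1 _).1 (hτ1 d ((hS1 d).2 ⟨hd, hd'⟩))).1)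
    (fun d hd hd' => hτ2 d ((hS1 d).2 ⟨hd, hd'⟩))
    (fun d hd hd' => (Prod.ext_iff.1 (hτ3 d ((hS1 d).2 ⟨hd, hd'⟩))).1)
    (fun d hd hd' => hτ4 d ((hS1 d).2 ⟨hd, hd'⟩))
  have hXv : ∀ d ∈ X, loc d = v0 := fun d hd => (hS d).1 (hX0 hd)
  have hXi : ∀ d ∈ X, ι d ∉ X := by
    intro d hd hd'
    exact hloc d ((hXv d hd).trans (hXv _ hd').symm)
  let loc' : D → V × Fin m := fun d => if d ∈ X then z else loc d
  have hl1 : ∀ d ∈ X, loc' d = z := fun d hd => if_pos hd
  have hl2 : ∀ d, d ∉ X → loc' d = loc d := fun d hd => if_neg hd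
  have hl3 : ∀ d, loc' d = z ↔ d ∈ X := by
    intro d
    refine ⟨fun h3 => ?_, hl1 d⟩
    by_contra h4
    rw [hl2 d h4] at h3
    exact hlz d h3
  have hl4 : ∀ d, loc' d = v0 ↔ (d ∈ S ∧ d ∉ X) := by
    intro d
    by_cases h4 : d ∈ X
    · rw [hl1 d h4]
      exact ⟨fun h5 => absurd h5 hzv, fun h5 => absurd h4 h5.2⟩
    · rw [hl2 d h4, hS]
      exact ⟨fun h5 => ⟨h5, h4⟩, fun h5 => h5.1⟩
  have hl5 : ∀ d x, x ≠ z → x ≠ v0 → (loc' d = x ↔ loc d = x) := by
    intro d x hx hx'
    by_cases h4 : d ∈ X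
    · rw [hl1 d h4, hXv d h4]
      exact ⟨fun h5 => absurd h5.symm hx, fun h5 => absurd h5.symm hx'⟩
    · rw [hl2 d h4]
  let μ' : V × Fin m → ℕ := Function.update (Function.update μ v0 (μ v0 - 1)) z 1
  have hm1 : μ' z = 1 := Function.update_self _ _ _
  have hm2 : μ' v0 = μ v0 - 1 := by
    show Function.update (Function.update μ v0 (μ v0 - 1)) z 1 v0 = μ v0 - 1
    rw [Function.update_of_ne hzv.symm, Function.update_self]
  have hm3 : ∀ x, x ≠ z → x ≠ v0 → μ' x = μ x := by
    intro x hx hx'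
    show Function.update (Function.update μ v0 (μ v0 - 1)) z 1 x = μ x
    rw [Function.update_of_ne hx, Function.update_of_ne hx']
  -- the count for `z` and for `v0`
  have hcz : ∀ y : V × Fin m, G.Adj z.1 y.1 →
      (univ.filter (fun d => loc' d = z ∧ loc' (ι d) = y)).card = μ' z * μ' y := by
    intro y hy
    have hy1 : y ≠ z := by
      rintro rfl
      exact G.irrefl hy
    have hy2 : y ≠ v0 := by
      rintro rfl
      rw [hv] at hy
      exact G.irrefl hy
    rw [hm1, one_mul, hm3 y hy1 hy2]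
    have h3 : n y = μ y := if_pos (by rw [hv]; exact hy)
    rw [← h3, ← hX1 y]
    congr 1
    ext d
    rw [mem_filter, mem_filter, hl3, hl5 _ _ hy1 hy2]
    exact ⟨fun h4 => h4.2, fun h4 => ⟨mem_univ _, h4⟩⟩
  have hcv : ∀ y : V × Fin m, G.Adj v0.1 y.1 →
      (univ.filter (fun d => loc' d = v0 ∧ loc' (ι d) = y)).card = μ' v0 * μ' y := by
    intro y hy
    have hy1 : y ≠ z := by
      rintro rfl
      rw [hv] at hy
      exact G.irrefl hy
    have hy2 : y ≠ v0 := by
      rintro rfl
      exact G.irrefl hy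
    rw [hm2, hm3 y hy1 hy2]
    have h3 : n y = μ y := if_pos hy
    have h4 : (univ.filter (fun d => loc' d = v0 ∧ loc' (ι d) = y)) =
        (S.filter (fun d => loc (ι d) = y)) \ (X.filter (fun d => loc (ι d) = y)) := by
      ext d
      constructor
      · intro h5
        obtain ⟨-, h6, h7⟩ := mem_filter.1 h5
        obtain ⟨h8, h9⟩ := (hl4 d).1 h6
        refine mem_sdiff.2 ⟨mem_filter.2 ⟨h8, (hl5 _ _ hy1 hy2).1 h7⟩, fun h10 => h9 ?_⟩
        exact (mem_filter.1 h10).1
      · intro h5
        obtain ⟨h6, h7⟩ := mem_sdiff.1 h5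
        obtain ⟨h8, h9⟩ := mem_filter.1 h6
        refine mem_filter.2 ⟨mem_univ _, (hl4 d).2 ⟨h8, fun h10 => h7 ?_⟩, (hl5 _ _ hy1 hy2).2 h9⟩
        exact mem_filter.2 ⟨h10, h9⟩
    rw [h4, card_sdiff_of_subset (filter_subset_filter _ hX0), h1 y, hX1 y, h3, Nat.sub_mul, one_mul]
  have hdegv : ∀ (c : Option C) (q : ℕ), (S.filter (fun d => col d = c)).card = q * μ v0 →
      (X.filter (fun d => col d = c)).card = q →
      ∀ x, (univ.filter (fun d => loc d = x ∧ col d = c)).card = q * μ x →
      (univ.filter (fun d => loc' d = x ∧ col d = c)).card = q * μ' x := by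
    intro c q hq1 hq2 x hq3
    by_cases hx1 : x = z
    · rw [hx1, hm1, mul_one, ← hq2]
      congr 1
      ext d
      rw [mem_filter, mem_filter, hl3]
      exact ⟨fun h4 => h4.2, fun h4 => ⟨mem_univ _, h4⟩⟩
    by_cases hx2 : x = v0
    · rw [hx2, hm2]
      have h4 : (univ.filter (fun d => loc' d = v0 ∧ col d = c)) =
          (S.filter (fun d => col d = c)) \ (X.filter (fun d => col d = c)) := by
        ext d
        constructor
        · intro h5
          obtain ⟨-, h6, h7⟩ := mem_filter.1 h5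
          obtain ⟨h8, h9⟩ := (hl4 d).1 h6
          refine mem_sdiff.2 ⟨mem_filter.2 ⟨h8, h7⟩, fun h10 => h9 ?_⟩
          exact (mem_filter.1 h10).1
        · intro h5
          obtain ⟨h6, h7⟩ := mem_sdiff.1 h5
          obtain ⟨h8, h9⟩ := mem_filter.1 h6
          refine mem_filter.2 ⟨mem_univ _, (hl4 d).2 ⟨h8, fun h10 => h7 ?_⟩, h9⟩
          exact mem_filter.2 ⟨h10, h9⟩
      rw [h4, card_sdiff_of_subset (filter_subset_filter _ hX0), hq1, hq2, Nat.mul_sub, mul_one]
    rw [hm3 x hx1 hx2, ← hq3]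
    congr 1
    ext d
    rw [mem_filter, mem_filter, hl5 _ _ hx1 hx2]
  refine ⟨loc', ⟨?_, ?_, ?_, ?_, ?_, ?_⟩⟩
  · intro d
    by_cases h4 : d ∈ X
    · rw [hl1 d h4, ← hv, ← hXv d h4]
      exact h.base d
    · rw [hl2 d h4]
      exact h.base d
  · intro x y hxy
    show _ = μ' x * μ' y
    by_cases hx1 : x = z
    · rw [hx1] at hxy ⊢
      exact hcz y hxy
    by_cases hx2 : x = v0
    · rw [hx2] at hxy ⊢
      exact hcv y hxy
    by_cases hy1 : y = z
    · rw [hy1] at hxy ⊢
      rw [cnt_symm hι loc' x z, mul_comm]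
      exact hcz x hxy.symm
    by_cases hy2 : y = v0
    · rw [hy2] at hxy ⊢
      rw [cnt_symm hι loc' x v0, mul_comm]
      exact hcv x hxy.symm
    rw [hm3 x hx1 hx2, hm3 y hy1 hy2, ← h.cnt x y hxy]
    congr 1
    ext d
    rw [mem_filter, mem_filter, hl5 _ _ hx1 hx2, hl5 _ _ hy1 hy2]
  · intro c x
    exact hdegv (some c) 2 (h2 c) (hX2 c) x (h.deg c x)
  · intro x
    have h3 := hdegv none 1 (by rw [one_mul]; exact h20) hX20 x (by rw [one_mul]; exact h.deg0 x)
    rw [one_mul] at h3
    exact h3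
  · intro c' x y hx hy hxy
    obtain ⟨c, hc'⟩ : ∃ c : Option C, c = some c' := ⟨_, rfl⟩
    rw [← hc']
    change μ' x ≠ 0 at hx
    change μ' y ≠ 0 at hy
    -- the new graph of the colour
    have hadj : ∀ d, col d = c → (gr ι col loc' c).Adj (loc' d) (loc' (ι d)) := by
      intro d hd
      rw [gr, SimpleGraph.fromRel_adj]
      refine ⟨?_, Or.inl ⟨d, hd, rfl, rfl⟩⟩
      intro h3
      by_cases h4 : d ∈ X
      · rw [hl1 d h4, hl2 _ (hXi d h4)] at h3
        exact hlz _ h3.symm
      · rw [hl2 d h4] at h3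
        by_cases h5 : ι d ∈ X
        · rw [hl1 _ h5] at h3
          exact hlz _ h3
        · rw [hl2 _ h5] at h3
          exact hloc d h3
    have hA : gm ι col loc v0 c ≤ gr ι col loc' c := by
      have h3 : ∀ d, col d = c → loc d ≠ v0 → loc (ι d) ≠ v0 →
          (gr ι col loc' c).Adj (loc d) (loc (ι d)) := by
        intro d hd h4 h5
        have h6 := hadj d hd
        rw [hl2 d (fun h7 => h4 (hXv d h7)), hl2 _ (fun h7 => h5 (hXv _ h7))] at h6
        exact h6
      intro u w huw
      rw [gm, SimpleGraph.fromRel_adj] at huw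
      rcases huw.2 with ⟨h4, h5, d, h6, rfl, rfl⟩ | ⟨h4, h5, d, h6, rfl, rfl⟩
      · exact h3 d h6 h4 h5
      · exact (h3 d h6 h4 h5).symm
    have hB1 : ∀ d, col d = c → d ∈ X → (gr ι col loc' c).Reachable v0 (loc (ι d)) := by
      intro d hd hdX
      have hdn : col d ≠ none := by
        rw [hd, hc']
        exact Option.some_ne_none c'
      have h3 := hX0 hdX
      have h4 := hτ3 d ((hS1 d).2 ⟨h3, hdn⟩)
      have h5 : col (τ d) = col d := (Prod.ext_iff.1 h4).1
      have h6 : {x | (gm ι col loc v0 (col (τ d))).Reachable (loc (ι (τ d))) x} =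
          {x | (gm ι col loc v0 (col d)).Reachable (loc (ι d)) x} := (Prod.ext_iff.1 h4).2
      rw [h5, hd] at h6
      have h7 : loc (ι d) ∈ {x | (gm ι col loc v0 c).Reachable (loc (ι (τ d))) x} := by
        rw [h6]
        exact SimpleGraph.Reachable.refl _
      have h8 : τ d ∉ X := hX3 d hdX hdn
      have h9 : loc (τ d) = v0 := (hS _).1 ((hS1 _).1 (hτ1 d ((hS1 d).2 ⟨h3, hdn⟩))).1
      have h10 := hadj (τ d) (h5.trans hd)
      rw [hl2 _ h8, h9, hl2 _ (fun h11 => hloc (τ d) (h9.trans (hXv _ h11).symm))] at h10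
      exact h10.reachable.trans (SimpleGraph.Reachable.mono hA h7)
    have hB : ∀ d, col d = c → (gr ι col loc' c).Reachable (loc d) (loc (ι d)) := by
      intro d hd
      by_cases h4 : d ∈ X
      · rw [hXv d h4]
        exact hB1 d hd h4
      by_cases h5 : ι d ∈ X
      · have h6 := hB1 (ι d) ((hc d).trans hd) h5
        rw [hι] at h6
        rw [hXv _ h5]
        exact h6.symm
      have h6 := hadj d hd
      rw [hl2 d h4, hl2 _ h5] at h6
      exact h6.reachable
    have hC : ∀ u w, (gr ι col loc c).Reachable u w → (gr ι col loc' c).Reachable u w := by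
      intro u w huw
      rw [SimpleGraph.reachable_iff_reflTransGen] at huw
      induction huw with
      | refl => exact SimpleGraph.Reachable.refl _
      | tail _ h4 ih =>
        refine ih.trans ?_
        rw [gr, SimpleGraph.fromRel_adj] at h4
        rcases h4.2 with ⟨d, h6, rfl, rfl⟩ | ⟨d, h6, rfl, rfl⟩
        · exact hB d h6
        · exact (hB d h6).symm
    have hD : (gr ι col loc' c).Reachable z v0 := by
      have h3 : (X.filter (fun d => col d = c)).Nonempty := by
        rw [← card_pos, hc', hX2 c']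
        norm_num
      obtain ⟨d, hd⟩ := h3
      obtain ⟨h4, h5⟩ := mem_filter.1 hd
      have h6 := hadj d h5
      rw [hl1 d h4, hl2 _ (hXi d h4)] at h6
      exact h6.reachable.trans (hB1 d h5 h4).symm
    have hE : ∀ x, μ' x ≠ 0 → ∃ x', x'.1 = x.1 ∧ μ x' ≠ 0 ∧ (gr ι col loc' c).Reachable x x' := by
      intro x hx
      by_cases h3 : x = z
      · rw [h3]
        exact ⟨v0, hv, by omega, hD⟩
      by_cases h4 : x = v0
      · rw [h4]
        exact ⟨v0, rfl, by omega, SimpleGraph.Reachable.refl _⟩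
      rw [hm3 x h3 h4] at hx
      exact ⟨x, rfl, hx, SimpleGraph.Reachable.refl _⟩
    obtain ⟨x', hx1, hx2, hx3⟩ := hE x hx
    obtain ⟨y', hy1, hy2, hy3⟩ := hE y hy
    have h3 := h.con c' x' y' hx2 hy2 (by rw [hx1, hy1]; exact hxy)
    rw [← hc'] at h3
    exact (hx3.trans (hC _ _ h3)).trans hy3.symm
  · intro v
    have h3 : ∀ x, μ' x + (if x = v0 then 1 else 0) = μ x + (if x = z then 1 else 0) := by
      intro x
      by_cases hx1 : x = z
      · rw [hx1, hm1, if_neg hzv, if_pos rfl, hz]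
      by_cases hx2 : x = v0
      · rw [hx2, hm2, if_pos rfl, if_neg (fun h4 => hzv h4.symm)]
        omega
      rw [hm3 x hx1 hx2, if_neg hx1, if_neg hx2]
    have h4 : ∑ i, (μ' (v, i) + (if (v, i) = v0 then 1 else 0)) =
        ∑ i, (μ (v, i) + (if (v, i) = z then 1 else 0)) := sum_congr rfl fun i _ => h3 (v, i)
    rw [sum_add_distrib, sum_add_distrib, h.tot v] at h4
    have h5 : ∀ w : V × Fin m, ∑ i, (if (v, i) = w then 1 else 0) = if v = w.1 then 1 else 0 := by
      intro w
      by_cases hw : v = w.1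
      · rw [if_pos hw]
        have h6 : ∀ i ∈ (univ : Finset (Fin m)), (if (v, i) = w then 1 else 0) =
            if i = w.2 then 1 else 0 := by
          intro i _
          by_cases h7 : i = w.2
          · rw [if_pos h7, if_pos (Prod.ext hw h7)]
          · rw [if_neg h7, if_neg (fun h8 => h7 (by rw [← h8]))]
        rw [sum_congr rfl h6, sum_ite_eq', if_pos (mem_univ _)]
      · rw [if_neg hw]
        refine sum_eq_zero fun i _ => ?_
        rw [if_neg (fun h8 => hw (by rw [← h8]))]
    rw [h5, h5, hv] at h4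
    show ∑ i, μ' (v, i) = m
    omega

end

end Pool.Agent.Q251.LO
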