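import Pool.Agent.H79.LA.Q251_LO_Col
import Pool.Agent.H79.LA.W111_LAR_Odd
import Pool.Agent.H79.LA.W111_LAR_Top

/-!
# The linear arboricity of odd blow-ups
-/

set_option autoImplicit false

namespace Pool.Agent.Q251.LO

open Finset SimpleGraph Pool.Agent.Q251.LA H931R3.LA Pool.Agent.W111.LAR

open Classical in
/-- A perfect matching and `κ` two-factors, each of them connected over every component. -/
theorem facO {V : Type} [Fintype V] (G : SimpleGraph V) (r m κ t : ℕ) (hr : 0 < r)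
    (hm : m = r + 2 * t) (hκ : r * m = 2 * κ + 1) (hdeg : ∀ v, (G.neighborSet v).ncard = r) :
    ∃ (H : Fin κ → SimpleGraph (V × Fin m)) (P : SimpleGraph (V × Fin m)),
      (∀ c x, ((H c).neighborSet x).ncard = 2) ∧ (∀ x, (P.neighborSet x).ncard = 1) ∧
      P ⊔ (⨆ c, H c) = blow G m ∧
      ∀ c x y, G.Reachable x.1 y.1 → (H c).Reachable x y := by
  have : NeZero r := ⟨by omega⟩
  have : NeZero m := ⟨by omega⟩
  obtain ⟨f, hf1, hf2, hf3, hf4⟩ := colour G r m κ t hm hκ hdeg
  obtain ⟨H, h1, h2, h3, h4⟩ := coreO (G := G) f hf1 (fun v c => by convert hf2 v c)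
    (fun v => by convert hf3 v)
  refine ⟨fun c => H (some c), H none, h1, h2, ?_, ?_⟩
  · rw [← h3, iSup_option]
  · intro c x y hxy
    refine h4 c x y (hxy.mono ?_)
    intro a b hab
    rw [sup0, SimpleGraph.fromRel_adj]
    obtain ⟨ab, hab'⟩ := hf4 a b c
    exact ⟨hab.ne, Or.inl ⟨hab, ab, hab'⟩⟩

theorem covO {V : Type} [Finite V] (G : SimpleGraph V) (r m κ t : ℕ) (hr : 0 < r)
    (hm : m = r + 2 * t) (hκ : r * m = 2 * κ + 1) (hdeg : ∀ v, (G.neighborSet v).ncard = r)
    (hsz : ∀ v, 6 * r ≤ {w | G.Reachable v w}.ncard) : Cov (blow G m) (κ + 1) := by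
  have := Fintype.ofFinite V
  obtain ⟨H, P, h1, h2, h3, h4⟩ := facO G r m κ t hr hm hκ hdeg
  rw [← h3]
  have h5 := cov_matching H P (fun c x => (h1 c x).le) (fun x => (h2 x).le) (6 * r * m) (by
    rw [Fintype.card_fin]
    have : 6 * r * m = 6 * (r * m) := by ring
    omega) (by
    intro c x _
    unfold csize
    have h6 : ({w | G.Reachable x.1 w} ×ˢ (Set.univ : Set (Fin m))) ⊆
        {y | (H c).Reachable x y} := by
      rintro ⟨w, i⟩ ⟨h7, -⟩
      exact h4 c x (w, i) h7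
    have h7 := Set.ncard_le_ncard h6 (Set.toFinite _)
    rw [Set.ncard_prod, Set.ncard_univ, Nat.card_eq_fintype_card, Fintype.card_fin] at h7
    exact (Nat.mul_le_mul_right m (hsz x.1)).trans h7)
  rw [Fintype.card_fin] at h5
  exact h5

end Pool.Agent.Q251.LO
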