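import Pool.Agent.H79.LA.Q105_LAT_Stm
import Pool.Agent.H79.LA.TH525_LAD_Konig

set_option autoImplicit false

/-! Job LAT6: integer decomposition of transportation matrices. -/

namespace Pool.Agent.Q47.LAT

open Finset Pool.Agent.Q105.LAT

theorem sub_le {C : Type} [Fintype C] (x : C → ℕ) : ∀ m : ℕ, m ≤ ∑ c, x c →
    ∃ y : C → ℕ, (∀ c, y c ≤ x c) ∧ ∑ c, y c = m := by
  classical
  intro m
  induction m with
  | zero => intro _; exact ⟨fun _ => 0, fun _ => Nat.zero_le _, by simp⟩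
  | succ m ih =>
    intro hm
    obtain ⟨y, hy, hs⟩ := ih (by omega)
    obtain ⟨c, -, hc⟩ : ∃ c ∈ (univ : Finset C), y c < x c := by
      apply Finset.exists_lt_of_sum_lt
      omega
    refine ⟨fun d => y d + if d = c then 1 else 0, fun d => ?_, ?_⟩
    · by_cases h : d = c
      · subst h; simp; omega
      · simp [h, hy d]
    · rw [Finset.sum_add_distrib, hs]; simp

theorem split {C : Type} [Fintype C] (K : ℕ) : ∀ (p : ℕ) (x : C → ℕ), ∑ c, x c ≤ K * p →
    ∃ y : Fin p → C → ℕ, (∀ c, ∑ i, y i c = x c) ∧ ∀ i, ∑ c, y i c ≤ K := by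
  intro p
  induction p with
  | zero =>
    intro x hx
    refine ⟨fun _ _ => 0, fun c => ?_, fun i => i.elim0⟩
    have h0 : ∑ c, x c = 0 := by simpa using hx
    have := (Finset.sum_eq_zero_iff.1 h0) c (mem_univ c)
    simp [this]
  | succ p ih =>
    intro x hx
    obtain ⟨y0, h1, h2⟩ := sub_le x (min K (∑ c, x c)) (min_le_right _ _)
    have h3 : ∑ c, (x c - y0 c) + ∑ c, y0 c = ∑ c, x c := by
      rw [← Finset.sum_add_distrib]
      exact Finset.sum_congr rfl fun c _ => Nat.sub_add_cancel (h1 c)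
    have h4 : ∑ c, (x c - y0 c) ≤ K * p := by
      have h5 : K * (p + 1) = K * p + K := by ring
      rcases le_total K (∑ c, x c) with h | h
      · rw [min_eq_left h] at h2; omega
      · rw [min_eq_right h] at h2; omega
    obtain ⟨y, hy1, hy2⟩ := ih _ h4
    refine ⟨Fin.cons y0 y, fun c => ?_, fun i => ?_⟩
    · rw [Fin.sum_univ_succ]
      simp only [Fin.cons_zero, Fin.cons_succ]
      rw [hy1 c]
      have := h1 c
      omega
    · refine Fin.cases ?_ (fun i => ?_) i
      · simp only [Fin.cons_zero]; rw [h2]; exact min_le_left _ _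
      · simp only [Fin.cons_succ]; exact hy2 i

theorem t_Int : S_Int := by
  classical
  intro R C _ _ K a p q hr hc
  have hy : ∀ r, ∃ y : Fin (p r) → C → ℕ, (∀ c, ∑ i, y i c = a r c) ∧ ∀ i, ∑ c, y i c ≤ K :=
    fun r => split K (p r) (a r) (hr r)
  choose y hy1 hy2 using hy
  have hz : ∀ c, ∃ z : Fin (q c) → (Σ r, Fin (p r)) → ℕ, (∀ x, ∑ k, z k x = y x.1 x.2 c) ∧
      ∀ k, ∑ x, z k x ≤ K := by
    intro c
    refine split K (q c) (fun x : Σ r, Fin (p r) => y x.1 x.2 c) ?_
    rw [Fintype.sum_sigma]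
    simp only
    rw [Finset.sum_congr rfl fun r _ => hy1 r c]
    exact hc c
  choose z hz1 hz2 using hz
  let M : ((Σ r, Fin (p r)) ⊕ (Σ c, Fin (q c))) → ((Σ r, Fin (p r)) ⊕ (Σ c, Fin (q c))) → ℕ :=
    fun u v => match u, v with
      | Sum.inl x, Sum.inr w => z w.1 w.2 x
      | _, _ => 0
  have hMr : ∀ u, ∑ v, M u v ≤ K := by
    intro u
    rw [Fintype.sum_sum_type]
    rcases u with x | w
    · simp only [M, Finset.sum_const_zero, zero_add]
      rw [Fintype.sum_sigma]
      simp only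
      rw [Finset.sum_congr rfl fun c _ => hz1 c x]
      exact hy2 x.1 x.2
    · simp only [M, Finset.sum_const_zero, zero_add, Nat.zero_le]
  have hMc : ∀ v, ∑ u, M u v ≤ K := by
    intro v
    rw [Fintype.sum_sum_type]
    rcases v with x | w
    · simp only [M, Finset.sum_const_zero, zero_add, Nat.zero_le]
    · simp only [M, Finset.sum_const_zero, add_zero]
      exact hz2 w.1 w.2
  have htot : ∑ u, ∑ v, M u v ≤ K * Fintype.card ((Σ r, Fin (p r)) ⊕ (Σ c, Fin (q c))) := by
    calc ∑ u, ∑ v, M u v ≤ ∑ _u : ((Σ r, Fin (p r)) ⊕ (Σ c, Fin (q c))), K :=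
          Finset.sum_le_sum fun u _ => hMr u
      _ = _ := by rw [Finset.sum_const, Finset.card_univ, smul_eq_mul, mul_comm]
  obtain ⟨M', h1, h2, h3⟩ := Pool.Agent.TH525.LAD.fill K
    (K * Fintype.card ((Σ r, Fin (p r)) ⊕ (Σ c, Fin (q c))) - ∑ u, ∑ v, M u v) M hMr hMc
    (by omega)
  obtain ⟨σ, hσ⟩ := Pool.Agent.H150R2.ZSF.koenig K M' h2 h3
  have hT : ∀ (x : Σ r, Fin (p r)) (w : Σ c, Fin (q c)), ∃ T : Finset (Fin K),
      T ⊆ univ.filter (fun i => σ i (Sum.inl x) = Sum.inr w) ∧ T.card = z w.1 w.2 x := by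
    intro x w
    apply Finset.exists_subset_card_eq
    have h4 := h1 (Sum.inl x) (Sum.inr w)
    rw [hσ] at h4
    refine le_trans h4 (le_of_eq ?_)
    rw [Finset.card_filter]
    refine Finset.sum_congr rfl fun i _ => ?_
    by_cases h : σ i (Sum.inl x) = Sum.inr w
    · rw [if_pos h, if_pos h]
    · rw [if_neg h, if_neg h]
  choose T hT1 hT2 using hT
  have hT3 : ∀ x w j, (if j ∈ T x w then 1 else 0) ≤
      (if σ j (Sum.inl x) = Sum.inr w then 1 else 0 : ℕ) := by
    intro x w j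
    by_cases h : j ∈ T x w
    · rw [if_pos h, if_pos (mem_filter.1 (hT1 x w h)).2]
    · rw [if_neg h]; exact Nat.zero_le _
  refine ⟨fun j r c => ∑ i : Fin (p r), ∑ k : Fin (q c), if j ∈ T ⟨r, i⟩ ⟨c, k⟩ then 1 else 0,
    fun r c => ?_, fun j r => ?_, fun j c => ?_⟩
  · rw [Finset.sum_comm, ← hy1 r c]
    refine Finset.sum_congr rfl fun i _ => ?_
    rw [Finset.sum_comm, ← hz1 c ⟨r, i⟩]
    refine Finset.sum_congr rfl fun k _ => ?_
    rw [← hT2 ⟨r, i⟩ ⟨c, k⟩]
    simp
  · rw [Finset.sum_comm]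
    calc ∑ i : Fin (p r), ∑ c, ∑ k : Fin (q c), (if j ∈ T ⟨r, i⟩ ⟨c, k⟩ then 1 else 0)
        ≤ ∑ _i : Fin (p r), 1 := by
          refine Finset.sum_le_sum fun i _ => ?_
          rw [← Fintype.sum_sigma (fun w : Σ c, Fin (q c) => if j ∈ T ⟨r, i⟩ w then 1 else 0)]
          refine le_trans (Finset.sum_le_sum fun w _ => hT3 ⟨r, i⟩ w j) ?_
          rw [← Finset.card_filter]
          refine Finset.card_le_one.2 fun w hw w' hw' => ?_
          have e1 := (mem_filter.1 hw).2
          have e2 := (mem_filter.1 hw').2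
          exact Sum.inr_injective (e1.symm.trans e2)
      _ = p r := by simp
  · calc ∑ r, ∑ i : Fin (p r), ∑ k : Fin (q c), (if j ∈ T ⟨r, i⟩ ⟨c, k⟩ then 1 else 0)
        = ∑ k : Fin (q c), ∑ x : Σ r, Fin (p r), (if j ∈ T x ⟨c, k⟩ then 1 else 0) := by
          rw [← Fintype.sum_sigma (fun x : Σ r, Fin (p r) =>
            ∑ k : Fin (q c), if j ∈ T x ⟨c, k⟩ then 1 else 0), Finset.sum_comm]
      _ ≤ ∑ _k : Fin (q c), 1 := by
          refine Finset.sum_le_sum fun k _ => ?_
          refine le_trans (Finset.sum_le_sum fun x _ => hT3 x ⟨c, k⟩ j) ?_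
          rw [← Finset.card_filter]
          refine Finset.card_le_one.2 fun x hx x' hx' => ?_
          have e1 := (mem_filter.1 hx).2
          have e2 := (mem_filter.1 hx').2
          exact Sum.inl_injective ((σ j).injective (e1.trans e2.symm))
      _ = q c := by simp

end Pool.Agent.Q47.LAT
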