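import Pool.Agent.H79.LA.R448_LRing

set_option autoImplicit false

/-!
Blow-ups of regular graphs of even degree: decomposition into long cycles.
-/

namespace Pool.Agent.R448.LP

open Finset SimpleGraph H931R3.LA Pool.Agent.W111.LAR Function

/-- The skew product of permutations. -/
def skewPerm {E X : Type} [AddCommGroup X] (τ : Equiv.Perm E) (φ : E → X) :
    Equiv.Perm (E × X) where
  toFun := skew τ φ
  invFun p := (τ.symm p.1, p.2 - φ (τ.symm p.1))
  left_inv := by rintro ⟨e, x⟩; simp [skew]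
  right_inv := by rintro ⟨e, x⟩; simp [skew]

section base

variable {V K : Type} [Finite V] [Finite K] {G : SimpleGraph V} {σ : K → Equiv.Perm V}
  {π : V → Equiv.Perm K}

omit [Finite V] [Finite K] in
/-- The tails of the arcs of a closed trail are in the same component. -/
theorem reach_tail (hG : ∀ u v, G.Adj u v ↔ (∃ i, σ i u = v) ∨ ∃ i, σ i v = u) (v : V) (r : K)
    (n : ℕ) : G.Reachable v ((tau σ π)^[n] (v, r)).1 := by
  induction n with
  | zero => exact Reachable.refl v
  | succ n ih =>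
    rw [iterate_succ_apply']
    refine ih.trans (SimpleGraph.Adj.reachable ?_)
    exact (hG _ _).2 (Or.inl ⟨_, rfl⟩)

/-- The closed trails are long. -/
theorem trail_length (hG : ∀ u v, G.Adj u v ↔ (∃ i, σ i u = v) ∨ ∃ i, σ i v = u)
    (hπ : ∀ v r r', (tau σ π).SameCycle (v, r) (v, r')) (d : ℕ)
    (hdeg : ∀ v, (G.neighborSet v).ncard = d) (e : V × K) :
    d * Nat.card K ≤ minimalPeriod (tau σ π) e := by
  classical
  obtain ⟨v, r⟩ := e
  have h1 : ∀ x : G.neighborSet v × K, ∃ j : Fin (minimalPeriod (tau σ π) (v, r)),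
      (tau σ π)^[j.val] (v, r) = (x.1.1, x.2) := by
    rintro ⟨⟨w, hw⟩, s⟩
    have h2 : (tau σ π).SameCycle (v, r) (w, s) :=
      same_trail (G := G) (fun u v h => by
        rcases (hG u v).1 h with ⟨i, hi⟩ | ⟨i, hi⟩
        · exact ⟨i, Or.inl hi⟩
        · exact ⟨i, Or.inr hi⟩) hπ (SimpleGraph.Adj.reachable hw) r s
    obtain ⟨n, hn⟩ := h2.exists_nat_pow_eq
    have hpos : 0 < minimalPeriod (tau σ π) (v, r) :=
      minimalPeriod_pos_of_mem_periodicPts ((tau σ π).injective.mem_periodicPts _)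
    refine ⟨⟨n % minimalPeriod (tau σ π) (v, r), Nat.mod_lt _ hpos⟩, ?_⟩
    show (tau σ π)^[n % minimalPeriod (tau σ π) (v, r)] (v, r) = (w, s)
    rw [iterate_mod_minimalPeriod_eq, Equiv.Perm.iterate_eq_pow]
    exact hn
  choose g hg using h1
  have h2 : Function.Injective g := by
    rintro ⟨⟨w, hw⟩, s⟩ ⟨⟨w', hw'⟩, s'⟩ h
    have h3 := hg ⟨⟨w, hw⟩, s⟩
    rw [h, hg ⟨⟨w', hw'⟩, s'⟩] at h3
    have h4 : w' = w := congrArg Prod.fst h3
    have h5 : s' = s := congrArg Prod.snd h3
    subst h4; subst h5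
    rfl
  have h3 := Nat.card_le_card_of_injective g h2
  rw [Nat.card_prod, Nat.card_fin, Nat.card_coe_set_eq, hdeg] at h3
  exact h3

end base

open Classical in
/-- The marks: one arc in each component. -/
noncomputable def mark {V K : Type} [Zero K] (G : SimpleGraph V) (h : ℕ) (p : V × K) : ZMod h :=
  if p.1 = rep G p.1 ∧ p.2 = 0 then 1 else 0

theorem sum_mark {V K : Type} [Finite V] [Finite K] [Zero K] {G : SimpleGraph V}
    {σ : K → Equiv.Perm V} {π : V → Equiv.Perm K}
    (hG : ∀ u v, G.Adj u v ↔ (∃ i, σ i u = v) ∨ ∃ i, σ i v = u)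
    (hπ : ∀ v r r', (tau σ π).SameCycle (v, r) (v, r')) (h : ℕ) (e : V × K) :
    ∑ j ∈ range (minimalPeriod (tau σ π) e), mark G h ((tau σ π)^[j] e) = 1 := by
  classical
  obtain ⟨v, r⟩ := e
  have h1 : (tau σ π).SameCycle (v, r) (rep G v, 0) :=
    same_trail (G := G) (fun u v h => by
      rcases (hG u v).1 h with ⟨i, hi⟩ | ⟨i, hi⟩
      · exact ⟨i, Or.inl hi⟩
      · exact ⟨i, Or.inr hi⟩) hπ (rep_reach G v).symm r 0
  obtain ⟨n, hn⟩ := h1.exists_nat_pow_eq
  have hpos : 0 < minimalPeriod (tau σ π) (v, r) :=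
    minimalPeriod_pos_of_mem_periodicPts ((tau σ π).injective.mem_periodicPts _)
  set j0 := n % minimalPeriod (tau σ π) (v, r) with hj0
  have hj0l : j0 < minimalPeriod (tau σ π) (v, r) := Nat.mod_lt _ hpos
  have hj0e : (tau σ π)^[j0] (v, r) = (rep G v, 0) := by
    rw [hj0, iterate_mod_minimalPeriod_eq, Equiv.Perm.iterate_eq_pow]
    exact hn
  rw [sum_eq_single_of_mem j0 (mem_range.2 hj0l)]
  · rw [hj0e, mark, if_pos]
    exact ⟨rep_eq (rep_reach G v).symm, rfl⟩
  · intro j hj hne
    rw [mark, if_neg]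
    rintro ⟨h2, h3⟩
    apply hne
    have h4 : rep G ((tau σ π)^[j] (v, r)).1 = rep G v := rep_eq (reach_tail hG v r j).symm
    have h5 : (tau σ π)^[j] (v, r) = (rep G v, 0) := Prod.ext (h2.trans h4) h3
    exact iterate_injOn_Iio_minimalPeriod (f := tau σ π) (x := (v, r)) (mem_range.1 hj) hj0l
      (h5.trans hj0e.symm)

/-- **Blow-ups.**  `G` is `2 k`-regular, `a` is a map to a finite ring such that the differences of
the values at adjacent vertices are units and `k` is the index of a subgroup of the ring. -/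
theorem cov_blow {V : Type} [Finite V] (G : SimpleGraph V) (k : ℕ) (hk : 0 < k)
    (hdeg : ∀ v, (G.neighborSet v).ncard = 2 * k) (R : Type) [CommRing R] [Finite R]
    (a : V → R) (ha : ∀ u v, G.Adj u v → IsUnit (a u - a v)) (Z : AddSubgroup R)
    (hZ : Z.index = k) (W : Type) [Finite W] (f : W → V)
    (hf : ∀ v, {x | f x = v}.ncard = Nat.card R) : Cov (G.comap f) (k * Nat.card R + 1) := by
  classical
  have := Fintype.ofFinite R
  have hKc : Nat.card (R ⧸ Z) = k := by rw [← AddSubgroup.index_eq_card]; exact hZ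
  have : Finite (R ⧸ Z) := Nat.finite_of_card_ne_zero (by rw [hKc]; omega)
  have := Fintype.ofFinite (R ⧸ Z)
  obtain ⟨σ, hG⟩ := exists_sigma G k hdeg (R ⧸ Z) hKc
  obtain ⟨π, hπ⟩ := exists_transitions σ
  set h := Nat.card Z with hh
  have hpos : 0 < h := Nat.card_pos
  have : NeZero h := ⟨hpos.ne'⟩
  have hcR : Nat.card R = h * k := by
    rw [← hZ]; exact (AddSubgroup.card_mul_index Z).symm
  -- identifications
  let ζ : ZMod h ≃ Z := (Finite.card_eq.1 (by rw [Nat.card_zmod])).some
  have hdec : ∀ x : R, ∃ (b : R ⧸ Z) (z : ZMod h), x = b.out + (ζ z : R) := by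
    intro x
    have h1 : -(QuotientAddGroup.mk (s := Z) x).out + x ∈ Z := by
      rw [← QuotientAddGroup.eq]
      exact Quotient.out_eq' _
    refine ⟨QuotientAddGroup.mk x, ζ.symm ⟨_, h1⟩, ?_⟩
    rw [Equiv.apply_symm_apply]
    simp
  have hdecinj : ∀ (b b' : R ⧸ Z) (z z' : ZMod h), (b.out + (ζ z : R)) = b'.out + (ζ z' : R) →
      b = b' ∧ z = z' := by
    intro b b' z z' he
    have h1 : ∀ (b : R ⧸ Z) (z : ZMod h), QuotientAddGroup.mk (s := Z) (b.out + (ζ z : R)) = b := by
      intro b z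
      rw [QuotientAddGroup.mk_add_of_mem _ (ζ z).2]
      exact Quotient.out_eq' b
    have h2 : b = b' := by rw [← h1 b z, he, h1]
    subst h2
    refine ⟨rfl, ?_⟩
    have h3 : (ζ z : R) = ζ z' := add_left_cancel he
    exact ζ.injective (Subtype.ext h3)
  let Q : (R ⧸ Z) × ZMod h ≃ R := Equiv.ofBijective (fun p => p.1.out + (ζ p.2 : R)) (by
    constructor
    · rintro ⟨b, z⟩ ⟨b', z'⟩ he
      obtain ⟨h1, h2⟩ := hdecinj b b' z z' he
      rw [h1, h2]
    · intro x
      obtain ⟨b, z, hx⟩ := hdec x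
      exact ⟨(b, z), hx.symm⟩)
  have hQ : ∀ b z, Q (b, z) = b.out + (ζ z : R) := fun b z => rfl
  have heq : ∀ v, Nonempty ({x // f x = v} ≃ R) := by
    intro v
    refine Finite.card_eq.1 ?_
    have h1 := hf v
    rw [← Nat.card_coe_set_eq] at h1
    exact h1
  let E : W ≃ V × R := (Equiv.sigmaFiberEquiv f).symm.trans
    ((Equiv.sigmaCongrRight (fun v => (heq v).some)).trans (Equiv.sigmaEquivProd V R))
  have hE : ∀ x, (E x).1 = f x := fun x => rfl
  -- colours
  let a' : V → R := fun v => a v - a (rep G v)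
  have ha' : ∀ u v, G.Adj u v → IsUnit (a' u - a' v) := by
    intro u v huv
    have h1 : rep G u = rep G v := rep_eq huv.reachable
    have h2 : a' u - a' v = a u - a v := by
      show (a u - a (rep G u)) - (a v - a (rep G v)) = _
      rw [h1]; ring
    rw [h2]
    exact ha u v huv
  have ha0 : ∀ v, v = rep G v → a' v = 0 := by
    intro v hv
    show a v - a (rep G v) = 0
    rw [← hv, sub_self]
  -- the permutations
  let T := skewPerm (tau σ π) (mark (K := R ⧸ Z) G h)
  let P : R × (R ⧸ Z) → ((V × (R ⧸ Z)) × ZMod h ≃ W) := fun F =>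
    (Equiv.prodAssoc V (R ⧸ Z) (ZMod h)).trans ((Equiv.prodCongr (Equiv.refl V) Q).trans
      ((Equiv.prodShear (Equiv.refl V) (fun v => Equiv.addRight (a' v * F.1 + F.2.out))).trans
        E.symm))
  have hP : ∀ F v r z, E (P F ((v, r), z)) = (v, r.out + (ζ z : R) + (a' v * F.1 + F.2.out)) := by
    intro F v r z
    show E (E.symm _) = _
    rw [Equiv.apply_symm_apply]
    rfl
  let S : R × (R ⧸ Z) → Equiv.Perm W := fun F => ((P F).symm.trans T).trans (P F)
  have hS : ∀ F e, S F (P F e) = P F (T e) := by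
    intro F e
    show P F (T ((P F).symm (P F e))) = _
    rw [Equiv.symm_apply_apply]
  have hT : ∀ v r z, T ((v, r), z) = ((σ r v, π (σ r v) r), z + mark G h (v, r)) :=
    fun v r z => rfl
  -- the arcs
  let D : W → W → Prop := fun x y => ∃ i, σ i (f x) = f y
  have hD : ∀ x y, (G.comap f).Adj x y ↔ D x y ∨ D y x := fun x y => hG (f x) (f y)
  have hlab : ∀ x y, D x y → ∃ F, S F x = y := by
    rintro x y ⟨r, hr⟩
    have hadj : G.Adj (f x) (f y) := (hG _ _).2 (Or.inl ⟨r, hr⟩)
    obtain ⟨u, hu⟩ := ha' _ _ hadj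
    have hui : (u : R) * (↑u⁻¹ : R) = 1 := u.mul_inv
    -- it is enough to solve for the parameters
    have key : ∀ (F : R × (R ⧸ Z)) (z : ZMod h),
        (E x).2 = r.out + (ζ z : R) + (a' (f x) * F.1 + F.2.out) →
        (E y).2 = (π (f y) r).out + (ζ (z + mark G h (f x, r)) : R) +
          (a' (f y) * F.1 + F.2.out) → S F x = y := by
      intro F z h1 h2
      have h3 : x = P F ((f x, r), z) := by
        apply E.injective
        rw [hP]
        exact Prod.ext (hE x) h1
      have h4 : y = P F (T ((f x, r), z)) := by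
        apply E.injective
        rw [hT, hr, hP]
        exact Prod.ext (hE y) h2
      rw [h4, ← hS, ← h3]
    by_cases hm : f x = rep G (f x) ∧ r = 0
    · have hm1 : mark G h (f x, r) = (1 : ZMod h) := if_pos hm
      have h0 : a' (f x) = 0 := ha0 _ hm.1
      obtain ⟨b, z, hbz⟩ := hdec ((E x).2 - r.out)
      refine ⟨((↑u⁻¹ : R) * ((π (f y) r).out + (ζ (z + 1) : R) + b.out - (E y).2), b),
        key _ z ?_ ?_⟩
      · rw [h0]
        linear_combination hbz
      · rw [hm1]
        have h1 : a' (f y) = -(u : R) := by rw [hu, h0]; ring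
        rw [h1]
        dsimp only
        linear_combination ((π (f y) r).out + (ζ (z + 1) : R) + b.out - (E y).2) * hui
    · have hm1 : mark G h (f x, r) = (0 : ZMod h) := if_neg hm
      obtain ⟨b, z, hbz⟩ := hdec ((E x).2 - r.out - a' (f x) *
        ((↑u⁻¹ : R) * ((E x).2 - (E y).2 - r.out + (π (f y) r).out)))
      refine ⟨((↑u⁻¹ : R) * ((E x).2 - (E y).2 - r.out + (π (f y) r).out), b), key _ z ?_ ?_⟩
      · dsimp only
        linear_combination hbz
      · rw [hm1, add_zero]
        dsimp only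
        have h1 : a' (f y) = a' (f x) - (u : R) := by rw [hu]; ring
        rw [h1]
        linear_combination hbz + ((E x).2 - (E y).2 - r.out + (π (f y) r).out) * hui
  have hlen : ∀ F x, 2 * k * k * h ≤ minimalPeriod (S F) x := by
    intro F x
    obtain ⟨e, rfl⟩ := (P F).surjective x
    rw [period_conj (P F) T (S F) (fun e => hS F e)]
    obtain ⟨e, z⟩ := e
    have h1 := skew_period (tau σ π) (mark (K := R ⧸ Z) G h) e z
    rw [sum_mark hG hπ h e, ZMod.addOrderOf_one] at h1
    have h2 : 0 < minimalPeriod T (e, z) :=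
      minimalPeriod_pos_of_mem_periodicPts (T.injective.mem_periodicPts _)
    have h3 := Nat.le_of_dvd h2 h1
    have h4 := trail_length hG hπ (2 * k) hdeg e
    rw [hKc] at h4
    exact (Nat.mul_le_mul_right h h4).trans h3
  have hcov := cov_perm (G.comap f) D hD S hlab (fun x => by
    have hkR : (0 : ℝ) < k := by exact_mod_cast hk
    have hhR : (0 : ℝ) < h := by exact_mod_cast hpos
    refine le_trans (sum_le_sum (g := fun _ => (2 : ℝ) / (2 * k * k * h)) fun F _ => ?_) ?_
    · split_ifs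
      · have h1 : (2 * k * k * h : ℝ) ≤ minimalPeriod (S F) x := by exact_mod_cast hlen F x
        exact div_le_div_of_nonneg_left (by norm_num) (by positivity) h1
      · positivity
    · rw [sum_const, card_univ, Fintype.card_prod, ← Nat.card_eq_fintype_card,
        ← Nat.card_eq_fintype_card, hKc, hcR, nsmul_eq_mul]
      push_cast
      refine le_of_eq ?_
      field_simp)
  have hcard : Fintype.card (R × (R ⧸ Z)) = k * Nat.card R := by
    rw [Fintype.card_prod, ← Nat.card_eq_fintype_card, ← Nat.card_eq_fintype_card, hKc, mul_comm]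
  rwa [hcard] at hcov

end Pool.Agent.R448.LP
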