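import Pool.Agent.H79.LA.R448_LDDec

set_option autoImplicit false

/-!
Linear arboricity of graphs with an orientation without short directed cycles.
-/

namespace Pool.Agent.R448.LD

open Finset SimpleGraph H931R3.LA Pool.Agent.W111.LAR

/-- Local criterion: every directed cycle through `v` has length at least twice the minimum of the
outdegree and the indegree of `v`. -/
theorem cov_local {V : Type} [Finite V] (G : SimpleGraph V) (D : V → V → Prop) (k : ℕ)
    (hD : ∀ u v, G.Adj u v ↔ D u v ∨ D v u)
    (hout : ∀ v, {w | D v w}.ncard ≤ k) (hin : ∀ v, {w | D w v}.ncard ≤ k)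
    (hcyc : ∀ (n : ℕ) (c : ZMod n → V), 0 < n → Function.Injective c →
      (∀ j, D (c j) (c (j + 1))) → ∀ j,
        2 * min {w | D (c j) w}.ncard {w | D w (c j)}.ncard ≤ n) :
    Cov G (k + 1) := by
  classical
  obtain ⟨lab, h0, h1, h2⟩ := labels D k hout hin
  have hirr : ∀ v, ¬ D v v := fun v h => G.loopless.irrefl v ((hD v v).2 (Or.inl h))
  have hsup := lg_sup (k := k) hD h0
  have key := cov_of_load (fun i : Fin k => lg D lab i) (fun i v => lg_deg h1 h2 i v) (by
    intro v
    set μ := min {w | D v w}.ncard {w | D w v}.ncard with hμ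
    set S : Finset (Fin k) := univ.filter (fun i : Fin k => Cyc (lg D lab i) v) with hS
    have hS1 : S.card ≤ {w | D v w}.ncard := by
      have hch : ∀ i : Fin k, ∃ w, i ∈ S → D v w ∧ lab v w = i := by
        intro i
        by_cases hi : i ∈ S
        · obtain ⟨w, hw⟩ := cyc_out h2 (mem_filter.1 hi).2
          exact ⟨w, fun _ => hw⟩
        · exact ⟨v, fun h => absurd h hi⟩
      choose g hg using hch
      have h3 : (S.image g).card = S.card := by
        refine card_image_of_injOn ?_
        intro i hi j hj hij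
        have h4 := (hg i hi).2
        have h5 := (hg j hj).2
        have hij' : g i = g j := hij
        rw [hij', h5] at h4
        exact Fin.ext h4.symm
      rw [← h3, ← Set.ncard_coe_finset]
      refine Set.ncard_le_ncard ?_ (Set.toFinite _)
      intro w hw
      obtain ⟨i, hi, rfl⟩ := mem_image.1 (mem_coe.1 hw)
      exact (hg i hi).1
    have hS2 : S.card ≤ {w | D w v}.ncard := by
      have hch : ∀ i : Fin k, ∃ w, i ∈ S → D w v ∧ lab w v = i := by
        intro i
        by_cases hi : i ∈ S
        · obtain ⟨w, hw⟩ := cyc_in h1 (mem_filter.1 hi).2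
          exact ⟨w, fun _ => hw⟩
        · exact ⟨v, fun h => absurd h hi⟩
      choose g hg using hch
      have h3 : (S.image g).card = S.card := by
        refine card_image_of_injOn ?_
        intro i hi j hj hij
        have h4 := (hg i hi).2
        have h5 := (hg j hj).2
        have hij' : g i = g j := hij
        rw [hij', h5] at h4
        exact Fin.ext h4.symm
      rw [← h3, ← Set.ncard_coe_finset]
      refine Set.ncard_le_ncard ?_ (Set.toFinite _)
      intro w hw
      obtain ⟨i, hi, rfl⟩ := mem_image.1 (mem_coe.1 hw)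
      exact (hg i hi).1
    rw [← sum_filter]
    rcases Nat.eq_zero_or_pos μ with hμ0 | hμ0
    · have h3 : S.card = 0 := by omega
      have h4 : S = ∅ := card_eq_zero.1 h3
      rw [show univ.filter (fun i : Fin k => Cyc (lg D lab i) v) = ∅ from h4]
      simp
    · have hμR : (0 : ℝ) < μ := by exact_mod_cast hμ0
      have hterm : ∀ i ∈ S, (2 : ℝ) / csize (lg D lab i) v ≤ 1 / μ := by
        intro i hi
        obtain ⟨n, c, hn, hle, hinj, harc, hc0⟩ := cyc_dir hirr h2 (mem_filter.1 hi).2
        have h3 := hcyc n c hn hinj harc 0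
        rw [hc0] at h3
        have h4 : 2 * μ ≤ csize (lg D lab i) v := h3.trans hle
        have h5 : (2 * μ : ℝ) ≤ csize (lg D lab i) v := by exact_mod_cast h4
        rw [div_le_div_iff₀ (by linarith) hμR]
        linarith
      refine le_trans (sum_le_sum hterm) ?_
      rw [sum_const, nsmul_eq_mul, mul_one_div, div_le_one hμR]
      have h3 : S.card ≤ μ := le_min hS1 hS2
      exact_mod_cast h3)
  rw [hsup, Fintype.card_fin] at key
  exact key

/-- All directed cycles have length at least `2 m`. -/
theorem cov_global {V : Type} [Finite V] (G : SimpleGraph V) (D : V → V → Prop) (k m : ℕ)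
    (hm : 1 ≤ m) (hD : ∀ u v, G.Adj u v ↔ D u v ∨ D v u)
    (hout : ∀ v, {w | D v w}.ncard ≤ k) (hin : ∀ v, {w | D w v}.ncard ≤ k)
    (hcyc : ∀ (n : ℕ) (c : ZMod n → V), 0 < n → Function.Injective c →
      (∀ j, D (c j) (c (j + 1))) → 2 * m ≤ n) :
    Cov G (k + (k + m - 1) / m) := by
  classical
  obtain ⟨lab, h0, h1, h2⟩ := labels D k hout hin
  have hirr : ∀ v, ¬ D v v := fun v h => G.loopless.irrefl v ((hD v v).2 (Or.inl h))
  have hsup := lg_sup (k := k) hD h0
  have key := cov_group (fun i : Fin k => lg D lab i) m hm (fun i v => lg_deg h1 h2 i v)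
    (fun i v h => by
      obtain ⟨n, c, hn, hle, hinj, harc, _⟩ := cyc_dir hirr h2 h
      exact (hcyc n c hn hinj harc).trans hle) k univ (by simp)
  have h3 : (⨆ i ∈ (univ : Finset (Fin k)), lg D lab i) = G := by
    rw [← hsup]
    simp
  rw [h3] at key
  exact key

/-- A graph of maximum degree at most one together with an oriented graph. -/
theorem cov_odd {V : Type} [Finite V] (G P : SimpleGraph V) (D : V → V → Prop) (k : ℕ)
    (hP : ∀ v, (P.neighborSet v).ncard ≤ 1) (hD : ∀ u v, G.Adj u v ↔ D u v ∨ D v u)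
    (hout : ∀ v, {w | D v w}.ncard ≤ k) (hin : ∀ v, {w | D w v}.ncard ≤ k)
    (hcyc : ∀ (n : ℕ) (c : ZMod n → V), 0 < n → Function.Injective c →
      (∀ j, D (c j) (c (j + 1))) → 12 * k ≤ n + 8) :
    Cov (P ⊔ G) (k + 1) := by
  classical
  obtain ⟨lab, h0, h1, h2⟩ := labels D k hout hin
  have hirr : ∀ v, ¬ D v v := fun v h => G.loopless.irrefl v ((hD v v).2 (Or.inl h))
  have hsup := lg_sup (k := k) hD h0
  have key := cov_matching (fun i : Fin k => lg D lab i) P (fun i v => lg_deg h1 h2 i v) hP
    (12 * k - 8) (by rw [Fintype.card_fin]; omega) (fun i v h => by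
      obtain ⟨n, c, hn, hle, hinj, harc, _⟩ := cyc_dir hirr h2 h
      have := hcyc n c hn hinj harc
      omega)
  rw [hsup, Fintype.card_fin] at key
  exact key

/-- The number of arcs of a directed cycle in a cyclically layered graph. -/
theorem layer_cycle {V : Type} {D : V → V → Prop} {N j : ℕ} (f : V → ZMod N)
    (hf : ∀ u v, D u v → ∃ t : ℕ, 1 ≤ t ∧ t ≤ j ∧ f v = f u + t)
    (n : ℕ) (hn : 0 < n) (c : ZMod n → V) (harc : ∀ i, D (c i) (c (i + 1))) : N ≤ n * j := by
  classical
  have : NeZero n := ⟨hn.ne'⟩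
  choose t ht1 ht2 ht3 using fun i => hf _ _ (harc i)
  have h1 : ∑ i, f (c (i + 1)) = ∑ i, f (c i) :=
    Equiv.sum_comp (Equiv.addRight (1 : ZMod n)) (fun i => f (c i))
  simp_rw [ht3] at h1
  rw [sum_add_distrib] at h1
  have h2 : ((∑ i, t i : ℕ) : ZMod N) = 0 := by
    push_cast
    simpa using h1
  rw [ZMod.natCast_eq_zero_iff] at h2
  have h3 : 0 < ∑ i, t i := by
    refine lt_of_lt_of_le (ht1 0) (single_le_sum (f := t) (fun i _ => Nat.zero_le _) (mem_univ 0))
  have h4 : ∑ i, t i ≤ n * j := by
    refine le_trans (sum_le_sum (g := fun _ => j) fun i _ => ht2 i) ?_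
    rw [sum_const, smul_eq_mul, card_univ, ZMod.card]
  exact (Nat.le_of_dvd h3 h2).trans h4

end Pool.Agent.R448.LD
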