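import Pool.Agent.H79.LA.R448_LPerm

set_option autoImplicit false

/-!
Transition systems of a digraph given by permutations in which all arcs of a component belong to the
same closed trail.
-/

namespace Pool.Agent.R448.LP

open Finset SimpleGraph H931R3.LA Pool.Agent.W111.LAR Function

theorem sameCycle_of_iterate {E : Type} (τ : Equiv.Perm E) (n : ℕ) (x : E) :
    τ.SameCycle x (τ^[n] x) := by
  refine ⟨(n : ℤ), ?_⟩
  rw [zpow_natCast, Equiv.Perm.iterate_eq_pow]

/-- Multiplication with a transposition merges two cycles. -/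
theorem merge {E : Type} [Finite E] [DecidableEq E] (τ : Equiv.Perm E) (a b : E)
    (hab : ¬ τ.SameCycle a b) : (Equiv.swap a b * τ).SameCycle a b ∧
      ∀ x y, τ.SameCycle x y → (Equiv.swap a b * τ).SameCycle x y := by
  set τ' := Equiv.swap a b * τ with hτ'
  have happ : ∀ x, τ' x = Equiv.swap a b (τ x) := fun x => rfl
  have hp : 0 < minimalPeriod τ a :=
    minimalPeriod_pos_of_mem_periodicPts (τ.injective.mem_periodicPts a)
  have h1 : ∀ j, j < minimalPeriod τ a → τ'^[j] a = τ^[j] a := by
    intro j
    induction j with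
    | zero => intro _; rfl
    | succ j ih =>
      intro hj
      rw [iterate_succ_apply', ih (by omega), happ, ← iterate_succ_apply' τ]
      refine Equiv.swap_apply_of_ne_of_ne ?_ ?_
      · intro h
        have h2 : IsPeriodicPt τ (j + 1) a := h
        have h3 := h2.minimalPeriod_le (Nat.succ_pos j)
        omega
      · intro h
        exact hab (h ▸ sameCycle_of_iterate τ (j + 1) a)
  have h2 : τ'.SameCycle a b := by
    obtain ⟨p, hpp⟩ : ∃ p, minimalPeriod τ a = p + 1 := ⟨_, (Nat.succ_pred_eq_of_pos hp).symm⟩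
    have h3 : τ'^[p + 1] a = b := by
      rw [iterate_succ_apply', h1 p (by omega), happ, ← iterate_succ_apply' τ]
      have h4 : τ^[p + 1] a = a := by
        rw [← hpp]
        exact isPeriodicPt_minimalPeriod τ a
      rw [h4, Equiv.swap_apply_left]
    exact h3 ▸ sameCycle_of_iterate τ' (p + 1) a
  have h3 : ∀ x, τ'.SameCycle x (τ x) := by
    intro x
    have h4 : τ'.SameCycle x (τ' x) := sameCycle_of_iterate τ' 1 x
    rw [happ] at h4
    by_cases ha : τ x = a
    · rw [ha, Equiv.swap_apply_left] at h4
      rw [ha]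
      exact h4.trans h2.symm
    · by_cases hb : τ x = b
      · rw [hb, Equiv.swap_apply_right] at h4
        rw [hb]
        exact h4.trans h2
      · rwa [Equiv.swap_apply_of_ne_of_ne ha hb] at h4
  refine ⟨h2, fun x y hxy => ?_⟩
  obtain ⟨n, rfl⟩ := hxy.exists_nat_pow_eq
  induction n with
  | zero => exact Equiv.Perm.SameCycle.refl _ _
  | succ n ih =>
    rw [pow_succ', Equiv.Perm.mul_apply]
    exact (ih (Equiv.Perm.sameCycle_pow_right.2 (Equiv.Perm.SameCycle.refl _ _))).trans (h3 _)

/-- The permutation of the arcs `(v, r)`, from `v` to `σ r v`, given by the transitions `π`. -/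
def tau {V K : Type} (σ : K → Equiv.Perm V) (π : V → Equiv.Perm K) : Equiv.Perm (V × K) where
  toFun p := (σ p.2 p.1, π (σ p.2 p.1) p.2)
  invFun p := ((σ ((π p.1).symm p.2)).symm p.1, (π p.1).symm p.2)
  left_inv := by rintro ⟨v, r⟩; simp
  right_inv := by rintro ⟨v, r⟩; simp

theorem tau_update {V K : Type} [DecidableEq V] [DecidableEq K] (σ : K → Equiv.Perm V)
    (π : V → Equiv.Perm K) (v : V) (r r' : K) :
    tau σ (Function.update π v (Equiv.swap r r' * π v)) =
      Equiv.swap (v, r) (v, r') * tau σ π := by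
  ext ⟨u, i⟩ : 1
  show (σ i u, (Function.update π v (Equiv.swap r r' * π v)) (σ i u) i) =
    Equiv.swap (v, r) (v, r') (σ i u, π (σ i u) i)
  by_cases h : σ i u = v
  · rw [h, Function.update_self]
    show (v, Equiv.swap r r' (π v i)) = _
    by_cases h1 : π v i = r
    · rw [h1, Equiv.swap_apply_left, Equiv.swap_apply_left]
    · by_cases h2 : π v i = r'
      · rw [h2, Equiv.swap_apply_right, Equiv.swap_apply_right]
      · rw [Equiv.swap_apply_of_ne_of_ne h1 h2, Equiv.swap_apply_of_ne_of_ne]
        · intro h3; exact h1 (congrArg Prod.snd h3)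
        · intro h3; exact h2 (congrArg Prod.snd h3)
  · rw [Function.update_of_ne h, Equiv.swap_apply_of_ne_of_ne]
    · intro h3; exact h (congrArg Prod.fst h3)
    · intro h3; exact h (congrArg Prod.fst h3)

/-- Transitions such that all arcs leaving a vertex are in the same closed trail. -/
theorem exists_transitions {V K : Type} [Finite V] [Finite K] (σ : K → Equiv.Perm V) :
    ∃ π : V → Equiv.Perm K, ∀ v r r', (tau σ π).SameCycle (v, r) (v, r') := by
  classical
  have := Fintype.ofFinite V
  have := Fintype.ofFinite K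
  let N : (V → Equiv.Perm K) → ℕ := fun π =>
    (univ.filter (fun p : (V × K) × (V × K) => (tau σ π).SameCycle p.1 p.2)).card
  obtain ⟨π, hπ⟩ := Finite.exists_max N
  refine ⟨π, fun v r r' => ?_⟩
  by_contra hcon
  obtain ⟨h1, h2⟩ := merge (tau σ π) (v, r) (v, r') hcon
  have h3 := hπ (Function.update π v (Equiv.swap r r' * π v))
  have h4 : N π < N (Function.update π v (Equiv.swap r r' * π v)) := by
    refine card_lt_card ?_
    rw [tau_update]
    refine (ssubset_iff_of_subset ?_).2 ⟨((v, r), (v, r')), ?_, ?_⟩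
    · intro p hp
      rw [mem_filter] at hp ⊢
      exact ⟨mem_univ _, h2 _ _ hp.2⟩
    · exact mem_filter.2 ⟨mem_univ _, h1⟩
    · intro hp
      exact hcon (mem_filter.1 hp).2
  omega

/-- All arcs of a component are in the same closed trail. -/
theorem same_trail {V K : Type} {G : SimpleGraph V} {σ : K → Equiv.Perm V}
    {π : V → Equiv.Perm K} (hG : ∀ u v, G.Adj u v → ∃ i, σ i u = v ∨ σ i v = u)
    (hπ : ∀ v r r', (tau σ π).SameCycle (v, r) (v, r')) {u v : V} (h : G.Reachable u v)
    (r s : K) : (tau σ π).SameCycle (u, r) (v, s) := by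
  have hstep : ∀ (u : V) (i r s : K), (tau σ π).SameCycle (u, r) (σ i u, s) := by
    intro u i r s
    have h1 : (tau σ π).SameCycle (u, i) (tau σ π (u, i)) := sameCycle_of_iterate _ 1 _
    exact ((hπ u r i).trans h1).trans (hπ _ _ s)
  obtain ⟨p⟩ := h
  induction p with
  | nil => exact hπ _ _ _
  | @cons u w v h p ih =>
    obtain ⟨i, hi | hi⟩ := hG u w h
    · exact (hi ▸ hstep u i r r).trans (ih)
    · exact (hi ▸ (hstep w i r r)).symm.trans (ih)

end Pool.Agent.R448.LP
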