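import Pool.Agent.H79.LA.R448_LSigma

set_option autoImplicit false

/-!
Finite commutative rings with many elements whose differences are units.
-/

namespace Pool.Agent.R448.LP

open Finset

theorem exists_ring (m c : ℕ) (hm : 0 < m)
    (hpp : ∀ p, p.Prime → p ∣ m → c ≤ p ^ m.factorization p) :
    ∃ (R : Type) (_ : CommRing R) (_ : Finite R), Nat.card R = m ∧
      ∃ a : Fin c → R, ∀ i j, i ≠ j → IsUnit (a i - a j) := by
  classical
  have hfact : ∀ p : m.primeFactors, Fact (p.1.Prime) := fun p =>
    ⟨Nat.prime_of_mem_primeFactors p.2⟩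
  have hne : ∀ p : m.primeFactors, m.factorization p.1 ≠ 0 := fun p =>
    (Nat.Prime.factorization_pos_of_dvd (hfact p).out hm.ne'
      (Nat.dvd_of_mem_primeFactors p.2)).ne'
  have hcard : ∀ p : m.primeFactors,
      Nat.card (GaloisField p.1 (m.factorization p.1)) = p.1 ^ m.factorization p.1 :=
    fun p => GaloisField.card p.1 _ (hne p)
  have hfin : ∀ p : m.primeFactors, Finite (GaloisField p.1 (m.factorization p.1)) := fun p =>
    Nat.finite_of_card_ne_zero (by
      rw [hcard]
      exact (pow_pos (hfact p).out.pos _).ne')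
  have hinj : ∀ p : m.primeFactors, ∃ f : Fin c → GaloisField p.1 (m.factorization p.1),
      Function.Injective f := by
    intro p
    have := Fintype.ofFinite (GaloisField p.1 (m.factorization p.1))
    have h1 : Fintype.card (Fin c) ≤ Fintype.card (GaloisField p.1 (m.factorization p.1)) := by
      rw [Fintype.card_fin, ← Nat.card_eq_fintype_card, hcard]
      exact hpp p.1 (hfact p).out (Nat.dvd_of_mem_primeFactors p.2)
    obtain ⟨g⟩ := Function.Embedding.nonempty_of_card_le h1
    exact ⟨g, g.injective⟩
  choose f hf using hinj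
  refine ⟨(p : m.primeFactors) → GaloisField p.1 (m.factorization p.1), inferInstance,
    inferInstance, ?_, fun i p => f p i, ?_⟩
  · rw [Nat.card_pi]
    simp_rw [hcard]
    rw [Finset.prod_coe_sort m.primeFactors (fun p => p ^ m.factorization p)]
    exact Nat.prod_factorization_pow_eq_self hm.ne'
  · intro i j hij
    rw [Pi.isUnit_iff]
    intro p
    rw [isUnit_iff_ne_zero]
    show f p i - f p j ≠ 0
    rw [sub_ne_zero]
    exact fun h => hij (hf p h)

end Pool.Agent.R448.LP
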