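import Pool.Agent.H79.LA.Q251_LA_Col

/-!
# Linear arboricity of blow-ups of regular graphs
-/

set_option autoImplicit false

namespace Pool.Agent.H79.LAR.BlowUps

open SimpleGraph H931R3.LA Finset

/-- The blow-up of `G`: every vertex `v` is replaced by `m` independent vertices `(v, i)`, and
`(v, i)`, `(w, j)` are adjacent if and only if `v` and `w` are. -/
def blowUp {V : Type} (G : SimpleGraph V) (m : ℕ) : SimpleGraph (V × Fin m) := G.comap Prod.fst

/-- The number `1 + δ (1 + (δ - 1) + ⋯ + (δ - 1)^(d - 1))` of the Moore bound. -/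
def moore (δ d : ℕ) : ℕ := 1 + δ * ∑ i ∈ range d, (δ - 1) ^ i

theorem moore_one (δ : ℕ) : moore δ 1 = 1 + δ := by
  simp [moore]

theorem moore_two (δ : ℕ) (h : 1 ≤ δ) : moore δ 2 = 1 + δ ^ 2 := by
  obtain ⟨e, rfl⟩ := Nat.exists_eq_add_of_le' h
  simp [moore, sum_range_succ]
  ring

theorem blow_deg {V : Type} [Finite V] (G : SimpleGraph V) (r m : ℕ)
    (hreg : ∀ v, (G.neighborSet v).ncard = r) (x : V × Fin m) :
    ((blowUp G m).neighborSet x).ncard = r * m := by
  have h1 : (blowUp G m).neighborSet x = G.neighborSet x.1 ×ˢ (Set.univ : Set (Fin m)) := by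
    ext y
    simp [blowUp]
  rw [h1, Set.ncard_prod, hreg, Set.ncard_univ, Nat.card_eq_fintype_card, Fintype.card_fin]

open Classical in
theorem long {V : Type} [Finite V] (G : SimpleGraph V) (r m d : ℕ) (hr : 0 < r) (hm : 0 < m)
    (hreg : ∀ v, (G.neighborSet v).ncard = r) (hpar : Even r ∨ Even m)
    (hcyc : ∀ (v : V) (c : G.Walk v v), c.IsCycle → 2 * d < c.length) :
    Pool.Agent.Y423.LA.Long (blowUp G m) (r * m / 2)
      (moore (if Even r then min (2 * m) r else min m r) d * m) := by
  have := Fintype.ofFinite V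
  have hm0 : NeZero m := ⟨by omega⟩
  by_cases he : Even r
  · rw [if_pos he]
    obtain ⟨k, hk⟩ := he
    have hk0 : NeZero k := ⟨by omega⟩
    obtain ⟨f, hf1, hf2⟩ := Pool.Agent.Q251.LA.col_even G k (fun v => by rw [hreg v]; omega)
    obtain ⟨H, h1, h2, -, h3⟩ := Pool.Agent.Q251.LA.fac (m := m) (n := m)
      (by rw [Fintype.card_unit, one_mul]) f hf1 hf2 (min (2 * m) r) d
      (by rw [Fintype.card_unit, mul_one]; omega) hcyc
    refine ⟨ZMod k × Fin m, inferInstance, H, ?_, h1, h3, h2⟩
    rw [Fintype.card_prod, ZMod.card, Fintype.card_fin, hk]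
    have : (k + k) * m = k * m * 2 := by ring
    rw [this, Nat.mul_div_cancel _ (by norm_num)]
  · rw [if_neg he]
    have hme : Even m := hpar.resolve_left he
    obtain ⟨n, hn⟩ := hme
    have hn0 : NeZero n := ⟨by omega⟩
    have hr0 : NeZero r := ⟨by omega⟩
    obtain ⟨f, hf1, hf2⟩ := Pool.Agent.Q251.LA.col_dbl G r hreg
    obtain ⟨H, h1, h2, -, h3⟩ := Pool.Agent.Q251.LA.fac (m := m) (n := n)
      (by rw [Fintype.card_bool]; omega) f hf1 hf2 (min m r) d
      (by rw [Fintype.card_bool]; omega) hcyc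
    refine ⟨ZMod r × Fin n, inferInstance, H, ?_, h1, h3, h2⟩
    rw [Fintype.card_prod, ZMod.card, Fintype.card_fin, hn]
    have : r * (n + n) = r * n * 2 := by ring
    rw [this, Nat.mul_div_cancel _ (by norm_num)]

open Classical in
/-- **The linear arboricity conjecture for blow-ups.**
Let `G` be any finite `r`-regular graph, `r ≥ 1`, and let `G[m]` be the graph obtained by replacing
every vertex by `m ≥ 1` independent vertices; it is `r m`-regular.  Let `r` or `m` be even, and put
`δ = min (2 m, r)` if `r` is even and `δ = min (m, r)` if `r` is odd.  If all the cycles of `G` are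
longer than `2 d` and `r ≤ 1 + δ (1 + (δ - 1) + ⋯ + (δ - 1)^(d - 1))`, then
`la (G[m]) = ⌈(r m + 1) / 2⌉`.

The case `d = 1` (no condition on the cycles): it holds for every `r`-regular graph `G` if `r` is even
and `2 m + 1 ≥ r`, and if `r` is odd, `m` is even and `m + 1 ≥ r`.  The case `d = 2`: it holds for every
`r`-regular graph without triangles and quadrilaterals if `r` is even and `4 m² + 1 ≥ r`.  For fixed
`m ≥ 2` (`r` even) it holds for all `r`-regular graphs whose girth is larger than a constant multiple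
of `log r`. -/
theorem result (V : Type) [Finite V] [Nonempty V] (G : SimpleGraph V) (r m d : ℕ) (hr : 0 < r)
    (hm : 0 < m) (hreg : ∀ v, (G.neighborSet v).ncard = r) (hpar : Even r ∨ Even m)
    (hcyc : ∀ (v : V) (c : G.Walk v v), c.IsCycle → 2 * d < c.length)
    (hb : r ≤ moore (if Even r then min (2 * m) r else min m r) d) :
    (∀ x, ((blowUp G m).neighborSet x).ncard = r * m) ∧ la (blowUp G m) = (r * m + 2) / 2 := by
  have hne : Nonempty (V × Fin m) := ⟨(Classical.arbitrary V, ⟨0, hm⟩)⟩
  refine ⟨blow_deg G r m hreg, ?_⟩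
  refine Pool.Agent.Y423.LA.la_of_long (Nat.mul_pos hr hm) ?_ (blow_deg G r m hreg)
    (long G r m d hr hm hreg hpar hcyc) (Nat.mul_le_mul_right m hb)
  rcases hpar with h | h
  · exact h.mul_right m
  · exact h.mul_left r

end Pool.Agent.H79.LAR.BlowUps
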