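import Pool.Agent.H79.LA.TH525_LAD_Split
import Pool.Agent.H79.LA.TH525_LAD_Reg

set_option autoImplicit false

/-!
# The linear arboricity conjecture for graphs of maximum degree at least twice the degeneracy

`H931R3.LA.la G` is the linear arboricity (the same expression as in the frozen statement S07085).
`Degenerate G k` says that `G` is `k`-degenerate.
-/

namespace Pool.Agent.H79.LAR.DegeneracyHalf

open SimpleGraph H931R3.LA Pool.Agent.TH525.LAD

/-- `G` is `k`-degenerate: every nonempty set of vertices contains a vertex with at most `k`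
neighbours in that set. -/
def Degenerate {V : Type} (G : SimpleGraph V) (k : ℕ) : Prop :=
  ∀ S : Set V, S.Nonempty → ∃ v ∈ S, (G.neighborSet v ∩ S).ncard ≤ k

/-- **The linear arboricity conjecture when the degeneracy is at most half the maximum degree.**

(a) The equality of Q1 for all regular graphs is equivalent to the inequality
`la G ≤ ⌈(r + 1) / 2⌉` for all graphs `G` of maximum degree at most `r`.
(b) This inequality holds for every `k`-degenerate graph of maximum degree at most `r` such that
`2 k ≤ r`, or `r` is even and `2 k ≤ r + 2`.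
(c) If moreover the maximum degree `r` is odd, then `la G = ⌈r / 2⌉`.
(d) If `G` is bipartite of maximum degree `r` and `k`-degenerate with `2 k ≤ r + 1`, then
`la G = ⌈r / 2⌉`. -/
theorem result :
    ((∀ (V : Type) [Finite V] [Nonempty V] (G : SimpleGraph V) (r : ℕ), 0 < r →
        (∀ v, (G.neighborSet v).ncard = r) → la G = (r + 2) / 2) ↔
      (∀ (V : Type) [Finite V] (G : SimpleGraph V) (r : ℕ), 0 < r →
        (∀ v, (G.neighborSet v).ncard ≤ r) → la G ≤ (r + 2) / 2)) ∧
    (∀ (V : Type) [Finite V] (G : SimpleGraph V) (r k : ℕ), Degenerate G k →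
      (∀ v, (G.neighborSet v).ncard ≤ r) → (2 * k ≤ r ∨ (Even r ∧ 2 * k ≤ r + 2)) →
      la G ≤ (r + 2) / 2) ∧
    (∀ (V : Type) [Finite V] (G : SimpleGraph V) (r k : ℕ), Degenerate G k →
      (∀ v, (G.neighborSet v).ncard ≤ r) → (∃ v, (G.neighborSet v).ncard = r) →
      Odd r → 2 * k ≤ r → la G = (r + 1) / 2) ∧
    (∀ (V : Type) [Finite V] (G : SimpleGraph V) (r k : ℕ), Degenerate G k →
      (∀ v, (G.neighborSet v).ncard ≤ r) → (∃ v, (G.neighborSet v).ncard = r) →
      G.Colorable 2 → 2 * k ≤ r + 1 → la G = (r + 1) / 2) := by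
  refine ⟨⟨?_, ?_⟩, ?_, ?_, ?_⟩
  · intro h V _ G r hr hd
    obtain ⟨W, hW, H, hH, ⟨e⟩⟩ := exists_regular r r V G hd (fun v => Nat.le_add_left _ _)
    rcases isEmpty_or_nonempty V with hV | hV
    · have h1 : Cov G 0 := ⟨fun i => Fin.elim0 i, fun i => Fin.elim0 i, by
        ext a; exact (hV.false a).elim⟩
      exact le_trans (la_le h1) (Nat.zero_le _)
    · have : Nonempty W := hV.map e
      rw [← h W H r hr hH]
      exact la_le ((cov_la H).comap e)
  · intro h V _ _ G r hr hd
    exact le_antisymm (h V G r hr fun v => (hd v).le) (lower hr (cov_la G) hd)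
  · intro V _ G r k hk hd hkr
    refine la_le ?_
    rcases hkr with hkr | ⟨⟨q, hq⟩, hkr⟩
    · exact cov_one G ((r + 2) / 2) k hk (fun v => by have := hd v; omega) (by omega)
    · exact cov_two G ((r + 2) / 2) k hk (fun v => by have := hd v; omega) (by omega)
  · intro V _ G r k hk hd ⟨v, hv⟩ ⟨q, hq⟩ hkr
    refine le_antisymm (la_le ?_) ?_
    · exact cov_one G ((r + 1) / 2) k hk (fun v => by have := hd v; omega) (by omega)
    · have := deg_le_of_cov (cov_la G) v
      omega
  · intro V _ G r k hk hd ⟨v, hv⟩ ⟨c⟩ hkr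
    refine le_antisymm (la_le ?_) ?_
    · refine cov_three G ((r + 1) / 2) k hk ⟨fun v => decide (c v = 0), ?_⟩
        (fun v => by have := hd v; omega) (by omega)
      intro a b hab h
      have h1 : c a ≠ c b := c.valid hab
      have h2 := congrArg (· = true) h
      simp only [decide_eq_true_eq, eq_iff_iff] at h2
      apply h1
      have h3 : ∀ x : Fin 2, x ≠ 0 → x = 1 := by decide
      by_cases h4 : c a = 0
      · rw [h4, h2.1 h4]
      · rw [h3 _ h4, h3 _ (fun h5 => h4 (h2.2 h5))]
    · have := deg_le_of_cov (cov_la G) v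
      omega

end Pool.Agent.H79.LAR.DegeneracyHalf
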