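import Pool.Agent.H79.LA.X76_Det24
import Pool.Agent.H79.LA.TH525_FRG_Hom

set_option autoImplicit false

/-!
Linear arboricity of graphs obtained from a regular graph with large components by substituting
arbitrary, possibly different, graphs of the same order for the vertices.

Proof idea.  Let `G` be connected and `r`-regular, and let all classes have `m` vertices.  Let `q`
linear forests cover the edges inside the classes, and let all inner degrees be smaller than `2 q`.
Then every vertex is an end of a path of one of the forests, so that every class has `t` vertices,
`2 q t ≥ m`, which are ends of different paths of the same forest; after permuting the forests in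
every class we may assume that this is the first forest for all classes.

Contract every class to a vertex; the edges between different classes become a multigraph with `m²`
edges for every edge of `G`.  Orient it balancedly and decompose the orientation into `r m / 2`
balanced parts which contain all pairs of adjacent vertices of `G` (Hoffman's circulation theorem).
`G` has at least `4 r q` vertices, so it has a matching of `r q` edges; choose in every part an edge
over an edge of this matching, every edge of the matching being used at most `t` times.  Subdivide the
chosen edges by a new vertex, add two more vertices and an additional part, and detach: split off the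
vertices one by one, by Hoffman's theorem, so that all parts stay connected.  Without the new
vertices the parts are linear forests and the additional part is a matching whose edges lie between
the classes of pairs of the matching of `G`.  After a permutation of the vertices in every class the
ends of these edges are the chosen ends of different paths of the first forest, so that they can be
added to this forest.
-/

namespace Pool.Agent.H79.LAR.DifferentInner

open SimpleGraph H931R3.LA

/-- The graph of the edges of `X` whose ends are in the same class of `f`. -/
def innerGraph {V W : Type} (X : SimpleGraph W) (f : W → V) : SimpleGraph W where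
  Adj x y := X.Adj x y ∧ f x = f y
  symm := ⟨fun _ _ h => ⟨h.1.symm, h.2.symm⟩⟩
  loopless := ⟨fun _ h => X.loopless.irrefl _ h.1⟩

/-- **Substitution of different graphs for the vertices of a regular graph with large
components.**  Let `G` be a finite `r`-regular graph, `r ≥ 1`, and let `X` be a finite graph whose
vertices are divided by a map `f` to the vertices of `G` into classes of the same size `m ≥ 1`, where
`r` is even and `m ≥ r / 2`, or `m` is even and `m ≥ r`.

(1) Suppose that `X` has edges between different classes only if the corresponding vertices of `G`
are adjacent, that the graph of the edges inside the classes has linear arboricity at most `q` and all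
degrees smaller than `2 q`, and that all components of `G` have at least `4 r q` vertices.  Then
`la X ≤ r m / 2 + q`.
(2) Suppose that `X` has all edges between classes which correspond to adjacent vertices of `G` and no
other edges between different classes, that the graph of the edges inside the classes is
`s`-regular and satisfies the linear arboricity conjecture, and that all components of the nonempty
graph `G` have at least `2 r (s + 2)` vertices.  Then `X` is `(r m + s)`-regular and satisfies the
conjecture, `la X = ⌈(r m + s + 1) / 2⌉`, and so does every nonempty finite `(r m + s)`-regular
graph with a locally injective homomorphism to `X`. -/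
theorem result :
    (∀ (V W : Type) [Finite V] [Finite W] (G : SimpleGraph V) (X : SimpleGraph W) (f : W → V)
      (r m q : ℕ), 0 < r → 0 < m → (∀ v, (G.neighborSet v).ncard = r) →
      (∀ v, {w | f w = v}.ncard = m) → (Even r ∧ r ≤ 2 * m) ∨ (Even m ∧ r ≤ m) →
      (∀ x y, f x ≠ f y → X.Adj x y → G.Adj (f x) (f y)) →
      la (innerGraph X f) ≤ q → (∀ x, ((innerGraph X f).neighborSet x).ncard < 2 * q) →
      (∀ C : G.ConnectedComponent, 4 * (r * q) ≤ C.supp.ncard) →
      la X ≤ r * m / 2 + q) ∧
    (∀ (V W : Type) [Finite V] [Nonempty V] [Finite W] (G : SimpleGraph V) (X : SimpleGraph W)
      (f : W → V) (r m s : ℕ), 0 < r → 0 < m → (∀ v, (G.neighborSet v).ncard = r) →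
      (∀ v, {w | f w = v}.ncard = m) → (Even r ∧ r ≤ 2 * m) ∨ (Even m ∧ r ≤ m) →
      (∀ x y, f x ≠ f y → (X.Adj x y ↔ G.Adj (f x) (f y))) →
      (∀ x, ((innerGraph X f).neighborSet x).ncard = s) →
      la (innerGraph X f) = (s + 2) / 2 →
      (∀ C : G.ConnectedComponent, 2 * (r * (s + 2)) ≤ C.supp.ncard) →
      (∀ x, (X.neighborSet x).ncard = r * m + s) ∧
      la X = (r * m + s + 2) / 2 ∧
      ∀ (Y : Type) [Finite Y] [Nonempty Y] (K : SimpleGraph Y) (h : Y → W),
        (∀ a b, K.Adj a b → X.Adj (h a) (h b)) →
        (∀ a b c, K.Adj a b → K.Adj a c → h b = h c → b = c) →
        (∀ a, (K.neighborSet a).ncard = r * m + s) →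
        la K = (r * m + s + 2) / 2) := by
  classical
  have hI : ∀ (V W : Type) (X : SimpleGraph W) (f : W → V), innerGraph X f = X76.Det.inner X f :=
    fun V W X f => rfl
  refine ⟨?_, ?_⟩
  · intro V W _ _ G X f r m q hr hm hdeg hf hrm hX hq hin hn
    apply la_le
    exact X76.Det.diff_cov G r m q hr hm f hf hdeg hrm X hX (la_le_iff.1 hq) hin hn
  · intro V W _ _ _ G X f r m s hr hm hdeg hf hrm hX hs hla hn
    have hev : Even (r * m) := by
      rcases hrm with h | h
      · exact h.1.mul_right _
      · exact h.1.mul_left _
    have hp : 0 < r * m := Nat.mul_pos hr hm
    have hW : Nonempty W := by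
      obtain ⟨v⟩ := ‹Nonempty V›
      obtain ⟨w, -⟩ : {w | f w = v}.Nonempty := by
        rw [← Set.ncard_pos (Set.toFinite _), hf]; exact hm
      exact ⟨w⟩
    have hd : ∀ x, (X.neighborSet x).ncard = r * m + s := by
      intro x
      have h1 : X.neighborSet x = {y | G.Adj (f x) (f y)} ∪ (innerGraph X f).neighborSet x := by
        ext y
        show X.Adj x y ↔ (G.Adj (f x) (f y) ∨ (X.Adj x y ∧ f x = f y))
        by_cases h : f x = f y
        · constructor
          · exact fun h' => Or.inr ⟨h', h⟩
          · rintro (h' | h')
            · rw [h] at h'
              exact absurd rfl h'.ne
            · exact h'.1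
        · rw [hX x y h]
          constructor
          · exact Or.inl
          · rintro (h' | h')
            · exact h'
            · exact absurd h'.2 h
      have h2 : Disjoint {y | G.Adj (f x) (f y)} ((innerGraph X f).neighborSet x) := by
        rw [Set.disjoint_left]
        rintro y h3 ⟨-, h4⟩
        have h5 : G.Adj (f x) (f y) := h3
        rw [h4] at h5
        exact h5.ne rfl
      have h3 : {y | G.Adj (f x) (f y)}.ncard = r * m := by
        have iV := Fintype.ofFinite V
        have iW := Fintype.ofFinite W
        rw [Set.ncard_eq_toFinset_card']
        rw [Finset.card_eq_sum_card_fiberwise (f := f) (t := (G.neighborSet (f x)).toFinset)]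
        · rw [Finset.sum_congr rfl (g := fun _ => m)]
          · rw [Finset.sum_const, smul_eq_mul, ← hdeg (f x), Set.ncard_eq_toFinset_card']
          · intro v hv
            rw [← hf v, Set.ncard_eq_toFinset_card']
            congr 1
            ext y
            simp only [Finset.mem_filter, Set.mem_toFinset, Set.mem_setOf_eq]
            constructor
            · exact fun h => h.2
            · intro h
              refine ⟨?_, h⟩
              rw [h]
              simpa using hv
        · intro y hy
          simpa using hy
      rw [h1, Set.ncard_union_eq h2 (Set.toFinite _) (Set.toFinite _), h3, hs]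
    have hcov : Cov X ((r * m + s + 2) / 2) := by
      have h3 : r * m / 2 + (s + 2) / 2 = (r * m + s + 2) / 2 := by
        obtain ⟨k, hk⟩ := hev
        omega
      rw [← h3]
      apply X76.Det.diff_cov G r m ((s + 2) / 2) hr hm f hf hdeg hrm X
        (fun x y h h' => (hX x y h).1 h') (la_le_iff.1 hla.le)
      · intro x
        rw [← hI, hs]
        omega
      · intro C
        refine le_trans ?_ (hn C)
        have h4 : 4 * (r * ((s + 2) / 2)) = 2 * (r * (2 * ((s + 2) / 2))) := by ring
        rw [h4]
        exact Nat.mul_le_mul_left _ (Nat.mul_le_mul_left _ (by omega))
    refine ⟨hd, ?_, ?_⟩
    · exact le_antisymm (la_le hcov) (lower (by omega) (cov_la _) hd)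
    · intro Y _ _ K h hhom hinj hreg
      exact le_antisymm (la_le (TH525.FRG.cov_hom K X h hhom hinj _ hcov))
        (lower (by omega) (cov_la _) hreg)

end Pool.Agent.H79.LAR.DifferentInner
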