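import Pool.Agent.H79.LA.X76_Det22
import Pool.Agent.H79.LA.TH525_LAD_Reg
import Pool.Agent.H79.LA.TH525_FRG_Hom

set_option autoImplicit false

/-!
Linear arboricity of lexicographic products `G[H]`.

Proof idea.  Let `G` be connected and `r`-regular, and let `H` have `m` vertices.  Let `q` linear
forests cover `H`, and let all degrees of `H` be smaller than `2 q`.  Then every vertex `x` of `H` is
an end of a path of the `idx x`-th forest, for a suitable `idx x`, and the vertices can be divided
into two types such that two ends of the same path have different types.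

Contract every copy of `H` to a vertex; the edges of `G[H]` between different copies become a
multigraph with `m²` edges for every edge of `G`.  Orient it balancedly and decompose the orientation
into `r m / 2` balanced parts which contain all pairs of adjacent vertices of `G` (Hoffman's
circulation theorem).  Choose in every part an edge over an edge of a fixed path `J` with `r` edges
of `G`, and a vertex `x` of `H`, such that edges over the even (odd) edges of `J` get vertices of the
first (second) type, and different edges over the same edge of `J` get different vertices.  Subdivide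
the chosen edges by a new vertex `s`, form an additional part of the chosen edges, edges to `s` and
edges to another new vertex `z`, and detach: split off the vertices one by one, by Hoffman's theorem,
so that all parts stay connected and `s` and `z` receive one edge from every vertex.  Without `s` and
`z` the parts are linear forests and the additional part is a matching `M`.  After a permutation of
the vertices in every copy of `H` every edge of `M` joins the two copies of the vertex `x` chosen for
it.  Add this edge to the linear forest with index `idx x`; this creates no cycles because the added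
edges incident with the copies of one path are over different edges of the path `J`.
-/

namespace Pool.Agent.H79.LAR.LexicographicClosure

open SimpleGraph H931R3.LA

/-- The lexicographic product `G[H]`: every vertex of `G` is replaced by a copy of `H`, and all
edges between the copies which replace adjacent vertices are added. -/
def lexProduct {V U : Type} (G : SimpleGraph V) (H : SimpleGraph U) : SimpleGraph (V × U) where
  Adj x y := G.Adj x.1 y.1 ∨ (x.1 = y.1 ∧ H.Adj x.2 y.2)
  symm := ⟨fun _ _ h => h.elim (fun h => Or.inl h.symm) (fun h => Or.inr ⟨h.1.symm, h.2.symm⟩)⟩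
  loopless := ⟨fun _ h => h.elim (fun h => G.loopless.irrefl _ h)
    (fun h => H.loopless.irrefl _ h.2)⟩

/-- **Linear arboricity of lexicographic products.**  Let `G` be a finite graph of maximum degree at
most `r`, `r ≥ 1`, and `H` a finite graph with `m` vertices, where `r` is even and `m ≥ r / 2`, or `m`
is even and `m ≥ r`.

(1) If `la H ≤ q` and all degrees of `H` are smaller than `2 q` then `la (G[H]) ≤ r m / 2 + q`.
(2) Suppose that `G` is `r`-regular and nonempty and `H` is `s`-regular and satisfies the linear
arboricity conjecture, `la H = ⌈(s + 1) / 2⌉`.  Then `G[H]` is `(r m + s)`-regular and satisfies the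
conjecture, `la (G[H]) = ⌈(r m + s + 1) / 2⌉`, and so does every nonempty finite
`(r m + s)`-regular graph with a locally injective homomorphism to `G[H]`. -/
theorem result :
    (∀ (V U : Type) [Finite V] [Finite U] (G : SimpleGraph V) (H : SimpleGraph U) (r q : ℕ),
      0 < r → (∀ v, (G.neighborSet v).ncard ≤ r) →
      (Even r ∧ r ≤ 2 * Nat.card U) ∨ (Even (Nat.card U) ∧ r ≤ Nat.card U) →
      la H ≤ q → (∀ x, (H.neighborSet x).ncard < 2 * q) →
      la (lexProduct G H) ≤ r * Nat.card U / 2 + q) ∧
    (∀ (V U : Type) [Finite V] [Nonempty V] [Finite U] (G : SimpleGraph V) (H : SimpleGraph U)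
      (r s : ℕ), 0 < r → (∀ v, (G.neighborSet v).ncard = r) →
      (Even r ∧ r ≤ 2 * Nat.card U) ∨ (Even (Nat.card U) ∧ r ≤ Nat.card U) →
      (∀ x, (H.neighborSet x).ncard = s) → la H = (s + 2) / 2 →
      (∀ z, ((lexProduct G H).neighborSet z).ncard = r * Nat.card U + s) ∧
      la (lexProduct G H) = (r * Nat.card U + s + 2) / 2 ∧
      ∀ (Y : Type) [Finite Y] [Nonempty Y] (K : SimpleGraph Y) (h : Y → V × U),
        (∀ a b, K.Adj a b → (lexProduct G H).Adj (h a) (h b)) →
        (∀ a b c, K.Adj a b → K.Adj a c → h b = h c → b = c) →
        (∀ a, (K.neighborSet a).ncard = r * Nat.card U + s) →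
        la K = (r * Nat.card U + s + 2) / 2) := by
  refine ⟨?_, ?_⟩
  · intro V U _ _ G H r q hr hdeg hrm hq hH
    have hm : 0 < Nat.card U := by rcases hrm with h | h <;> omega
    apply la_le
    obtain ⟨V', _, G', hG', ⟨e⟩⟩ := TH525.LAD.exists_regular r r V G hdeg (fun v => by omega)
    have h2 := X76.Det.lexp_cov G' H r q hm hG' hrm (la_le_iff.1 hq) hH
    refine h2.comap (⟨⟨fun z => (e z.1, z.2), ?_⟩, ?_⟩ : lexProduct G H ↪g
      X76.Lex.LexG G' H Prod.fst Prod.snd)
    · intro z z' h
      have h4 := Prod.mk.inj h
      exact Prod.ext (e.injective h4.1) h4.2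
    · intro z z'
      show (G'.Adj (e z.1) (e z'.1) ∨ (e z.1 = e z'.1 ∧ H.Adj z.2 z'.2)) ↔
        (G.Adj z.1 z'.1 ∨ (z.1 = z'.1 ∧ H.Adj z.2 z'.2))
      rw [e.map_adj_iff, e.injective.eq_iff]
  · intro V U _ _ _ G H r s hr hdeg hrm hs hla
    have hm : 0 < Nat.card U := by rcases hrm with h | h <;> omega
    have hU : Nonempty U := (Nat.card_pos_iff.1 hm).1
    have hev : Even (r * Nat.card U) := by
      rcases hrm with h | h
      · exact h.1.mul_right _
      · exact h.1.mul_left _
    have hp : 0 < r * Nat.card U := Nat.mul_pos hr hm
    have hd : ∀ z, ((lexProduct G H).neighborSet z).ncard = r * Nat.card U + s :=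
      fun z => X76.Lex.lex_deg G H r s hdeg hs z
    have hcov : Cov (lexProduct G H) ((r * Nat.card U + s + 2) / 2) := by
      have h3 : r * Nat.card U / 2 + (s + 2) / 2 = (r * Nat.card U + s + 2) / 2 := by
        obtain ⟨k, hk⟩ := hev
        omega
      rw [← h3]
      apply X76.Det.lexp_cov G H r ((s + 2) / 2) hm hdeg hrm (la_le_iff.1 hla.le)
      intro x
      rw [hs]
      omega
    refine ⟨hd, ?_, ?_⟩
    · exact le_antisymm (la_le hcov) (lower (by omega) (cov_la _) hd)
    · intro Y _ _ K h hhom hinj hreg
      exact le_antisymm (la_le (TH525.FRG.cov_hom K (lexProduct G H) h hhom hinj _ hcov))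
        (lower (by omega) (cov_la _) hreg)

end Pool.Agent.H79.LAR.LexicographicClosure
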