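import Pool.Agent.H79.LA.R448_LDMain

set_option autoImplicit false

/-!
# Linear arboricity of graphs with an orientation without short directed cycles

`H931R3.LA.la G` is the linear arboricity (the same expression as in the frozen statement S07085).
-/

namespace Pool.Agent.H79.LAR.LongDirectedCycles

open SimpleGraph H931R3.LA Pool.Agent.W111.LAR Pool.Agent.R448.LD

/-- `c` is a directed cycle of length `n` of the digraph `D`: distinct vertices `c 0, …, c (n - 1)`
with arcs `c i → c (i + 1)`, indices modulo `n`. -/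
def IsDirCycle {V : Type} (D : V → V → Prop) (n : ℕ) (c : ZMod n → V) : Prop :=
  0 < n ∧ Function.Injective c ∧ ∀ i, D (c i) (c (i + 1))

/-- `G` is the underlying graph of the digraph `D`, all of whose outdegrees and indegrees are at
most `k`. -/
def Oriented {V : Type} (G : SimpleGraph V) (D : V → V → Prop) (k : ℕ) : Prop :=
  (∀ u v, G.Adj u v ↔ D u v ∨ D v u) ∧ (∀ v, {w | D v w}.ncard ≤ k) ∧
    ∀ v, {w | D w v}.ncard ≤ k

/-- **Linear arboricity and directed cycles.**  Let the finite graph `G` be the underlying graph of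
a digraph `D` with all outdegrees and indegrees at most `k`.

(a) If `G` is `2 k`-regular and all directed cycles of `D` have length at least `2 k`, then
`la G = k + 1 = ⌈(2 k + 1) / 2⌉`.
(b) If `G` is `(2 k + 1)`-regular with a perfect matching `M`, and `D` is instead a digraph with
underlying graph `G - M`, all outdegrees and indegrees at most `k` and all directed cycles of length
at least `12 k - 8`, then `la G = k + 1 = ⌈(2 k + 2) / 2⌉`.
(c) If the length of every directed cycle of `D` is at least twice the minimum of the outdegree and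
the indegree of each of its vertices, then `la G ≤ k + 1`.
(d) If all directed cycles of `D` have length at least `2 m`, then `la G ≤ k + ⌈k / m⌉`. -/
theorem result :
    (∀ (V : Type) [Finite V] [Nonempty V] (G : SimpleGraph V) (D : V → V → Prop) (k : ℕ), 0 < k →
      (∀ v, (G.neighborSet v).ncard = 2 * k) → Oriented G D k →
      (∀ n c, IsDirCycle D n c → 2 * k ≤ n) → la G = k + 1) ∧
    (∀ (V : Type) [Finite V] [Nonempty V] (G : SimpleGraph V) (M : G.Subgraph) (D : V → V → Prop)
      (k : ℕ), (∀ v, (G.neighborSet v).ncard = 2 * k + 1) → M.IsPerfectMatching →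
      Oriented (G \ M.spanningCoe) D k → (∀ n c, IsDirCycle D n c → 12 * k ≤ n + 8) →
      la G = k + 1) ∧
    (∀ (V : Type) [Finite V] (G : SimpleGraph V) (D : V → V → Prop) (k : ℕ), Oriented G D k →
      (∀ n c, IsDirCycle D n c → ∀ i,
        2 * min {w | D (c i) w}.ncard {w | D w (c i)}.ncard ≤ n) → la G ≤ k + 1) ∧
    (∀ (V : Type) [Finite V] (G : SimpleGraph V) (D : V → V → Prop) (k m : ℕ), 1 ≤ m →
      Oriented G D k → (∀ n c, IsDirCycle D n c → 2 * m ≤ n) →
      la G ≤ k + (k + m - 1) / m) := by
  refine ⟨?_, ?_, ?_, ?_⟩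
  · intro V _ _ G D k hk hreg ⟨hD, hout, hin⟩ hcyc
    have h1 := cov_global G D k k hk hD hout hin
      (fun n c hn hinj harc => hcyc n c ⟨hn, hinj, harc⟩)
    have h2 : (k + k - 1) / k = 1 := by
      rw [Nat.div_eq_of_lt_le] <;> omega
    rw [h2] at h1
    have h3 : (2 * k + 2) / 2 = k + 1 := by omega
    rw [← h3] at h1 ⊢
    exact la_eq_of_cov (by omega) hreg h1
  · intro V _ _ G M D k hreg hM ⟨hD, hout, hin⟩ hcyc
    have h1 := cov_odd (G \ M.spanningCoe) M.spanningCoe D k
      (fun v => (ncard_sdiff_matching hM v).1.le) hD hout hin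
      (fun n c hn hinj harc => hcyc n c ⟨hn, hinj, harc⟩)
    have h4 : M.spanningCoe ⊔ G \ M.spanningCoe = G := by
      rw [sup_sdiff_self_right]
      exact sup_eq_right.2 (fun u w h => M.adj_sub h)
    rw [h4] at h1
    have h3 : (2 * k + 1 + 2) / 2 = k + 1 := by omega
    rw [← h3] at h1 ⊢
    exact la_eq_of_cov (by omega) hreg h1
  · intro V _ G D k ⟨hD, hout, hin⟩ hcyc
    exact la_le (cov_local G D k hD hout hin
      (fun n c hn hinj harc i => hcyc n c ⟨hn, hinj, harc⟩ i))
  · intro V _ G D k m hm ⟨hD, hout, hin⟩ hcyc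
    exact la_le (cov_global G D k m hm hD hout hin
      (fun n c hn hinj harc => hcyc n c ⟨hn, hinj, harc⟩))

end Pool.Agent.H79.LAR.LongDirectedCycles
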