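import Pool.Agent.H79.LA.N411_TG_Total

set_option autoImplicit false

/-!
# The linear arboricity conjecture for total graphs

`H931R3.LA.la G` is the linear arboricity (the same expression as in the frozen statement S07085),
`H.lineGraph` is the line graph of `H` (Mathlib) and `Pool.Agent.N411.TG.totalGraph H` is the total
graph of `H`: its vertices are the vertices and the edges of `H`, and two of them are adjacent if they
are adjacent vertices, incident, or two edges with a common end.

Proof.  Let all degrees of `H` be at most `2 k`.  By Petersen's theorem the edges of `H` are divided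
into `k` classes with at most two edges of each class at every vertex.  Two edges of different classes
with a common end are coloured with `2 k` colours along zigzag orders of the classes (as in the
starting result `LineGraphs`), so that in every colour the components are monotone paths from the
start class to the final class.  The incidences between the vertices of `H` and the edges of a class
are put, as two matchings, into the two colours in which this class is final; by Vizing's theorem the
edges of `H` (as edges between vertices of `T(H)`) are divided into `2 k + 1` matchings, one for each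
of the `2 k` colours and one for a new colour.  Every component of a colour still has at most one end
in the start class or is a path that joins two ends of this kind.  The edges inside the classes form a
graph of maximum degree two; they go to the new colour, except for some edges of every cycle which can
be added to the colour in which the class is the start class without creating a cycle.
-/

namespace Pool.Agent.H79.LAR.TotalGraphs

open SimpleGraph H931R3.LA Pool.Agent.N411.TG

theorem max_degree {V : Type} [Finite V] (H : SimpleGraph V) (d : ℕ)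
    (hdeg : ∀ v, (H.neighborSet v).ncard ≤ d) (x : V ⊕ H.edgeSet) :
    ((totalGraph H).neighborSet x).ncard ≤ 2 * d := by
  classical
  rcases x with u | e
  · have : (totalGraph H).neighborSet (.inl u) ⊆
        Sum.inl '' (H.neighborSet u) ∪ Sum.inr '' {e : H.edgeSet | u ∈ (e : Sym2 V) ∧ True} := by
      rintro (v | e') h
      · exact Or.inl ⟨v, h, rfl⟩
      · exact Or.inr ⟨e', ⟨h, trivial⟩, rfl⟩
    have h1 := Set.ncard_le_ncard this (Set.toFinite _)
    have h2 := Set.ncard_union_le (Sum.inl '' (H.neighborSet u))
      (Sum.inr '' {e : H.edgeSet | u ∈ (e : Sym2 V) ∧ True})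
    rw [Set.ncard_image_of_injective _ Sum.inl_injective,
      Set.ncard_image_of_injective _ Sum.inr_injective, edges_at H u (fun _ => True)] at h2
    have h3 : {y | H.Adj u y ∧ True} = H.neighborSet u := by
      ext y; simp
    rw [h3] at h2
    have := hdeg u
    omega
  · have hd : 1 ≤ d := by
      obtain ⟨⟨x, y⟩, hxy⟩ := e
      have h1 : (H.neighborSet x).Nonempty := ⟨y, hxy⟩
      have h2 := (Set.ncard_pos (Set.toFinite _)).2 h1
      exact h2.trans_le (hdeg x)
    obtain ⟨cl, hcl⟩ : ∃ cl : H.edgeSet → ℕ, ∀ e, cl e = 0 := ⟨fun _ => 0, fun _ => rfl⟩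
    have : (totalGraph H).neighborSet (.inr e) ⊆
        Sum.inl '' {u | u ∈ (e : Sym2 V)} ∪
          Sum.inr '' {e' | H.lineGraph.Adj e e' ∧ cl e' = cl e} := by
      rintro (v | e') h
      · exact Or.inl ⟨v, h, rfl⟩
      · exact Or.inr ⟨e', ⟨h, by rw [hcl, hcl]⟩, rfl⟩
    have h1 := Set.ncard_le_ncard this (Set.toFinite _)
    have h2 := Set.ncard_union_le (Sum.inl '' {u | u ∈ (e : Sym2 V)})
      (Sum.inr '' {e' | H.lineGraph.Adj e e' ∧ cl e' = cl e})
    rw [Set.ncard_image_of_injective _ Sum.inl_injective,
      Set.ncard_image_of_injective _ Sum.inr_injective, ends_ncard] at h2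
    have h3 := Pool.Agent.TH702.LLG.star_count_own H cl (d - 1) e (by
      intro x
      have h4 : {y | ∃ h : H.Adj x y, cl ⟨s(x, y), h⟩ = cl e} ⊆ H.neighborSet x := by
        rintro y ⟨hy, _⟩
        exact hy
      have h5 := Set.ncard_le_ncard h4 (Set.toFinite _)
      have := hdeg x
      omega)
    omega

theorem regular {V : Type} [Finite V] [Nonempty V] (H : SimpleGraph V) (k : ℕ) (hk : 1 ≤ k)
    (hdeg : ∀ v, (H.neighborSet v).ncard = 2 * k) :
    (∀ x, ((totalGraph H).neighborSet x).ncard = 4 * k) ∧
      la (totalGraph H) = (4 * k + 2) / 2 := by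
  have h1 : ∀ x, ((totalGraph H).neighborSet x).ncard = 4 * k := by
    intro x
    rw [total_degree H (2 * k) (by omega) hdeg x]
    omega
  refine ⟨h1, le_antisymm ?_ ?_⟩
  · exact (la_le (total_cov H k (fun v => (hdeg v).le))).trans (by omega)
  · exact lower (by omega) (cov_la _) h1

/-- **Linear arboricity of total graphs.**

(a) Let the vertices of `G` be divided into ordinary classes `0, …, m - 1`, `m ≥ 1`, and a special
class `m` such that every ordinary vertex has at most four neighbours in every other ordinary class,
at most two in its own class and at most two in the special class, and every special vertex has at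
most two neighbours in every ordinary class and at most `2 m` special neighbours.  Then
`la G ≤ 2 m + 1`; if moreover `G` is `4 m`-regular then `la G = ⌈(r + 1) / 2⌉` with `r = 4 m`.
(b) If all degrees of `H` are at most `2 k` then `la (T(H)) ≤ 2 k + 1`.
(c) If `H` is `2 k`-regular, `k ≥ 1`, then `T(H)` is `r`-regular with `r = 4 k` and
`la (T(H)) = ⌈(r + 1) / 2⌉`.
(d) If all degrees of `H` are at most `d` then `la (T(T(H))) ≤ 2 d + 1`.
(e) If `H` is `d`-regular, `d ≥ 1`, then `T(T(H))` is `r`-regular with `r = 4 d` and
`la (T(T(H))) = ⌈(r + 1) / 2⌉`.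
(f) If `H` is `d`-regular, `d ≥ 2`, then `T(L(H))` is `r`-regular with `r = 4 (d - 1)` and
`la (T(L(H))) = ⌈(r + 1) / 2⌉`. -/
theorem result :
    (∀ (V : Type) [Finite V] (G : SimpleGraph V) (m : ℕ) (f : V → ℕ), 1 ≤ m → (∀ v, f v ≤ m) →
      (∀ u j, f u < m → j < m → j ≠ f u → {v | G.Adj u v ∧ f v = j}.ncard ≤ 4) →
      (∀ u, f u < m → {v | G.Adj u v ∧ f v = f u}.ncard ≤ 2) →
      (∀ u, f u < m → {v | G.Adj u v ∧ f v = m}.ncard ≤ 2) →
      (∀ u j, f u = m → j < m → {v | G.Adj u v ∧ f v = j}.ncard ≤ 2) →
      (∀ u, f u = m → {v | G.Adj u v ∧ f v = m}.ncard ≤ 2 * m) →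
      la G ≤ 2 * m + 1 ∧
      (Nonempty V → (∀ v, (G.neighborSet v).ncard = 4 * m) → la G = (4 * m + 2) / 2)) ∧
    (∀ (V : Type) [Finite V] (H : SimpleGraph V) (k : ℕ),
      (∀ v, (H.neighborSet v).ncard ≤ 2 * k) → la (totalGraph H) ≤ 2 * k + 1) ∧
    (∀ (V : Type) [Finite V] [Nonempty V] (H : SimpleGraph V) (k : ℕ), 1 ≤ k →
      (∀ v, (H.neighborSet v).ncard = 2 * k) →
      (∀ x, ((totalGraph H).neighborSet x).ncard = 4 * k) ∧
        la (totalGraph H) = (4 * k + 2) / 2) ∧
    (∀ (V : Type) [Finite V] (H : SimpleGraph V) (d : ℕ),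
      (∀ v, (H.neighborSet v).ncard ≤ d) → la (totalGraph (totalGraph H)) ≤ 2 * d + 1) ∧
    (∀ (V : Type) [Finite V] [Nonempty V] (H : SimpleGraph V) (d : ℕ), 1 ≤ d →
      (∀ v, (H.neighborSet v).ncard = d) →
      (∀ x, ((totalGraph (totalGraph H)).neighborSet x).ncard = 4 * d) ∧
        la (totalGraph (totalGraph H)) = (4 * d + 2) / 2) ∧
    (∀ (V : Type) [Finite V] [Nonempty V] (H : SimpleGraph V) (d : ℕ), 2 ≤ d →
      (∀ v, (H.neighborSet v).ncard = d) →
      (∀ x, ((totalGraph H.lineGraph).neighborSet x).ncard = 4 * (d - 1)) ∧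
        la (totalGraph H.lineGraph) = (4 * (d - 1) + 2) / 2) := by
  refine ⟨?_, ?_, ?_, ?_, ?_, ?_⟩
  · intro V _ G m f hm hf h4 h2 ho hs2 hs
    have h1 : la G ≤ 2 * m + 1 := la_le (cov_special G m f hm hf h4 h2 ho hs2 hs)
    refine ⟨h1, ?_⟩
    intro hne hreg
    exact le_antisymm (h1.trans (by omega)) (lower (by omega) (cov_la G) hreg)
  · intro V _ H k hdeg
    exact la_le (total_cov H k hdeg)
  · intro V _ _ H k hk hdeg
    exact regular H k hk hdeg
  · intro V _ H d hdeg
    exact la_le (total_cov (totalGraph H) d (max_degree H d hdeg))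
  · intro V _ _ H d hd hdeg
    exact regular (totalGraph H) d hd (total_degree H d hd hdeg)
  · intro V _ _ H d hd hdeg
    have h1 := Pool.Agent.TH702.LLG.line_degree H d hdeg
    have hne : Nonempty H.edgeSet := by
      obtain ⟨u⟩ := ‹Nonempty V›
      have h2 : (H.neighborSet u).Nonempty := by
        rw [← Set.ncard_pos (Set.toFinite _), hdeg u]
        omega
      obtain ⟨v, hv⟩ := h2
      exact ⟨⟨s(u, v), hv⟩⟩
    exact regular H.lineGraph (d - 1) (by omega) h1

end Pool.Agent.H79.LAR.TotalGraphs
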