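import Pool.Agent.H79.LA.Q105_LAT_Top

set_option autoImplicit false

/-!
# Linear arboricity of graphs with large classes of twins

`la` is the least number of linear forests whose union is the graph (`H931R3.LA.la`).  Two vertices
`x`, `y` are twins if every other vertex is adjacent to both of them or to none of them (open or
closed twins), `twinNum P x` is the number of twins of `x` (with `x` itself).  `heavy P D` is the
graph of all edges `x y` of `P` such that `x`, `y` are twins or `D < twinNum P x * twinNum P y`.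
-/

namespace Pool.Agent.H79.LAR.TwinClasses

open H931R3.LA Pool.Agent.Q105.LAT Pool.Agent.W111.LAR

theorem result :
    -- (1) the upper bound of the linear arboricity conjecture
    (∀ (X : Type) [Finite X] (P : SimpleGraph X) (D : ℕ), (∀ x, (P.neighborSet x).ncard ≤ D) →
      (∀ x y, P.Adj x y → (heavy P D).Reachable x y) → la P ≤ (D + 2) / 2) ∧
    -- (2) the conjecture for regular graphs
    (∀ (X : Type) [Finite X] [Nonempty X] (P : SimpleGraph X) (r : ℕ), 1 ≤ r →
      (∀ x, (P.neighborSet x).ncard = r) →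
      (∀ x y, P.Adj x y → (heavy P r).Reachable x y) → la P = (r + 2) / 2) ∧
    -- (3) the case that every vertex has more than `√D` twins
    (∀ (X : Type) [Finite X] (P : SimpleGraph X) (D : ℕ), (∀ x, (P.neighborSet x).ncard ≤ D) →
      (∀ x, D < twinNum P x ^ 2) → la P ≤ (D + 2) / 2) ∧
    (∀ (X : Type) [Finite X] [Nonempty X] (P : SimpleGraph X) (r : ℕ), 1 ≤ r →
      (∀ x, (P.neighborSet x).ncard = r) → (∀ x, r < twinNum P x ^ 2) → la P = (r + 2) / 2) ∧
    -- (4) the linear arboricity is determined by the edge colourings of the quotient multigraph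
    (∀ (V X : Type) [Fintype V] [Finite X] (P : SimpleGraph X) (A : V → V → Prop) (f : X → V)
      (K : ℕ), TwinMap P A f → (la P ≤ K ↔ ∃ N : Fin K → V → V → ℕ,
        (∀ j u v, N j u v = N j v u) ∧ (∀ j u, Even (N j u u)) ∧
        (∀ u v, ∑ j, N j u v = adjPairs P f u v) ∧
        (∀ j u, ∑ v, N j u v ≤ 2 * (f ⁻¹' {u}).ncard) ∧
        ∀ (j : Fin K) (C : Set V), C.Nonempty → (∀ u ∈ C, ∀ v, 0 < N j u v → v ∈ C) →
          ∃ u ∈ C, ∑ v, N j u v < 2 * (f ⁻¹' {u}).ncard)) := by
  refine ⟨?_, ?_, ?_, ?_, ?_⟩
  · intro X _ P D h1 h2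
    exact la_le (target X P D h1 h2)
  · intro X _ _ P r hr h1 h2
    exact la_eq_of_cov hr h1 (target X P r (fun x => (h1 x).le) h2)
  · intro X _ P D h1 h2
    exact la_le (target X P D h1 (all_heavy h2))
  · intro X _ _ P r hr h1 h2
    exact la_eq_of_cov hr h1 (target X P r (fun x => (h1 x).le) (all_heavy h2))
  · intro V X _ _ P A f K h
    rw [la_le_iff]
    exact ⟨fun hc => good_of_cov f h.1 hc, fun ⟨N, hN⟩ => cov_of_good h hN⟩

end Pool.Agent.H79.LAR.TwinClasses
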