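import Pool.Agent.H79.LA.R448_LGirth

set_option autoImplicit false

/-!
# The linear arboricity of arbitrary blow-ups of graphs without short directed cycles

`H931R3.LA.la G` is the linear arboricity (the same expression as in the frozen statement S07085).
For `f : W → V` with all fibres of size `m`, `G.comap f` is the blow-up of `G` by `m`: every vertex of
`G` is replaced by `m` pairwise non-adjacent vertices, every edge by a complete bipartite graph.
-/

namespace Pool.Agent.H79.LAR.TwistedBlowups

open SimpleGraph H931R3.LA Pool.Agent.W111.LAR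

/-- `c` is a directed cycle of length `n` of the digraph `D`: distinct vertices `c 0, …, c (n - 1)`
with arcs `c i → c (i + 1)`, indices modulo `n`. -/
def IsDirCycle {V : Type} (D : V → V → Prop) (n : ℕ) (c : ZMod n → V) : Prop :=
  0 < n ∧ Function.Injective c ∧ ∀ i, D (c i) (c (i + 1))

/-- `G` is the underlying graph of the digraph `D`, all of whose outdegrees and indegrees are at
most `k`. -/
def Oriented {V : Type} (G : SimpleGraph V) (D : V → V → Prop) (k : ℕ) : Prop :=
  (∀ u v, G.Adj u v ↔ D u v ∨ D v u) ∧ (∀ v, {w | D v w}.ncard ≤ k) ∧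
    ∀ v, {w | D w v}.ncard ≤ k

/-- **Blow-ups of graphs without short directed cycles.**  Let the finite graph `G` be the underlying
graph of a digraph `D` with all outdegrees and indegrees at most `k ≥ 1`, let `m ≥ 1`, and let all
directed cycles of `D` have length at least `2 k`; if `m` leaves remainder `2` modulo `4`, let moreover
`2 k (m + 1) ≤ m n` for the lengths `n` of the directed cycles of odd length.  Then the blow-up of
`G` by `m` has linear arboricity at most `k m + 1`.  If `G` is `2 k`-regular, so that the blow-up is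
`2 k m`-regular, the linear arboricity is `k m + 1 = ⌈(2 k m + 1) / 2⌉`. -/
theorem result :
    ∀ (V : Type) [Finite V] (G : SimpleGraph V) (D : V → V → Prop) (k m : ℕ), 0 < k → 0 < m →
      Oriented G D k →
      (∀ n c, IsDirCycle D n c →
        2 * k ≤ n ∧ (m % 4 = 2 → Odd n → 2 * k * (m + 1) ≤ m * n)) →
      ∀ (W : Type) [Finite W] (f : W → V), (∀ v, {x | f x = v}.ncard = m) →
        la (G.comap f) ≤ k * m + 1 ∧
        (Nonempty V → (∀ v, (G.neighborSet v).ncard = 2 * k) → la (G.comap f) = k * m + 1) := by
  intro V _ G D k m hk hm ⟨hD, hout, hin⟩ hcyc W _ f hf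
  have : NeZero m := ⟨hm.ne'⟩
  have h1 := Pool.Agent.R448.LP.cov_twist G D k m hk hD hout hin
    (fun n c hn hinj harc => hcyc n c ⟨hn, hinj, harc⟩) W f hf
  refine ⟨la_le h1, fun hV hdeg => ?_⟩
  have hW : Nonempty W := by
    obtain ⟨v⟩ := hV
    have h2 : 0 < {x | f x = v}.ncard := by rw [hf]; exact hm
    obtain ⟨x, _⟩ := (Set.ncard_pos (Set.toFinite _)).1 h2
    exact ⟨x⟩
  have h3 : (2 * (k * m) + 2) / 2 = k * m + 1 := by omega
  rw [← h3] at h1 ⊢
  refine la_eq_of_cov ?_ (fun x => ?_) h1
  · have := Nat.mul_pos hk hm; omega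
  · rw [Pool.Agent.R448.LP.reg_comap G (2 * k) m hdeg f hf]; ring

end Pool.Agent.H79.LAR.TwistedBlowups
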