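import Pool.Agent.H79.LA.TH486_LAC_Factor
import Pool.Agent.H79.LA.TH486_LAC_Lift

set_option autoImplicit false

/-!
Assembling classes of generators.
-/

namespace Pool.Agent.TH486.LAC

open Finset Module SimpleGraph H931R3.LA Pool.Agent.W111.LAR

variable {p : ℕ} [Fact p.Prime]

/-- The Cayley graph of `± I` splits into `|I|` graphs of maximum degree two all whose components
have at least `p ^ δ` vertices. -/
def HamClass (p : ℕ) {V : Type} [AddCommGroup V] (I : Finset V) (δ : ℕ) : Prop :=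
  ∃ P : V → SimpleGraph V,
    (∀ i ∈ I, ∀ v, ((P i).neighborSet v).ncard ≤ 2 ∧ p ^ δ ≤ csize (P i) v) ∧
    (∀ i ∈ I, ∀ v w, (P i).Adj v w → w - v ∈ I ∨ v - w ∈ I) ∧
    (∀ v, ∀ a ∈ I, ∃ i ∈ I, v ≠ v + a → (P i).Adj v (v + a))

theorem hamClass_of_ind {V : Type} [AddCommGroup V] [Module (ZMod p) V] [Finite V] {I : Finset V}
    (hI : Ind (ZMod p) I) (hc : 2 * I.card < p + 2) : HamClass p I I.card :=
  class_factors I hI hc

theorem ld_classes {V : Type} [AddCommGroup V] [Finite V] {l : ℕ} (T : Finset V)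
    (c : V → Fin l) (δ : Fin l → ℕ) (hH : ∀ j, HamClass p (T.filter (fun x => c x = j)) (δ j))
    (hload : ∑ j, ((T.filter (fun x => c x = j)).card : ℝ) * (2 / (p : ℝ) ^ (δ j)) ≤ 1)
    (G : SimpleGraph V) (hG : ∀ v w, G.Adj v w ↔ v ≠ w ∧ (w - v ∈ T ∨ v - w ∈ T)) :
    LD G T.card := by
  classical
  choose P hP1 hP2 hP3 using hH
  have hmem : ∀ x ∈ T, x ∈ T.filter (fun y => c y = c x) := fun x hx => mem_filter.2 ⟨hx, rfl⟩
  have hGT : G = ⨆ x : T, P (c x.1) x.1 := by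
    ext v w
    rw [iSup_adj, hG]
    have key : ∀ v w : V, v ≠ w → w - v ∈ T → ∃ x : T, (P (c x.1) x.1).Adj v w := by
      intro v w hvw h
      obtain ⟨i, hi, hadj⟩ := hP3 (c (w - v)) v (w - v) (hmem _ h)
      rw [add_sub_cancel] at hadj
      obtain ⟨hiT, hic⟩ := mem_filter.1 hi
      refine ⟨⟨i, hiT⟩, ?_⟩
      show (P (c i) i).Adj v w
      rw [hic]
      exact hadj hvw
    constructor
    · rintro ⟨hvw, h | h⟩
      · exact key v w hvw h
      · obtain ⟨x, hx⟩ := key w v hvw.symm h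
        exact ⟨x, hx.symm⟩
    · rintro ⟨x, hx⟩
      refine ⟨hx.ne, ?_⟩
      rcases hP2 (c x.1) x.1 (hmem _ x.2) v w hx with h | h
      · exact Or.inl (mem_filter.1 h).1
      · exact Or.inr (mem_filter.1 h).1
  refine ⟨T, inferInstance, fun x : T => P (c x.1) x.1, by simp,
    fun x v => (hP1 (c x.1) x.1 (hmem _ x.2) v).1, ?_, hGT⟩
  intro v
  refine le_trans ?_ hload
  have h3 : ∑ j, ((T.filter (fun x => c x = j)).card : ℝ) * (2 / (p : ℝ) ^ (δ j)) =
      ∑ x ∈ T, 2 / (p : ℝ) ^ (δ (c x)) := by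
    rw [← sum_fiberwise T c (fun x => 2 / (p : ℝ) ^ (δ (c x)))]
    refine sum_congr rfl fun j _ => ?_
    rw [sum_congr rfl (g := fun _ => 2 / (p : ℝ) ^ (δ j)) (fun x hx => by
      rw [(mem_filter.1 hx).2]), sum_const, nsmul_eq_mul]
  rw [h3, ← sum_coe_sort T]
  refine sum_le_sum fun x _ => ?_
  have hp : (0 : ℝ) < p := by
    exact_mod_cast (Fact.out : p.Prime).pos
  have hpos : (0 : ℝ) < (p : ℝ) ^ (δ (c x.1)) := by positivity
  have h4 : (p : ℝ) ^ (δ (c x.1)) ≤ csize (P (c x.1) x.1) v := by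
    exact_mod_cast (hP1 (c x.1) x.1 (hmem _ x.2) v).2
  exact div_le_div_of_nonneg_left (by norm_num) hpos h4

end Pool.Agent.TH486.LAC
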