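import Pool.Agent.H79.LA.TH486_LAC_Tower2

set_option autoImplicit false

/-!
Hamilton decompositions for a basis together with one more element `2 a - b`.
-/

namespace Pool.Agent.TH486.LAC

open Finset

variable {p : ℕ} [Fact p.Prime]

/-- The three generators in the plane. -/
def gen3 (i : Fin 3) : Bool → ZMod p :=
  if i = 0 then Pi.single true 1
  else if i = 1 then Pi.single false 1
  else (2 : ZMod p) • Pi.single true 1 - Pi.single false 1

/-- The choice of the generator. -/
def g3 (i : Fin 3) (x : ZMod p × ZMod p) : Fin 3 := if x.1 = 0 then i else i + 1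

/-- The three permutations. -/
def h3 (i : Fin 3) : Equiv.Perm (ZMod p × ZMod p) :=
  skew (fun u => Equiv.addRight (gen3 (p := p) (g3 i (u, 0)) true))

/-- Total displacements. -/
def D3 (i : Fin 3) : ZMod p := gen3 (p := p) i true - gen3 (p := p) (i + 1) true

theorem gen3_0 : gen3 (p := p) 0 = Pi.single true 1 := rfl
theorem gen3_1 : gen3 (p := p) 1 = Pi.single false 1 := rfl
theorem gen3_2 : gen3 (p := p) 2 = (2 : ZMod p) • Pi.single true 1 - Pi.single false 1 := rfl

theorem sum_D3 (i : Fin 3) :
    ∑ u : ZMod p, gen3 (p := p) (g3 i (u, 0)) true = D3 (p := p) i := by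
  have h1 : ∀ u : ZMod p, gen3 (p := p) (g3 i (u, 0)) true = gen3 (p := p) (i + 1) true +
      (if u = 0 then gen3 (p := p) i true - gen3 (p := p) (i + 1) true else 0) := by
    intro u
    unfold g3
    by_cases hu : u = 0
    · simp only [hu, if_true]; ring
    · simp only [hu, if_false]; ring
  simp only [h1]
  rw [sum_add_distrib, sum_const, card_univ, ZMod.card, sum_ite_eq' univ (0 : ZMod p)]
  simp [D3]

theorem word3 {m : Fin 3 → ZMod p} {φ : Equiv.Perm (ZMod p × ZMod p)}
    (hw : Word (h3 (p := p)) m φ) :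
    ∃ Δ : ZMod p → ZMod p, (∀ u w, φ (u, w) = (u + ∑ i, m i, w + Δ u)) ∧
      ∑ u, Δ u = ∑ i, m i * D3 (p := p) i := by
  induction hw with
  | one => exact ⟨fun _ => 0, by simp, by simp⟩
  | step i m φ _ ih =>
    obtain ⟨Δ, h1, h2⟩ := ih
    refine ⟨fun u => Δ u + gen3 (p := p) (g3 i (u + ∑ i, m i, 0)) true, ?_, ?_⟩
    · intro u w
      rw [Equiv.Perm.mul_apply, h1]
      refine Prod.ext ?_ ?_
      · show u + ∑ i, m i + 1 = u + ∑ a, ((Pi.single i 1 : Fin 3 → ZMod p) + m) a
        simp only [Pi.add_apply]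
        rw [sum_add_distrib, sum_pi_single']
        simp only [mem_univ, if_true]
        ring
      · show w + Δ u + gen3 (p := p) (g3 i (u + ∑ i, m i, 0)) true = _
        ring
    · rw [sum_add_distrib, h2]
      have h4 : ∑ u, gen3 (p := p) (g3 i (u + ∑ i, m i, 0)) true =
          ∑ u : ZMod p, gen3 (p := p) (g3 i (u, 0)) true :=
        Equiv.sum_comp (Equiv.addRight (∑ i, m i)) (fun u => gen3 (p := p) (g3 i (u, 0)) true)
      rw [h4, sum_D3]
      simp only [Pi.add_apply, add_mul]
      rw [sum_add_distrib]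
      have h5 : ∑ a, (Pi.single i 1 : Fin 3 → ZMod p) a * D3 (p := p) a = D3 (p := p) i := by
        rw [sum_eq_single i]
        · simp
        · intro b _ hb
          rw [Pi.single_eq_of_ne hb, zero_mul]
        · intro hn; exact absurd (mem_univ _) hn
      rw [h5]
      ring

theorem tr3 {m : Fin 3 → ZMod p} {φ : Equiv.Perm (ZMod p × ZMod p)}
    (hw : Word (h3 (p := p)) m φ) (hn : ∑ i, m i ≠ 0) (hE : ∑ i, m i * D3 (p := p) i ≠ 0) :
    Tr φ := by
  obtain ⟨Δ, h1, h2⟩ := word3 hw
  set n := ∑ i, m i with hndef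
  set E := ∑ i, m i * D3 (p := p) i with hEdef
  have hit : ∀ (k : ℕ) (u w : ZMod p), (φ ^ k) (u, w) =
      (u + k * n, w + ∑ j ∈ range k, Δ (u + j * n)) := by
    intro k
    induction k with
    | zero => intro u w; simp
    | succ k ih =>
      intro u w
      rw [pow_succ', Equiv.Perm.mul_apply, ih, h1]
      refine Prod.ext ?_ ?_
      · show u + k * n + n = u + ((k + 1 : ℕ) : ZMod p) * n
        push_cast
        ring
      · show w + ∑ j ∈ range k, Δ (u + j * n) + Δ (u + k * n) = _
        rw [sum_range_succ]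
        ring
  have h8 : ∀ u w, (φ ^ p) (u, w) = (u, w + E) := by
    intro u w
    rw [hit, sum_range_all Δ u n hn, h2]
    simp
  have h9 : ∀ (N : ℕ) (u w : ZMod p), (φ ^ (p * N)) (u, w) = (u, w + N * E) := by
    intro N
    induction N with
    | zero => simp
    | succ N ih =>
      intro u w
      rw [Nat.mul_succ, Nat.add_comm, pow_add, Equiv.Perm.mul_apply, ih, h8]
      refine Prod.ext rfl ?_
      show w + N * E + E = w + ((N + 1 : ℕ) : ZMod p) * E
      push_cast
      ring
  rintro ⟨t1, x1⟩ ⟨t2, x2⟩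
  set k := ((t2 - t1) / n).val with hk
  obtain ⟨w', hw'⟩ : ∃ w', (φ ^ k) (t1, x1) = (t2, w') := by
    refine ⟨x1 + ∑ j ∈ range k, Δ (t1 + j * n), ?_⟩
    rw [hit]
    refine Prod.ext ?_ rfl
    show t1 + k * n = t2
    rw [hk, ZMod.natCast_zmod_val, div_mul_cancel₀ _ hn]
    ring
  refine ⟨p * ((x2 - w') / E).val + k, ?_⟩
  rw [pow_add, Equiv.Perm.mul_apply, hw', h9]
  refine Prod.ext rfl ?_
  show w' + ((((x2 - w') / E).val : ℕ) : ZMod p) * E = x2
  rw [ZMod.natCast_zmod_val, div_mul_cancel₀ _ hE]
  ring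

theorem good3 (hp : p ≠ 2) : ∃ (u : ZMod p × ZMod p → ZMod p)
    (pos : ZMod p × ZMod p → Bool → ZMod p)
    (L : Bool → (Fin 3 → ZMod p) →ₗ[ZMod p] ZMod p),
    Good2 (gen3 (p := p)) u pos h3 g3 L ∧ ∀ m, L true m = ∑ i, m i := by
  have h20 : (2 : ZMod p) ≠ 0 := by
    have h1 : ((2 : ℕ) : ZMod p) ≠ 0 := by
      rw [Ne, ZMod.natCast_eq_zero_iff]
      intro h
      have h2 := (Nat.prime_dvd_prime_iff_eq (Fact.out : p.Prime) Nat.prime_two).1 h
      exact hp h2
    exact_mod_cast h1
  have hD : ∀ i : Fin 3, D3 (p := p) i ≠ 0 := by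
    intro i
    unfold D3
    fin_cases i
    · show gen3 (p := p) 0 true - gen3 (p := p) 1 true ≠ 0
      rw [gen3_0, gen3_1]
      simp
    · show gen3 (p := p) 1 true - gen3 (p := p) 2 true ≠ 0
      rw [gen3_1, gen3_2]
      simp [h20]
    · show gen3 (p := p) 2 true - gen3 (p := p) 0 true ≠ 0
      rw [gen3_2, gen3_0]
      simp
      norm_num
  let L : Bool → (Fin 3 → ZMod p) →ₗ[ZMod p] ZMod p := fun b =>
    if b then ∑ i, LinearMap.proj (R := ZMod p) (φ := fun _ : Fin 3 => ZMod p) i
    else ∑ i, (D3 (p := p) i) • LinearMap.proj (R := ZMod p) (φ := fun _ : Fin 3 => ZMod p) i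
  have hLt : ∀ m, L true m = ∑ i, m i := by
    intro m
    show (∑ i, LinearMap.proj (R := ZMod p) (φ := fun _ : Fin 3 => ZMod p) i) m = _
    rw [LinearMap.sum_apply]
    rfl
  have hLf : ∀ m, L false m = ∑ i, m i * D3 (p := p) i := by
    intro m
    show (∑ i, (D3 (p := p) i) •
      LinearMap.proj (R := ZMod p) (φ := fun _ : Fin 3 => ZMod p) i) m = _
    rw [LinearMap.sum_apply]
    refine sum_congr rfl fun i _ => ?_
    show D3 (p := p) i * m i = _
    ring
  refine ⟨Prod.fst, fun x b => if b then x.2 else x.1 - x.2, L,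
    ⟨⟨?_, ?_⟩, ?_, ?_, ?_, ?_, ?_⟩, hLt⟩
  · rintro ⟨t, x⟩ ⟨t', x'⟩ hxx
    have h1 : x = x' := congrFun hxx true
    have h2 : t - x = t' - x' := congrFun hxx false
    subst h1
    have h3 : t = t' := by linear_combination h2
    rw [h3]
  · intro f
    refine ⟨(f false + f true, f true), funext fun b => ?_⟩
    cases b with
    | true => rfl
    | false =>
      show f false + f true - f true = f false
      ring
  · rintro i ⟨t, x⟩
    have hg : g3 (p := p) i (t, x) = g3 i (t, 0) := rfl
    have key : ∀ j : Fin 3, gen3 (p := p) j true + gen3 (p := p) j false = 1 := by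
      intro j
      fin_cases j
      · show gen3 (p := p) 0 true + gen3 (p := p) 0 false = 1
        rw [gen3_0]; simp
      · show gen3 (p := p) 1 true + gen3 (p := p) 1 false = 1
        rw [gen3_1]; simp
      · show gen3 (p := p) 2 true + gen3 (p := p) 2 false = 1
        rw [gen3_2]; simp; norm_num
    funext b
    rw [hg]
    cases b with
    | true => rfl
    | false =>
      show t + 1 - (x + gen3 (p := p) (g3 i (t, 0)) true) =
        t - x + gen3 (p := p) (g3 i (t, 0)) false
      linear_combination -(key (g3 i (t, 0)))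
  · rintro i ⟨t, x⟩
    rfl
  · rintro ⟨t, x⟩ a
    by_cases ht : t = 0
    · exact ⟨a, if_pos ht⟩
    · refine ⟨a - 1, ?_⟩
      have : g3 (p := p) (a - 1) (t, x) = a - 1 + 1 := if_neg ht
      rw [this, sub_add_cancel]
  · intro j i
    cases j with
    | true =>
      rw [hLt, sum_pi_single']
      simp
    | false =>
      rw [hLf, sum_eq_single i]
      · rw [Pi.single_eq_same, one_mul]; exact hD i
      · intro b _ hb
        rw [Pi.single_eq_of_ne hb, zero_mul]
      · intro hn; exact absurd (mem_univ _) hn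
  · intro m φ hw hL
    refine tr3 hw ?_ ?_
    · rw [← hLt]; exact hL true
    · rw [← hLf]; exact hL false

theorem lift0_single {D : Type} [DecidableEq D] (e : D) :
    lift0 (p := p) (Pi.single e 1) = Pi.single (some e) 1 := by
  funext o
  cases o with
  | none => show (0 : ZMod p) = _; rw [Pi.single_eq_of_ne (by simp)]
  | some b =>
    show (Pi.single e 1 : D → ZMod p) b = _
    by_cases hb : b = e
    · subst hb; simp
    · rw [Pi.single_eq_of_ne hb, Pi.single_eq_of_ne (fun h => hb (Option.some.inj h))]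

theorem lift0_special {D : Type} [DecidableEq D] (e e' : D) :
    lift0 (p := p) ((2 : ZMod p) • Pi.single e 1 - Pi.single e' 1) =
      (2 : ZMod p) • Pi.single (some e) 1 - Pi.single (some e') 1 := by
  rw [← lift0_single, ← lift0_single]
  funext o
  cases o with
  | none => show (0 : ZMod p) = (2 : ZMod p) * 0 - 0; ring
  | some b => rfl

theorem exists_special (hp : 5 ≤ p) (d : ℕ) (hd : 2 ≤ d) (hdp : 2 * d ≤ p + 1) :
    ∃ (ι J D X : Type) (_ : Fintype ι) (_ : DecidableEq ι) (_ : Fintype J) (_ : Fintype D)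
      (_ : DecidableEq D) (gen : ι → D → ZMod p) (u : X → ZMod p) (pos : X → D → ZMod p)
      (h : ι → Equiv.Perm X) (g : ι → X → ι) (L : J → (ι → ZMod p) →ₗ[ZMod p] ZMod p)
      (D0 D1 : D), Good2 gen u pos h g L ∧ Fintype.card ι = d + 1 ∧ Fintype.card J = d ∧
      Fintype.card D = d ∧ D0 ≠ D1 ∧ ∀ f, (∃ i, gen i = f) ↔
        ((∃ e, f = Pi.single e 1) ∨ f = (2 : ZMod p) • Pi.single D0 1 - Pi.single D1 1) := by
  induction d, hd using Nat.le_induction with
  | base =>
    obtain ⟨u, pos, L, hg, _⟩ := good3 (p := p) (by omega)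
    refine ⟨Fin 3, Bool, Bool, ZMod p × ZMod p, inferInstance, inferInstance, inferInstance,
      inferInstance, inferInstance, gen3, u, pos, h3, g3, L, true, false, hg, by simp, by simp,
      by simp, by simp, ?_⟩
    intro f
    constructor
    · rintro ⟨i, rfl⟩
      fin_cases i
      · exact Or.inl ⟨true, rfl⟩
      · exact Or.inl ⟨false, rfl⟩
      · exact Or.inr rfl
    · rintro (⟨e, rfl⟩ | rfl)
      · cases e with
        | true => exact ⟨0, rfl⟩
        | false => exact ⟨1, rfl⟩
      · exact ⟨2, rfl⟩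
  | succ d hd ih =>
    obtain ⟨ι, J, D, X, _, _, _, _, _, gen, u, pos, h, g, L, D0, D1, hg, h1, h2, h3', h4, h5⟩ :=
      ih (by omega)
    have : Nonempty ι := Fintype.card_pos_iff.1 (by omega)
    obtain ⟨u', pos', h', g', L', hg', _⟩ := good2_step hg (by omega) (by omega)
    refine ⟨Option ι, Option J, Option D, ZMod p × X, inferInstance, inferInstance,
      inferInstance, inferInstance, inferInstance, _, u', pos', h', g', L', some D0, some D1, hg',
      by rw [Fintype.card_option, h1], by rw [Fintype.card_option, h2],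
      by rw [Fintype.card_option, h3'], fun h => h4 (Option.some.inj h), ?_⟩
    intro f
    constructor
    · rintro ⟨o, rfl⟩
      cases o with
      | none => exact Or.inl ⟨none, rfl⟩
      | some i =>
        show (∃ e, lift0 (gen i) = _) ∨ lift0 (gen i) = _
        rcases (h5 (gen i)).1 ⟨i, rfl⟩ with ⟨e, he⟩ | he
        · left
          refine ⟨some e, ?_⟩
          rw [he, lift0_single]
        · right
          rw [he, lift0_special]
    · rintro (⟨e, rfl⟩ | rfl)
      · cases e with
        | none => exact ⟨none, rfl⟩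
        | some e =>
          obtain ⟨i, hi⟩ := (h5 _).2 (Or.inl ⟨e, rfl⟩)
          refine ⟨some i, ?_⟩
          show lift0 (gen i) = _
          rw [hi, lift0_single]
      · obtain ⟨i, hi⟩ := (h5 _).2 (Or.inr rfl)
        refine ⟨some i, ?_⟩
        show lift0 (gen i) = _
        rw [hi, lift0_special]

end Pool.Agent.TH486.LAC
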