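import Pool.Agent.H79.LA.TH486_LAC_Dec
import Pool.Agent.H79.LA.TH486_LAC_Factor2

set_option autoImplicit false

/-!
Two-factors with long cycles from decompositions, in all dimensions.
-/

namespace Pool.Agent.TH486.LAC

open Finset Module SimpleGraph H931R3.LA Pool.Agent.W111.LAR

variable {p : ℕ} [Fact p.Prime]

theorem factors3 {E : Type} [AddCommGroup E] [Module (ZMod p) E] [Finite E] {G : Set E} {n : ℕ}
    (hD : Dec p G n) {V : Type} [AddCommGroup V] [Module (ZMod p) V] [Finite V]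
    (Θ : E →ₗ[ZMod p] V) (hΘ : Function.Injective Θ) :
    ∃ P : Fin n → SimpleGraph V,
      (∀ i v, ((P i).neighborSet v).ncard ≤ 2 ∧ Nat.card E ≤ csize (P i) v) ∧
      ∀ v w, (∃ i, (P i).Adj v w) ↔ v ≠ w ∧ ((∃ x ∈ G, w - v = Θ x) ∨ ∃ x ∈ G, v - w = Θ x) := by
  classical
  obtain ⟨u, h, hg⟩ := hD
  set F : Submodule (ZMod p) V := LinearMap.range Θ with hF
  let rep : V → V := fun v => (Submodule.Quotient.mk (p := F) v).out
  have hrep : ∀ v, v - rep v ∈ F := by
    intro v
    rw [← Submodule.Quotient.eq]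
    exact (Quotient.out_eq' (Submodule.Quotient.mk (p := F) v)).symm
  have hrepc : ∀ v w, v - w ∈ F → rep v = rep w := by
    intro v w hvw
    have : (Submodule.Quotient.mk (p := F) v) = Submodule.Quotient.mk w :=
      (Submodule.Quotient.eq F).2 hvw
    show (Submodule.Quotient.mk (p := F) v).out = (Submodule.Quotient.mk (p := F) w).out
    rw [this]
  have hsurj : ∀ w ∈ F, ∃ x, Θ x = w := fun w hw => LinearMap.mem_range.1 hw
  choose xx hxx using fun v => hsurj _ (hrep v)
  have hxxv : ∀ v, v = rep v + Θ (xx v) := by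
    intro v
    rw [hxx]; abel
  have hxxu : ∀ v x, v = rep v + Θ x → x = xx v := by
    intro v x hv
    apply hΘ
    rw [hxx]
    exact eq_sub_of_add_eq' hv.symm
  let f : Fin n → V → V := fun i v => v + Θ (h i (xx v) - xx v)
  have hfrep : ∀ i v, rep (f i v) = rep v := by
    intro i v
    apply hrepc
    show v + Θ (h i (xx v) - xx v) - v ∈ F
    rw [add_sub_cancel_left]
    exact LinearMap.mem_range.2 ⟨_, rfl⟩
  have hfxx : ∀ i v, xx (f i v) = h i (xx v) := by
    intro i v
    symm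
    apply hxxu
    rw [hfrep]
    show v + Θ (h i (xx v) - xx v) = rep v + Θ (h i (xx v))
    rw [map_sub]
    conv_lhs => rw [hxxv v]
    rw [← hxxv v]
    abel_nf
    rw [hxx v]
    abel
  have hfinj : ∀ i, Function.Injective (f i) := by
    intro i v w hvw
    have h1 : rep v = rep w := by rw [← hfrep i v, hvw, hfrep]
    have h2 : xx v = xx w := by
      apply (h i).injective
      rw [← hfxx, ← hfxx, hvw]
    rw [hxxv v, hxxv w, h1, h2]
  have hiter : ∀ i v n, rep ((f i)^[n] v) = rep v ∧ xx ((f i)^[n] v) = ((h i) ^ n) (xx v) := by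
    intro i v n
    induction n with
    | zero => exact ⟨rfl, rfl⟩
    | succ n ih =>
      rw [Function.iterate_succ_apply', hfrep, hfxx, ih.1, ih.2, pow_succ', Equiv.Perm.mul_apply]
      exact ⟨rfl, rfl⟩
  have hreach : ∀ i v w, w - v ∈ F → (fgr (f i)).Reachable v w := by
    intro i v w hvw
    obtain ⟨n, hn⟩ := hg.full i (xx v) (xx w)
    have h1 : (f i)^[n] v = w := by
      rw [hxxv ((f i)^[n] v), hxxv w, (hiter i v n).1, (hiter i v n).2, hn, hrepc w v hvw]
    rw [← h1]
    exact fgr_reach _ _ _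
  have hsize : ∀ i v, Nat.card E ≤ csize (fgr (f i)) v := by
    intro i v
    have h1 : (fun x => v + Θ x) '' (Set.univ : Set E) ⊆ {w | (fgr (f i)).Reachable v w} := by
      rintro _ ⟨x, _, rfl⟩
      apply hreach
      show v + Θ x - v ∈ F
      rw [add_sub_cancel_left]
      exact LinearMap.mem_range.2 ⟨_, rfl⟩
    have h2 := Set.ncard_le_ncard h1 (Set.toFinite _)
    have hinj2 : Function.Injective (fun x : E => v + Θ x) := fun x y hxy =>
      hΘ (add_left_cancel hxy)
    rw [Set.ncard_image_of_injective _ hinj2, Set.ncard_univ] at h2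
    exact h2
  refine ⟨fun i => fgr (f i), fun i v => ⟨fgr_deg (hfinj i) v, hsize i v⟩, ?_⟩
  intro v w
  constructor
  · rintro ⟨i, hne, h1 | h1⟩
    · refine ⟨hne, Or.inl ⟨_, hg.mem i (xx v), ?_⟩⟩
      rw [h1]
      show v + Θ _ - v = Θ _
      rw [add_sub_cancel_left]
    · refine ⟨hne, Or.inr ⟨_, hg.mem i (xx w), ?_⟩⟩
      rw [h1]
      show w + Θ _ - w = Θ _
      rw [add_sub_cancel_left]
  · rintro ⟨hne, ⟨x, hx, hj⟩ | ⟨x, hx, hj⟩⟩
    · obtain ⟨i, hi⟩ := hg.surj (xx v) x hx
      refine ⟨i, hne, Or.inl ?_⟩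
      show w = v + Θ (h i (xx v) - xx v)
      rw [hi]
      exact (sub_eq_iff_eq_add'.1 hj)
    · obtain ⟨i, hi⟩ := hg.surj (xx w) x hx
      refine ⟨i, hne, Or.inr ?_⟩
      show v = w + Θ (h i (xx w) - xx w)
      rw [hi]
      exact (sub_eq_iff_eq_add'.1 hj)

/-- The linear map sending a basis to an independent family. -/
theorem exists_emb {E D V : Type} [AddCommGroup E] [Module (ZMod p) E] [AddCommGroup V]
    [Module (ZMod p) V] (b : Basis D (ZMod p) E) (vec : D → V)
    (hvec : LinearIndependent (ZMod p) vec) :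
    ∃ Θ : E →ₗ[ZMod p] V, Function.Injective Θ ∧ ∀ i, Θ (b i) = vec i := by
  refine ⟨(Finsupp.linearCombination (ZMod p) vec).comp (b.repr : E →ₗ[ZMod p] D →₀ ZMod p),
    ?_, ?_⟩
  · have h' : Function.Injective (Finsupp.linearCombination (ZMod p) vec) := hvec
    intro x y hxy
    exact b.repr.injective (h' hxy)
  · intro i
    simp

theorem hamClass_of_ind' (hp : 5 ≤ p) {V : Type} [AddCommGroup V] [Module (ZMod p) V] [Finite V]
    {I : Finset V} (hI : Ind (ZMod p) I) : HamClass p I I.card := by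
  classical
  rcases I.eq_empty_or_nonempty with h0 | hne
  · subst h0
    refine ⟨fun _ => ⊥, ?_, ?_, ?_⟩
    · intro i hi; exact absurd hi (Finset.notMem_empty _)
    · intro i hi; exact absurd hi (Finset.notMem_empty _)
    · intro v a ha; exact absurd ha (Finset.notMem_empty _)
  · obtain ⟨E, _, _, _, D, _, b, h1, h2⟩ := da0_all hp I.card hne.card_pos
    have hcard' : Fintype.card D = Fintype.card I := by rw [h1, Fintype.card_coe]
    let e : D ≃ I := Fintype.equivOfCardEq hcard'
    let a : D → V := fun i => (e i : V)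
    have haI : ∀ i, a i ∈ I := fun i => (e i).2
    have hrange : Set.range a = (I : Set V) := by
      ext v
      constructor
      · rintro ⟨i, rfl⟩
        exact haI i
      · intro hv
        exact ⟨e.symm ⟨v, hv⟩, by simp [a]⟩
    have hli : LinearIndependent (ZMod p) a := by
      rw [linearIndependent_iff_card_eq_finrank_span, hrange, h1]
      exact hI.symm
    obtain ⟨Θ, hΘ, hΘb⟩ := exists_emb b a hli
    obtain ⟨P, hP1, hP2⟩ := factors3 h2 Θ hΘ
    have hc := card_of_basis b
    rw [h1] at hc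
    have hmem : ∀ z, (∃ x ∈ Set.range b, z = Θ x) ↔ z ∈ I := by
      intro z
      constructor
      · rintro ⟨_, ⟨i, rfl⟩, rfl⟩
        rw [hΘb]; exact haI i
      · intro hz
        refine ⟨b (e.symm ⟨z, hz⟩), ⟨_, rfl⟩, ?_⟩
        rw [hΘb]
        simp [a]
    let eF : I ≃ Fin I.card := I.equivFin
    let P' : V → SimpleGraph V := fun v => if hv : v ∈ I then P (eF ⟨v, hv⟩) else ⊥
    have hP' : ∀ i (hi : i ∈ I), P' i = P (eF ⟨i, hi⟩) := fun i hi => dif_pos hi
    refine ⟨P', ?_, ?_, ?_⟩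
    · intro i hi v
      rw [hP' i hi]
      refine ⟨(hP1 _ v).1, ?_⟩
      rw [← hc]
      exact (hP1 _ v).2
    · intro i hi v w hvw
      rw [hP' i hi] at hvw
      obtain ⟨_, h3⟩ := (hP2 v w).1 ⟨_, hvw⟩
      rwa [hmem, hmem] at h3
    · intro v x hx
      by_cases hne' : v ≠ v + x
      · obtain ⟨i, hi⟩ := (hP2 v (v + x)).2 ⟨hne', Or.inl ((hmem _).2 (by
          rwa [add_sub_cancel_left]))⟩
        refine ⟨(eF.symm i : V), (eF.symm i).2, fun _ => ?_⟩
        rw [hP' _ (eF.symm i).2]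
        have h3 : eF ⟨(eF.symm i : V), (eF.symm i).2⟩ = i := by simp
        rw [h3]
        exact hi
      · exact ⟨x, hx, fun h => absurd h hne'⟩

theorem ld_ind_classes (hp : 5 ≤ p) {V : Type} [AddCommGroup V] [Module (ZMod p) V] [Finite V]
    {l : ℕ} (T : Finset V)
    (c : V → Fin l) (hI : ∀ j, Ind (ZMod p) (T.filter (fun x => c x = j)))
    (hload : ∑ j, ((T.filter (fun x => c x = j)).card : ℝ) *
      (2 / (p : ℝ) ^ ((T.filter (fun x => c x = j)).card)) ≤ 1)
    (G : SimpleGraph V) (hG : ∀ v w, G.Adj v w ↔ v ≠ w ∧ (w - v ∈ T ∨ v - w ∈ T)) :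
    LD G T.card :=
  ld_classes T c (fun j => (T.filter (fun x => c x = j)).card)
    (fun j => hamClass_of_ind' hp (hI j)) hload G hG

end Pool.Agent.TH486.LAC
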