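import Pool.Agent.H79.LA.TH486_LAC_Assemble

set_option autoImplicit false

/-!
The load of an equitable partition into linearly independent classes.
-/

namespace Pool.Agent.TH486.LAC

open Finset Module SimpleGraph H931R3.LA Pool.Agent.W111.LAR

/-- The load of a class of size `s`. -/
noncomputable def ff (p s : ℕ) : ℝ := (s : ℝ) * (2 / (p : ℝ) ^ s)

theorem ff_step {p s : ℕ} (hp : 2 ≤ p) (hs : 1 ≤ s) : ff p (s + 1) ≤ ff p s := by
  unfold ff
  have hp' : (2 : ℝ) ≤ p := by exact_mod_cast hp
  have hs' : (1 : ℝ) ≤ s := by exact_mod_cast hs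
  have hpos : (0 : ℝ) < (p : ℝ) ^ s := by positivity
  rw [mul_div_assoc', mul_div_assoc', pow_succ, div_le_div_iff₀ (by positivity) hpos]
  push_cast
  have h1 : ((s : ℝ) + 1) ≤ s * p := by nlinarith
  nlinarith [mul_le_mul_of_nonneg_right h1 hpos.le]

theorem ff_anti {p s s' : ℕ} (hp : 2 ≤ p) (hs : 1 ≤ s) (h : s ≤ s') : ff p s' ≤ ff p s := by
  induction s', h using Nat.le_induction with
  | base => exact le_rfl
  | succ n hn ih => exact (ff_step hp (hs.trans hn)).trans ih

theorem ff_half {p s : ℕ} (hp : 4 ≤ p) (hs : 1 ≤ s) : 2 * ff p (s + 1) ≤ ff p s := by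
  unfold ff
  have hp' : (4 : ℝ) ≤ p := by exact_mod_cast hp
  have hs' : (1 : ℝ) ≤ s := by exact_mod_cast hs
  have hpos : (0 : ℝ) < (p : ℝ) ^ s := by positivity
  rw [mul_div_assoc', mul_div_assoc', mul_div_assoc', pow_succ,
    div_le_div_iff₀ (by positivity) hpos]
  push_cast
  have h1 : 2 * ((s : ℝ) + 1) ≤ s * p := by nlinarith
  nlinarith [mul_le_mul_of_nonneg_right h1 hpos.le]

theorem load_le {p l d β t0 : ℕ} (hp : 5 ≤ p) (hl : 0 < l) (a : Fin l → ℕ)
    (ha : ∀ i j, a i ≤ a j + 1) (hsum : ∑ j, a j = β) (hd : 1 ≤ d)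
    (h1 : (l - 1) * d + 1 ≤ t0) (h2 : t0 ≤ β) (h3 : 2 * t0 + 1 ≤ p ^ d)
    (h5 : β ≤ l * d + 1 → 2 * t0 + 2 * (d - 1) ^ 2 * (p - 1) ≤ p ^ d) :
    ∑ j, ff p (a j) ≤ 1 := by
  obtain ⟨l', rfl⟩ : ∃ l', l = l' + 1 := ⟨l - 1, by omega⟩
  obtain ⟨d', rfl⟩ : ∃ d', d = d' + 1 := ⟨d - 1, by omega⟩
  simp only [Nat.add_sub_cancel] at h1 h5
  have hp0 : (0 : ℝ) < p := by
    have : 0 < p := by omega
    exact_mod_cast this
  have hpow : (0 : ℝ) < (p : ℝ) ^ (d' + 1) := by positivity
  have hcard : (univ : Finset (Fin (l' + 1))).card = l' + 1 := by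
    rw [card_univ, Fintype.card_fin]
  rcases Nat.lt_or_ge ((l' + 1) * (d' + 1)) β with hA | hB
  · -- case A
    have hall : ∀ j, d' + 1 ≤ a j := by
      intro j
      by_contra hcon
      push Not at hcon
      have : ∑ i, a i ≤ ∑ _i : Fin (l' + 1), (d' + 1) := sum_le_sum fun i _ => by
        have := ha i j; omega
      rw [sum_const, hcard, smul_eq_mul] at this
      omega
    obtain ⟨j0, hj0⟩ : ∃ j, d' + 2 ≤ a j := by
      by_contra hcon
      push Not at hcon
      have : ∑ i, a i ≤ ∑ _i : Fin (l' + 1), (d' + 1) := sum_le_sum fun i _ => by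
        have := hcon i; omega
      rw [sum_const, hcard, smul_eq_mul] at this
      omega
    have e1 : ff p (a j0) ≤ ff p (d' + 2) := ff_anti (by omega) (by omega) hj0
    rcases Nat.lt_or_ge ((l' + 1) * (d' + 1) + 1) β with hA2 | hA1
    · -- at least two larger classes
      rcases Nat.eq_zero_or_pos l' with hl0 | hl0
      · subst hl0
        rw [← add_sum_erase univ _ (mem_univ j0)]
        have e0 : univ.erase j0 = (∅ : Finset (Fin (0 + 1))) := by
          rw [← card_eq_zero, card_erase_of_mem (mem_univ _), hcard]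
        rw [e0, sum_empty, add_zero]
        refine (ff_anti (p := p) (s := 1) (by omega) le_rfl (by omega)).trans ?_
        unfold ff
        have hp' : (5 : ℝ) ≤ p := by exact_mod_cast hp
        rw [Nat.cast_one, one_mul, pow_one, div_le_one hp0]
        linarith
      · obtain ⟨j1, hj1, hj1'⟩ : ∃ j, j ≠ j0 ∧ d' + 2 ≤ a j := by
          by_contra hcon
          push Not at hcon
          have e2 : ∑ i ∈ univ.erase j0, a i ≤ ∑ _i ∈ univ.erase j0, (d' + 1) :=
            sum_le_sum fun i hi => by
              have := hcon i (ne_of_mem_erase hi)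
              omega
          rw [sum_const, card_erase_of_mem (mem_univ _), hcard, smul_eq_mul] at e2
          have e3 : a j0 + ∑ i ∈ univ.erase j0, a i = β := by
            rw [add_sum_erase univ a (mem_univ j0), hsum]
          obtain ⟨j, hj⟩ : ∃ j, j ≠ j0 := by
            have : Nontrivial (Fin (l' + 1)) := Fin.nontrivial_iff_two_le.2 (by omega)
            exact exists_ne j0
          have e4 := hcon j hj
          have e5 := ha j0 j
          have e6 : (l' + 1) * (d' + 1) = (l' + 1 - 1) * (d' + 1) + (d' + 1) := by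
            simp only [Nat.add_sub_cancel]; ring
          omega
        obtain ⟨l'', rfl⟩ : ∃ l'', l' = l'' + 1 := ⟨l' - 1, by omega⟩
        have hmem1 : j1 ∈ univ.erase j0 := mem_erase.2 ⟨hj1, mem_univ _⟩
        rw [← add_sum_erase univ _ (mem_univ j0), ← add_sum_erase (univ.erase j0) _ hmem1]
        have e1' : ff p (a j1) ≤ ff p (d' + 2) := ff_anti (by omega) (by omega) hj1'
        have e2 : ∑ j ∈ (univ.erase j0).erase j1, ff p (a j) ≤ l'' * ff p (d' + 1) := by
          have : ∑ j ∈ (univ.erase j0).erase j1, ff p (a j) ≤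
              ∑ _j ∈ (univ.erase j0).erase j1, ff p (d' + 1) :=
            sum_le_sum fun j _ => ff_anti (by omega) (by omega) (hall j)
          rw [sum_const, card_erase_of_mem hmem1, card_erase_of_mem (mem_univ _), hcard,
            nsmul_eq_mul] at this
          have e0 : l'' + 1 + 1 - 1 - 1 = l'' := by omega
          rwa [e0] at this
        have e3 := ff_half (p := p) (s := d' + 1) (by omega) (by omega)
        have e4 : ((l'' + 1 : ℕ) : ℝ) * ff p (d' + 1) ≤ 1 := by
          unfold ff
          rw [← mul_assoc, mul_div_assoc', div_le_one hpow]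
          have h7 : ((2 * ((l'' + 1) * (d' + 1)) : ℕ) : ℝ) ≤ ((p ^ (d' + 1) : ℕ) : ℝ) := by
            exact_mod_cast (show 2 * ((l'' + 1) * (d' + 1)) ≤ p ^ (d' + 1) by omega)
          push_cast at h7 ⊢
          linarith
        push_cast at e4
        have e5 : d' + 1 + 1 = d' + 2 := rfl
        rw [e5] at e3
        linarith
    · -- exactly one larger class
      have h5' := h5 hA1
      rw [← add_sum_erase univ _ (mem_univ j0)]
      have e2 : ∑ j ∈ univ.erase j0, ff p (a j) ≤ l' * ff p (d' + 1) := by
        have : ∑ j ∈ univ.erase j0, ff p (a j) ≤ ∑ _j ∈ univ.erase j0, ff p (d' + 1) :=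
          sum_le_sum fun j _ => ff_anti (by omega) (by omega) (hall j)
        rw [sum_const, card_erase_of_mem (mem_univ _), hcard, nsmul_eq_mul] at this
        simpa using this
      refine (add_le_add e1 e2).trans ?_
      have e3 : ff p (d' + 2) + l' * ff p (d' + 1) =
          ((2 * (d' + 2) + 2 * (l' * (d' + 1)) * p : ℕ) : ℝ) / (p : ℝ) ^ (d' + 2) := by
        unfold ff
        push_cast
        field_simp
        ring
      rw [e3, div_le_one (by positivity)]
      have e4 : 2 * (d' + 2) + 2 * (l' * (d' + 1)) * p ≤ p ^ (d' + 2) := by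
        rw [pow_succ p (d' + 1)]
        have e5 : (2 * (l' * (d' + 1)) + 3) * p ≤ p ^ (d' + 1) * p :=
          Nat.mul_le_mul_right _ (by omega)
        have e6 : (2 * (l' * (d' + 1)) + (2 + 2 * d' ^ 2 * (p - 1))) * p ≤ p ^ (d' + 1) * p :=
          Nat.mul_le_mul_right _ (by omega)
        rcases Nat.eq_zero_or_pos d' with hd0 | hd0
        · subst hd0
          have e7 : (2 * (l' * (0 + 1)) + 3) * p = 2 * (l' * (0 + 1)) * p + 3 * p := by ring
          omega
        · have e7 : (2 * (l' * (d' + 1)) + (2 + 2 * d' ^ 2 * (p - 1))) * p =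
              2 * (l' * (d' + 1)) * p + 2 * p + 2 * (d' ^ 2 * ((p - 1) * p)) := by ring
          have e8 : d' * 1 ≤ d' ^ 2 * ((p - 1) * p) := by
            refine Nat.mul_le_mul ?_ (Nat.mul_pos (by omega) (by omega))
            rw [pow_two]
            exact Nat.le_mul_of_pos_left _ hd0
          omega
      exact_mod_cast e4
  · -- case B
    have h5' := h5 (by omega)
    have hall : ∀ j, a j ≤ d' + 1 := by
      intro j
      by_contra hcon
      push Not at hcon
      have : ∑ _i : Fin (l' + 1), (d' + 1) + 1 ≤ ∑ i, a i := by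
        rw [← add_sum_erase univ a (mem_univ j), ← add_sum_erase univ (fun _ => d' + 1)
          (mem_univ j)]
        have : ∑ i ∈ univ.erase j, (d' + 1) ≤ ∑ i ∈ univ.erase j, a i :=
          sum_le_sum fun i _ => by have := ha j i; omega
        omega
      rw [sum_const, hcard, smul_eq_mul] at this
      omega
    rcases Nat.lt_or_ge d' (l' + 2) with hs | hs
    · -- all sizes are `d'` or `d' + 1`
      have hall2 : ∀ j, d' ≤ a j := by
        intro j
        by_contra hcon
        push Not at hcon
        have : ∑ i, a i + 1 ≤ ∑ _i : Fin (l' + 1), d' := by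
          rw [← add_sum_erase univ a (mem_univ j), ← add_sum_erase univ (fun _ => d')
            (mem_univ j)]
          have : ∑ i ∈ univ.erase j, a i ≤ ∑ i ∈ univ.erase j, d' :=
            sum_le_sum fun i _ => by have := ha i j; omega
          omega
        rw [sum_const, hcard, smul_eq_mul, hsum] at this
        have e1 : (l' + 1) * d' = l' * d' + d' := by ring
        have e2 : l' * (d' + 1) = l' * d' + l' := by ring
        omega
      have hff : ∀ j, ff p (a j) = (2 / (p : ℝ) ^ (d' + 1)) *
          ((a j : ℝ) + ((d' + 1 : ℝ) - a j) * (d' * ((p : ℝ) - 1))) := by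
        intro j
        have h6 := hall j
        have h7 := hall2 j
        unfold ff
        rcases Nat.lt_or_ge (a j) (d' + 1) with h8 | h8
        · have h9 : a j = d' := by omega
          rw [h9, pow_succ]
          field_simp
          ring
        · have h9 : a j = d' + 1 := by omega
          rw [h9]
          push_cast
          ring
      simp only [hff]
      rw [← mul_sum, sum_add_distrib, ← sum_mul, sum_sub_distrib, sum_const, hcard, nsmul_eq_mul]
      have hsum' : ∑ j, (a j : ℝ) = β := by exact_mod_cast hsum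
      rw [hsum']
      obtain ⟨E, hE⟩ := Nat.exists_eq_add_of_le hB
      have hE' : (((l' + 1) * (d' + 1) : ℕ) : ℝ) = ((β + E : ℕ) : ℝ) := by rw [hE]
      push_cast at hE'
      have hrw : ((l' + 1 : ℕ) : ℝ) * ((d' : ℝ) + 1) - β = E := by
        push_cast
        linarith
      rw [hrw]
      obtain ⟨q, rfl⟩ : ∃ q, p = q + 1 := ⟨p - 1, by omega⟩
      rw [Nat.add_sub_cancel] at h5'
      have hEd : E ≤ d' := by
        have e1 : (l' + 1) * (d' + 1) = l' * (d' + 1) + d' + 1 := by ring
        omega
      obtain ⟨r, rfl⟩ := Nat.exists_eq_add_of_le hEd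
      have key : β + E * ((E + r) * q) ≤ t0 + (E + r) ^ 2 * q := by
        have e1 : (l' + 1) * (E + r + 1) = l' * (E + r + 1) + E + r + 1 := by ring
        have e2 : β ≤ t0 + r := by omega
        have e3 : r ≤ r * ((E + r) * q) := by
          rcases Nat.eq_zero_or_pos r with h | h
          · subst h; simp
          · have : 1 ≤ (E + r) * q := Nat.mul_pos (by omega) (by omega)
            nlinarith
        have e4 : (E + r) ^ 2 * q = E * ((E + r) * q) + r * ((E + r) * q) := by ring
        omega
      have key2 : 2 * (β + E * ((E + r) * q)) ≤ (q + 1) ^ (E + r + 1) := by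
        have e5 : 2 * (E + r) ^ 2 * q = 2 * ((E + r) ^ 2 * q) := by ring
        omega
      have key3 : ((2 * (β + E * ((E + r) * q)) : ℕ) : ℝ) ≤ (((q + 1) ^ (E + r + 1) : ℕ) : ℝ) := by
        exact_mod_cast key2
      rw [div_mul_eq_mul_div, div_le_one hpow]
      push_cast at key3 ⊢
      linarith
    · -- few classes
      have hall2 : ∀ j, l' + 1 ≤ a j := by
        intro j
        by_contra hcon
        push Not at hcon
        have : ∑ i, a i + 1 ≤ ∑ _i : Fin (l' + 1), (l' + 1) := by
          rw [← add_sum_erase univ a (mem_univ j), ← add_sum_erase univ (fun _ => l' + 1)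
            (mem_univ j)]
          have : ∑ i ∈ univ.erase j, a i ≤ ∑ i ∈ univ.erase j, (l' + 1) :=
            sum_le_sum fun i _ => by have := ha i j; omega
          omega
        rw [sum_const, hcard, smul_eq_mul, hsum] at this
        have e1 : l' * (l' + 3) ≤ l' * (d' + 1) := Nat.mul_le_mul_left _ (by omega)
        have e2 : l' * (l' + 3) = l' * l' + 3 * l' := by ring
        have e3 : (l' + 1) * (l' + 1) = l' * l' + 2 * l' + 1 := by ring
        omega
      have e1 : ∑ j, ff p (a j) ≤ ∑ _j : Fin (l' + 1), ff p (l' + 1) :=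
        sum_le_sum fun j _ => ff_anti (by omega) (by omega) (hall2 j)
      refine e1.trans ?_
      rw [sum_const, hcard, nsmul_eq_mul]
      have e2 : ∀ n : ℕ, 1 ≤ n → 2 * n ^ 2 ≤ 3 ^ n := by
        intro n hn
        rcases Nat.lt_or_ge n 2 with h | h
        · have : n = 1 := by omega
          subst this; norm_num
        · induction n, h using Nat.le_induction with
          | base => norm_num
          | succ n hn2 ih =>
            have := ih (by omega)
            rw [pow_succ 3 n]
            nlinarith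
      have e3 : 2 * (l' + 1) ^ 2 ≤ p ^ (l' + 1) :=
        (e2 (l' + 1) (by omega)).trans (Nat.pow_le_pow_left (by omega) _)
      have e4 : ((2 * (l' + 1) ^ 2 : ℕ) : ℝ) ≤ ((p ^ (l' + 1) : ℕ) : ℝ) := by exact_mod_cast e3
      have hpow2 : (0 : ℝ) < (p : ℝ) ^ (l' + 1) := by positivity
      unfold ff
      rw [mul_div_assoc', mul_div_assoc', div_le_one hpow2]
      push_cast at e4 ⊢
      linarith

end Pool.Agent.TH486.LAC
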