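import Pool.Agent.H79.LA.TH486_LAC_Event

set_option autoImplicit false

/-!
Directed Hamilton decompositions of products.
-/

namespace Pool.Agent.TH486.LAC

open Finset

variable {p : ℕ} [Fact p.Prime]

/-- A decomposition into full cycles with displacements in `G`. -/
structure HD {κ E : Type} [AddCommGroup E] (G : Set E) (u : E → ZMod p)
    (h : κ → Equiv.Perm E) : Prop where
  mem : ∀ k x, h k x - x ∈ G
  surj : ∀ x, ∀ v ∈ G, ∃ k, h k x - x = v
  hu : ∀ k x, u (h k x) = u x + 1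
  full : ∀ k, Tr (h k)

/-- The union of the two sets in the product. -/
def GS {E E' : Type} [AddCommGroup E] [AddCommGroup E'] (G : Set E) (G' : Set E') :
    Set (E × E') := {z | (z.1 ∈ G ∧ z.2 = 0) ∨ (z.1 = 0 ∧ z.2 ∈ G')}

/-- One step. -/
def stp {κ κ' E E' : Type} (h : κ → Equiv.Perm E) (f : κ' → Equiv.Perm E') (t : κ ⊕ κ')
    (z : E × E') : E × E' :=
  match t with
  | Sum.inl i => (h i z.1, z.2)
  | Sum.inr j => (z.1, f j z.2)

theorem HD.prod {κ κ' K E E' : Type} [AddCommGroup E] [AddCommGroup E'] {G : Set E} {G' : Set E'}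
    {u : E → ZMod p} {u' : E' → ZMod p} {h : κ → Equiv.Perm E} {f : κ' → Equiv.Perm E'}
    (SX : HD G u h) (SY : HD G' u' f) (Φ : K → Equiv.Perm (E × E'))
    (ch : K → E × E' → κ ⊕ κ') (hΦ : ∀ k z, Φ k z = stp h f (ch k z) z)
    (hs : ∀ z t, ∃ k, ch k z = t) (hfull : ∀ k, Tr (Φ k)) :
    HD (GS G G') (fun z => u z.1 + u' z.2) Φ where
  mem := by
    intro k z
    rw [hΦ]
    cases ch k z with
    | inl i => exact Or.inl ⟨SX.mem i z.1, sub_self _⟩
    | inr j => exact Or.inr ⟨sub_self _, SY.mem j z.2⟩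
  surj := by
    rintro z ⟨v1, v2⟩ (⟨h1, h2⟩ | ⟨h1, h2⟩)
    · obtain ⟨i, hi⟩ := SX.surj z.1 v1 h1
      obtain ⟨k, hk⟩ := hs z (Sum.inl i)
      refine ⟨k, ?_⟩
      rw [hΦ, hk]
      refine Prod.ext hi ?_
      show z.2 - z.2 = v2
      rw [sub_self]; exact h2.symm
    · obtain ⟨i, hi⟩ := SY.surj z.2 v2 h2
      obtain ⟨k, hk⟩ := hs z (Sum.inr i)
      refine ⟨k, ?_⟩
      rw [hΦ, hk]
      refine Prod.ext ?_ hi
      show z.1 - z.1 = v1
      rw [sub_self]; exact h1.symm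
  hu := by
    intro k z
    rw [hΦ]
    cases ch k z with
    | inl i =>
      show u (h i z.1) + u' z.2 = u z.1 + u' z.2 + 1
      rw [SX.hu]; ring
    | inr j =>
      show u z.1 + u' (f j z.2) = u z.1 + u' z.2 + 1
      rw [SY.hu]; ring
  full := hfull

theorem HD.reindex {κ κ' E : Type} [AddCommGroup E] {G : Set E} {u : E → ZMod p}
    {h : κ → Equiv.Perm E} (S : HD G u h) (e : κ' → κ) (he : Function.Surjective e) :
    HD G u (fun k => h (e k)) where
  mem := fun k x => S.mem _ x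
  surj := by
    intro x v hv
    obtain ⟨k, hk⟩ := S.surj x v hv
    obtain ⟨k', rfl⟩ := he k
    exact ⟨k', hk⟩
  hu := fun k x => S.hu _ x
  full := fun k => S.full _

/-- A permutation of the product governed by the sum of the positions. -/
def rotP {X Y : Type} {N : ℕ} (h : Equiv.Perm X) (f : Equiv.Perm Y) (PX : X → ZMod N)
    (PY : Y → ZMod N) (hPX : ∀ x, PX (h x) = PX x + 1) (hPY : ∀ y, PY (f y) = PY y + 1)
    (c : ZMod N → Prop) [DecidablePred c] : Equiv.Perm (X × Y) where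
  toFun z := if c (PX z.1 + PY z.2) then (h z.1, z.2) else (z.1, f z.2)
  invFun z := if c (PX z.1 + PY z.2 - 1) then (h.symm z.1, z.2) else (z.1, f.symm z.2)
  left_inv z := by
    by_cases hc : c (PX z.1 + PY z.2)
    · have h1 : PX (h z.1) + PY z.2 - 1 = PX z.1 + PY z.2 := by rw [hPX]; ring
      simp [hc, h1]
    · have h1 : PX z.1 + PY (f z.2) - 1 = PX z.1 + PY z.2 := by rw [hPY]; ring
      simp [hc, h1]
  right_inv z := by
    by_cases hc : c (PX z.1 + PY z.2 - 1)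
    · have h0 := hPX (h.symm z.1)
      rw [Equiv.apply_symm_apply] at h0
      have h1 : PX (h.symm z.1) + PY z.2 = PX z.1 + PY z.2 - 1 := by rw [h0]; ring
      simp [hc, h1]
    · have h0 := hPY (f.symm z.2)
      rw [Equiv.apply_symm_apply] at h0
      have h1 : PX z.1 + PY (f.symm z.2) = PX z.1 + PY z.2 - 1 := by rw [h0]; ring
      simp [hc, h1]

theorem rotP_apply {X Y : Type} {N : ℕ} (h : Equiv.Perm X) (f : Equiv.Perm Y) (PX : X → ZMod N)
    (PY : Y → ZMod N) (hPX : ∀ x, PX (h x) = PX x + 1) (hPY : ∀ y, PY (f y) = PY y + 1)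
    (c : ZMod N → Prop) [DecidablePred c] (x : X) (y : Y) :
    rotP h f PX PY hPX hPY c (x, y) = if c (PX x + PY y) then (h x, y) else (x, f y) := rfl

/-- The form of such permutations. -/
def RF {X Y : Type} {N : ℕ} (h : Equiv.Perm X) (f : Equiv.Perm Y) (PX : X → ZMod N)
    (PY : Y → ZMod N) (Φ : Equiv.Perm (X × Y)) (α β : ZMod N → ℕ) : Prop :=
  ∀ x y, Φ (x, y) = ((h ^ α (PX x + PY y)) x, (f ^ β (PX x + PY y)) y)

theorem rf_rotP {X Y : Type} {N : ℕ} (h : Equiv.Perm X) (f : Equiv.Perm Y) (PX : X → ZMod N)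
    (PY : Y → ZMod N) (hPX : ∀ x, PX (h x) = PX x + 1) (hPY : ∀ y, PY (f y) = PY y + 1)
    (c : ZMod N → Prop) [DecidablePred c] :
    RF h f PX PY (rotP h f PX PY hPX hPY c) (fun s => if c s then 1 else 0)
      (fun s => if c s then 0 else 1) := by
  intro x y
  rw [rotP_apply]
  by_cases hc : c (PX x + PY y)
  · simp [hc]
  · simp [hc]

theorem rf_comp {X Y : Type} {N : ℕ} {h : Equiv.Perm X} {f : Equiv.Perm Y} {PX : X → ZMod N}
    {PY : Y → ZMod N} (hPX : ∀ x, PX (h x) = PX x + 1) (hPY : ∀ y, PY (f y) = PY y + 1)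
    {Φ1 Φ2 : Equiv.Perm (X × Y)} {α1 β1 α2 β2 : ZMod N → ℕ} {n : ℕ}
    (h1 : RF h f PX PY Φ1 α1 β1) (h2 : RF h f PX PY Φ2 α2 β2) (hn : ∀ s, α1 s + β1 s = n) :
    RF h f PX PY (Φ2 * Φ1) (fun s => α2 (s + n) + α1 s) (fun s => β2 (s + n) + β1 s) := by
  intro x y
  rw [Equiv.Perm.mul_apply, h1, h2]
  have h3 : PX ((h ^ α1 (PX x + PY y)) x) + PY ((f ^ β1 (PX x + PY y)) y) =
      PX x + PY y + n := by
    rw [pos_pow hPX, pos_pow hPY, ← hn (PX x + PY y)]
    push_cast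
    ring
  rw [h3]
  simp only [pow_add, Equiv.Perm.mul_apply]

theorem card_val {N : ℕ} [NeZero N] (lo hi : ℕ) (_hlo : lo ≤ hi) (hhi : hi ≤ N) :
    (univ.filter (fun s : ZMod N => lo ≤ s.val ∧ s.val < hi)).card = hi - lo := by
  rw [← Nat.card_Ico lo hi]
  symm
  refine card_bij (fun (i : ℕ) _ => (i : ZMod N)) ?_ ?_ ?_
  · intro i hi'
    rw [mem_Ico] at hi'
    rw [mem_filter, ZMod.val_cast_of_lt (by omega)]
    exact ⟨mem_univ _, hi'⟩
  · intro i hi' j hj' hij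
    rw [mem_Ico] at hi' hj'
    have := congrArg ZMod.val hij
    rwa [ZMod.val_cast_of_lt (by omega), ZMod.val_cast_of_lt (by omega)] at this
  · intro s hs
    exact ⟨s.val, mem_Ico.2 (mem_filter.1 hs).2, ZMod.natCast_zmod_val s⟩

theorem sum_ind {N : ℕ} [NeZero N] (c : ZMod N → Prop) [DecidablePred c] :
    ∑ s, (if c s then 1 else 0 : ℕ) = (univ.filter c).card := by
  rw [sum_boole]; simp

theorem sum_ind' {N : ℕ} [NeZero N] (c : ZMod N → Prop) [DecidablePred c] :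
    ∑ s, (if c s then 0 else 1 : ℕ) + (univ.filter c).card = N := by
  rw [← sum_ind c, ← sum_add_distrib]
  have h1 : ∀ s : ZMod N, (if c s then 0 else 1 : ℕ) + (if c s then 1 else 0 : ℕ) = 1 := by
    intro s
    by_cases hc : c s <;> simp [hc]
  simp only [h1]
  simp [ZMod.card]

section pair

variable {X Y : Type} [Finite X] [Finite Y] {N a b : ℕ} [NeZero N]
    {h : Equiv.Perm X} {f : Equiv.Perm Y} (hf : Tr f) (hN : N = p ^ a) (ha : 1 ≤ a)
    (hX : Nat.card X = N) (hY : Nat.card Y = p ^ b)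
    {PX : X → ZMod N} (hPX : ∀ x, PX (h x) = PX x + 1)
    {PY : Y → ZMod N} (hPY : ∀ y, PY (f y) = PY y + 1)

include hf hN hX hY hPX hPY in
theorem tr_of_rf (Φ : Equiv.Perm (X × Y)) {α β : ZMod N → ℕ} (hRF : RF h f PX PY Φ α β) (n : ℕ)
    (hn : ¬ p ∣ n) (hαβ : ∀ s, α s + β s = n) (hB : ¬ p ∣ ∑ s, β s) : Tr Φ :=
  tr_rot (p := p) hf hN hX hY hPX hPY Φ α β n hn hαβ hRF hB

include hf hN hX hY in
theorem tr_rotP (c : ZMod N → Prop) [DecidablePred c]
    (hB : ¬ p ∣ ∑ s, (if c s then 0 else 1 : ℕ)) : Tr (rotP h f PX PY hPX hPY c) := by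
  have hp := (Fact.out : p.Prime).one_lt
  refine tr_of_rf (p := p) hf hN hX hY hPX hPY _ (rf_rotP h f PX PY hPX hPY c) 1 ?_ ?_ hB
  · intro h1
    have := Nat.le_of_dvd (by norm_num) h1
    omega
  · intro s
    by_cases hc : c s <;> simp [hc]

include hf hN ha hX hY in
theorem tr_rotI (lo hi : ℕ) (h1 : lo < hi) (h2 : hi < p) :
    Tr (rotP h f PX PY hPX hPY (fun s => lo ≤ s.val ∧ s.val < hi)) := by
  have hpN : p ∣ N := by rw [hN]; exact dvd_pow_self p (by omega)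
  have hNpos : 0 < N := Nat.pos_of_ne_zero (NeZero.ne N)
  have hle : p ≤ N := Nat.le_of_dvd hNpos hpN
  refine tr_rotP hf hN hX hY hPX hPY _ ?_
  have h3 := sum_ind' (N := N) (fun s => lo ≤ s.val ∧ s.val < hi)
  rw [card_val lo hi (by omega) (by omega)] at h3
  intro h4
  have h5 : p ∣ hi - lo := by
    rw [← h3] at hpN
    exact (Nat.dvd_add_right h4).1 hpN
  have := Nat.le_of_dvd (by omega) h5
  omega

include hf hN ha hX hY in
theorem tr_rotI' (lo hi : ℕ) (h1 : lo < hi) (h2 : hi < p) :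
    Tr (rotP h f PX PY hPX hPY (fun s => ¬ (lo ≤ s.val ∧ s.val < hi))) := by
  have hpN : p ∣ N := by rw [hN]; exact dvd_pow_self p (by omega)
  have hNpos : 0 < N := Nat.pos_of_ne_zero (NeZero.ne N)
  have hle : p ≤ N := Nat.le_of_dvd hNpos hpN
  refine tr_rotP hf hN hX hY hPX hPY _ ?_
  have h3 := sum_ind (N := N) (fun s => lo ≤ s.val ∧ s.val < hi)
  rw [card_val lo hi (by omega) (by omega)] at h3
  have h5 : ∑ s : ZMod N, (if ¬ (lo ≤ s.val ∧ s.val < hi) then 0 else 1 : ℕ) = hi - lo := by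
    rw [← h3]
    refine sum_congr rfl fun s _ => ?_
    by_cases hc : lo ≤ s.val ∧ s.val < hi <;> simp [hc]
  rw [h5]
  intro h4
  have := Nat.le_of_dvd (by omega) h4
  omega

include hf hN ha hX hY in
theorem tr_pair (hp5 : 5 ≤ p) (lo hi : ℕ) (h1 : lo < hi) (h2 : hi < p) (h12 : hi = lo + 1) :
    Tr (rotP h f PX PY hPX hPY (fun s => ¬ (lo ≤ s.val ∧ s.val < hi)) ^ 2 *
      rotP h f PX PY hPX hPY (fun s => lo ≤ s.val ∧ s.val < hi)) := by
  have hpN : p ∣ N := by rw [hN]; exact dvd_pow_self p (by omega)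
  have hNpos : 0 < N := Nat.pos_of_ne_zero (NeZero.ne N)
  have hle : p ≤ N := Nat.le_of_dvd hNpos hpN
  set F := rotP h f PX PY hPX hPY (fun s => lo ≤ s.val ∧ s.val < hi) with hF
  set H := rotP h f PX PY hPX hPY (fun s => ¬ (lo ≤ s.val ∧ s.val < hi)) with hH
  have r1 := rf_rotP h f PX PY hPX hPY (fun s => lo ≤ s.val ∧ s.val < hi)
  have r2 := rf_rotP h f PX PY hPX hPY (fun s => ¬ (lo ≤ s.val ∧ s.val < hi))
  rw [← hF] at r1
  rw [← hH] at r2
  have r3 := rf_comp hPX hPY r1 r2 (n := 1) (by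
    intro s
    by_cases hc : lo ≤ s.val ∧ s.val < hi <;> simp [hc])
  have r4 := rf_comp hPX hPY r3 r2 (n := 2) (by
    intro s
    by_cases hc : lo ≤ s.val ∧ s.val < hi <;>
      by_cases hc' : lo ≤ (s + ((1 : ℕ) : ZMod N)).val ∧ (s + ((1 : ℕ) : ZMod N)).val < hi <;>
        simp only [hc, hc'] <;> simp)
  have e1 : H ^ 2 * F = H * (H * F) := by rw [pow_two, mul_assoc]
  rw [e1]
  refine tr_of_rf (p := p) hf hN hX hY hPX hPY _ r4 3 ?_ ?_ ?_
  · intro h3
    have := Nat.le_of_dvd (by norm_num) h3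
    omega
  · intro s
    by_cases hc : lo ≤ s.val ∧ s.val < hi <;>
      by_cases hc' : lo ≤ (s + ((1 : ℕ) : ZMod N)).val ∧ (s + ((1 : ℕ) : ZMod N)).val < hi <;>
      by_cases hc'' : lo ≤ (s + ((2 : ℕ) : ZMod N)).val ∧ (s + ((2 : ℕ) : ZMod N)).val < hi <;>
        simp only [hc, hc', hc''] <;> simp
  · have h3 := sum_ind' (N := N) (fun s => lo ≤ s.val ∧ s.val < hi)
    have h4 := sum_ind (N := N) (fun s => lo ≤ s.val ∧ s.val < hi)
    rw [card_val lo hi (by omega) (by omega)] at h3 h4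
    have h5 : ∑ s : ZMod N, (if ¬ (lo ≤ s.val ∧ s.val < hi) then 0 else 1 : ℕ) = hi - lo := by
      rw [← h4]
      refine sum_congr rfl fun s _ => ?_
      by_cases hc : lo ≤ s.val ∧ s.val < hi <;> simp [hc]
    have h6 : ∀ n : ℕ, ∑ s : ZMod N, (if ¬ (lo ≤ (s + (n : ZMod N)).val ∧
        (s + (n : ZMod N)).val < hi) then 0 else 1 : ℕ) = hi - lo := by
      intro n
      rw [← h5]
      exact Equiv.sum_comp (Equiv.addRight (n : ZMod N))
        (fun s : ZMod N => (if ¬ (lo ≤ s.val ∧ s.val < hi) then 0 else 1 : ℕ))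
    rw [sum_add_distrib, sum_add_distrib, h6, h6]
    intro h7
    have h8 : hi - lo + (hi - lo + ∑ s : ZMod N, (if (lo ≤ s.val ∧ s.val < hi) then 0 else 1 : ℕ))
        = N + 1 := by omega
    rw [h8] at h7
    have h9 := (Nat.dvd_add_right hpN).1 h7
    have := Nat.le_of_dvd (by norm_num) h9
    omega

end pair

end Pool.Agent.TH486.LAC
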