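import Pool.Agent.H79.LA.TH486_LAC_Prod

set_option autoImplicit false

/-!
Products of two decompositions.
-/

namespace Pool.Agent.TH486.LAC

open Finset

variable {p : ℕ} [Fact p.Prime]

theorem val_succ' {N : ℕ} [NeZero N] (s : ZMod N) (h : s.val + 1 < N) :
    (s + 1).val = s.val + 1 := by
  have h4 := val_add_nat s 1
  rw [Nat.cast_one] at h4
  rw [h4, Nat.mod_eq_of_lt h]

omit [Fact p.Prime] in
theorem exists_ev {X Y : Type} [Finite X] [Finite Y] {N a b : ℕ} [NeZero N]
    (h : Equiv.Perm X) (f1 f2 : Equiv.Perm Y) (hab : a + b < p) (hpN : p ≤ N)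
    {PX : X → ZMod N} (hPX : ∀ x, PX (h x) = PX x + 1)
    {P1 : Y → ZMod N} (hP1 : ∀ y, P1 (f1 y) = P1 y + 1)
    {P2 : Y → ZMod N} (hP2 : ∀ y, P2 (f2 y) = P2 y + 1)
    (hres : ∀ x y, (PX x + P1 y).val % p = (PX x + P2 y).val % p) :
    ∃ H : Equiv.Perm (X × Y), ∀ x y, H (x, y) = if (PX x + P1 y).val < a then (x, f1 y)
      else if a ≤ (PX x + P2 y).val ∧ (PX x + P2 y).val < a + b then (x, f2 y) else (h x, y) := by
  classical
  let F : X × Y → X × Y := fun z => if (PX z.1 + P1 z.2).val < a then (z.1, f1 z.2)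
      else if a ≤ (PX z.1 + P2 z.2).val ∧ (PX z.1 + P2 z.2).val < a + b then (z.1, f2 z.2)
      else (h z.1, z.2)
  have hinj : Function.Injective F := by
    rintro ⟨x, y⟩ ⟨x', y'⟩ hxy
    have key12 : ∀ x y x' y', (PX x + P1 y).val < a → a ≤ (PX x' + P2 y').val →
        (PX x' + P2 y').val < a + b → (x, f1 y) = (x', f2 y') → False := by
      intro x y x' y' h1 h2 h3 h4
      obtain ⟨h5, h6⟩ := Prod.mk.inj h4
      subst h5
      have h7 := hres x (f1 y)
      have h8 : PX x + P1 (f1 y) = PX x + P1 y + 1 := by rw [hP1]; ring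
      have h9 : PX x + P2 (f1 y) = PX x + P2 y' + 1 := by rw [h6, hP2]; ring
      rw [h8, h9, val_succ' _ (by omega), val_succ' _ (by omega), Nat.mod_eq_of_lt (by omega),
        Nat.mod_eq_of_lt (by omega)] at h7
      omega
    have key13 : ∀ x y x' y', (PX x + P1 y).val < a → ¬ (PX x' + P1 y').val < a →
        (x, f1 y) = (h x', y') → False := by
      intro x y x' y' h1 h2 h4
      obtain ⟨h5, h6⟩ := Prod.mk.inj h4
      have h8 : PX x + P1 (f1 y) = PX x + P1 y + 1 := by rw [hP1]; ring
      have h9 : PX (h x') + P1 y' = PX x' + P1 y' + 1 := by rw [hPX]; ring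
      rw [h5, h6, h9, ← h5] at h8
      have h10 : PX x' + P1 y' = PX x + P1 y := by linear_combination h8
      rw [h10] at h2
      exact h2 h1
    have key23 : ∀ x y x' y', (a ≤ (PX x + P2 y).val ∧ (PX x + P2 y).val < a + b) →
        ¬ (a ≤ (PX x' + P2 y').val ∧ (PX x' + P2 y').val < a + b) →
        (x, f2 y) = (h x', y') → False := by
      intro x y x' y' h1 h2 h4
      obtain ⟨h5, h6⟩ := Prod.mk.inj h4
      have h8 : PX x + P2 (f2 y) = PX x + P2 y + 1 := by rw [hP2]; ring
      have h9 : PX (h x') + P2 y' = PX x' + P2 y' + 1 := by rw [hPX]; ring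
      rw [h5, h6, h9, ← h5] at h8
      have h10 : PX x' + P2 y' = PX x + P2 y := by linear_combination h8
      rw [h10] at h2
      exact h2 h1
    by_cases c1 : (PX x + P1 y).val < a
    · have e1 : F (x, y) = (x, f1 y) := if_pos c1
      by_cases c1' : (PX x' + P1 y').val < a
      · have e1' : F (x', y') = (x', f1 y') := if_pos c1'
        rw [e1, e1'] at hxy
        obtain ⟨h5, h6⟩ := Prod.mk.inj hxy
        rw [h5, f1.injective h6]
      · by_cases c2' : a ≤ (PX x' + P2 y').val ∧ (PX x' + P2 y').val < a + b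
        · have e1' : F (x', y') = (x', f2 y') := by
            show (if _ then _ else if _ then _ else _) = _
            rw [if_neg c1', if_pos c2']
          rw [e1, e1'] at hxy
          exact (key12 _ _ _ _ c1 c2'.1 c2'.2 hxy).elim
        · have e1' : F (x', y') = (h x', y') := by
            show (if _ then _ else if _ then _ else _) = _
            rw [if_neg c1', if_neg c2']
          rw [e1, e1'] at hxy
          exact (key13 _ _ _ _ c1 c1' hxy).elim
    · by_cases c2 : a ≤ (PX x + P2 y).val ∧ (PX x + P2 y).val < a + b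
      · have e1 : F (x, y) = (x, f2 y) := by
          show (if _ then _ else if _ then _ else _) = _
          rw [if_neg c1, if_pos c2]
        by_cases c1' : (PX x' + P1 y').val < a
        · have e1' : F (x', y') = (x', f1 y') := if_pos c1'
          rw [e1, e1'] at hxy
          exact (key12 _ _ _ _ c1' c2.1 c2.2 hxy.symm).elim
        · by_cases c2' : a ≤ (PX x' + P2 y').val ∧ (PX x' + P2 y').val < a + b
          · have e1' : F (x', y') = (x', f2 y') := by
              show (if _ then _ else if _ then _ else _) = _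
              rw [if_neg c1', if_pos c2']
            rw [e1, e1'] at hxy
            obtain ⟨h5, h6⟩ := Prod.mk.inj hxy
            rw [h5, f2.injective h6]
          · have e1' : F (x', y') = (h x', y') := by
              show (if _ then _ else if _ then _ else _) = _
              rw [if_neg c1', if_neg c2']
            rw [e1, e1'] at hxy
            exact (key23 _ _ _ _ c2 c2' hxy).elim
      · have e1 : F (x, y) = (h x, y) := by
          show (if _ then _ else if _ then _ else _) = _
          rw [if_neg c1, if_neg c2]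
        by_cases c1' : (PX x' + P1 y').val < a
        · have e1' : F (x', y') = (x', f1 y') := if_pos c1'
          rw [e1, e1'] at hxy
          exact (key13 _ _ _ _ c1' c1 hxy.symm).elim
        · by_cases c2' : a ≤ (PX x' + P2 y').val ∧ (PX x' + P2 y').val < a + b
          · have e1' : F (x', y') = (x', f2 y') := by
              show (if _ then _ else if _ then _ else _) = _
              rw [if_neg c1', if_pos c2']
            rw [e1, e1'] at hxy
            exact (key23 _ _ _ _ c2' c2 hxy.symm).elim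
          · have e1' : F (x', y') = (h x', y') := by
              show (if _ then _ else if _ then _ else _) = _
              rw [if_neg c1', if_neg c2']
            rw [e1, e1'] at hxy
            obtain ⟨h5, h6⟩ := Prod.mk.inj hxy
            rw [h6, h.injective h5]
  exact ⟨Equiv.ofBijective F (Finite.injective_iff_bijective.1 hinj), fun x y => rfl⟩

section prods

variable {ι E E' : Type} [AddCommGroup E] [AddCommGroup E'] [Finite E] [Finite E']
  {G : Set E} {G' : Set E'} {u : E → ZMod p} {u' : E' → ZMod p} {h : ι → Equiv.Perm E}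

/-- Positions. -/
theorem HD.pos {κ E : Type} [AddCommGroup E] [Finite E] {G : Set E} {u : E → ZMod p}
    {h : κ → Equiv.Perm E} (S : HD G u h) (m m' : ℕ) (hm : 1 ≤ m) (hmm : m ≤ m')
    (hE : Nat.card E = p ^ m') : ∃ P : κ → E → ZMod (p ^ m), (∀ k x, P k (h k x) = P k x + 1) ∧
      ∀ k x, (((P k x).val : ℕ) : ZMod p) = u x := by
  have h1 : ∀ k, ∃ P : E → ZMod (p ^ m), (∀ y, P (h k y) = P y + 1) ∧
      (∀ y, (((P y).val : ℕ) : ZMod p) = u y) := by
    intro k
    refine exists_pos (h k) (S.full k) u (S.hu k) (p ^ m) ?_ (dvd_pow_self p (by omega))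
    rw [hE]
    exact pow_dvd_pow p hmm
  choose P hP1 hP2 using h1
  exact ⟨P, hP1, hP2⟩

theorem prodEven {f : ι → Equiv.Perm E'} (SX : HD G u h) (SY : HD G' u' f) {m m' : ℕ}
    (hm : 1 ≤ m) (hmm : m ≤ m') (hE : Nat.card E = p ^ m) (hE' : Nat.card E' = p ^ m')
    (hp : 5 ≤ p) :
    ∃ Φ : ι ⊕ ι → Equiv.Perm (E × E'), HD (GS G G') (fun z => u z.1 + u' z.2) Φ ∧
      ∀ i, Tr (Φ (Sum.inr i) ^ 2 * Φ (Sum.inl i)) := by
  have : NeZero (p ^ m) := ⟨(Nat.pow_pos (Fact.out : p.Prime).pos).ne'⟩
  obtain ⟨PX, hPX1, hPX2⟩ := SX.pos m m hm le_rfl hE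
  obtain ⟨PY, hPY1, hPY2⟩ := SY.pos m m' hm hmm hE'
  let Φ : ι ⊕ ι → Equiv.Perm (E × E') := fun t => match t with
    | Sum.inl i => rotP (h i) (f i) (PX i) (PY i) (hPX1 i) (hPY1 i)
        (fun s => 0 ≤ s.val ∧ s.val < 1)
    | Sum.inr i => rotP (h i) (f i) (PX i) (PY i) (hPX1 i) (hPY1 i)
        (fun s => ¬ (0 ≤ s.val ∧ s.val < 1))
  let ch : ι ⊕ ι → E × E' → ι ⊕ ι := fun t z => match t with
    | Sum.inl i => if 0 ≤ (PX i z.1 + PY i z.2).val ∧ (PX i z.1 + PY i z.2).val < 1
        then Sum.inl i else Sum.inr i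
    | Sum.inr i => if ¬ (0 ≤ (PX i z.1 + PY i z.2).val ∧ (PX i z.1 + PY i z.2).val < 1)
        then Sum.inl i else Sum.inr i
  refine ⟨Φ, SX.prod SY Φ ch ?_ ?_ ?_, ?_⟩
  · rintro (i | i) ⟨x, y⟩
    · show (if _ then _ else _) = stp h f (if _ then _ else _) (x, y)
      split_ifs with hc
      · rfl
      · rfl
    · show (if _ then _ else _) = stp h f (if _ then _ else _) (x, y)
      split_ifs with hc
      · rfl
      · rfl
  · rintro z (i | i)
    · by_cases hc : 0 ≤ (PX i z.1 + PY i z.2).val ∧ (PX i z.1 + PY i z.2).val < 1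
      · exact ⟨Sum.inl i, if_pos hc⟩
      · exact ⟨Sum.inr i, if_pos hc⟩
    · by_cases hc : 0 ≤ (PX i z.1 + PY i z.2).val ∧ (PX i z.1 + PY i z.2).val < 1
      · exact ⟨Sum.inr i, if_neg (not_not.2 hc)⟩
      · exact ⟨Sum.inl i, if_neg hc⟩
  · rintro (i | i)
    · exact tr_rotI (SY.full i) rfl hm hE hE' (hPX1 i) (hPY1 i) 0 1 (by omega) (by omega)
    · exact tr_rotI' (SY.full i) rfl hm hE hE' (hPX1 i) (hPY1 i) 0 1 (by omega) (by omega)
  · intro i
    exact tr_pair (SY.full i) rfl hm hE hE' (hPX1 i) (hPY1 i) hp 0 1 (by omega) (by omega) rfl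

theorem prodOdd [DecidableEq ι] {f : Option ι → Equiv.Perm E'} (SX : HD G u h)
    (SY : HD G' u' f) {m m' : ℕ}
    (hm : 1 ≤ m) (hmm : m ≤ m') (hE : Nat.card E = p ^ m) (hE' : Nat.card E' = p ^ m')
    (hp : 5 ≤ p) (i0 : ι) {a b : ℕ} (ha : 1 ≤ a) (hb : 1 ≤ b) (hab : a + b < p)
    (hφ : Tr (f none ^ b * f (some i0) ^ a)) :
    ∃ Φ : ι ⊕ Option ι → Equiv.Perm (E × E'), HD (GS G G') (fun z => u z.1 + u' z.2) Φ ∧
      ∀ i, i ≠ i0 → Tr (Φ (Sum.inr (some i)) ^ 2 * Φ (Sum.inl i)) := by
  have hN0 : NeZero (p ^ m) := ⟨(Nat.pow_pos (Fact.out : p.Prime).pos).ne'⟩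
  have hpN : p ∣ p ^ m := dvd_pow_self p (by omega)
  have hNpos : 0 < p ^ m := Nat.pos_of_ne_zero hN0.out
  have hle : p ≤ p ^ m := Nat.le_of_dvd hNpos hpN
  obtain ⟨PX, hPX1, hPX2⟩ := SX.pos m m hm le_rfl hE
  obtain ⟨PY, hPY1, hPY2⟩ := SY.pos m m' hm hmm hE'
  have hres : ∀ x y, (PX i0 x + PY (some i0) y).val % p = (PX i0 x + PY none y).val % p := by
    intro x y
    have h1 : (((PY (some i0) y).val : ℕ) : ZMod p) = (((PY none y).val : ℕ) : ZMod p) := by
      rw [hPY2, hPY2]
    rw [ZMod.natCast_eq_natCast_iff'] at h1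
    rw [ZMod.val_add, ZMod.val_add, Nat.mod_mod_of_dvd _ hpN, Nat.mod_mod_of_dvd _ hpN,
      Nat.add_mod, h1, ← Nat.add_mod]
  obtain ⟨H, hH⟩ := exists_ev (p := p) (a := a) (b := b) (h i0) (f (some i0)) (f none) hab hle
    (hPX1 i0) (hPY1 (some i0)) (hPY1 none) hres
  let Φ : ι ⊕ Option ι → Equiv.Perm (E × E') := fun t => match t with
    | Sum.inl i => if i = i0 then H else rotP (h i) (f (some i)) (PX i) (PY (some i)) (hPX1 i)
        (hPY1 (some i)) (fun s => 0 ≤ s.val ∧ s.val < 1)
    | Sum.inr none => rotP (h i0) (f none) (PX i0) (PY none) (hPX1 i0) (hPY1 none)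
        (fun s => a ≤ s.val ∧ s.val < a + b)
    | Sum.inr (some i) => if i = i0 then rotP (h i) (f (some i)) (PX i) (PY (some i)) (hPX1 i)
        (hPY1 (some i)) (fun s => 0 ≤ s.val ∧ s.val < a) else
        rotP (h i) (f (some i)) (PX i) (PY (some i)) (hPX1 i)
        (hPY1 (some i)) (fun s => ¬ (0 ≤ s.val ∧ s.val < 1))
  let ch : ι ⊕ Option ι → E × E' → ι ⊕ Option ι := fun t z => match t with
    | Sum.inl i => if i = i0 then
          (if (PX i0 z.1 + PY (some i0) z.2).val < a then Sum.inr (some i0)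
          else if a ≤ (PX i0 z.1 + PY none z.2).val ∧ (PX i0 z.1 + PY none z.2).val < a + b
            then Sum.inr none else Sum.inl i0)
        else if 0 ≤ (PX i z.1 + PY (some i) z.2).val ∧ (PX i z.1 + PY (some i) z.2).val < 1
        then Sum.inl i else Sum.inr (some i)
    | Sum.inr none => if a ≤ (PX i0 z.1 + PY none z.2).val ∧
        (PX i0 z.1 + PY none z.2).val < a + b then Sum.inl i0 else Sum.inr none
    | Sum.inr (some i) => if i = i0 then
        (if 0 ≤ (PX i z.1 + PY (some i) z.2).val ∧ (PX i z.1 + PY (some i) z.2).val < a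
          then Sum.inl i else Sum.inr (some i)) else
        if ¬ (0 ≤ (PX i z.1 + PY (some i) z.2).val ∧ (PX i z.1 + PY (some i) z.2).val < 1)
        then Sum.inl i else Sum.inr (some i)
  refine ⟨Φ, SX.prod SY Φ ch ?_ ?_ ?_, ?_⟩
  · rintro (i | _ | i) ⟨x, y⟩
    · by_cases hi : i = i0
      · have e1 : Φ (Sum.inl i) = H := if_pos hi
        have e2 : ch (Sum.inl i) (x, y) =
          (if (PX i0 x + PY (some i0) y).val < a then Sum.inr (some i0)
          else if a ≤ (PX i0 x + PY none y).val ∧ (PX i0 x + PY none y).val < a + b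
            then Sum.inr none else Sum.inl i0) := if_pos hi
        rw [e1, e2, hH]
        split_ifs
        · rfl
        · rfl
        · rfl
      · have e1 : Φ (Sum.inl i) = rotP (h i) (f (some i)) (PX i) (PY (some i)) (hPX1 i)
          (hPY1 (some i)) (fun s => 0 ≤ s.val ∧ s.val < 1) := if_neg hi
        have e2 : ch (Sum.inl i) (x, y) =
          if 0 ≤ (PX i x + PY (some i) y).val ∧ (PX i x + PY (some i) y).val < 1
            then Sum.inl i else Sum.inr (some i) := if_neg hi
        rw [e1, e2, rotP_apply]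
        split_ifs
        · rfl
        · rfl
    · show (if _ then _ else _) = stp h f (if _ then _ else _) (x, y)
      split_ifs with hc
      · rfl
      · rfl
    · by_cases hi : i = i0
      · have e1 : Φ (Sum.inr (some i)) = rotP (h i) (f (some i)) (PX i) (PY (some i)) (hPX1 i)
          (hPY1 (some i)) (fun s => 0 ≤ s.val ∧ s.val < a) := if_pos hi
        have e2 : ch (Sum.inr (some i)) (x, y) =
          if 0 ≤ (PX i x + PY (some i) y).val ∧ (PX i x + PY (some i) y).val < a
            then Sum.inl i else Sum.inr (some i) := if_pos hi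
        rw [e1, e2, rotP_apply]
        split_ifs
        · rfl
        · rfl
      · have e1 : Φ (Sum.inr (some i)) = rotP (h i) (f (some i)) (PX i) (PY (some i)) (hPX1 i)
          (hPY1 (some i)) (fun s => ¬ (0 ≤ s.val ∧ s.val < 1)) := if_neg hi
        have e2 : ch (Sum.inr (some i)) (x, y) =
          if ¬ (0 ≤ (PX i x + PY (some i) y).val ∧ (PX i x + PY (some i) y).val < 1)
            then Sum.inl i else Sum.inr (some i) := if_neg hi
        rw [e1, e2, rotP_apply]
        split_ifs
        · rfl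
        · rfl
  · rintro ⟨x, y⟩ (i | _ | i)
    · by_cases hi : i = i0
      · subst hi
        by_cases hc1 : 0 ≤ (PX i x + PY (some i) y).val ∧ (PX i x + PY (some i) y).val < a
        · refine ⟨Sum.inr (some i), ?_⟩
          show (if _ then (if _ then _ else _) else _) = _
          rw [if_pos rfl, if_pos hc1]
        · by_cases hc2 : a ≤ (PX i x + PY none y).val ∧ (PX i x + PY none y).val < a + b
          · exact ⟨Sum.inr none, if_pos hc2⟩
          · refine ⟨Sum.inl i, ?_⟩
            show (if _ then (if _ then _ else if _ then _ else _) else _) = _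
            rw [if_pos rfl, if_neg (fun h => hc1 ⟨Nat.zero_le _, h⟩), if_neg hc2]
      · by_cases hc : 0 ≤ (PX i x + PY (some i) y).val ∧ (PX i x + PY (some i) y).val < 1
        · refine ⟨Sum.inl i, ?_⟩
          show (if _ then _ else if _ then _ else _) = _
          rw [if_neg hi, if_pos hc]
        · refine ⟨Sum.inr (some i), ?_⟩
          show (if _ then _ else if _ then _ else _) = _
          rw [if_neg hi, if_pos hc]
    · by_cases hc2 : a ≤ (PX i0 x + PY none y).val ∧ (PX i0 x + PY none y).val < a + b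
      · refine ⟨Sum.inl i0, ?_⟩
        have hc1 : ¬ (PX i0 x + PY (some i0) y).val < a := by
          intro hc1
          have h1 := hres x y
          rw [Nat.mod_eq_of_lt (by omega), Nat.mod_eq_of_lt (by omega)] at h1
          omega
        show (if _ then (if _ then _ else if _ then _ else _) else _) = _
        rw [if_pos rfl, if_neg hc1, if_pos hc2]
      · exact ⟨Sum.inr none, if_neg hc2⟩
    · by_cases hi : i = i0
      · subst hi
        by_cases hc1 : 0 ≤ (PX i x + PY (some i) y).val ∧ (PX i x + PY (some i) y).val < a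
        · refine ⟨Sum.inl i, ?_⟩
          show (if _ then (if _ then _ else if _ then _ else _) else _) = _
          rw [if_pos rfl, if_pos hc1.2]
        · refine ⟨Sum.inr (some i), ?_⟩
          show (if _ then (if _ then _ else _) else _) = _
          rw [if_pos rfl, if_neg hc1]
      · by_cases hc : 0 ≤ (PX i x + PY (some i) y).val ∧ (PX i x + PY (some i) y).val < 1
        · refine ⟨Sum.inr (some i), ?_⟩
          show (if _ then _ else if _ then _ else _) = _
          rw [if_neg hi, if_neg (not_not.2 hc)]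
        · refine ⟨Sum.inl i, ?_⟩
          show (if _ then _ else if _ then _ else _) = _
          rw [if_neg hi, if_neg hc]
  · rintro (i | _ | i)
    · by_cases hi : i = i0
      · have e1 : Φ (Sum.inl i) = H := if_pos hi
        rw [e1]
        exact event (p := p) hφ ha hb hab hle (pos_inj (hPX1 i0) hE) (hPX1 i0)
          (hPY1 (some i0)) (hPY1 none) hres H hH
      · have e1 : Φ (Sum.inl i) = rotP (h i) (f (some i)) (PX i) (PY (some i)) (hPX1 i)
          (hPY1 (some i)) (fun s => 0 ≤ s.val ∧ s.val < 1) := if_neg hi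
        rw [e1]
        exact tr_rotI (SY.full _) rfl hm hE hE' (hPX1 i) (hPY1 _) 0 1 (by omega) (by omega)
    · exact tr_rotI (SY.full _) rfl hm hE hE' (hPX1 i0) (hPY1 _) a (a + b) (by omega) (by omega)
    · by_cases hi : i = i0
      · have e1 : Φ (Sum.inr (some i)) = rotP (h i) (f (some i)) (PX i) (PY (some i)) (hPX1 i)
          (hPY1 (some i)) (fun s => 0 ≤ s.val ∧ s.val < a) := if_pos hi
        rw [e1]
        exact tr_rotI (SY.full _) rfl hm hE hE' (hPX1 i) (hPY1 _) 0 a (by omega) (by omega)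
      · have e1 : Φ (Sum.inr (some i)) = rotP (h i) (f (some i)) (PX i) (PY (some i)) (hPX1 i)
          (hPY1 (some i)) (fun s => ¬ (0 ≤ s.val ∧ s.val < 1)) := if_neg hi
        rw [e1]
        exact tr_rotI' (SY.full _) rfl hm hE hE' (hPX1 i) (hPY1 _) 0 1 (by omega) (by omega)
  · intro i hi
    have e1 : Φ (Sum.inl i) = rotP (h i) (f (some i)) (PX i) (PY (some i)) (hPX1 i)
      (hPY1 (some i)) (fun s => 0 ≤ s.val ∧ s.val < 1) := if_neg hi
    have e2 : Φ (Sum.inr (some i)) = rotP (h i) (f (some i)) (PX i) (PY (some i)) (hPX1 i)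
      (hPY1 (some i)) (fun s => ¬ (0 ≤ s.val ∧ s.val < 1)) := if_neg hi
    rw [e1, e2]
    exact tr_pair (SY.full _) rfl hm hE hE' (hPX1 i) (hPY1 _) hp 0 1 (by omega) (by omega) rfl

end prods

end Pool.Agent.TH486.LAC
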