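import Mathlib

set_option autoImplicit false

/-!
Directed Hamilton decompositions of the torus `(ZMod p) ^ ι`, built one dimension at a time.
-/

namespace Pool.Agent.TH486.LAC

open Finset

variable {p : ℕ} [Fact p.Prime]

/-- `φ` is a product of the permutations `h i`, the number of factors `h i` being `m i` modulo
`p`. -/
inductive Word {ι X : Type} [DecidableEq ι] (h : ι → Equiv.Perm X) :
    (ι → ZMod p) → Equiv.Perm X → Prop
  | one : Word h 0 1
  | step (i : ι) (m : ι → ZMod p) (φ : Equiv.Perm X) : Word h m φ →
      Word h (Pi.single i 1 + m) (h i * φ)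

theorem Word.mul {ι X : Type} [DecidableEq ι] {h : ι → Equiv.Perm X} {m m' : ι → ZMod p}
    {φ φ' : Equiv.Perm X} (h1 : Word h m φ) (h2 : Word h m' φ') : Word h (m + m') (φ * φ') := by
  induction h1 with
  | one => simpa using h2
  | step i m φ _ ih =>
    rw [add_assoc, mul_assoc]
    exact Word.step i _ _ ih

theorem Word.gen {ι X : Type} [DecidableEq ι] (h : ι → Equiv.Perm X) (i : ι) :
    Word (p := p) h (Pi.single i 1) (h i) := by
  have := Word.step (p := p) (h := h) i 0 1 Word.one
  simpa using this

/-- Transitivity of the powers. -/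
def Tr {X : Type} (φ : Equiv.Perm X) : Prop := ∀ x y, ∃ n : ℕ, (φ ^ n) x = y

/-- The inductive package. -/
structure Good {ι X : Type} [Fintype ι] [DecidableEq ι] (u : X → ZMod p) (pos : X → ι → ZMod p)
    (h : ι → Equiv.Perm X) (g : ι → X → ι)
    (L : ι → (ι → ZMod p) →ₗ[ZMod p] ZMod p) : Prop where
  bij : Function.Bijective pos
  step : ∀ i x, pos (h i x) = pos x + Pi.single (g i x) 1
  hsum : ∀ x, u x = ∑ i, pos x i
  surj : ∀ x a, ∃ i, g i x = a
  Lne : ∀ j i, L j (Pi.single i 1) ≠ 0
  tr : ∀ m φ, Word h m φ → (∀ j, L j m ≠ 0) → Tr φ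

/-- Skew product over the rotation. -/
def skew {X : Type} (σ : ZMod p → Equiv.Perm X) : Equiv.Perm (ZMod p × X) where
  toFun y := (y.1 + 1, σ y.1 y.2)
  invFun y := (y.1 - 1, (σ (y.1 - 1))⁻¹ y.2)
  left_inv y := by simp
  right_inv y := by simp

section step

variable {ι X : Type} [Fintype ι] [DecidableEq ι]

/-- The fibre maps of the new permutations. -/
def fib (h : ι → Equiv.Perm X) (sel : ZMod p → Option ι) (o : Option ι) (t : ZMod p) :
    Equiv.Perm X :=
  match o with
  | some i => if sel t = some i then 1 else h i
  | none => (sel t).elim 1 h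

/-- The letter counts of the fibre maps. -/
def cnt1 (sel : ZMod p → Option ι) (o : Option ι) (t : ZMod p) : ι → ZMod p :=
  match o with
  | some i => if sel t = some i then 0 else Pi.single i 1
  | none => (sel t).elim 0 (fun i => Pi.single i 1)

theorem fib_word (h : ι → Equiv.Perm X) (sel : ZMod p → Option ι) (o : Option ι) (t : ZMod p) :
    Word h (cnt1 sel o t) (fib h sel o t) := by
  cases o with
  | some i =>
    unfold cnt1 fib
    by_cases hs : sel t = some i
    · simp only [hs, if_true]; exact Word.one
    · simp only [hs, if_false]; exact Word.gen h i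
  | none =>
    unfold cnt1 fib
    cases hs : sel t with
    | none => exact Word.one
    | some i => exact Word.gen h i

/-- The number of heights at which `i` is selected. -/
def vv (sel : ZMod p → Option ι) (i : ι) : ZMod p :=
  ((univ.filter (fun t => sel t = some i)).card : ZMod p)

theorem sum_cnt1 (sel : ZMod p → Option ι) (o : Option ι) (i : ι) :
    ∑ t, cnt1 sel o t i = vv sel i *
      ((Pi.single o 1 : Option ι → ZMod p) none - (Pi.single o 1 : Option ι → ZMod p) (some i)) := by
  cases o with
  | none =>
    have h1 : ∀ t, cnt1 sel none t i = if sel t = some i then 1 else 0 := by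
      intro t
      unfold cnt1
      cases hs : sel t with
      | none => simp
      | some j =>
        by_cases hij : j = i
        · subst hij; simp
        · have : (some j : Option ι) ≠ some i := fun h => hij (Option.some.inj h)
          simp [hij, Pi.single_apply, Ne.symm hij]
    simp only [h1]
    rw [sum_boole]
    simp [vv]
  | some j =>
    by_cases hij : i = j
    · subst hij
      have h1 : ∀ t, cnt1 sel (some i) t i = 1 - (if sel t = some i then 1 else 0) := by
        intro t
        unfold cnt1
        by_cases hs : sel t = some i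
        · simp [hs]
        · simp [hs]
      simp only [h1]
      rw [sum_sub_distrib, sum_boole]
      simp [vv, ZMod.card]
    · have h1 : ∀ t, cnt1 sel (some j) t i = 0 := by
        intro t
        unfold cnt1
        by_cases hs : sel t = some j
        · simp [hs]
        · simp [hs, Pi.single_apply, hij]
      simp only [h1]
      have h2 : (some i : Option ι) ≠ some j := fun h => hij (Option.some.inj h)
      simp [Pi.single_apply, hij]

/-- The new permutations. -/
def hh (h : ι → Equiv.Perm X) (sel : ZMod p → Option ι) (o : Option ι) :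
    Equiv.Perm (ZMod p × X) := skew (fib h sel o)

theorem hh_apply (h : ι → Equiv.Perm X) (sel : ZMod p → Option ι) (o : Option ι) (t : ZMod p)
    (x : X) : hh h sel o (t, x) = (t + 1, fib h sel o t x) := rfl

theorem sum_single' (o : Option ι) : ∑ a, (Pi.single o 1 : Option ι → ZMod p) a = 1 := by
  rw [sum_pi_single']
  simp

/-- Structure of the words in the new permutations. -/
theorem word_struct (h : ι → Equiv.Perm X) (sel : ZMod p → Option ι) {m : Option ι → ZMod p}
    {φ : Equiv.Perm (ZMod p × X)} (hw : Word (hh h sel) m φ) :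
    ∃ (ψ : ZMod p → Equiv.Perm X) (μ : ZMod p → ι → ZMod p), (∀ t, Word h (μ t) (ψ t)) ∧
      (∀ t x, φ (t, x) = (t + ∑ o, m o, ψ t x)) ∧
      ∀ i, ∑ t, μ t i = vv sel i * (m none - m (some i)) := by
  induction hw with
  | one => exact ⟨fun _ => 1, fun _ => 0, fun _ => Word.one, by simp, by simp⟩
  | step o m φ _ ih =>
    obtain ⟨ψ, μ, h1, h2, h3⟩ := ih
    refine ⟨fun t => fib h sel o (t + ∑ o, m o) * ψ t,
      fun t => cnt1 sel o (t + ∑ o, m o) + μ t, fun t => (fib_word h sel o _).mul (h1 t), ?_, ?_⟩
    · intro t x
      rw [Equiv.Perm.mul_apply, h2, hh_apply]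
      refine Prod.ext ?_ rfl
      show t + ∑ o, m o + 1 = t + ∑ a, ((Pi.single o 1 : Option ι → ZMod p) + m) a
      simp only [Pi.add_apply]
      rw [sum_add_distrib, sum_single']
      ring
    · intro i
      simp only [Pi.add_apply]
      rw [sum_add_distrib, h3]
      have h4 : ∑ t, cnt1 sel o (t + ∑ o, m o) i = ∑ t, cnt1 sel o t i :=
        Equiv.sum_comp (Equiv.addRight (∑ o, m o)) (fun t => cnt1 sel o t i)
      rw [h4, sum_cnt1]
      ring

/-- Iterates. -/
theorem word_iter {h : ι → Equiv.Perm X} {φ : Equiv.Perm (ZMod p × X)}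
    {ψ : ZMod p → Equiv.Perm X} {μ : ZMod p → ι → ZMod p} {n : ZMod p}
    (h1 : ∀ t, Word h (μ t) (ψ t)) (h2 : ∀ t x, φ (t, x) = (t + n, ψ t x)) (t : ZMod p) (k : ℕ) :
    ∃ Ψ : Equiv.Perm X, Word h (∑ j ∈ range k, μ (t + j * n)) Ψ ∧
      ∀ x, (φ ^ k) (t, x) = (t + k * n, Ψ x) := by
  induction k with
  | zero => exact ⟨1, by simpa using Word.one, by simp⟩
  | succ k ih =>
    obtain ⟨Ψ, h3, h4⟩ := ih
    refine ⟨ψ (t + k * n) * Ψ, ?_, ?_⟩
    · rw [sum_range_succ, add_comm]
      exact (h1 _).mul h3
    · intro x
      rw [pow_succ', Equiv.Perm.mul_apply, h4, h2]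
      refine Prod.ext ?_ rfl
      show t + k * n + n = t + ((k + 1 : ℕ) : ZMod p) * n
      push_cast
      ring

theorem sum_range_all {M : Type} [AddCommMonoid M] (F : ZMod p → M) (t n : ZMod p) (hn : n ≠ 0) :
    ∑ j ∈ range p, F (t + j * n) = ∑ s, F s := by
  have hp : p.Prime := Fact.out
  have h1 : ∑ j ∈ range p, F (t + j * n) = ∑ s : ZMod p, F (t + s * n) := by
    refine sum_bij (fun j _ => (j : ZMod p)) (fun _ _ => mem_univ _) ?_ ?_ (fun _ _ => rfl)
    · intro a ha b hb hab
      rw [ZMod.natCast_eq_natCast_iff'] at hab
      rwa [Nat.mod_eq_of_lt (mem_range.1 ha), Nat.mod_eq_of_lt (mem_range.1 hb)] at hab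
    · intro s _
      exact ⟨s.val, mem_range.2 (ZMod.val_lt s), ZMod.natCast_zmod_val s⟩
  rw [h1]
  exact Equiv.sum_comp ((Equiv.mulRight₀ n hn).trans (Equiv.addLeft t)) F

theorem tr_step {h : ι → Equiv.Perm X} {sel : ZMod p → Option ι}
    {L : ι → (ι → ZMod p) →ₗ[ZMod p] ZMod p}
    (tr : ∀ m φ, Word h m φ → (∀ j, L j m ≠ 0) → Tr φ)
    {m : Option ι → ZMod p} {φ : Equiv.Perm (ZMod p × X)} (hw : Word (hh h sel) m φ)
    (hn : ∑ o, m o ≠ 0) (hL : ∀ j, L j (fun i => vv sel i * (m none - m (some i))) ≠ 0) :
    Tr φ := by
  obtain ⟨ψ, μ, h1, h2, h3⟩ := word_struct h sel hw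
  set n := ∑ o, m o with hndef
  rintro ⟨t1, x1⟩ ⟨t2, x2⟩
  -- the return map at height `t2`
  obtain ⟨Ψ, h4, h5⟩ := word_iter h1 h2 t2 p
  have h6 : ∑ j ∈ range p, μ (t2 + j * n) = fun i => vv sel i * (m none - m (some i)) := by
    rw [sum_range_all μ t2 n hn]
    funext i
    rw [← h3 i, Finset.sum_apply]
  rw [h6] at h4
  have h7 := tr _ _ h4 hL
  have h8 : ∀ x, (φ ^ p) (t2, x) = (t2, Ψ x) := by
    intro x
    rw [h5]
    simp
  have h9 : ∀ (N : ℕ) (x : X), (φ ^ (p * N)) (t2, x) = (t2, (Ψ ^ N) x) := by
    intro N
    induction N with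
    | zero => simp
    | succ N ih =>
      intro x
      rw [Nat.mul_succ, Nat.add_comm, pow_add, Equiv.Perm.mul_apply, ih, h8, pow_succ',
        Equiv.Perm.mul_apply]
  -- going to height `t2`
  set k := ((t2 - t1) / n).val with hk
  obtain ⟨Φ, _, h10⟩ := word_iter h1 h2 t1 k
  have h11 : (φ ^ k) (t1, x1) = (t2, Φ x1) := by
    rw [h10]
    refine Prod.ext ?_ rfl
    show t1 + k * n = t2
    rw [hk, ZMod.natCast_zmod_val, div_mul_cancel₀ _ hn]
    ring
  obtain ⟨N, hN⟩ := h7 (Φ x1) x2
  refine ⟨p * N + k, ?_⟩
  rw [pow_add, Equiv.Perm.mul_apply, h11, h9, hN]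

end step

/-- Choice of the heights. -/
theorem choose_sel {ι : Type} [Fintype ι] [DecidableEq ι] (L : ι → (ι → ZMod p) →ₗ[ZMod p] ZMod p)
    (Lne : ∀ j i, L j (Pi.single i 1) ≠ 0) (hc : 2 * Fintype.card ι < p) :
    ∃ sel : ZMod p → Option ι, (∀ i, vv sel i ≠ 0) ∧ ∀ j, L j (fun i => vv sel i) ≠ 0 := by
  classical
  rcases isEmpty_or_nonempty ι with he | ⟨⟨i0⟩⟩
  · exact ⟨fun _ => none, fun i => (he.false i).elim, fun j => (he.false j).elim⟩
  · have hcpos : 0 < Fintype.card ι := Fintype.card_pos_iff.2 ⟨i0⟩
    -- the excluded values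
    let bad : Finset (ZMod p) := univ.image (fun j => - L j (fun _ => 1) / L j (Pi.single i0 1))
    let cand : Finset (ZMod p) := (range (Fintype.card ι + 1)).image (fun r : ℕ => (r : ZMod p))
    have hbad : bad.card ≤ Fintype.card ι := by
      refine card_image_le.trans ?_
      simp
    have hcand : cand.card = Fintype.card ι + 1 := by
      rw [card_image_of_injOn, card_range]
      intro a ha b hb hab
      rw [ZMod.natCast_eq_natCast_iff'] at hab
      have ha' := mem_range.1 (mem_coe.1 ha)
      have hb' := mem_range.1 (mem_coe.1 hb)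
      rwa [Nat.mod_eq_of_lt (by omega), Nat.mod_eq_of_lt (by omega)] at hab
    obtain ⟨z, hz1, hz2⟩ := exists_mem_notMem_of_card_lt_card (s := bad) (t := cand) (by omega)
    obtain ⟨r, hr, rfl⟩ := mem_image.1 hz1
    have hr' := mem_range.1 hr
    -- the embedding
    obtain ⟨emb⟩ : Nonempty (ι ⊕ Fin r ↪ ZMod p) := by
      apply Function.Embedding.nonempty_of_card_le
      rw [Fintype.card_sum, Fintype.card_fin, ZMod.card]
      omega
    let lab : ι ⊕ Fin r → ι := Sum.elim id (fun _ => i0)
    let sel : ZMod p → Option ι := fun t => if h : ∃ a, emb a = t then some (lab h.choose) else none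
    have hsel : ∀ a, sel (emb a) = some (lab a) := by
      intro a
      have h : ∃ b, emb b = emb a := ⟨a, rfl⟩
      show (if h : ∃ b, emb b = emb a then some (lab h.choose) else none) = _
      rw [dif_pos h, emb.injective h.choose_spec]
    have hsel' : ∀ t i, sel t = some i → ∃ a, emb a = t ∧ lab a = i := by
      intro t i hti
      by_cases h : ∃ a, emb a = t
      · obtain ⟨a, rfl⟩ := h
        rw [hsel] at hti
        exact ⟨a, rfl, Option.some.inj hti⟩
      · have : sel t = none := dif_neg h
        rw [this] at hti
        exact absurd hti (by simp)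
    have hcount : ∀ i, vv sel i = 1 + (r : ZMod p) * (Pi.single i0 1 : ι → ZMod p) i := by
      intro i
      have h1 : (univ.filter (fun t => sel t = some i)).card =
          (univ.filter (fun a => lab a = i)).card := by
        symm
        refine card_bij (fun a _ => emb a) ?_ ?_ ?_
        · intro a ha
          rw [mem_filter] at ha ⊢
          exact ⟨mem_univ _, by rw [hsel, ha.2]⟩
        · intro a _ b _ hab
          exact emb.injective hab
        · intro t ht
          obtain ⟨a, ha1, ha2⟩ := hsel' t i (mem_filter.1 ht).2
          exact ⟨a, mem_filter.2 ⟨mem_univ _, ha2⟩, ha1⟩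
      unfold vv
      rw [h1, ← sum_boole, Fintype.sum_sum_type]
      have h2 : ∑ a : ι, (if lab (Sum.inl a) = i then (1 : ZMod p) else 0) = 1 := by
        show ∑ a : ι, (if a = i then (1 : ZMod p) else 0) = 1
        rw [sum_ite_eq' univ i]
        simp
      have h3 : ∑ a : Fin r, (if lab (Sum.inr a) = i then (1 : ZMod p) else 0) =
          r * (Pi.single i0 1 : ι → ZMod p) i := by
        show ∑ a : Fin r, (if i0 = i then (1 : ZMod p) else 0) = _
        rw [Finset.sum_const, card_univ, Fintype.card_fin, nsmul_eq_mul]
        congr 1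
        by_cases hi : i = i0
        · subst hi; simp
        · rw [if_neg (Ne.symm hi), Pi.single_eq_of_ne hi]
      rw [h2, h3]
    refine ⟨sel, ?_, ?_⟩
    · intro i
      rw [hcount]
      by_cases hi : i = i0
      · subst hi
        rw [Pi.single_eq_same, mul_one]
        have h1 : (1 + (r : ZMod p)) = ((1 + r : ℕ) : ZMod p) := by push_cast; ring
        rw [h1, Ne, ZMod.natCast_eq_zero_iff]
        intro h
        have := Nat.le_of_dvd (by omega) h
        omega
      · rw [Pi.single_eq_of_ne hi]
        simp
    · intro j h
      apply hz2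
      refine mem_image.2 ⟨j, mem_univ _, ?_⟩
      have h1 : (fun i => vv sel i) = (fun _ => (1 : ZMod p)) + (r : ZMod p) • (Pi.single i0 1 : ι → ZMod p) := by
        funext i
        rw [hcount]
        simp
      rw [h1, map_add, map_smul, smul_eq_mul] at h
      rw [div_eq_iff (Lne j i0)]
      linear_combination -h

theorem exists_good (n : ℕ) (hn : 2 * n < p + 2) :
    ∃ (ι : Type) (_ : Fintype ι) (_ : DecidableEq ι) (X : Type) (u : X → ZMod p)
      (pos : X → ι → ZMod p) (h : ι → Equiv.Perm X) (g : ι → X → ι)
      (L : ι → (ι → ZMod p) →ₗ[ZMod p] ZMod p), Fintype.card ι = n ∧ Good u pos h g L := by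
  induction n with
  | zero =>
    refine ⟨Empty, inferInstance, inferInstance, Unit, fun _ => 0, fun _ i => i.elim,
      fun i => i.elim, fun i _ => i, fun i => i.elim, by simp, ?_⟩
    refine ⟨?_, fun i => i.elim, by simp, fun _ a => a.elim, fun i => i.elim, ?_⟩
    · constructor
      · intro a b _
        rfl
      · intro f
        exact ⟨(), funext fun i => i.elim⟩
    · intro _ φ _ _ x y
      exact ⟨0, rfl⟩
  | succ n ih =>
    obtain ⟨ι, _, _, X, u, pos, h, g, L, hcard, hg⟩ := ih (by omega)
    obtain ⟨sel, hv, hLv⟩ := choose_sel L hg.Lne (by omega)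
    let pos' : ZMod p × X → Option ι → ZMod p := fun y o => o.elim (y.1 - u y.2) (pos y.2)
    let g' : Option ι → ZMod p × X → Option ι := fun o y => match o with
      | some i => if sel y.1 = some i then none else some (g i y.2)
      | none => (sel y.1).elim none (fun j => some (g j y.2))
    let L' : Option ι → (Option ι → ZMod p) →ₗ[ZMod p] ZMod p := fun o => match o with
      | none => ∑ o, LinearMap.proj (R := ZMod p) (φ := fun _ : Option ι => ZMod p) o
      | some j => (L j).comp (LinearMap.pi (fun i => vv sel i •
          (LinearMap.proj (R := ZMod p) (φ := fun _ : Option ι => ZMod p) none -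
            LinearMap.proj (R := ZMod p) (φ := fun _ : Option ι => ZMod p) (some i))))
    have hL'0 : ∀ m, L' none m = ∑ o, m o := by
      intro m
      show (∑ o, LinearMap.proj (R := ZMod p) (φ := fun _ : Option ι => ZMod p) o) m = _
      rw [LinearMap.sum_apply]
      rfl
    have hL'1 : ∀ j m, L' (some j) m = L j (fun i => vv sel i * (m none - m (some i))) := by
      intro j m
      rfl
    refine ⟨Option ι, inferInstance, inferInstance, ZMod p × X, Prod.fst, pos', hh h sel, g', L',
      by rw [Fintype.card_option, hcard], ?_⟩
    -- the two kinds of steps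
    have hs1 : ∀ t x, pos' (t + 1, x) = pos' (t, x) + Pi.single none 1 := by
      intro t x
      funext o
      cases o with
      | none =>
        show t + 1 - u x = t - u x + (Pi.single none 1 : Option ι → ZMod p) none
        rw [Pi.single_eq_same]; ring
      | some i =>
        show pos x i = pos x i + (Pi.single none 1 : Option ι → ZMod p) (some i)
        rw [Pi.single_eq_of_ne (by simp)]; ring
    have hu : ∀ i x, u (h i x) = u x + 1 := by
      intro i x
      rw [hg.hsum, hg.hsum, hg.step]
      simp only [Pi.add_apply]
      rw [sum_add_distrib, sum_pi_single']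
      simp
    have hs2 : ∀ t x i, pos' (t + 1, h i x) = pos' (t, x) + Pi.single (some (g i x)) 1 := by
      intro t x i
      funext o
      cases o with
      | none =>
        show t + 1 - u (h i x) = t - u x + (Pi.single (some (g i x)) 1 : Option ι → ZMod p) none
        rw [Pi.single_eq_of_ne (by simp), hu]; ring
      | some b =>
        show pos (h i x) b = pos x b + (Pi.single (some (g i x)) 1 : Option ι → ZMod p) (some b)
        rw [hg.step, Pi.add_apply]
        congr 1
        by_cases hb : b = g i x
        · subst hb; simp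
        · rw [Pi.single_eq_of_ne hb, Pi.single_eq_of_ne (fun h => hb (Option.some.inj h))]
    refine ⟨⟨?_, ?_⟩, ?_, ?_, ?_, ?_, ?_⟩
    · rintro ⟨t, x⟩ ⟨t', x'⟩ hxx
      have h1 : x = x' := hg.bij.1 (funext fun i => congrFun hxx (some i))
      subst h1
      have h2 : t - u x = t' - u x := congrFun hxx none
      have h3 : t = t' := by linear_combination h2
      rw [h3]
    · intro f
      obtain ⟨x, hx⟩ := hg.bij.2 (fun i => f (some i))
      refine ⟨(f none + u x, x), funext fun o => ?_⟩
      cases o with
      | none =>
        show f none + u x - u x = f none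
        ring
      | some i => exact congrFun hx i
    · rintro o ⟨t, x⟩
      rw [hh_apply]
      cases o with
      | some i =>
        by_cases hs : sel t = some i
        · have e1 : fib h sel (some i) t = 1 := if_pos hs
          have e2 : g' (some i) (t, x) = none := if_pos hs
          rw [e1, e2]
          exact hs1 t x
        · have e1 : fib h sel (some i) t = h i := if_neg hs
          have e2 : g' (some i) (t, x) = some (g i x) := if_neg hs
          rw [e1, e2]
          exact hs2 t x i
      | none =>
        cases hs : sel t with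
        | none =>
          have e1 : fib h sel none t = 1 := by
            show (sel t).elim 1 h = 1
            rw [hs]; rfl
          have e2 : g' none (t, x) = none := by
            show (sel t).elim none (fun j => some (g j x)) = none
            rw [hs]; rfl
          rw [e1, e2]
          exact hs1 t x
        | some j =>
          have e1 : fib h sel none t = h j := by
            show (sel t).elim 1 h = h j
            rw [hs]; rfl
          have e2 : g' none (t, x) = some (g j x) := by
            show (sel t).elim none (fun j => some (g j x)) = some (g j x)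
            rw [hs]; rfl
          rw [e1, e2]
          exact hs2 t x j
    · rintro ⟨t, x⟩
      rw [Fintype.sum_option]
      show t = t - u x + ∑ i, pos x i
      rw [← hg.hsum]; ring
    · rintro ⟨t, x⟩ a
      cases a with
      | none =>
        cases hs : sel t with
        | none =>
          refine ⟨none, ?_⟩
          show (sel t).elim none (fun j => some (g j x)) = none
          rw [hs]; rfl
        | some j => exact ⟨some j, if_pos hs⟩
      | some b =>
        obtain ⟨i, hi⟩ := hg.surj x b
        by_cases hs : sel t = some i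
        · refine ⟨none, ?_⟩
          show (sel t).elim none (fun j => some (g j x)) = some b
          rw [hs]
          show some (g i x) = some b
          rw [hi]
        · refine ⟨some i, ?_⟩
          have e2 : g' (some i) (t, x) = some (g i x) := if_neg hs
          rw [e2, hi]
    · intro j o
      cases j with
      | none =>
        rw [hL'0, sum_single']
        exact one_ne_zero
      | some j =>
        rw [hL'1]
        cases o with
        | none =>
          have e1 : (fun i => vv sel i * ((Pi.single none 1 : Option ι → ZMod p) none -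
              (Pi.single none 1 : Option ι → ZMod p) (some i))) = fun i => vv sel i := by
            funext i
            rw [Pi.single_eq_same, Pi.single_eq_of_ne (by simp)]; ring
          rw [e1]
          exact hLv j
        | some i0 =>
          have e1 : (fun i => vv sel i * ((Pi.single (some i0) 1 : Option ι → ZMod p) none -
              (Pi.single (some i0) 1 : Option ι → ZMod p) (some i))) =
              (- vv sel i0) • (Pi.single i0 1 : ι → ZMod p) := by
            funext i
            rw [Pi.single_eq_of_ne (by simp)]
            by_cases hi : i = i0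
            · subst hi; simp
            · rw [Pi.single_eq_of_ne (fun h => hi (Option.some.inj h)), Pi.smul_apply,
                Pi.single_eq_of_ne hi]
              simp
          rw [e1, map_smul, smul_eq_mul]
          exact mul_ne_zero (neg_ne_zero.2 (hv i0)) (hg.Lne j i0)
    · intro m φ hw hL
      refine tr_step hg.tr hw ?_ ?_
      · rw [← hL'0]; exact hL none
      · intro j
        rw [← hL'1]; exact hL (some j)

end Pool.Agent.TH486.LAC
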