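import Pool.Agent.H79.LA.TH486_LAC_Tower

set_option autoImplicit false

/-!
Hamilton decompositions for `d + 1` generators in dimension `d`.
-/

namespace Pool.Agent.TH486.LAC

open Finset

variable {p : ℕ} [Fact p.Prime]

/-- The inductive package for general generators. -/
structure Good2 {ι J D X : Type} [Fintype ι] [DecidableEq ι] (gen : ι → D → ZMod p)
    (u : X → ZMod p) (pos : X → D → ZMod p) (h : ι → Equiv.Perm X) (g : ι → X → ι)
    (L : J → (ι → ZMod p) →ₗ[ZMod p] ZMod p) : Prop where
  bij : Function.Bijective pos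
  step : ∀ i x, pos (h i x) = pos x + gen (g i x)
  hu : ∀ i x, u (h i x) = u x + 1
  surj : ∀ x a, ∃ i, g i x = a
  Lne : ∀ j i, L j (Pi.single i 1) ≠ 0
  tr : ∀ m φ, Word h m φ → (∀ j, L j m ≠ 0) → Tr φ

theorem tr_step2 {ι J X : Type} [Fintype ι] [DecidableEq ι] {h : ι → Equiv.Perm X}
    {sel : ZMod p → Option ι} {L : J → (ι → ZMod p) →ₗ[ZMod p] ZMod p}
    (tr : ∀ m φ, Word h m φ → (∀ j, L j m ≠ 0) → Tr φ)
    {m : Option ι → ZMod p} {φ : Equiv.Perm (ZMod p × X)} (hw : Word (hh h sel) m φ)
    (hn : ∑ o, m o ≠ 0) (hL : ∀ j, L j (fun i => vv sel i * (m none - m (some i))) ≠ 0) :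
    Tr φ := by
  obtain ⟨ψ, μ, h1, h2, h3⟩ := word_struct h sel hw
  set n := ∑ o, m o with hndef
  rintro ⟨t1, x1⟩ ⟨t2, x2⟩
  obtain ⟨Ψ, h4, h5⟩ := word_iter h1 h2 t2 p
  have h6 : ∑ j ∈ range p, μ (t2 + j * n) = fun i => vv sel i * (m none - m (some i)) := by
    rw [sum_range_all μ t2 n hn]
    funext i
    rw [← h3 i, Finset.sum_apply]
  rw [h6] at h4
  have h7 := tr _ _ h4 hL
  have h8 : ∀ x, (φ ^ p) (t2, x) = (t2, Ψ x) := by
    intro x
    rw [h5]
    simp
  have h9 : ∀ (N : ℕ) (x : X), (φ ^ (p * N)) (t2, x) = (t2, (Ψ ^ N) x) := by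
    intro N
    induction N with
    | zero => simp
    | succ N ih =>
      intro x
      rw [Nat.mul_succ, Nat.add_comm, pow_add, Equiv.Perm.mul_apply, ih, h8, pow_succ',
        Equiv.Perm.mul_apply]
  set k := ((t2 - t1) / n).val with hk
  obtain ⟨Φ, _, h10⟩ := word_iter h1 h2 t1 k
  have h11 : (φ ^ k) (t1, x1) = (t2, Φ x1) := by
    rw [h10]
    refine Prod.ext ?_ rfl
    show t1 + k * n = t2
    rw [hk, ZMod.natCast_zmod_val, div_mul_cancel₀ _ hn]
    ring
  obtain ⟨N, hN⟩ := h7 (Φ x1) x2
  refine ⟨p * N + k, ?_⟩
  rw [pow_add, Equiv.Perm.mul_apply, h11, h9, hN]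

/-- Choice of the heights. -/
theorem choose_sel2 {ι J : Type} [Fintype ι] [DecidableEq ι] [Fintype J] [Nonempty ι]
    (L : J → (ι → ZMod p) →ₗ[ZMod p] ZMod p)
    (Lne : ∀ j i, L j (Pi.single i 1) ≠ 0) (hc : Fintype.card ι + Fintype.card J ≤ p)
    (hc2 : Fintype.card J + 1 < p) :
    ∃ sel : ZMod p → Option ι, (∀ i, vv sel i ≠ 0) ∧ ∀ j, L j (fun i => vv sel i) ≠ 0 := by
  classical
  obtain ⟨i0⟩ := ‹Nonempty ι›
  -- the excluded values
  let bad : Finset (ZMod p) := univ.image (fun j => - L j (fun _ => 1) / L j (Pi.single i0 1))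
  let cand : Finset (ZMod p) := (range (Fintype.card J + 1)).image (fun r : ℕ => (r : ZMod p))
  have hbad : bad.card ≤ Fintype.card J := by
    refine card_image_le.trans ?_
    simp
  have hcand : cand.card = Fintype.card J + 1 := by
    rw [card_image_of_injOn, card_range]
    intro a ha b hb hab
    rw [ZMod.natCast_eq_natCast_iff'] at hab
    have ha' := mem_range.1 (mem_coe.1 ha)
    have hb' := mem_range.1 (mem_coe.1 hb)
    rwa [Nat.mod_eq_of_lt (by omega), Nat.mod_eq_of_lt (by omega)] at hab
  obtain ⟨z, hz1, hz2⟩ := exists_mem_notMem_of_card_lt_card (s := bad) (t := cand) (by omega)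
  obtain ⟨r, hr, rfl⟩ := mem_image.1 hz1
  have hr' := mem_range.1 hr
  -- the embedding
  obtain ⟨emb⟩ : Nonempty (ι ⊕ Fin r ↪ ZMod p) := by
    apply Function.Embedding.nonempty_of_card_le
    rw [Fintype.card_sum, Fintype.card_fin, ZMod.card]
    omega
  let lab : ι ⊕ Fin r → ι := Sum.elim id (fun _ => i0)
  let sel : ZMod p → Option ι := fun t => if h : ∃ a, emb a = t then some (lab h.choose) else none
  have hsel : ∀ a, sel (emb a) = some (lab a) := by
    intro a
    have h : ∃ b, emb b = emb a := ⟨a, rfl⟩
    show (if h : ∃ b, emb b = emb a then some (lab h.choose) else none) = _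
    rw [dif_pos h, emb.injective h.choose_spec]
  have hsel' : ∀ t i, sel t = some i → ∃ a, emb a = t ∧ lab a = i := by
    intro t i hti
    by_cases h : ∃ a, emb a = t
    · obtain ⟨a, rfl⟩ := h
      rw [hsel] at hti
      exact ⟨a, rfl, Option.some.inj hti⟩
    · have : sel t = none := dif_neg h
      rw [this] at hti
      exact absurd hti (by simp)
  have hcount : ∀ i, vv sel i = 1 + (r : ZMod p) * (Pi.single i0 1 : ι → ZMod p) i := by
    intro i
    have h1 : (univ.filter (fun t => sel t = some i)).card =
        (univ.filter (fun a => lab a = i)).card := by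
      symm
      refine card_bij (fun a _ => emb a) ?_ ?_ ?_
      · intro a ha
        rw [mem_filter] at ha ⊢
        exact ⟨mem_univ _, by rw [hsel, ha.2]⟩
      · intro a _ b _ hab
        exact emb.injective hab
      · intro t ht
        obtain ⟨a, ha1, ha2⟩ := hsel' t i (mem_filter.1 ht).2
        exact ⟨a, mem_filter.2 ⟨mem_univ _, ha2⟩, ha1⟩
    unfold vv
    rw [h1, ← sum_boole, Fintype.sum_sum_type]
    have h2 : ∑ a : ι, (if lab (Sum.inl a) = i then (1 : ZMod p) else 0) = 1 := by
      show ∑ a : ι, (if a = i then (1 : ZMod p) else 0) = 1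
      rw [sum_ite_eq' univ i]
      simp
    have h3 : ∑ a : Fin r, (if lab (Sum.inr a) = i then (1 : ZMod p) else 0) =
        r * (Pi.single i0 1 : ι → ZMod p) i := by
      show ∑ a : Fin r, (if i0 = i then (1 : ZMod p) else 0) = _
      rw [Finset.sum_const, card_univ, Fintype.card_fin, nsmul_eq_mul]
      congr 1
      by_cases hi : i = i0
      · subst hi; simp
      · rw [if_neg (Ne.symm hi), Pi.single_eq_of_ne hi]
    rw [h2, h3]
  refine ⟨sel, ?_, ?_⟩
  · intro i
    rw [hcount]
    by_cases hi : i = i0
    · subst hi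
      rw [Pi.single_eq_same, mul_one]
      have h1 : (1 + (r : ZMod p)) = ((1 + r : ℕ) : ZMod p) := by push_cast; ring
      rw [h1, Ne, ZMod.natCast_eq_zero_iff]
      intro h
      have := Nat.le_of_dvd (by omega) h
      omega
    · rw [Pi.single_eq_of_ne hi]
      simp
  · intro j h
    apply hz2
    refine mem_image.2 ⟨j, mem_univ _, ?_⟩
    have h1 : (fun i => vv sel i) = (fun _ => (1 : ZMod p)) + (r : ZMod p) • (Pi.single i0 1 : ι → ZMod p) := by
      funext i
      rw [hcount]
      simp
    rw [h1, map_add, map_smul, smul_eq_mul] at h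
    rw [div_eq_iff (Lne j i0)]
    linear_combination -h

/-- Extension by zero. -/
def lift0 {D : Type} (f : D → ZMod p) : Option D → ZMod p := fun o => o.elim 0 f

/-- One more dimension. -/
theorem good2_step {ι J D X : Type} [Fintype ι] [DecidableEq ι] [Fintype J] [DecidableEq D]
    [Nonempty ι]
    {gen : ι → D → ZMod p} {u : X → ZMod p} {pos : X → D → ZMod p} {h : ι → Equiv.Perm X}
    {g : ι → X → ι} {L : J → (ι → ZMod p) →ₗ[ZMod p] ZMod p} (hg : Good2 gen u pos h g L)
    (hc : Fintype.card ι + Fintype.card J ≤ p) (hc2 : Fintype.card J + 1 < p) :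
    ∃ (u' : ZMod p × X → ZMod p) (pos' : ZMod p × X → Option D → ZMod p)
      (h' : Option ι → Equiv.Perm (ZMod p × X)) (g' : Option ι → ZMod p × X → Option ι)
      (L' : Option J → (Option ι → ZMod p) →ₗ[ZMod p] ZMod p),
      Good2 (fun o : Option ι => o.elim (Pi.single none 1) (fun i => lift0 (gen i)))
        u' pos' h' g' L' ∧ ∀ m, L' none m = ∑ o, m o := by
  obtain ⟨sel, hv, hLv⟩ := choose_sel2 L hg.Lne hc hc2
  let pos' : ZMod p × X → Option D → ZMod p := fun y o => o.elim (y.1 - u y.2) (pos y.2)
  let g' : Option ι → ZMod p × X → Option ι := fun o y => match o with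
    | some i => if sel y.1 = some i then none else some (g i y.2)
    | none => (sel y.1).elim none (fun j => some (g j y.2))
  let L' : Option J → (Option ι → ZMod p) →ₗ[ZMod p] ZMod p := fun o => match o with
    | none => ∑ o, LinearMap.proj (R := ZMod p) (φ := fun _ : Option ι => ZMod p) o
    | some j => (L j).comp (LinearMap.pi (fun i => vv sel i •
        (LinearMap.proj (R := ZMod p) (φ := fun _ : Option ι => ZMod p) none -
          LinearMap.proj (R := ZMod p) (φ := fun _ : Option ι => ZMod p) (some i))))
  have hL'0 : ∀ m, L' none m = ∑ o, m o := by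
    intro m
    show (∑ o, LinearMap.proj (R := ZMod p) (φ := fun _ : Option ι => ZMod p) o) m = _
    rw [LinearMap.sum_apply]
    rfl
  have hL'1 : ∀ j m, L' (some j) m = L j (fun i => vv sel i * (m none - m (some i))) := by
    intro j m
    rfl
  refine ⟨Prod.fst, pos', hh h sel, g', L', ?_, hL'0⟩
  set gen' : Option ι → Option D → ZMod p :=
    fun o : Option ι => o.elim (Pi.single none 1) (fun i => lift0 (gen i)) with hgen'
  have hs1 : ∀ t x, pos' (t + 1, x) = pos' (t, x) + gen' none := by
    intro t x
    funext o
    cases o with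
    | none =>
      show t + 1 - u x = t - u x + (Pi.single none 1 : Option D → ZMod p) none
      rw [Pi.single_eq_same]; ring
    | some i =>
      show pos x i = pos x i + (Pi.single none 1 : Option D → ZMod p) (some i)
      rw [Pi.single_eq_of_ne (by simp)]; ring
  have hs2 : ∀ t x i, pos' (t + 1, h i x) = pos' (t, x) + gen' (some (g i x)) := by
    intro t x i
    funext o
    cases o with
    | none =>
      show t + 1 - u (h i x) = t - u x + 0
      rw [hg.hu]; ring
    | some b =>
      show pos (h i x) b = pos x b + gen (g i x) b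
      rw [hg.step, Pi.add_apply]
  refine ⟨⟨?_, ?_⟩, ?_, ?_, ?_, ?_, ?_⟩
  · rintro ⟨t, x⟩ ⟨t', x'⟩ hxx
    have h1 : x = x' := hg.bij.1 (funext fun i => congrFun hxx (some i))
    subst h1
    have h2 : t - u x = t' - u x := congrFun hxx none
    have h3 : t = t' := by linear_combination h2
    rw [h3]
  · intro f
    obtain ⟨x, hx⟩ := hg.bij.2 (fun i => f (some i))
    refine ⟨(f none + u x, x), funext fun o => ?_⟩
    cases o with
    | none =>
      show f none + u x - u x = f none
      ring
    | some i => exact congrFun hx i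
  · rintro o ⟨t, x⟩
    rw [hh_apply]
    cases o with
    | some i =>
      by_cases hs : sel t = some i
      · have e1 : fib h sel (some i) t = 1 := if_pos hs
        have e2 : g' (some i) (t, x) = none := if_pos hs
        rw [e1, e2]
        exact hs1 t x
      · have e1 : fib h sel (some i) t = h i := if_neg hs
        have e2 : g' (some i) (t, x) = some (g i x) := if_neg hs
        rw [e1, e2]
        exact hs2 t x i
    | none =>
      cases hs : sel t with
      | none =>
        have e1 : fib h sel none t = 1 := by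
          show (sel t).elim 1 h = 1
          rw [hs]; rfl
        have e2 : g' none (t, x) = none := by
          show (sel t).elim none (fun j => some (g j x)) = none
          rw [hs]; rfl
        rw [e1, e2]
        exact hs1 t x
      | some j =>
        have e1 : fib h sel none t = h j := by
          show (sel t).elim 1 h = h j
          rw [hs]; rfl
        have e2 : g' none (t, x) = some (g j x) := by
          show (sel t).elim none (fun j => some (g j x)) = some (g j x)
          rw [hs]; rfl
        rw [e1, e2]
        exact hs2 t x j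
  · rintro o ⟨t, x⟩
    rw [hh_apply]
  · rintro ⟨t, x⟩ a
    cases a with
    | none =>
      cases hs : sel t with
      | none =>
        refine ⟨none, ?_⟩
        show (sel t).elim none (fun j => some (g j x)) = none
        rw [hs]; rfl
      | some j => exact ⟨some j, if_pos hs⟩
    | some b =>
      obtain ⟨i, hi⟩ := hg.surj x b
      by_cases hs : sel t = some i
      · refine ⟨none, ?_⟩
        show (sel t).elim none (fun j => some (g j x)) = some b
        rw [hs]
        show some (g i x) = some b
        rw [hi]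
      · refine ⟨some i, ?_⟩
        have e2 : g' (some i) (t, x) = some (g i x) := if_neg hs
        rw [e2, hi]
  · intro j o
    cases j with
    | none =>
      rw [hL'0, sum_single']
      exact one_ne_zero
    | some j =>
      rw [hL'1]
      cases o with
      | none =>
        have e1 : (fun i => vv sel i * ((Pi.single none 1 : Option ι → ZMod p) none -
            (Pi.single none 1 : Option ι → ZMod p) (some i))) = fun i => vv sel i := by
          funext i
          rw [Pi.single_eq_same, Pi.single_eq_of_ne (by simp)]; ring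
        rw [e1]
        exact hLv j
      | some i0 =>
        have e1 : (fun i => vv sel i * ((Pi.single (some i0) 1 : Option ι → ZMod p) none -
            (Pi.single (some i0) 1 : Option ι → ZMod p) (some i))) =
            (- vv sel i0) • (Pi.single i0 1 : ι → ZMod p) := by
          funext i
          rw [Pi.single_eq_of_ne (by simp)]
          by_cases hi : i = i0
          · subst hi; simp
          · rw [Pi.single_eq_of_ne (fun h => hi (Option.some.inj h)), Pi.smul_apply,
              Pi.single_eq_of_ne hi]
            simp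
        rw [e1, map_smul, smul_eq_mul]
        exact mul_ne_zero (neg_ne_zero.2 (hv i0)) (hg.Lne j i0)
  · intro m φ hw hL
    refine tr_step2 hg.tr hw ?_ ?_
    · rw [← hL'0]; exact hL none
    · intro j
      rw [← hL'1]; exact hL (some j)

end Pool.Agent.TH486.LAC
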