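import Pool.Agent.H79.LA.MPd14d18_Star

set_option autoImplicit false

/-!
Edge colouring of a graph with `L` colours when all degrees are at most `L` and the vertices of
degree exactly `L` are pairwise non-adjacent (Vizing, Fournier), from the recolouring lemma
`add_vertex`.
-/

namespace Pool.Agent.TH525.LAD

open Finset Pool.Agent.MPd14d18

variable {W : Type*} [Fintype W] [DecidableEq W]

/-- the multiplicities of the edges inside `X` -/
def tgtX (Γ : SimpleGraph W) [DecidableRel Γ.Adj] (X : Finset W) (u w : W) : ℕ :=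
  if Γ.Adj u w ∧ u ∈ X ∧ w ∈ X then 1 else 0

theorem missing_tgtX (Γ : SimpleGraph W) [DecidableRel Γ.Adj] (X : Finset W) (L : Finset ℕ)
    (m : ℕ → W → W) (hm : ∀ u w, u ≠ w → mu L m u w = tgtX Γ X u w) (u : W) :
    (L.filter (fun c => m c u = u)).card + ∑ w, tgtX Γ X u w = L.card := by
  have h0 : tgtX Γ X u u = 0 := by simp [tgtX]
  rw [← missing_add L m u]
  congr 1
  rw [← Finset.sum_erase univ h0]
  refine Finset.sum_congr rfl fun w hw => ?_
  rw [mem_erase] at hw
  exact (hm u w hw.1.symm).symm

theorem sum_tgtX (Γ : SimpleGraph W) [DecidableRel Γ.Adj] (X : Finset W) (a : W) (ha : a ∈ X) :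
    ∑ w, tgtX Γ X a w = (X.filter (fun b => Γ.Adj a b)).card := by
  rw [Finset.card_filter, ← Finset.sum_subset (Finset.subset_univ X)]
  · refine Finset.sum_congr rfl fun b hb => ?_
    simp [tgtX, ha, hb]
  · intro b _ hb
    simp [tgtX, hb]

theorem step (Γ : SimpleGraph W) [DecidableRel Γ.Adj] (L : ℕ)
    (hdeg : ∀ v, Γ.degree v ≤ L) (X : Finset W) (x : W) (hx : x ∉ X)
    (hfull : ∀ u ∈ X, Γ.Adj x u → Γ.degree u + 1 ≤ L)
    (hP : ∃ m : ℕ → W → W, (∀ c v, m c (m c v) = v) ∧
      ∀ u w, u ≠ w → mu (range L) m u w = tgtX Γ X u w) :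
    ∃ m : ℕ → W → W, (∀ c v, m c (m c v) = v) ∧
      ∀ u w, u ≠ w → mu (range L) m u w = tgtX Γ (insert x X) u w := by
  classical
  obtain ⟨m, hm, hmu⟩ := hP
  have hmiss := missing_tgtX Γ X (range L) m hmu
  let U : Finset W := X.filter (fun a => Γ.Adj x a)
  have hUs : ∀ a, a ∈ U ↔ a ∈ X ∧ Γ.Adj x a := by
    intro a
    simp [U]
  have hiso : ∀ c ∈ range L, m c x = x := by
    have h1 := hmiss x
    have h0 : ∑ w, tgtX Γ X x w = 0 := by
      apply Finset.sum_eq_zero
      intro w _
      simp [tgtX, hx]
    rw [h0, add_zero] at h1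
    exact Finset.card_filter_eq_iff.mp h1
  have hxU : x ∉ U := by
    rw [hUs]; exact fun h => hx h.1
  have hUc : U.card ≤ (range L).card := by
    rw [card_range]
    refine le_trans ?_ (hdeg x)
    rw [← SimpleGraph.card_neighborFinset_eq_degree]
    apply Finset.card_le_card
    intro a ha
    rw [hUs] at ha
    rw [SimpleGraph.mem_neighborFinset]
    exact ha.2
  obtain ⟨m', hm', -, hmu'⟩ := add_vertex x (range L).card (range L) rfl m hm hiso U x hxU hUc
    (by
      intro u hu
      have h2 : 2 ≤ ((range L).filter (fun c => m c u = u)).card := by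
        have h1 := hmiss u
        rw [hUs] at hu
        rw [sum_tgtX Γ X u hu.1, card_range] at h1
        have h3 : (X.filter (fun b => Γ.Adj u b)).card + 1 ≤ Γ.degree u := by
          rw [← SimpleGraph.card_neighborFinset_eq_degree,
            ← Finset.card_insert_of_notMem (a := x) (s := X.filter (fun b => Γ.Adj u b))
              (fun h => hx (mem_filter.mp h).1)]
          apply Finset.card_le_card
          intro b hb
          rw [mem_insert, mem_filter] at hb
          rw [SimpleGraph.mem_neighborFinset]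
          rcases hb with rfl | hb
          · exact hu.2.symm
          · exact hb.2
        have h4 := hfull u hu.1 hu.2
        omega
      split_ifs <;> omega)
  refine ⟨m', hm', ?_⟩
  intro u w huw
  rw [hmu' u w huw, hmu u w huw]
  simp only [tgtX, mem_insert, hUs]
  by_cases hax : u = x
  · subst hax
    have hbx : w ≠ u := huw.symm
    by_cases hbX : w ∈ X <;> by_cases hadj : Γ.Adj u w <;> simp [hbX, hadj, hx, hbx]
  · by_cases hbx : w = x
    · subst hbx
      have hadj' : Γ.Adj w u ↔ Γ.Adj u w := Γ.adj_comm w u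
      by_cases haX : u ∈ X <;> by_cases hadj : Γ.Adj u w <;>
        simp [haX, hadj, hadj', hx, hax]
    · simp [hax, hbx]

/-- Proper edge colouring with `L` colours. -/
theorem class_one (Γ : SimpleGraph W) [DecidableRel Γ.Adj] (L : ℕ)
    (hdeg : ∀ v, Γ.degree v ≤ L)
    (hind : ∀ u v, Γ.Adj u v → Γ.degree u = L → Γ.degree v = L → False) :
    ∃ φ : W → W → ℕ, (∀ u v, φ u v = φ v u) ∧ (∀ u v, Γ.Adj u v → φ u v < L) ∧
      ∀ u v w, Γ.Adj u v → Γ.Adj u w → φ u v = φ u w → v = w := by
  classical
  -- first the vertices of degree less than `L`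
  have h1 : ∀ X : Finset W, (∀ x ∈ X, Γ.degree x + 1 ≤ L) →
      ∃ m : ℕ → W → W, (∀ c v, m c (m c v) = v) ∧
        ∀ u w, u ≠ w → mu (range L) m u w = tgtX Γ X u w := by
    intro X
    induction X using Finset.induction_on with
    | empty =>
      intro _
      refine ⟨fun _ v => v, fun _ _ => rfl, ?_⟩
      intro u w huw
      simp [mu, tgtX, huw]
    | insert x X hx ih =>
      intro h
      exact step Γ L hdeg X x hx (fun u hu _ => h u (mem_insert_of_mem hu))
        (ih fun y hy => h y (mem_insert_of_mem hy))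
  let N : Finset W := univ.filter (fun v => Γ.degree v + 1 ≤ L)
  have hN : ∀ v, v ∈ N ↔ Γ.degree v + 1 ≤ L := by intro v; simp [N]
  have h2 : ∀ Y : Finset W, (∀ y ∈ Y, Γ.degree y = L) →
      ∃ m : ℕ → W → W, (∀ c v, m c (m c v) = v) ∧
        ∀ u w, u ≠ w → mu (range L) m u w = tgtX Γ (N ∪ Y) u w := by
    intro Y
    induction Y using Finset.induction_on with
    | empty =>
      intro _
      rw [union_empty]
      exact h1 N (fun x hx => (hN x).1 hx)
    | insert y Y hy ih =>
      intro h
      have hy0 := h y (mem_insert_self _ _)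
      rw [union_insert]
      refine step Γ L hdeg (N ∪ Y) y ?_ ?_ (ih fun z hz => h z (mem_insert_of_mem hz))
      · rw [mem_union]
        rintro (h' | h')
        · rw [hN] at h'; omega
        · exact hy h'
      · intro u _ hadj
        have := hdeg u
        by_contra hcon
        exact hind y u hadj hy0 (by omega)
  obtain ⟨m, hm, hmu⟩ := h2 (univ.filter (fun v => Γ.degree v = L)) (by simp)
  have hU : N ∪ univ.filter (fun v => Γ.degree v = L) = univ := by
    ext v
    simp only [mem_union, hN, mem_filter, mem_univ, true_and, iff_true]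
    have := hdeg v
    omega
  rw [hU] at hmu
  have hadj : ∀ u w, u ≠ w → ((range L).filter (fun c => m c u = w)).card =
      if Γ.Adj u w then 1 else 0 := by
    intro u w huw
    have h3 := hmu u w huw
    rw [mu_eq_card] at h3
    rw [h3]
    simp [tgtX]
  have hsel : ∀ u w, ∃ c, Γ.Adj u w → c < L ∧ m c u = w := by
    intro u w
    by_cases h : Γ.Adj u w
    · have h3 := hadj u w h.ne
      rw [if_pos h] at h3
      have h4 : ((range L).filter (fun c => m c u = w)).Nonempty := by
        rw [← Finset.card_pos]; omega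
      obtain ⟨c, hc⟩ := h4
      rw [mem_filter, mem_range] at hc
      exact ⟨c, fun _ => hc⟩
    · exact ⟨0, fun h' => absurd h' h⟩
  choose f hf using hsel
  have huniq : ∀ u w c, Γ.Adj u w → c < L → m c u = w → c = f u w := by
    intro u w c h hc hcu
    have h3 := hadj u w h.ne
    rw [if_pos h] at h3
    obtain ⟨h4, h5⟩ := hf u w h
    exact Finset.card_le_one.mp h3.le c (by simp [hc, hcu]) (f u w) (by simp [h4, h5])
  have hsymm : ∀ u w, Γ.Adj u w → f u w = f w u := by
    intro u w h
    obtain ⟨h4, h5⟩ := hf u w h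
    refine huniq w u (f u w) h.symm h4 ?_
    have h6 := hm (f u w) u
    rwa [h5] at h6
  refine ⟨fun u v => if Γ.Adj u v then f u v else 0, ?_, ?_, ?_⟩
  · intro u v
    by_cases h : Γ.Adj u v
    · simp [h, h.symm, hsymm u v h]
    · have h' : ¬ Γ.Adj v u := fun h' => h h'.symm
      simp [h, h']
  · intro u v h
    simp only [h, if_true]
    exact (hf u v h).1
  · intro u v w h h' he
    simp only [h, h', if_true] at he
    rw [← (hf u v h).2, ← (hf u w h').2, he]

end Pool.Agent.TH525.LAD
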