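import Pool.Agent.H79.LA.TH702_LLG_Ext

set_option autoImplicit false

/-!
If the vertices of `G` are divided into `m` classes such that every vertex has at most four
neighbours in every other class and at most two in its own class, then `G` is the union of `2 m`
linear forests.
-/

namespace Pool.Agent.TH702.LLG

open SimpleGraph H931R3.LA

/-- `A` is a matching. -/
def IsM {V : Type} (A : SimpleGraph V) : Prop := ∀ u v w, A.Adj u v → A.Adj u w → v = w

theorem exists_max_matching {V : Type} [Finite V] (D : SimpleGraph V) :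
    ∃ A ≤ D, IsM A ∧ ∀ u v, D.Adj u v → (∃ w, A.Adj u w) ∨ ∃ w, A.Adj v w := by
  classical
  obtain ⟨A, -, hA⟩ := Finite.exists_le_maximal (p := fun A : SimpleGraph V =>
    A ≤ D ∧ IsM A) (a := ⊥) ⟨bot_le, by intro u v w h; exact absurd h (by simp)⟩
  refine ⟨A, hA.prop.1, hA.prop.2, ?_⟩
  intro u v huv
  by_contra hcon
  push Not at hcon
  obtain ⟨hu, hv⟩ := hcon
  have h3 : A ⊔ edge u v ≤ D := by
    refine sup_le hA.prop.1 ?_
    intro x y hxy
    rw [edge_adj] at hxy
    rcases hxy.1 with ⟨h, h'⟩ | ⟨h, h'⟩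
    · rw [h, h']; exact huv
    · rw [h, h']; exact huv.symm
  have h2 : IsM (A ⊔ edge u v) := by
    intro x y z hy hz
    rw [sup_adj, edge_adj] at hy hz
    rcases hy with hy | ⟨⟨rfl, rfl⟩ | ⟨rfl, rfl⟩, hne⟩
    · rcases hz with hz | ⟨⟨rfl, rfl⟩ | ⟨rfl, rfl⟩, hne'⟩
      · exact hA.prop.2 x y z hy hz
      · exact absurd hy (hu y)
      · exact absurd hy (hv y)
    · rcases hz with hz | ⟨⟨h1, h2⟩ | ⟨h1, h2⟩, hne'⟩
      · exact absurd hz (hu z)
      · exact h2.symm
      · exact absurd h1 hne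
    · rcases hz with hz | ⟨⟨h1, h2⟩ | ⟨h1, h2⟩, hne'⟩
      · exact absurd hz (hv z)
      · exact absurd h1 hne
      · exact h2.symm
  have h4 : A ⊔ edge u v ≤ A := hA.2 ⟨h3, h2⟩ le_sup_left
  refine hu v (h4 ?_)
  rw [sup_adj]
  exact Or.inr ((edge_adj _ _ _ _).2 ⟨Or.inl ⟨rfl, rfl⟩, huv.ne⟩)

/-- A lift of a path together with a matching of the vertices at position `0`. -/
theorem start_isLF {V : Type} [Finite V] (q : V → ℕ) (B M : SimpleGraph V)
    (hB1 : ∀ u v, B.Adj u v → q u = q v + 1 ∨ q v = q u + 1)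
    (hB2 : ∀ u v w, B.Adj u v → B.Adj u w → q v = q w → v = w)
    (hM : IsM M) (hM0 : ∀ u v, M.Adj u v → q u = 0) : IsLF (B ⊔ M) := by
  classical
  refine ⟨acyclic_of_rank _ q ?_, ?_⟩
  · intro u v w hv hw hqv hqw
    rw [sup_adj] at hv hw
    rcases hv with hv | hv
    · have h1 := hB1 u v hv
      rcases hw with hw | hw
      · have h2 := hB1 u w hw
        exact hB2 u v w hv hw (by omega)
      · have h2 := hM0 u w hw
        omega
    · have h1 := hM0 u v hv
      rcases hw with hw | hw
      · have h2 := hB1 u w hw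
        omega
      · exact hM u v w hv hw
  · intro u
    have hsub : (B ⊔ M).neighborSet u ⊆ {v | (B.Adj u v ∧ q v + 1 = q u) ∨ M.Adj u v} ∪
        {v | B.Adj u v ∧ q v = q u + 1} := by
      intro v hv
      rw [mem_neighborSet, sup_adj] at hv
      rcases hv with hv | hv
      · rcases hB1 u v hv with h | h
        · exact Or.inl (Or.inl ⟨hv, h.symm⟩)
        · exact Or.inr ⟨hv, h⟩
      · exact Or.inl (Or.inr hv)
    have h1 : ({v | (B.Adj u v ∧ q v + 1 = q u) ∨ M.Adj u v} : Set V).ncard ≤ 1 := by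
      apply ncard_le_one_of
      rintro a (⟨ha, ha'⟩ | ha) b (⟨hb, hb'⟩ | hb)
      · exact hB2 u a b ha hb (by omega)
      · have := hM0 u b hb; omega
      · have := hM0 u a ha; omega
      · exact hM u a b ha hb
    have h2 : ({v | B.Adj u v ∧ q v = q u + 1} : Set V).ncard ≤ 1 := by
      apply ncard_le_one_of
      rintro a ⟨ha, ha'⟩ b ⟨hb, hb'⟩
      exact hB2 u a b ha hb (by omega)
    have h3 := Set.ncard_le_ncard hsub (Set.toFinite _)
    have h4 := Set.ncard_union_le {v | (B.Adj u v ∧ q v + 1 = q u) ∨ M.Adj u v}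
      {v | B.Adj u v ∧ q v = q u + 1}
    omega

/-- The degree at the last position. -/
theorem final_deg {V : Type} [Finite V] (q : V → ℕ) (B M : SimpleGraph V) (m : ℕ)
    (hB1 : ∀ u v, B.Adj u v → q u = q v + 1 ∨ q v = q u + 1)
    (hB2 : ∀ u v w, B.Adj u v → B.Adj u w → q v = q w → v = w)
    (hM : IsM M) (hM0 : ∀ u v, M.Adj u v → q u = 0) (hq : ∀ v, q v < m) (u : V)
    (hu : q u = m - 1) : ((B ⊔ M).neighborSet u).ncard ≤ 1 := by
  classical
  apply ncard_le_one_of
  intro a ha b hb
  rw [mem_neighborSet, sup_adj] at ha hb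
  have hqa := hq a
  have hqb := hq b
  rcases ha with ha | ha
  · have h1 := hB1 u a ha
    rcases hb with hb | hb
    · have h2 := hB1 u b hb
      exact hB2 u a b ha hb (by omega)
    · have h2 := hM0 u b hb
      omega
  · have h1 := hM0 u a ha
    rcases hb with hb | hb
    · have h2 := hB1 u b hb
      omega
    · exact hM u a b ha hb

theorem cov_even {V : Type} [Finite V] (G : SimpleGraph V) (m : ℕ) (f : V → ℕ)
    (hf : ∀ v, f v < m)
    (h4 : ∀ u j, j ≠ f u → {v | G.Adj u v ∧ f v = j}.ncard ≤ 4)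
    (h2 : ∀ u, {v | G.Adj u v ∧ f v = f u}.ncard ≤ 2) : Cov G (2 * m) := by
  classical
  -- edges between different classes
  let G0 : SimpleGraph V :=
    { Adj := fun u v => G.Adj u v ∧ f u ≠ f v
      symm := ⟨fun u v h => ⟨h.1.symm, h.2.symm⟩⟩
      loopless := ⟨fun u h => h.2 rfl⟩ }
  obtain ⟨B, hB0, hB1, hB2, hB3⟩ := base G0 m f hf (fun u v h => h.2) (by
    intro u j
    by_cases hj : j = f u
    · have : {v | G0.Adj u v ∧ f v = j} = ∅ := by
        ext v
        simp only [Set.mem_ofPred_eq, Set.mem_empty_iff_false, iff_false]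
        rintro ⟨h, h'⟩
        exact h.2 (by rw [h', hj])
      rw [this, Set.ncard_empty]
      omega
    · refine (Set.ncard_le_ncard ?_ (Set.toFinite _)).trans (h4 u j hj)
      rintro v ⟨hv, hv'⟩
      exact ⟨hv.1, hv'⟩)
  -- edges inside the classes
  let D : SimpleGraph V :=
    { Adj := fun u v => G.Adj u v ∧ f u = f v
      symm := ⟨fun u v h => ⟨h.1.symm, h.2.symm⟩⟩
      loopless := ⟨fun u h => G.loopless.irrefl u h.1⟩ }
  have hD2 : ∀ u, (D.neighborSet u).ncard ≤ 2 := by
    intro u
    refine (Set.ncard_le_ncard ?_ (Set.toFinite _)).trans (h2 u)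
    intro v hv
    exact ⟨hv.1, hv.2.symm⟩
  have htwo : ∀ u a b c, D.Adj u a → D.Adj u b → a ≠ b → D.Adj u c → c = a ∨ c = b := by
    intro u a b c ha hb hab hc
    by_contra hcon
    push Not at hcon
    have h3 : ({a, b, c} : Set V) ⊆ D.neighborSet u := by
      intro x hx
      simp only [Set.mem_insert_iff, Set.mem_singleton_iff] at hx
      rcases hx with rfl | rfl | rfl
      · exact ha
      · exact hb
      · exact hc
    have h5 := Set.ncard_le_ncard h3 (Set.toFinite _)
    have h6 : ({a, b, c} : Set V).ncard = 3 := by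
      rw [Set.ncard_eq_three]
      exact ⟨a, b, c, hab, hcon.1.symm, hcon.2.symm, rfl⟩
    have := hD2 u
    omega
  obtain ⟨A, hAD, hAM, hAmax⟩ := exists_max_matching D
  -- the part of a matching at the first position
  let at0 : ℕ → SimpleGraph V → SimpleGraph V := fun c M =>
    { Adj := fun u v => M.Adj u v ∧ P m c (f u) = 0 ∧ P m c (f v) = 0
      symm := ⟨fun u v h => ⟨h.1.symm, h.2.2, h.2.1⟩⟩
      loopless := ⟨fun u h => M.loopless.irrefl u h.1⟩ }
  have at0M : ∀ c M, IsM M → IsM (at0 c M) := by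
    intro c M hM u v w hv hw
    exact hM u v w hv.1 hw.1
  let F : ℕ → SimpleGraph V := fun c => B c ⊔ at0 c A
  have hF : ∀ c, IsLF (F c) := fun c => start_isLF (fun v => P m c (f v)) (B c) (at0 c A)
    (hB2 c) (hB3 c) (at0M c A hAM) (fun u v h => h.2.1)
  let D' : ℕ → SimpleGraph V := fun c =>
    { Adj := fun u v => D.Adj u v ∧ ¬ A.Adj u v ∧ P m c (f u) = m - 1 ∧ P m c (f v) = m - 1
      symm := ⟨fun u v h => ⟨h.1.symm, fun h' => h.2.1 h'.symm, h.2.2.2, h.2.2.1⟩⟩
      loopless := ⟨fun u h => D.loopless.irrefl u h.1⟩ }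
  have hT := fun c => exists_ext (F c) (D' c) (hF c)
  choose T hTD hTF hText using hT
  let R : SimpleGraph V :=
    { Adj := fun u v => D.Adj u v ∧ ¬ A.Adj u v ∧ ∀ c < m, ¬ (T c).Adj u v
      symm := ⟨fun u v h => ⟨h.1.symm, fun h' => h.2.1 h'.symm,
        fun c hc h' => h.2.2 c hc h'.symm⟩⟩
      loopless := ⟨fun u h => D.loopless.irrefl u h.1⟩ }
  have hRM : IsM R := by
    intro a b b' hb hb'
    by_contra hbb
    have hfb : f a = f b := hb.1.2
    have hfb' : f a = f b' := hb'.1.2
    obtain ⟨c, hcm, hPc⟩ := P_final (hf a)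
    -- `a` is not covered by `A`
    have haA : ∀ x, ¬ A.Adj a x := by
      intro x hx
      rcases htwo a b b' x hb.1 hb'.1 hbb (hAD hx) with rfl | rfl
      · exact hb.2.1 hx
      · exact hb'.2.1 hx
    have haT : ∀ x, ¬ (T c).Adj a x := by
      intro x hx
      rcases htwo a b b' x hb.1 hb'.1 hbb (hTD c hx).1 with rfl | rfl
      · exact hb.2.2 c hcm hx
      · exact hb'.2.2 c hcm hx
    have hend : ∀ y, R.Adj a y → ∀ x, ¬ (T c).Adj y x := by
      intro y hy x hx
      obtain ⟨z, hz⟩ : ∃ z, A.Adj y z := by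
        rcases hAmax a y hy.1 with ⟨w, hw⟩ | h
        · exact absurd hw (haA w)
        · exact h
      have hza : z ≠ a := by
        rintro rfl
        exact hy.2.1 hz.symm
      rcases htwo y a z x hy.1.symm (hAD hz) hza.symm (hTD c hx).1 with rfl | rfl
      · exact hy.2.2 c hcm hx.symm
      · exact (hTD c hx).2.1 hz
    have hdeg : ∀ y, f y = f a → (∀ x, ¬ (T c).Adj y x) →
        ((F c ⊔ T c).neighborSet y).ncard ≤ 1 := by
      intro y hy hyT
      have h5 : (F c ⊔ T c).neighborSet y = (F c).neighborSet y := by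
        ext x
        rw [mem_neighborSet, mem_neighborSet, sup_adj]
        constructor
        · rintro (h | h)
          · exact h
          · exact absurd h (hyT x)
        · intro h; exact Or.inl h
      rw [h5]
      exact final_deg (fun v => P m c (f v)) (B c) (at0 c A) m (hB2 c) (hB3 c) (at0M c A hAM)
        (fun u v h => h.2.1) (fun v => P_lt (hf v)) y (by simp only [hy]; exact hPc)
    have h6 := hText c a b b' hbb ⟨hb.1, hb.2.1, hPc, by rw [← hfb]; exact hPc⟩
      ⟨hb'.1, hb'.2.1, hPc, by rw [← hfb']; exact hPc⟩ (hdeg a rfl haT)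
      (hdeg b hfb.symm (hend b hb)) (hdeg b' hfb'.symm (hend b' hb'))
    rcases h6 with h6 | h6
    · exact haT _ h6
    · exact haT _ h6
  -- the forests
  let C : Fin (2 * m) → SimpleGraph V := fun c =>
    if (c : ℕ) < m then F c ⊔ T c else B c ⊔ at0 c R
  refine ⟨C, ?_, ?_⟩
  · intro c
    by_cases hc : (c : ℕ) < m
    · simp only [C, if_pos hc]
      exact hTF c
    · simp only [C, if_neg hc]
      exact start_isLF (fun v => P m c (f v)) (B c) (at0 c R)
        (hB2 c) (hB3 c) (at0M c R hRM) (fun u v h => h.2.1)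
  · ext u v
    rw [iSup_adj]
    constructor
    · rintro ⟨c, hc⟩
      by_cases hcm : (c : ℕ) < m
      · simp only [C, if_pos hcm, F] at hc
        rw [sup_adj, sup_adj] at hc
        rcases hc with (hc | hc) | hc
        · exact (hB0 c hc).1
        · exact (hAD hc.1).1
        · exact (hTD c hc).1.1
      · simp only [C, if_neg hcm] at hc
        rw [sup_adj] at hc
        rcases hc with hc | hc
        · exact (hB0 c hc).1
        · exact hc.1.1.1
    · intro huv
      by_cases hfuv : f u = f v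
      · have hfu := hf u
        by_cases hA : A.Adj u v
        · refine ⟨⟨f u, by omega⟩, ?_⟩
          simp only [C, if_pos hfu, F]
          rw [sup_adj, sup_adj]
          have h7 : P m (f u) (f u) = 0 := P_start hfu (Nat.mod_eq_of_lt hfu)
          exact Or.inl (Or.inr ⟨hA, h7, by rw [← hfuv]; exact h7⟩)
        · by_cases hT' : ∃ c < m, (T c).Adj u v
          · obtain ⟨c, hcm, hc⟩ := hT'
            refine ⟨⟨c, by omega⟩, ?_⟩
            simp only [C, if_pos hcm]
            rw [sup_adj]
            exact Or.inr hc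
          · push Not at hT'
            refine ⟨⟨f u + m, by omega⟩, ?_⟩
            have h8 : ¬ f u + m < m := by omega
            simp only [C, if_neg h8]
            rw [sup_adj]
            have h7 : P m (f u + m) (f u) = 0 :=
              P_start hfu (by rw [Nat.add_mod_right, Nat.mod_eq_of_lt hfu])
            exact Or.inr ⟨⟨⟨huv, hfuv⟩, hA, hT'⟩, h7, by rw [← hfuv]; exact h7⟩
      · obtain ⟨c, hc, hcB⟩ := hB1 u v ⟨huv, hfuv⟩
        refine ⟨⟨c, hc⟩, ?_⟩
        by_cases hcm : c < m
        · simp only [C, if_pos hcm, F]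
          rw [sup_adj, sup_adj]
          exact Or.inl (Or.inl hcB)
        · simp only [C, if_neg hcm]
          rw [sup_adj]
          exact Or.inl hcB

end Pool.Agent.TH702.LLG
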