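import Pool.Agent.H79.LA.TH525_FRG_Basic
import Pool.Agent.H79.LA.TH525_FRG_Quot
import Pool.Agent.H79.LA.TH525_LAD_Reg
import Pool.Agent.H79.LA.W111_LAR_Dec

set_option autoImplicit false

/-!
Tools for linear forests: maximal extension by edges of a given graph, rank functions, and the
base colouring of the edges between different classes.
-/

namespace Pool.Agent.TH702.LLG

open SimpleGraph H931R3.LA

/-- Adding an edge between two ends of different components of a linear forest. -/
theorem isLF_add {V : Type} [Finite V] {F : SimpleGraph V} (hF : IsLF F) {a b : V}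
    (hab : a ≠ b) (ha : (F.neighborSet a).ncard ≤ 1) (hb : (F.neighborSet b).ncard ≤ 1)
    (hr : ¬ F.Reachable a b) : IsLF (F ⊔ edge a b) := by
  classical
  refine ⟨IsAcyclic.sup_edge_of_not_reachable hr hF.1, ?_⟩
  intro w
  by_cases hw : w = a
  · subst hw
    have hsub : (F ⊔ edge w b).neighborSet w ⊆ insert b (F.neighborSet w) := by
      intro x hx
      rw [mem_neighborSet, sup_adj, edge_adj] at hx
      rcases hx with hx | ⟨hx, _⟩
      · exact Or.inr hx
      · rcases hx with ⟨_, hx⟩ | ⟨hx, _⟩
        · exact Or.inl hx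
        · exact absurd hx hab
    have h1 := Set.ncard_le_ncard hsub (Set.toFinite _)
    have h2 := Set.ncard_insert_le b (F.neighborSet w)
    omega
  · by_cases hw' : w = b
    · subst hw'
      have hsub : (F ⊔ edge a w).neighborSet w ⊆ insert a (F.neighborSet w) := by
        intro x hx
        rw [mem_neighborSet, sup_adj, edge_adj] at hx
        rcases hx with hx | ⟨hx, _⟩
        · exact Or.inr hx
        · rcases hx with ⟨h, _⟩ | ⟨_, hx⟩
          · exact absurd h.symm hab
          · exact Or.inl hx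
      have h1 := Set.ncard_le_ncard hsub (Set.toFinite _)
      have h2 := Set.ncard_insert_le a (F.neighborSet w)
      omega
    · have hsub : (F ⊔ edge a b).neighborSet w ⊆ F.neighborSet w := by
        intro x hx
        rw [mem_neighborSet, sup_adj, edge_adj] at hx
        rcases hx with hx | ⟨hx, _⟩
        · exact hx
        · rcases hx with ⟨h, _⟩ | ⟨h, _⟩
          · exact absurd h.symm (by simpa using fun h' => hw h'.symm)
          · exact absurd h.symm (by simpa using fun h' => hw' h'.symm)
      exact (Set.ncard_le_ncard hsub (Set.toFinite _)).trans (hF.2 w)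

/-- Maximal extension of a linear forest `F` by edges of `D`. -/
theorem exists_ext {V : Type} [Finite V] (F D : SimpleGraph V) (hF : IsLF F) :
    ∃ T : SimpleGraph V, T ≤ D ∧ IsLF (F ⊔ T) ∧
      ∀ a b c : V, b ≠ c → D.Adj a b → D.Adj a c →
        ((F ⊔ T).neighborSet a).ncard ≤ 1 → ((F ⊔ T).neighborSet b).ncard ≤ 1 →
        ((F ⊔ T).neighborSet c).ncard ≤ 1 → T.Adj a b ∨ T.Adj a c := by
  classical
  have := Fintype.ofFinite V
  obtain ⟨T, -, hT⟩ := Finite.exists_le_maximal (p := fun T : SimpleGraph V =>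
    T ≤ D ∧ IsLF (F ⊔ T)) (a := ⊥) ⟨bot_le, by simpa using hF⟩
  refine ⟨T, hT.prop.1, hT.prop.2, ?_⟩
  intro a b c hbc hab hac ha hb hc
  have key : ∀ x, D.Adj a x → ((F ⊔ T).neighborSet x).ncard ≤ 1 → ¬ (F ⊔ T).Reachable a x →
      T.Adj a x := by
    intro x hx h1 hr
    have h2 : IsLF ((F ⊔ T) ⊔ edge a x) := isLF_add hT.prop.2 hx.ne ha h1 hr
    rw [sup_assoc] at h2
    have h3 : T ⊔ edge a x ≤ D := by
      refine sup_le hT.prop.1 ?_
      intro u v huv
      rw [edge_adj] at huv
      rcases huv.1 with ⟨h, h'⟩ | ⟨h, h'⟩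
      · rw [h, h']; exact hx
      · rw [h, h']; exact hx.symm
    have h4 : T ⊔ edge a x ≤ T := hT.2 ⟨h3, h2⟩ le_sup_left
    apply h4
    rw [sup_adj]
    exact Or.inr ((edge_adj _ _ _ _).2 ⟨Or.inl ⟨rfl, rfl⟩, hx.ne⟩)
  by_cases hr : (F ⊔ T).Reachable a b
  · right
    apply key c hac hc
    intro hr'
    exact three_ends (F ⊔ T) hT.prop.2 a b c hab.ne hac.ne hbc ha hb hc hr hr'
  · left
    exact key b hab hb hr

/-- A graph in which every vertex has at most one neighbour of smaller or equal rank is acyclic. -/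
theorem acyclic_of_rank {V : Type} (F : SimpleGraph V) (pos : V → ℕ)
    (h : ∀ u v w, F.Adj u v → F.Adj u w → pos v ≤ pos u → pos w ≤ pos u → v = w) :
    F.IsAcyclic := by
  classical
  intro v c hc
  obtain ⟨u, hu, hmax⟩ := Finset.exists_max_image c.support.toFinset pos
    ⟨v, by simp⟩
  rw [List.mem_toFinset] at hu
  have hcyc : (c.rotate u hu).IsCycle := hc.rotate hu
  set d := c.rotate u hu with hd
  have hnil : ¬ d.Nil := hcyc.not_nil
  have h1 : F.Adj u d.snd := d.adj_snd hnil
  have h2 : F.Adj d.penultimate u := d.adj_penultimate hnil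
  have hne' : d.snd ≠ d.penultimate := hcyc.snd_ne_penultimate
  have hm : ∀ x ∈ d.support, pos x ≤ pos u := by
    intro x hx
    rw [hd, SimpleGraph.Walk.mem_support_rotate_iff] at hx
    exact hmax x (by rw [List.mem_toFinset]; exact hx)
  exact hne' (h u d.snd d.penultimate h1 h2.symm (hm _ (d.getVert_mem_support 1))
    (hm _ (d.getVert_mem_support _)))

/-- Every vertex of a cycle has two neighbours on the cycle. -/
theorem cycle_nbrs {V : Type} (F : SimpleGraph V) {v : V} (c : F.Walk v v) (hc : c.IsCycle) :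
    ∀ u ∈ c.support, ∃ x y, x ≠ y ∧ F.Adj u x ∧ F.Adj u y ∧ x ∈ c.support ∧ y ∈ c.support := by
  classical
  intro u hu
  have hcyc : (c.rotate u hu).IsCycle := hc.rotate hu
  set d := c.rotate u hu with hd
  have hnil : ¬ d.Nil := hcyc.not_nil
  refine ⟨d.snd, d.penultimate, hcyc.snd_ne_penultimate, d.adj_snd hnil,
    (d.adj_penultimate hnil).symm, ?_, ?_⟩
  · have h := d.getVert_mem_support 1
    rw [hd, SimpleGraph.Walk.mem_support_rotate_iff] at h
    exact h
  · have h := d.getVert_mem_support (d.length - 1)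
    rw [hd, SimpleGraph.Walk.mem_support_rotate_iff] at h
    exact h

theorem ncard_le_one_of {V : Type} [Finite V] (S : Set V) (h : ∀ a ∈ S, ∀ b ∈ S, a = b) :
    S.ncard ≤ 1 := (Set.ncard_le_one (Set.toFinite _)).2 h

/-- The position of the class `i` on the path number `c`. -/
def P (m c i : ℕ) : ℕ := Pool.Agent.TH525.FRG.zig m (Pool.Agent.TH525.FRG.res m c i)

theorem P_inj {m c i j : ℕ} (hi : i < m) (hj : j < m) (h : P m c i = P m c j) : i = j := by
  have hm : 0 < m := by omega
  exact Pool.Agent.TH525.FRG.res_inj hi hj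
    (Pool.Agent.TH525.FRG.zig_inj (Pool.Agent.TH525.FRG.res_lt hm)
      (Pool.Agent.TH525.FRG.res_lt hm) h)

theorem P_start {m c i : ℕ} (hi : i < m) (h : c % m = i) : P m c i = 0 := by
  unfold P
  rw [Pool.Agent.TH525.FRG.res_eq hi, h]
  simp [Pool.Agent.TH525.FRG.zig]

theorem P_lt {m c i : ℕ} (hi : i < m) : P m c i < m := by
  have hm : 0 < m := by omega
  have := Pool.Agent.TH525.FRG.res_lt (m := m) (c := c) (i := i) hm
  unfold P Pool.Agent.TH525.FRG.zig
  split_ifs <;> omega

theorem P_final {m i : ℕ} (hi : i < m) : ∃ c < m, P m c i = m - 1 := by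
  refine ⟨(i + (m - (m + 1) / 2)) % m, Nat.mod_lt _ (by omega), ?_⟩
  unfold P
  have h1 : Pool.Agent.TH525.FRG.res m ((i + (m - (m + 1) / 2)) % m) i = ((m + 1) / 2) % m := by
    rw [Pool.Agent.TH525.FRG.res_eq hi, Nat.mod_mod]
    by_cases hm1 : m = 1
    · subst hm1
      have : i = 0 := by omega
      subst this
      simp
    · have h2 : (m + 1) / 2 < m := by omega
      rw [Nat.mod_eq_of_lt h2]
      by_cases h3 : i + (m - (m + 1) / 2) < m
      · rw [Nat.mod_eq_of_lt h3]
        split_ifs with h4
        · omega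
        · omega
      · have h5 : (i + (m - (m + 1) / 2)) % m = i + (m - (m + 1) / 2) - m := by
          rw [Nat.mod_eq_sub_mod (by omega), Nat.mod_eq_of_lt (by omega)]
        rw [h5]
        split_ifs with h4
        · omega
        · omega
  rw [h1]
  unfold Pool.Agent.TH525.FRG.zig
  by_cases hm1 : m = 1
  · subst hm1; simp
  · have h2 : (m + 1) / 2 < m := by omega
    rw [Nat.mod_eq_of_lt h2]
    split_ifs <;> omega

/-- The base colouring: if every vertex has at most four neighbours in every other class, then the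
edges between different classes are coloured with `2 m` colours so that in every colour the edges
join consecutive positions and every vertex has at most one neighbour at every position. -/
theorem base {V : Type} [Finite V] (G : SimpleGraph V) (m : ℕ) (f : V → ℕ)
    (hf : ∀ v, f v < m) (hne : ∀ u v, G.Adj u v → f u ≠ f v)
    (hβ : ∀ u j, {v | G.Adj u v ∧ f v = j}.ncard ≤ 4) :
    ∃ B : ℕ → SimpleGraph V, (∀ c, B c ≤ G) ∧
      (∀ u v, G.Adj u v → ∃ c < 2 * m, (B c).Adj u v) ∧
      (∀ c u v, (B c).Adj u v → P m c (f u) = P m c (f v) + 1 ∨ P m c (f v) = P m c (f u) + 1) ∧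
      (∀ c u v w, (B c).Adj u v → (B c).Adj u w → P m c (f v) = P m c (f w) → v = w) := by
  classical
  obtain ⟨s, hs1, hs2, hs3⟩ := Pool.Agent.TH525.FRG.exists_slots G m 4 f hf hne hβ
  have hm : ∀ u v, G.Adj u v → 2 ≤ m := by
    intro u v h
    have h1 := hne u v h
    have h2 := hf u
    have h3 := hf v
    omega
  set φ : V → V → ℕ := fun u v => (s u v * m + (f u + f v) % m) / 2 with hφ
  have hsym : ∀ u v, G.Adj u v → φ u v = φ v u := by
    intro u v h
    simp only [hφ]
    rw [hs1 u v h, add_comm (f u)]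
  have key : ∀ u v, G.Adj u v → P m (φ u v) (f u) = P m (φ u v) (f v) + 1 ∨
      P m (φ u v) (f v) = P m (φ u v) (f u) + 1 := by
    intro u v h
    have h2 := hm u v h
    apply Pool.Agent.TH525.FRG.zig_adj (Pool.Agent.TH525.FRG.res_lt (by omega))
      (Pool.Agent.TH525.FRG.res_lt (by omega))
    · intro h'
      exact hne u v h (Pool.Agent.TH525.FRG.res_inj (hf u) (hf v) h')
    · apply Pool.Agent.TH525.FRG.res_add (s := s u v) h2 (hf u) (hf v)
      have : φ u v = (s u v * m + (f u + f v) % m) / 2 := rfl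
      omega
  let B : ℕ → SimpleGraph V := fun c =>
    { Adj := fun u v => G.Adj u v ∧ φ u v = c
      symm := ⟨fun u v h => ⟨h.1.symm, by rw [← hsym u v h.1]; exact h.2⟩⟩
      loopless := ⟨fun u h => G.loopless.irrefl u h.1⟩ }
  refine ⟨B, fun c u v h => h.1, ?_, ?_, ?_⟩
  · intro u v h
    refine ⟨φ u v, ?_, h, rfl⟩
    have h1 := hs2 u v h
    have h2 : (s u v + 1) * m ≤ 4 * m := Nat.mul_le_mul_right m h1
    have h3 : (f u + f v) % m < m := Nat.mod_lt _ (by have := hm u v h; omega)
    rw [Nat.add_mul] at h2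
    change (s u v * m + (f u + f v) % m) / 2 < _
    omega
  · rintro c u v ⟨h1, rfl⟩
    exact key u v h1
  · rintro c u v w ⟨hv, hvc⟩ ⟨hw, hwc⟩ h2
    have hm2 := hm u v hv
    have h3 : f v = f w := P_inj (hf v) (hf w) h2
    refine hs3 u v w hv hw h3 ?_
    have h4 : (s u v * m + (f u + f v) % m) / 2 = (s u w * m + (f u + f w) % m) / 2 :=
      hvc.trans hwc.symm
    rw [← h3] at h4
    rcases Nat.lt_trichotomy (s u v) (s u w) with h | h | h
    · have : (s u v + 1) * m ≤ s u w * m := Nat.mul_le_mul_right m h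
      rw [Nat.add_mul] at this
      omega
    · exact h
    · have : (s u w + 1) * m ≤ s u v * m := Nat.mul_le_mul_right m h
      rw [Nat.add_mul] at this
      omega

end Pool.Agent.TH702.LLG
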