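import Pool.Agent.H79.LA.TH702_LLG_Even

set_option autoImplicit false

/-!
The version with an additional class of independent special vertices: `2 m + 1` linear forests.
-/

namespace Pool.Agent.TH702.LLG

open SimpleGraph H931R3.LA

/-- Splitting a bipartite relation with at most four neighbours in every class on one side and at
most two neighbours on the other side. -/
theorem split2 {V : Type} [Finite V] (E : V → V → Prop) (f : V → ℕ) (m : ℕ)
    (hf : ∀ s v, E s v → f v < m)
    (h4 : ∀ s j, {v | E s v ∧ f v = j}.ncard ≤ 4) (h2 : ∀ v, {s | E s v}.ncard ≤ 2) :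
    ∃ ε : V → V → ℕ, (∀ s v, E s v → ε s v < 2) ∧
      (∀ v s s', E s v → E s' v → ε s v = ε s' v → s = s') ∧
      (∀ s j b, {v | E s v ∧ f v = j ∧ ε s v = b}.ncard ≤ 2) := by
  classical
  have := Fintype.ofFinite V
  have hcopy : ∀ s : V, ∀ j : ℕ, ∃ g : V → Fin 4, Set.InjOn g {v | E s v ∧ f v = j} := by
    intro s j
    have hle : ({v | E s v ∧ f v = j} : Set V).encard ≤ (Set.univ : Set (Fin 4)).encard := by
      rw [← Set.Finite.cast_ncard_eq (Set.toFinite {v | E s v ∧ f v = j}),
        ← Set.Finite.cast_ncard_eq (Set.toFinite (Set.univ : Set (Fin 4))), Set.ncard_univ]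
      have := h4 s j
      simp only [Nat.card_eq_fintype_card, Fintype.card_fin]
      exact_mod_cast this
    obtain ⟨g, _, hg⟩ := Set.Finite.exists_injOn_of_encard_le
      (Set.toFinite {v | E s v ∧ f v = j}) hle
    exact ⟨g, hg⟩
  choose g hg using hcopy
  let Γ : SimpleGraph ((V × Fin m × Fin 2) ⊕ V) :=
    { Adj := fun x y => match x, y with
        | Sum.inl b, Sum.inr v => E b.1 v ∧ f v = b.2.1 ∧ (g b.1 (f v) v : ℕ) / 2 = b.2.2
        | Sum.inr v, Sum.inl b => E b.1 v ∧ f v = b.2.1 ∧ (g b.1 (f v) v : ℕ) / 2 = b.2.2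
        | _, _ => False
      symm := ⟨fun x y h => by
        rcases x with x | x <;> rcases y with y | y <;> exact h⟩
      loopless := ⟨fun x h => by
        rcases x with x | x <;> exact h⟩ }
  have hχ : ∀ x y, Γ.Adj x y → x.isLeft ≠ y.isLeft := by
    intro x y h
    rcases x with x | x <;> rcases y with y | y
    · exact absurd h id
    · simp
    · simp
    · exact absurd h id
  have hdeg : ∀ x, Γ.degree x ≤ 2 := by
    intro x
    rw [← SimpleGraph.card_neighborFinset_eq_degree]
    rcases x with ⟨s, j, k⟩ | v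
    · have h1 : ∀ y ∈ Γ.neighborFinset (Sum.inl (s, j, k)), ∃ v, y = Sum.inr v ∧ E s v ∧
          f v = j ∧ (g s (f v) v : ℕ) / 2 = k := by
        intro y hy
        rw [SimpleGraph.mem_neighborFinset] at hy
        rcases y with y | y
        · exact absurd hy id
        · exact ⟨y, rfl, hy⟩
      have h2 : (Γ.neighborFinset (Sum.inl (s, j, k))).card ≤ (Finset.range 2).card := by
        apply Finset.card_le_card_of_injOn
          (fun y => match y with
            | Sum.inl _ => 0
            | Sum.inr v => (g s (f v) v : ℕ) % 2)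
        · intro y hy
          obtain ⟨v, rfl, _⟩ := h1 y hy
          simp only [Finset.coe_range, Set.mem_Iio]
          exact Nat.mod_lt _ (by norm_num)
        · intro y hy z hz hyz
          obtain ⟨v, rfl, hv1, hv2, hv3⟩ := h1 y hy
          obtain ⟨w, rfl, hw1, hw2, hw3⟩ := h1 z hz
          have hyz' : (g s (f v) v : ℕ) % 2 = (g s (f w) w : ℕ) % 2 := hyz
          have hvw : f v = f w := hv2.trans hw2.symm
          have h3 : (g s (f v) v : ℕ) = (g s (f w) w : ℕ) := by omega
          rw [← hvw] at h3
          exact congrArg Sum.inr (hg s (f v) ⟨hv1, rfl⟩ ⟨hw1, hvw.symm⟩ (Fin.ext h3))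
      simpa using h2
    · refine le_trans ?_ (h2 v)
      rw [Set.ncard_eq_toFinset_card']
      apply Finset.card_le_card_of_injOn
        (fun y => match y with
          | Sum.inl b => b.1
          | Sum.inr w => w)
      · intro y hy
        rw [Finset.mem_coe, SimpleGraph.mem_neighborFinset] at hy
        rw [Finset.mem_coe, Set.mem_toFinset]
        rcases y with y | y
        · exact hy.1
        · exact absurd hy id
      · intro y hy z hz hyz
        rw [Finset.mem_coe, SimpleGraph.mem_neighborFinset] at hy hz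
        rcases y with ⟨s, j, k⟩ | y
        · rcases z with ⟨s', j', k'⟩ | z
          · obtain ⟨_, h1, h2⟩ := hy
            obtain ⟨_, h1', h2'⟩ := hz
            have hyz' : s = s' := hyz
            subst hyz'
            have h3 : j = j' := Fin.ext (h1.symm.trans h1')
            have h4 : k = k' := Fin.ext (h2.symm.trans h2')
            rw [h3, h4]
          · exact absurd hz id
        · exact absurd hy id
  obtain ⟨φ, h1, h2', h3⟩ := Pool.Agent.TH525.LAD.konig_graph Γ 2 (fun x => x.isLeft) hχ hdeg
  have hk : ∀ s v, (g s (f v) v : ℕ) / 2 < 2 := by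
    intro s v
    have := (g s (f v) v).2
    omega
  have hmj : ∀ v, f v < m → (f v) % m < m := fun v h => Nat.mod_lt _ (by omega)
  -- the colour
  let ε : V → V → ℕ := fun s v =>
    if h : f v < m then φ (Sum.inl (s, ⟨f v, h⟩, ⟨(g s (f v) v : ℕ) / 2, hk s v⟩)) (Sum.inr v)
    else 0
  have hε : ∀ s v (h : f v < m), ε s v =
      φ (Sum.inl (s, ⟨f v, h⟩, ⟨(g s (f v) v : ℕ) / 2, hk s v⟩)) (Sum.inr v) := by
    intro s v h
    simp only [ε, dif_pos h]
  have hadj : ∀ s v (h : f v < m), E s v →
      Γ.Adj (Sum.inl (s, ⟨f v, h⟩, ⟨(g s (f v) v : ℕ) / 2, hk s v⟩)) (Sum.inr v) := by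
    intro s v h hE
    exact ⟨hE, rfl, rfl⟩
  refine ⟨ε, ?_, ?_, ?_⟩
  · intro s v hE
    rw [hε s v (hf s v hE)]
    exact h2' _ _ (hadj s v _ hE)
  · intro v s s' hE hE' heq
    rw [hε s v (hf s v hE), hε s' v (hf s v hE), h1 _ (Sum.inr v), h1 _ (Sum.inr v)] at heq
    have h5 := h3 _ _ _ (hadj s v (hf s v hE) hE).symm (hadj s' v (hf s v hE) hE').symm heq
    have h6 := Sum.inl.inj h5
    exact congrArg Prod.fst h6
  · intro s j b
    have h5 : Set.InjOn (fun v => (g s j v : ℕ) / 2) {v | E s v ∧ f v = j ∧ ε s v = b} := by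
      rintro v ⟨hv1, hv2, hv3⟩ w ⟨hw1, hw2, hw3⟩ hvw
      have hvw' : (g s j v : ℕ) / 2 = (g s j w : ℕ) / 2 := hvw
      subst hv2
      have hv := hf s v hv1
      have hw : f w < m := hf s w hw1
      rw [hε s v hv] at hv3
      rw [hε s w hw] at hw3
      have e1 : (Sum.inl (s, (⟨f w, hw⟩ : Fin m), (⟨(g s (f w) w : ℕ) / 2, hk s w⟩ : Fin 2)) :
          (V × Fin m × Fin 2) ⊕ V) =
          Sum.inl (s, ⟨f v, hv⟩, ⟨(g s (f v) v : ℕ) / 2, hk s v⟩) := by
        have e2 : (⟨f w, hw⟩ : Fin m) = ⟨f v, hv⟩ := Fin.ext hw2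
        have e3 : (⟨(g s (f w) w : ℕ) / 2, hk s w⟩ : Fin 2) =
            ⟨(g s (f v) v : ℕ) / 2, hk s v⟩ := by
          apply Fin.ext
          simp only [hw2]
          exact hvw'.symm
        rw [e2, e3]
      have h6 := hadj s w hw hw1
      rw [e1] at h6 hw3
      have h7 := h3 _ _ _ (hadj s v hv hv1) h6 (hv3.trans hw3.symm)
      exact Sum.inr.inj h7
    rw [← h5.ncard_image]
    refine le_trans (Set.ncard_le_ncard (t := ↑(Finset.range 2)) ?_ (Finset.finite_toSet _)) ?_
    · rintro _ ⟨v, _, rfl⟩
      simp only [Finset.coe_range, Set.mem_Iio]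
      have := (g s j v).2
      omega
    · rw [Set.ncard_coe_finset, Finset.card_range]

theorem cov_odd {V : Type} [Finite V] (G : SimpleGraph V) (m : ℕ) (f : V → ℕ)
    (hf : ∀ v, f v ≤ m)
    (h4 : ∀ u j, f u < m → j < m → j ≠ f u → {v | G.Adj u v ∧ f v = j}.ncard ≤ 4)
    (h2 : ∀ u, f u < m → {v | G.Adj u v ∧ f v = f u}.ncard ≤ 2)
    (hs0 : ∀ u v, G.Adj u v → f u = m → f v ≠ m)
    (hs4 : ∀ u j, f u = m → j < m → {v | G.Adj u v ∧ f v = j}.ncard ≤ 4)
    (hs2 : ∀ u, f u < m → {v | G.Adj u v ∧ f v = m}.ncard ≤ 2) : Cov G (2 * m + 1) := by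
  classical
  rcases Nat.eq_zero_or_pos m with hm0 | hmpos
  · -- no ordinary vertices
    have hG : G = ⊥ := by
      ext u v
      simp only [bot_adj, iff_false]
      intro h
      have h1 := hf u
      have h2 := hf v
      exact hs0 u v h (by omega) (by omega)
    rw [hG]
    exact cov_bot.mono (Nat.zero_le _)
  -- edges between different ordinary classes
  let f' : V → ℕ := fun v => if f v < m then f v else 0
  have hf'lt : ∀ v, f' v < m := by
    intro v
    simp only [f']
    split_ifs <;> omega
  have hf'eq : ∀ v, f v < m → f' v = f v := fun v h => if_pos h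
  let G0 : SimpleGraph V :=
    { Adj := fun u v => G.Adj u v ∧ f u ≠ f v ∧ f u < m ∧ f v < m
      symm := ⟨fun u v h => ⟨h.1.symm, h.2.1.symm, h.2.2.2, h.2.2.1⟩⟩
      loopless := ⟨fun u h => h.2.1 rfl⟩ }
  obtain ⟨B, hB0, hB1, hB2', hB3'⟩ := base G0 m f' hf'lt (fun u v h => by
      rw [hf'eq u h.2.2.1, hf'eq v h.2.2.2]; exact h.2.1) (by
    intro u j
    by_cases hj : f u < m ∧ j < m ∧ j ≠ f u
    · refine (Set.ncard_le_ncard ?_ (Set.toFinite _)).trans (h4 u j hj.1 hj.2.1 hj.2.2)
      rintro v ⟨hv, hv'⟩
      refine ⟨hv.1, ?_⟩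
      rw [← hf'eq v hv.2.2.2]; exact hv'
    · have : {v | G0.Adj u v ∧ f' v = j} = ∅ := by
        ext v
        simp only [Set.mem_ofPred_eq, Set.mem_empty_iff_false, iff_false]
        rintro ⟨h, h'⟩
        rw [hf'eq v h.2.2.2] at h'
        refine hj ⟨h.2.2.1, ?_, ?_⟩
        · rw [← h']; exact h.2.2.2
        · rw [← h']; exact h.2.1.symm
      rw [this, Set.ncard_empty]
      omega)
  have hB2 : ∀ c u v, (B c).Adj u v → P m c (f u) = P m c (f v) + 1 ∨
      P m c (f v) = P m c (f u) + 1 := by
    intro c u v h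
    have h' := hB0 c h
    have := hB2' c u v h
    rwa [hf'eq u h'.2.2.1, hf'eq v h'.2.2.2] at this
  have hB3 : ∀ c u v w, (B c).Adj u v → (B c).Adj u w → P m c (f v) = P m c (f w) → v = w := by
    intro c u v w hv hw h
    refine hB3' c u v w hv hw ?_
    rw [hf'eq v (hB0 c hv).2.2.2, hf'eq w (hB0 c hw).2.2.2]
    exact h
  -- edges at the special vertices
  let E : V → V → Prop := fun s v => G.Adj s v ∧ f s = m ∧ f v < m
  obtain ⟨ε, hε1, hε2, hε3⟩ := split2 E f m (fun s v h => h.2.2) (by
    intro s j
    by_cases hs : f s = m ∧ j < m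
    · refine (Set.ncard_le_ncard ?_ (Set.toFinite _)).trans (hs4 s j hs.1 hs.2)
      rintro v ⟨hv, hv'⟩
      exact ⟨hv.1, hv'⟩
    · have : {v | E s v ∧ f v = j} = ∅ := by
        ext v
        simp only [Set.mem_ofPred_eq, Set.mem_empty_iff_false, iff_false]
        rintro ⟨h, h'⟩
        exact hs ⟨h.2.1, by rw [← h']; exact h.2.2⟩
      rw [this, Set.ncard_empty]
      omega) (by
    intro v
    by_cases hv : f v < m
    · refine (Set.ncard_le_ncard ?_ (Set.toFinite _)).trans (hs2 v hv)
      intro s hs
      exact ⟨hs.1.symm, hs.2.1⟩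
    · have : {s | E s v} = ∅ := by
        ext s
        simp only [Set.mem_ofPred_eq, Set.mem_empty_iff_false, iff_false]
        intro h
        exact hv h.2.2
      rw [this, Set.ncard_empty]
      omega)
  let N : ℕ → SimpleGraph V := fun c =>
    { Adj := fun u v => (E u v ∧ P m c (f v) = 0 ∧ ε u v = c / m) ∨
        (E v u ∧ P m c (f u) = 0 ∧ ε v u = c / m)
      symm := ⟨fun u v h => h.symm⟩
      loopless := ⟨fun u h => by
        rcases h with h | h
        · exact G.loopless.irrefl u h.1.1
        · exact G.loopless.irrefl u h.1.1⟩ }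
  let F : ℕ → SimpleGraph V := fun c => B c ⊔ N c
  -- at most one special neighbour
  have hN1 : ∀ c u v w, f u < m → (N c).Adj u v → (N c).Adj u w → v = w := by
    intro c u v w hu hv hw
    rcases hv with hv | hv
    · have := hv.1.2.1; omega
    rcases hw with hw | hw
    · have := hw.1.2.1; omega
    exact hε2 u v w hv.1 hw.1 (hv.2.2.trans hw.2.2.symm)
  have hN0 : ∀ c u v, f u < m → (N c).Adj u v → P m c (f u) = 0 ∧ f v = m := by
    intro c u v hu hv
    rcases hv with hv | hv
    · have := hv.1.2.1; omega
    · exact ⟨hv.2.1, hv.1.2.1⟩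
  have hNm : ∀ c u v, f u = m → (N c).Adj u v → P m c (f v) = 0 ∧ f v < m ∧ E u v ∧
      ε u v = c / m := by
    intro c u v hu hv
    rcases hv with hv | hv
    · exact ⟨hv.2.1, hv.1.2.2, hv.1, hv.2.2⟩
    · have := hv.1.2.2; omega
  have hF : ∀ c, IsLF (F c) := by
    intro c
    refine ⟨acyclic_of_rank _ (fun v => if f v < m then P m c (f v) + 1 else 0) ?_, ?_⟩
    · intro u v w hv hw hqv hqw
      rw [sup_adj] at hv hw
      by_cases hu : f u < m
      · simp only [if_pos hu] at hqv hqw
        rcases hv with hv | hv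
        · have h1 := hB2 c u v hv
          have h1' := (hB0 c hv).2.2.2
          rw [if_pos h1'] at hqv
          rcases hw with hw | hw
          · have h2 := hB2 c u w hw
            have h2' := (hB0 c hw).2.2.2
            rw [if_pos h2'] at hqw
            exact hB3 c u v w hv hw (by omega)
          · have h2 := (hN0 c u w hu hw).1
            omega
        · have h1 := (hN0 c u v hu hv).1
          rcases hw with hw | hw
          · have h2 := hB2 c u w hw
            have h2' := (hB0 c hw).2.2.2
            rw [if_pos h2'] at hqw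
            omega
          · exact hN1 c u v w hu hv hw
      · have hum : f u = m := le_antisymm (hf u) (by omega)
        rcases hv with hv | hv
        · exact absurd (hB0 c hv).2.2.1 hu
        · have h1 := hNm c u v hum hv
          simp only [if_neg hu, if_pos h1.2.1] at hqv
          omega
    · intro u
      by_cases hu : f u < m
      · have hsub : (F c).neighborSet u ⊆
            {v | ((B c).Adj u v ∧ P m c (f v) + 1 = P m c (f u)) ∨ (N c).Adj u v} ∪
            {v | (B c).Adj u v ∧ P m c (f v) = P m c (f u) + 1} := by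
          intro v hv
          rw [mem_neighborSet, sup_adj] at hv
          rcases hv with hv | hv
          · rcases hB2 c u v hv with h | h
            · exact Or.inl (Or.inl ⟨hv, h.symm⟩)
            · exact Or.inr ⟨hv, h⟩
          · exact Or.inl (Or.inr hv)
        have h1 : ({v | ((B c).Adj u v ∧ P m c (f v) + 1 = P m c (f u)) ∨ (N c).Adj u v} :
            Set V).ncard ≤ 1 := by
          apply ncard_le_one_of
          rintro a (⟨ha, ha'⟩ | ha) b (⟨hb, hb'⟩ | hb)
          · exact hB3 c u a b ha hb (by omega)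
          · have := (hN0 c u b hu hb).1; omega
          · have := (hN0 c u a hu ha).1; omega
          · exact hN1 c u a b hu ha hb
        have h2 : ({v | (B c).Adj u v ∧ P m c (f v) = P m c (f u) + 1} : Set V).ncard ≤ 1 := by
          apply ncard_le_one_of
          rintro a ⟨ha, ha'⟩ b ⟨hb, hb'⟩
          exact hB3 c u a b ha hb (by omega)
        have h3 := Set.ncard_le_ncard hsub (Set.toFinite _)
        have h5 := Set.ncard_union_le
          {v | ((B c).Adj u v ∧ P m c (f v) + 1 = P m c (f u)) ∨ (N c).Adj u v}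
          {v | (B c).Adj u v ∧ P m c (f v) = P m c (f u) + 1}
        omega
      · have hum : f u = m := le_antisymm (hf u) (by omega)
        refine (Set.ncard_le_ncard ?_ (Set.toFinite _)).trans (hε3 u (c % m) (c / m))
        intro v hv
        rw [mem_neighborSet, sup_adj] at hv
        rcases hv with hv | hv
        · exact absurd (hB0 c hv).2.2.1 hu
        · obtain ⟨h1, h2, h3, h5⟩ := hNm c u v hum hv
          refine ⟨h3, ?_, h5⟩
          have hcm : c % m < m := Nat.mod_lt _ hmpos
          exact P_inj h2 hcm (h1.trans (P_start hcm rfl).symm)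
  -- edges inside the ordinary classes
  let D : SimpleGraph V :=
    { Adj := fun u v => G.Adj u v ∧ f u = f v ∧ f u < m ∧ f v < m
      symm := ⟨fun u v h => ⟨h.1.symm, h.2.1.symm, h.2.2.2, h.2.2.1⟩⟩
      loopless := ⟨fun u h => G.loopless.irrefl u h.1⟩ }
  have hD2 : ∀ u, (D.neighborSet u).ncard ≤ 2 := by
    intro u
    by_cases hu : f u < m
    · refine (Set.ncard_le_ncard ?_ (Set.toFinite _)).trans (h2 u hu)
      intro v hv
      exact ⟨hv.1, hv.2.1.symm⟩
    · have : D.neighborSet u = ∅ := by
        ext v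
        rw [mem_neighborSet, Set.mem_empty_iff_false, iff_false]
        intro h
        exact hu h.2.2.1
      rw [this, Set.ncard_empty]
      omega
  have htwo : ∀ u a b c, D.Adj u a → D.Adj u b → a ≠ b → D.Adj u c → c = a ∨ c = b := by
    intro u a b c ha hb hab hc
    by_contra hcon
    push Not at hcon
    have h3 : ({a, b, c} : Set V) ⊆ D.neighborSet u := by
      intro x hx
      simp only [Set.mem_insert_iff, Set.mem_singleton_iff] at hx
      rcases hx with rfl | rfl | rfl
      · exact ha
      · exact hb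
      · exact hc
    have h5 := Set.ncard_le_ncard h3 (Set.toFinite _)
    have h6 : ({a, b, c} : Set V).ncard = 3 := by
      rw [Set.ncard_eq_three]
      exact ⟨a, b, c, hab, hcon.1.symm, hcon.2.symm, rfl⟩
    have := hD2 u
    omega
  let D' : ℕ → SimpleGraph V := fun c =>
    { Adj := fun u v => D.Adj u v ∧ P m c (f u) = m - 1 ∧ P m c (f v) = m - 1
      symm := ⟨fun u v h => ⟨h.1.symm, h.2.2, h.2.1⟩⟩
      loopless := ⟨fun u h => D.loopless.irrefl u h.1⟩ }
  have hT := fun c => exists_ext (F c) (D' c) (hF c)
  choose T hTD hTF hText using hT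
  let R : SimpleGraph V :=
    { Adj := fun u v => D.Adj u v ∧ ∀ c < m, ¬ (T c).Adj u v
      symm := ⟨fun u v h => ⟨h.1.symm, fun c hc h' => h.2 c hc h'.symm⟩⟩
      loopless := ⟨fun u h => D.loopless.irrefl u h.1⟩ }
  have hR : IsLF R := by
    constructor
    · intro v w hw
      -- every vertex on the cycle has no `T`-edge
      have hno : ∀ y ∈ w.support, ∀ c < m, ∀ x, ¬ (T c).Adj y x := by
        intro y hy c hc x hx
        obtain ⟨p, q, hpq, hp, hq, _, _⟩ := cycle_nbrs R w hw y hy
        rcases htwo y p q x hp.1 hq.1 hpq (hTD c hx).1 with rfl | rfl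
        · exact hp.2 c hc hx
        · exact hq.2 c hc hx
      have ha : v ∈ w.support := w.start_mem_support
      obtain ⟨b, b', hbb, hb, hb', hbs, hbs'⟩ := cycle_nbrs R w hw v ha
      have hfv : f v < m := hb.1.2.2.1
      obtain ⟨c, hcm, hPc⟩ := P_final hfv
      have hdeg : ∀ y ∈ w.support, f y = f v → ((F c ⊔ T c).neighborSet y).ncard ≤ 1 := by
        intro y hys hy
        have hym : f y < m := by omega
        have hyT := hno y hys c hcm
        apply ncard_le_one_of
        intro x hx z hz
        rw [mem_neighborSet, sup_adj, sup_adj] at hx hz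
        have hPy : P m c (f y) = m - 1 := by rw [hy]; exact hPc
        rcases hx with (hx | hx) | hx
        · have h5 := hB2 c y x hx
          have h6 : P m c (f x) < m := P_lt (hB0 c hx).2.2.2
          rcases hz with (hz | hz) | hz
          · have h7 := hB2 c y z hz
            have h8 : P m c (f z) < m := P_lt (hB0 c hz).2.2.2
            exact hB3 c y x z hx hz (by omega)
          · have h7 := (hN0 c y z hym hz).1
            omega
          · exact absurd hz (hyT z)
        · have h5 := (hN0 c y x hym hx).1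
          rcases hz with (hz | hz) | hz
          · have h7 := hB2 c y z hz
            have h8 : P m c (f z) < m := P_lt (hB0 c hz).2.2.2
            omega
          · exact hN1 c y x z hym hx hz
          · exact absurd hz (hyT z)
        · exact absurd hx (hyT x)
      have h6 := hText c v b b' hbb ⟨hb.1, hPc, by rw [← hb.1.2.1]; exact hPc⟩
        ⟨hb'.1, hPc, by rw [← hb'.1.2.1]; exact hPc⟩ (hdeg v ha rfl)
        (hdeg b hbs hb.1.2.1.symm) (hdeg b' hbs' hb'.1.2.1.symm)
      rcases h6 with h6 | h6
      · exact hno v ha c hcm _ h6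
      · exact hno v ha c hcm _ h6
    · intro u
      refine (Set.ncard_le_ncard ?_ (Set.toFinite _)).trans (hD2 u)
      intro v hv
      exact hv.1
  -- the forests
  let C : Fin (2 * m + 1) → SimpleGraph V := fun c =>
    if (c : ℕ) < m then F c ⊔ T c else if (c : ℕ) < 2 * m then F c else R
  refine ⟨C, ?_, ?_⟩
  · intro c
    by_cases hc : (c : ℕ) < m
    · simp only [C, if_pos hc]
      exact hTF c
    · by_cases hc' : (c : ℕ) < 2 * m
      · simp only [C, if_neg hc, if_pos hc']
        exact hF c
      · simp only [C, if_neg hc, if_neg hc']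
        exact hR
  · have hFC : ∀ c (hc : c < 2 * m) u v, (F c).Adj u v →
        (C ⟨c, by omega⟩).Adj u v := by
      intro c hc u v h
      by_cases hcm : c < m
      · simp only [C, if_pos hcm]
        rw [sup_adj]
        exact Or.inl h
      · simp only [C, if_neg hcm, if_pos hc]
        exact h
    have hFG : ∀ c u v, (F c).Adj u v → G.Adj u v := by
      intro c u v h
      rw [sup_adj] at h
      rcases h with h | h | h
      · exact (hB0 c h).1
      · exact h.1.1
      · exact h.1.1.symm
    ext u v
    rw [iSup_adj]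
    constructor
    · rintro ⟨c, hc⟩
      by_cases hcm : (c : ℕ) < m
      · simp only [C, if_pos hcm] at hc
        rw [sup_adj] at hc
        rcases hc with hc | hc
        · exact hFG _ _ _ hc
        · exact (hTD c hc).1.1
      · by_cases hcm' : (c : ℕ) < 2 * m
        · simp only [C, if_neg hcm, if_pos hcm'] at hc
          exact hFG _ _ _ hc
        · simp only [C, if_neg hcm, if_neg hcm'] at hc
          exact hc.1.1
    · intro huv
      have hspec : ∀ s v, E s v → ∃ c : Fin (2 * m + 1), (C c).Adj s v := by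
        intro s v hE
        have h5 := hε1 s v hE
        have h6 : f v < m := hE.2.2
        have h7 : ε s v * m + f v < 2 * m := by
          have : (ε s v + 1) * m ≤ 2 * m := Nat.mul_le_mul_right m h5
          rw [Nat.add_mul] at this
          omega
        refine ⟨_, hFC (ε s v * m + f v) h7 s v ?_⟩
        rw [sup_adj]
        refine Or.inr (Or.inl ⟨hE, ?_, ?_⟩)
        · refine P_start h6 ?_
          rw [Nat.add_comm, Nat.add_mul_mod_self_right, Nat.mod_eq_of_lt h6]
        · rw [Nat.add_comm, Nat.add_mul_div_right _ _ hmpos, Nat.div_eq_of_lt h6, Nat.zero_add]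
      by_cases hu : f u < m
      · by_cases hv : f v < m
        · by_cases hfuv : f u = f v
          · by_cases hT' : ∃ c < m, (T c).Adj u v
            · obtain ⟨c, hcm, hc⟩ := hT'
              refine ⟨⟨c, by omega⟩, ?_⟩
              simp only [C, if_pos hcm]
              rw [sup_adj]
              exact Or.inr hc
            · push Not at hT'
              refine ⟨⟨2 * m, by omega⟩, ?_⟩
              have h8 : ¬ 2 * m < m := by omega
              have h9 : ¬ 2 * m < 2 * m := by omega
              simp only [C, if_neg h8, if_neg h9]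
              exact ⟨⟨huv, hfuv, hu, hv⟩, hT'⟩
          · obtain ⟨c, hc, hcB⟩ := hB1 u v ⟨huv, hfuv, hu, hv⟩
            refine ⟨_, hFC c hc u v ?_⟩
            rw [sup_adj]
            exact Or.inl hcB
        · have hvm : f v = m := le_antisymm (hf v) (by omega)
          obtain ⟨c, hc⟩ := hspec v u ⟨huv.symm, hvm, hu⟩
          exact ⟨c, hc.symm⟩
      · have hum : f u = m := le_antisymm (hf u) (by omega)
        have hvm := hs0 u v huv hum
        exact hspec u v ⟨huv, hum, lt_of_le_of_ne (hf v) hvm⟩

end Pool.Agent.TH702.LLG
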