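import Pool.Agent.H79.LA.V11153_LA_Multi
import Pool.Agent.H79.LA.TH525_FRG_Basic

set_option autoImplicit false

/-!
Colourings in which every vertex has at most `β` neighbours of every other colour and at most one
neighbour of its own colour.
-/

namespace Pool.Agent.V11153.LA

open SimpleGraph H931R3.LA Pool.Agent.W111.LAR Pool.Agent.TH525.FRG

/-- The `c`-th zigzag path of the `β`-fold complete graph. -/
def FZ (m β c : ℕ) : SimpleGraph (Fin m) where
  Adj i j := i ≠ j ∧ ∃ s < β, (s * m + (i.val + j.val) % m) / 2 = c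
  symm := ⟨fun i j h => ⟨h.1.symm, by rw [Nat.add_comm j.val i.val]; exact h.2⟩⟩
  loopless := ⟨fun _ h => h.1 rfl⟩

theorem fz_step {m β c : ℕ} {i j : Fin m} (h : (FZ m β c).Adj i j) :
    zig m (res m c i) = zig m (res m c j) + 1 ∨ zig m (res m c j) = zig m (res m c i) + 1 := by
  obtain ⟨hne, s, _, hs⟩ := h
  have hne' : i.val ≠ j.val := fun h' => hne (Fin.ext h')
  have hi := i.2
  have hj := j.2
  apply zig_adj (res_lt (by omega)) (res_lt (by omega))
  · intro h'
    exact hne' (res_inj hi hj h')
  · exact res_add (s := s) (by omega) hi hj (by omega)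

theorem fz_inj {m c : ℕ} {i j : Fin m} (h : zig m (res m c i) = zig m (res m c j)) : i = j := by
  have hi := i.2
  have hj := j.2
  exact Fin.ext (res_inj hi hj (zig_inj (res_lt (by omega)) (res_lt (by omega)) h))

theorem fz_lf (m β c : ℕ) : IsLF (FZ m β c) := by
  refine isLF_of_rank _ (fun i => zig m (res m c i)) ?_ ?_ ?_
  · intro u v h
    rcases fz_step h with h1 | h1 <;> omega
  · intro u v w hv hw h1 h2
    rcases fz_step hv with h3 | h3 <;> rcases fz_step hw with h4 | h4 <;>
      first | omega | exact fz_inj (c := c) (by omega)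
  · intro u v w hv hw h1 h2
    rcases fz_step hv with h3 | h3 <;> rcases fz_step hw with h4 | h4 <;>
      first | omega | exact fz_inj (c := c) (by omega)

theorem fz_count {m β k : ℕ} (hk : (β * m + 1) / 2 ≤ k) {i j : Fin m} (hij : i ≠ j) :
    {c : Fin k | (FZ m β c).Adj i j}.ncard = β := by
  classical
  have hne' : i.val ≠ j.val := fun h' => hij (Fin.ext h')
  have hi := i.2
  have hj := j.2
  have hm : 2 ≤ m := by omega
  have hr : (i.val + j.val) % m < m := Nat.mod_lt _ (by omega)
  have hlt : ∀ s : Fin β, (s.val * m + (i.val + j.val) % m) / 2 < k := by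
    intro s
    have h1 : (s.val + 1) * m ≤ β * m := Nat.mul_le_mul_right m s.2
    have h2 : (s.val + 1) * m = s.val * m + m := by ring
    omega
  let φ : Fin β → Fin k := fun s => ⟨_, hlt s⟩
  have hinj : Function.Injective φ := by
    intro s t h
    have h1 : (s.val * m + (i.val + j.val) % m) / 2 = (t.val * m + (i.val + j.val) % m) / 2 :=
      congrArg Fin.val h
    rcases Nat.lt_trichotomy s.val t.val with h2 | h2 | h2
    · have h3 : (s.val + 1) * m ≤ t.val * m := Nat.mul_le_mul_right m h2
      have h4 : (s.val + 1) * m = s.val * m + m := by ring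
      omega
    · exact Fin.ext h2
    · have h3 : (t.val + 1) * m ≤ s.val * m := Nat.mul_le_mul_right m h2
      have h4 : (t.val + 1) * m = t.val * m + m := by ring
      omega
  have hset : {c : Fin k | (FZ m β c).Adj i j} = Set.range φ := by
    ext c
    constructor
    · rintro ⟨_, s, hs, h⟩
      exact ⟨⟨s, hs⟩, Fin.ext h⟩
    · rintro ⟨s, rfl⟩
      exact ⟨hij, s.val, s.2, rfl⟩
  rw [hset, ← Set.image_univ, Set.ncard_image_of_injective _ hinj, Set.ncard_univ,
    Nat.card_eq_fintype_card, Fintype.card_fin]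

theorem fz_deg {m β k : ℕ} (hk : (β * m + 1) / 2 ≤ k) (i : Fin m) :
    ∑ c : Fin k, ((FZ m β c).neighborSet i).ncard = β * (m - 1) := by
  classical
  have h1 : ∀ c : Fin k, ((FZ m β c).neighborSet i).ncard =
      ∑ j ∈ Finset.univ.erase i, if (FZ m β c).Adj i j then 1 else 0 := by
    intro c
    rw [← Finset.sum_filter, Finset.sum_const, smul_eq_mul, mul_one, ← Set.ncard_coe_finset]
    congr 1
    ext j
    simp only [Finset.coe_filter, Finset.mem_erase, Finset.mem_univ, and_true, mem_neighborSet,
      Set.mem_ofPred_eq]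
    exact ⟨fun h => ⟨h.ne', h⟩, fun h => h.2⟩
  rw [Finset.sum_congr rfl fun c _ => h1 c, Finset.sum_comm]
  have h2 : ∀ j ∈ Finset.univ.erase i, (∑ c : Fin k, if (FZ m β c).Adj i j then 1 else 0) = β := by
    intro j hj
    rw [← Finset.sum_filter, Finset.sum_const, smul_eq_mul, mul_one, ← Set.ncard_coe_finset]
    refine Eq.trans ?_ (fz_count hk (Finset.ne_of_mem_erase hj).symm)
    congr 1
    ext c
    simp
  rw [Finset.sum_congr rfl h2, Finset.sum_const, Finset.card_erase_of_mem (Finset.mem_univ _),
    Finset.card_univ, Fintype.card_fin, smul_eq_mul, mul_comm]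

/-- Frugal colourings with a matching inside the colour classes. -/
theorem cov_frugal_one {V : Type} [Finite V] (X : SimpleGraph V) (m β k : ℕ) (f : V → Fin m)
    (hk : (β * m + 1) / 2 ≤ k) (hk' : β * (m - 1) + 2 ≤ 2 * k)
    (h : ∀ u j, j ≠ f u → {v | X.Adj u v ∧ f v = j}.ncard ≤ β)
    (h1 : ∀ u, {v | X.Adj u v ∧ f v = f u}.ncard ≤ 1) : Cov X k := by
  refine cov_multi X k (fun c => FZ m β c) (fun c => fz_lf m β c) ?_ f ?_ h1
  · intro j
    rw [fz_deg hk]
    exact hk'
  · intro u j hj
    rw [fz_count hk hj.symm]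
    exact h u j hj

end Pool.Agent.V11153.LA
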