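import Pool.Agent.H79.LA.V11153_LA_Weak
import Pool.Agent.H79.LA.TH525_FRG_Quot

set_option autoImplicit false

/-!
Quotient multigraphs with a matching inside the fibres.
-/

namespace Pool.Agent.V11153.LA

open SimpleGraph H931R3.LA Pool.Agent.W111.LAR

/-- The choice of free slots for a family of linear forests (the proof of
`H931R3.LA.exists_sel`). -/
theorem exists_sel_fam {V : Type} [Fintype V] (F : ℕ → SimpleGraph V) (k : ℕ)
    (hc : ∀ i, IsLF (F i))
    (hdeg : ∀ v, (∑ i ∈ Finset.range k, ((F i).neighborSet v).ncard) + 2 ≤ 2 * k) :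
    ∃ sel : V → Bool → ℕ, (∀ v x, sel v x < k) ∧
      (∀ v x, ((F (sel v x)).neighborSet v).ncard ≤ 1) ∧
      (∀ v, sel v false = sel v true → ((F (sel v false)).neighborSet v).ncard = 0) ∧
      (∀ v w x, sel v x = sel w x → (F (sel v x)).Reachable v w → v = w) := by
  classical
  have hslots : ∀ v, ∃ s : Bool → ℕ, (∀ b, s b < k) ∧
      (∀ b, ((F (s b)).neighborSet v).ncard ≤ 1) ∧
      (s false = s true → ((F (s false)).neighborSet v).ncard = 0) := by
    intro v
    exact two_slots (fun i => ((F i).neighborSet v).ncard) k (fun i => (hc i).2 v) (hdeg v)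
  choose slot hs1 hs2 hs3 using hslots
  let κ : V × Bool → ℕ × Set V := fun s =>
    (slot s.1 s.2, {w | (F (slot s.1 s.2)).Reachable s.1 w})
  have hκ : ∀ s s' : V × Bool, κ s = κ s' → slot s.1 s.2 = slot s'.1 s'.2 ∧
      (F (slot s.1 s.2)).Reachable s.1 s'.1 := by
    intro s s' h
    have h1 : slot s.1 s.2 = slot s'.1 s'.2 := congrArg Prod.fst h
    have h2 : {w | (F (slot s.1 s.2)).Reachable s.1 w} =
        {w | (F (slot s'.1 s'.2)).Reachable s'.1 w} := congrArg Prod.snd h
    refine ⟨h1, ?_⟩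
    have h3 : s'.1 ∈ {w | (F (slot s'.1 s'.2)).Reachable s'.1 w} := Reachable.refl _
    rw [← h2] at h3
    exact h3
  -- both slots of a vertex in the same colour
  have hboth : ∀ s s' : V × Bool, s ≠ s' → s.1 = s'.1 → slot s.1 s.2 = slot s'.1 s'.2 →
      ((F (slot s.1 s.2)).neighborSet s.1).ncard = 0 := by
    rintro ⟨v, b⟩ ⟨w, b'⟩ hne hv hsl
    dsimp only at hv hsl ⊢
    subst hv
    cases b <;> cases b'
    · exact absurd rfl hne
    · exact hs3 v hsl
    · have := hs3 v hsl.symm
      rw [hsl]; exact this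
    · exact absurd rfl hne
  obtain ⟨col, hcol1, hcol2⟩ := two_col (Finset.univ : Finset V) κ (by
    intro s₁ s₂ s₃ _ _ _ h12 h13 h23 e12 e13
    obtain ⟨i12, r12⟩ := hκ s₁ s₂ e12
    obtain ⟨i13, r13⟩ := hκ s₁ s₃ e13
    have d1 := hs2 s₁.1 s₁.2
    have d2 : ((F (slot s₁.1 s₁.2)).neighborSet s₂.1).ncard ≤ 1 := by
      rw [i12]; exact hs2 s₂.1 s₂.2
    have d3 : ((F (slot s₁.1 s₁.2)).neighborSet s₃.1).ncard ≤ 1 := by
      rw [i13]; exact hs2 s₃.1 s₃.2
    have pairne : ∀ s s' s'' : V × Bool, s ≠ s' → s ≠ s'' → s' ≠ s'' → s.1 = s'.1 →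
        s''.1 = s.1 → False := by
      rintro ⟨a, x⟩ ⟨b, y⟩ ⟨d, z⟩ h1 h2 h3 h4 h5
      dsimp only at h4 h5
      subst h4; subst h5
      cases x <;> cases y <;> cases z <;> simp_all
    by_cases e1 : s₁.1 = s₂.1
    · have z := hboth s₁ s₂ h12 e1 i12
      have := eq_of_deg_zero _ _ _ z r13
      exact pairne s₁ s₂ s₃ h12 h13 h23 e1 this.symm
    · by_cases e2 : s₁.1 = s₃.1
      · have z := hboth s₁ s₃ h13 e2 i13
        have := eq_of_deg_zero _ _ _ z r12
        exact e1 this
      · by_cases e3 : s₂.1 = s₃.1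
        · have z := hboth s₂ s₃ h23 e3 (i12.symm.trans i13)
          rw [← i12] at z
          have := eq_of_deg_zero _ _ _ z r12.symm
          exact e1 this.symm
        · exact three_ends _ (hc _) s₁.1 s₂.1 s₃.1 e1 e2 e3 d1 d2 d3 r12 r13)
  -- relabel
  let pick : V → Bool → Bool := fun v x => if col (v, false) = x then false else true
  have hpick : ∀ v x, col (v, pick v x) = x := by
    intro v x
    have h1 := hcol1 v (Finset.mem_univ v)
    by_cases h : col (v, false) = x
    · have : pick v x = false := if_pos h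
      rw [this, h]
    · have : pick v x = true := if_neg h
      rw [this]
      revert h h1
      cases col (v, false) <;> cases col (v, true) <;> cases x <;> simp
  have hpick2 : ∀ v, pick v false ≠ pick v true := by
    intro v h
    have h1 := hpick v false
    rw [h, hpick v true] at h1
    exact absurd h1 (by simp)
  refine ⟨fun v x => slot v (pick v x), fun v x => hs1 _ _, fun v x => hs2 _ _, ?_, ?_⟩
  · intro v h
    exact hboth (v, pick v false) (v, pick v true)
      (fun h' => hpick2 v (congrArg Prod.snd h')) rfl h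
  · intro v w x h hr
    change slot v (pick v x) = slot w (pick w x) at h
    change (F (slot v (pick v x))).Reachable v w at hr
    by_contra hvw
    have hne : ((v, pick v x) : V × Bool) ≠ (w, pick w x) := fun h' => hvw (congrArg Prod.fst h')
    have hk : κ (v, pick v x) = κ (w, pick w x) := by
      refine Prod.ext h ?_
      show {u | (F (slot v (pick v x))).Reachable v u} =
        {u | (F (slot w (pick w x))).Reachable w u}
      rw [← h]
      ext u
      show (F (slot v (pick v x))).Reachable v u ↔ (F (slot v (pick v x))).Reachable w u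
      exact ⟨fun hu => hr.symm.trans hu, fun hu => hr.trans hu⟩
    have := hcol2 _ _ (Finset.mem_univ _) (Finset.mem_univ _) hne hk
    rw [hpick, hpick] at this
    exact this rfl


/-- The classes of the quotient theorem `TH525.FRG.cov_quot`. -/
theorem quot_classes {V W : Type} [Finite V] [Finite W] (G : SimpleGraph V) (k : ℕ)
    (F : Fin k → SimpleGraph W) (f : V → W)
    (h : ∀ u j, {v | G.Adj u v ∧ f v = j}.ncard ≤ {c | (F c).Adj (f u) j}.ncard) :
    ∃ P : Fin k → SimpleGraph V, (∀ c u v, (P c).Adj u v → G.Adj u v ∧ (F c).Adj (f u) (f v)) ∧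
      (∀ c u v w, (P c).Adj u v → (P c).Adj u w → f v = f w → v = w) ∧
      ∀ u v, G.Adj u v → ∃ c, (P c).Adj u v := by
  classical
  have := Fintype.ofFinite V
  have hsymT : ∀ i j : W, {c | (F c).Adj i j} = {c | (F c).Adj j i} := by
    intro i j
    ext c
    exact (F c).adj_comm i j
  let β : Sym2 W → Finset (Fin k) := fun e => Finset.univ.filter (fun c => e ∈ (F c).edgeSet)
  have hβ' : ∀ i j, (β s(i, j)).card = {c | (F c).Adj i j}.ncard := by
    intro i j
    rw [Set.ncard_eq_toFinset_card']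
    congr 1
    ext c
    simp [β]
  have hne : ∀ u v, G.Adj u v → f u ≠ f v := by
    intro u v huv hf
    have h1 := h u (f v)
    have h2 : {c | (F c).Adj (f u) (f v)} = ∅ := by
      ext c
      simp only [Set.mem_ofPred_eq, Set.mem_empty_iff_false, iff_false]
      rw [hf]
      exact (F c).loopless.irrefl _
    rw [h2, Set.ncard_empty, Nat.le_zero, Set.ncard_eq_zero (Set.toFinite _)] at h1
    have h3 : v ∈ {w | G.Adj u w ∧ f w = f v} := ⟨huv, rfl⟩
    rw [h1] at h3
    exact h3
  obtain ⟨s, hs1, hs2, hs3⟩ := TH525.FRG.exists_slots2 G f (fun e => (β e).card) hne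
    (fun u j => by rw [hβ']; exact h u j)
  let φ : V → V → ℕ := fun u v => TH525.FRG.nthOf (β s(f u, f v)) (s u v)
  have hφs : ∀ u v, φ u v = φ v u := by
    intro u v
    simp only [φ]
    rw [Sym2.eq_swap, hs1]
  have hφ : ∀ u v, G.Adj u v → ∃ c : Fin k, φ u v = c ∧ (F c).Adj (f u) (f v) := by
    intro u v huv
    obtain ⟨c, hc, e⟩ := TH525.FRG.nthOf_spec _ (hs2 u v huv)
    refine ⟨c, e, ?_⟩
    simpa [β] using hc
  let P : Fin k → SimpleGraph V := fun c =>
    { Adj := fun u v => G.Adj u v ∧ φ u v = c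
      symm := ⟨fun u v h => ⟨h.1.symm, by rw [← hφs u v]; exact h.2⟩⟩
      loopless := ⟨fun u h => G.loopless.irrefl u h.1⟩ }
  refine ⟨P, ?_, ?_, ?_⟩
  · rintro c u v ⟨huv, e2⟩
    refine ⟨huv, ?_⟩
    obtain ⟨c', e, hc'⟩ := hφ u v huv
    have : c' = c := Fin.ext (by rw [← e, e2])
    rw [← this]; exact hc'
  · intro c u v w hv hw hf
    refine hs3 u v w hv.1 hw.1 hf ?_
    have e1 : TH525.FRG.nthOf (β s(f u, f v)) (s u v) = c := hv.2
    have e2 : TH525.FRG.nthOf (β s(f u, f w)) (s u w) = c := hw.2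
    have h1 := hs2 u v hv.1
    have h2 := hs2 u w hw.1
    rw [← hf] at e2 h2
    exact TH525.FRG.nthOf_inj _ h1 h2 (by rw [e1, e2])
  · intro u v huv
    obtain ⟨c, e, _⟩ := hφ u v huv
    exact ⟨c, huv, e⟩

/-- **Quotient multigraphs with a matching in the fibres.** Let `F 0, …, F (k-1)` be linear forests
on `W` of total degree at most `2 k - 2` at every vertex, and let `f : V → W` be such that every
vertex `u` of `X` has at most as many neighbours over `j ≠ f u` as there are forests containing the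
edge `f u, j`, and at most one neighbour over `f u`. Then `X` is the union of `k` linear forests. -/
theorem cov_multi {V W : Type} [Finite V] [Finite W] (X : SimpleGraph V) (k : ℕ)
    (F : Fin k → SimpleGraph W) (hF : ∀ c, IsLF (F c))
    (hdeg : ∀ j, (∑ c, ((F c).neighborSet j).ncard) + 2 ≤ 2 * k) (f : V → W)
    (h : ∀ u j, j ≠ f u → {v | X.Adj u v ∧ f v = j}.ncard ≤ {c | (F c).Adj (f u) j}.ncard)
    (h1 : ∀ u, {v | X.Adj u v ∧ f v = f u}.ncard ≤ 1) : Cov X k := by
  classical
  have := Fintype.ofFinite V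
  have := Fintype.ofFinite W
  -- the horizontal part
  let Xh : SimpleGraph V :=
    { Adj := fun u v => X.Adj u v ∧ f u ≠ f v
      symm := ⟨fun _ _ h => ⟨h.1.symm, h.2.symm⟩⟩
      loopless := ⟨fun u h => h.2 rfl⟩ }
  let Xv : SimpleGraph V :=
    { Adj := fun u v => X.Adj u v ∧ f u = f v
      symm := ⟨fun _ _ h => ⟨h.1.symm, h.2.symm⟩⟩
      loopless := ⟨fun u h => h.1.ne rfl⟩ }
  obtain ⟨P, hP1, hP2, hP3⟩ := quot_classes Xh k F f (by
    intro u j
    by_cases hj : j = f u
    · have : {v | Xh.Adj u v ∧ f v = j} = ∅ := by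
        ext v
        simp only [Set.mem_ofPred_eq, Set.mem_empty_iff_false, iff_false]
        rintro ⟨h2, h3⟩
        exact h2.2 (hj ▸ h3.symm)
      rw [this, Set.ncard_empty]
      exact Nat.zero_le _
    · refine le_trans (Set.ncard_le_ncard ?_ (Set.toFinite _)) (h u j hj)
      rintro v ⟨h2, h3⟩
      exact ⟨h2.1, h3⟩)
  -- the free slots
  let F' : ℕ → SimpleGraph W := fun i => if hi : i < k then F ⟨i, hi⟩ else ⊥
  have hF' : ∀ c : Fin k, F' c.val = F c := by
    intro c
    show (if hi : c.val < k then F ⟨c.val, hi⟩ else ⊥) = F c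
    rw [dif_pos c.2]
  have hlf : ∀ i, IsLF (F' i) := by
    intro i
    by_cases hi : i < k
    · have := hF' ⟨i, hi⟩
      rw [this]
      exact hF _
    · have : F' i = ⊥ := dif_neg hi
      rw [this]
      exact isLF_bot
  obtain ⟨sel, s0, s1, _, s3⟩ := exists_sel_fam F' k hlf (by
    intro v
    refine le_trans (le_of_eq ?_) (hdeg v)
    congr 1
    rw [Finset.sum_range]
    exact Finset.sum_congr rfl fun c _ => by rw [hF'])
  refine ⟨fun c => glue (P c ⊔ Xv) (F c) f (fun v => sel v false = c.val), ?_, ?_⟩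
  · intro c
    refine glue_lf (hF c) ?_ ?_ ?_
    · intro x y z hy hz hyz
      rcases hy with hy | hy <;> rcases hz with hz | hz
      · exact hP2 c x y z hy hz hyz
      · exact absurd (hz.2.trans hyz.symm) (hP1 c x y hy).1.2
      · exact absurd (hy.2.trans hyz) (hP1 c x z hz).1.2
      · by_contra hne
        have h2 : ({y, z} : Set V) ⊆ {v | X.Adj x v ∧ f v = f x} := by
          rintro w (rfl | rfl)
          · exact ⟨hy.1, hy.2.symm⟩
          · exact ⟨hz.1, hz.2.symm⟩
        have h3 := Set.ncard_le_ncard h2 (Set.toFinite _)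
        rw [Set.ncard_pair hne] at h3
        have := h1 x
        omega
    · intro v hv
      rw [← hF', ← hv]
      exact s1 v false
    · intro v w hv hw hr
      refine s3 v w false (hv.trans hw.symm) ?_
      rw [hv, hF']
      exact hr
  · ext x y
    rw [iSup_adj]
    constructor
    · rintro ⟨i, hi, _⟩
      rcases hi with hi | hi
      · exact (hP1 _ _ _ hi).1.1
      · exact hi.1
    · intro hxy
      by_cases hf : f x = f y
      · exact ⟨⟨sel (f x) false, s0 _ _⟩, Or.inr ⟨hxy, hf⟩, Or.inr ⟨hf, rfl⟩⟩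
      · obtain ⟨c, hc⟩ := hP3 x y ⟨hxy, hf⟩
        exact ⟨c, Or.inl hc, Or.inl (hP1 c x y hc).2⟩

/-- Blow-ups: at most `β` neighbours over every neighbour of the image. -/
theorem cov_blow {V W : Type} [Finite V] [Finite W] (X : SimpleGraph V) (G : SimpleGraph W)
    (k β : ℕ) (hG : Cov G k) (hdeg : ∀ j, β * (G.neighborSet j).ncard + 2 ≤ 2 * (β * k)) (f : V → W)
    (hom : ∀ u v, X.Adj u v → f u = f v ∨ G.Adj (f u) (f v))
    (h : ∀ u j, j ≠ f u → {v | X.Adj u v ∧ f v = j}.ncard ≤ β)
    (h1 : ∀ u, {v | X.Adj u v ∧ f v = f u}.ncard ≤ 1) : Cov X (β * k) := by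
  classical
  obtain ⟨c, hlt, hc⟩ := exists_col hG
  refine cov_multi X (β * k) (fun i => cls G c (finProdFinEquiv.symm i).2.val) (fun i => hc _) ?_ f
    ?_ h1
  · intro j
    refine le_trans (le_of_eq ?_) (hdeg j)
    congr 1
    rw [Equiv.sum_comp finProdFinEquiv.symm
      (fun i : Fin β × Fin k => ((cls G c i.2.val).neighborSet j).ncard), Fintype.sum_prod_type]
    simp only [Finset.sum_const, Finset.card_univ, Fintype.card_fin, smul_eq_mul]
    congr 1
    rw [← sum_cls G c k hlt j, Finset.sum_range]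
  · intro u j hj
    by_cases hadj : G.Adj (f u) j
    · refine (h u j hj).trans ?_
      have h2 : Function.Injective
          (fun b : Fin β => finProdFinEquiv (b, (⟨c s(f u, j), hlt _ _ hadj⟩ : Fin k))) := by
        intro b b' hb
        exact congrArg Prod.fst (finProdFinEquiv.injective hb)
      have h3 : Set.range
          (fun b : Fin β => finProdFinEquiv (b, (⟨c s(f u, j), hlt _ _ hadj⟩ : Fin k))) ⊆
          {i | (cls G c (finProdFinEquiv.symm i).2.val).Adj (f u) j} := by
        rintro _ ⟨b, rfl⟩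
        show (cls G c (finProdFinEquiv.symm (finProdFinEquiv (b, _))).2.val).Adj (f u) j
        rw [Equiv.symm_apply_apply]
        exact ⟨hadj, rfl⟩
      refine le_trans (le_of_eq ?_) (Set.ncard_le_ncard h3 (Set.toFinite _))
      rw [← Set.image_univ, Set.ncard_image_of_injective _ h2, Set.ncard_univ,
        Nat.card_eq_fintype_card, Fintype.card_fin]
    · have : {v | X.Adj u v ∧ f v = j} = ∅ := by
        ext v
        simp only [Set.mem_ofPred_eq, Set.mem_empty_iff_false, iff_false]
        rintro ⟨h2, h3⟩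
        rcases hom u v h2 with h4 | h4
        · exact hj (h3 ▸ h4.symm)
        · exact hadj (h3 ▸ h4)
      rw [this, Set.ncard_empty]
      exact Nat.zero_le _

end Pool.Agent.V11153.LA
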