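import Pool.Agent.H79.LA.Y647_LAC_Even
import Pool.Agent.H79.LA.TH486_LAC_Lift
import Pool.Agent.H79.LA.W111_LAR_Top

set_option autoImplicit false

/-!
Linear arboricity and weak locally injective homomorphisms: every neighbour of a vertex is mapped to
a neighbour of its image or to the image itself, and different neighbours have different images.
-/

namespace Pool.Agent.V11153.LA

open SimpleGraph H931R3.LA Pool.Agent.W111.LAR

variable {V W : Type}

/-- The edges of `X` over the edges of `F`, together with the edges of `X` inside the fibres of the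
vertices with `p`. -/
def glue (X : SimpleGraph W) (F : SimpleGraph V) (π : W → V) (p : V → Prop) : SimpleGraph W where
  Adj x y := X.Adj x y ∧ (F.Adj (π x) (π y) ∨ (π x = π y ∧ p (π x)))
  symm.symm := by
    rintro x y ⟨h, h1 | ⟨h1, h2⟩⟩
    · exact ⟨h.symm, Or.inl h1.symm⟩
    · exact ⟨h.symm, Or.inr ⟨h1.symm, h1 ▸ h2⟩⟩
  loopless.irrefl x h := h.1.ne rfl

variable [Finite V] [Finite W] {X : SimpleGraph W} {F : SimpleGraph V} {π : W → V} {p : V → Prop}

open Classical in
theorem glue_maps (x : W) : π '' ((glue X F π p).neighborSet x) ⊆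
    F.neighborSet (π x) ∪ (if p (π x) then {π x} else ∅) := by
  rintro _ ⟨y, ⟨_, h | ⟨h1, h2⟩⟩, rfl⟩
  · exact Or.inl h
  · right
    rw [if_pos h2, ← h1]
    rfl

theorem glue_inj (hinj : ∀ x y z, X.Adj x y → X.Adj x z → π y = π z → y = z) (x : W) :
    Set.InjOn π ((glue X F π p).neighborSet x) := fun _ hy _ hz h => hinj x _ _ hy.1 hz.1 h

open Classical in
theorem tgt_card (hF : IsLF F) (hp : ∀ v, p v → (F.neighborSet v).ncard ≤ 1) (v : V) :
    (F.neighborSet v ∪ (if p v then {v} else ∅) : Set V).ncard ≤ 2 := by
  refine (Set.ncard_union_le _ _).trans ?_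
  by_cases h : p v
  · have h1 := hp v h
    rw [if_pos h, Set.ncard_singleton]
    omega
  · have h1 := hF.2 v
    rw [if_neg h, Set.ncard_empty]
    omega

theorem glue_deg (hF : IsLF F) (hinj : ∀ x y z, X.Adj x y → X.Adj x z → π y = π z → y = z)
    (hp : ∀ v, p v → (F.neighborSet v).ncard ≤ 1) (x : W) :
    ((glue X F π p).neighborSet x).ncard ≤ 2 := by
  classical
  rw [← (glue_inj (F := F) (p := p) hinj x).ncard_image]
  exact (Set.ncard_le_ncard (glue_maps x) (Set.toFinite _)).trans (tgt_card hF hp _)

/-- A component of a forest cannot have exactly one vertex of odd degree. -/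
theorem odd_single {v q : V} (hr : F.Reachable v q)
    (hodd : ∀ w, F.Reachable v w → (Odd (F.neighborSet w).ncard ↔ w = q)) : False := by
  classical
  have := Fintype.ofFinite V
  let K : SimpleGraph V :=
    { Adj := fun a b => F.Adj a b ∧ F.Reachable v a
      symm := ⟨fun a b h => ⟨h.1.symm, h.2.trans h.1.reachable⟩⟩
      loopless := ⟨fun a h => h.1.ne rfl⟩ }
  have hdeg : ∀ a, K.degree a = if F.Reachable v a then (F.neighborSet a).ncard else 0 := by
    intro a
    rw [← card_neighborFinset_eq_degree]
    by_cases h : F.Reachable v a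
    · rw [if_pos h, ← Set.ncard_coe_finset]
      congr 1
      ext b
      simp only [Finset.mem_coe, mem_neighborFinset, mem_neighborSet]
      exact ⟨fun h' => h'.1, fun h' => ⟨h', h⟩⟩
    · rw [if_neg h, Finset.card_eq_zero]
      ext b
      simp only [mem_neighborFinset, Finset.notMem_empty, iff_false]
      exact fun h' => h h'.2
  have h1 := K.even_card_odd_degree_vertices
  have h2 : (Finset.univ.filter fun w => Odd (K.degree w)) = {q} := by
    ext w
    simp only [Finset.mem_filter, Finset.mem_univ, true_and, Finset.mem_singleton]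
    rw [hdeg]
    by_cases h : F.Reachable v w
    · rw [if_pos h]
      exact hodd w h
    · rw [if_neg h]
      constructor
      · intro h'
        simp at h'
      · rintro rfl
        exact absurd hr h
  rw [h2] at h1
  simp at h1

theorem glue_lf (hF : IsLF F) (hinj : ∀ x y z, X.Adj x y → X.Adj x z → π y = π z → y = z)
    (hp : ∀ v, p v → (F.neighborSet v).ncard ≤ 1)
    (hone : ∀ v w, p v → p w → F.Reachable v w → v = w) : IsLF (glue X F π p) := by
  classical
  refine ⟨?_, glue_deg hF hinj hp⟩
  intro x c hc
  have hcyc : ∀ w, (glue X F π p).Reachable x w → ((glue X F π p).neighborSet w).ncard = 2 :=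
    fun w hw => ((closed_cycle le_rfl (glue_deg hF hinj hp) hc) w hw).2.1
  -- all targets are hit
  have hfull : ∀ w, (glue X F π p).Reachable x w →
      π '' ((glue X F π p).neighborSet w) =
        F.neighborSet (π w) ∪ (if p (π w) then {π w} else ∅) ∧
      (F.neighborSet (π w) ∪ (if p (π w) then {π w} else ∅) : Set V).ncard = 2 := by
    intro w hw
    have h1 := (glue_inj (F := F) (p := p) hinj w).ncard_image
    rw [hcyc w hw] at h1
    have h2 := tgt_card hF hp (π w)
    have h3 := Set.eq_of_subset_of_ncard_le (glue_maps (X := X) (F := F) (p := p) w)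
      (by rw [h1]; exact h2) (Set.toFinite _)
    exact ⟨h3, by rw [← h3, h1]⟩
  have hreach : ∀ q, F.Reachable (π x) q → ∃ w, (glue X F π p).Reachable x w ∧ π w = q := by
    rintro q ⟨P⟩
    have key : ∀ {a b : V} (_ : F.Walk a b) (w : W), (glue X F π p).Reachable x w → π w = a →
        ∃ w', (glue X F π p).Reachable x w' ∧ π w' = b := by
      intro a b P
      induction P with
      | nil => exact fun w hw ha => ⟨w, hw, ha⟩
      | cons hadj P ih =>
        rename_i a a' b
        intro w hw ha
        have h1 : a' ∈ π '' ((glue X F π p).neighborSet w) := by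
          rw [(hfull w hw).1, ha]
          exact Or.inl hadj
        obtain ⟨w', hw', ha'⟩ := h1
        exact ih w' (hw.trans (Adj.reachable hw')) ha'
    exact key P x (Reachable.refl x) rfl
  have hdeg : ∀ q, F.Reachable (π x) q → (p q → (F.neighborSet q).ncard = 1) ∧
      (¬ p q → (F.neighborSet q).ncard = 2) := by
    intro q hq
    obtain ⟨w, hw, rfl⟩ := hreach q hq
    have h2 := (hfull w hw).2
    constructor
    · intro h
      rw [if_pos h] at h2
      have h3 := Set.ncard_union_le (F.neighborSet (π w)) {π w}
      rw [h2, Set.ncard_singleton] at h3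
      have h4 := hp _ h
      omega
    · intro h
      rwa [if_neg h, Set.union_empty] at h2
  by_cases hex : ∃ q, F.Reachable (π x) q ∧ p q
  · obtain ⟨q, hq, hpq⟩ := hex
    refine odd_single hq fun w hw => ?_
    constructor
    · intro h
      by_contra hne
      have hnp : ¬ p w := fun h' => hne (hone w q h' hpq (hw.symm.trans hq))
      rw [(hdeg w hw).2 hnp] at h
      exact absurd h (by decide)
    · rintro rfl
      rw [(hdeg w hw).1 hpq]
      exact odd_one
  · push Not at hex
    obtain ⟨w, c', hc', _⟩ := exists_cycle (H := F) (v := π x)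
      (fun w hw => (hdeg w hw).2 (hex w hw))
    exact hF.1 c' hc'

/-- A weak locally injective homomorphism into a graph with free room at every vertex. -/
theorem cov_weak {X : SimpleGraph W} {G : SimpleGraph V} {k : ℕ} (hG : Cov G k)
    (hdeg : ∀ v, (G.neighborSet v).ncard + 2 ≤ 2 * k) (π : W → V)
    (hom : ∀ x y, X.Adj x y → π x = π y ∨ G.Adj (π x) (π y))
    (hinj : ∀ x y z, X.Adj x y → X.Adj x z → π y = π z → y = z) : Cov X k := by
  classical
  have := Fintype.ofFinite V
  obtain ⟨c, hlt, hc⟩ := exists_col hG
  obtain ⟨sel, s0, s1, _, s3⟩ := exists_sel G k c hlt hc hdeg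
  refine ⟨fun i => glue X (cls G c i.val) π (fun v => sel v false = i.val), ?_, ?_⟩
  · intro i
    refine glue_lf (hc i.val) hinj ?_ ?_
    · intro v hv
      rw [← hv]
      exact s1 v false
    · intro v w hv hw hr
      refine s3 v w false (hv.trans hw.symm) ?_
      rw [hv]
      exact hr
  · ext x y
    rw [iSup_adj]
    constructor
    · rintro ⟨i, hi⟩
      exact hi.1
    · intro h
      rcases hom x y h with h1 | h1
      · exact ⟨⟨sel (π x) false, s0 _ _⟩, h, Or.inr ⟨h1, rfl⟩⟩
      · exact ⟨⟨c s(π x, π y), hlt _ _ h1⟩, h, Or.inl ⟨h1, rfl⟩⟩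

end Pool.Agent.V11153.LA
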