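import Mathlib

set_option autoImplicit false

/-!
Sets with small boundary in regular graphs of large girth: minimal ones are disjoint, and each of
them contains a vertex far from the complement.
-/

namespace Pool.Agent.W111.LAR

open Finset SimpleGraph

section cut

variable {V : Type} [Fintype V] [DecidableEq V] (G : SimpleGraph V) [DecidableRel G.Adj]

/-- The number of adjacent pairs. -/
def wt (A B : Finset V) : ℕ := ∑ u ∈ A, ∑ v ∈ B, if G.Adj u v then 1 else 0

theorem wt_comm (A B : Finset V) : wt G A B = wt G B A := by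
  unfold wt
  rw [sum_comm]
  refine sum_congr rfl fun u _ => sum_congr rfl fun v _ => ?_
  by_cases h : G.Adj v u
  · rw [if_pos h, if_pos h.symm]
  · rw [if_neg h, if_neg (fun h' => h h'.symm)]

theorem wt_union_left {A A' : Finset V} (B : Finset V) (h : Disjoint A A') :
    wt G (A ∪ A') B = wt G A B + wt G A' B := by
  unfold wt
  exact sum_union h

theorem wt_union_right (A : Finset V) {B B' : Finset V} (h : Disjoint B B') :
    wt G A (B ∪ B') = wt G A B + wt G A B' := by
  rw [wt_comm, wt_union_left G A h, wt_comm G B A, wt_comm G B' A]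

/-- The number of boundary edges. -/
def cut (A : Finset V) : ℕ := wt G A Aᶜ

theorem posimod (A B : Finset V) : cut G (A \ B) + cut G (B \ A) ≤ cut G A + cut G B := by
  set A1 := A \ B with hA1
  set B1 := B \ A with hB1
  set I := A ∩ B with hI
  set O := (A ∪ B)ᶜ with hO
  have dA1I : Disjoint A1 I := by
    rw [Finset.disjoint_left]; intro x hx hx'
    simp only [hA1, hI, mem_sdiff, mem_inter] at hx hx'; tauto
  have dB1I : Disjoint B1 I := by
    rw [Finset.disjoint_left]; intro x hx hx'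
    simp only [hB1, hI, mem_sdiff, mem_inter] at hx hx'; tauto
  have dB1O : Disjoint B1 O := by
    rw [Finset.disjoint_left]; intro x hx hx'
    simp only [hB1, hO, mem_sdiff, mem_compl, mem_union] at hx hx'; tauto
  have dA1O : Disjoint A1 O := by
    rw [Finset.disjoint_left]; intro x hx hx'
    simp only [hA1, hO, mem_sdiff, mem_compl, mem_union] at hx hx'; tauto
  have dIB1O : Disjoint I (B1 ∪ O) := by
    rw [Finset.disjoint_left]; intro x hx hx'
    simp only [hB1, hI, hO, mem_sdiff, mem_compl, mem_union, mem_inter] at hx hx'; tauto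
  have dIA1O : Disjoint I (A1 ∪ O) := by
    rw [Finset.disjoint_left]; intro x hx hx'
    simp only [hA1, hI, hO, mem_sdiff, mem_compl, mem_union, mem_inter] at hx hx'; tauto
  have eA : A = A1 ∪ I := by
    ext x; simp only [hA1, hI, mem_sdiff, mem_inter, mem_union]; tauto
  have eB : B = B1 ∪ I := by
    ext x; simp only [hB1, hI, mem_sdiff, mem_inter, mem_union]; tauto
  have eAc : Aᶜ = B1 ∪ O := by
    ext x; simp only [hB1, hO, mem_sdiff, mem_compl, mem_union]; tauto
  have eBc : Bᶜ = A1 ∪ O := by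
    ext x; simp only [hA1, hO, mem_sdiff, mem_compl, mem_union]; tauto
  have eA1c : A1ᶜ = I ∪ (B1 ∪ O) := by
    ext x; simp only [hA1, hB1, hI, hO, mem_sdiff, mem_compl, mem_union, mem_inter]; tauto
  have eB1c : B1ᶜ = I ∪ (A1 ∪ O) := by
    ext x; simp only [hA1, hB1, hI, hO, mem_sdiff, mem_compl, mem_union, mem_inter]; tauto
  have cA : cut G A = (wt G A1 B1 + wt G A1 O) + (wt G I B1 + wt G I O) := by
    unfold cut
    rw [eAc]
    nth_rewrite 1 [eA]
    rw [wt_union_left G _ dA1I, wt_union_right G _ dB1O, wt_union_right G _ dB1O]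
  have cB : cut G B = (wt G B1 A1 + wt G B1 O) + (wt G I A1 + wt G I O) := by
    unfold cut
    rw [eBc]
    nth_rewrite 1 [eB]
    rw [wt_union_left G _ dB1I, wt_union_right G _ dA1O, wt_union_right G _ dA1O]
  have cA1 : cut G A1 = wt G A1 I + (wt G A1 B1 + wt G A1 O) := by
    unfold cut
    rw [eA1c, wt_union_right G _ dIB1O, wt_union_right G _ dB1O]
  have cB1 : cut G B1 = wt G B1 I + (wt G B1 A1 + wt G B1 O) := by
    unfold cut
    rw [eB1c, wt_union_right G _ dIA1O, wt_union_right G _ dA1O]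
  rw [cA, cB, cA1, cB1, wt_comm G A1 I, wt_comm G B1 I]
  omega

/-- A minimal set with fewer than `r` boundary edges. -/
def Mini (r : ℕ) (K : Finset V) : Prop :=
  K.Nonempty ∧ cut G K < r ∧ ∀ K' ⊂ K, K'.Nonempty → r ≤ cut G K'

theorem mini_disj {r : ℕ} {A B : Finset V} (hA : Mini G r A) (hB : Mini G r B) (hne : A ≠ B) :
    Disjoint A B := by
  by_contra hd
  have hI : (A ∩ B).Nonempty := by
    rw [nonempty_iff_ne_empty]
    exact fun h => hd (disjoint_iff_inter_eq_empty.2 h)
  obtain ⟨z, hz⟩ := hI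
  obtain ⟨hzA, hzB⟩ := mem_inter.1 hz
  have h1 : (A \ B).Nonempty := by
    rw [sdiff_nonempty]
    intro hsub
    have := hB.2.2 A (hsub.ssubset_of_ne hne) hA.1
    have := hA.2.1
    omega
  have h2 : (B \ A).Nonempty := by
    rw [sdiff_nonempty]
    intro hsub
    have := hA.2.2 B (hsub.ssubset_of_ne hne.symm) hB.1
    have := hB.2.1
    omega
  have h3 : A \ B ⊂ A := by
    refine ⟨sdiff_subset, fun h => ?_⟩
    exact (mem_sdiff.1 (h hzA)).2 hzB
  have h4 : B \ A ⊂ B := by
    refine ⟨sdiff_subset, fun h => ?_⟩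
    exact (mem_sdiff.1 (h hzB)).2 hzA
  have h5 := hA.2.2 _ h3 h1
  have h6 := hB.2.2 _ h4 h2
  have h7 := posimod G A B
  have h8 := hA.2.1
  have h9 := hB.2.1
  omega

theorem exists_mini {r : ℕ} {X : Finset V} (hX : X.Nonempty) (hc : cut G X < r) :
    ∃ K ⊆ X, Mini G r K := by
  obtain ⟨K, hK, hmin⟩ := exists_min_image
    ((X.powerset).filter (fun K => K.Nonempty ∧ cut G K < r)) (fun K => K.card)
    ⟨X, mem_filter.2 ⟨mem_powerset_self X, hX, hc⟩⟩
  obtain ⟨h1, h2, h3⟩ := mem_filter.1 hK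
  refine ⟨K, mem_powerset.1 h1, h2, h3, fun K' hK' hne => ?_⟩
  by_contra hlt
  have h4 := hmin K' (mem_filter.2 ⟨mem_powerset.2 (hK'.1.trans (mem_powerset.1 h1)), hne,
    by omega⟩)
  have h5 := card_lt_card hK'
  omega

end cut

/-- A short walk between adjacent vertices contains their edge. -/
theorem short_edge {V : Type} {G : SimpleGraph V} {g : ℕ}
    (hcyc : ∀ (v : V) (c : G.Walk v v), c.IsCycle → g ≤ c.length) {u v : V} (h : G.Adj u v)
    (W : G.Walk u v) (hW : W.length + 1 < g) : s(u, v) ∈ W.edges := by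
  classical
  have h1 : W.bypass.IsPath := W.bypass_isPath
  have h2 : h.toWalk.IsPath := by
    simp [SimpleGraph.Adj.toWalk, Walk.cons_isPath_iff, h.ne]
  by_cases he : W.bypass = h.toWalk
  · refine W.edges_bypass_subset_edges ?_
    rw [he]
    simp [SimpleGraph.Adj.toWalk]
  · exfalso
    obtain ⟨w, -, -, c, hc, hl⟩ := h1.exists_isCycle_length_le_add_of_ne h2 he
    have h3 := hcyc w c hc
    have h4 := W.length_bypass_le_length
    have h5 : h.toWalk.length = 1 := by simp [SimpleGraph.Adj.toWalk]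
    omega

theorem deep {V : Type} [Fintype V] [DecidableEq V] (G : SimpleGraph V) [DecidableRel G.Adj]
    (r R : ℕ) (hr : 3 ≤ r) (hR : 1 ≤ R) (hreg : ∀ v, (G.neighborSet v).ncard = r)
    (hcyc : ∀ (v : V) (c : G.Walk v v), c.IsCycle → 4 * R - 1 ≤ c.length) (K : Finset V)
    (hK : K.Nonempty) (hcut : cut G K < r) :
    ∃ y ∈ K, ∀ (w : V) (p : G.Walk y w), p.length ≤ R → w ∈ K := by
  classical
  by_contra hcon
  push Not at hcon
  have hex : ∀ y, ∃ n, ∃ w, w ∉ K ∧ ∃ p : G.Walk y w, p.length = n := by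
    intro y
    by_cases hy : y ∈ K
    · obtain ⟨w, p, _, hw⟩ := hcon y hy
      exact ⟨_, w, hw, p, rfl⟩
    · exact ⟨0, y, hy, Walk.nil, rfl⟩
  let δ : V → ℕ := fun y => Nat.find (hex y)
  have δspec : ∀ y, ∃ w, w ∉ K ∧ ∃ p : G.Walk y w, p.length = δ y := fun y => Nat.find_spec (hex y)
  have δmin : ∀ y w (p : G.Walk y w), w ∉ K → δ y ≤ p.length := fun y w p hw =>
    Nat.find_min' (hex y) ⟨w, hw, p, rfl⟩
  have δR : ∀ y ∈ K, δ y ≤ R := by
    intro y hy
    obtain ⟨w, p, hp, hw⟩ := hcon y hy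
    exact (δmin y w p hw).trans hp
  have hpar : ∀ y, y ∈ K → ∃ u, G.Adj y u ∧ δ u < δ y := by
    intro y hy
    obtain ⟨w, hw, p, hp⟩ := δspec y
    cases p with
    | nil => exact absurd hy hw
    | @cons _ u _ h q =>
      refine ⟨u, h, ?_⟩
      have := δmin u w q hw
      rw [Walk.length_cons] at hp
      omega
  choose! par hpar1 hpar2 using hpar
  have hroot : ∀ n, ∀ y, y ∈ K → δ y ≤ n → ∃ a, a ∈ K ∧ par a ∉ K ∧ ∃ p : G.Walk y a,
      p.length + 1 ≤ n ∧ ∀ e ∈ p.edges, ∃ z, z ∈ K ∧ par z ∈ K ∧ e = s(z, par z) := by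
    intro n
    induction n with
    | zero =>
      intro y hy h0
      have := hpar2 y hy
      omega
    | succ n ih =>
      intro y hy hn
      have h1 := hpar2 y hy
      by_cases hp : par y ∈ K
      · obtain ⟨a, ha, ha', p, hpl, hpe⟩ := ih (par y) hp (by omega)
        refine ⟨a, ha, ha', Walk.cons (hpar1 y hy) p, ?_, ?_⟩
        · rw [Walk.length_cons]; omega
        · intro e he
          rw [Walk.edges_cons, List.mem_cons] at he
          rcases he with he | he
          · exact ⟨y, hy, hp, he⟩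
          · exact hpe e he
      · refine ⟨y, hy, hp, Walk.nil, ?_, ?_⟩
        · simp
        · intro e he
          simp at he
  have hroot' : ∀ y, y ∈ K → ∃ a, a ∈ K ∧ par a ∉ K ∧ ∃ p : G.Walk y a,
      p.length + 1 ≤ R ∧ ∀ e ∈ p.edges, ∃ z, z ∈ K ∧ par z ∈ K ∧ e = s(z, par z) :=
    fun y hy => hroot R y hy (δR y hy)
  choose! root hr1 hr2 tw hw1 hw2 using hroot'
  -- tree pairs
  let TP : V → V → Prop := fun u v => par u = v ∨ par v = u
  have htree : ∀ u v, u ∈ K → v ∈ K → ∀ e, e = s(u, v) →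
      (∃ z, z ∈ K ∧ par z ∈ K ∧ e = s(z, par z)) → TP u v := by
    rintro u v _ _ e he ⟨z, _, _, hz⟩
    rw [he] at hz
    rcases Sym2.eq_iff.1 hz with ⟨h1, h2⟩ | ⟨h1, h2⟩
    · left; rw [h1, h2]
    · right; rw [h1, h2]
  have hoff : ∀ u v, u ∈ K → v ∈ K → G.Adj u v → ¬ TP u v → root u ≠ root v := by
    intro u v hu hv huv hnt hrr
    let W : G.Walk u v := (tw u hu).append ((tw v hv).reverse.copy hrr.symm rfl)
    have hWl : W.length + 1 < 4 * R - 1 := by
      have h1 := hw1 u hu
      have h2 := hw1 v hv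
      simp only [W, Walk.length_append, Walk.length_copy, Walk.length_reverse]
      omega
    have h3 := short_edge hcyc huv W hWl
    simp only [W, Walk.edges_append, Walk.edges_copy, Walk.edges_reverse, List.mem_append,
      List.mem_reverse] at h3
    rcases h3 with h3 | h3
    · exact hnt (htree u v hu hv _ rfl (hw2 u hu _ h3))
    · exact hnt (htree u v hu hv _ rfl (hw2 v hv _ h3))
  have hinj : ∀ u v u' v', u ∈ K → v ∈ K → u' ∈ K → v' ∈ K → G.Adj u v → G.Adj u' v' →
      ¬ TP u v → root u = root u' → root v = root v' → u = u' ∧ v = v' := by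
    intro u v u' v' hu hv hu' hv' huv huv' hnt h1 h2
    let W : G.Walk u v := (tw u hu).append (((tw u' hu').reverse.copy h1.symm rfl).append
      ((Walk.cons huv' (tw v' hv')).append ((tw v hv).reverse.copy h2 rfl)))
    have hWl : W.length + 1 < 4 * R - 1 := by
      have h1 := hw1 u hu
      have h2 := hw1 v hv
      have h3 := hw1 u' hu'
      have h4 := hw1 v' hv'
      simp only [W, Walk.length_append, Walk.length_copy, Walk.length_reverse, Walk.length_cons]
      omega
    have h3 := short_edge hcyc huv W hWl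
    simp only [W, Walk.edges_append, Walk.edges_copy, Walk.edges_reverse, List.mem_append,
      List.mem_reverse, Walk.edges_cons, List.cons_append, List.mem_cons] at h3
    rcases h3 with h3 | h3 | h3 | h3 | h3
    · exact absurd (htree u v hu hv _ rfl (hw2 u hu _ h3)) hnt
    · exact absurd (htree u v hu hv _ rfl (hw2 u' hu' _ h3)) hnt
    · rcases Sym2.eq_iff.1 h3 with h4 | ⟨h4, h5⟩
      · exact h4
      · exfalso
        refine hoff u v hu hv huv hnt ?_
        rw [h2, ← h4]
    · exact absurd (htree u v hu hv _ rfl (hw2 v' hv' _ h3)) hnt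
    · exact absurd (htree u v hu hv _ rfl (hw2 v hv _ h3)) hnt
  -- counting
  set N := K.filter (fun u => par u ∈ K) with hN
  set Q := K.filter (fun u => par u ∉ K) with hQ
  have hNQ : N.card + Q.card = K.card := card_filter_add_card_filter_not _
  set D := (K ×ˢ K).filter (fun x => G.Adj x.1 x.2) with hD
  have hwD : wt G K K = D.card := by
    rw [wt, hD, card_filter, sum_product]
  have hDt : (D.filter (fun x => TP x.1 x.2)).card ≤ 2 * N.card := by
    have hsub : D.filter (fun x => TP x.1 x.2) ⊆ N.image (fun u => (u, par u)) ∪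
        N.image (fun u => (par u, u)) := by
      rintro ⟨u, v⟩ hx
      obtain ⟨h1, h2⟩ := mem_filter.1 hx
      obtain ⟨h3, _⟩ := mem_filter.1 h1
      obtain ⟨hu, hv⟩ := mem_product.1 h3
      dsimp only at h2 hu hv
      rcases h2 with h2 | h2
      · refine mem_union_left _ (mem_image.2 ⟨u, mem_filter.2 ⟨hu, ?_⟩, ?_⟩)
        · rw [h2]; exact hv
        · rw [h2]
      · refine mem_union_right _ (mem_image.2 ⟨v, mem_filter.2 ⟨hv, ?_⟩, ?_⟩)
        · rw [h2]; exact hu
        · rw [h2]
    refine (card_le_card hsub).trans ((card_union_le _ _).trans ?_)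
    have h1 := card_image_le (s := N) (f := fun u => (u, par u))
    have h2 := card_image_le (s := N) (f := fun u => (par u, u))
    omega
  have hDn : (D.filter (fun x => ¬ TP x.1 x.2)).card ≤ Q.card * Q.card - Q.card := by
    rw [← offDiag_card]
    refine card_le_card_of_injOn (fun x => (root x.1, root x.2)) ?_ ?_
    · rintro ⟨u, v⟩ hx
      rw [mem_coe] at hx
      obtain ⟨h1, h2⟩ := mem_filter.1 hx
      obtain ⟨h3, h4⟩ := mem_filter.1 h1
      obtain ⟨hu, hv⟩ := mem_product.1 h3
      rw [mem_coe, mem_offDiag]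
      exact ⟨mem_filter.2 ⟨hr1 u hu, hr2 u hu⟩, mem_filter.2 ⟨hr1 v hv, hr2 v hv⟩,
        hoff u v hu hv h4 h2⟩
    · rintro ⟨u, v⟩ hx ⟨u', v'⟩ hx' heq
      rw [mem_coe] at hx hx'
      obtain ⟨h1, h2⟩ := mem_filter.1 hx
      obtain ⟨h3, h4⟩ := mem_filter.1 h1
      obtain ⟨hu, hv⟩ := mem_product.1 h3
      obtain ⟨h1', h2'⟩ := mem_filter.1 hx'
      obtain ⟨h3', h4'⟩ := mem_filter.1 h1'
      obtain ⟨hu', hv'⟩ := mem_product.1 h3'
      have h5 := Prod.ext_iff.1 heq
      obtain ⟨h6, h7⟩ := hinj u v u' v' hu hv hu' hv' h4 h4' h2 h5.1 h5.2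
      exact Prod.ext h6 h7
  have hDD : (D.filter (fun x => TP x.1 x.2)).card + (D.filter (fun x => ¬ TP x.1 x.2)).card =
      D.card := card_filter_add_card_filter_not _
  have hQcut : Q.card ≤ cut G K := by
    have h1 : Q.card = ∑ u ∈ Q, 1 := by simp
    have h2 : ∑ u ∈ Q, 1 ≤ ∑ u ∈ Q, ∑ v ∈ Kᶜ, (if G.Adj u v then 1 else 0) := by
      refine sum_le_sum fun u hu => ?_
      obtain ⟨huK, hup⟩ := mem_filter.1 hu
      have h3 : par u ∈ Kᶜ := mem_compl.2 hup
      refine le_trans ?_ (single_le_sum (f := fun v => if G.Adj u v then 1 else 0)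
        (fun v _ => Nat.zero_le _) h3)
      simp [hpar1 u huK]
    have h3 : ∑ u ∈ Q, ∑ v ∈ Kᶜ, (if G.Adj u v then 1 else 0) ≤ cut G K :=
      sum_le_sum_of_subset (filter_subset _ _)
    omega
  have hQpos : 1 ≤ Q.card := by
    obtain ⟨y, hy⟩ := hK
    exact card_pos.2 ⟨root y, mem_filter.2 ⟨hr1 y hy, hr2 y hy⟩⟩
  have hdeg : wt G K K + cut G K = r * K.card := by
    have h1 : wt G K K + cut G K = wt G K (K ∪ Kᶜ) :=
      (wt_union_right G K disjoint_compl_right).symm
    rw [h1, union_compl, wt]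
    have h2 : ∀ u ∈ K, (∑ v, if G.Adj u v then 1 else 0) = r := by
      intro u _
      rw [← card_filter, ← hreg u, Set.ncard_eq_toFinset_card']
      congr 1
      ext v
      simp
    rw [sum_congr rfl h2, sum_const, smul_eq_mul, mul_comm]
  have hDle : D.card ≤ K.card * K.card - K.card := by
    rw [← offDiag_card]
    refine card_le_card ?_
    rintro ⟨u, v⟩ hx
    obtain ⟨h3, h4⟩ := mem_filter.1 hx
    obtain ⟨hu, hv⟩ := mem_product.1 h3
    exact mem_offDiag.2 ⟨hu, hv, h4.ne⟩
  have hKpos : 1 ≤ K.card := card_pos.2 hK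
  rw [hwD] at hdeg
  generalize K.card = n at *
  generalize Q.card = q at *
  generalize N.card = m at *
  generalize D.card = d at *
  have e1 : q * q - q + q = q * q := Nat.sub_add_cancel (by nlinarith)
  have e2 : n * n - n + n = n * n := Nat.sub_add_cancel (by nlinarith)
  -- everything over the integers
  have f1 : (r : ℤ) * n ≤ (r - 1) + (n * n - n) := by
    have : r * n + n ≤ (r - 1) + n * n := by omega
    zify [show 1 ≤ r by omega] at this
    linarith
  have f2 : (r : ℤ) * n ≤ (r - 1) + 2 * (n - q) + (q * q - q) := by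
    have : r * n + q ≤ (r - 1) + 2 * m + q * q := by omega
    zify [show 1 ≤ r by omega] at this
    have h3 : (m : ℤ) = n - q := by omega
    rw [h3] at this
    linarith
  have f3 : (r : ℤ) + 1 ≤ n := by
    by_contra hlt
    push Not at hlt
    have h4 : (n : ℤ) ≤ r := by omega
    have h5 : (1 : ℤ) ≤ n := by exact_mod_cast hKpos
    nlinarith [mul_nonneg (sub_nonneg.2 h5) (sub_nonneg.2 h4)]
  have f4 : (q : ℤ) ≤ r - 1 := by omega
  have f5 : (1 : ℤ) ≤ q := by exact_mod_cast hQpos
  have f6 : (3 : ℤ) ≤ r := by exact_mod_cast hr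
  have f7 : (q : ℤ) * q - 3 * q ≤ (r - 1) * (r - 4) := by
    nlinarith [mul_nonneg (sub_nonneg.2 f5) (sub_nonneg.2 f4),
      mul_nonneg (sub_nonneg.2 f4) (sub_nonneg.2 f6)]
  nlinarith [mul_nonneg (sub_nonneg.2 f3) (sub_nonneg.2 f6)]

end Pool.Agent.W111.LAR
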