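import Pool.Agent.H79.LA.W111_LAR_Dec

set_option autoImplicit false

/-!
Linear arboricity of graphs of large girth.
-/

namespace Pool.Agent.W111.LAR

open Finset SimpleGraph H931R3.LA

theorem cov_sup {V : Type} {G₁ G₂ : SimpleGraph V} {k₁ k₂ : ℕ} (h₁ : Cov G₁ k₁)
    (h₂ : Cov G₂ k₂) : Cov (G₁ ⊔ G₂) (k₁ + k₂) := by
  obtain ⟨F₁, hF₁, rfl⟩ := h₁
  obtain ⟨F₂, hF₂, rfl⟩ := h₂
  have hcard : Nat.card (Fin k₁ ⊕ Fin k₂) = k₁ + k₂ := by simp
  rw [← hcard]
  refine cov_of_type (Sum.elim F₁ F₂) ?_ ?_
  · rintro (i | i)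
    · exact hF₁ i
    · exact hF₂ i
  · rw [iSup_sum]
    rfl

/-- At most `m` graphs whose cyclic components have at least `2 m` vertices. -/
theorem cov_small {V κ : Type} [Finite V] [Fintype κ] (H : κ → SimpleGraph V) (m : ℕ)
    (hm : Fintype.card κ ≤ m) (hdeg : ∀ i v, ((H i).neighborSet v).ncard ≤ 2)
    (hsz : ∀ i v, Cyc (H i) v → 2 * m ≤ csize (H i) v) :
    Cov (⨆ i, H i) (Fintype.card κ + 1) := by
  classical
  refine cov_of_load H hdeg fun v => ?_
  rcases Nat.eq_zero_or_pos m with hm0 | hm0
  · have : IsEmpty κ := Fintype.card_eq_zero_iff.1 (by omega)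
    simp
  · have h1 : ∀ i ∈ (univ : Finset κ), (if Cyc (H i) v then (2 : ℝ) / csize (H i) v else 0) ≤
        1 / m := by
      intro i _
      have hm1 : (0 : ℝ) < m := by exact_mod_cast hm0
      split_ifs with h
      · have h2 : (2 * m : ℝ) ≤ csize (H i) v := by exact_mod_cast hsz i v h
        rw [div_le_div_iff₀ (by linarith) hm1]
        linarith
      · positivity
    refine le_trans (sum_le_sum h1) ?_
    rw [sum_const, nsmul_eq_mul, card_univ]
    have hm1 : (0 : ℝ) < m := by exact_mod_cast hm0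
    have hm2 : (Fintype.card κ : ℝ) ≤ m := by exact_mod_cast hm
    rw [mul_one_div, div_le_one hm1]
    exact hm2

theorem cov_group {V κ : Type} [Finite V] [DecidableEq κ] (H : κ → SimpleGraph V) (m : ℕ)
    (hm : 1 ≤ m) (hdeg : ∀ i v, ((H i).neighborSet v).ncard ≤ 2)
    (hsz : ∀ i v, Cyc (H i) v → 2 * m ≤ csize (H i) v) :
    ∀ (n : ℕ) (s : Finset κ), s.card = n → Cov (⨆ i ∈ s, H i) (n + (n + m - 1) / m) := by
  have hsub : ∀ s : Finset κ, s.card ≤ m → Cov (⨆ i ∈ s, H i) (s.card + 1) := by
    intro s hs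
    have h1 := cov_small (fun i : s => H i.1) m (by simpa using hs) (fun i v => hdeg i.1 v)
      (fun i v h => hsz i.1 v h)
    rw [Fintype.card_coe] at h1
    have h2 : (⨆ i : s, H i.1) = ⨆ i ∈ s, H i := iSup_subtype
    rwa [h2] at h1
  intro n
  induction n using Nat.strong_induction_on with
  | _ n ih =>
    intro s hs
    rcases Nat.eq_zero_or_pos n with h0 | h0
    · subst h0
      have : s = ∅ := card_eq_zero.1 hs
      subst this
      have h3 : (0 + m - 1) / m = 0 := by
        rw [Nat.div_eq_of_lt]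
        omega
      simp only [notMem_empty, not_false_eq_true, iSup_neg, iSup_bot]
      rw [h3]
      exact cov_bot
    · by_cases hnm : n ≤ m
      · have h1 := hsub s (by omega)
        rw [hs] at h1
        have h3 : (n + m - 1) / m = 1 := by
          rw [Nat.div_eq_of_lt_le]
          · omega
          · omega
        rwa [h3]
      · obtain ⟨t, hts, ht⟩ := exists_subset_card_eq (s := s) (n := m) (by omega)
        have h1 := hsub t (by omega)
        have h2 := ih (n - m) (by omega) (s \ t) (by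
          rw [card_sdiff_of_subset hts]
          omega)
        have h3 := cov_sup h1 h2
        have h4 : (⨆ i ∈ t, H i) ⊔ (⨆ i ∈ s \ t, H i) = ⨆ i ∈ s, H i := by
          rw [← Finset.iSup_union, union_sdiff_of_subset hts]
        rw [h4, ht] at h3
        have h5 : (n + m - 1) / m = (n - m + m - 1) / m + 1 := by
          have : n + m - 1 = (n - m + m - 1) + m := by omega
          rw [this, Nat.add_div_right _ (by omega)]
        rw [h5]
        have h6 : m + 1 + (n - m + (n - m + m - 1) / m) = n + ((n - m + m - 1) / m + 1) := by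
          omega
        rwa [h6] at h3

/-- Graphs of maximum degree at most `2 k` in which all cycles have length at least `2 m`. -/
theorem cov_girth {V : Type} [Finite V] (G : SimpleGraph V) (k m : ℕ) (hm : 1 ≤ m)
    (hdeg : ∀ v, (G.neighborSet v).ncard ≤ 2 * k)
    (hcyc : ∀ (v : V) (c : G.Walk v v), c.IsCycle → 2 * m ≤ c.length) :
    Cov G (k + (k + m - 1) / m) := by
  classical
  obtain ⟨H, hH, rfl⟩ := decomp G k hdeg
  have h1 := cov_group H m hm hH (fun i v h => by
    obtain ⟨w, c, hc, hlen⟩ := exists_cycle h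
    have hle : H i ≤ ⨆ i, H i := le_iSup H i
    have h2 := hcyc w (c.mapLe hle) (hc.mapLe hle)
    rw [Walk.length_mapLe] at h2
    omega) k univ (by simp)
  simpa using h1

end Pool.Agent.W111.LAR
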