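import Pool.Agent.H79.LA.W111_LAR_Odd

set_option autoImplicit false

/-!
The version with a spanning subgraph `P` whose components are edges and paths with three vertices,
the centres of the latter forming the set `Y`.
-/

namespace Pool.Agent.W111.LAR

open Finset SimpleGraph H931R3.LA

/-- The other end of the component of `P`. -/
def partner {V : Type} (P : SimpleGraph V) (Y : Set V) : SimpleGraph V where
  Adj a b := a ≠ b ∧ a ∉ Y ∧ b ∉ Y ∧ (P.Adj a b ∨ ∃ y ∈ Y, P.Adj y a ∧ P.Adj y b)
  symm.symm a b h := by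
    obtain ⟨h1, h2, h3, h4 | ⟨y, h5, h6, h7⟩⟩ := h
    · exact ⟨h1.symm, h3, h2, Or.inl h4.symm⟩
    · exact ⟨h1.symm, h3, h2, Or.inr ⟨y, h5, h7, h6⟩⟩
  loopless.irrefl a h := h.1 rfl

theorem partner_deg {V : Type} [Finite V] {P : SimpleGraph V} {Y : Set V}
    (hP1 : ∀ v, v ∉ Y → (P.neighborSet v).ncard ≤ 1) (hP2 : ∀ v, (P.neighborSet v).ncard ≤ 2)
    (a : V) : ((partner P Y).neighborSet a).ncard ≤ 1 := by
  rw [Set.ncard_le_one (Set.toFinite _)]
  intro b hb b' hb'
  obtain ⟨h1, h2, h3, h4⟩ := hb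
  obtain ⟨h1', _, h3', h4'⟩ := hb'
  have huniq : ∀ w w', P.Adj a w → P.Adj a w' → w = w' := fun w w' h h' =>
    (Set.ncard_le_one (Set.toFinite _)).1 (hP1 a h2) w h w' h'
  rcases h4 with h4 | ⟨y, h5, h6, h7⟩ <;> rcases h4' with h4' | ⟨y', h5', h6', h7'⟩
  · exact huniq b b' h4 h4'
  · exact absurd (huniq b y' h4 h6'.symm ▸ h5') h3
  · exact absurd (huniq b' y h4' h6.symm ▸ h5) h3'
  · have hy : y = y' := huniq y y' h6.symm h6'.symm
    subst hy
    by_contra hne
    have hsub : ({a, b, b'} : Set V) ⊆ P.neighborSet y := by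
      rintro z (rfl | rfl | rfl)
      · exact h6
      · exact h7
      · exact h7'
    have h8 := Set.ncard_le_ncard hsub (Set.toFinite _)
    have h9 : ({a, b, b'} : Set V).ncard = 3 := by
      rw [Set.ncard_eq_three]
      exact ⟨a, b, b', h1, h1', hne, rfl⟩
    have h10 := hP2 y
    omega

/-- A number for each component of `P`. -/
theorem exists_key2 {V : Type} [Finite V] (P : SimpleGraph V) (Y : Set V)
    (hP1 : ∀ v, v ∉ Y → (P.neighborSet v).ncard ≤ 1)
    (hYY : ∀ a ∈ Y, ∀ b ∈ Y, ¬ P.Adj a b) :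
    ∃ key : V → ℕ, (∀ v w, P.Adj v w → key v = key w) ∧
      ∀ v w, key v = key w → v = w ∨ P.Adj v w ∨ ∃ y, P.Adj y v ∧ P.Adj y w := by
  classical
  have := Fintype.ofFinite V
  have huniq : ∀ a w w', a ∉ Y → P.Adj a w → P.Adj a w' → w = w' := fun a w w' ha h h' =>
    (Set.ncard_le_one (Set.toFinite _)).1 (hP1 a ha) w h w' h'
  have hreach : ∀ v w, P.Reachable v w → v = w ∨ P.Adj v w ∨ ∃ y, P.Adj y v ∧ P.Adj y w := by
    intro v w h
    obtain ⟨p⟩ := h
    induction p with
    | nil => exact Or.inl rfl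
    | @cons v u w h p ih =>
      rcases ih with rfl | h1 | ⟨z, h1, h2⟩
      · exact Or.inr (Or.inl h)
      · exact Or.inr (Or.inr ⟨u, h.symm, h1⟩)
      · by_cases hvz : v = z
        · subst hvz
          exact Or.inr (Or.inl h2)
        · have huY : u ∈ Y := by
            by_contra hu
            exact hvz (huniq u v z hu h.symm h1.symm)
          have hzY : z ∉ Y := fun hz => hYY z hz u huY h1
          have h3 := huniq z u w hzY h1 h2
          subst h3
          exact Or.inr (Or.inl h)
  refine ⟨fun v => (Fintype.equivFin V (rep P v) : ℕ), ?_, ?_⟩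
  · intro v w h
    show (Fintype.equivFin V (rep P v) : ℕ) = (Fintype.equivFin V (rep P w) : ℕ)
    rw [rep_eq (SimpleGraph.Adj.reachable h)]
  · intro v w h
    exact hreach v w (reach_of_rep ((Fintype.equivFin V).injective (Fin.ext h)))

/-- A conflict free choice. -/
theorem choice {V κ : Type} [Finite V] [Fintype κ] (H : κ → SimpleGraph V) (P : SimpleGraph V)
    (hP : ∀ v, (P.neighborSet v).ncard ≤ 1) (key : V → ℕ) (Y : Set V) (L : ℕ)
    (hL : 12 * Fintype.card κ ≤ L + 8)
    (hsz : ∀ i v, Cyc (H i) v →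
      L + 2 * (Y ∩ {w | (H i).Reachable v w}).ncard ≤ csize (H i) v) :
    ∃ s : II H → EE H, (∀ c, cl (s c) = c ∧ aa (s c) ∉ Y ∧ bb (s c) ∉ Y) ∧
      ∀ c c', c ≠ c' → ¬ conf P key (s c) (s c') := by
  classical
  have := Fintype.ofFinite V
  have : Fintype (EE H) := Fintype.ofFinite (EE H)
  have : Fintype (II H) := Fintype.ofFinite (II H)
  rcases Nat.eq_zero_or_pos (Fintype.card κ) with h0 | h0
  · have hem : IsEmpty κ := Fintype.card_eq_zero_iff.1 h0
    have : IsEmpty (II H) := ⟨fun c => hem.elim c.1.1⟩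
    exact ⟨fun c => isEmptyElim c, fun c => isEmptyElim c, fun c => isEmptyElim c⟩
  · have hLpos : 0 < L := by omega
    have hcount : ∀ c : II H, L ≤
        (univ.filter (fun e : EE H => cl e = c ∧ aa e ∉ Y ∧ bb e ∉ Y)).card := by
      intro c
      have h1 := class_card c
      have h2 := hsz c.1.1 c.1.2 c.2.1
      set YC : Finset V := (Y ∩ {w | (H c.1.1).Reachable c.1.2 w}).toFinset with hYC
      have h3 : YC.card = (Y ∩ {w | (H c.1.1).Reachable c.1.2 w}).ncard := by
        rw [Set.ncard_eq_toFinset_card', hYC]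
      have h4 : univ.filter (fun e : EE H => cl e = c) ⊆
          univ.filter (fun e : EE H => cl e = c ∧ aa e ∉ Y ∧ bb e ∉ Y) ∪
          YC.biUnion (fun y => (star aa bb (univ : Finset (EE H)) y).filter
            (fun e => e.1.1 = c.1.1)) := by
        intro e he
        have he' : cl e = c := (mem_filter.1 he).2
        obtain ⟨h5, h6⟩ := (cl_iff e c).1 he'
        by_cases ha : aa e ∈ Y
        · refine mem_union_right _ (mem_biUnion.2 ⟨aa e, ?_, ?_⟩)
          · rw [hYC, Set.mem_toFinset]
            exact ⟨ha, h6.symm⟩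
          · exact mem_filter.2 ⟨mem_filter.2 ⟨mem_univ _, Or.inl rfl⟩, h5⟩
        · by_cases hb : bb e ∈ Y
          · refine mem_union_right _ (mem_biUnion.2 ⟨bb e, ?_, ?_⟩)
            · rw [hYC, Set.mem_toFinset]
              refine ⟨hb, h6.symm.trans ?_⟩
              have := (adj_ends e).reachable
              rwa [h5] at this
            · exact mem_filter.2 ⟨mem_filter.2 ⟨mem_univ _, Or.inr rfl⟩, h5⟩
          · exact mem_union_left _ (mem_filter.2 ⟨mem_univ _, he', ha, hb⟩)
      have h5 := (card_le_card h4).trans (card_union_le _ _)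
      have h6 : (YC.biUnion (fun y => (star aa bb (univ : Finset (EE H)) y).filter
            (fun e => e.1.1 = c.1.1))).card ≤ YC.card * 2 := by
        refine card_biUnion_le_card_mul _ _ _ fun y _ => ?_
        by_cases h : Cyc (H c.1.1) y
        · exact (cnt c.1.1 y h).le
        · rw [cnt0 c.1.1 y h]; simp
      omega
    have hem : ∀ c : II H, ∃ g : Fin L → EE H, Function.Injective g ∧
        ∀ i, cl (g i) = c ∧ aa (g i) ∉ Y ∧ bb (g i) ∉ Y := by
      intro c
      have h1 : Fintype.card (Fin L) ≤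
          Fintype.card {e : EE H // cl e = c ∧ aa e ∉ Y ∧ bb e ∉ Y} := by
        rw [Fintype.card_fin, Fintype.card_subtype]
        exact hcount c
      obtain ⟨g⟩ := Function.Embedding.nonempty_of_card_le h1
      exact ⟨fun i => (g i).1, fun i j h => g.injective (Subtype.ext h), fun i => (g i).2⟩
    choose em hem1 hem2 using hem
    have : Nonempty (Fin L) := ⟨⟨0, hLpos⟩⟩
    obtain ⟨f, hf⟩ := Pool.Agent.H931R2.Haxell.finite (I := II H) (S := Fin L)
      (adj := fun x y => conf P key (em x.1 x.2) (em y.1 y.2))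
      (fun x y h => conf_symm h) (by
        intro K hK Z hZ
        by_contra hcon
        push Not at hcon
        have hsub : K ×ˢ (univ : Finset (Fin L)) ⊆ Z.biUnion (fun z =>
            univ.filter (fun x : II H × Fin L => conf P key (em x.1 x.2) (em z.1 z.2))) := by
          intro x hx
          obtain ⟨z, hz, hz2⟩ := hcon x.1 (mem_product.1 hx).1 x.2
          exact mem_biUnion.2 ⟨z, hz, mem_filter.2 ⟨mem_univ _, hz2⟩⟩
        have h1 := (card_le_card hsub).trans card_biUnion_le
        have h2 : ∀ z ∈ Z, (univ.filter (fun x : II H × Fin L =>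
            conf P key (em x.1 x.2) (em z.1 z.2))).card ≤ 6 * Fintype.card κ - 4 := by
          intro z _
          have h3 := conf_card P hP key (em z.1 z.2)
          have h4 : (univ.filter (fun x : II H × Fin L =>
              conf P key (em x.1 x.2) (em z.1 z.2))).card ≤
              (univ.filter (fun e => conf P key e (em z.1 z.2))).card := by
            refine card_le_card_of_injOn (fun x => em x.1 x.2) ?_ ?_
            · intro x hx
              simp only [coe_filter, mem_univ, true_and, Set.mem_ofPred_eq] at hx ⊢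
              exact hx
            · rintro ⟨c, i⟩ _ ⟨c', i'⟩ _ h
              have h5 : em c i = em c' i' := h
              have h6 : c = c' := by rw [← (hem2 c i).1, ← (hem2 c' i').1, h5]
              subst h6
              rw [hem1 c h5]
          omega
        have h3 := h1.trans (sum_le_sum h2)
        rw [sum_const, smul_eq_mul, card_product, card_univ, Fintype.card_fin] at h3
        have hK1 : 1 ≤ K.card := card_pos.2 hK
        have h4 : Z.card * (6 * Fintype.card κ - 4) ≤
            (2 * (K.card - 1)) * (6 * Fintype.card κ - 4) := Nat.mul_le_mul_right _ hZ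
        have h5 : (2 * (K.card - 1)) * (6 * Fintype.card κ - 4) =
            (K.card - 1) * (2 * (6 * Fintype.card κ - 4)) := by ring
        have h6 : (K.card - 1) * (2 * (6 * Fintype.card κ - 4)) ≤ (K.card - 1) * L :=
          Nat.mul_le_mul_left _ (by omega)
        have h7 : K.card * L = (K.card - 1) * L + L := by
          obtain ⟨t, ht⟩ : ∃ t, K.card = t + 1 := ⟨K.card - 1, by omega⟩
          rw [ht, Nat.add_sub_cancel]
          ring
        omega) univ
    exact ⟨fun c => em c (f c), fun c => hem2 c _, fun c c' h => hf c (mem_univ _) c'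
      (mem_univ _) h⟩

theorem cov_spanning {V κ : Type} [Finite V] [Fintype κ] (H : κ → SimpleGraph V)
    (P : SimpleGraph V) (Y : Set V) (hdeg : ∀ i v, ((H i).neighborSet v).ncard ≤ 2)
    (hP1 : ∀ v, v ∉ Y → (P.neighborSet v).ncard ≤ 1) (hP2 : ∀ v, (P.neighborSet v).ncard ≤ 2)
    (hYY : ∀ a ∈ Y, ∀ b ∈ Y, ¬ P.Adj a b)
    (htri : ∀ y a b, P.Adj y a → P.Adj y b → ∀ i, ¬ (H i).Adj a b)
    (L : ℕ) (hL : 12 * Fintype.card κ ≤ L + 8)
    (hsz : ∀ i v, Cyc (H i) v →
      L + 2 * (Y ∩ {w | (H i).Reachable v w}).ncard ≤ csize (H i) v) :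
    Cov (P ⊔ ⨆ i, H i) (Fintype.card κ + 1) := by
  classical
  have := Fintype.ofFinite V
  obtain ⟨key, hk1, hk2⟩ := exists_key2 P Y hP1 hYY
  obtain ⟨s, hs, hind⟩ := choice H (partner P Y) (partner_deg hP1 hP2) key Y L hL hsz
  -- selected edges at a vertex
  have hselinc : ∀ v u, (selGraph aa bb s).Adj v u → ∃ c, s(aa (s c), bb (s c)) = s(v, u) := by
    rintro v u ⟨_, c, hc⟩
    refine ⟨c, ?_⟩
    rcases hc with ⟨h1, h2⟩ | ⟨h1, h2⟩
    · rw [h1, h2]
    · rw [h1, h2, Sym2.eq_swap]
  have hselincv : ∀ v u c, s(aa (s c), bb (s c)) = s(v, u) → (aa (s c) = v ∨ bb (s c) = v) := by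
    intro v u c h
    rcases Sym2.eq_iff.1 h with ⟨h1, _⟩ | ⟨_, h1⟩
    · exact Or.inl h1
    · exact Or.inr h1
  have hselY : ∀ v u, (selGraph aa bb s).Adj v u → v ∉ Y := by
    intro v u h
    obtain ⟨c, hc⟩ := hselinc v u h
    rcases hselincv v u c hc with h1 | h1
    · rw [← h1]; exact (hs c).2.1
    · rw [← h1]; exact (hs c).2.2
  have hselH : ∀ v u, (selGraph aa bb s).Adj v u → ∃ i, (H i).Adj v u := by
    rintro v u ⟨_, c, hc⟩
    refine ⟨(s c).1.1, ?_⟩
    rcases hc with ⟨h1, h2⟩ | ⟨h1, h2⟩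
    · rw [← h1, ← h2]; exact adj_ends _
    · rw [← h1, ← h2]; exact (adj_ends _).symm
  have hseluniq : ∀ v u u', (selGraph aa bb s).Adj v u → (selGraph aa bb s).Adj v u' →
      u = u' := by
    intro v u u' h h'
    obtain ⟨c, hc⟩ := hselinc v u h
    obtain ⟨c', hc'⟩ := hselinc v u' h'
    have hcc : c = c' := by
      by_contra hne
      exact hind c c' hne ⟨by rw [(hs c).1, (hs c').1]; exact hne, Or.inl ⟨v, hselincv v u c hc,
        hselincv v u' c' hc'⟩⟩
    subst hcc
    exact Sym2.congr_right.1 (hc.symm.trans hc')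
  have hPuniq : ∀ v w w', v ∉ Y → P.Adj v w → P.Adj v w' → w = w' := fun v w w' hv h h' =>
    (Set.ncard_le_one (Set.toFinite _)).1 (hP1 v hv) w h w' h'
  have hup : ∀ v u, (selGraph aa bb s).Adj v u → key v < key u →
      ∃ c, s(aa (s c), bb (s c)) = s(v, u) ∧ upAt key (s c) v := by
    intro v u h hlt
    obtain ⟨c, hc⟩ := hselinc v u h
    refine ⟨c, hc, ?_⟩
    rcases Sym2.eq_iff.1 hc with ⟨h1, h2⟩ | ⟨h1, h2⟩
    · exact Or.inl ⟨h1, by rw [h2]; exact hlt⟩
    · exact Or.inr ⟨h2, by rw [h1]; exact hlt⟩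
  have hQ : IsLF (P ⊔ selGraph aa bb s) := by
    constructor
    · intro v0 c hc
      -- the two neighbours on the cycle
      have two : ∀ w ∈ c.support, ∃ x y, (P ⊔ selGraph aa bb s).Adj w x ∧
          (P ⊔ selGraph aa bb s).Adj w y ∧ x ≠ y ∧ x ∈ c.support ∧ y ∈ c.support := by
        intro w hw
        have h2 := hc.ncard_neighborSet_toSubgraph_eq_two hw
        obtain ⟨x, y, hxy, hset⟩ := Set.ncard_eq_two.1 h2
        have hx : c.toSubgraph.Adj w x := by
          have : x ∈ c.toSubgraph.neighborSet w := by rw [hset]; simp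
          exact this
        have hy : c.toSubgraph.Adj w y := by
          have : y ∈ c.toSubgraph.neighborSet w := by rw [hset]; simp
          exact this
        have hxs : x ∈ c.support := by
          have := hx.snd_mem
          rwa [Walk.mem_verts_toSubgraph] at this
        have hys : y ∈ c.support := by
          have := hy.snd_mem
          rwa [Walk.mem_verts_toSubgraph] at this
        exact ⟨x, y, hx.adj_sub, hy.adj_sub, hxy, hxs, hys⟩
      have twoY : ∀ w ∈ c.support, w ∈ Y → ∃ x y, P.Adj w x ∧ P.Adj w y ∧ x ≠ y ∧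
          x ∈ c.support ∧ y ∈ c.support := by
        intro w hw hwY
        obtain ⟨x, y, hx, hy, hxy, hxs, hys⟩ := two w hw
        refine ⟨x, y, ?_, ?_, hxy, hxs, hys⟩
        · rcases hx with h | h
          · exact h
          · exact absurd hwY (hselY w x h)
        · rcases hy with h | h
          · exact h
          · exact absurd hwY (hselY w y h)
      have twoN : ∀ w ∈ c.support, w ∉ Y → ∃ x y, P.Adj w x ∧ (selGraph aa bb s).Adj w y ∧
          x ≠ y ∧ x ∈ c.support ∧ y ∈ c.support := by
        intro w hw hwY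
        obtain ⟨x, y, hx, hy, hxy, hxs, hys⟩ := two w hw
        rcases hx with hx1 | hx1 <;> rcases hy with hy1 | hy1
        · exact absurd (hPuniq w x y hwY hx1 hy1) hxy
        · exact ⟨x, y, hx1, hy1, hxy, hxs, hys⟩
        · exact ⟨y, x, hy1, hx1, hxy.symm, hys, hxs⟩
        · exact absurd (hseluniq w x y hx1 hy1) hxy
      obtain ⟨w0, hw0, hmin0⟩ := exists_min_image c.support.toFinset key ⟨v0, by simp⟩
      have hw0' : w0 ∈ c.support := by simpa using hw0
      obtain ⟨w, hw, hwY, hmin⟩ : ∃ w ∈ c.support, w ∉ Y ∧ ∀ u ∈ c.support, key w ≤ key u := by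
        by_cases hY0 : w0 ∈ Y
        · obtain ⟨x, _, hx, _, _, hxs, _⟩ := twoY w0 hw0' hY0
          refine ⟨x, hxs, fun hxY => hYY w0 hY0 x hxY hx, fun u hu => ?_⟩
          rw [← hk1 w0 x hx]
          exact hmin0 u (by simpa using hu)
        · exact ⟨w0, hw0', hY0, fun u hu => hmin0 u (by simpa using hu)⟩
      -- the selected edge at a vertex with minimal key goes up
      have hgo : ∀ u ∈ c.support, u ∉ Y → key u = key w →
          ∃ z, (selGraph aa bb s).Adj u z ∧ key u < key z := by
        intro u hu huY hku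
        obtain ⟨x, y, hx, hy, hxy, _, hys⟩ := twoN u hu huY
        refine ⟨y, hy, lt_of_le_of_ne (hku ▸ hmin y hys) fun h => ?_⟩
        rcases hk2 u y h with h1 | h1 | ⟨z, h1, h2⟩
        · exact hy.ne h1
        · exact hxy (hPuniq u x y huY hx h1)
        · obtain ⟨i, hi⟩ := hselH u y hy
          exact htri z u y h1 h2 i hi
      obtain ⟨w', hw', hwY', hkw', hpart⟩ : ∃ w' ∈ c.support, w' ∉ Y ∧ key w' = key w ∧
          (partner P Y).Adj w w' := by
        obtain ⟨x, _, hx, _, _, hxs, _⟩ := twoN w hw hwY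
        by_cases hxY : x ∈ Y
        · obtain ⟨a, b, ha, hb, hab, has, hbs⟩ := twoY x hxs hxY
          obtain ⟨w', hw'x, hww', hw's⟩ : ∃ w', P.Adj x w' ∧ w ≠ w' ∧ w' ∈ c.support := by
            by_cases hwa : w = a
            · exact ⟨b, hb, fun h => hab (hwa.symm.trans h), hbs⟩
            · exact ⟨a, ha, hwa, has⟩
          have hw'Y : w' ∉ Y := fun h => hYY x hxY w' h hw'x
          refine ⟨w', hw's, hw'Y, ?_, hww', hwY, hw'Y, Or.inr ⟨x, hxY, hx.symm, hw'x⟩⟩
          rw [← hk1 x w' hw'x, hk1 w x hx]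
        · exact ⟨x, hxs, hxY, (hk1 w x hx).symm, hx.ne, hwY, hxY, Or.inl hx⟩
      obtain ⟨y, hy, hlt⟩ := hgo w hw hwY rfl
      obtain ⟨y', hy', hlt'⟩ := hgo w' hw' hwY' hkw'
      obtain ⟨c1, hc1, hu1⟩ := hup w y hy hlt
      obtain ⟨c2, hc2, hu2⟩ := hup w' y' hy' hlt'
      have hne : c1 ≠ c2 := by
        rintro rfl
        have := hc1.symm.trans hc2
        rcases Sym2.eq_iff.1 this with ⟨h1, _⟩ | ⟨h1, _⟩
        · exact hpart.ne h1
        · rw [← h1] at hlt'
          omega
      exact hind c1 c2 hne ⟨by rw [(hs c1).1, (hs c2).1]; exact hne,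
        Or.inr ⟨w, w', hpart, hu1, hu2⟩⟩
    · intro v
      have h1 : (P ⊔ selGraph aa bb s).neighborSet v ⊆ P.neighborSet v ∪
          (selGraph aa bb s).neighborSet v := by
        intro u hu
        rcases hu with hu | hu
        · exact Or.inl hu
        · exact Or.inr hu
      have h2 := Set.ncard_le_ncard h1 (Set.toFinite _)
      have h3 := Set.ncard_union_le (P.neighborSet v) ((selGraph aa bb s).neighborSet v)
      by_cases hv : v ∈ Y
      · have h4 : (selGraph aa bb s).neighborSet v = ∅ := by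
          ext u
          constructor
          · intro hu
            exact absurd hv (hselY v u hu)
          · intro hu
            exact absurd hu (Set.notMem_empty u)
        have h6 : ((selGraph aa bb s).neighborSet v).ncard = 0 := by rw [h4, Set.ncard_empty]
        have h5 := hP2 v
        omega
      · have h4 : ((selGraph aa bb s).neighborSet v).ncard ≤ 1 :=
          (Set.ncard_le_one (Set.toFinite _)).2 fun u hu u' hu' => hseluniq v u u' hu hu'
        have h5 := hP1 v hv
        omega
  have hmain := assemble hdeg s (fun c => (hs c).1) (P ⊔ selGraph aa bb s) hQ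
    (fun c => Or.inr ⟨ends_ne _, c, Or.inl ⟨rfl, rfl⟩⟩)
  have hle : selGraph aa bb s ≤ ⨆ i, H i := by
    intro u v h
    rw [iSup_adj]
    exact hselH u v h
  rwa [sup_assoc, sup_eq_right.2 hle] at hmain

end Pool.Agent.W111.LAR
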