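import Mathlib

set_option autoImplicit false

/-!
Rounding theorem: choosing one edge from each class so that the chosen edges form a linear forest.
-/

namespace Pool.Agent.W111.LAR

open Finset Filter Topology

variable {V E ι : Type} [Fintype V] [DecidableEq V] [Fintype E] [DecidableEq E]
  [Fintype ι] [DecidableEq ι]

/-- The edges of `P` at the vertex `v`. -/
def star (a b : E → V) (P : Finset E) (v : V) : Finset E :=
  P.filter (fun e => a e = v ∨ b e = v)

/-- `U` is a closed set of dropped vertices of degree two. -/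
def Closed (a b : E → V) (P : Finset E) (D U : Finset V) : Prop :=
  U ⊆ D ∧ (∀ v ∈ U, (star a b P v).card = 2) ∧ ∀ e ∈ P, (a e ∈ U ↔ b e ∈ U)

/-- The polytope of the fractional selections. -/
def Poly (a b : E → V) (κ : E → ι) (P : Finset E) (D : Finset V) : Set (E → ℝ) :=
  {x | (∀ e, 0 ≤ x e) ∧ (∀ e, e ∉ P → x e = 0) ∧
    (∀ i, ∑ e ∈ univ.filter (fun e => κ e = i), x e = 1) ∧
    (∀ v, v ∉ D → ∑ e ∈ star a b univ v, x e ≤ 1) ∧
    ∀ U : Finset V, U.Nonempty → Closed a b P D U →
      ∑ e ∈ univ.filter (fun e => a e ∈ U), x e ≤ (U.card : ℝ) - 1}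

theorem dc (a b : E → V) (hab : ∀ e, a e ≠ b e) (f : E → ℝ) (U : Finset V) :
    ∑ v ∈ U, ∑ e ∈ star a b univ v, f e =
      ∑ e ∈ univ.filter (fun e => a e ∈ U), f e + ∑ e ∈ univ.filter (fun e => b e ∈ U), f e := by
  have h1 : ∀ v, ∑ e ∈ star a b univ v, f e =
      ∑ e : E, ((if a e = v then f e else 0) + (if b e = v then f e else 0)) := by
    intro v
    rw [star, sum_filter]
    refine sum_congr rfl fun e _ => ?_
    by_cases h1 : a e = v
    · have h2 : b e ≠ v := fun h => hab e (h1.trans h.symm)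
      simp [h1, h2]
    · simp [h1]
  simp_rw [h1]
  rw [sum_comm]
  simp_rw [sum_add_distrib]
  rw [sum_filter, sum_filter]
  congr 1
  · refine sum_congr rfl fun e _ => ?_
    rw [sum_ite_eq]
  · refine sum_congr rfl fun e _ => ?_
    rw [sum_ite_eq]

theorem dc_closed (a b : E → V) (hab : ∀ e, a e ≠ b e) (f : E → ℝ) (U : Finset V)
    (hU : ∀ e, f e ≠ 0 → (a e ∈ U ↔ b e ∈ U)) :
    ∑ v ∈ U, ∑ e ∈ star a b univ v, f e = 2 * ∑ e ∈ univ.filter (fun e => a e ∈ U), f e := by
  rw [dc a b hab, two_mul]
  congr 1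
  rw [sum_filter, sum_filter]
  refine sum_congr rfl fun e _ => ?_
  by_cases h : f e = 0
  · simp [h]
  · simp [hU e h]

theorem poly_le_one {a b : E → V} {κ : E → ι} {P : Finset E} {D : Finset V} {x : E → ℝ}
    (hx : x ∈ Poly a b κ P D) (e : E) : x e ≤ 1 := by
  rw [← hx.2.2.1 (κ e)]
  exact single_le_sum (f := x) (fun i _ => hx.1 i) (by simp)

theorem poly_compact (a b : E → V) (κ : E → ι) (P : Finset E) (D : Finset V) :
    IsCompact (Poly a b κ P D) := by
  have hcl : IsClosed (Poly a b κ P D) := by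
    unfold Poly
    simp only [Set.ofPred_and, Set.ofPred_forall]
    refine IsClosed.inter ?_ (IsClosed.inter ?_ (IsClosed.inter ?_ (IsClosed.inter ?_ ?_)))
    · exact isClosed_iInter fun e => isClosed_le continuous_const (continuous_apply e)
    · exact isClosed_iInter fun e => isClosed_iInter fun _ =>
        isClosed_eq (continuous_apply e) continuous_const
    · exact isClosed_iInter fun i => isClosed_eq
        (continuous_finsetSum _ fun e _ => continuous_apply e) continuous_const
    · exact isClosed_iInter fun v => isClosed_iInter fun _ => isClosed_le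
        (continuous_finsetSum _ fun e _ => continuous_apply e) continuous_const
    · exact isClosed_iInter fun U => isClosed_iInter fun _ => isClosed_iInter fun _ => isClosed_le
        (continuous_finsetSum _ fun e _ => continuous_apply e) continuous_const
  refine (isCompact_Icc (a := (0 : E → ℝ)) (b := (1 : E → ℝ))).of_isClosed_subset hcl ?_
  intro x hx
  exact ⟨fun e => hx.1 e, fun e => poly_le_one hx e⟩

/-- An extreme point cannot be perturbed. -/
theorem perturb {a b : E → V} {κ : E → ι} {P : Finset E} {D : Finset V} {y : E → ℝ}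
    (hy : y ∈ (Poly a b κ P D).extremePoints ℝ) (z : E → ℝ)
    (h0 : ∀ e, z e ≠ 0 → 0 < y e)
    (h1 : ∀ i, ∑ e ∈ univ.filter (fun e => κ e = i), z e = 0)
    (h2 : ∀ v, v ∉ D → ∑ e ∈ star a b univ v, y e = 1 → ∑ e ∈ star a b univ v, z e = 0)
    (h3 : ∀ U : Finset V, U.Nonempty → Closed a b P D U →
      ∑ e ∈ univ.filter (fun e => a e ∈ U), y e = (U.card : ℝ) - 1 →
      ∑ e ∈ univ.filter (fun e => a e ∈ U), z e = 0) : z = 0 := by
  have hyP := hy.1
  obtain ⟨p0, p1, p2, p3, p4⟩ := hyP
  have hev : ∀ᶠ t : ℝ in 𝓝 0, y + t • z ∈ Poly a b κ P D := by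
    have e0 : ∀ᶠ t : ℝ in 𝓝 0, ∀ e, 0 ≤ (y + t • z) e := by
      rw [eventually_all]
      intro e
      by_cases hz : z e = 0
      · exact Eventually.of_forall fun t => by simp [hz, p0 e]
      · have hc : Tendsto (fun t : ℝ => y e + t * z e) (𝓝 0) (𝓝 (y e + 0 * z e)) :=
          (continuous_const.add (continuous_id.mul continuous_const)).tendsto 0
        rw [zero_mul, add_zero] at hc
        filter_upwards [hc.eventually (lt_mem_nhds (h0 e hz))] with t ht
        exact ht.le
    have sumform : ∀ (s : Finset E) (t : ℝ), ∑ e ∈ s, (y + t • z) e =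
        ∑ e ∈ s, y e + t * ∑ e ∈ s, z e := by
      intro s t
      simp only [Pi.add_apply, Pi.smul_apply, smul_eq_mul, sum_add_distrib, mul_sum]
    have slack : ∀ (s : Finset E) (c : ℝ), ∑ e ∈ s, y e ≤ c →
        (∑ e ∈ s, y e = c → ∑ e ∈ s, z e = 0) → ∀ᶠ t : ℝ in 𝓝 0,
          ∑ e ∈ s, (y + t • z) e ≤ c := by
      intro s c hc hz
      rcases hc.eq_or_lt with h | h
      · exact Eventually.of_forall fun t => by rw [sumform, hz h, mul_zero, add_zero]; exact hc
      · have hc : Tendsto (fun t : ℝ => ∑ e ∈ s, y e + t * ∑ e ∈ s, z e) (𝓝 0)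
            (𝓝 (∑ e ∈ s, y e + 0 * ∑ e ∈ s, z e)) :=
          (continuous_const.add (continuous_id.mul continuous_const)).tendsto 0
        rw [zero_mul, add_zero] at hc
        filter_upwards [hc.eventually (gt_mem_nhds h)] with t ht
        rw [sumform]
        exact ht.le
    have e3 : ∀ᶠ t : ℝ in 𝓝 0, ∀ v, v ∉ D → ∑ e ∈ star a b univ v, (y + t • z) e ≤ 1 := by
      rw [eventually_all]
      intro v
      by_cases hv : v ∈ D
      · exact Eventually.of_forall fun t h => absurd hv h
      · filter_upwards [slack _ _ (p3 v hv) (h2 v hv)] with t ht _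
        exact ht
    have e4 : ∀ᶠ t : ℝ in 𝓝 0, ∀ U : Finset V, U.Nonempty → Closed a b P D U →
        ∑ e ∈ univ.filter (fun e => a e ∈ U), (y + t • z) e ≤ (U.card : ℝ) - 1 := by
      rw [eventually_all]
      intro U
      by_cases hU : U.Nonempty ∧ Closed a b P D U
      · filter_upwards [slack _ _ (p4 U hU.1 hU.2) (h3 U hU.1 hU.2)] with t ht _ _
        exact ht
      · exact Eventually.of_forall fun t h h' => absurd ⟨h, h'⟩ hU
    filter_upwards [e0, e3, e4] with t t0 t3 t4
    refine ⟨t0, ?_, ?_, t3, t4⟩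
    · intro e he
      have hz : z e = 0 := by
        by_contra hz
        have := h0 e hz
        rw [p1 e he] at this
        exact lt_irrefl _ this
      simp [p1 e he, hz]
    · intro i
      rw [sumform, p2, h1, mul_zero, add_zero]
  obtain ⟨ε, hε, hball⟩ := Metric.eventually_nhds_iff.1 hev
  have hp := hball (y := ε / 2) (by rw [Real.dist_eq, sub_zero, abs_of_pos (by linarith)]; linarith)
  have hm := hball (y := -(ε / 2)) (by
    rw [Real.dist_eq, sub_zero, abs_neg, abs_of_pos (by linarith)]; linarith)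
  have hseg : y ∈ openSegment ℝ (y + (ε / 2) • z) (y + (-(ε / 2)) • z) := by
    refine ⟨1 / 2, 1 / 2, by norm_num, by norm_num, by norm_num, ?_⟩
    ext e
    simp only [Pi.add_apply, Pi.smul_apply, smul_eq_mul]
    ring
  have := hy.2 hp hm hseg
  ext e
  have h5 := congrFun this e
  simp only [Pi.add_apply, Pi.smul_apply, smul_eq_mul] at h5
  have h6 : ε / 2 * z e = 0 := by linarith
  rcases mul_eq_zero.1 h6 with h7 | h7
  · linarith
  · exact h7


theorem kernel (R : Finset (Finset E)) (h : R.card < Fintype.card E) :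
    ∃ z : E → ℝ, z ≠ 0 ∧ ∀ s ∈ R, ∑ e ∈ s, z e = 0 := by
  let A : Matrix R E ℝ := Matrix.of fun s e => if e ∈ s.1 then 1 else 0
  have hker : LinearMap.ker (Matrix.mulVecLin A) ≠ ⊥ :=
    LinearMap.ker_ne_bot_of_finrank_lt (by simpa using h)
  obtain ⟨z, hz, hz0⟩ := Submodule.exists_mem_ne_zero_of_ne_bot hker
  refine ⟨z, hz0, fun s hs => ?_⟩
  have h1 := congrFun (LinearMap.mem_ker.1 hz) ⟨s, hs⟩
  simp only [Matrix.mulVecLin_apply, Matrix.mulVec, dotProduct, A, Matrix.of_apply, ite_mul,
    one_mul, zero_mul, Pi.zero_apply] at h1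
  rw [← h1, ← sum_filter]
  congr 1
  ext e
  simp

/-- If no vertex can be dropped, an extreme point is integral. -/
theorem stuck {a b : E → V} (hab : ∀ e, a e ≠ b e) {κ : E → ι} {P : Finset E} {D : Finset V}
    {y : E → ℝ} (hy : y ∈ (Poly a b κ P D).extremePoints ℝ) (hpos : ∀ e ∈ P, 0 < y e)
    (hdeg : ∀ v, v ∉ D → 3 ≤ (star a b P v).card) : ∀ e ∈ P, y e = 1 := by
  classical
  by_contra hcon
  push Not at hcon
  obtain ⟨e0, he0, he01⟩ := hcon
  obtain ⟨p0, p1, p2, p3, p4⟩ := hy.1
  have le1 : ∀ e, y e ≤ 1 := poly_le_one hy.1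
  set S := P.filter (fun e => y e < 1) with hS
  have memS : ∀ e, e ∈ S ↔ e ∈ P ∧ y e < 1 := fun e => by rw [hS, mem_filter]
  have he0S : e0 ∈ S := (memS e0).2 ⟨he0, lt_of_le_of_ne (le1 e0) he01⟩
  have notS : ∀ e, e ∉ S → y e = 0 ∨ (e ∈ P ∧ y e = 1) := by
    intro e he
    by_cases hP : e ∈ P
    · right
      refine ⟨hP, ?_⟩
      by_contra h
      exact he ((memS e).2 ⟨hP, lt_of_le_of_ne (le1 e) h⟩)
    · left
      exact p1 e hP
  -- classes
  set C := S.image κ with hC
  have inner : ∀ i ∈ C, ∑ e ∈ S.filter (fun e => κ e = i), y e = 1 := by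
    intro i hi
    obtain ⟨e1, he1, rfl⟩ := mem_image.1 hi
    rw [← p2 (κ e1)]
    refine sum_subset (fun e he => ?_) (fun e he hne => ?_)
    · simp only [mem_filter] at he ⊢
      exact ⟨mem_univ _, he.2⟩
    · have hk : κ e = κ e1 := (mem_filter.1 he).2
      have heS : e ∉ S := fun h => hne (mem_filter.2 ⟨h, hk⟩)
      rcases notS e heS with h | ⟨_, h⟩
      · exact h
      · exfalso
        have hne1 : e ≠ e1 := by
          rintro rfl
          exact heS he1
        have h3 : y e + y e1 ≤ ∑ e' ∈ univ.filter (fun e' => κ e' = κ e1), y e' := by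
          rw [← sum_pair hne1]
          refine sum_le_sum_of_subset_of_nonneg ?_ (fun _ _ _ => p0 _)
          intro x hx
          rw [mem_insert, mem_singleton] at hx
          rcases hx with rfl | rfl
          · simp [hk]
          · simp
        rw [p2, h] at h3
        have := hpos e1 ((memS e1).1 he1).1
        linarith
  have sumS : ∑ e ∈ S, y e = C.card := by
    rw [← sum_fiberwise_of_maps_to (g := κ) (t := C) (fun e he => mem_image_of_mem κ he)]
    rw [sum_congr rfl inner]
    simp
  -- closed sets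
  have edgesIn : ∀ U : Finset V, Closed a b P D U →
      ((P.filter (fun e => a e ∈ U)).card : ℝ) = U.card := by
    intro U hU
    have h1 := dc_closed a b hab (fun e => if e ∈ P then (1 : ℝ) else 0) U (by
      intro e he
      have : e ∈ P := by
        by_contra h
        simp [h] at he
      exact hU.2.2 e this)
    have h2 : ∀ v ∈ U, ∑ e ∈ star a b univ v, (if e ∈ P then (1 : ℝ) else 0) = 2 := by
      intro v hv
      have h3 := hU.2.1 v hv
      rw [← sum_filter]
      have h4 : (star a b univ v).filter (fun e => e ∈ P) = star a b P v := by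
        ext e
        simp only [star, mem_filter, mem_univ, true_and]
        tauto
      rw [h4]
      simp [h3]
    rw [sum_congr rfl h2] at h1
    have h5 : ∑ e ∈ univ.filter (fun e => a e ∈ U), (if e ∈ P then (1 : ℝ) else 0) =
        ((P.filter (fun e => a e ∈ U)).card : ℝ) := by
      rw [← sum_filter]
      have h4 : (univ.filter (fun e => a e ∈ U)).filter (fun e => e ∈ P) =
          P.filter (fun e => a e ∈ U) := by
        ext e
        simp only [mem_filter, mem_univ, true_and]
        tauto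
      rw [h4]
      simp
    rw [h5] at h1
    simp only [sum_const, nsmul_eq_mul] at h1
    linarith
  set 𝒰 : Finset (Finset V) := univ.filter (fun U => U.Nonempty ∧ Closed a b P D U ∧
    ∑ e ∈ univ.filter (fun e => a e ∈ U), y e = (U.card : ℝ) - 1) with h𝒰
  have mem𝒰 : ∀ U, U ∈ 𝒰 ↔ U.Nonempty ∧ Closed a b P D U ∧
      ∑ e ∈ univ.filter (fun e => a e ∈ U), y e = (U.card : ℝ) - 1 := fun U => by
    rw [h𝒰, mem_filter]
    simp
  have sub𝒰 : ∀ U ∈ 𝒰, ∀ W ∈ 𝒰, (U ∩ W).Nonempty → U ⊆ W := by
    intro U hU W hW hUW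
    by_contra hsub
    have hne : (U \ W).Nonempty := by
      rw [sdiff_nonempty]
      exact hsub
    obtain ⟨_, cU, tU⟩ := (mem𝒰 U).1 hU
    obtain ⟨_, cW, _⟩ := (mem𝒰 W).1 hW
    have c1 : Closed a b P D (U ∩ W) := by
      refine ⟨inter_subset_left.trans cU.1, fun v hv => cU.2.1 v (mem_inter.1 hv).1, ?_⟩
      intro e he
      rw [mem_inter, mem_inter, cU.2.2 e he, cW.2.2 e he]
    have c2 : Closed a b P D (U \ W) := by
      refine ⟨sdiff_subset.trans cU.1, fun v hv => cU.2.1 v (Finset.mem_sdiff.1 hv).1, ?_⟩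
      intro e he
      rw [Finset.mem_sdiff, Finset.mem_sdiff, cU.2.2 e he, cW.2.2 e he]
    have q1 := p4 _ hUW c1
    have q2 := p4 _ hne c2
    have q3 : ∑ e ∈ univ.filter (fun e => a e ∈ U), y e =
        ∑ e ∈ univ.filter (fun e => a e ∈ U ∩ W), y e +
        ∑ e ∈ univ.filter (fun e => a e ∈ U \ W), y e := by
      rw [← sum_union]
      · congr 1
        ext e
        simp only [mem_filter, mem_univ, true_and, mem_union, mem_inter, Finset.mem_sdiff]
        tauto
      · rw [disjoint_left]
        intro e h1 h2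
        simp only [mem_filter, mem_univ, true_and, mem_inter, Finset.mem_sdiff] at h1 h2
        exact h2.2 h1.2
    have q4 : ((U ∩ W).card : ℝ) + ((U \ W).card : ℝ) = U.card := by
      have := card_inter_add_card_sdiff U W
      exact_mod_cast this
    rw [tU] at q3
    linarith
  have disj𝒰 : (𝒰 : Set (Finset V)).PairwiseDisjoint id := by
    intro U hU W hW hne
    rw [Function.onFun, id, id, disjoint_iff_inter_eq_empty]
    by_contra h
    have h1 : (U ∩ W).Nonempty := nonempty_iff_ne_empty.2 h
    exact hne (subset_antisymm (sub𝒰 U hU W hW h1)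
      (sub𝒰 W hW U hU (by rwa [inter_comm])))
  -- tight vertices
  set T : Finset V := univ.filter (fun v => v ∉ D ∧ ∑ e ∈ star a b univ v, y e = 1) with hT
  have memT : ∀ v, v ∈ T ↔ v ∉ D ∧ ∑ e ∈ star a b univ v, y e = 1 := fun v => by
    rw [hT, mem_filter]
    simp
  set g : E → ℝ := fun e => if e ∈ S then 1 - y e else 0 with hg
  have g0 : ∀ e, 0 ≤ g e := by
    intro e
    rw [hg]
    dsimp only
    split_ifs
    · linarith [le1 e]
    · exact le_refl 0
  have gP : ∀ e ∈ P, g e = 1 - y e := by
    intro e he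
    rw [hg]
    dsimp only
    split_ifs with h
    · rfl
    · rcases notS e h with h1 | ⟨_, h1⟩
      · exact absurd h1 (hpos e he).ne'
      · rw [h1]; ring
  have gnP : ∀ e, e ∉ P → g e = 0 := by
    intro e he
    rw [hg]
    dsimp only
    rw [if_neg]
    intro h
    exact he ((memS e).1 h).1
  have gtot : ∑ e, g e = (S.card : ℝ) - C.card := by
    rw [hg, ← sum_filter, ← sumS]
    have : univ.filter (fun e => e ∈ S) = S := by ext e; simp
    rw [this, sum_sub_distrib]
    simp
  have starsum : ∀ (f : E → ℝ) (v : V), (∀ e, e ∉ P → f e = 0) →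
      ∑ e ∈ star a b univ v, f e = ∑ e ∈ star a b P v, f e := by
    intro f v hf
    symm
    refine sum_subset (fun e he => ?_) (fun e he hne => ?_)
    · simp only [star, mem_filter, mem_univ, true_and] at he ⊢
      exact he.2
    · refine hf e fun h => hne ?_
      simp only [star, mem_filter, mem_univ, true_and] at he ⊢
      exact ⟨h, he⟩
  have gT : ∀ v ∈ T, 2 ≤ ∑ e ∈ star a b univ v, g e := by
    intro v hv
    obtain ⟨hvD, hv1⟩ := (memT v).1 hv
    have hst : ∀ e ∈ star a b P v, g e = 1 - y e := fun e he => gP e (mem_filter.1 he).1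
    rw [starsum g v gnP, sum_congr rfl hst, sum_sub_distrib, ← starsum y v p1, hv1]
    have := hdeg v hvD
    have h3 : (3 : ℝ) ≤ (star a b P v).card := by exact_mod_cast this
    simp
    linarith
  have gU : ∀ U ∈ 𝒰, ∑ v ∈ U, ∑ e ∈ star a b univ v, g e = 2 := by
    intro U hU
    obtain ⟨_, cU, tU⟩ := (mem𝒰 U).1 hU
    rw [dc_closed a b hab g U (fun e he => by
      have : e ∈ P := by
        by_contra h
        exact he (gnP e h)
      exact cU.2.2 e this)]
    have h1 : ∀ f : E → ℝ, (∀ e, e ∉ P → f e = 0) → ∑ e ∈ univ.filter (fun e => a e ∈ U), f e =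
        ∑ e ∈ P.filter (fun e => a e ∈ U), f e := by
      intro f hf
      symm
      refine sum_subset (fun e he => ?_) (fun e he hne => ?_)
      · simp only [mem_filter, mem_univ, true_and] at he ⊢
        exact he.2
      · refine hf e fun h => hne ?_
        simp only [mem_filter, mem_univ, true_and] at he ⊢
        exact ⟨h, he⟩
    rw [h1 g gnP, sum_congr rfl (fun e he => gP e (mem_filter.1 he).1), sum_sub_distrib,
      ← h1 y p1, tU, sum_const, nsmul_eq_mul, edgesIn U cU]
    ring
  set W : Finset V := T ∪ 𝒰.biUnion id with hW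
  have disjTU : Disjoint T (𝒰.biUnion id) := by
    rw [disjoint_left]
    intro v hv hv2
    obtain ⟨U, hU, hvU⟩ := mem_biUnion.1 hv2
    exact ((memT v).1 hv).1 (((mem𝒰 U).1 hU).2.1.1 hvU)
  have sumW : ∀ f : V → ℝ, ∑ v ∈ W, f v = ∑ v ∈ T, f v + ∑ U ∈ 𝒰, ∑ v ∈ U, f v := by
    intro f
    rw [hW, sum_union disjTU, sum_biUnion disj𝒰]
    rfl
  have gW : 2 * (T.card : ℝ) + 2 * 𝒰.card ≤ ∑ v ∈ W, ∑ e ∈ star a b univ v, g e := by
    rw [sumW, sum_congr rfl gU]
    have h1 : ∑ v ∈ T, (2 : ℝ) ≤ ∑ v ∈ T, ∑ e ∈ star a b univ v, g e := sum_le_sum gT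
    simp only [sum_const, nsmul_eq_mul] at h1 ⊢
    linarith
  have gall : ∑ v : V, ∑ e ∈ star a b univ v, g e = 2 * ((S.card : ℝ) - C.card) := by
    rw [dc_closed a b hab g univ (by simp), ← gtot]
    simp
  have gsplit : ∑ v : V, ∑ e ∈ star a b univ v, g e =
      ∑ v ∈ W, ∑ e ∈ star a b univ v, g e + ∑ v ∈ Wᶜ, ∑ e ∈ star a b univ v, g e :=
    (sum_add_sum_compl W _).symm
  have gnn : 0 ≤ ∑ v ∈ Wᶜ, ∑ e ∈ star a b univ v, g e :=
    sum_nonneg fun v _ => sum_nonneg fun e _ => g0 e
  have count : C.card + T.card + 𝒰.card ≤ S.card := by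
    have : (C.card : ℝ) + T.card + 𝒰.card ≤ S.card := by linarith
    exact_mod_cast this
  have i0C : κ e0 ∈ C := mem_image_of_mem κ he0S
  -- rows
  have main : ∀ z : E → ℝ, (∀ e, e ∉ S → z e = 0) →
      (∀ i ∈ C, ∑ e ∈ univ.filter (fun e => κ e = i), z e = 0) →
      (∀ v ∈ T, ∑ e ∈ star a b univ v, z e = 0) →
      (∀ U ∈ 𝒰, ∑ e ∈ univ.filter (fun e => a e ∈ U), z e = 0) → z = 0 := by
    intro z z0 z1 z2 z3
    refine perturb hy z ?_ ?_ ?_ ?_
    · intro e he
      have : e ∈ S := by
        by_contra h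
        exact he (z0 e h)
      exact hpos e ((memS e).1 this).1
    · intro i
      by_cases hi : i ∈ C
      · exact z1 i hi
      · refine sum_eq_zero fun e he => z0 e fun h => hi ?_
        rw [← (mem_filter.1 he).2]
        exact mem_image_of_mem κ h
    · intro v hv hv1
      exact z2 v ((memT v).2 ⟨hv, hv1⟩)
    · intro U hU cU tU
      exact z3 U ((mem𝒰 U).2 ⟨hU, cU, tU⟩)
  -- the family of rows, with a set of classes as a parameter
  have rows : ∀ C' : Finset ι, (C'.card + T.card + 𝒰.card < S.card) → ∃ z : E → ℝ, z ≠ 0 ∧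
      (∀ e, e ∉ S → z e = 0) ∧
      (∀ i ∈ C', ∑ e ∈ univ.filter (fun e => κ e = i), z e = 0) ∧
      (∀ v ∈ T, ∑ e ∈ star a b univ v, z e = 0) ∧
      (∀ U ∈ 𝒰, ∑ e ∈ univ.filter (fun e => a e ∈ U), z e = 0) := by
    intro C' hC'
    obtain ⟨z, hz, hz1⟩ := kernel (Sᶜ.image (fun e => ({e} : Finset E)) ∪
      (C'.image (fun i => univ.filter (fun e => κ e = i)) ∪
      (T.image (fun v => star a b univ v) ∪
      𝒰.image (fun U => univ.filter (fun e => a e ∈ U))))) (by
        have h1 := card_union_le (Sᶜ.image (fun e => ({e} : Finset E)))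
          (C'.image (fun i => univ.filter (fun e => κ e = i)) ∪
          (T.image (fun v => star a b univ v) ∪
          𝒰.image (fun U => univ.filter (fun e => a e ∈ U))))
        have h2 := card_union_le (C'.image (fun i => univ.filter (fun e => κ e = i)))
          (T.image (fun v => star a b univ v) ∪
          𝒰.image (fun U => univ.filter (fun e => a e ∈ U)))
        have h3 := card_union_le (T.image (fun v => star a b univ v))
          (𝒰.image (fun U => univ.filter (fun e => a e ∈ U)))
        have h4 := card_image_le (s := Sᶜ) (f := fun e => ({e} : Finset E))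
        have h5 := card_image_le (s := C') (f := fun i => univ.filter (fun e : E => κ e = i))
        have h6 := card_image_le (s := T) (f := fun v => star a b univ v)
        have h7 := card_image_le (s := 𝒰) (f := fun U => univ.filter (fun e => a e ∈ U))
        have h8 := card_compl_add_card S
        omega)
    refine ⟨z, hz, ?_, ?_, ?_, ?_⟩
    · intro e he
      have := hz1 {e} (mem_union_left _ (mem_image.2 ⟨e, by simpa using he, rfl⟩))
      simpa using this
    · intro i hi
      exact hz1 _ (mem_union_right _ (mem_union_left _ (mem_image.2 ⟨i, hi, rfl⟩)))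
    · intro v hv
      exact hz1 _ (mem_union_right _ (mem_union_right _ (mem_union_left _
        (mem_image.2 ⟨v, hv, rfl⟩))))
    · intro U hU
      exact hz1 _ (mem_union_right _ (mem_union_right _ (mem_union_right _
        (mem_image.2 ⟨U, hU, rfl⟩))))
  rcases lt_or_eq_of_le count with hlt | heq
  · obtain ⟨z, hz, z0, z1, z2, z3⟩ := rows C hlt
    exact hz (main z z0 z1 z2 z3)
  · obtain ⟨z, hz, z0, z1, z2, z3⟩ := rows (C.erase (κ e0)) (by
      have := card_erase_add_one i0C
      omega)
    refine hz (main z z0 ?_ z2 z3)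
    have heqR : (C.card : ℝ) + T.card + 𝒰.card = S.card := by exact_mod_cast heq
    have gz : ∑ v ∈ Wᶜ, ∑ e ∈ star a b univ v, g e = 0 := by linarith
    have gz1 : ∀ v ∈ Wᶜ, ∀ e ∈ star a b univ v, e ∉ S := by
      intro v hv e he hS'
      have h1 := (sum_eq_zero_iff_of_nonneg (fun v _ => sum_nonneg fun e _ => g0 e)).1 gz v hv
      have h2 := (sum_eq_zero_iff_of_nonneg (fun e _ => g0 e)).1 h1 e he
      rw [hg] at h2
      dsimp only at h2
      rw [if_pos hS'] at h2
      have := ((memS e).1 hS').2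
      linarith
    have tot : ∑ e, z e = 0 := by
      have h1 := dc_closed a b hab z univ (by simp)
      have h2 : ∑ v : V, ∑ e ∈ star a b univ v, z e = 0 := by
        rw [← sum_add_sum_compl W, sumW, sum_eq_zero z2, sum_eq_zero, sum_eq_zero]
        · ring
        · intro v hv
          exact sum_eq_zero fun e he => z0 e (gz1 v hv e he)
        · intro U hU
          rw [dc_closed a b hab z U (fun e he => by
            have : e ∈ S := by
              by_contra h
              exact he (z0 e h)
            exact ((mem𝒰 U).1 hU).2.1.2.2 e ((memS e).1 this).1), z3 U hU, mul_zero]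
      rw [h2] at h1
      simp at h1
      linarith
    intro i hi
    by_cases hi0 : i = κ e0
    · subst hi0
      have h3 : ∑ e, z e = ∑ i : ι, ∑ e ∈ univ.filter (fun e => κ e = i), z e :=
        (sum_fiberwise univ κ z).symm
      rw [tot, ← add_sum_erase univ _ (mem_univ (κ e0))] at h3
      rw [sum_eq_zero (s := univ.erase (κ e0)), add_zero] at h3
      · exact h3.symm
      · intro j hj
        by_cases hjC : j ∈ C
        · exact z1 j (mem_erase.2 ⟨(mem_erase.1 hj).1, hjC⟩)
        · refine sum_eq_zero fun e he => z0 e fun h => hjC ?_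
          rw [← (mem_filter.1 he).2]
          exact mem_image_of_mem κ h
    · exact z1 i (mem_erase.2 ⟨hi0, hi⟩)

end Pool.Agent.W111.LAR
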