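import Pool.Agent.H79.LA.W111_LAR_Round
import Pool.Agent.H79.LA.H931R3_LATop

set_option autoImplicit false

/-!
Rounding theorem, conclusion: a selection of one edge from each class which is a linear forest.
-/

namespace Pool.Agent.W111.LAR

open Finset Filter Topology

variable {V E ι : Type} [Fintype V] [DecidableEq V] [Fintype E] [DecidableEq E]
  [Fintype ι] [DecidableEq ι]

theorem star_mono (a b : E → V) {P Q : Finset E} (h : P ⊆ Q) (v : V) :
    star a b P v ⊆ star a b Q v := filter_subset_filter _ h

theorem exists_selection (a b : E → V) (hab : ∀ e, a e ≠ b e) (κ : E → ι) :
    ∀ (n : ℕ) (P : Finset E) (D : Finset V), P.card + Dᶜ.card = n →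
    (∀ v ∈ D, (star a b P v).card ≤ 2) → (Poly a b κ P D).Nonempty →
    ∃ M : Finset E, (∀ i, (M.filter (fun e => κ e = i)).card = 1) ∧
      (∀ v, (star a b M v).card ≤ 2) ∧
      ∀ U : Finset V, U.Nonempty → ∃ v ∈ U,
        ((star a b M v).filter (fun e => a e ∈ U ∧ b e ∈ U)).card ≤ 1 := by
  intro n
  induction n using Nat.strong_induction_on with
  | _ n ih =>
    intro P D hn hD hne
    obtain ⟨y, hy⟩ := (poly_compact a b κ P D).extremePoints_nonempty hne
    have hyP := hy.1
    obtain ⟨p0, p1, p2, p3, p4⟩ := hyP
    have le1 : ∀ e, y e ≤ 1 := poly_le_one hy.1
    by_cases hzero : ∃ e ∈ P, y e = 0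
    · obtain ⟨e, he, hye⟩ := hzero
      refine ih ((P.erase e).card + Dᶜ.card) ?_ (P.erase e) D rfl ?_ ⟨y, ?_⟩
      · have := card_erase_lt_of_mem he
        omega
      · intro v hv
        exact le_trans (card_le_card (star_mono a b (erase_subset _ _) v)) (hD v hv)
      · refine ⟨p0, ?_, p2, p3, ?_⟩
        · intro e' he'
          by_cases h : e' = e
          · rw [h, hye]
          · exact p1 e' fun h' => he' (mem_erase.2 ⟨h, h'⟩)
        · intro U hU hc
          refine p4 U hU ⟨hc.1, ?_, ?_⟩
          · intro v hv
            have h1 := hc.2.1 v hv
            have h2 := card_le_card (star_mono a b (erase_subset e P) v)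
            have h3 := hD v (hc.1 hv)
            omega
          · intro e' he'
            by_cases h : e' = e
            · subst h
              -- `e'` is not incident with `U`
              have key : ∀ v ∈ U, ¬ (a e' = v ∨ b e' = v) := by
                intro v hv hinc
                have h1 := hc.2.1 v hv
                have h3 := hD v (hc.1 hv)
                have h4 : star a b (P.erase e') v ⊂ star a b P v := by
                  refine (ssubset_iff_of_subset (star_mono a b (erase_subset _ _) v)).2
                    ⟨e', mem_filter.2 ⟨he', hinc⟩, fun h => ?_⟩
                  exact (mem_erase.1 (mem_filter.1 h).1).1 rfl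
                have h5 := card_lt_card h4
                omega
              constructor
              · intro h
                exact absurd (Or.inl rfl) (key _ h)
              · intro h
                exact absurd (Or.inr rfl) (key _ h)
            · exact hc.2.2 e' (mem_erase.2 ⟨h, he'⟩)
    · push Not at hzero
      have hpos : ∀ e ∈ P, 0 < y e := fun e he => lt_of_le_of_ne (p0 e) (hzero e he).symm
      by_cases hdrop : ∃ v, v ∉ D ∧ (star a b P v).card ≤ 2
      · obtain ⟨v, hvD, hv2⟩ := hdrop
        refine ih (P.card + (insert v D)ᶜ.card) ?_ P (insert v D) rfl ?_ ⟨y, ?_⟩
        · have h1 : (insert v D)ᶜ.card < Dᶜ.card := by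
            refine card_lt_card ?_
            refine (ssubset_iff_of_subset (compl_subset_compl.2 (subset_insert _ _))).2
              ⟨v, by simpa using hvD, by simp⟩
          omega
        · intro w hw
          rcases mem_insert.1 hw with rfl | hw
          · exact hv2
          · exact hD w hw
        · refine ⟨p0, p1, p2, fun w hw => p3 w fun h => hw (mem_insert_of_mem h), ?_⟩
          intro U hU hc
          by_cases hvU : v ∈ U
          · -- edges inside
            have h1 : ∑ w ∈ U, ∑ e ∈ star a b univ w, y e =
                2 * ∑ e ∈ univ.filter (fun e => a e ∈ U), y e := by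
              refine dc_closed a b hab y U fun e he => hc.2.2 e ?_
              by_contra h
              exact he (p1 e h)
            have h2 : ∀ w ∈ U, ∑ e ∈ star a b univ w, y e ≤ 2 := by
              intro w hw
              have h3 : ∑ e ∈ star a b univ w, y e = ∑ e ∈ star a b P w, y e := by
                symm
                refine sum_subset (fun e he => ?_) (fun e he hne => ?_)
                · simp only [star, mem_filter, mem_univ, true_and] at he ⊢
                  exact he.2
                · refine p1 e fun h => hne ?_
                  simp only [star, mem_filter, mem_univ, true_and] at he ⊢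
                  exact ⟨h, he⟩
              rw [h3]
              refine le_trans (sum_le_sum (g := fun _ => (1 : ℝ)) fun e _ => le1 e) ?_
              have h4 : ((star a b P w).card : ℝ) = 2 := by exact_mod_cast hc.2.1 w hw
              simp [h4]
            -- exact count through the two edges at `v`
            have hv1 : ∑ e ∈ star a b univ v, y e ≤ 1 := p3 v hvD
            -- number of edges inside is `|U|`, two of them at `v`
            have hin : ((P.filter (fun e => a e ∈ U)).card : ℝ) = U.card := by
              have h5 := dc_closed a b hab (fun e => if e ∈ P then (1 : ℝ) else 0) U (by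
                intro e he
                have : e ∈ P := by
                  by_contra h
                  simp [h] at he
                exact hc.2.2 e this)
              have h6 : ∀ w ∈ U, ∑ e ∈ star a b univ w, (if e ∈ P then (1 : ℝ) else 0) = 2 := by
                intro w hw
                have h7 := hc.2.1 w hw
                rw [← sum_filter]
                have h8 : (star a b univ w).filter (fun e => e ∈ P) = star a b P w := by
                  ext e
                  simp only [star, mem_filter, mem_univ, true_and]
                  tauto
                rw [h8]
                simp [h7]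
              rw [sum_congr rfl h6] at h5
              have h9 : ∑ e ∈ univ.filter (fun e => a e ∈ U), (if e ∈ P then (1 : ℝ) else 0) =
                  ((P.filter (fun e => a e ∈ U)).card : ℝ) := by
                rw [← sum_filter]
                have h8 : (univ.filter (fun e => a e ∈ U)).filter (fun e => e ∈ P) =
                    P.filter (fun e => a e ∈ U) := by
                  ext e
                  simp only [mem_filter, mem_univ, true_and]
                  tauto
                rw [h8]
                simp
              rw [h9] at h5
              simp only [sum_const, nsmul_eq_mul] at h5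
              linarith
            have hsub : star a b P v ⊆ P.filter (fun e => a e ∈ U) := by
              intro e he
              obtain ⟨heP, hinc⟩ := mem_filter.1 he
              refine mem_filter.2 ⟨heP, ?_⟩
              rcases hinc with h | h
              · rw [h]; exact hvU
              · rw [hc.2.2 e heP, h]; exact hvU
            have hsum : ∑ e ∈ univ.filter (fun e => a e ∈ U), y e =
                ∑ e ∈ P.filter (fun e => a e ∈ U), y e := by
              symm
              refine sum_subset (fun e he => ?_) (fun e he hne => ?_)
              · simp only [mem_filter, mem_univ, true_and] at he ⊢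
                exact he.2
              · refine p1 e fun h => hne ?_
                simp only [mem_filter, mem_univ, true_and] at he ⊢
                exact ⟨h, he⟩
            have hstar : ∑ e ∈ star a b P v, y e ≤ 1 := by
              refine le_trans (sum_le_sum_of_subset_of_nonneg
                (star_mono a b (subset_univ P) v) fun _ _ _ => p0 _) hv1
            rw [hsum, ← sum_sdiff hsub]
            have hrest : ∑ e ∈ P.filter (fun e => a e ∈ U) \ star a b P v, y e ≤
                (U.card : ℝ) - 2 := by
              refine le_trans (sum_le_sum (g := fun _ => (1 : ℝ)) fun e _ => le1 e) ?_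
              rw [sum_const, nsmul_eq_mul, mul_one]
              have h10 := card_sdiff_add_card_eq_card hsub
              have h11 : (star a b P v).card = 2 := hc.2.1 v hvU
              have h12 : ((P.filter (fun e => a e ∈ U) \ star a b P v).card : ℝ) +
                  (star a b P v).card = (P.filter (fun e => a e ∈ U)).card := by
                exact_mod_cast h10
              rw [hin, h11] at h12
              push_cast at h12
              linarith
            linarith
          · refine p4 U hU ⟨?_, hc.2.1, hc.2.2⟩
            intro w hw
            rcases mem_insert.1 (hc.1 hw) with rfl | h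
            · exact absurd hw hvU
            · exact h
      · push Not at hdrop
        have hint := stuck hab hy hpos (fun v hv => hdrop v hv)
        have hDall : ∀ v, v ∈ D := by
          intro v
          by_contra hv
          have h1 := p3 v hv
          have h2 : ∑ e ∈ star a b P v, y e ≤ ∑ e ∈ star a b univ v, y e :=
            sum_le_sum_of_subset_of_nonneg (star_mono a b (subset_univ P) v) fun _ _ _ => p0 _
          have h3 : ∑ e ∈ star a b P v, y e = (star a b P v).card := by
            have hst : ∀ e ∈ star a b P v, y e = 1 := fun e he => hint e (mem_filter.1 he).1
            rw [sum_congr rfl hst]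
            simp
          have h4 : (3 : ℝ) ≤ (star a b P v).card := by exact_mod_cast hdrop v hv
          linarith
        refine ⟨P, ?_, fun v => hD v (hDall v), ?_⟩
        · intro i
          have h1 := p2 i
          have h2 : ∑ e ∈ univ.filter (fun e => κ e = i), y e =
              ∑ e ∈ P.filter (fun e => κ e = i), y e := by
            symm
            refine sum_subset (fun e he => ?_) (fun e he hne => ?_)
            · simp only [mem_filter, mem_univ, true_and] at he ⊢
              exact he.2
            · refine p1 e fun h => hne ?_
              simp only [mem_filter, mem_univ, true_and] at he ⊢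
              exact ⟨h, he⟩
          have hst : ∀ e ∈ P.filter (fun e => κ e = i), y e = 1 :=
            fun e he => hint e (mem_filter.1 he).1
          rw [h2, sum_congr rfl hst] at h1
          simp only [sum_const, nsmul_eq_mul, mul_one] at h1
          exact_mod_cast h1
        · intro U hU
          by_contra hcon
          push Not at hcon
          have hall : ∀ v ∈ U, (star a b P v).filter (fun e => a e ∈ U ∧ b e ∈ U) =
              star a b P v := by
            intro v hv
            refine eq_of_subset_of_card_le (filter_subset _ _) ?_
            have h1 := hcon v hv
            have h2 := hD v (hDall v)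
            omega
          have hc : Closed a b P D U := by
            refine ⟨fun v _ => hDall v, ?_, ?_⟩
            · intro v hv
              have h1 := hcon v hv
              rw [hall v hv] at h1
              have h2 := hD v (hDall v)
              omega
            · intro e he
              constructor
              · intro h
                have : e ∈ star a b P (a e) := mem_filter.2 ⟨he, Or.inl rfl⟩
                rw [← hall _ h] at this
                exact (mem_filter.1 this).2.2
              · intro h
                have : e ∈ star a b P (b e) := mem_filter.2 ⟨he, Or.inr rfl⟩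
                rw [← hall _ h] at this
                exact (mem_filter.1 this).2.1
          have h1 := p4 U hU hc
          have h2 := dc_closed a b hab y U (fun e he => hc.2.2 e (by
            by_contra h
            exact he (p1 e h)))
          have h3 : ∀ v ∈ U, ∑ e ∈ star a b univ v, y e = 2 := by
            intro v hv
            have h4 : ∑ e ∈ star a b univ v, y e = ∑ e ∈ star a b P v, y e := by
              symm
              refine sum_subset (star_mono a b (subset_univ P) v) (fun e he hne => ?_)
              refine p1 e fun h => hne ?_
              simp only [star, mem_filter, mem_univ, true_and] at he ⊢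
              exact ⟨h, he⟩
            have hst : ∀ e ∈ star a b P v, y e = 1 := fun e he => hint e (mem_filter.1 he).1
            rw [h4, sum_congr rfl hst]
            have := hc.2.1 v hv
            simp [this]
          rw [sum_congr rfl h3] at h2
          simp only [sum_const, nsmul_eq_mul] at h2
          linarith

/-- The graph of the selected edges. -/
def selGraph (a b : E → V) (s : ι → E) : SimpleGraph V where
  Adj u v := u ≠ v ∧ ∃ i, (a (s i) = u ∧ b (s i) = v) ∨ (a (s i) = v ∧ b (s i) = u)
  symm.symm := by
    rintro u v ⟨h, i, hi⟩
    exact ⟨h.symm, i, hi.symm⟩
  loopless.irrefl u h := h.1 rfl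

/-- From a fractional selection with load at most one at every vertex one gets a selection which
is a linear forest. -/
theorem selection (a b : E → V) (hab : ∀ e, a e ≠ b e) (κ : E → ι) (x : E → ℝ)
    (h0 : ∀ e, 0 ≤ x e) (hc : ∀ i, ∑ e ∈ univ.filter (fun e => κ e = i), x e = 1)
    (hv : ∀ v, ∑ e ∈ star a b univ v, x e ≤ 1) :
    ∃ s : ι → E, (∀ i, κ (s i) = i) ∧ H931R3.LA.IsLF (selGraph a b s) := by
  classical
  obtain ⟨M, hM1, hM2, hM3⟩ := exists_selection a b hab κ _ univ ∅ rfl (by simp) ⟨x, h0, by simp,
    hc, fun v _ => hv v, by
      intro U hU hcl
      obtain ⟨v, hv⟩ := hU
      exact absurd (hcl.1 hv) (by simp)⟩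
  have hs : ∀ i, ∃ e, M.filter (fun e => κ e = i) = {e} := fun i => card_eq_one.1 (hM1 i)
  choose s hs using hs
  have sM : ∀ i, s i ∈ M ∧ κ (s i) = i := by
    intro i
    have : s i ∈ M.filter (fun e => κ e = i) := by rw [hs i]; simp
    exact mem_filter.1 this
  refine ⟨s, fun i => (sM i).2, ?_, ?_⟩
  · -- acyclic
    intro v c hcyc
    obtain ⟨w, hw, hcard⟩ := hM3 c.support.toFinset ⟨v, by simp⟩
    have hwc : w ∈ c.support := by simpa using hw
    have h2 := hcyc.ncard_neighborSet_toSubgraph_eq_two hwc
    have hsub : c.toSubgraph.neighborSet w ⊆
        ((((star a b M w).filter (fun e => a e ∈ c.support.toFinset ∧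
          b e ∈ c.support.toFinset)).image (fun e => if a e = w then b e else a e) :
          Finset V) : Set V) := by
      intro w' hw'
      have hadj : c.toSubgraph.Adj w w' := hw'
      have hw's : w' ∈ c.support := by
        have := hadj.snd_mem
        rwa [SimpleGraph.Walk.mem_verts_toSubgraph] at this
      obtain ⟨hne, i, hi⟩ := hadj.adj_sub
      rw [Finset.mem_coe, mem_image]
      refine ⟨s i, ?_, ?_⟩
      · rw [mem_filter]
        refine ⟨mem_filter.2 ⟨(sM i).1, ?_⟩, ?_, ?_⟩
        · rcases hi with ⟨h1, h2⟩ | ⟨h1, h2⟩
          · exact Or.inl h1
          · exact Or.inr h2
        · rcases hi with ⟨h1, h2⟩ | ⟨h1, h2⟩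
          · rw [h1]; simpa using hwc
          · rw [h1]; simpa using hw's
        · rcases hi with ⟨h1, h2⟩ | ⟨h1, h2⟩
          · rw [h2]; simpa using hw's
          · rw [h2]; simpa using hwc
      · rcases hi with ⟨h1, h2⟩ | ⟨h1, h2⟩
        · rw [if_pos h1, h2]
        · have : a (s i) ≠ w := by rw [h1]; exact hne.symm
          rw [if_neg this, h1]
    have h3 := Set.ncard_le_ncard hsub (Finset.finite_toSet _)
    rw [Set.ncard_coe_finset, h2] at h3
    have h4 := card_image_le (s := (star a b M w).filter (fun e => a e ∈ c.support.toFinset ∧
          b e ∈ c.support.toFinset)) (f := fun e => if a e = w then b e else a e)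
    omega
  · intro w
    have hsub : (selGraph a b s).neighborSet w ⊆
        (((star a b M w).image (fun e => if a e = w then b e else a e) : Finset V) : Set V) := by
      intro w' hw'
      obtain ⟨hne, i, hi⟩ := hw'
      rw [Finset.mem_coe, mem_image]
      refine ⟨s i, ?_, ?_⟩
      · refine mem_filter.2 ⟨(sM i).1, ?_⟩
        rcases hi with ⟨h1, h2⟩ | ⟨h1, h2⟩
        · exact Or.inl h1
        · exact Or.inr h2
      · rcases hi with ⟨h1, h2⟩ | ⟨h1, h2⟩
        · rw [if_pos h1, h2]
        · have : a (s i) ≠ w := by rw [h1]; exact hne.symm
          rw [if_neg this, h1]
    have h3 := Set.ncard_le_ncard hsub (Finset.finite_toSet _)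
    rw [Set.ncard_coe_finset] at h3
    exact h3.trans (card_image_le.trans (hM2 w))

end Pool.Agent.W111.LAR
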