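import Mathlib

set_option autoImplicit false

/-!
Skew products of a permutation and a cocycle; counting the cocycles with a short cycle through a
given point.
-/

namespace Pool.Agent.W5h10.RL

open Finset

section

variable {V Γ X : Type} [Group Γ] [MulAction Γ X]

/-- The skew product of the permutation `π` of `V` and the cocycle `g`. -/
def skew (X : Type) [MulAction Γ X] (π : Equiv.Perm V) (g : V → Γ) : Equiv.Perm (V × X) where
  toFun a := (π a.1, g a.1 • a.2)
  invFun a := (π.symm a.1, (g (π.symm a.1))⁻¹ • a.2)
  left_inv a := by simp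
  right_inv a := by simp

/-- The cocycle along `j` steps. -/
def coc (π : Equiv.Perm V) (g : V → Γ) : ℕ → V → Γ
  | 0, _ => 1
  | j + 1, v => coc π g j (π v) * g v

theorem skew_apply (π : Equiv.Perm V) (g : V → Γ) (v : V) (x : X) :
    skew X π g (v, x) = (π v, g v • x) := rfl

theorem skew_pow (π : Equiv.Perm V) (g : V → Γ) (j : ℕ) : ∀ (v : V) (x : X),
    (skew X π g ^ j) (v, x) = ((π ^ j) v, coc π g j v • x) := by
  induction j with
  | zero => intro v x; simp [coc]
  | succ j ih =>
    intro v x
    rw [pow_succ, Equiv.Perm.mul_apply, skew_apply, ih, pow_succ, Equiv.Perm.mul_apply, coc,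
      mul_smul]

theorem coc_congr (π : Equiv.Perm V) (g g' : V → Γ) (j : ℕ) : ∀ (w : V),
    (∀ s, s < j → g ((π ^ s) w) = g' ((π ^ s) w)) → coc π g j w = coc π g' j w := by
  induction j with
  | zero => intro w _; rfl
  | succ j ih =>
    intro w h
    have h0 : g w = g' w := by simpa using h 0 (by omega)
    have h1 : coc π g j (π w) = coc π g' j (π w) := by
      refine ih (π w) fun s hs => ?_
      have := h (s + 1) (by omega)
      rwa [pow_succ, Equiv.Perm.mul_apply] at this
    rw [coc, coc, h0, h1]

/-- The cycle of `Π` through `a` is shorter than `M`. -/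
def Sh {W : Type} (M : ℕ) (P : Equiv.Perm W) (a : W) : Prop := ∃ j, 1 ≤ j ∧ j < M ∧ (P ^ j) a = a

theorem sh_skew [Finite V] {M : ℕ} {π : Equiv.Perm V} {g : V → Γ} {v : V} {x : X}
    (h : Sh M (skew X π g) (v, x)) :
    ∃ j, 1 ≤ j ∧ j < M ∧ (coc π g (Function.minimalPeriod π v) v) ^ j • x = x := by
  obtain ⟨j, h1, h2, h3⟩ := h
  set l := Function.minimalPeriod π v with hl
  have hlpos : 0 < l := by
    rw [hl]
    refine Function.minimalPeriod_pos_of_mem_periodicPts ?_
    exact Function.Injective.mem_periodicPts π.injective v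
  rw [skew_pow] at h3
  have h4 : (π ^ j) v = v := congrArg Prod.fst h3
  have h5 : l ∣ j := by
    refine Function.IsPeriodicPt.minimalPeriod_dvd ?_
    rw [Function.IsPeriodicPt, Function.IsFixedPt, ← Equiv.Perm.coe_pow]
    exact h4
  obtain ⟨t, rfl⟩ := h5
  have hlv : (π ^ l) v = v := by
    have := Function.isPeriodicPt_minimalPeriod π v
    rw [Function.IsPeriodicPt, Function.IsFixedPt, ← Equiv.Perm.coe_pow] at this
    exact this
  have hone : ∀ y : X, (skew X π g ^ l) (v, y) = (v, coc π g l v • y) := by
    intro y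
    rw [skew_pow, hlv]
  have hiter : ∀ t : ℕ, ∀ y : X, (skew X π g ^ (l * t)) (v, y) = (v, (coc π g l v) ^ t • y) := by
    intro t
    induction t with
    | zero => intro y; simp
    | succ t ih =>
      intro y
      rw [Nat.mul_succ, pow_add, Equiv.Perm.mul_apply, hone, ih, ← mul_smul, pow_succ]
  have h6 := hiter t x
  rw [skew_pow] at h6
  refine ⟨t, ?_, ?_, ?_⟩
  · rcases Nat.eq_zero_or_pos t with h0 | h0
    · subst h0; omega
    · exact h0
  · have : t ≤ l * t := Nat.le_mul_of_pos_left t hlpos
    omega
  · rw [h3] at h6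
    exact (congrArg Prod.snd h6).symm

end

open Classical in
/-- The number of cocycles with a short cycle through a given point. -/
theorem sh_count {V Γ X : Type} [Group Γ] [MulAction Γ X] [Fintype V] [Fintype Γ] (M s : ℕ)
    (hs : ∀ x : X, (univ.filter (fun γ : Γ => ∃ j, 1 ≤ j ∧ j < M ∧ γ ^ j • x = x)).card ≤ s)
    (π : Equiv.Perm V) (v : V) (x : X) :
    (univ.filter (fun g : V → Γ => Sh M (skew X π g) (v, x))).card * Fintype.card Γ ≤
      s * Fintype.card (V → Γ) := by
  set A := univ.filter (fun g : V → Γ => Sh M (skew X π g) (v, x)) with hA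
  let f : (V → Γ) → ({w // w ≠ v} → Γ) := fun g w => g w.1
  have h1 : A.card ≤ s * (A.image f).card := by
    refine card_le_mul_card_image A s ?_
    intro h _
    by_cases hne : (A.filter (fun g => f g = h)).Nonempty
    · obtain ⟨g0, hg0⟩ := hne
      have hg0' := (mem_filter.1 hg0).2
      set l := Function.minimalPeriod π v with hl
      have hlpos : 0 < l :=
        Function.minimalPeriod_pos_of_mem_periodicPts
          (Function.Injective.mem_periodicPts π.injective v)
      set D := coc π g0 (l - 1) (π v) with hD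
      have key : ∀ g, f g = h → coc π g l v = D * g v := by
        intro g hg
        obtain ⟨m, hm⟩ : ∃ m, l = m + 1 := ⟨l - 1, by omega⟩
        rw [hD, hm, Nat.add_sub_cancel, coc]
        congr 1
        refine coc_congr π g g0 m (π v) fun t ht => ?_
        have hne : (π ^ t) (π v) ≠ v := by
          intro h2
          have h3 : Function.IsPeriodicPt π (t + 1) v := by
            rw [Function.IsPeriodicPt, Function.IsFixedPt, ← Equiv.Perm.coe_pow, pow_succ,
              Equiv.Perm.mul_apply]
            exact h2
          have h4 := h3.minimalPeriod_le (by omega)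
          omega
        have h5 := congrFun (hg.trans hg0'.symm) ⟨(π ^ t) (π v), hne⟩
        exact h5
      refine (card_le_card_of_injOn (fun g => D * g v) ?_ ?_).trans (hs x)
      · intro g hg
        rw [mem_coe] at hg
        obtain ⟨h2, h3⟩ := mem_filter.1 hg
        obtain ⟨_, h4⟩ := mem_filter.1 h2
        obtain ⟨j, h5, h6, h7⟩ := sh_skew h4
        rw [mem_coe, mem_filter]
        refine ⟨mem_univ _, j, h5, h6, ?_⟩
        show (D * g v) ^ j • x = x
        rw [← key g h3]
        exact h7
      · intro g hg g' hg' heq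
        rw [mem_coe] at hg hg'
        have h3 := (mem_filter.1 hg).2
        have h3' := (mem_filter.1 hg').2
        have h4 : g v = g' v := mul_left_cancel heq
        funext w
        by_cases hw : w = v
        · rw [hw]; exact h4
        · exact congrFun (h3.trans h3'.symm) ⟨w, hw⟩
    · rw [not_nonempty_iff_eq_empty.1 hne, card_empty]
      exact Nat.zero_le _
  have h2 : (A.image f).card ≤ Fintype.card ({w // w ≠ v} → Γ) := card_le_univ _
  have h3 : Fintype.card ({w // w ≠ v} → Γ) * Fintype.card Γ = Fintype.card (V → Γ) := by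
    rw [Fintype.card_fun, Fintype.card_fun, ← pow_succ]
    congr 1
    have h4 : Fintype.card {w // w ≠ v} = Fintype.card V - 1 := by
      rw [Fintype.card_subtype_compl, Fintype.card_subtype_eq]
    have h5 : 1 ≤ Fintype.card V := Fintype.card_pos_iff.2 ⟨v⟩
    omega
  calc A.card * Fintype.card Γ ≤ (s * (A.image f).card) * Fintype.card Γ :=
        Nat.mul_le_mul_right _ h1
    _ ≤ (s * Fintype.card ({w // w ≠ v} → Γ)) * Fintype.card Γ :=
        Nat.mul_le_mul_right _ (Nat.mul_le_mul_left _ h2)
    _ = s * Fintype.card (V → Γ) := by rw [mul_assoc, h3]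

/-- Two coordinates. -/
theorem two_coord {κ A : Type} [Fintype κ] [DecidableEq κ] [Fintype A] [DecidableEq A]
    (P Q : Finset A) (i j : κ) (hij : i ≠ j) :
    (univ.filter (fun g : κ → A => g i ∈ P ∧ g j ∈ Q)).card * Fintype.card A ^ 2 =
      P.card * Q.card * Fintype.card (κ → A) := by
  have h1 : univ.filter (fun g : κ → A => g i ∈ P ∧ g j ∈ Q) =
      Fintype.piFinset (fun l => if l = i then P else if l = j then Q else univ) := by
    ext g
    rw [mem_filter, Fintype.mem_piFinset]
    constructor
    · rintro ⟨_, h2, h3⟩ l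
      split_ifs with h4 h5
      · rw [h4]; exact h2
      · rw [h5]; exact h3
      · exact mem_univ _
    · intro h
      have h2 := h i
      have h3 := h j
      rw [if_pos rfl] at h2
      rw [if_neg hij.symm, if_pos rfl] at h3
      exact ⟨mem_univ _, h2, h3⟩
  rw [h1, Fintype.card_piFinset, Fintype.card_fun]
  have h2 : ∏ l : κ, (if l = i then P else if l = j then Q else univ).card =
      P.card * (Q.card * ∏ l ∈ (univ.erase i).erase j, Fintype.card A) := by
    rw [← mul_prod_erase univ _ (mem_univ i), if_pos rfl]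
    congr 1
    rw [← mul_prod_erase (univ.erase i) _ (mem_erase.2 ⟨hij.symm, mem_univ j⟩),
      if_neg hij.symm, if_pos rfl]
    congr 1
    refine prod_congr rfl fun l hl => ?_
    obtain ⟨h3, h4⟩ := mem_erase.1 hl
    obtain ⟨h5, _⟩ := mem_erase.1 h4
    rw [if_neg h5, if_neg h3, card_univ]
  rw [h2, prod_const, card_erase_of_mem (mem_erase.2 ⟨hij.symm, mem_univ j⟩),
    card_erase_of_mem (mem_univ i), card_univ]
  have h3 : 2 ≤ Fintype.card κ := by
    have : ({i, j} : Finset κ).card ≤ Fintype.card κ := card_le_univ _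
    rwa [card_pair hij] at this
  have h4 : Fintype.card κ = (Fintype.card κ - 1 - 1) + 2 := by omega
  conv_rhs => rw [h4, pow_add]
  ring

end Pool.Agent.W5h10.RL
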