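import Pool.Agent.H79.LA.W5h10_RL_Pg
import Pool.Agent.H79.LA.W5h10_RL_Sparse

set_option autoImplicit false

/-!
Even degree: the load criterion for graphs in which small sets of vertices span few edges.
-/

namespace Pool.Agent.W5h10.RL

open Finset SimpleGraph H931R3.LA Pool.Agent.W111.LAR

open Classical in
theorem cov_two {V κ : Type} [Finite V] [Fintype κ] (H : κ → SimpleGraph V)
    (hdeg : ∀ i v, ((H i).neighborSet v).ncard ≤ 2) (M : ℕ)
    (hM : 6 * Fintype.card κ ≤ M + 6)
    (h : ∀ v i j, i ≠ j → Cyc (H i) v → Cyc (H j) v → csize (H i) v < M → M ≤ csize (H j) v) :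
    Cov (⨆ i, H i) (Fintype.card κ + 1) := by
  refine cov_of_load H hdeg fun a => ?_
  rcases isEmpty_or_nonempty κ with he | ⟨⟨i1⟩⟩
  · simp
  · obtain ⟨i0, hi0⟩ : ∃ i0, ∀ i, i ≠ i0 → Cyc (H i) a → M ≤ csize (H i) a := by
      by_cases hex : ∃ i, Cyc (H i) a ∧ csize (H i) a < M
      · obtain ⟨i0, hi, hi'⟩ := hex
        exact ⟨i0, fun i hne hc => h a i0 i hne.symm hi hc hi'⟩
      · push Not at hex
        exact ⟨i1, fun i _ hc => hex i hc⟩
    rw [← add_sum_erase univ _ (mem_univ i0)]
    have h1 : (if Cyc (H i0) a then (2 : ℝ) / csize (H i0) a else 0) ≤ 2 / 3 := by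
      split_ifs with hc
      · have h2 : (3 : ℝ) ≤ csize (H i0) a := by exact_mod_cast csize_three hc
        exact div_le_div_of_nonneg_left (by norm_num) (by norm_num) h2
      · norm_num
    have h2 : ∑ i ∈ univ.erase i0, (if Cyc (H i) a then (2 : ℝ) / csize (H i) a else 0) ≤
        1 / 3 := by
      by_cases hK : Fintype.card κ ≤ 1
      · have h3 : univ.erase i0 = (∅ : Finset κ) := by
          rw [← card_eq_zero, card_erase_of_mem (mem_univ _), card_univ]
          omega
        rw [h3, sum_empty]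
        norm_num
      · have hMpos : (0 : ℝ) < M := by
          have : 0 < M := by omega
          exact_mod_cast this
        refine (sum_le_sum (g := fun _ => 2 / (M : ℝ)) fun i hi => ?_).trans ?_
        · split_ifs with hc
          · have h4 := hi0 i (mem_erase.1 hi).1 hc
            have h5 : (M : ℝ) ≤ csize (H i) a := by exact_mod_cast h4
            exact div_le_div_of_nonneg_left (by norm_num) hMpos h5
          · positivity
        · rw [sum_const, nsmul_eq_mul, card_erase_of_mem (mem_univ _), card_univ,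
            ← mul_div_assoc, div_le_iff₀ hMpos]
          have h6 : ((Fintype.card κ - 1 : ℕ) : ℝ) = (Fintype.card κ : ℝ) - 1 := by
            rw [Nat.cast_sub (by omega)]
            norm_num
          have h7 : (6 : ℝ) * Fintype.card κ ≤ M + 6 := by exact_mod_cast hM
          rw [h6]
          linarith
    linarith

/-- Decomposition into edge-disjoint graphs of maximum degree two. -/
theorem decomp_disj {V : Type} [Finite V] (G : SimpleGraph V) (k : ℕ)
    (hdeg : ∀ v, (G.neighborSet v).ncard ≤ 2 * k) :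
    ∃ H : Fin k → SimpleGraph V, (∀ i v, ((H i).neighborSet v).ncard ≤ 2) ∧
      (∀ i j, i ≠ j → ∀ a b, (H i).Adj a b → ¬ (H j).Adj a b) ∧ (⨆ i, H i) = G := by
  classical
  obtain ⟨H, hH, rfl⟩ := decomp G k hdeg
  let H' : Fin k → SimpleGraph V := fun i =>
    { Adj := fun a b => (H i).Adj a b ∧ ∀ j, j < i → ¬ (H j).Adj a b
      symm.symm := fun a b h => ⟨h.1.symm, fun j hj hh => h.2 j hj hh.symm⟩
      loopless.irrefl := fun a h => (H i).irrefl h.1 }
  refine ⟨H', ?_, ?_, ?_⟩
  · intro i v
    exact le_trans (Set.ncard_le_ncard (fun u hu => hu.1) (Set.toFinite _)) (hH i v)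
  · intro i j hij a b h1 h2
    rcases lt_or_gt_of_ne hij with h3 | h3
    · exact h2.2 i h3 h1.1
    · exact h1.2 j h3 h2.1
  · ext a b
    rw [iSup_adj, iSup_adj]
    constructor
    · rintro ⟨i, hi⟩
      exact ⟨i, hi.1⟩
    · rintro ⟨i, hi⟩
      obtain ⟨m, hm, hmin⟩ := exists_min_image (univ.filter (fun j => (H j).Adj a b))
        (fun j => j) ⟨i, mem_filter.2 ⟨mem_univ _, hi⟩⟩
      refine ⟨m, (mem_filter.1 hm).2, fun j hj hh => ?_⟩
      have := hmin j (mem_filter.2 ⟨mem_univ _, hh⟩)
      exact absurd hj (not_lt.2 this)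

theorem even_sparse {V : Type} [Finite V] (G : SimpleGraph V) (k : ℕ)
    (hdeg : ∀ v, (G.neighborSet v).ncard ≤ 2 * k) (hs : Sparse (12 * k - 13) G) :
    Cov G (k + 1) := by
  obtain ⟨H, hH, hdis, rfl⟩ := decomp_disj G k hdeg
  have h1 := cov_two H hH (6 * k - 6) (by rw [Fintype.card_fin]; omega) (by
    intro v i j hij hi hj hlt
    by_contra hcon
    push Not at hcon
    have h2 := far hs (le_iSup H i) (le_iSup H j) hi hj (Or.inl (hdis i j hij))
      (Reachable.refl v) (Reachable.refl v) Walk.nil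
    rw [Walk.length_nil] at h2
    omega)
  rwa [Fintype.card_fin] at h1

end Pool.Agent.W5h10.RL
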