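import Pool.Agent.H79.LA.W5h10_RL_SpChoice

set_option autoImplicit false

/-!
Odd degree: regular graphs in which small sets of vertices span few edges.
-/

namespace Pool.Agent.W5h10.RL

open Finset SimpleGraph H931R3.LA Pool.Agent.W111.LAR

theorem odd_core {V κ : Type} [Finite V] [Fintype κ] (G : SimpleGraph V) (H : κ → SimpleGraph V)
    (P : SimpleGraph V) (Y : Set V) (R Λ : ℕ) (hHG : ∀ i, H i ≤ G) (hPG : P ≤ G)
    (hdist : ∀ i j x x', Cyc (H i) x → Cyc (H j) x' → csize (H i) x < Λ → csize (H j) x' < Λ →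
      (i ≠ j ∨ ¬ (H i).Reachable x x') → ∀ z z', (H i).Reachable x z → (H j).Reachable x' z' →
      ∀ p : G.Walk z z', Λ + 4 ≤ p.length)
    (hbad : ∀ i x, Cyc (H i) x → csize (H i) x < Λ → ∀ a b y, (H i).Reachable x a →
      (H i).Reachable x b → a ≠ b → P.Adj y a → ¬ P.Adj y b)
    (hdeg : ∀ i v, ((H i).neighborSet v).ncard ≤ 2)
    (hP1 : ∀ v, v ∉ Y → (P.neighborSet v).ncard ≤ 1) (hP2 : ∀ v, (P.neighborSet v).ncard ≤ 2)
    (hsep : ∀ a ∈ Y, ∀ b ∈ Y, a ≠ b → ∀ p : G.Walk a b, 2 * R + 1 ≤ p.length)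
    (hΛ : Λ = 12 * Fintype.card κ + 2) (hR : Λ + 1 ≤ 2 * R) :
    Cov (P ⊔ ⨆ i, H i) (Fintype.card κ + 1) := by
  classical
  have hYY : ∀ a ∈ Y, ∀ b ∈ Y, ¬ P.Adj a b := by
    intro a ha b hb hab
    have h4 := hsep a ha b hb hab.ne (hPG hab).toWalk
    have h5 : (hPG hab).toWalk.length = 1 := by simp [SimpleGraph.Adj.toWalk]
    omega
  refine cov_of_choice H P Y hdeg hP1 hP2 hYY fun key => ?_
  -- short components
  let short : II H → Prop := fun c => csize (H c.1.1) c.1.2 < Λ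
  -- edges of a component
  have hreach : ∀ (e : EE H) (c : II H), cl e = c → ∀ v, (aa e = v ∨ bb e = v) →
      (H c.1.1).Reachable c.1.2 v := by
    intro e c he v hv
    obtain ⟨h1, h2⟩ := (cl_iff e c).1 he
    have h3 := ends_reach e v hv
    rw [h1] at h3
    exact h2.symm.trans h3.symm
  -- distances between short components
  have hfar : ∀ c c' : II H, short c → short c' → c ≠ c' → ∀ z z', (H c.1.1).Reachable c.1.2 z →
      (H c'.1.1).Reachable c'.1.2 z' → ∀ p : G.Walk z z', Λ + 4 ≤ p.length := by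
    intro c c' hc hc' hne z z' hz hz' p
    refine hdist c.1.1 c'.1.1 c.1.2 c'.1.2 c.2.1 c'.2.1 hc hc' ?_ z z' hz hz' p
    by_cases hi : c.1.1 = c'.1.1
    · right
      refine fun hr => hne ?_
      apply Subtype.ext
      refine Prod.ext hi ?_
      have h2 := rep_eq hr
      rw [c.2.2, hi, c'.2.2] at h2
      exact h2
    · left
      exact hi
  -- the partner relation is realised by walks of length at most two
  have hpw : ∀ a b, (partner P Y).Adj a b → ∃ p : G.Walk a b, p.length ≤ 2 := by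
    rintro a b ⟨_, _, _, h4 | ⟨y, _, h6, h7⟩⟩
    · exact ⟨(hPG h4).toWalk, by simp [SimpleGraph.Adj.toWalk]⟩
    · exact ⟨Walk.cons (hPG h6).symm (Walk.cons (hPG h7) Walk.nil), by simp⟩
  -- the prescribed edges
  have hs0 : ∀ c : II H, ∃ e : EE H, short c → cl e = c ∧ aa e ∉ Y ∧ bb e ∉ Y := by
    intro c
    by_cases hc : short c
    · have h1 := count_avoid Y c
      have h2 := card_far (hdeg c.1.1) c.1.2 c.2.1 Y (csize (H c.1.1) c.1.2) le_rfl (by
        intro a ha b hb hab p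
        have h3 := hsep a ha b hb hab (p.mapLe (hHG c.1.1))
        rw [Walk.length_mapLe] at h3
        have h4 : csize (H c.1.1) c.1.2 < Λ := hc
        omega)
      have h3 := csize_three c.2.1
      have h4 : (Y ∩ {w | (H c.1.1).Reachable c.1.2 w}).ncard ≤ 1 := by
        by_contra hlt
        push Not at hlt
        have h5 : 2 * csize (H c.1.1) c.1.2 ≤
            (Y ∩ {w | (H c.1.1).Reachable c.1.2 w}).ncard * csize (H c.1.1) c.1.2 :=
          Nat.mul_le_mul_right _ hlt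
        omega
      have h5 : 0 < {e : EE H | cl e = c ∧ aa e ∉ Y ∧ bb e ∉ Y}.ncard := by omega
      obtain ⟨e, he⟩ := (Set.ncard_pos (Set.toFinite _)).1 h5
      exact ⟨e, fun _ => he⟩
    · have h1 := count_avoid ∅ c
      have h3 := csize_three c.2.1
      rw [Set.empty_inter, Set.ncard_empty] at h1
      have h5 : 0 < {e : EE H | cl e = c ∧ aa e ∉ (∅ : Set V) ∧ bb e ∉ (∅ : Set V)}.ncard := by
        omega
      obtain ⟨e, he⟩ := (Set.ncard_pos (Set.toFinite _)).1 h5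
      exact ⟨e, fun h => absurd h hc⟩
  choose s0 hs0 using hs0
  -- the second neighbour of the centres
  have haf : ∀ y : V, ∃ a : V, (∃ u, P.Adj y u) → P.Adj y a := by
    intro y
    by_cases h : ∃ u, P.Adj y u
    · obtain ⟨u, hu⟩ := h
      exact ⟨u, fun _ => hu⟩
    · exact ⟨y, fun h' => absurd h' h⟩
  choose af haf using haf
  let D0 : Set V := {a | ∃ y ∈ Y, (∃ u, P.Adj y u) ∧ a = af y}
  let D1 : Set V := {a | ∃ c, short c ∧ aa (s0 c) = a}
  let D2 : Set V := {a | ∃ c, short c ∧ bb (s0 c) = a}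
  let D3 : Set V := {a | ∃ c, short c ∧ ∃ w, (partner P Y).Adj a w ∧ upAt key (s0 c) w}
  refine choice_partial H (partner P Y) (partner_deg hP1 hP2) key (Λ - 10) (by omega)
    (fun e => aa e ∉ Y ∧ bb e ∉ Y ∧ ∀ y, P.Adj y (aa e) → ¬ P.Adj y (bb e)) short s0 ?_ ?_ ?_
  · intro c hc
    obtain ⟨h1, h2, h3⟩ := hs0 c hc
    refine ⟨h1, h2, h3, ?_⟩
    intro y hya hyb
    exact hbad c.1.1 c.1.2 c.2.1 hc _ _ y
      (hreach _ _ h1 _ (Or.inl rfl)) (hreach _ _ h1 _ (Or.inr rfl)) (ends_ne _) hya hyb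
  · intro c c' hc hc' hne hconf
    obtain ⟨_, ⟨v, h1, h2⟩ | ⟨v, w, h1, h2, h3⟩⟩ := hconf
    · have h4 := hfar c c' hc hc' hne v v (hreach _ _ (hs0 c hc).1 _ h1)
        (hreach _ _ (hs0 c' hc').1 _ h2) Walk.nil
      rw [Walk.length_nil] at h4
      omega
    · obtain ⟨p, hp⟩ := hpw v w h1
      have h4 := hfar c c' hc hc' hne v w (hreach _ _ (hs0 c hc).1 _ h2.inc)
        (hreach _ _ (hs0 c' hc').1 _ h3.inc) p
      omega
  · intro c hc
    have hn : Λ ≤ csize (H c.1.1) c.1.2 := not_lt.1 hc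
    set n := csize (H c.1.1) c.1.2 with hn'
    set Z : Set V := {w | (H c.1.1).Reachable c.1.2 w} with hZ
    have hYn : (Y ∩ Z).ncard * Λ ≤ n :=
      card_far (hdeg c.1.1) c.1.2 c.2.1 Y Λ hn (by
        intro a ha b hb hab p
        have h3 := hsep a ha b hb hab (p.mapLe (hHG c.1.1))
        rw [Walk.length_mapLe] at h3
        omega)
    have h0n : (D0 ∩ Z).ncard * Λ ≤ n :=
      card_far (hdeg c.1.1) c.1.2 c.2.1 D0 Λ hn (by
        rintro a ⟨y, hy, hy', rfl⟩ b ⟨z, hz, hz', rfl⟩ hab p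
        have h3 := hsep y hy z hz (fun h => hab (by rw [h]))
          (Walk.cons (hPG (haf y hy')) ((p.mapLe (hHG c.1.1)).concat (hPG (haf z hz')).symm))
        rw [Walk.length_cons, Walk.length_concat, Walk.length_mapLe] at h3
        omega)
    have h1n : (D1 ∩ Z).ncard * Λ ≤ n :=
      card_far (hdeg c.1.1) c.1.2 c.2.1 D1 Λ hn (by
        rintro a ⟨d, hd, rfl⟩ b ⟨d', hd', rfl⟩ hab p
        have h3 := hfar d d' hd hd' (fun h => hab (by rw [h])) _ _
          (hreach _ _ (hs0 d hd).1 _ (Or.inl rfl)) (hreach _ _ (hs0 d' hd').1 _ (Or.inl rfl))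
          (p.mapLe (hHG c.1.1))
        rw [Walk.length_mapLe] at h3
        omega)
    have h2n : (D2 ∩ Z).ncard * Λ ≤ n :=
      card_far (hdeg c.1.1) c.1.2 c.2.1 D2 Λ hn (by
        rintro a ⟨d, hd, rfl⟩ b ⟨d', hd', rfl⟩ hab p
        have h3 := hfar d d' hd hd' (fun h => hab (by rw [h])) _ _
          (hreach _ _ (hs0 d hd).1 _ (Or.inr rfl)) (hreach _ _ (hs0 d' hd').1 _ (Or.inr rfl))
          (p.mapLe (hHG c.1.1))
        rw [Walk.length_mapLe] at h3
        omega)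
    have h3n : (D3 ∩ Z).ncard * Λ ≤ n :=
      card_far (hdeg c.1.1) c.1.2 c.2.1 D3 Λ hn (by
        rintro a ⟨d, hd, w, haw, hw⟩ b ⟨d', hd', w', hbw, hw'⟩ hab p
        have hne : d ≠ d' := by
          rintro rfl
          have h4 : w = w' := hw.unique hw'
          subst h4
          exact hab ((Set.ncard_le_one (Set.toFinite _)).1 (partner_deg hP1 hP2 w) a haw.symm b
            hbw.symm)
        obtain ⟨q, hq⟩ := hpw w a haw.symm
        obtain ⟨q', hq'⟩ := hpw b w' hbw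
        have h3 := hfar d d' hd hd' hne _ _
          (hreach _ _ (hs0 d hd).1 _ hw.inc) (hreach _ _ (hs0 d' hd').1 _ hw'.inc)
          (q.append ((p.mapLe (hHG c.1.1)).append q'))
        rw [Walk.length_append, Walk.length_append, Walk.length_mapLe] at h3
        omega)
    have hcount := count_avoid (Y ∪ D0 ∪ D1 ∪ D2 ∪ D3) c
    have hunion : ((Y ∪ D0 ∪ D1 ∪ D2 ∪ D3) ∩ Z).ncard ≤ (Y ∩ Z).ncard + (D0 ∩ Z).ncard +
        (D1 ∩ Z).ncard + (D2 ∩ Z).ncard + (D3 ∩ Z).ncard := by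
      have e1 : (Y ∪ D0 ∪ D1 ∪ D2 ∪ D3) ∩ Z =
          (Y ∩ Z) ∪ (D0 ∩ Z) ∪ (D1 ∩ Z) ∪ (D2 ∩ Z) ∪ (D3 ∩ Z) := by
        ext x
        simp only [Set.mem_inter_iff, Set.mem_union]
        tauto
      rw [e1]
      have e2 := Set.ncard_union_le ((Y ∩ Z) ∪ (D0 ∩ Z) ∪ (D1 ∩ Z) ∪ (D2 ∩ Z)) (D3 ∩ Z)
      have e3 := Set.ncard_union_le ((Y ∩ Z) ∪ (D0 ∩ Z) ∪ (D1 ∩ Z)) (D2 ∩ Z)
      have e4 := Set.ncard_union_le ((Y ∩ Z) ∪ (D0 ∩ Z)) (D1 ∩ Z)
      have e5 := Set.ncard_union_le (Y ∩ Z) (D0 ∩ Z)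
      omega
    have hsub : {e : EE H | cl e = c ∧ aa e ∉ Y ∪ D0 ∪ D1 ∪ D2 ∪ D3 ∧
        bb e ∉ Y ∪ D0 ∪ D1 ∪ D2 ∪ D3} ⊆ {e : EE H | cl e = c ∧ (aa e ∉ Y ∧ bb e ∉ Y ∧
        ∀ y, P.Adj y (aa e) → ¬ P.Adj y (bb e)) ∧
        ∀ c', short c' → ¬ conf (partner P Y) key e (s0 c')} := by
      rintro e ⟨he, ha, hb⟩
      simp only [Set.mem_union, not_or] at ha hb
      refine ⟨he, ⟨ha.1.1.1.1, hb.1.1.1.1, ?_⟩, ?_⟩
      · intro y hya hyb
        have hyY : y ∈ Y := by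
          by_contra hy
          exact ends_ne e ((Set.ncard_le_one (Set.toFinite _)).1 (hP1 y hy) _ hya _ hyb)
        have hyaf := haf y ⟨_, hya⟩
        have h4 : af y = aa e ∨ af y = bb e := by
          by_contra hno
          push Not at hno
          have hsub : ({aa e, bb e, af y} : Set V) ⊆ P.neighborSet y := by
            rintro z (rfl | rfl | rfl)
            · exact hya
            · exact hyb
            · exact hyaf
          have h8 := Set.ncard_le_ncard hsub (Set.toFinite _)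
          have h9 : ({aa e, bb e, af y} : Set V).ncard = 3 := by
            rw [Set.ncard_eq_three]
            exact ⟨_, _, _, ends_ne e, hno.1.symm, hno.2.symm, rfl⟩
          have h10 := hP2 y
          omega
        rcases h4 with h4 | h4
        · exact ha.1.1.1.2 ⟨y, hyY, ⟨_, hya⟩, h4.symm⟩
        · exact hb.1.1.1.2 ⟨y, hyY, ⟨_, hya⟩, h4.symm⟩
      · rintro c' hc' ⟨_, ⟨v, h1, h2⟩ | ⟨v, w, h1, h2, h3⟩⟩
        · rcases h2 with h2 | h2 <;> rcases h1 with h1 | h1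
          · exact ha.1.1.2 ⟨c', hc', h2.trans h1.symm⟩
          · exact hb.1.1.2 ⟨c', hc', h2.trans h1.symm⟩
          · exact ha.1.2 ⟨c', hc', h2.trans h1.symm⟩
          · exact hb.1.2 ⟨c', hc', h2.trans h1.symm⟩
        · rcases h2.inc with h4 | h4
          · exact ha.2 ⟨c', hc', w, by rw [h4]; exact h1, h3⟩
          · exact hb.2 ⟨c', hc', w, by rw [h4]; exact h1, h3⟩
    have h5 := Set.ncard_le_ncard hsub (Set.toFinite _)
    refine le_trans ?_ h5
    rw [← hn', ← hZ] at hcount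
    generalize {e : EE H | cl e = c ∧ aa e ∉ Y ∪ D0 ∪ D1 ∪ D2 ∪ D3 ∧
        bb e ∉ Y ∪ D0 ∪ D1 ∪ D2 ∪ D3}.ncard = g at *
    generalize ((Y ∪ D0 ∪ D1 ∪ D2 ∪ D3) ∩ Z).ncard = m at *
    have h6 : m * Λ ≤ 5 * n := by
      have h7 := Nat.mul_le_mul_right Λ hunion
      have h8 : ((Y ∩ Z).ncard + (D0 ∩ Z).ncard + (D1 ∩ Z).ncard + (D2 ∩ Z).ncard +
          (D3 ∩ Z).ncard) * Λ = (Y ∩ Z).ncard * Λ + (D0 ∩ Z).ncard * Λ + (D1 ∩ Z).ncard * Λ +
          (D2 ∩ Z).ncard * Λ + (D3 ∩ Z).ncard * Λ := by ring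
      omega
    by_contra hlt
    push Not at hlt
    have h7 : 11 ≤ Λ := by omega
    obtain ⟨t, ht⟩ : ∃ t, Λ = t + 10 := ⟨Λ - 10, by omega⟩
    rw [ht] at hlt h6 hn
    have h8 : t + 10 - 10 = t := by omega
    rw [h8] at hlt
    have h9 : n * (t + 10) ≤ g * (t + 10) + 2 * (m * (t + 10)) := by
      have := Nat.mul_le_mul_right (t + 10) hcount
      linarith [this]
    have h10 : g * (t + 10) + (t + 10) ≤ t * (t + 10) := by
      have := Nat.mul_le_mul_right (t + 10) (show g + 1 ≤ t from hlt)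
      linarith [this]
    have h11 : (t + 10) * t ≤ n * t := Nat.mul_le_mul_right _ hn
    have h12 : n * (t + 10) = n * t + 10 * n := by ring
    have h13 : (t + 10) * t = t * (t + 10) := by ring
    omega

theorem odd_core_sparse {V κ : Type} [Finite V] [Fintype κ] (G : SimpleGraph V)
    (H : κ → SimpleGraph V)
    (P : SimpleGraph V) (Y : Set V) (N R Λ : ℕ) (hs : Sparse N G) (hHG : ∀ i, H i ≤ G)
    (hPG : P ≤ G) (hPH : ∀ i a b, P.Adj a b → ¬ (H i).Adj a b)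
    (hHH : ∀ i j, i ≠ j → ∀ a b, (H i).Adj a b → ¬ (H j).Adj a b)
    (hdeg : ∀ i v, ((H i).neighborSet v).ncard ≤ 2)
    (hP1 : ∀ v, v ∉ Y → (P.neighborSet v).ncard ≤ 1) (hP2 : ∀ v, (P.neighborSet v).ncard ≤ 2)
    (hsep : ∀ a ∈ Y, ∀ b ∈ Y, a ≠ b → ∀ p : G.Walk a b, 2 * R + 1 ≤ p.length)
    (hΛ : Λ = 12 * Fintype.card κ + 2) (hR : Λ + 1 ≤ 2 * R) (hN : 3 * Λ + 2 ≤ N) :
    Cov (P ⊔ ⨆ i, H i) (Fintype.card κ + 1) := by
  refine odd_core G H P Y R Λ hHG hPG ?_ ?_ hdeg hP1 hP2 hsep hΛ hR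
  · intro i j x x' hx hx' hc hc' hne z z' hz hz' p
    have h1 := far hs (hHG i) (hHG j) hx hx' (by
      by_cases hi : i = j
      · subst hi
        right
        refine ⟨rfl, ?_⟩
        rcases hne with h | h
        · exact absurd rfl h
        · exact h
      · left
        exact hHH _ _ hi) hz hz' p
    omega
  · intro i x hx hc a b y ha hb hab hya hyb
    exact no_bad hs (hHG i) hPG (hPH i) hx (by omega) ha hb hab hya hyb

end Pool.Agent.W5h10.RL
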