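import Pool.Agent.H79.LA.W5h10_RL_SpOdd

set_option autoImplicit false

/-!
The linear arboricity of regular graphs whose short cycles are far apart.
-/

namespace Pool.Agent.W5h10.RL

open Finset SimpleGraph H931R3.LA Pool.Agent.W111.LAR

/-- A cyclic component contains a cycle through each of its vertices. -/
theorem cyc_through {V : Type} [Finite V] {H : SimpleGraph V}
    (hdeg : ∀ v, (H.neighborSet v).ncard ≤ 2) {x : V} (hx : Cyc H x) :
    ∃ c : H.Walk x x, c.IsCycle ∧ c.length ≤ csize H x := by
  classical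
  have := Fintype.ofFinite V
  obtain ⟨w, c, hc, hxw⟩ : ∃ (w : V) (c : H.Walk w w), c.IsCycle ∧ H.Reachable x w := by
    let K : Set V := {w | H.Reachable x w}
    let T := H.induce K
    have hdegT : ∀ y : K, (T.neighborSet y).ncard = 2 := by
      intro y
      rw [← hx y.1 y.2]
      have : (Subtype.val '' (T.neighborSet y)) = H.neighborSet y.1 := by
        ext w
        constructor
        · rintro ⟨z, hz, rfl⟩
          exact hz
        · intro hw
          exact ⟨⟨w, (y.2 : H.Reachable x y.1).trans (SimpleGraph.Adj.reachable hw)⟩, hw, rfl⟩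
      rw [← this, Set.ncard_image_of_injective _ Subtype.val_injective]
    have hnot : ¬ T.IsAcyclic := by
      intro hac
      obtain ⟨y, hy⟩ := H931R3.LA.exists_end T ⟨hac, fun y => (hdegT y).le⟩ ⟨x, Reachable.refl x⟩
      rw [hdegT y] at hy
      omega
    unfold SimpleGraph.IsAcyclic at hnot
    push Not at hnot
    obtain ⟨y, c, hc⟩ := hnot
    exact ⟨_, c.map (Embedding.induce (G := H) K).toHom,
      hc.map (Embedding.induce (G := H) K).injective, y.2⟩
  have hxs : x ∈ c.support := (closed_cycle le_rfl hdeg hc x hxw.symm).1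
  refine ⟨c.rotate x hxs, hc.rotate hxs, ?_⟩
  have h1 : (c.rotate x hxs).support.tail.Nodup := (hc.rotate hxs).support_nodup
  have h2 : (c.rotate x hxs).length = (c.rotate x hxs).support.tail.toFinset.card := by
    rw [List.toFinset_card_of_nodup h1, List.length_tail, Walk.length_support,
      Nat.add_sub_cancel]
  rw [h2, csize, ← Set.ncard_coe_finset]
  refine Set.ncard_le_ncard ?_ (Set.toFinite _)
  intro u hu
  rw [mem_coe, List.mem_toFinset] at hu
  exact ((c.rotate x hxs).takeUntil u (List.mem_of_mem_tail hu)).reachable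

/-- Even degree: the reciprocals of the lengths of pairwise edge-disjoint cycles through a vertex
sum up to at most one half. -/
theorem even_load {V : Type} [Finite V] (G : SimpleGraph V) (k : ℕ)
    (hdeg : ∀ v, (G.neighborSet v).ncard ≤ 2 * k)
    (hcyc : ∀ (v : V) (m : ℕ) (c : Fin m → G.Walk v v), (∀ i, (c i).IsCycle) →
      (∀ i j, i ≠ j → ∀ e ∈ (c i).edges, e ∉ (c j).edges) →
      ∑ i, (1 : ℝ) / (c i).length ≤ 1 / 2) : Cov G (k + 1) := by
  classical
  obtain ⟨H, hH, hdis, rfl⟩ := decomp_disj G k hdeg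
  have h1 := cov_of_load H hH (by
    intro v
    have hc : ∀ i, ∃ c : (H i).Walk v v, Cyc (H i) v → c.IsCycle ∧ c.length ≤ csize (H i) v := by
      intro i
      by_cases h : Cyc (H i) v
      · obtain ⟨c, hc⟩ := cyc_through (hH i) h
        exact ⟨c, fun _ => hc⟩
      · exact ⟨Walk.nil, fun h' => absurd h' h⟩
    choose c hc using hc
    let I : Finset (Fin k) := univ.filter (fun i => Cyc (H i) v)
    have hle : ∀ i, H i ≤ ⨆ i, H i := fun i => le_iSup H i
    let e : Fin I.card ≃ I := I.equivFin.symm
    have hI : ∀ j : I, Cyc (H j.1) v := fun j => (mem_filter.1 j.2).2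
    have h2 := hcyc v I.card (fun j => (c (e j).1).mapLe (hle _))
      (fun j => (hc (e j).1 (hI _)).1.mapLe (hle _)) (by
        intro i j hij d hd hd'
        rw [Walk.edges_mapLe_eq_edges] at hd hd'
        have hne : (e i).1 ≠ (e j).1 := fun h => hij (e.injective (Subtype.ext h))
        have h3 := Walk.edges_subset_edgeSet _ hd
        have h4 := Walk.edges_subset_edgeSet _ hd'
        induction d with
        | _ a b => exact hdis _ _ hne a b h3 h4)
    have h3 : ∑ j : Fin I.card, (1 : ℝ) / ((c (e j).1).mapLe (hle _)).length =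
        ∑ i ∈ I, (1 : ℝ) / (c i).length := by
      rw [← sum_coe_sort I]
      rw [← e.sum_comp]
      refine sum_congr rfl fun j _ => ?_
      rw [Walk.length_mapLe]
    rw [h3] at h2
    have h4 : ∑ i, (if Cyc (H i) v then (2 : ℝ) / csize (H i) v else 0) =
        ∑ i ∈ I, (2 : ℝ) / csize (H i) v := by
      rw [← sum_filter]
    have h5 : ∑ i ∈ I, (2 : ℝ) / csize (H i) v ≤ ∑ i ∈ I, 2 * ((1 : ℝ) / (c i).length) := by
      refine sum_le_sum fun i hi => ?_
      obtain ⟨h6, h7⟩ := hc i (mem_filter.1 hi).2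
      have h8 : (0 : ℝ) < (c i).length := by
        have := h6.three_le_length
        exact_mod_cast (by omega : 0 < (c i).length)
      have h9 : ((c i).length : ℝ) ≤ csize (H i) v := by exact_mod_cast h7
      rw [mul_one_div]
      exact div_le_div_of_nonneg_left (by norm_num) h8 h9
    rw [← mul_sum] at h5
    rw [show (∑ i, (if Cyc (H i) v then (2 : ℝ) / csize (H i) v else 0)) =
      ∑ i ∈ I, (2 : ℝ) / csize (H i) v from h4]
    linarith)
  rwa [Fintype.card_fin] at h1

theorem matching_case {V : Type} [Finite V] [Nonempty V] (G : SimpleGraph V) (r : ℕ)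
    (ho : Odd r) (hreg : ∀ v, (G.neighborSet v).ncard = r)
    (hM : ∃ M : G.Subgraph, M.IsPerfectMatching)
    (hcyc : ∀ (v w : V) (c : G.Walk v v) (d : G.Walk w w), c.IsCycle → d.IsCycle →
      c.length < 6 * r → d.length < 6 * r → (∀ e ∈ c.edges, e ∉ d.edges) →
      ∀ p : G.Walk v w, 6 * r ≤ p.length) : la G = (r + 2) / 2 := by
  classical
  obtain ⟨k, rfl⟩ := ho
  obtain ⟨M, hM⟩ := hM
  refine la_eq_of_cov (by omega) hreg ?_
  have hle : G \ M.spanningCoe ≤ G := sdiff_le
  have hdeg : ∀ v, ((G \ M.spanningCoe).neighborSet v).ncard ≤ 2 * k := by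
    intro v
    have := (ncard_sdiff_matching hM v).2
    rw [hreg v] at this
    omega
  obtain ⟨H, hH, hdis, hsup⟩ := decomp_disj (G \ M.spanningCoe) k hdeg
  have hHG : ∀ i, H i ≤ G := fun i => (le_iSup H i).trans (hsup.le.trans hle)
  have hPG : M.spanningCoe ≤ G := fun u w h => M.adj_sub h
  have h1 := odd_core G H M.spanningCoe ∅ (6 * k + 2) (12 * k + 2) hHG hPG ?_ ?_ hH
    (fun v _ => (ncard_sdiff_matching hM v).1.le)
    (fun v => by rw [(ncard_sdiff_matching hM v).1]; norm_num)
    (fun a ha => absurd ha (Set.notMem_empty a)) (by rw [Fintype.card_fin]) (by omega)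
  · rw [Fintype.card_fin, hsup] at h1
    have h4 : M.spanningCoe ⊔ G \ M.spanningCoe = G := by
      rw [sup_sdiff_self_right]
      exact sup_eq_right.2 hPG
    rw [h4] at h1
    have h3 : (2 * k + 1 + 2) / 2 = k + 1 := by omega
    rwa [h3]
  · intro i j x x' hx hx' hc hc' hne z z' hz hz' p
    obtain ⟨c, hcc, hcl⟩ := cyc_through (hH i) (hx.trans hz)
    obtain ⟨d, hdc, hdl⟩ := cyc_through (hH j) (hx'.trans hz')
    rw [← csize_eq hz] at hcl
    rw [← csize_eq hz'] at hdl
    have h2 := hcyc z z' (c.mapLe (hHG i)) (d.mapLe (hHG j)) (hcc.mapLe _) (hdc.mapLe _)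
      (by rw [Walk.length_mapLe]; omega) (by rw [Walk.length_mapLe]; omega) (by
        intro e he he'
        rw [Walk.edges_mapLe_eq_edges] at he he'
        by_cases hij : i = j
        · subst hij
          rcases hne with h | h
          · exact h rfl
          · induction e with
            | _ a b =>
              have h5 := Walk.fst_mem_support_of_mem_edges _ he
              have h6 := Walk.fst_mem_support_of_mem_edges _ he'
              exact h (hz.trans ((c.takeUntil a h5).reachable.trans
                ((d.takeUntil a h6).reachable.symm.trans hz'.symm)))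
        · have h3 := Walk.edges_subset_edgeSet _ he
          have h4 := Walk.edges_subset_edgeSet _ he'
          induction e with
          | _ a b => exact hdis _ _ hij a b h3 h4) p
    omega
  · intro i x _ _ a b y _ _ hab hya hyb
    exact hab ((Set.ncard_le_one (Set.toFinite _)).1 ((ncard_sdiff_matching hM y).1.le) a hya b
      hyb)

theorem odd_sparse {V : Type} [Finite V] [Nonempty V] (G : SimpleGraph V) (r : ℕ)
    (ho : Odd r) (hreg : ∀ v, (G.neighborSet v).ncard = r) (hs : Sparse (6 * r ^ 2 - 2 * r) G) :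
    la G = (r + 2) / 2 := by
  classical
  obtain ⟨k, rfl⟩ := ho
  refine la_eq_of_cov (by omega) hreg ?_
  have h3 : (2 * k + 1 + 2) / 2 = k + 1 := by omega
  rw [h3]
  rcases Nat.eq_zero_or_pos k with hk | hk
  · subst hk
    have h1 := cov_matching (fun i : Fin 0 => (⊥ : SimpleGraph V)) G (fun i => i.elim0)
      (fun v => by rw [hreg v]; omega) 0 (by simp) (fun i => i.elim0)
    simpa using h1
  · have hNe : 6 * (2 * k + 1) ^ 2 - 2 * (2 * k + 1) = 24 * k ^ 2 + 20 * k + 4 := by
      have : 6 * (2 * k + 1) ^ 2 = 24 * k ^ 2 + 20 * k + 4 + 2 * (2 * k + 1) := by ring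
      omega
    rw [hNe] at hs
    obtain ⟨P, Y, hPG, hPpos, hP1, hP2, hsep⟩ := exists_sep_sparse G (2 * k + 1) (6 * k + 2)
      (24 * k ^ 2 + 20 * k + 4) (by omega) (by omega) (by
        have : 2 * (2 * k + 1) * (6 * k + 2) = 24 * k ^ 2 + 20 * k + 4 := by ring
        exact this.le) hreg hs
    have hle : G \ P ≤ G := sdiff_le
    have hdeg : ∀ v, ((G \ P).neighborSet v).ncard ≤ 2 * k := by
      intro v
      have h4 : (G \ P).neighborSet v = G.neighborSet v \ P.neighborSet v := by
        ext u
        simp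
      have h5 : P.neighborSet v ⊆ G.neighborSet v := fun u hu => hPG hu
      have h6 := Set.ncard_sdiff_add_ncard_of_subset h5 (Set.toFinite _)
      have h7 := hPpos v
      rw [hreg v] at h6
      rw [h4]
      omega
    obtain ⟨H, hH, hdis, hsup⟩ := decomp_disj (G \ P) k hdeg
    have hHG : ∀ i, H i ≤ G := fun i => (le_iSup H i).trans (hsup.le.trans hle)
    have h1 := odd_core_sparse G H P Y (24 * k ^ 2 + 20 * k + 4) (6 * k + 2) (12 * k + 2) hs hHG
      hPG (fun i a b h h' => (hsup.le ((le_iSup H i) h')).2 h) hdis hH hP1 hP2 hsep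
      (by rw [Fintype.card_fin]) (by omega) (by
        have : k ≤ k ^ 2 := Nat.le_self_pow (by norm_num) k
        omega)
    rw [Fintype.card_fin, hsup] at h1
    have h4 : P ⊔ G \ P = G := by
      rw [sup_sdiff_self_right]
      exact sup_eq_right.2 hPG
    rwa [h4] at h1

theorem all_sparse {V : Type} [Finite V] [Nonempty V] (G : SimpleGraph V) (r : ℕ) (hr : 0 < r)
    (hreg : ∀ v, (G.neighborSet v).ncard = r) (hs : Sparse (6 * r ^ 2) G) :
    la G = (r + 2) / 2 := by
  rcases Nat.even_or_odd r with he | ho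
  · obtain ⟨k, rfl⟩ := he
    refine la_eq_of_cov hr hreg ?_
    have h3 : (k + k + 2) / 2 = k + 1 := by omega
    rw [h3]
    refine even_sparse G k (fun v => by rw [hreg v]; omega) (hs.mono ?_)
    have h4 : 6 * (k + k) ^ 2 = 24 * k ^ 2 := by ring
    have h5 : k ≤ k ^ 2 := Nat.le_self_pow (by norm_num) k
    omega
  · exact odd_sparse G r ho hreg (hs.mono (Nat.sub_le _ _))

end Pool.Agent.W5h10.RL
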