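import Pool.Agent.H79.LA.X76_Blow1
import Pool.Agent.H79.LA.TH525_LAD_Konig

set_option autoImplicit false

/-!
Hamilton decompositions of blow-ups of bipartite regular graphs.
-/

namespace Pool.Agent.X76.Blow

open SimpleGraph Finset

section Alpha

variable {V : Type} [Fintype V] (G : SimpleGraph V) (k : ℕ)

/-- a pairing of the neighbours of every vertex coming from an Euler tour -/
theorem exists_alpha [NeZero k] (hconn : G.Connected)
    (hdeg : ∀ v, (G.neighborSet v).ncard = 2 * k) :
    ∃ (N : ℕ) (_ : NeZero N) (τ : ZMod N → V) (α : V → V → ZMod k),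
      (∀ s, G.Adj (τ s) (τ (s + 1))) ∧ (∀ v, ∃ s, τ s = v) ∧
      (∀ s, α (τ (s + 1)) (τ s) = α (τ (s + 1)) (τ (s + 2))) ∧
      ∀ v l, {u | G.Adj v u ∧ α v u = l}.ncard = 2 := by
  classical
  have hk : k ≠ 0 := NeZero.ne k
  have hdeg' : ∀ v, G.degree v = 2 * k := by
    intro v
    rw [← hdeg v, ← card_neighborFinset_eq_degree, Set.ncard_eq_toFinset_card']
    rfl
  obtain ⟨N, hN, τ, hadj, huniq⟩ := Euler.exists_tour G hconn (by
    intro v; rw [hdeg']; exact even_two_mul k) (by
    obtain ⟨a⟩ := hconn.nonempty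
    have h1 : 0 < G.degree a := by rw [hdeg']; omega
    rw [degree_pos_iff_exists_adj] at h1
    exact ⟨_, h1⟩)
  have hv : ∀ v, {s | τ s = v}.ncard = k := by
    intro v
    have h1 := visits G τ hadj huniq v
    rw [hdeg'] at h1
    rw [Set.ncard_eq_toFinset_card', Set.toFinset_ofPred]
    omega
  obtain ⟨c, hc⟩ := fibP (K := ZMod k) τ (fun _ => True) (by
    intro v _
    rw [hv, Nat.card_zmod])
  -- the time of an edge
  let tm : V → V → ZMod N := fun v u => if h : G.Adj v u then (huniq v u h).choose else 0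
  have htm : ∀ v u, G.Adj v u → s(τ (tm v u), τ (tm v u + 1)) = s(v, u) := by
    intro v u h
    simp only [tm, dif_pos h]
    exact (huniq v u h).choose_spec.1
  have htm' : ∀ v u s, G.Adj v u → s(τ s, τ (s + 1)) = s(v, u) → s = tm v u := by
    intro v u s h h2
    simp only [tm, dif_pos h]
    exact (huniq v u h).choose_spec.2 s h2
  let vis : V → V → ZMod N := fun v u => if τ (tm v u) = v then tm v u else tm v u + 1
  -- next and previous vertices
  have hnext : ∀ s, vis (τ s) (τ (s + 1)) = s := by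
    intro s
    have h1 : s = tm (τ s) (τ (s + 1)) := htm' _ _ s (hadj s) rfl
    simp only [vis]
    rw [← h1, if_pos rfl]
  have hprev : ∀ s, vis (τ (s + 1)) (τ s) = s + 1 := by
    intro s
    have h1 : s = tm (τ (s + 1)) (τ s) := htm' _ _ s (hadj s).symm Sym2.eq_swap
    simp only [vis]
    rw [← h1, if_neg (hadj s).ne]
  have hvis : ∀ v u, G.Adj v u → τ (vis v u) = v ∧ (u = τ (vis v u + 1) ∨ u = τ (vis v u - 1)) := by
    intro v u h
    have h1 := htm v u h
    simp only [vis]
    rw [Sym2.eq_iff] at h1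
    split_ifs with h2
    · refine ⟨h2, Or.inl ?_⟩
      rcases h1 with ⟨-, h4⟩ | ⟨h3, h4⟩
      · exact h4.symm
      · exact absurd (h3.symm.trans h2) h.ne'
    · rcases h1 with ⟨h3, h4⟩ | ⟨h3, h4⟩
      · exact absurd h3 h2
      · exact ⟨h4, Or.inr (by rw [add_sub_cancel_right]; exact h3.symm)⟩
  refine ⟨N, hN, τ, fun v u => c (vis v u), hadj, ?_, ?_, ?_⟩
  · intro v
    have h1 : {s | τ s = v}.Nonempty := by
      rw [← Set.ncard_pos, hv]; omega
    exact h1
  · intro s
    simp only
    rw [hprev]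
    have h1 := hnext (s + 1)
    rw [show s + 1 + 1 = s + 2 by ring] at h1
    rw [h1]
  · intro v l
    obtain ⟨s, ⟨hs1, hs2⟩, hs3⟩ := hc v trivial l
    have h1 : {u | G.Adj v u ∧ c (vis v u) = l} = {τ (s + 1), τ (s - 1)} := by
      ext u
      simp only [Set.mem_ofPred_eq, Set.mem_insert_iff, Set.mem_singleton_iff]
      constructor
      · rintro ⟨h2, h3⟩
        obtain ⟨h4, h5⟩ := hvis v u h2
        have h6 : vis v u = s := hs3 _ ⟨h4, h3⟩
        rw [h6] at h5
        exact h5
      · rintro (rfl | rfl)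
        · have h2 := hadj s
          have h3 := hnext s
          rw [hs1] at h2 h3
          exact ⟨h2, by rw [h3]; exact hs2⟩
        · have h2 := hadj (s - 1)
          have h3 := hprev (s - 1)
          rw [sub_add_cancel, hs1] at h2 h3
          exact ⟨h2.symm, by rw [h3]; exact hs2⟩
    rw [h1, Set.ncard_pair]
    intro h2
    -- the two edges at `v` would have the same time
    have h3 : s(τ (s - 1), τ (s - 1 + 1)) = s(τ s, τ (s + 1)) := by
      rw [sub_add_cancel, h2, Sym2.eq_swap]
    have h4 := (huniq _ _ (hadj s)).unique h3 rfl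
    have h5 := hadj (s - 1)
    rw [sub_add_cancel, h4] at h5
    exact h5.ne rfl

/-- a pairing of the neighbours coming from a 1-factorisation -/
theorem exists_beta [NeZero k] (χ : V → Bool) (hχ : ∀ u v, G.Adj u v → χ u ≠ χ v)
    (hdeg : ∀ v, (G.neighborSet v).ncard = 2 * k) :
    ∃ β : V → V → ZMod k, (∀ v u, β v u = β u v) ∧
      ∀ v l, {u | G.Adj v u ∧ β v u = l}.ncard = 2 := by
  classical
  have hk : k ≠ 0 := NeZero.ne k
  have hdeg' : ∀ v, G.degree v = 2 * k := by
    intro v
    rw [← hdeg v, ← card_neighborFinset_eq_degree, Set.ncard_eq_toFinset_card']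
    rfl
  obtain ⟨φ, hsym, hlt, hinj⟩ := TH525.LAD.konig_graph G (2 * k) χ hχ (fun v => (hdeg' v).le)
  -- all colours occur at every vertex
  have hsurj : ∀ v, ∀ q < 2 * k, ∃ u, G.Adj v u ∧ φ v u = q := by
    intro v q hq
    have h1 : (G.neighborFinset v).image (φ v) = Finset.range (2 * k) := by
      apply Finset.eq_of_subset_of_card_le
      · intro x hx
        rw [mem_image] at hx
        obtain ⟨u, hu, rfl⟩ := hx
        rw [mem_neighborFinset] at hu
        exact mem_range.2 (hlt v u hu)
      · rw [card_image_of_injOn, card_range, card_neighborFinset_eq_degree, hdeg']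
        intro a ha b hb hab
        rw [Finset.mem_coe, mem_neighborFinset] at ha hb
        exact hinj v a b ha hb hab
    have h2 : q ∈ (G.neighborFinset v).image (φ v) := by rw [h1]; exact mem_range.2 hq
    rw [mem_image] at h2
    obtain ⟨u, hu, h3⟩ := h2
    rw [mem_neighborFinset] at hu
    exact ⟨u, hu, h3⟩
  refine ⟨fun v u => ((φ v u / 2 : ℕ) : ZMod k), fun v u => by simp only; rw [hsym], ?_⟩
  intro v l
  have hl := ZMod.val_lt l
  obtain ⟨u0, h0, h0'⟩ := hsurj v (2 * l.val) (by omega)
  obtain ⟨u1, h1, h1'⟩ := hsurj v (2 * l.val + 1) (by omega)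
  have h2 : {u | G.Adj v u ∧ ((φ v u / 2 : ℕ) : ZMod k) = l} = {u0, u1} := by
    ext u
    simp only [Set.mem_ofPred_eq, Set.mem_insert_iff, Set.mem_singleton_iff]
    constructor
    · rintro ⟨h3, h4⟩
      have h5 := hlt v u h3
      have h6 : φ v u / 2 = l.val := by
        rw [← h4, ZMod.val_natCast, Nat.mod_eq_of_lt (by omega)]
      have h7 : φ v u = 2 * l.val ∨ φ v u = 2 * l.val + 1 := by omega
      rcases h7 with h7 | h7
      · left; exact hinj v u u0 h3 h0 (by rw [h7, h0'])
      · right; exact hinj v u u1 h3 h1 (by rw [h7, h1'])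
    · rintro (rfl | rfl)
      · refine ⟨h0, ?_⟩
        rw [h0', show 2 * l.val / 2 = l.val by omega, ZMod.natCast_zmod_val]
      · refine ⟨h1, ?_⟩
        rw [h1', show (2 * l.val + 1) / 2 = l.val by omega, ZMod.natCast_zmod_val]
  rw [h2, Set.ncard_pair]
  rintro rfl
  omega

end Alpha

end Pool.Agent.X76.Blow
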