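import Pool.Agent.H79.LA.X76_Blow2

set_option autoImplicit false

/-!
Hamilton decompositions of blow-ups of connected bipartite regular graphs.
-/

namespace Pool.Agent.X76.Blow

open SimpleGraph Finset

theorem conn_aux {V : Type} (G : SimpleGraph V) (χ : V → Bool) (hχ : ∀ u v, G.Adj u v → χ u ≠ χ v)
    {N : ℕ} [NeZero N] (τ : ZMod N → V) (hadj : ∀ s, G.Adj (τ s) (τ (s + 1)))
    (hsurj : ∀ v, ∃ s, τ s = v) {B : Type} (R : {v // χ v = true} → B → Prop)
    (hpair : ∀ s, ∀ (h1 : χ (τ s) = true) (h2 : χ (τ (s + 2)) = true),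
      ∃ b, R ⟨τ s, h1⟩ b ∧ R ⟨τ (s + 2), h2⟩ b)
    (hb : ∀ b, ∃ a, R a b) : (bip R).Connected := by
  have hflip : ∀ s, χ (τ (s + 1)) = !χ (τ s) := by
    intro s
    have h1 := hχ _ _ (hadj s)
    revert h1
    cases χ (τ s) <;> cases χ (τ (s + 1)) <;> simp
  obtain ⟨s0, hs0⟩ : ∃ s0, χ (τ s0) = true := by
    by_cases h : χ (τ 0) = true
    · exact ⟨0, h⟩
    · refine ⟨0 + 1, ?_⟩
      rw [hflip]
      simpa using h
  have key : ∀ n : ℕ, ∀ h : χ (τ (s0 + n)) = true,
      (bip R).Reachable (Sum.inl ⟨τ s0, hs0⟩) (Sum.inl ⟨τ (s0 + n), h⟩) := by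
    intro n
    induction n using Nat.twoStepInduction with
    | zero =>
      intro h
      have h1 : (⟨τ (s0 + ((0 : ℕ) : ZMod N)), h⟩ : {v // χ v = true}) = ⟨τ s0, hs0⟩ := by
        simp
      rw [h1]
    | one =>
      intro h
      have h1 := hflip s0
      rw [hs0] at h1
      rw [Nat.cast_one, h1] at h
      simp at h
    | more n ih _ =>
      intro h
      have h1 : χ (τ (s0 + n)) = true := by
        have h2 := hflip (s0 + n)
        have h3 := hflip (s0 + n + 1)
        have h4 : s0 + n + 1 + 1 = s0 + ((n + 2 : ℕ) : ZMod N) := by push_cast; ring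
        rw [h4, h, h2] at h3
        simpa using h3.symm
      refine (ih h1).trans ?_
      have h5 : s0 + n + 2 = s0 + ((n + 2 : ℕ) : ZMod N) := by push_cast; ring
      obtain ⟨b, hb1, hb2⟩ := hpair (s0 + n) h1 (by rw [h5]; exact h)
      have h6 : (bip R).Adj (Sum.inl ⟨τ (s0 + n), h1⟩) (Sum.inr b) := hb1
      have h7 : (bip R).Adj (Sum.inr b) (Sum.inl ⟨τ (s0 + n + 2), by rw [h5]; exact h⟩) := hb2
      have h8 : (⟨τ (s0 + n + 2), by rw [h5]; exact h⟩ : {v // χ v = true}) =
          ⟨τ (s0 + ((n + 2 : ℕ) : ZMod N)), h⟩ := by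
        apply Subtype.ext
        simp only
        rw [h5]
      rw [h8] at h7
      exact h6.reachable.trans h7.reachable
  have hall : ∀ x, (bip R).Reachable (Sum.inl ⟨τ s0, hs0⟩) x := by
    have hA : ∀ a, (bip R).Reachable (Sum.inl ⟨τ s0, hs0⟩) (Sum.inl a) := by
      rintro ⟨v, hv⟩
      obtain ⟨s, rfl⟩ := hsurj v
      have h1 : s0 + ((s - s0).val : ZMod N) = s := by
        rw [ZMod.natCast_zmod_val]; ring
      have h2 := key (s - s0).val (by rw [h1]; exact hv)
      have h3 : (⟨τ (s0 + ((s - s0).val : ZMod N)), by rw [h1]; exact hv⟩ : {v // χ v = true}) =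
          ⟨τ s, hv⟩ := by
        apply Subtype.ext
        simp only
        rw [h1]
      rw [h3] at h2
      exact h2
    rintro (a | b)
    · exact hA a
    · obtain ⟨a, ha⟩ := hb b
      have h1 : (bip R).Adj (Sum.inl a) (Sum.inr b) := ha
      exact (hA a).trans h1.reachable
  exact (connected_iff _).2 ⟨fun x y => (hall x).symm.trans (hall y), ⟨Sum.inl ⟨τ s0, hs0⟩⟩⟩

theorem sub_ncard {V : Type} (P Q : V → Prop) (h : ∀ v, P v → Q v) :
    {a : {v // Q v} | P a.1}.ncard = {v | P v}.ncard := by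
  rw [← Set.ncard_image_of_injective _ Subtype.val_injective]
  congr 1
  ext v
  simp only [Set.mem_image, Set.mem_ofPred_eq, Subtype.exists, exists_and_right, exists_eq_right]
  constructor
  · rintro ⟨_, h1⟩; exact h1
  · intro h1; exact ⟨h v h1, h1⟩

theorem main_conn {V W : Type} [Fintype V] [Fintype W] (G : SimpleGraph V) (hconn : G.Connected)
    (χ : V → Bool) (hχ : ∀ u v, G.Adj u v → χ u ≠ χ v) (k m : ℕ) [NeZero k] [NeZero m]
    (hkm : k ≤ m) (hdeg : ∀ v, (G.neighborSet v).ncard = 2 * k)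
    (f : W → V) (hf : ∀ v, {w | f w = v}.ncard = m) :
    ∃ F : ZMod k × ZMod m → ZMod (Fintype.card W) → W, HD (G.comap f) (Fintype.card W) F := by
  classical
  have hk : k ≠ 0 := NeZero.ne k
  obtain ⟨N, hN, τ, α, hadj, hsurj, hαs, hα⟩ := exists_alpha G k hconn hdeg
  obtain ⟨β, hβs, hβ⟩ := exists_beta G k χ hχ hdeg
  obtain ⟨t, ht⟩ : ∃ t, t = m / k := ⟨_, rfl⟩
  obtain ⟨s, hs⟩ : ∃ s, s = m % k := ⟨_, rfl⟩
  have hts : k * t + s = m := by rw [ht, hs]; exact Nat.div_add_mod m k
  have ht1 : 1 ≤ t := by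
    rw [ht]
    exact (Nat.one_le_div_iff (Nat.pos_of_ne_zero hk)).2 hkm
  have hcolT : ∀ u v, G.Adj u v → χ u = true → χ v = false := by
    intro u v h h1
    have := hχ u v h
    rw [h1] at this
    revert this
    cases χ v <;> simp
  have hcolF : ∀ u v, G.Adj u v → χ u = false → χ v = true := by
    intro u v h h1
    have := hχ u v h
    rw [h1] at this
    revert this
    cases χ v <;> simp
  obtain ⟨c1, hc1⟩ := fibP (K := ZMod m) f (fun v => χ v = true) (by
    intro v _; rw [hf, Nat.card_zmod])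
  have : Nonempty ((ZMod k × Fin t) ⊕ Fin s) := ⟨Sum.inl (0, ⟨0, ht1⟩)⟩
  have hY : Nat.card ((ZMod k × Fin t) ⊕ Fin s) = m := by
    rw [Nat.card_sum, Nat.card_prod, Nat.card_zmod, Nat.card_fin, Nat.card_fin, hts]
  obtain ⟨c2, hc2⟩ := fibP (K := (ZMod k × Fin t) ⊕ Fin s) f (fun v => χ v = false) (by
    intro v _; rw [hf, hY])
  let io : V → ((ZMod k × Fin t) ⊕ Fin s) → V → ZMod k := fun v y u =>
    match y with
    | Sum.inl p => α v u + p.1
    | Sum.inr e => β v u + (e.val : ZMod k)
  let R : ZMod k → {v // χ v = true} → ({v // χ v = false} × ((ZMod k × Fin t) ⊕ Fin s)) → Prop :=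
    fun i u b => G.Adj b.1.1 u.1 ∧ io b.1.1 b.2 u.1 = i
  have hB : ∀ i b, {a | R i a b}.ncard = 2 := by
    rintro i ⟨⟨v, hv⟩, y⟩
    have h1 := sub_ncard (fun u => G.Adj v u ∧ io v y u = i) (fun u => χ u = true)
      (fun u hu => hcolF v u hu.1 hv)
    have h2 : {a | R i a (⟨v, hv⟩, y)} =
      {a : {v // χ v = true} | G.Adj v a.1 ∧ io v y a.1 = i} := rfl
    rw [h2, h1]
    rcases y with ⟨l, r⟩ | e
    · have h3 : {u | G.Adj v u ∧ io v (Sum.inl (l, r)) u = i} =
          {u | G.Adj v u ∧ α v u = i - l} := by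
        ext u
        simp only [io, Set.mem_ofPred_eq, eq_sub_iff_add_eq]
      rw [h3, hα]
    · have h3 : {u | G.Adj v u ∧ io v (Sum.inr e) u = i} =
          {u | G.Adj v u ∧ β v u = i - (e.val : ZMod k)} := by
        ext u
        simp only [io, Set.mem_ofPred_eq, eq_sub_iff_add_eq]
      rw [h3, hβ]
  have hA : ∀ i a, {b | R i a b}.ncard = 2 * m := by
    rintro i ⟨u, hu⟩
    have hcnt : ∀ (P : {v // χ v = false} → Prop) [DecidablePred P],
        (∑ v : {v // χ v = false}, if P v then 1 else 0) = {v | P v}.ncard := by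
      intro P _
      rw [← Finset.card_filter, Set.ncard_eq_toFinset_card', Set.toFinset_ofPred]
    rw [Set.ncard_eq_toFinset_card', Set.toFinset_ofPred, Finset.card_filter,
      Fintype.sum_prod_type_right, Fintype.sum_sum_type]
    have h1 : ∀ e : Fin s, (∑ v : {v // χ v = false},
        if R i ⟨u, hu⟩ (v, Sum.inr e) then 1 else 0) = 2 := by
      intro e
      rw [hcnt (fun v => R i ⟨u, hu⟩ (v, Sum.inr e))]
      have h2 := sub_ncard (fun v => G.Adj v u ∧ io v (Sum.inr e) u = i) (fun v => χ v = false)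
        (fun v hv => hcolT u v hv.1.symm hu)
      have h3 : {v : {v // χ v = false} | R i ⟨u, hu⟩ (v, Sum.inr e)} =
        {a : {v // χ v = false} | G.Adj a.1 u ∧ io a.1 (Sum.inr e) u = i} := rfl
      rw [h3, h2, ← hβ u (i - (e.val : ZMod k))]
      congr 1
      ext v
      simp only [io, Set.mem_ofPred_eq, eq_sub_iff_add_eq, hβs u v, G.adj_comm v u]
    have h4 : (∑ p : ZMod k × Fin t, ∑ v : {v // χ v = false},
        if R i ⟨u, hu⟩ (v, Sum.inl p) then 1 else 0) = 2 * k * t := by
      rw [Finset.sum_comm]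
      have h5 : ∀ v : {v // χ v = false}, (∑ p : ZMod k × Fin t,
          if R i ⟨u, hu⟩ (v, Sum.inl p) then 1 else 0) = if G.Adj v.1 u then t else 0 := by
        intro v
        by_cases h : G.Adj v.1 u
        · rw [if_pos h, Fintype.sum_prod_type]
          have h6 : ∀ l : ZMod k, (∑ r : Fin t,
              if R i ⟨u, hu⟩ (v, Sum.inl (l, r)) then 1 else 0) =
              if l = i - α v.1 u then t else 0 := by
            intro l
            have h7 : ∀ r : Fin t, R i ⟨u, hu⟩ (v, Sum.inl (l, r)) ↔ l = i - α v.1 u := by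
              intro r
              simp only [R, io, h, true_and, eq_sub_iff_add_eq, add_comm]
            simp only [h7]
            split_ifs <;> simp
          simp only [h6]
          simp
        · rw [if_neg h]
          apply Finset.sum_eq_zero
          intro p _
          rw [if_neg]
          exact fun h1 => h h1.1
      simp only [h5]
      have h8 : ∀ v : {v // χ v = false}, (if G.Adj v.1 u then t else 0) =
          t * (if G.Adj v.1 u then 1 else 0) := by
        intro v; split_ifs <;> simp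
      simp only [h8]
      rw [← Finset.mul_sum, hcnt (fun v => G.Adj v.1 u)]
      have h2 := sub_ncard (fun v => G.Adj v u) (fun v => χ v = false)
        (fun v hv => hcolT u v hv.symm hu)
      rw [h2]
      have h9 : {v | G.Adj v u} = G.neighborSet u := by
        ext v; exact G.adj_comm v u
      rw [h9, hdeg]
      ring
    rw [h4, Finset.sum_congr rfl (fun e _ => h1 e)]
    rw [Finset.sum_const, card_univ, Fintype.card_fin, smul_eq_mul, ← hts]
    ring
  have hC : ∀ i, (bip (R i)).Connected := by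
    intro i
    apply conn_aux G χ hχ τ hadj hsurj
    · intro s h1 h2
      have h3 : χ (τ (s + 1)) = false := hcolT _ _ (hadj s) h1
      refine ⟨(⟨τ (s + 1), h3⟩, Sum.inl (i - α (τ (s + 1)) (τ s), ⟨0, ht1⟩)), ⟨(hadj s).symm, ?_⟩,
        ⟨?_, ?_⟩⟩
      · simp only [io]; ring
      · have h4 := hadj (s + 1)
        rw [show s + 1 + 1 = s + 2 by ring] at h4
        exact h4
      · simp only [io]
        rw [← hαs]; ring
    · intro b
      have h1 := hB i b
      have h2 : {a | R i a b}.Nonempty := by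
        rw [← Set.ncard_pos, h1]; exact two_pos
      exact h2
  have hneA : Nonempty {v // χ v = true} := by
    obtain ⟨z⟩ := (hC 0).nonempty
    rcases z with a | b
    · exact ⟨a⟩
    · have h1 := hB 0 b
      have h2 : {a | R 0 a b}.Nonempty := by
        rw [← Set.ncard_pos, h1]; exact two_pos
      exact ⟨h2.some⟩
  let E : W → (({v // χ v = true} × ZMod m) ⊕
      ({v // χ v = false} × ((ZMod k × Fin t) ⊕ Fin s))) := fun w =>
    if h : χ (f w) = true then Sum.inl (⟨f w, h⟩, c1 w)
    else Sum.inr (⟨f w, by simpa using h⟩, c2 w)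
  have hEl : ∀ w (h : χ (f w) = true), E w = Sum.inl (⟨f w, h⟩, c1 w) := by
    intro w h
    simp only [E, dif_pos h]
  have hEr : ∀ w (h : χ (f w) = false), E w = Sum.inr (⟨f w, h⟩, c2 w) := by
    intro w h
    have h' : ¬ χ (f w) = true := by rw [h]; simp
    simp only [E, dif_neg h']
  have hEb : Function.Bijective E := by
    constructor
    · intro w w' h
      rcases h1 : χ (f w) with _ | _
      · rcases h2 : χ (f w') with _ | _
        · rw [hEr w h1, hEr w' h2] at h
          simp only [Sum.inr.injEq, Prod.mk.injEq, Subtype.mk.injEq] at h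
          exact (hc2 (f w) h1 (c2 w)).unique ⟨rfl, rfl⟩ ⟨h.1.symm, h.2.symm⟩
        · rw [hEr w h1, hEl w' h2] at h
          simp at h
      · rcases h2 : χ (f w') with _ | _
        · rw [hEl w h1, hEr w' h2] at h
          simp at h
        · rw [hEl w h1, hEl w' h2] at h
          simp only [Sum.inl.injEq, Prod.mk.injEq, Subtype.mk.injEq] at h
          exact (hc1 (f w) h1 (c1 w)).unique ⟨rfl, rfl⟩ ⟨h.1.symm, h.2.symm⟩
    · rintro (⟨⟨v, hv⟩, x⟩ | ⟨⟨v, hv⟩, y⟩)
      · obtain ⟨w, ⟨rfl, rfl⟩, -⟩ := hc1 v hv x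
        exact ⟨w, hEl w hv⟩
      · obtain ⟨w, ⟨rfl, rfl⟩, -⟩ := hc2 v hv y
        exact ⟨w, hEr w hv⟩
  have hcard : Fintype.card W = Fintype.card (({v // χ v = true} × ZMod m) ⊕
      ({v // χ v = false} × ((ZMod k × Fin t) ⊕ Fin s))) := Fintype.card_of_bijective hEb
  choose F hF using fun i => core (R i) m (hB i) (hA i) (hC i) (Fintype.card W) hcard
  -- uniqueness on the other side
  have key : ∀ (a : {v // χ v = true}) (x : ZMod m)
      (b : {v // χ v = false} × ((ZMod k × Fin t) ⊕ Fin s)), G.Adj b.1.1 a.1 →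
      ∃! p : (ZMod k × ZMod m) × ZMod (Fintype.card W),
        s(F p.1.1 p.1.2 p.2, F p.1.1 p.1.2 (p.2 + 1)) = s(Sum.inl (a, x), Sum.inr b) := by
    intro a x b hab
    have hR : R (io b.1.1 b.2 a.1) a b := ⟨hab, rfl⟩
    obtain ⟨⟨y, s⟩, h1, h2⟩ := (hF (io b.1.1 b.2 a.1)).2.2 (Sum.inl (a, x)) (Sum.inr b) hR
    refine ⟨((io b.1.1 b.2 a.1, y), s), h1, ?_⟩
    rintro ⟨⟨i, y'⟩, s'⟩ h3
    simp only at h3
    have h4 := (hF i).2.1 y' s'
    rw [← mem_edgeSet, h3, mem_edgeSet] at h4
    have h5 : io b.1.1 b.2 a.1 = i := h4.2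
    subst h5
    have h6 := h2 (y', s') h3
    rw [Prod.mk.injEq] at h6
    rw [h6.1, h6.2]
  let Ei := Equiv.ofBijective E hEb
  have hEi : ∀ z, E (Ei.symm z) = z := fun z => Ei.apply_symm_apply z
  have hfl : ∀ a x, f (Ei.symm (Sum.inl (a, x))) = a.1 := by
    intro a x
    have h1 := hEi (Sum.inl (a, x))
    rcases h2 : χ (f (Ei.symm (Sum.inl (a, x)))) with _ | _
    · rw [hEr _ h2] at h1
      simp at h1
    · rw [hEl _ h2] at h1
      simp only [Sum.inl.injEq, Prod.mk.injEq] at h1
      exact congrArg Subtype.val h1.1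
  have hfr : ∀ b, f (Ei.symm (Sum.inr b)) = b.1.1 := by
    intro b
    have h1 := hEi (Sum.inr b)
    rcases h2 : χ (f (Ei.symm (Sum.inr b))) with _ | _
    · rw [hEr _ h2] at h1
      rw [Sum.inr.injEq] at h1
      exact congrArg (fun z => z.1.1) h1
    · rw [hEl _ h2] at h1
      simp at h1
  refine ⟨fun j s => Ei.symm (F j.1 j.2 s), ?_, ?_, ?_⟩
  · intro j
    exact Ei.symm.bijective.comp ((hF j.1).1 j.2)
  · intro j s
    have h1 := (hF j.1).2.1 j.2 s
    simp only [comap_adj]
    rcases h2 : F j.1 j.2 s with ⟨a, x⟩ | b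
    · rcases h3 : F j.1 j.2 (s + 1) with ⟨a', x'⟩ | b'
      · rw [h2, h3] at h1; exact h1.elim
      · rw [h2, h3] at h1
        rw [hfl, hfr]
        exact h1.1.symm
    · rcases h3 : F j.1 j.2 (s + 1) with ⟨a', x'⟩ | b'
      · rw [h2, h3] at h1
        rw [hfl, hfr]
        exact h1.1
      · rw [h2, h3] at h1; exact h1.elim
  · intro x y hxy
    have htr : ∀ (x y : W) (j : ZMod k × ZMod m) (s : ZMod (Fintype.card W)),
        s(Ei.symm (F j.1 j.2 s), Ei.symm (F j.1 j.2 (s + 1))) = s(x, y) ↔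
        s(F j.1 j.2 s, F j.1 j.2 (s + 1)) = s(E x, E y) := by
      intro x y j s
      constructor
      · intro h
        have h1 := congrArg (Sym2.map E) h
        simp only [Sym2.map_mk, hEi] at h1
        exact h1
      · intro h
        have h1 := congrArg (Sym2.map Ei.symm) h
        simp only [Sym2.map_mk] at h1
        rw [h1]
        congr 1
        · exact Ei.symm_apply_apply x
        · exact Ei.symm_apply_apply y
    have main : ∀ x y : W, G.Adj (f x) (f y) → χ (f x) = true →
        ∃! p : (ZMod k × ZMod m) × ZMod (Fintype.card W),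
          s(Ei.symm (F p.1.1 p.1.2 p.2), Ei.symm (F p.1.1 p.1.2 (p.2 + 1))) = s(x, y) := by
      intro x y hxy hx
      have hy := hcolT _ _ hxy hx
      simp only [htr]
      rw [hEl x hx, hEr y hy]
      exact key _ _ _ hxy.symm
    rcases hx : χ (f x) with _ | _
    · have hy := hcolF _ _ hxy hx
      rw [Sym2.eq_swap]
      exact main y x hxy.symm hy
    · exact main x y hxy hx

end Pool.Agent.X76.Blow
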