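import Pool.Agent.H79.LA.X76_Det9

set_option autoImplicit false

/-!
Linear arboricity of graphs with large homogeneous classes.
-/

namespace Pool.Agent.X76.Det

open Finset SimpleGraph

/-- all graphs -/
theorem rank_gen {W V : Type} [Finite W] (X : SimpleGraph W) (f : W → V) (H : Hom X f) (L : ℕ)
    (hdeg : ∀ x, (X.neighborSet x).ncard < 2 * L)
    (hB : ∀ x y, X.Adj x y → f x ≠ f y →
      2 * L ≤ {z | f z = f x}.ncard * {z | f z = f y}.ncard) :
    Blow.Rank X L := by
  classical
  apply Blow.Rank.comp X (fun w => X.connectedComponentMk w)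
  · intro u v huv
    exact ConnectedComponent.sound (Adj.reachable huv)
  intro C
  let WC : Type := {w : W // X.connectedComponentMk w = C}
  have iW := Fintype.ofFinite WC
  let XC : SimpleGraph WC := X.comap Subtype.val
  let fC : WC → V := fun w => f w.1
  have hconn : XC.Connected := C.connected_toSimpleGraph
  have hdC : ∀ v : WC, (XC.neighborSet v).ncard < 2 * L := by
    intro v
    refine lt_of_le_of_lt ?_ (hdeg v.1)
    rw [← Set.ncard_image_of_injective _ Subtype.val_injective]
    apply Set.ncard_le_ncard _ (Set.toFinite _)
    rintro u ⟨u', h1, rfl⟩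
    exact h1
  have hHC : Hom XC fC := by
    intro x y x' y' h1 h2 h3 h4 h5
    exact H x.1 y.1 x'.1 y'.1 h1 h2 (fun e => h3 (Subtype.ext e)) (fun e => h4 (Subtype.ext e)) h5
  -- vertices of a class are in the same component
  have hcls : ∀ x y z, X.Adj x y → f z = f x →
      X.connectedComponentMk z = X.connectedComponentMk x := by
    intro x y z hy hz
    by_cases hyz : z = y
    · rw [hyz]; exact ConnectedComponent.sound (Adj.reachable hy.symm)
    · have h1 : X.Adj z y := H x y z y hz.symm rfl hy.ne hyz hy
      exact ConnectedComponent.sound (h1.reachable.trans hy.symm.reachable)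
  have hsize : ∀ x y : WC, XC.Adj x y → {z | fC z = fC x}.ncard = {z | f z = f x.1}.ncard := by
    intro x y hxy
    rw [← Set.ncard_image_of_injective _ Subtype.val_injective]
    congr 1
    ext z
    simp only [Set.mem_image, Set.mem_ofPred_eq]
    constructor
    · rintro ⟨z', h1, rfl⟩
      exact h1
    · intro h1
      exact ⟨⟨z, (hcls x.1 y.1 z hxy h1).trans x.2⟩, h1, rfl⟩
  have hBC : ∀ x y, XC.Adj x y → fC x ≠ fC y →
      2 * L ≤ {z | fC z = fC x}.ncard * {z | fC z = fC y}.ncard := by
    intro x y hxy hne
    rw [hsize x y hxy, hsize y x hxy.symm]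
    exact hB x.1 y.1 hxy hne
  -- make the map surjective
  have : Finite (Set.range fC) := Set.finite_range fC
  have : Fintype (Set.range fC) := Fintype.ofFinite _
  have h0 : ∀ x y, Set.rangeFactorization fC x = Set.rangeFactorization fC y ↔ fC x = fC y := by
    intro x y
    constructor
    · exact fun h => congrArg Subtype.val h
    · exact fun h => Subtype.ext h
  have h1 : ∀ x, {z | Set.rangeFactorization fC z = Set.rangeFactorization fC x} =
      {z | fC z = fC x} := by
    intro x
    ext z
    exact h0 z x
  refine conn_gen XC hconn (Set.rangeFactorization fC) Set.rangeFactorization_surjective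
    hHC.range L hdC ?_
  intro x y hxy hne
  rw [h1, h1]
  exact hBC x y hxy (fun e => hne ((h0 x y).2 e))

end Pool.Agent.X76.Det
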