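import Pool.Agent.H79.LA.X76_Det7

set_option autoImplicit false

/-!
Detachments with vertices that are not split: more information on the multiplicities.
-/

namespace Pool.Agent.X76.Det

open Finset SimpleGraph

theorem stepQ {C X : Type} [Fintype C] [Fintype X] [DecidableEq X] (P : X → Prop) (g : X → ℕ)
    (a : X → X → ℕ) (ha : ∀ x y, a x y = a y x)
    (m : C → X → X → ℕ) (h : StP P g a m) (v : X) (hPv : P v) (hv : 2 ≤ g v) :
    ∃ m' : C → Option X → Option X → ℕ,
      StP (fun x => P (x.getD v)) (gs g v) (fun x y => a (x.getD v) (y.getD v)) m' ∧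
      (∀ c o o', m' c o o' ≤ m c (o.getD v) (o'.getD v)) ∧
      ∀ c x y, ¬ P y → ∑ o, (if o.getD v = x then m' c o (some y) else 0) = m c x y := by
  classical
  choose κ hκ using fun c => exists_rep (del (supp (m c)) v)
  let A : C → X → ℕ := fun c k => ∑ y, if κ c y = k then m c v y else 0
  have hAle : ∀ c k, A c k ≤ 2 * g v := by
    intro c k
    rw [← h.deg c v hPv]
    apply Finset.sum_le_sum
    intro y _
    split_ifs <;> omega
  obtain ⟨T, hT1, hT2, hT3, hT4⟩ := select (fun c y => m c v y)
    (fun c y => if y = v then m c v v / 2 else m c v y) κ (g v) (by omega)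
    (fun y => if y = v then (g v - 1) * a v v else g y * a v y)
    (fun c k => if A c k ≤ 2 then 1 else 2)
    (by
      intro c y
      split_ifs with hy
      · rw [hy]
        obtain ⟨j, hj⟩ := h.diag c v
        rw [hj, show (j + j) / 2 = j by omega]
        nlinarith
      · nlinarith)
    (by intro c; rw [h.deg c v hPv]; ring)
    (by
      intro y
      split_ifs with hy
      · rw [hy]; exact h.loop v hPv
      · rw [h.mult v y (Ne.symm hy)]; ring)
    (by
      intro c k
      have h1 := hAle c k
      change A c k ≤ _
      split_ifs with h2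
      · omega
      · omega)
  have hTv : ∀ c, 2 * T c v ≤ m c v v := by
    intro c
    have := hT1 c v
    rw [if_pos rfl] at this
    omega
  have hTy : ∀ c y, y ≠ v → T c y ≤ m c v y := by
    intro c y hy
    have := hT1 c y
    rw [if_neg hy] at this
    exact this
  have hTle : ∀ c y, T c y ≤ m c v y := by
    intro c y
    by_cases hy : y = v
    · rw [hy]; have := hTv c; omega
    · exact hTy c y hy
  -- components of other vertices do not contain `v`
  have hcomp : ∀ c y z, y ≠ v → κ c z = κ c y → z ≠ v := by
    rintro c y z hy hz rfl
    obtain ⟨p⟩ := (hκ c z y).1 hz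
    cases p with
    | nil => exact hy rfl
    | cons h3 _ => exact h3.1 rfl
  -- the number of edges to a component is even
  have hpar : ∀ c y, y ≠ v → Even (A c (κ c y)) := by
    intro c y hy
    let K : Finset X := univ.filter fun z => κ c z = κ c y
    have hKv : v ∉ K := by
      intro h1
      rw [mem_filter] at h1
      exact hcomp c y v hy h1.2 rfl
    have h1 : ∑ z ∈ K, ∑ x, m c z x = ∑ z ∈ K, ∑ x ∈ K, m c z x + ∑ z ∈ K, m c z v := by
      rw [← Finset.sum_add_distrib]
      apply Finset.sum_congr rfl
      intro z hz
      have hz' := (mem_filter.1 hz).2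
      have h2 : ∑ x, m c z x = ∑ x ∈ insert v K, m c z x := by
        symm
        apply Finset.sum_subset (Finset.subset_univ _)
        intro x _ hx
        rw [mem_insert, not_or] at hx
        by_contra h3
        apply hx.2
        rw [mem_filter]
        refine ⟨mem_univ _, ?_⟩
        rw [← hz']
        symm
        rw [hκ]
        apply Adj.reachable
        refine ⟨hcomp c y z hy hz', hx.1, ?_, Nat.pos_of_ne_zero h3, ?_⟩
        · rintro rfl
          exact hx.2 hz
        · rw [h.symm]; exact Nat.pos_of_ne_zero h3
      rw [h2, Finset.sum_insert hKv, add_comm]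
    have h2 : A c (κ c y) = ∑ z ∈ K, m c z v := by
      simp only [A, K]
      rw [Finset.sum_filter]
      apply Finset.sum_congr rfl
      intro z _
      rw [h.symm c v z]
    have h3 : Even (∑ z ∈ K, ∑ x, m c z x) :=
      Finset.even_sum _ fun z _ => h.degz c z
    have h4 := even_sum_symm (m c) (h.symm c) (h.diag c) K
    rw [h2]
    rw [h1] at h3
    exact (Nat.even_add.1 h3).1 h4
  -- every component stays attached to `v`
  have hatt : ∀ c y, y ≠ v → ∃ z, z ≠ v ∧ (del (supp (m c)) v).Reachable y z ∧
      T c z < m c v z := by
    intro c y hy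
    obtain ⟨p⟩ := (h.conn c).preconnected y v
    obtain ⟨z, hz1, hz2⟩ := reach_last (supp (m c)) v p rfl hy
    have hApos : 0 < A c (κ c y) := by
      have h1 : m c v z ≤ A c (κ c y) := by
        have h2 := Finset.single_le_sum (f := fun x => if κ c x = κ c y then m c v x else 0)
          (fun i _ => Nat.zero_le _) (mem_univ z)
        rw [if_pos ((hκ c z y).2 hz1.symm)] at h2
        exact h2
      exact lt_of_lt_of_le hz2.2.2 h1
    have hA2 : 2 ≤ A c (κ c y) := by
      obtain ⟨j, hj⟩ := hpar c y hy
      omega
    have hlt : (∑ x, if κ c x = κ c y then T c x else 0) < A c (κ c y) := by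
      have h1 := hT4 c (κ c y)
      split_ifs at h1 with h2
      · omega
      · omega
    by_contra hno
    push Not at hno
    apply absurd hlt
    rw [not_lt]
    apply Finset.sum_le_sum
    intro x _
    split_ifs with h1
    · exact hno x (hcomp c y x hy h1) ((hκ c y x).1 h1.symm)
    · exact le_rfl
  -- degrees
  have hdv : ∀ c, ∑ o, ms (m c) (T c) v (some v) o = 2 * (g v - 1) := by
    intro c
    rw [Fintype.sum_option]
    simp only [ms, if_true]
    have h1 := h.deg c v hPv
    have h2 := hT2 c
    rw [← Finset.add_sum_erase _ _ (mem_univ v)] at h1 h2 ⊢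
    simp only [if_true]
    have h3 : ∑ y ∈ univ.erase v, (if y = v then m c v v - 2 * T c v else m c v y - T c y) =
        ∑ y ∈ univ.erase v, (m c v y - T c y) := by
      apply Finset.sum_congr rfl
      intro y hy
      rw [if_neg (Finset.ne_of_mem_erase hy)]
    rw [h3, Finset.sum_tsub_distrib _ (fun y _ => hTle c y)]
    have h4 : ∑ y ∈ univ.erase v, T c y ≤ ∑ y ∈ univ.erase v, m c v y :=
      Finset.sum_le_sum fun y _ => hTle c y
    have h5 := hTv c
    omega
  have hdx : ∀ c x, x ≠ v → ∑ o, ms (m c) (T c) v (some x) o = ∑ y, m c x y := by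
    intro c x hx
    rw [Fintype.sum_option]
    simp only [ms, if_neg hx]
    rw [← Finset.add_sum_erase _ _ (mem_univ v), ← Finset.add_sum_erase _ (m c x) (mem_univ v)]
    simp only [if_true]
    have h2 : ∑ y ∈ univ.erase v, (if y = v then m c v x - T c x else m c x y) =
        ∑ y ∈ univ.erase v, m c x y := by
      apply Finset.sum_congr rfl
      intro y hy
      rw [if_neg (Finset.ne_of_mem_erase hy)]
    rw [h2]
    have h3 := hTle c x
    rw [h.symm c v x] at h3 ⊢
    omega
  have hdn : ∀ c, ∑ o, ms (m c) (T c) v none o = 2 := by
    intro c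
    rw [Fintype.sum_option]
    simp only [ms, zero_add]
    exact hT2 c
  refine ⟨fun c => ms (m c) (T c) v, ⟨?_, ?_, ?_, ?_, ?_, ?_, ?_, ?_, ?_⟩, ?_, ?_⟩
  · rintro (_ | x) hx
    · exact le_rfl
    · simp only [gs]
      split_ifs
      · omega
      · exact h.pos x hx
  · rintro c (_ | x) (_ | y)
    · rfl
    · rfl
    · rfl
    · simp only [ms]
      by_cases hx : x = v
      · by_cases hy : y = v
        · rw [hx, hy]
        · rw [if_pos hx, if_neg hy, if_neg hy, if_pos hx]
      · by_cases hy : y = v
        · rw [if_neg hx, if_pos hy, if_pos hy, if_neg hx]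
        · rw [if_neg hx, if_neg hy, if_neg hy, if_neg hx, h.symm]
  · rintro c (_ | x)
    · simp [ms]
    · simp only [ms]
      by_cases hx : x = v
      · rw [if_pos hx, if_pos hx]
        rw [Nat.even_sub (hTv c)]
        exact ⟨fun _ => even_two_mul _, fun _ => h.diag c v⟩
      · rw [if_neg hx, if_neg hx]; exact h.diag c x
  · rintro (_ | x) (_ | y) hxy
    · exact absurd rfl hxy
    · simp only [ms, gs, Option.getD_none, Option.getD_some]
      rw [hT3]
      by_cases hy : y = v
      · rw [if_pos hy, if_pos hy, hy]; ring
      · rw [if_neg hy, if_neg hy]; ring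
    · simp only [ms, gs, Option.getD_none, Option.getD_some]
      rw [hT3]
      by_cases hx : x = v
      · rw [if_pos hx, if_pos hx, hx]; ring
      · rw [if_neg hx, if_neg hx, ha x v]; ring
    · have hxy' : x ≠ y := fun e => hxy (by rw [e])
      simp only [ms, gs, Option.getD_some]
      by_cases hx : x = v
      · subst hx
        simp only [if_true, if_neg hxy'.symm]
        rw [Finset.sum_tsub_distrib _ (fun c _ => hTle c y), h.mult x y hxy', hT3,
          if_neg hxy'.symm]
        obtain ⟨e, he⟩ : ∃ e, g x = e + 1 := ⟨g x - 1, by omega⟩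
        rw [he, Nat.add_sub_cancel]
        have h1 : (e + 1) * g y * a x y = e * g y * a x y + g y * a x y := by ring
        rw [h1, Nat.add_sub_cancel]
      · simp only [if_neg hx]
        by_cases hy : y = v
        · subst hy
          simp only [if_true]
          rw [Finset.sum_tsub_distrib _ (fun c _ => hTle c x), hT3, if_neg hx,
            h.mult y x hxy'.symm]
          obtain ⟨e, he⟩ : ∃ e, g y = e + 1 := ⟨g y - 1, by omega⟩
          rw [he, Nat.add_sub_cancel, ha y x]
          have h7 : (e + 1) * g x * a x y = g x * e * a x y + g x * a x y := by ring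
          rw [h7, Nat.add_sub_cancel]
        · simp only [if_neg hy]
          exact h.mult x y hxy'
  · rintro (_ | x) hPx
    · simp [ms, gs]
    · simp only [ms, gs, Option.getD_some]
      by_cases hx : x = v
      · subst hx
        simp only [if_true]
        rw [Finset.sum_tsub_distrib _ (fun c _ => hTv c), h.loop x hPv, ← Finset.mul_sum, hT3,
          if_pos rfl]
        obtain ⟨e, he⟩ : ∃ e, g x = e + 2 := ⟨g x - 2, by omega⟩
        rw [he, show e + 2 - 1 = e + 1 by omega, Nat.add_sub_cancel]
        have h1 : (e + 2) * ((e + 1) * a x x) =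
            (e + 1) * (e * a x x) + 2 * ((e + 1) * a x x) := by ring
        rw [h1, Nat.add_sub_cancel]
      · simp only [if_neg hx]
        exact h.loop x hPx
  · rintro c (_ | x) hPx
    · exact absurd hPv hPx
    · have hxv : x ≠ v := by
        rintro rfl
        exact hPx hPv
      simp only [ms, if_neg hxv]
      exact h.loopz c x hPx
  · rintro c (_ | x) hPx
    · rw [hdn]; rfl
    · simp only [gs]
      by_cases hx : x = v
      · rw [if_pos hx, hx, hdv]
      · rw [if_neg hx, hdx c x hx]
        exact h.deg c x hPx
  · rintro c (_ | x)
    · rw [hdn]; exact even_two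
    · by_cases hx : x = v
      · rw [hx, hdv]; exact even_two_mul _
      · rw [hdx c x hx]; exact h.degz c x
  · intro c
    have hlift : ∀ x y, (del (supp (m c)) v).Reachable x y →
        (supp (ms (m c) (T c) v)).Reachable (some x) (some y) := by
      rintro x y ⟨p⟩
      induction p with
      | nil => exact Reachable.refl _
      | @cons x z y h1 p ih =>
        refine Reachable.trans (Adj.reachable ?_) ih
        obtain ⟨h2, h3, h4, h5, h6⟩ := h1
        refine ⟨fun e => h4 (Option.some.inj e), ?_, ?_⟩
        · simp only [ms, if_neg h2, if_neg h3]; exact h5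
        · simp only [ms, if_neg h2, if_neg h3]; exact h6
    have hv' : ∀ y, (supp (ms (m c) (T c) v)).Reachable (some y) (some v) := by
      intro y
      by_cases hy : y = v
      · rw [hy]
      · obtain ⟨z, hzv, h1, h2⟩ := hatt c y hy
        refine (hlift y z h1).trans (Adj.reachable ?_)
        refine ⟨fun e => hzv (Option.some.inj e), ?_, ?_⟩
        · simp only [ms, if_neg hzv, if_true]; omega
        · simp only [ms, if_neg hzv, if_true]; omega
    have hn : (supp (ms (m c) (T c) v)).Reachable none (some v) := by
      obtain ⟨y, hy⟩ : ∃ y, 0 < T c y := by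
        by_contra hno
        push Not at hno
        have h1 := hT2 c
        have h2 : ∑ y, T c y = 0 := Finset.sum_eq_zero fun y _ => by
          have := hno y; omega
        omega
      refine Reachable.trans (Adj.reachable (?_ : (supp (ms (m c) (T c) v)).Adj none (some y)))
        (hv' y)
      exact ⟨by simp, hy, hy⟩
    refine (connected_iff _).2 ⟨?_, ⟨none⟩⟩
    rintro (_ | x) (_ | y)
    · exact Reachable.refl _
    · exact hn.trans (hv' y).symm
    · exact (hv' x).trans hn.symm
    · exact (hv' x).trans (hv' y).symm
  · rintro c (_ | x) (_ | y)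
    · simp [ms]
    · simp only [ms, Option.getD_none, Option.getD_some]
      exact hTle c y
    · simp only [ms, Option.getD_none, Option.getD_some]
      rw [h.symm c x v]
      exact hTle c x
    · simp only [ms, Option.getD_some]
      by_cases hx : x = v
      · subst hx
        simp only [if_true]
        by_cases hy : y = x
        · subst hy
          simp only [if_true]
          exact Nat.sub_le _ _
        · simp only [if_neg hy]
          exact Nat.sub_le _ _
      · simp only [if_neg hx]
        by_cases hy : y = v
        · subst hy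
          simp only [if_true]
          rw [h.symm c x y]
          exact Nat.sub_le _ _
        · simp only [if_neg hy]
          exact le_rfl
  · intro c x y hPy
    have hyv : y ≠ v := by
      rintro rfl
      exact hPy hPv
    rw [Fintype.sum_option]
    simp only [ms, Option.getD_none, Option.getD_some]
    rw [Finset.sum_ite_eq' univ x, if_pos (mem_univ x)]
    by_cases hx : x = v
    · subst hx
      simp only [if_true, if_neg hyv]
      have := hTy c y hyv
      omega
    · simp only [if_neg hx, if_neg (Ne.symm hx), if_neg hyv, zero_add]

open Classical in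
theorem detachQ {C : Type} [Fintype C] (n : ℕ) :
    ∀ (X : Type) [Fintype X] (P : X → Prop) (g : X → ℕ) (a : X → X → ℕ) (m : C → X → X → ℕ),
      (∀ x y, a x y = a y x) → StP P g a m → ∑ x, (if P x then g x - 1 else 0) = n →
      ∃ (Y : Type) (_ : Fintype Y) (π : Y → X) (g' : Y → ℕ) (M : C → Y → Y → ℕ),
        (∀ x, P x → {y | π y = x}.ncard = g x) ∧ (∀ x, ¬ P x → {y | π y = x}.ncard = 1) ∧
        (∀ y, P (π y) → g' y = 1) ∧ (∀ y, ¬ P (π y) → g' y = g (π y)) ∧
        StP (fun y => P (π y)) g' (fun y z => a (π y) (π z)) M ∧
        (∀ c y y', M c y y' ≤ m c (π y) (π y')) ∧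
        ∀ c x y0, ¬ P (π y0) → ∑ y, (if π y = x then M c y y0 else 0) = m c x (π y0) := by
  induction n with
  | zero =>
    intro X _ P g a m ha h hn
    have hg : ∀ x, P x → g x = 1 := by
      intro x hx
      have h1 := (Finset.sum_eq_zero_iff.1 hn) x (mem_univ x)
      rw [if_pos hx] at h1
      have h2 := h.pos x hx
      omega
    have h1 : ∀ x : X, {y : X | id y = x} = {x} := by intro x; ext; simp
    refine ⟨X, inferInstance, id, g, m, ?_, ?_, hg, fun _ _ => rfl, h, fun _ _ _ => le_rfl, ?_⟩
    · intro x hx
      rw [h1, Set.ncard_singleton, hg x hx]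
    · intro x _
      rw [h1, Set.ncard_singleton]
    · intro c x y0 _
      simp only [id]
      rw [Finset.sum_ite_eq' univ x, if_pos (mem_univ x)]
  | succ n ih =>
    intro X _ P g a m ha h hn
    obtain ⟨v, hPv, hv⟩ : ∃ v, P v ∧ 2 ≤ g v := by
      by_contra hno
      push Not at hno
      have h1 : ∑ x, (if P x then g x - 1 else 0) = 0 := Finset.sum_eq_zero fun x _ => by
        split_ifs with hx
        · have := hno x hx; omega
        · rfl
      omega
    obtain ⟨m', hm', hm1, hm2⟩ := stepQ P g a ha m h v hPv hv
    have hsum : ∑ o : Option X, (if P (o.getD v) then gs g v o - 1 else 0) = n := by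
      rw [Fintype.sum_option]
      simp only [gs, Option.getD_none, Option.getD_some, if_pos hPv]
      rw [← Finset.add_sum_erase _ _ (mem_univ v)] at hn ⊢
      simp only [if_true, if_pos hPv] at hn ⊢
      have h2 : ∑ x ∈ univ.erase v, (if P x then (if x = v then g v - 1 else g x) - 1 else 0) =
          ∑ x ∈ univ.erase v, (if P x then g x - 1 else 0) := by
        apply Finset.sum_congr rfl
        intro x hx
        rw [if_neg (Finset.ne_of_mem_erase hx)]
      rw [h2]
      omega
    obtain ⟨Y, hY, π, g', M, h1, h2, h3, h4, h5, h6, h7⟩ := ih (Option X) _ (gs g v) _ m'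
      (fun x y => ha _ _) hm' hsum
    refine ⟨Y, hY, fun y => (π y).getD v, g', M, ?_, ?_, h3, ?_, h5,
      fun c y y' => (h6 c y y').trans (hm1 c _ _), ?_⟩
    · intro x hx
      by_cases hxv : x = v
      · subst hxv
        have h6 : {y | (π y).getD x = x} = {y | π y = none} ∪ {y | π y = some x} := by
          ext y
          simp only [Set.mem_ofPred_eq, Set.mem_union]
          rcases hπ : π y with _ | z
          · simp
          · simp
        rw [h6, Set.ncard_union_eq _ (Set.toFinite _) (Set.toFinite _), h1 none hPv,
          h1 (some x) hPv]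
        · simp only [gs, if_true]
          omega
        · rw [Set.disjoint_left]
          intro y hy hy'
          simp only [Set.mem_ofPred_eq] at hy hy'
          rw [hy] at hy'
          simp at hy'
      · have h6 : {y | (π y).getD v = x} = {y | π y = some x} := by
          ext y
          simp only [Set.mem_ofPred_eq]
          rcases hπ : π y with _ | z
          · simp [Ne.symm hxv]
          · simp
        rw [h6, h1 (some x) hx]
        simp only [gs, if_neg hxv]
    · intro x hx
      have hxv : x ≠ v := by
        rintro rfl
        exact hx hPv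
      have h6 : {y | (π y).getD v = x} = {y | π y = some x} := by
        ext y
        simp only [Set.mem_ofPred_eq]
        rcases hπ : π y with _ | z
        · simp [Ne.symm hxv]
        · simp
      rw [h6]
      exact h2 (some x) hx
    · intro y hy
      have h6 := h4 y hy
      rw [h6]
      change ¬ P ((π y).getD v) at hy
      change _ = g ((π y).getD v)
      rcases hπ : π y with _ | z
      · rw [hπ] at hy
        exact absurd hPv hy
      · rw [hπ] at hy
        simp only [gs, Option.getD_some]
        rw [if_neg]
        rintro rfl
        exact hy hPv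
    · intro c x y0 hy0
      obtain ⟨x0, hx0⟩ : ∃ x0, π y0 = some x0 := by
        rcases hπ : π y0 with _ | x0
        · change ¬ P ((π y0).getD v) at hy0
          rw [hπ] at hy0
          exact absurd hPv hy0
        · exact ⟨x0, rfl⟩
      have hPx0 : ¬ P x0 := by
        change ¬ P ((π y0).getD v) at hy0
        rw [hx0] at hy0
        exact hy0
      have h8 := hm2 c x x0 hPx0
      simp only [hx0, Option.getD_some]
      rw [← h8]
      have h9 : ∀ o, m' c o (some x0) = ∑ y, (if π y = o then M c y y0 else 0) := by
        intro o
        have h12 := h7 c o y0 hy0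
        rw [hx0] at h12
        rw [← h12]
        apply Finset.sum_congr rfl
        intro y _
        by_cases h : π y = o
        · rw [if_pos h, if_pos h]
        · rw [if_neg h, if_neg h]
      simp only [h9]
      have h10 : ∀ o, (if o.getD v = x then ∑ y, (if π y = o then M c y y0 else 0) else 0) =
          ∑ y, (if o.getD v = x then (if π y = o then M c y y0 else 0) else 0) := by
        intro o
        split_ifs with h11
        · rfl
        · simp
      rw [Finset.sum_congr rfl (fun o _ => h10 o), Finset.sum_comm]
      apply Finset.sum_congr rfl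
      intro y _
      rw [Finset.sum_eq_single (π y)]
      · simp
      · intro o _ hne
        rw [if_neg (Ne.symm hne)]
        simp
      · intro h11
        exact absurd (mem_univ _) h11

end Pool.Agent.X76.Det
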