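import Pool.Agent.H79.LA.X76_Det11

set_option autoImplicit false

/-!
Balanced colour classes with distinguished edges: the multigraph with two extra vertices.
-/

namespace Pool.Agent.X76.Det

open Finset SimpleGraph

/-- indicator of the edge `p q` -/
def hit {V : Type} [DecidableEq V] (p q u v : V) : ℕ :=
  if (u = p ∧ v = q) ∨ (u = q ∧ v = p) then 1 else 0

/-- indicator of the ends of the edge `p q` -/
def inc {V : Type} [DecidableEq V] (p q u : V) : ℕ := if u = p ∨ u = q then 1 else 0

theorem hit_symm {V : Type} [DecidableEq V] (p q u v : V) : hit p q u v = hit p q v u := by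
  unfold hit
  congr 1
  apply propext
  tauto

theorem hit_self {V : Type} [DecidableEq V] {p q : V} (h : p ≠ q) (u : V) : hit p q u u = 0 := by
  unfold hit
  rw [if_neg]
  rintro (⟨h1, h2⟩ | ⟨h1, h2⟩)
  · exact h (h1.symm.trans h2)
  · exact h (h2.symm.trans h1)

theorem sum_hit {V : Type} [Fintype V] [DecidableEq V] {p q : V} (h : p ≠ q) (u : V) :
    ∑ v, hit p q u v = inc p q u := by
  unfold hit inc
  by_cases h1 : u = p
  · subst h1
    rw [if_pos (Or.inl rfl), Finset.sum_eq_single q]
    · rw [if_pos (Or.inl ⟨rfl, rfl⟩)]
    · intro v _ hv
      rw [if_neg]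
      rintro (⟨-, h2⟩ | ⟨h2, -⟩)
      · exact hv h2
      · exact h h2
    · intro h2
      exact absurd (mem_univ _) h2
  · by_cases h2 : u = q
    · subst h2
      rw [if_pos (Or.inr rfl), Finset.sum_eq_single p]
      · rw [if_pos (Or.inr ⟨rfl, rfl⟩)]
      · intro v _ hv
        rw [if_neg]
        rintro (⟨h2, -⟩ | ⟨-, h2⟩)
        · exact h1 h2
        · exact hv h2
      · intro h2
        exact absurd (mem_univ _) h2
    · rw [if_neg (by tauto)]
      exact Finset.sum_eq_zero fun v _ => by rw [if_neg (by tauto)]

theorem sum_inc {V : Type} [Fintype V] [DecidableEq V] {p q : V} (h : p ≠ q) :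
    ∑ v, inc p q v = 2 := by
  unfold inc
  rw [← Finset.card_filter]
  have h1 : (univ.filter fun v => v = p ∨ v = q) = {p, q} := by
    ext v
    simp
  rw [h1, Finset.card_pair h]

/-- the colour classes with the two extra vertices `none` and `some none` -/
def mcol {V : Type} [DecidableEq V] {L : ℕ} (T : Fin L → V → V → ℕ) (p q : Fin L → V)
    (g : V → ℕ) (N : ℕ) :
    Option (Fin L) → Option (Option V) → Option (Option V) → ℕ
  | some c, some (some u), some (some v) => T c u v + T c v u - hit (p c) (q c) u v
  | some c, some (some u), some none => inc (p c) (q c) u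
  | some _, some (some _), none => 0
  | some c, some none, some (some v) => inc (p c) (q c) v
  | some _, some none, some none => 0
  | some _, some none, none => 2
  | some _, none, some (some _) => 0
  | some _, none, some none => 2
  | some _, none, none => 0
  | none, some (some u), some (some v) => ∑ c, hit (p c) (q c) u v
  | none, some (some u), some none => g u - ∑ c, inc (p c) (q c) u
  | none, some (some u), none => g u
  | none, some none, some (some v) => g v - ∑ c, inc (p c) (q c) v
  | none, some none, some none => 0
  | none, some none, none => N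
  | none, none, some (some v) => g v
  | none, none, some none => N
  | none, none, none => 0

open Classical in
/-- the required multiplicities -/
noncomputable def adet {V : Type} (G : SimpleGraph V) (K : ℕ) :
    Option (Option V) → Option (Option V) → ℕ
  | some (some u), some (some v) => if G.Adj u v then 1 else 0
  | some (some _), some none => 1
  | some (some _), none => 1
  | some none, some (some _) => 1
  | some none, some none => 0
  | some none, none => K
  | none, some (some _) => 1
  | none, some none => K
  | none, none => 0

/-- the weights -/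
def gdet {V : Type} (g : V → ℕ) : Option (Option V) → ℕ
  | some (some v) => g v
  | some none => 1
  | none => 1

theorem adet_symm {V : Type} (G : SimpleGraph V) (K : ℕ) (x y : Option (Option V)) :
    adet G K x y = adet G K y x := by
  rcases x with _ | _ | u <;> rcases y with _ | _ | v <;> simp only [adet]
  by_cases h : G.Adj u v
  · rw [if_pos h, if_pos h.symm]
  · rw [if_neg h, if_neg (fun h' => h h'.symm)]

open Classical in
theorem state {V : Type} [Fintype V] [DecidableEq V] (G : SimpleGraph V) (hG : G.Connected)
    (g : V → ℕ) (hpos : ∀ v, 1 ≤ g v) (L : ℕ) (T : Fin L → V → V → ℕ)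
    (h1 : ∀ c u, ∑ v, T c u v = g u) (h2 : ∀ c v, ∑ u, T c u v = g v)
    (h3 : ∀ u v, ∑ c, (T c u v + T c v u) = if G.Adj u v then g u * g v else 0)
    (h4 : ∀ c u v, G.Adj u v → 1 ≤ T c u v + T c v u)
    (p q : Fin L → V) (hpq : ∀ c, G.Adj (p c) (q c))
    (hD : ∀ v, ∑ c, inc (p c) (q c) v ≤ g v) :
    StP (fun x : Option (Option V) => ∃ v, x = some (some v)) (gdet g)
      (adet G (∑ v, g v + L * 2)) (mcol T p q g (∑ v, g v)) := by
  classical
  have hT0 : ∀ c u, T c u u = 0 := by
    intro c u
    have h5 := h3 u u
    rw [if_neg (SimpleGraph.irrefl G)] at h5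
    have h6 := (Finset.sum_eq_zero_iff.1 h5) c (mem_univ c)
    omega
  have hhit : ∀ c u v, hit (p c) (q c) u v ≤ T c u v + T c v u := by
    intro c u v
    unfold hit
    split_ifs with h5
    · rcases h5 with ⟨rfl, rfl⟩ | ⟨rfl, rfl⟩
      · exact h4 c _ _ (hpq c)
      · exact h4 c _ _ (hpq c).symm
    · omega
  have hN : 1 ≤ ∑ v, g v := by
    obtain ⟨v⟩ := hG.nonempty
    exact (hpos v).trans (Finset.single_le_sum (f := g) (fun i _ => Nat.zero_le _) (mem_univ v))
  have hdeg : ∀ c u, ∑ y, mcol T p q g (∑ v, g v) c (some (some u)) y = 2 * g u := by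
    rintro (_ | c) u
    · rw [Fintype.sum_option, Fintype.sum_option]
      simp only [mcol]
      rw [Finset.sum_comm, Finset.sum_congr rfl (fun c _ => sum_hit (hpq c).ne u)]
      have := hD u
      omega
    · rw [Fintype.sum_option, Fintype.sum_option]
      simp only [mcol]
      rw [Finset.sum_tsub_distrib _ (fun v _ => hhit c u v), Finset.sum_add_distrib, h1, h2,
        sum_hit (hpq c).ne u]
      have h5 : inc (p c) (q c) u ≤ 1 := by unfold inc; split_ifs <;> omega
      have h6 := hpos u
      omega
  refine ⟨?_, ?_, ?_, ?_, ?_, ?_, ?_, ?_, ?_⟩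
  · rintro x ⟨v, rfl⟩
    exact hpos v
  · rintro (_ | c) (_ | _ | u) (_ | _ | v) <;> simp only [mcol]
    · exact Finset.sum_congr rfl fun c _ => hit_symm _ _ _ _
    · rw [hit_symm, add_comm]
  · rintro (_ | c) (_ | _ | u) <;> simp only [mcol]
    · exact Even.zero
    · exact Even.zero
    · rw [Finset.sum_eq_zero fun c _ => hit_self (hpq c).ne u]
      exact Even.zero
    · exact Even.zero
    · exact Even.zero
    · rw [hT0]
      simp
  · intro x y hxy
    rw [Fintype.sum_option]
    rcases x with _ | _ | u <;> rcases y with _ | _ | v <;> simp only [mcol, adet, gdet]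
    · exact absurd rfl hxy
    · simp
    · simp
    · simp
    · exact absurd rfl hxy
    · have := hD v
      omega
    · simp
    · have := hD u
      omega
    · rw [Finset.sum_tsub_distrib _ (fun c _ => hhit c u v), h3]
      have h5 : ∑ c, hit (p c) (q c) u v ≤ if G.Adj u v then g u * g v else 0 := by
        rw [← h3]
        exact Finset.sum_le_sum fun c _ => hhit c u v
      split_ifs at h5 ⊢ <;> omega
  · rintro x ⟨u, rfl⟩
    rw [Fintype.sum_option]
    simp only [mcol, adet, gdet]
    rw [if_neg (SimpleGraph.irrefl G), Finset.sum_eq_zero fun c _ => hit_self (hpq c).ne u,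
      Finset.sum_eq_zero]
    · simp
    · intro c _
      rw [hT0]
      simp
  · rintro (_ | c) (_ | _ | u) h5
    · rfl
    · rfl
    · exact absurd ⟨u, rfl⟩ h5
    · rfl
    · rfl
    · exact absurd ⟨u, rfl⟩ h5
  · rintro c x ⟨u, rfl⟩
    exact hdeg c u
  · rintro c (_ | _ | u)
    · rcases c with _ | c
      · rw [Fintype.sum_option, Fintype.sum_option]
        simp only [mcol]
        rw [zero_add]
        exact Even.add_self _
      · rw [Fintype.sum_option, Fintype.sum_option]
        simp only [mcol]
        simp
    · rcases c with _ | c
      · rw [Fintype.sum_option, Fintype.sum_option]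
        simp only [mcol]
        rw [Finset.sum_tsub_distrib _ (fun v _ => hD v), Finset.sum_comm,
          Finset.sum_congr rfl (fun c _ => sum_inc (hpq c).ne), Finset.sum_const, card_univ,
          Fintype.card_fin, smul_eq_mul]
        have h5 : L * 2 ≤ ∑ v, g v := by
          have h6 : ∑ v, ∑ c, inc (p c) (q c) v ≤ ∑ v, g v := Finset.sum_le_sum fun v _ => hD v
          rw [Finset.sum_comm, Finset.sum_congr rfl (fun c _ => sum_inc (hpq c).ne),
            Finset.sum_const, card_univ, Fintype.card_fin, smul_eq_mul] at h6
          exact h6
        rw [Nat.even_iff]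
        omega
      · rw [Fintype.sum_option, Fintype.sum_option]
        simp only [mcol]
        rw [sum_inc (hpq c).ne]
        decide
    · rw [hdeg]
      exact even_two_mul _
  · rintro (_ | c)
    · -- the additional class
      have hz : ∀ x, (supp (mcol T p q g (∑ v, g v) none)).Reachable x none := by
        rintro (_ | _ | u)
        · exact Reachable.refl _
        · apply Adj.reachable
          exact ⟨by simp, hN, hN⟩
        · apply Adj.reachable
          exact ⟨by simp, hpos u, hpos u⟩
      exact (connected_iff _).2 ⟨fun x y => (hz x).trans (hz y).symm, ⟨none⟩⟩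
    · have hs : ∀ u, u = p c ∨ u = q c →
          (supp (mcol T p q g (∑ v, g v) (some c))).Adj (some (some u)) (some none) := by
        intro u hu
        refine ⟨by simp, ?_, ?_⟩ <;> simp only [mcol, inc, if_pos hu] <;> exact Nat.one_pos
      have hedge : ∀ u v, G.Adj u v → (supp (mcol T p q g (∑ v, g v) (some c))).Reachable
          (some (some u)) (some (some v)) := by
        intro u v huv
        by_cases h5 : (u = p c ∧ v = q c) ∨ (u = q c ∧ v = p c)
        · have hu : u = p c ∨ u = q c := by tauto
          have hv : v = p c ∨ v = q c := by tauto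
          exact (hs u hu).reachable.trans (hs v hv).symm.reachable
        · apply Adj.reachable
          have h6 := h4 c u v huv
          have h7 : ¬ ((v = p c ∧ u = q c) ∨ (v = q c ∧ u = p c)) := by tauto
          refine ⟨?_, ?_, ?_⟩
          · intro e
            exact huv.ne (Option.some.inj (Option.some.inj e))
          · simp only [mcol, hit, if_neg h5]
            omega
          · simp only [mcol, hit, if_neg h7]
            omega
      have hall : ∀ u v, (supp (mcol T p q g (∑ v, g v) (some c))).Reachable
          (some (some u)) (some (some v)) := by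
        intro u v
        obtain ⟨w⟩ := hG.preconnected u v
        induction w with
        | nil => exact Reachable.refl _
        | cons h w ih => exact (hedge _ _ h).trans ih
      have hz : ∀ x, (supp (mcol T p q g (∑ v, g v) (some c))).Reachable x (some none) := by
        rintro (_ | _ | u)
        · apply Adj.reachable
          exact ⟨by simp, Nat.two_pos, Nat.two_pos⟩
        · exact Reachable.refl _
        · exact (hall u (p c)).trans (hs (p c) (Or.inl rfl)).reachable
      exact (connected_iff _).2 ⟨fun x y => (hz x).trans (hz y).symm, ⟨none⟩⟩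

end Pool.Agent.X76.Det
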