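import Pool.Agent.H79.LA.X76_Det8

set_option autoImplicit false

/-!
Linear arboricity of regular graphs of odd degree with large homogeneous classes.
-/

namespace Pool.Agent.X76.Det

open Finset SimpleGraph

/-- linear forests from a decomposition with an extra vertex -/
theorem LF_of_StP {C V W : Type} [Fintype C] [Fintype V] [Fintype W] (A : V → V → Prop)
    (f : W → V) (g : Option V → ℕ) (hg : ∀ v, {w | f w = v}.ncard = g (some v))
    (a : Option V → Option V → ℕ) (has : ∀ x y, a x y = a y x)
    (haA : ∀ u v, a (some u) (some v) = ind A u v)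
    (m : C → Option V → Option V → ℕ) (h : StP (fun x => x ≠ none) g a m)
    (X : SimpleGraph W) (hX : ∀ x y, X.Adj x y ↔ x ≠ y ∧ A (f x) (f y)) :
    ∃ E : C → SimpleGraph W, (∀ c, H931R3.LA.IsLF (E c)) ∧
      ∀ x y, X.Adj x y → ∃! c, (E c).Adj x y := by
  classical
  obtain ⟨Y, hY, π, g', M, h1, h2, h3, h4, h5⟩ := detachP _ (Option V) _ g a m has h rfl
  -- the extra vertex
  obtain ⟨z, hz⟩ := Set.ncard_eq_one.1 (h2 none (by simp))
  have hzn : ∀ y, y ≠ z → π y ≠ none := by
    intro y hy hπ
    have h6 : y ∈ {y | π y = none} := hπ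
    rw [hz] at h6
    exact hy h6
  have hπz : π z = none := by
    have h6 : z ∈ {y | π y = none} := by rw [hz]; rfl
    exact h6
  -- the real vertices
  have hev : ∀ v, Nonempty ({w // f w = v} ≃ {y // π y = some v}) := by
    intro v
    apply Finite.card_eq.1
    have h6 : Nat.card {w // f w = v} = {w | f w = v}.ncard := Nat.card_coe_set_eq _
    have h7 : Nat.card {y // π y = some v} = {y | π y = some v}.ncard := Nat.card_coe_set_eq _
    rw [h6, h7, hg, h1 (some v) (by simp)]
  let ev := fun v => (hev v).some
  let e : W → Y := fun w => (ev (f w) ⟨w, rfl⟩).1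
  have heπ : ∀ w, π (e w) = some (f w) := fun w => (ev (f w) ⟨w, rfl⟩).2
  have hev' : ∀ v w (hw : f w = v), e w = (ev v ⟨w, hw⟩).1 := by
    rintro v w rfl
    rfl
  have hinj : Function.Injective e := by
    intro w w' hww
    have h6 : f w = f w' := by
      have h7 := heπ w
      rw [hww, heπ] at h7
      exact (Option.some.inj h7).symm
    rw [hev' (f w') w h6, hev' (f w') w' rfl] at hww
    have h8 := (ev (f w')).injective (Subtype.ext hww)
    exact congrArg Subtype.val h8
  have hez : ∀ w, e w ≠ z := by
    intro w hw
    have h6 := heπ w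
    rw [hw, hπz] at h6
    exact absurd h6 (by simp)
  have hg1 : ∀ y, y ≠ z → g' y = 1 := fun y hy => h3 y (hzn y hy)
  have hMd : ∀ c y, y ≠ z → M c y y = 0 := by
    intro c y hy
    have h6 := h5.loop y (hzn y hy)
    rw [hg1 y hy, Nat.sub_self, Nat.zero_mul, Nat.mul_zero] at h6
    exact (Finset.sum_eq_zero_iff.1 h6) c (mem_univ c)
  let E : C → SimpleGraph W := fun c =>
    { Adj := fun x y => 1 ≤ M c (e x) (e y) ∧ 1 ≤ M c (e y) (e x)
      symm := ⟨fun x y h => ⟨h.2, h.1⟩⟩
      loopless := ⟨fun x h => by
        have h6 := hMd c (e x) (hez x)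
        have h7 := h.1
        omega⟩ }
  refine ⟨E, fun c => ?_, ?_⟩
  · apply lf_of_class (M c) (h5.symm c) z (fun y hy => ?_) (h5.conn c) e hinj hez (E c)
      (fun u v huv => huv.1)
    rw [h5.deg c y (hzn y hy), hg1 y hy]
  · intro x y hxy
    have hxy' := (hX x y).1 hxy
    have h6 := h5.mult (e x) (e y) (hinj.ne hxy'.1)
    rw [hg1 _ (hez x), hg1 _ (hez y), heπ, heπ, haA, ind_true hxy'.2] at h6
    have h6' : ∑ c, M c (e x) (e y) = 1 := by rw [h6]
    have hEadj : ∀ c, (E c).Adj x y ↔ 1 ≤ M c (e x) (e y) := by
      intro c
      constructor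
      · exact fun h => h.1
      · intro h7
        exact ⟨h7, by rw [h5.symm c (e y) (e x)]; exact h7⟩
    obtain ⟨c, hc⟩ : ∃ c, 1 ≤ M c (e x) (e y) := by
      by_contra hno
      push Not at hno
      have h7 : ∑ c, M c (e x) (e y) = 0 := Finset.sum_eq_zero fun c _ => by
        have := hno c; omega
      omega
    refine ⟨c, (hEadj c).2 hc, ?_⟩
    intro c' hc'
    have hc'' := (hEadj c').1 hc'
    by_contra hne
    have h7 : M c' (e x) (e y) + M c (e x) (e y) ≤ ∑ c, M c (e x) (e y) := by
      rw [← Finset.add_sum_erase _ _ (mem_univ c')]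
      apply Nat.add_le_add_left
      exact Finset.single_le_sum (f := fun c => M c (e x) (e y)) (fun i _ => Nat.zero_le _)
        (Finset.mem_erase.2 ⟨Ne.symm hne, mem_univ c⟩)
    omega

/-- the degrees in terms of the classes -/
theorem row_eq {W V : Type} [Fintype W] [Fintype V] [DecidableEq V] (X : SimpleGraph W)
    (f : W → V) (A : V → V → Prop) (hX : ∀ x y, X.Adj x y ↔ x ≠ y ∧ A (f x) (f y)) (x : W) :
    ∑ u, (if u = f x then ({w | f w = f x}.ncard - 1) * ind A (f x) (f x) else
      {w | f w = u}.ncard * ind A (f x) u) = (X.neighborSet x).ncard := by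
  classical
  rw [Set.ncard_eq_toFinset_card' (X.neighborSet x)]
  rw [Finset.card_eq_sum_card_fiberwise (f := f) (t := univ) (fun _ _ => by simp)]
  apply Finset.sum_congr rfl
  intro u _
  by_cases hu : u = f x
  · rw [if_pos hu, hu]
    by_cases hAx : A (f x) (f x)
    · rw [ind_true hAx, mul_one]
      have h1 : ((X.neighborSet x).toFinset.filter fun y => f y = f x) =
          (univ.filter fun y => f y = f x).erase x := by
        ext y
        simp only [mem_filter, Set.mem_toFinset, mem_neighborSet, mem_univ, true_and, mem_erase]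
        constructor
        · rintro ⟨h1, h2⟩
          exact ⟨h1.ne', h2⟩
        · rintro ⟨h1, h2⟩
          exact ⟨(hX x y).2 ⟨Ne.symm h1, by rw [h2]; exact hAx⟩, h2⟩
      rw [h1, Finset.card_erase_of_mem (by simp)]
      simp only [Set.ncard_eq_toFinset_card', Set.toFinset_ofPred]
    · rw [ind_false hAx, mul_zero]
      symm
      rw [Finset.card_eq_zero, Finset.filter_eq_empty_iff]
      intro y hy h2
      rw [Set.mem_toFinset, mem_neighborSet] at hy
      have h3 := ((hX x y).1 hy).2
      rw [h2] at h3
      exact hAx h3
  · rw [if_neg hu]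
    by_cases hAx : A (f x) u
    · rw [ind_true hAx, mul_one]
      simp only [Set.ncard_eq_toFinset_card', Set.toFinset_ofPred]
      congr 1
      ext y
      simp only [mem_filter, Set.mem_toFinset, mem_neighborSet, mem_univ, true_and]
      constructor
      · intro h2
        refine ⟨(hX x y).2 ⟨?_, by rw [h2]; exact hAx⟩, h2⟩
        rintro rfl
        exact hu h2.symm
      · exact fun h => h.2
    · rw [ind_false hAx, mul_zero]
      symm
      rw [Finset.card_eq_zero, Finset.filter_eq_empty_iff]
      intro y hy h2
      rw [Set.mem_toFinset, mem_neighborSet] at hy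
      have h3 := ((hX x y).1 hy).2
      rw [h2] at h3
      exact hAx h3

theorem conn_gen {W V : Type} [Fintype W] [Fintype V] (X : SimpleGraph W) (hconn : X.Connected)
    (f : W → V) (hf : Function.Surjective f) (H : Hom X f) (L : ℕ)
    (hdeg : ∀ x, (X.neighborSet x).ncard < 2 * L)
    (hB : ∀ x y, X.Adj x y → f x ≠ f y →
      2 * L ≤ {z | f z = f x}.ncard * {z | f z = f y}.ncard) :
    Blow.Rank X L := by
  classical
  let A : V → V → Prop := fun u v => ∃ x y, f x = u ∧ f y = v ∧ X.Adj x y
  have hA : ∀ u v, A u v → A v u := by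
    rintro u v ⟨x, y, h1, h2, h3⟩
    exact ⟨y, x, h2, h1, h3.symm⟩
  have hind : ∀ u v, ind A u v = ind A v u := by
    intro u v
    by_cases h : A u v
    · rw [ind_true h, ind_true (hA u v h)]
    · rw [ind_false h, ind_false (fun h' => h (hA v u h'))]
  have hX : ∀ x y, X.Adj x y ↔ x ≠ y ∧ A (f x) (f y) := by
    intro x y
    constructor
    · intro h
      exact ⟨h.ne, x, y, rfl, rfl, h⟩
    · rintro ⟨h1, x', y', h2, h3, h4⟩
      exact H x' y' x y h2 h3 h4.ne h1 h4
  let g : V → ℕ := fun v => {w | f w = v}.ncard
  have hpos : ∀ v, 1 ≤ g v := by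
    intro v
    obtain ⟨w, hw⟩ := hf v
    have h1 : {w | f w = v}.Nonempty := ⟨w, hw⟩
    exact (Set.ncard_pos (Set.toFinite _)).2 h1
  let dg : V → ℕ := fun v => ∑ u, (if u = v then (g v - 1) * ind A v v else g u * ind A v u)
  have hdg : ∀ x, dg (f x) = (X.neighborSet x).ncard := fun x => row_eq X f A hX x
  have hdgL : ∀ v, dg v < 2 * L := by
    intro v
    obtain ⟨x, rfl⟩ := hf v
    rw [hdg]; exact hdeg x
  have hL : 1 ≤ L := by
    obtain ⟨x⟩ := hconn.nonempty
    have := hdeg x
    omega
  let e : V → ℕ := fun v => 2 * L - dg v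
  -- the graph of the classes
  let G : SimpleGraph V :=
    { Adj := fun u v => u ≠ v ∧ A u v
      symm := ⟨fun u v h => ⟨h.1.symm, hA _ _ h.2⟩⟩
      loopless := ⟨fun u h => h.1 rfl⟩ }
  have hG : ∀ u v, G.Reachable u v := by
    have h1 : ∀ x y, X.Reachable x y → G.Reachable (f x) (f y) := by
      rintro x y ⟨p⟩
      induction p with
      | nil => exact Reachable.refl _
      | @cons x z y h p ih =>
        by_cases hxz : f x = f z
        · rw [hxz]; exact ih
        · exact (Adj.reachable (⟨hxz, x, z, rfl, rfl, h⟩ : G.Adj (f x) (f z))).trans ih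
    intro u v
    obtain ⟨x, rfl⟩ := hf u
    obtain ⟨y, rfl⟩ := hf v
    exact h1 x y (hconn.preconnected x y)
  have hloop : ∀ u, Even (g u * ((g u - 1) * ind A u u)) := by
    intro u
    rw [← mul_assoc]
    exact (Nat.even_mul_pred_self (g u)).mul_right _
  -- the number of vertices
  have hn : ∑ v, g v = Fintype.card W := by
    rw [← Finset.card_univ, Finset.card_eq_sum_card_fiberwise (f := f) (t := univ)
      (fun _ _ => by simp)]
    apply Finset.sum_congr rfl
    intro v _
    simp only [g, Set.ncard_eq_toFinset_card', Set.toFinset_ofPred]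
  have hdgn : ∀ v, dg v + 1 ≤ Fintype.card W := by
    intro v
    obtain ⟨x, rfl⟩ := hf v
    have h1 : Set.ncard (insert x (X.neighborSet x)) = (X.neighborSet x).ncard + 1 :=
      Set.ncard_insert_of_notMem (by simp) (Set.toFinite _)
    have h2 := Set.ncard_le_ncard (Set.subset_univ (insert x (X.neighborSet x)))
      (Set.toFinite _)
    rw [h1, Set.ncard_univ, Nat.card_eq_fintype_card] at h2
    rw [hdg]; exact h2
  have hge : ∑ v, g v * e v + ∑ v, g v * dg v = 2 * (L * Fintype.card W) := by
    rw [← Finset.sum_add_distrib, ← hn, Finset.mul_sum, Finset.mul_sum]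
    apply Finset.sum_congr rfl
    intro v _
    have h1 := hdgL v
    simp only [e]
    rw [← mul_add, Nat.sub_add_cancel h1.le]
    ring
  have hgd : Even (∑ v, g v * dg v) := by
    have h1 := X.sum_degrees_eq_twice_card_edges
    have h2 : ∀ x, X.degree x = dg (f x) := by
      intro x
      rw [hdg x, ← card_neighborFinset_eq_degree, Set.ncard_eq_toFinset_card']
      rfl
    have h3 : ∑ x, X.degree x = ∑ v, g v * dg v := by
      rw [← Finset.sum_fiberwise univ f]
      apply Finset.sum_congr rfl
      intro v _
      have h4 : ∑ x ∈ univ.filter (fun x => f x = v), X.degree x =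
          ∑ x ∈ univ.filter (fun x => f x = v), dg v := by
        apply Finset.sum_congr rfl
        intro x hx
        rw [h2, (mem_filter.1 hx).2]
      rw [h4, Finset.sum_const, smul_eq_mul]
      simp only [g, Set.ncard_eq_toFinset_card', Set.toFinset_ofPred]
    rw [← h3, h1]
    exact even_two_mul _
  obtain ⟨s, hs⟩ : ∃ s, ∑ v, g v * e v = 2 * s := by
    obtain ⟨k, hk⟩ := hgd
    exact ⟨L * Fintype.card W - k, by omega⟩
  have hsL : L ≤ s := by
    have hnpos : 1 ≤ Fintype.card W := by
      obtain ⟨x⟩ := hconn.nonempty
      exact Fintype.card_pos_iff.2 ⟨x⟩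
    have h1 : 2 * L ≤ ∑ v, g v * e v := by
      rcases Nat.lt_or_ge (Fintype.card W) (2 * L) with h2 | h2
      · obtain ⟨k, hk⟩ : ∃ k, 2 * L = Fintype.card W + k := ⟨2 * L - Fintype.card W, by omega⟩
        have h3 : ∑ v, g v * (k + 1) ≤ ∑ v, g v * e v := by
          apply Finset.sum_le_sum
          intro v _
          apply Nat.mul_le_mul_left
          have h4 := hdgn v
          simp only [e]
          omega
        rw [← Finset.sum_mul, hn] at h3
        nlinarith
      · have h3 : ∑ v, g v ≤ ∑ v, g v * e v := by
          apply Finset.sum_le_sum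
          intro v _
          have h4 := hdgL v
          have h5 : 1 ≤ e v := by simp only [e]; omega
          nlinarith
        omega
    omega
  -- the multigraph with the extra vertex
  let ord : LinearOrder (Option V) := LinearOrder.lift' (Fintype.equivFin (Option V))
    (Fintype.equivFin (Option V)).injective
  let w : Option V → Option V → ℕ := fun x y => match x, y with
    | none, none => 0
    | none, some v => g v * e v
    | some v, none => g v * e v
    | some u, some v => if u = v then 0 else g u * g v * ind A u v
  have hrow : ∀ u, ∑ v, (if u = v then 0 else g u * g v * ind A u v) +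
      g u * ((g u - 1) * ind A u u) = g u * dg u := by
    intro u
    simp only [dg]
    rw [Finset.mul_sum, ← Finset.add_sum_erase _ _ (mem_univ u),
      ← Finset.add_sum_erase _ _ (mem_univ u)]
    simp only [if_true]
    have h2 : ∑ v ∈ univ.erase u, (if u = v then 0 else g u * g v * ind A u v) =
        ∑ v ∈ univ.erase u, g u * (if v = u then (g u - 1) * ind A u u else
          g v * ind A u v) := by
      apply Finset.sum_congr rfl
      intro v hv
      have hv' := Finset.ne_of_mem_erase hv
      rw [if_neg hv'.symm, if_neg hv', mul_assoc]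
    rw [h2]
    ring
  have hsum2 : ∀ u, g u * dg u + g u * e u = 2 * (g u * L) := by
    intro u
    have h1 := hdgL u
    simp only [e]
    rw [← mul_add, Nat.add_sub_cancel' h1.le]
    ring
  have hw : ∀ x, ∃ b, ∑ y, w x y = 2 * b := by
    rintro (_ | u)
    · refine ⟨s, ?_⟩
      rw [Fintype.sum_option]
      simp only [w, zero_add]
      rw [hs]
    · have h1 := hrow u
      obtain ⟨j, hj⟩ := hloop u
      refine ⟨g u * L - j, ?_⟩
      rw [Fintype.sum_option]
      simp only [w]
      rw [hj] at h1
      have h3 := hsum2 u
      omega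
  choose b hb using hw
  have hwd : ∀ x, w x x = 0 := by
    rintro (_ | u)
    · rfl
    · simp [w]
  obtain ⟨o, ho1, ho2, ho3, ho4⟩ := orient w (by
    rintro (_ | u) (_ | v)
    · rfl
    · rfl
    · rfl
    · simp only [w]
      by_cases h : u = v
      · rw [h]
      · rw [if_neg h, if_neg (Ne.symm h), hind u v]; ring) hwd b hb
  have ho0 : ∀ x, o x x = 0 := by
    intro x
    have h1 := ho1 x x
    rw [hwd] at h1
    omega
  -- add the loops
  let lp : Option V → ℕ := fun x => match x with
    | none => 0
    | some u => g u * ((g u - 1) * ind A u u) / 2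
  let o' : Option V → Option V → ℕ := fun x y => if x = y then lp x else o x y
  have ho' : ∀ x, ∑ y, o' x y = b x + lp x := by
    intro x
    rw [← ho2 x, ← Finset.add_sum_erase _ _ (mem_univ x),
      ← Finset.add_sum_erase _ (o x) (mem_univ x), ho0]
    simp only [o', if_true]
    have h2 : ∑ y ∈ univ.erase x, (if x = y then lp x else o x y) = ∑ y ∈ univ.erase x, o x y := by
      apply Finset.sum_congr rfl
      intro y hy
      rw [if_neg (Finset.ne_of_mem_erase hy).symm]
    rw [h2]
    ring
  have ho'' : ∀ y, ∑ x, o' x y = b y + lp y := by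
    intro y
    rw [← ho3 y, ← Finset.add_sum_erase _ _ (mem_univ y),
      ← Finset.add_sum_erase _ (fun x => o x y) (mem_univ y), ho0]
    simp only [o', if_true]
    have h2 : ∑ x ∈ univ.erase y, (if x = y then lp x else o x y) = ∑ x ∈ univ.erase y, o x y := by
      apply Finset.sum_congr rfl
      intro x hx
      rw [if_neg (Finset.ne_of_mem_erase hx)]
    rw [h2]
    ring
  have hblp : ∀ u, b (some u) + lp (some u) = L * g u := by
    intro u
    have h1 := hb (some u)
    rw [Fintype.sum_option] at h1
    simp only [w] at h1
    have h2 := hrow u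
    obtain ⟨j, hj⟩ := hloop u
    simp only [lp]
    rw [hj] at h2 ⊢
    rw [show (j + j) / 2 = j by omega]
    have h3 := hsum2 u
    have h4 : L * g u = g u * L := mul_comm _ _
    omega
  have hbn : b none + lp none = s := by
    have h1 := hb none
    rw [Fintype.sum_option] at h1
    simp only [w, zero_add] at h1
    rw [hs] at h1
    simp only [lp]
    omega
  let g0 : Option V → ℕ := fun x => match x with
    | none => 1
    | some v => g v
  obtain ⟨T, hT1, hT2, hT3, hT4, hT5, hT6⟩ := classes_z (none : Option V) L g0 o' s
    (by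
      rintro (_ | u) hu
      · exact absurd rfl hu
      · rw [ho', hblp])
    (by
      rintro (_ | u) hu
      · exact absurd rfl hu
      · rw [ho'', hblp])
    (by rw [ho', hbn]) (by rw [ho'', hbn]) (by intro x y h; omega)
  let a : Option V → Option V → ℕ := fun x y => match x, y with
    | none, none => 0
    | none, some v => e v
    | some v, none => e v
    | some u, some v => ind A u v
  have hle : ∀ c x y, T c x y ≤ o' x y := by
    intro c x y
    rw [← hT4]
    exact Finset.single_le_sum (f := fun c => T c x y) (fun i _ => Nat.zero_le _) (mem_univ c)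
  have hSt : StP (C := Fin L) (fun x : Option V => x ≠ none) g0 a
      (fun c x y => T c x y + T c y x) := by
    refine ⟨?_, ?_, ?_, ?_, ?_, ?_, ?_, ?_, ?_⟩
    · rintro (_ | u) hu
      · exact le_rfl
      · exact hpos u
    · intro c x y; rw [add_comm]
    · intro c x
      exact Even.add_self _
    · intro x y hxy
      rw [Finset.sum_add_distrib, hT4, hT4]
      simp only [o', if_neg hxy, if_neg hxy.symm]
      rw [ho1]
      rcases x with _ | u <;> rcases y with _ | v
      · exact absurd rfl hxy
      · simp [w, g0, a]
      · simp [w, g0, a]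
      · have huv : u ≠ v := fun e => hxy (by rw [e])
        simp only [w, g0, a, if_neg huv]
    · rintro (_ | u) hu
      · exact absurd rfl hu
      · rw [Finset.sum_add_distrib, hT4]
        simp only [o', if_true, lp, g0, a]
        obtain ⟨j, hj⟩ := hloop u
        rw [hj]
        omega
    · rintro c (_ | u) hu
      · have h1 := hle c none none
        simp only [o', if_true, lp] at h1
        have h2 : T c none none = 0 := by omega
        simp only [h2]
      · exact absurd (by simp) hu
    · intro c x hx
      rw [Finset.sum_add_distrib, hT1 c x hx, hT2 c x hx]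
      ring
    · intro c x
      rw [Finset.sum_add_distrib]
      by_cases hx : x = none
      · rw [hx, hT3 c]
        exact Even.add_self _
      · rw [hT1 c x hx, hT2 c x hx]
        exact Even.add_self _
    · intro c
      have hedge : ∀ u v, G.Adj u v →
          (supp fun x y => T c x y + T c y x).Adj (some u) (some v) := by
        intro u v huv
        have h1 : L ≤ o' (some u) (some v) := by
          have hne : (some u : Option V) ≠ some v := fun e => huv.1 (Option.some.inj e)
          simp only [o', if_neg hne]
          refine le_trans ?_ (ho4 (some u) (some v))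
          obtain ⟨h1, x, y, h2, h3, h4⟩ := huv
          simp only [w, if_neg h1]
          rw [ind_true ⟨x, y, h2, h3, h4⟩, mul_one]
          have h5 := hB x y h4 (by rw [h2, h3]; exact h1)
          rw [h2, h3] at h5
          change 2 * L ≤ g u * g v at h5
          omega
        have h2 := hT5 _ _ h1 c
        exact ⟨fun e => huv.1 (Option.some.inj e), by show 0 < _ + _; omega,
          by show 0 < _ + _; omega⟩
      have hreach : ∀ u v, (supp fun x y => T c x y + T c y x).Reachable (some u) (some v) := by
        intro u v
        obtain ⟨p⟩ := hG u v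
        induction p with
        | nil => exact Reachable.refl _
        | cons h p ih => exact (hedge _ _ h).reachable.trans ih
      have hnone : ∃ v, (supp fun x y => T c x y + T c y x).Adj none (some v) := by
        have h1 := hT6 hsL c
        rw [Fintype.sum_option] at h1
        have h2 : T c none none = 0 := by
          have h3 := hle c none none
          simp only [o', if_true, lp] at h3
          omega
        rw [h2, zero_add] at h1
        obtain ⟨v, hv⟩ : ∃ v, 1 ≤ T c none (some v) := by
          by_contra hno
          push Not at hno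
          have h3 : ∑ v, T c none (some v) = 0 := Finset.sum_eq_zero fun v _ => by
            have := hno v; omega
          omega
        exact ⟨v, by simp, by show 0 < _ + _; omega, by show 0 < _ + _; omega⟩
      obtain ⟨v0, hv0⟩ := hnone
      refine (connected_iff _).2 ⟨?_, ⟨none⟩⟩
      rintro (_ | x) (_ | y)
      · exact Reachable.refl _
      · exact hv0.reachable.trans (hreach v0 y)
      · exact (hreach x v0).trans hv0.symm.reachable
      · exact hreach x y
  obtain ⟨E, hE1, hE2⟩ := LF_of_StP A f g0 (fun v => rfl) a (by
    rintro (_ | u) (_ | v)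
    · rfl
    · rfl
    · rfl
    · exact hind u v) (fun u v => rfl) _ hSt X hX
  exact rank_of_LF X E hE1 hE2

end Pool.Agent.X76.Det
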