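import Pool.Agent.H79.LA.X76_Lex2

set_option autoImplicit false

/-!
Aligning Hamilton cycles of a blow-up; a greedy choice of edges with bounded loads.
-/

namespace Pool.Agent.X76.Lex

open SimpleGraph Finset H931R3.LA Pool.Agent.X76.Blow

/-- König's theorem for a family of pairs -/
theorem konig_index {V : Type} [Fintype V] [DecidableEq V] (h c : ℕ) (a b : Fin h → V)
    (ha : ∀ v, (univ.filter fun j => a j = v).card ≤ c)
    (hb : ∀ v, (univ.filter fun j => b j = v).card ≤ c) :
    ∃ κ : Fin h → Fin c, (∀ j j', j ≠ j' → a j = a j' → κ j ≠ κ j') ∧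
      ∀ j j', j ≠ j' → b j = b j' → κ j ≠ κ j' := by
  classical
  let J : V → V → Finset (Fin h) := fun v w => univ.filter fun j => a j = v ∧ b j = w
  have hrow : ∀ v, ∑ w, (J v w).card ≤ c := by
    intro v
    refine le_trans (le_of_eq ?_) (ha v)
    rw [Finset.card_eq_sum_card_fiberwise (f := b) (t := univ) (fun _ _ => mem_univ _)]
    apply sum_congr rfl
    intro w _
    congr 1
    ext j
    simp only [J, mem_filter, mem_univ, true_and]
  have hcol : ∀ w, ∑ v, (J v w).card ≤ c := by
    intro w
    refine le_trans (le_of_eq ?_) (hb w)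
    rw [Finset.card_eq_sum_card_fiberwise (f := a) (t := univ) (fun _ _ => mem_univ _)]
    apply sum_congr rfl
    intro v _
    congr 1
    ext j
    simp only [J, mem_filter, mem_univ, true_and]
    exact and_comm
  have htot : ∑ v, ∑ w, (J v w).card ≤ c * Fintype.card V := by
    calc ∑ v, ∑ w, (J v w).card ≤ ∑ _v : V, c := Finset.sum_le_sum fun v _ => hrow v
      _ = c * Fintype.card V := by simp [mul_comm]
  obtain ⟨M', h1, h2, h3⟩ := TH525.LAD.fill c (c * Fintype.card V - ∑ v, ∑ w, (J v w).card)
    (fun v w => (J v w).card) hrow hcol (by omega)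
  obtain ⟨σ, hσ⟩ := Pool.Agent.H150R2.ZSF.koenig c M' h2 h3
  have hemb : ∀ v w, ∃ g : Fin h → Fin c, (∀ j ∈ J v w, σ (g j) v = w) ∧
      Set.InjOn g (J v w : Set (Fin h)) := by
    intro v w
    have h4 : (J v w).card ≤ (univ.filter fun i => σ i v = w).card := by
      refine (h1 v w).trans (le_of_eq ?_)
      rw [hσ v w, Finset.card_filter (fun i => (σ i) v = w) univ]
      apply sum_congr rfl
      intro i _
      by_cases h9 : σ i v = w
      · rw [if_pos h9, if_pos h9]
      · rw [if_neg h9, if_neg h9]
    by_cases hne : (J v w).Nonempty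
    · obtain ⟨j0, hj0⟩ := hne
      have h5 : Nonempty ((J v w) ↪ (univ.filter fun i => σ i v = w : Finset (Fin c))) := by
        apply Function.Embedding.nonempty_of_card_le
        rw [Fintype.card_coe, Fintype.card_coe]
        exact h4
      obtain ⟨e⟩ := h5
      refine ⟨fun j => if hj : j ∈ J v w then (e ⟨j, hj⟩).1 else (e ⟨j0, hj0⟩).1, ?_, ?_⟩
      · intro j hj
        simp only [dif_pos hj]
        have := (e ⟨j, hj⟩).2
        rw [mem_filter] at this
        exact this.2
      · intro j hj j' hj' hjj
        simp only [dif_pos (Finset.mem_coe.1 hj), dif_pos (Finset.mem_coe.1 hj')] at hjj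
        have := e.injective (Subtype.ext hjj)
        exact congrArg Subtype.val this
    · rw [Finset.not_nonempty_iff_eq_empty] at hne
      rcases Nat.eq_zero_or_pos c with rfl | hc
      · have h0 : IsEmpty (Fin h) := by
          refine ⟨fun j => ?_⟩
          have h5 := ha (a j)
          have h6 : j ∈ univ.filter fun j' => a j' = a j := by simp
          have := card_pos.2 ⟨j, h6⟩
          omega
        exact ⟨fun j => h0.elim j, fun j => h0.elim j, fun j => h0.elim j⟩
      · refine ⟨fun _ => ⟨0, hc⟩, ?_, ?_⟩
        · intro j hj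
          rw [hne] at hj
          exact absurd hj (notMem_empty _)
        · rw [hne]
          simp
  choose g hg1 hg2 using hemb
  have hmem : ∀ j, j ∈ J (a j) (b j) := by
    intro j
    simp only [J, mem_filter, mem_univ, true_and, and_self]
  refine ⟨fun j => g (a j) (b j) j, ?_, ?_⟩
  · intro j j' hne haa hk
    simp only at hk
    by_cases hbb : b j = b j'
    · apply hne
      apply hg2 (a j) (b j) (Finset.mem_coe.2 (hmem j)) (Finset.mem_coe.2 ?_)
      · rw [hk, haa, hbb]
      · rw [haa, hbb]; exact hmem j'
    · apply hbb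
      have e1 := hg1 _ _ j (hmem j)
      have e2 := hg1 _ _ j' (hmem j')
      rw [← hk, ← haa] at e2
      exact e1.symm.trans e2
  · intro j j' hne hbb hk
    simp only at hk
    by_cases haa : a j = a j'
    · apply hne
      apply hg2 (a j) (b j) (Finset.mem_coe.2 (hmem j)) (Finset.mem_coe.2 ?_)
      · rw [hk, haa, hbb]
      · rw [haa, hbb]; exact hmem j'
    · apply haa
      have e1 := hg1 _ _ j (hmem j)
      have e2 := hg1 _ _ j' (hmem j')
      rw [← hk] at e2
      apply (σ (g (a j) (b j) j)).injective
      rw [e1, e2, hbb]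

/-- extending a partial injection of a finite set to a permutation -/
theorem ext_perm {U : Type} [Finite U] (r : U → U → Prop)
    (h1 : ∀ a b b', r a b → r a b' → b = b') (h2 : ∀ a a' b, r a b → r a' b → a = a') :
    ∃ ρ : Equiv.Perm U, ∀ a b, r a b → ρ a = b := by
  classical
  have := Fintype.ofFinite U
  let g : {a // ∃ b, r a b} → {b // ∃ a, r a b} := fun a => ⟨a.2.choose, a.1, a.2.choose_spec⟩
  have hg : ∀ a b (h : r a b), g ⟨a, b, h⟩ = ⟨b, a, h⟩ := by
    intro a b h
    apply Subtype.ext
    exact h1 a _ _ (Exists.choose_spec (⟨b, h⟩ : ∃ b, r a b)) h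
  have hb : Function.Bijective g := by
    constructor
    · rintro ⟨a, b, h⟩ ⟨a', b', h'⟩ he
      rw [hg a b h, hg a' b' h'] at he
      have h3 := congrArg Subtype.val he
      simp only at h3
      subst h3
      exact Subtype.ext (h2 _ _ _ h h')
    · rintro ⟨b, a, h⟩
      exact ⟨⟨a, b, h⟩, hg a b h⟩
  let e := Equiv.ofBijective g hb
  refine ⟨e.extendSubtype, fun a b h => ?_⟩
  rw [Equiv.extendSubtype_apply_of_mem e a ⟨b, h⟩]
  show (g ⟨a, b, h⟩).1 = b
  rw [hg a b h]

theorem align {V U W : Type} [Fintype V] [DecidableEq V] [Finite U] (G : SimpleGraph V)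
    (χ : V → Bool) (hχ : ∀ u v, G.Adj u v → χ u ≠ χ v) (f : W → V) (u : W → U)
    (hbij : Function.Bijective (fun w => (f w, u w)))
    {L h : ℕ} {F : Fin h → ZMod L → W} (hF : HD (G.comap f) L F) (T : Fin h → ZMod L)
    (hT : ∀ j j', j ≠ j' → F j (T j) ≠ F j' (T j') ∧ F j (T j) ≠ F j' (T j' + 1) ∧
      F j (T j + 1) ≠ F j' (T j' + 1)) (Z : Finset U)
    (hload : ∀ v, (univ.filter fun j => f (F j (T j)) = v ∨ f (F j (T j + 1)) = v).card ≤
      Z.card) :
    ∃ (F' : Fin h → ZMod L → W) (κ : Fin h → U), HD (G.comap f) L F' ∧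
      (∀ j j', j ≠ j' → F' j (T j) ≠ F' j' (T j') ∧ F' j (T j) ≠ F' j' (T j' + 1) ∧
        F' j (T j + 1) ≠ F' j' (T j' + 1)) ∧
      ∀ j, κ j ∈ Z ∧ u (F' j (T j)) = κ j ∧ u (F' j (T j + 1)) = κ j := by
  classical
  have hadj : ∀ j, G.Adj (f (F j (T j))) (f (F j (T j + 1))) := fun j => hF.2.1 j (T j)
  let End : Fin h → W → Prop := fun j x => x = F j (T j) ∨ x = F j (T j + 1)
  have hend : ∀ j j' x, End j x → End j' x → j = j' := by
    intro j j' x hx hx'
    by_contra hne
    obtain ⟨e1, e2, e3⟩ := hT j j' hne
    obtain ⟨-, e4, -⟩ := hT j' j (Ne.symm hne)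
    rcases hx with rfl | rfl <;> rcases hx' with h' | h'
    · exact e1 h'
    · exact e2 h'
    · exact e4 h'.symm
    · exact e3 h'
  have hend2 : ∀ j x x', End j x → End j x' → f x = f x' → x = x' := by
    intro j x x' hx hx' hf
    have h1 := (hadj j).ne
    rcases hx with rfl | rfl <;> rcases hx' with rfl | rfl
    · rfl
    · exact absurd hf h1
    · exact absurd hf.symm h1
    · rfl
  let a : Fin h → V := fun j => if χ (f (F j (T j))) = true then f (F j (T j)) else
    f (F j (T j + 1))
  let b : Fin h → V := fun j => if χ (f (F j (T j))) = true then f (F j (T j + 1)) else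
    f (F j (T j))
  have hab : ∀ j x, End j x → (χ (f x) = true → a j = f x) ∧ (χ (f x) = false → b j = f x) := by
    intro j x hx
    have h1 := hχ _ _ (hadj j)
    rcases hx with rfl | rfl
    · constructor
      · intro h2
        simp only [a, if_pos h2]
      · intro h2
        simp only [b, h2, Bool.false_eq_true, if_false]
    · constructor
      · intro h2
        have h3 : χ (f (F j (T j))) = false := by
          rw [h2] at h1
          simpa using h1
        simp only [a, h3, Bool.false_eq_true, if_false]
      · intro h2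
        have h3 : χ (f (F j (T j))) = true := by
          rw [h2] at h1
          simpa using h1
        simp only [b, if_pos h3]
  obtain ⟨κ0, hk1, hk2⟩ := konig_index h Z.card a b
    (by
      intro v
      refine le_trans (card_le_card ?_) (hload v)
      intro j hj
      rw [mem_filter] at hj ⊢
      refine ⟨mem_univ _, ?_⟩
      have h1 := hj.2
      simp only [a] at h1
      split_ifs at h1
      · exact Or.inl h1
      · exact Or.inr h1)
    (by
      intro v
      refine le_trans (card_le_card ?_) (hload v)
      intro j hj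
      rw [mem_filter] at hj ⊢
      refine ⟨mem_univ _, ?_⟩
      have h1 := hj.2
      simp only [b] at h1
      split_ifs at h1
      · exact Or.inr h1
      · exact Or.inl h1)
  let κ : Fin h → U := fun j => (Z.equivFin.symm (κ0 j)).1
  have hκZ : ∀ j, κ j ∈ Z := fun j => (Z.equivFin.symm (κ0 j)).2
  have hκinj : ∀ j j', κ j = κ j' → κ0 j = κ0 j' := by
    intro j j' hjj
    exact Z.equivFin.symm.injective (Subtype.ext hjj)
  have hκ : ∀ j j' x x', j ≠ j' → End j x → End j' x' → f x = f x' → κ j ≠ κ j' := by
    intro j j' x x' hne hx hx' hf hk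
    have h1 := hκinj _ _ hk
    cases hc : χ (f x) with
    | true =>
      refine hk1 j j' hne ?_ h1
      rw [(hab j x hx).1 hc, (hab j' x' hx').1 (by rw [← hf]; exact hc), hf]
    | false =>
      refine hk2 j j' hne ?_ h1
      rw [(hab j x hx).2 hc, (hab j' x' hx').2 (by rw [← hf]; exact hc), hf]
  let B : W ≃ V × U := Equiv.ofBijective _ hbij
  have hρ : ∀ v, ∃ ρ : Equiv.Perm U, ∀ c d, (∃ j x, End j x ∧ f x = v ∧ u x = c ∧ κ j = d) →
      ρ c = d := by
    intro v
    apply ext_perm
    · rintro c d d' ⟨j, x, h1, h2, h3, h4⟩ ⟨j', x', h1', h2', h3', h4'⟩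
      have h5 : x = x' := hbij.1 (Prod.ext (h2.trans h2'.symm) (h3.trans h3'.symm))
      subst h5
      rw [← h4, ← h4', hend j j' x h1 h1']
    · rintro c c' d ⟨j, x, h1, h2, h3, h4⟩ ⟨j', x', h1', h2', h3', h4'⟩
      have h5 : j = j' := by
        by_contra hne
        exact hκ j j' x x' hne h1 h1' (h2.trans h2'.symm) (h4.trans h4'.symm)
      subst h5
      rw [← h3, ← h3', hend2 j x x' h1 h1' (h2.trans h2'.symm)]
  choose ρ hρ using hρ
  let Q : W ≃ W := B.trans ((Equiv.prodShear (Equiv.refl V) ρ).trans B.symm)
  have hBQ : ∀ w, B (Q w) = (f w, ρ (f w) (u w)) := by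
    intro w
    simp only [Q, Equiv.trans_apply, Equiv.apply_symm_apply]
    rfl
  have hQf : ∀ w, f (Q w) = f w := fun w => congrArg Prod.fst (hBQ w)
  have hQu : ∀ w, u (Q w) = ρ (f w) (u w) := fun w => congrArg Prod.snd (hBQ w)
  refine ⟨fun j s => Q (F j s), κ, ⟨?_, ?_, ?_⟩, ?_, ?_⟩
  · intro j
    exact Q.bijective.comp (hF.1 j)
  · intro j s
    have h1 := hF.2.1 j s
    rw [comap_adj] at h1 ⊢
    rw [hQf, hQf]
    exact h1
  · intro x y hxy
    have h1 : (G.comap f).Adj (Q.symm x) (Q.symm y) := by
      rw [comap_adj] at hxy ⊢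
      rw [← hQf (Q.symm x), ← hQf (Q.symm y), Equiv.apply_symm_apply, Equiv.apply_symm_apply]
      exact hxy
    have key : ∀ c d : W, s(Q c, Q d) = s(x, y) ↔ s(c, d) = s(Q.symm x, Q.symm y) := by
      intro c d
      rw [Sym2.eq_iff, Sym2.eq_iff]
      simp only [Equiv.eq_symm_apply]
    obtain ⟨r, hr1, hr2⟩ := hF.2.2 _ _ h1
    refine ⟨r, (key _ _).2 hr1, fun r' hr' => hr2 r' ((key _ _).1 hr')⟩
  · intro j j' hne
    obtain ⟨e1, e2, e3⟩ := hT j j' hne
    exact ⟨fun e => e1 (Q.injective e), fun e => e2 (Q.injective e), fun e => e3 (Q.injective e)⟩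
  · intro j
    refine ⟨hκZ j, ?_, ?_⟩
    · rw [hQu]
      exact hρ _ _ _ ⟨j, _, Or.inl rfl, rfl, rfl, rfl⟩
    · rw [hQu]
      exact hρ _ _ _ ⟨j, _, Or.inr rfl, rfl, rfl, rfl⟩

/-- greedy choice of disjoint edges with bounded loads of the fibres -/
theorem greedy2 {V W : Type} [Fintype V] [DecidableEq V] [Fintype W] {L h : ℕ} [NeZero L]
    (F : Fin h → ZMod L → W) (hF : ∀ j, Function.Injective (F j)) (f : W → V) (m c : ℕ)
    (hf : ∀ v, (univ.filter fun w => f w = v).card ≤ m) (hmc : m ≤ 2 * c) (h8 : 8 * h ≤ L) :
    ∃ T : Fin h → ZMod L, (∀ j j', j ≠ j' → F j (T j) ≠ F j' (T j') ∧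
      F j (T j) ≠ F j' (T j' + 1) ∧ F j (T j + 1) ≠ F j' (T j' + 1)) ∧
      ∀ v, (univ.filter fun j => f (F j (T j)) = v ∨ f (F j (T j + 1)) = v).card ≤ c := by
  classical
  have main : ∀ S : Finset (Fin h), ∃ T : Fin h → ZMod L, (∀ j ∈ S, ∀ j' ∈ S, j ≠ j' →
      F j (T j) ≠ F j' (T j') ∧ F j (T j) ≠ F j' (T j' + 1) ∧ F j (T j + 1) ≠ F j' (T j' + 1)) ∧
      ∀ v, (S.filter fun j => f (F j (T j)) = v ∨ f (F j (T j + 1)) = v).card ≤ c := by
    intro S
    induction S using Finset.induction_on with
    | empty => exact ⟨fun _ => 0, by simp, by simp⟩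
    | insert a S ha ih =>
      obtain ⟨T, hT, hT2⟩ := ih
      let ld : V → Finset (Fin h) := fun v =>
        S.filter fun j => f (F j (T j)) = v ∨ f (F j (T j + 1)) = v
      let P : Finset W := univ.filter fun w =>
        (∃ j ∈ S, w = F j (T j) ∨ w = F j (T j + 1)) ∨ c ≤ (ld (f w)).card
      have hsum : ∑ v, (ld v).card ≤ 2 * S.card := by
        have h1 : ∑ v, (ld v).card ≤ ∑ v, ((S.filter fun j => f (F j (T j)) = v).card +
            (S.filter fun j => f (F j (T j + 1)) = v).card) := by
          apply sum_le_sum
          intro v _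
          simp only [ld]
          rw [filter_or]
          exact card_union_le _ _
        rw [sum_add_distrib,
          ← Finset.card_eq_sum_card_fiberwise (f := fun j => f (F j (T j))) (t := univ)
            (fun _ _ => mem_univ _),
          ← Finset.card_eq_sum_card_fiberwise (f := fun j => f (F j (T j + 1))) (t := univ)
            (fun _ _ => mem_univ _)] at h1
        omega
      have hP : P.card ≤ 4 * S.card := by
        have h1 : P.card = ∑ v, (P.filter fun w => f w = v).card :=
          Finset.card_eq_sum_card_fiberwise (f := f) (t := univ) (fun _ _ => mem_univ _)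
        have h2 : ∑ v, (P.filter fun w => f w = v).card ≤ ∑ v, 2 * (ld v).card := by
          apply sum_le_sum
          intro v _
          by_cases hc : c ≤ (ld v).card
          · have h3 : (P.filter fun w => f w = v).card ≤ m := by
              refine le_trans (card_le_card ?_) (hf v)
              intro w hw
              rw [mem_filter] at hw ⊢
              exact ⟨mem_univ _, hw.2⟩
            omega
          · have h3 : P.filter (fun w => f w = v) ⊆ (ld v).image (fun j => F j (T j)) ∪
                (ld v).image (fun j => F j (T j + 1)) := by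
              intro w hw
              rw [mem_filter] at hw
              obtain ⟨hw1, hw2⟩ := hw
              rw [mem_filter] at hw1
              rcases hw1.2 with ⟨j, hj, h4⟩ | h4
              · rw [mem_union, mem_image, mem_image]
                rcases h4 with rfl | rfl
                · exact Or.inl ⟨j, mem_filter.2 ⟨hj, Or.inl hw2⟩, rfl⟩
                · exact Or.inr ⟨j, mem_filter.2 ⟨hj, Or.inr hw2⟩, rfl⟩
              · rw [hw2] at h4
                exact absurd h4 hc
            have h4 := (card_le_card h3).trans (card_union_le _ _)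
            have h5 := card_image_le (s := ld v) (f := fun j => F j (T j))
            have h6 := card_image_le (s := ld v) (f := fun j => F j (T j + 1))
            omega
        rw [← mul_sum] at h2
        omega
      have hS : S.card + 1 ≤ h := by
        have h1 := card_le_univ (insert a S)
        rw [card_insert_of_notMem ha, Fintype.card_fin] at h1
        exact h1
      have hb1 : (univ.filter fun t : ZMod L => F a t ∈ P).card ≤ P.card := by
        apply card_le_card_of_injOn (F a)
        · intro t ht
          rw [Finset.mem_coe, mem_filter] at ht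
          exact ht.2
        · exact (hF a).injOn
      have hb2 : (univ.filter fun t : ZMod L => F a (t + 1) ∈ P).card ≤ P.card := by
        apply card_le_card_of_injOn (fun t => F a (t + 1))
        · intro t ht
          rw [Finset.mem_coe, mem_filter] at ht
          exact ht.2
        · intro t _ t' _ htt
          exact add_right_cancel (hF a htt)
      obtain ⟨t, ht⟩ : ∃ t : ZMod L, F a t ∉ P ∧ F a (t + 1) ∉ P := by
        by_contra hno
        push Not at hno
        have h1 : (univ : Finset (ZMod L)) ⊆ (univ.filter fun t : ZMod L => F a t ∈ P) ∪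
            (univ.filter fun t : ZMod L => F a (t + 1) ∈ P) := by
          intro t _
          refine mem_union.2 ?_
          by_cases h2 : F a t ∈ P
          · exact Or.inl (mem_filter.2 ⟨mem_univ _, h2⟩)
          · exact Or.inr (mem_filter.2 ⟨mem_univ _, hno t h2⟩)
        have h2 := (card_le_card h1).trans (card_union_le _ _)
        rw [card_univ, ZMod.card] at h2
        omega
      have hnP : ∀ w, w ∉ P → (∀ j ∈ S, w ≠ F j (T j) ∧ w ≠ F j (T j + 1)) ∧
          (ld (f w)).card < c := by
        intro w hw
        constructor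
        · intro j hj
          refine ⟨fun e => hw ?_, fun e => hw ?_⟩
          · exact mem_filter.2 ⟨mem_univ _, Or.inl ⟨j, hj, Or.inl e⟩⟩
          · exact mem_filter.2 ⟨mem_univ _, Or.inl ⟨j, hj, Or.inr e⟩⟩
        · by_contra hcon
          exact hw (mem_filter.2 ⟨mem_univ _, Or.inr (not_lt.1 hcon)⟩)
      obtain ⟨hn1, hl1⟩ := hnP _ ht.1
      obtain ⟨hn2, hl2⟩ := hnP _ ht.2
      have hup : ∀ i ∈ S, Function.update T a t i = T i := by
        intro i hi
        apply Function.update_of_ne
        rintro rfl
        exact ha hi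
      refine ⟨Function.update T a t, ?_, ?_⟩
      · intro j hj j' hj' hne
        rw [mem_insert] at hj hj'
        rcases hj with rfl | hj
        · rcases hj' with rfl | hj'
          · exact absurd rfl hne
          · rw [Function.update_self, hup j' hj']
            exact ⟨(hn1 j' hj').1, (hn1 j' hj').2, (hn2 j' hj').2⟩
        · rcases hj' with rfl | hj'
          · rw [Function.update_self, hup j hj]
            exact ⟨(hn1 j hj).1.symm, (hn2 j hj).1.symm, (hn2 j hj).2.symm⟩
          · rw [hup j hj, hup j' hj']
            exact hT j hj j' hj' hne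
      · intro v
        rw [filter_insert]
        have h1 : S.filter (fun j => f (F j (Function.update T a t j)) = v ∨
            f (F j (Function.update T a t j + 1)) = v) = ld v := by
          apply filter_congr
          intro j hj
          rw [hup j hj]
        rw [h1]
        split_ifs with h2
        · rw [Function.update_self] at h2
          have h3 : (ld v).card < c := by
            rcases h2 with h2 | h2
            · rw [← h2]; exact hl1
            · rw [← h2]; exact hl2
          exact (card_insert_le _ _).trans h3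
        · exact hT2 v
  obtain ⟨T, hT, hT2⟩ := main univ
  exact ⟨T, fun j j' hne => hT j (mem_univ _) j' (mem_univ _) hne, hT2⟩

end Pool.Agent.X76.Lex
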