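import Pool.Agent.H79.LA.X76_Det15

set_option autoImplicit false

/-!
Balanced classes of blow-ups, matchings, assignment of colours to the edges of a matching.
-/

namespace Pool.Agent.X76.Det

open Finset SimpleGraph H931R3.LA

theorem exists_T {V : Type} [Fintype V] (G : SimpleGraph V) (r m : ℕ)
    (hdeg : ∀ v, (G.neighborSet v).ncard = r)
    (hrm : (Even r ∧ r ≤ 2 * m) ∨ (Even m ∧ r ≤ m)) :
    ∃ T : Fin (r * m / 2) → V → V → ℕ, (∀ c u, ∑ v, T c u v = m) ∧ (∀ c v, ∑ u, T c u v = m) ∧
      (∀ u v, G.Adj u v → ∑ c, (T c u v + T c v u) = m * m) ∧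
      (∀ u v, ¬ G.Adj u v → ∑ c, (T c u v + T c v u) = 0) ∧
      ∀ c u v, G.Adj u v → 1 ≤ T c u v + T c v u := by
  classical
  let ord : LinearOrder V := LinearOrder.lift' (Fintype.equivFin V) (Fintype.equivFin V).injective
  have hsum : ∀ u, ∑ v, (if G.Adj u v then 1 else 0) = r := by
    intro u
    rw [← hdeg u, Set.ncard_eq_toFinset_card', ← Finset.card_filter]
    congr 1
    ext v
    simp
  have hev : Even (r * m) := by
    rcases hrm with h | h
    · exact h.1.mul_right _
    · exact h.1.mul_left _
  have hL : 2 * (r * m / 2) = r * m := by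
    obtain ⟨k, hk⟩ := hev
    omega
  have key : ∃ o : V → V → ℕ, (∀ u v, o u v + o v u = if G.Adj u v then m * m else 0) ∧
      (∀ u, ∑ v, o u v = r * m / 2 * m) ∧ (∀ v, ∑ u, o u v = r * m / 2 * m) ∧
      ∀ u v, G.Adj u v → r * m / 2 ≤ o u v ∨ r * m / 2 ≤ o v u := by
    rcases hrm with ⟨⟨k, hk⟩, hrm⟩ | ⟨⟨k, hk⟩, hrm⟩
    · obtain ⟨o, ho1, ho2, ho3, ho4⟩ := orient (fun u v => if G.Adj u v then 1 else 0) (by
        intro u v
        by_cases h : G.Adj u v
        · rw [if_pos h, if_pos h.symm]
        · rw [if_neg h, if_neg (fun h' => h h'.symm)]) (by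
        intro u
        rw [if_neg (SimpleGraph.irrefl G)]) (fun _ => k) (by
        intro u
        rw [hsum, hk]; ring)
      have h5 : m * m * k = r * m / 2 * m := by
        have h6 : r * m / 2 = k * m := by
          rw [hk, ← two_mul, mul_assoc, Nat.mul_div_cancel_left _ two_pos]
        rw [h6]; ring
      refine ⟨fun u v => m * m * o u v, ?_, ?_, ?_, ?_⟩
      · intro u v
        rw [← mul_add, ho1]
        split_ifs <;> simp
      · intro u
        rw [← Finset.mul_sum, ho2, h5]
      · intro v
        rw [← Finset.mul_sum, ho3, h5]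
      · intro u v huv
        have h6 := ho1 u v
        rw [if_pos huv] at h6
        have h7 : r * m / 2 ≤ m * m := by
          have : r * m ≤ 2 * m * m := Nat.mul_le_mul_right m hrm
          have h8 : 2 * m * m = 2 * (m * m) := by ring
          omega
        rcases Nat.eq_zero_or_pos (o u v) with h8 | h8
        · right
          have h9 : o v u = 1 := by omega
          show r * m / 2 ≤ m * m * o v u
          rw [h9, mul_one]; exact h7
        · left
          have h9 : o u v = 1 := by omega
          show r * m / 2 ≤ m * m * o u v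
          rw [h9, mul_one]; exact h7
    · obtain ⟨o, ho1, ho2, ho3, ho4⟩ := orient (fun u v => if G.Adj u v then m * m else 0) (by
        intro u v
        by_cases h : G.Adj u v
        · rw [if_pos h, if_pos h.symm]
        · rw [if_neg h, if_neg (fun h' => h h'.symm)]) (by
        intro u
        rw [if_neg (SimpleGraph.irrefl G)]) (fun _ => r * m / 2 * m) (by
        intro u
        have h5 : ∀ v, (if G.Adj u v then m * m else 0) = m * m * (if G.Adj u v then 1 else 0) := by
          intro v
          split_ifs <;> simp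
        rw [Finset.sum_congr rfl (fun v _ => h5 v), ← Finset.mul_sum, hsum, ← mul_assoc, hL]
        ring)
      refine ⟨o, ho1, ho2, ho3, ?_⟩
      intro u v huv
      left
      have h6 := ho4 u v
      rw [if_pos huv] at h6
      refine le_trans (Nat.div_le_div_right ?_) h6
      exact Nat.mul_le_mul_right m hrm
  obtain ⟨o, ho1, ho2, ho3, ho4⟩ := key
  obtain ⟨T, hT1, hT2, hT3, hT4⟩ := classes (r * m / 2) (fun _ => m) (fun _ => m) o ho2 ho3
  refine ⟨T, hT1, hT2, ?_, ?_, ?_⟩
  · intro u v huv
    rw [Finset.sum_add_distrib, hT3, hT3, ho1, if_pos huv]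
  · intro u v huv
    rw [Finset.sum_add_distrib, hT3, hT3, ho1, if_neg huv]
  · intro c u v huv
    rcases ho4 u v huv with h | h
    · have := hT4 u v h c; omega
    · have := hT4 v u h c; omega

/-- matchings as sets of pairs -/
def IsM {V : Type} (G : SimpleGraph V) (M : Finset (V × V)) : Prop :=
  (∀ e ∈ M, G.Adj e.1 e.2) ∧ ∀ e ∈ M, ∀ e' ∈ M, e ≠ e' →
    e.1 ≠ e'.1 ∧ e.1 ≠ e'.2 ∧ e.2 ≠ e'.1 ∧ e.2 ≠ e'.2

theorem IsM.sub {V : Type} {G : SimpleGraph V} {M M' : Finset (V × V)} (h : IsM G M)
    (hs : M' ⊆ M) : IsM G M' :=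
  ⟨fun e he => h.1 e (hs he), fun e he e' he' => h.2 e (hs he) e' (hs he')⟩

theorem IsM.insert {V : Type} [DecidableEq V] {G : SimpleGraph V} {M : Finset (V × V)}
    (h : IsM G M) {x z : V} (hxz : G.Adj x z) (hx : ∀ e ∈ M, x ≠ e.1 ∧ x ≠ e.2)
    (hz : ∀ e ∈ M, z ≠ e.1 ∧ z ≠ e.2) : IsM G (insert (x, z) M) ∧ (x, z) ∉ M := by
  refine ⟨⟨?_, ?_⟩, fun hmem => (hx _ hmem).1 rfl⟩
  · intro e he
    rcases mem_insert.1 he with rfl | he
    · exact hxz
    · exact h.1 e he
  · intro e he e' he' hne
    rcases mem_insert.1 he with rfl | he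
    · rcases mem_insert.1 he' with rfl | he'
      · exact absurd rfl hne
      · exact ⟨(hx e' he').1, (hx e' he').2, (hz e' he').1, (hz e' he').2⟩
    · rcases mem_insert.1 he' with rfl | he'
      · exact ⟨(hx e he).1.symm, (hz e he).1.symm, (hx e he).2.symm, (hz e he).2.symm⟩
      · exact h.2 e he e' he' hne

theorem exists_matching {V : Type} [Fintype V] (G : SimpleGraph V) (r : ℕ)
    (hdeg : ∀ v, r ≤ (G.neighborSet v).ncard) : ∀ k, k ≤ r → 2 * k ≤ Fintype.card V →
      ∃ M : Finset (V × V), IsM G M ∧ M.card = k := by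
  classical
  intro k
  induction k with
  | zero => exact fun _ _ => ⟨∅, ⟨by simp, by simp⟩, rfl⟩
  | succ k ih =>
    intro hk hn
    obtain ⟨M, hM, hc⟩ := ih (by omega) (by omega)
    let S : Finset V := M.image Prod.fst ∪ M.image Prod.snd
    have hS : S.card ≤ 2 * k := by
      refine (card_union_le _ _).trans ?_
      have h1 := card_image_le (s := M) (f := Prod.fst)
      have h2 := card_image_le (s := M) (f := Prod.snd)
      omega
    have hmemS : ∀ x, x ∉ S → ∀ e ∈ M, x ≠ e.1 ∧ x ≠ e.2 := by
      intro x hx e he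
      constructor
      · rintro rfl
        exact hx (mem_union_left _ (mem_image_of_mem _ he))
      · rintro rfl
        exact hx (mem_union_right _ (mem_image_of_mem _ he))
    have h2 : 1 < (Sᶜ).card := by
      rw [card_compl]
      omega
    obtain ⟨x, hx, y, hy, hxy⟩ := Finset.one_lt_card.1 h2
    rw [mem_compl] at hx hy
    -- free neighbours
    have hfree : ∀ x, x ∉ S → (∃ z, z ∉ S ∧ G.Adj x z) →
        ∃ M : Finset (V × V), IsM G M ∧ M.card = k + 1 := by
      rintro x hx ⟨z, hz, hxz⟩
      obtain ⟨h3, h4⟩ := hM.insert hxz (hmemS x hx) (hmemS z hz)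
      exact ⟨_, h3, by rw [card_insert_of_notMem h4, hc]⟩
    by_cases hfx : ∃ z, z ∉ S ∧ G.Adj x z
    · exact hfree x hx hfx
    by_cases hfy : ∃ z, z ∉ S ∧ G.Adj y z
    · exact hfree y hy hfy
    push Not at hfx hfy
    -- augmentation
    have haug : ∀ x y, x ∉ S → y ∉ S → x ≠ y → ∀ e ∈ M, G.Adj x e.1 → G.Adj y e.2 →
        ∃ M : Finset (V × V), IsM G M ∧ M.card = k + 1 := by
      intro x y hx hy hxy e he h3 h4
      have hM1 : IsM G (M.erase e) := hM.sub (erase_subset _ _)
      obtain ⟨h5, h6⟩ := hM1.insert h3 (fun e' he' => hmemS x hx e' (mem_of_mem_erase he'))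
        (fun e' he' => by
          have h7 := hM.2 e he e' (mem_of_mem_erase he') (ne_of_mem_erase he').symm
          exact ⟨h7.1, h7.2.1⟩)
      obtain ⟨h7, h8⟩ := h5.insert h4
        (fun e' he' => by
          rcases mem_insert.1 he' with rfl | he'
          · exact ⟨hxy.symm, (hmemS y hy e he).1⟩
          · exact hmemS y hy e' (mem_of_mem_erase he'))
        (fun e' he' => by
          rcases mem_insert.1 he' with rfl | he'
          · exact ⟨(hmemS x hx e he).2.symm, (hM.1 e he).ne'⟩
          · have h9 := hM.2 e he e' (mem_of_mem_erase he') (ne_of_mem_erase he').symm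
            exact ⟨h9.2.2.1, h9.2.2.2⟩)
      refine ⟨_, h7, ?_⟩
      rw [card_insert_of_notMem h8, card_insert_of_notMem h6, card_erase_of_mem he, hc]
      have : 0 < M.card := card_pos.2 ⟨e, he⟩
      omega
    -- counting
    have hcount : ∀ x, (∀ z, z ∉ S → ¬ G.Adj x z) →
        r ≤ ∑ e ∈ M, ((if G.Adj x e.1 then 1 else 0) + if G.Adj x e.2 then 1 else 0) := by
      intro x hx
      refine (hdeg x).trans ?_
      rw [Set.ncard_eq_toFinset_card']
      have h3 : (G.neighborSet x).toFinset ⊆
          (M.filter fun e => G.Adj x e.1).image Prod.fst ∪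
            (M.filter fun e => G.Adj x e.2).image Prod.snd := by
        intro z hz
        rw [Set.mem_toFinset, mem_neighborSet] at hz
        have h4 : z ∈ S := by
          by_contra h
          exact hx z h hz
        rcases mem_union.1 h4 with h5 | h5
        · obtain ⟨e, he, rfl⟩ := mem_image.1 h5
          exact mem_union_left _ (mem_image_of_mem _ (mem_filter.2 ⟨he, hz⟩))
        · obtain ⟨e, he, rfl⟩ := mem_image.1 h5
          exact mem_union_right _ (mem_image_of_mem _ (mem_filter.2 ⟨he, hz⟩))
      refine (card_le_card h3).trans ((card_union_le _ _).trans ?_)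
      rw [Finset.sum_add_distrib, ← Finset.card_filter, ← Finset.card_filter]
      exact add_le_add card_image_le card_image_le
    have h3 := hcount x hfx
    have h4 := hcount y hfy
    by_contra hno
    have h5 : ∀ e ∈ M, ((if G.Adj x e.1 then 1 else 0) + (if G.Adj x e.2 then 1 else 0)) +
        ((if G.Adj y e.1 then 1 else 0) + if G.Adj y e.2 then 1 else 0) ≤ 2 := by
      intro e he
      by_cases e1 : G.Adj x e.1
      · by_cases e2 : G.Adj y e.2
        · exact absurd (haug x y hx hy hxy e he e1 e2) hno
        · by_cases e3 : G.Adj x e.2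
          · by_cases e4 : G.Adj y e.1
            · exact absurd (haug y x hy hx hxy.symm e he e4 e3) hno
            · simp [e1, e2, e3, e4]
          · by_cases e4 : G.Adj y e.1 <;> simp [e1, e2, e3, e4]
      · by_cases e3 : G.Adj x e.2
        · by_cases e4 : G.Adj y e.1
          · exact absurd (haug y x hy hx hxy.symm e he e4 e3) hno
          · by_cases e2 : G.Adj y e.2 <;> simp [e1, e2, e3, e4]
        · by_cases e2 : G.Adj y e.2 <;> by_cases e4 : G.Adj y e.1 <;> simp [e1, e2, e3, e4]
    have h6 := Finset.sum_le_sum h5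
    rw [Finset.sum_add_distrib, Finset.sum_const, hc, smul_eq_mul] at h6
    omega

/-- assignment of colours to the edges of a matching -/
theorem assign {V : Type} [DecidableEq V] (G : SimpleGraph V) (M : Finset (V × V)) (hM : IsM G M)
    (L t : ℕ) (hL : L ≤ M.card * t) :
    ∃ a b : Fin L → V, (∀ c, G.Adj (a c) (b c)) ∧ (∀ c c', a c ≠ b c') ∧
      (∀ c c', a c = a c' → b c = b c') ∧ (∀ c c', b c = b c' → a c = a c') ∧
      ∀ v, ∑ c, inc (a c) (b c) v ≤ t := by
  classical
  have hlt : ∀ c : Fin L, c.val / t < M.card := by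
    intro c
    apply Nat.div_lt_of_lt_mul
    rw [mul_comm]
    exact lt_of_lt_of_le c.2 hL
  let e : Fin L → V × V := fun c => (M.equivFin.symm ⟨c.val / t, hlt c⟩).1
  have he : ∀ c, e c ∈ M := fun c => (M.equivFin.symm ⟨c.val / t, hlt c⟩).2
  have hinj : ∀ c c', e c = e c' → c.val / t = c'.val / t := by
    intro c c' h
    have h1 := M.equivFin.symm.injective (Subtype.ext h)
    exact congrArg Fin.val h1
  refine ⟨fun c => (e c).1, fun c => (e c).2, fun c => hM.1 _ (he c), ?_, ?_, ?_, ?_⟩
  · intro c c' h
    by_cases hcc : e c = e c'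
    · have h1 := hM.1 _ (he c)
      simp only [hcc] at h h1
      exact h1.ne h
    · exact (hM.2 _ (he c) _ (he c') hcc).2.1 h
  · intro c c' h
    by_cases hcc : e c = e c'
    · simp only [hcc]
    · exact absurd h (hM.2 _ (he c) _ (he c') hcc).1
  · intro c c' h
    by_cases hcc : e c = e c'
    · simp only [hcc]
    · exact absurd h (hM.2 _ (he c) _ (he c') hcc).2.2.2
  · intro v
    have h1 : ∑ c, inc (e c).1 (e c).2 v =
        (univ.filter fun c => v = (e c).1 ∨ v = (e c).2).card := by
      rw [Finset.card_filter]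
      rfl
    rw [h1]
    rcases Finset.eq_empty_or_nonempty (univ.filter fun c => v = (e c).1 ∨ v = (e c).2) with
      h2 | ⟨c0, hc0⟩
    · rw [h2]
      simp
    · rw [mem_filter] at hc0
      have h3 : ∀ c, (v = (e c).1 ∨ v = (e c).2) → c.val / t = c0.val / t := by
        intro c hc
        apply hinj
        by_contra hne
        obtain ⟨e1, e2, e3, e4⟩ := hM.2 _ (he c) _ (he c0) hne
        rcases hc with h | h <;> rcases hc0.2 with h' | h'
        · exact e1 (h.symm.trans h')
        · exact e2 (h.symm.trans h')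
        · exact e3 (h.symm.trans h')
        · exact e4 (h.symm.trans h')
      have ht : 0 < t := by
        rcases Nat.eq_zero_or_pos t with h | h
        · subst h
          have := c0.2
          omega
        · exact h
      have h4 : (univ.filter fun c => v = (e c).1 ∨ v = (e c).2).card ≤ (range t).card := by
        apply card_le_card_of_injOn (fun c => c.val % t)
        · intro c _
          exact Finset.mem_coe.2 (mem_range.2 (Nat.mod_lt _ ht))
        · intro c hc c' hc' hcc
          rw [Finset.mem_coe, mem_filter] at hc hc'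
          have h5 := h3 c hc.2
          have h6 := h3 c' hc'.2
          simp only at hcc
          apply Fin.ext
          rw [← Nat.div_add_mod c.val t, ← Nat.div_add_mod c'.val t, h5, h6, hcc]
      rwa [card_range] at h4

end Pool.Agent.X76.Det
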