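import Pool.Agent.H79.LA.X76_Lex3

set_option autoImplicit false

/-!
Linear arboricity of lexicographic products.
-/

namespace Pool.Agent.X76.Lex

open SimpleGraph Finset H931R3.LA Pool.Agent.X76.Blow

theorem fib_card {V U W : Type} (f : W → V) (u : W → U)
    (hbij : Function.Bijective (fun w => (f w, u w))) (v : V) :
    {w | f w = v}.ncard = Nat.card U := by
  have h1 : {w | f w = v} = (fun x : U => (Equiv.ofBijective _ hbij).symm (v, x)) '' Set.univ := by
    ext w
    simp only [Set.mem_ofPred_eq, Set.mem_image, Set.mem_univ, true_and]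
    constructor
    · intro h
      refine ⟨u w, ?_⟩
      rw [Equiv.symm_apply_eq, Equiv.ofBijective_apply, h]
    · rintro ⟨x, rfl⟩
      have h2 := (Equiv.ofBijective _ hbij).apply_symm_apply (v, x)
      rw [Equiv.ofBijective_apply] at h2
      exact congrArg Prod.fst h2
  rw [h1, Set.ncard_image_of_injective, Set.ncard_univ]
  intro x y hxy
  have := (Equiv.ofBijective _ hbij).symm.injective hxy
  exact (Prod.mk.inj this).2

theorem lex_conn {V U W : Type} [Fintype V] [Fintype U] [Fintype W] (G : SimpleGraph V)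
    (χ : V → Bool) (hχ : ∀ u v, G.Adj u v → χ u ≠ χ v) (H : SimpleGraph U) (f : W → V) (u : W → U)
    (hbij : Function.Bijective (fun w => (f w, u w)))
    (E : ℕ → SimpleGraph U) (hE : ∀ n, IsLF (E n)) (q : ℕ) (ψ : U → U → ℕ)
    (hψ1 : ∀ x y, H.Adj x y → ψ x y = ψ y x)
    (hψ2 : ∀ x y, H.Adj x y → ψ x y < q ∧ (E (ψ x y)).Adj x y)
    (Z : Finset U) (idx : U → ℕ) (hsel : Sel E q Z idx)
    {L h : ℕ} [NeZero L] {F : Fin h → ZMod L → W} (hF : HD (G.comap f) L F)
    (hcap : (Z = univ ∧ 4 * h ≤ L) ∨ (Fintype.card U ≤ 2 * Z.card ∧ 8 * h ≤ L)) :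
    Rank (LexG G H f u) (h + q) := by
  classical
  obtain ⟨T, hT, hload⟩ : ∃ T : Fin h → ZMod L, (∀ j j', j ≠ j' → F j (T j) ≠ F j' (T j') ∧
      F j (T j) ≠ F j' (T j' + 1) ∧ F j (T j + 1) ≠ F j' (T j' + 1)) ∧
      ∀ v, (univ.filter fun j => f (F j (T j)) = v ∨ f (F j (T j + 1)) = v).card ≤ Z.card := by
    rcases hcap with ⟨hZ, h4⟩ | ⟨hZ, h8⟩
    · obtain ⟨T, hT⟩ := greedy F (fun j => (hF.1 j).1) h4
      refine ⟨T, hT, ?_⟩
      intro v
      rw [hZ]
      let g : Fin h → U := fun j => if f (F j (T j)) = v then u (F j (T j)) else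
        u (F j (T j + 1))
      apply card_le_card_of_injOn g (fun _ _ => Finset.mem_coe.2 (mem_univ _))
      have hg : ∀ j ∈ univ.filter (fun j => f (F j (T j)) = v ∨ f (F j (T j + 1)) = v),
          ∃ x, (x = F j (T j) ∨ x = F j (T j + 1)) ∧ f x = v ∧ g j = u x := by
        intro j hj
        rw [mem_filter] at hj
        by_cases h1 : f (F j (T j)) = v
        · exact ⟨_, Or.inl rfl, h1, by simp only [g, if_pos h1]⟩
        · exact ⟨_, Or.inr rfl, hj.2.resolve_left h1, by simp only [g, if_neg h1]⟩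
      intro j hj j' hj' hgg
      obtain ⟨x, h1, h2, h3⟩ := hg j (Finset.mem_coe.1 hj)
      obtain ⟨x', h1', h2', h3'⟩ := hg j' (Finset.mem_coe.1 hj')
      have h5 : x = x' := hbij.1 (Prod.ext (h2.trans h2'.symm) (h3.symm.trans (hgg.trans h3')))
      by_contra hne
      obtain ⟨e1, e2, e3⟩ := hT j j' hne
      obtain ⟨-, e4, -⟩ := hT j' j (Ne.symm hne)
      rcases h1 with h1 | h1 <;> rcases h1' with h1' | h1'
      · exact e1 (h1.symm.trans (h5.trans h1'))
      · exact e2 (h1.symm.trans (h5.trans h1'))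
      · exact e4 (h1'.symm.trans (h5.symm.trans h1))
      · exact e3 (h1.symm.trans (h5.trans h1'))
    · refine greedy2 F (fun j => (hF.1 j).1) f (Fintype.card U) Z.card ?_ hZ h8
      intro v
      have h1 := fib_card f u hbij v
      rw [Set.ncard_eq_toFinset_card', Set.toFinset_ofPred, Nat.card_eq_fintype_card] at h1
      exact h1.le
  obtain ⟨F', κ, hF', hT', hκ⟩ := align G χ hχ f u hbij hF T hT Z hload
  exact core2 G H f u (fun x y h1 h2 => hbij.1 (Prod.ext h1 h2)) E hE q ψ hψ1 hψ2 Z idx hsel hF' T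
    hT' κ hκ

theorem lex_rank {V U W : Type} [Finite V] [Fintype U] [Finite W] (G : SimpleGraph V)
    (χ : V → Bool) (hχ : ∀ u v, G.Adj u v → χ u ≠ χ v) (r : ℕ) (hr : 0 < r)
    (hdeg : ∀ v, (G.neighborSet v).ncard = r)
    (hrm : (Even r ∧ r ≤ 2 * Nat.card U) ∨
      (Even (Nat.card U) ∧ 0 < Nat.card U ∧ 2 * r ≤ Nat.card U))
    (H : SimpleGraph U) (f : W → V) (u : W → U)
    (hbij : Function.Bijective (fun w => (f w, u w)))
    (E : ℕ → SimpleGraph U) (hE : ∀ n, IsLF (E n)) (q : ℕ) (ψ : U → U → ℕ)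
    (hψ1 : ∀ x y, H.Adj x y → ψ x y = ψ y x)
    (hψ2 : ∀ x y, H.Adj x y → ψ x y < q ∧ (E (ψ x y)).Adj x y)
    (Z : Finset U) (idx : U → ℕ) (hsel : Sel E q Z idx)
    (hcap : Z = univ ∨ (Fintype.card U ≤ 2 * Z.card ∧
      ∀ C : G.ConnectedComponent, 4 * r ≤ C.supp.ncard)) :
    Rank (LexG G H f u) (r * Nat.card U / 2 + q) := by
  classical
  apply Rank.comp (LexG G H f u) (fun w => G.connectedComponentMk (f w))
  · intro x y hxy
    rcases hxy with hxy | ⟨hxy, -⟩
    · exact ConnectedComponent.sound (Adj.reachable hxy)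
    · rw [hxy]
  intro C
  -- the component
  let VC : Type := {v : V // G.connectedComponentMk v = C}
  let WC : Type := {w : W // G.connectedComponentMk (f w) = C}
  have iV := Fintype.ofFinite VC
  have iW := Fintype.ofFinite WC
  let GC : SimpleGraph VC := G.comap Subtype.val
  let fC : WC → VC := fun w => ⟨f w.1, w.2⟩
  let uC : WC → U := fun w => u w.1
  have hconn : GC.Connected := C.connected_toSimpleGraph
  have hdC : ∀ v : VC, (GC.neighborSet v).ncard = r := by
    intro v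
    rw [← hdeg v.1, ← Set.ncard_image_of_injective _ Subtype.val_injective]
    congr 1
    ext u
    simp only [Set.mem_image, mem_neighborSet]
    constructor
    · rintro ⟨u', h1, rfl⟩
      exact h1
    · intro h1
      refine ⟨⟨u, ?_⟩, h1, rfl⟩
      rw [← v.2]
      exact ConnectedComponent.sound (Adj.reachable h1.symm)
  have hbC : Function.Bijective (fun w : WC => (fC w, uC w)) := by
    constructor
    · intro w w' h
      have h1 : (f w.1, u w.1) = (f w'.1, u w'.1) := by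
        have h2 := congrArg Prod.fst h
        have h3 := congrArg Prod.snd h
        exact Prod.ext (congrArg Subtype.val h2) h3
      exact Subtype.ext (hbij.1 h1)
    · rintro ⟨v, x⟩
      obtain ⟨w, hw⟩ := hbij.2 (v.1, x)
      have h1 : f w = v.1 := congrArg Prod.fst hw
      have h2 : u w = x := congrArg Prod.snd hw
      exact ⟨⟨w, by rw [h1]; exact v.2⟩, Prod.ext (Subtype.ext h1) h2⟩
  have hfC : ∀ v : VC, {w | fC w = v}.ncard = Nat.card U := fib_card fC uC hbC
  have hm : 0 < Nat.card U := by rcases hrm with h | h <;> omega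
  obtain ⟨-, hmain⟩ := main GC (fun v => χ v.1) (fun u v h => hχ _ _ h) r (Nat.card U) hr hdC fC
    hfC hrm
  obtain ⟨F, hF⟩ := hmain hconn
  have hneV : Nonempty VC := hconn.nonempty
  have hcV := two_mul_le_card GC (fun v => χ v.1) (fun u v h => hχ _ _ h) r hr hdC
  have hcW := card_fib fC (Nat.card U) hfC
  have hrm2 : 2 * (r * Nat.card U / 2) ≤ r * Nat.card U := Nat.mul_div_le _ _
  have : NeZero (Nat.card WC) := ⟨by
    rw [hcW]
    have : 0 < Nat.card VC := Nat.card_pos
    exact (Nat.mul_pos this hm).ne'⟩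
  have heq : (LexG G H f u).comap (Subtype.val : WC → W) = LexG GC H fC uC := by
    ext x y
    show (G.Adj (f x.1) (f y.1) ∨ (f x.1 = f y.1 ∧ H.Adj (u x.1) (u y.1))) ↔
      (G.Adj (f x.1) (f y.1) ∨ (fC x = fC y ∧ H.Adj (u x.1) (u y.1)))
    rw [show (fC x = fC y) ↔ (f x.1 = f y.1) from Subtype.ext_iff]
  show Rank ((LexG G H f u).comap (Subtype.val : WC → W)) _
  rw [heq]
  refine lex_conn GC (fun v => χ v.1) (fun u v h => hχ _ _ h) H fC uC hbC E hE q ψ hψ1 hψ2 Z idx
    hsel hF ?_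
  rcases hcap with hZ | ⟨hZ, hC⟩
  · left
    refine ⟨hZ, ?_⟩
    rw [hcW]
    nlinarith
  · right
    refine ⟨hZ, ?_⟩
    have h1 := hC C
    have h2 : C.supp.ncard = Nat.card VC := by
      rw [← Nat.card_coe_set_eq]
      rfl
    rw [h2] at h1
    rw [hcW]
    nlinarith

/-- the degrees of a lexicographic product -/
theorem lex_deg {V U : Type} [Finite V] [Finite U] (G : SimpleGraph V) (H : SimpleGraph U)
    (r s : ℕ) (hG : ∀ v, (G.neighborSet v).ncard = r) (hH : ∀ x, (H.neighborSet x).ncard = s)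
    (z : V × U) :
    ((LexG G H Prod.fst Prod.snd).neighborSet z).ncard = r * Nat.card U + s := by
  have h1 : (LexG G H Prod.fst Prod.snd).neighborSet z =
      (G.neighborSet z.1 ×ˢ (Set.univ : Set U)) ∪ (fun x : U => (z.1, x)) '' H.neighborSet z.2 := by
    ext ⟨a, b⟩
    simp only [mem_neighborSet, LexG, Set.mem_union, Set.mem_prod, Set.mem_univ, and_true,
      Set.mem_image, Prod.mk.injEq, exists_eq_right_right]
    exact or_congr Iff.rfl ⟨fun h => ⟨h.2, h.1⟩, fun h => ⟨h.2, h.1⟩⟩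
  have h2 : Disjoint (G.neighborSet z.1 ×ˢ (Set.univ : Set U))
      ((fun x : U => (z.1, x)) '' H.neighborSet z.2) := by
    rw [Set.disjoint_left]
    rintro ⟨a, b⟩ h3 ⟨x, -, h4⟩
    rw [Prod.mk.injEq] at h4
    have h5 : G.Adj z.1 a := h3.1
    rw [h4.1] at h5
    exact h5.ne rfl
  rw [h1, Set.ncard_union_eq h2 (Set.toFinite _) (Set.toFinite _), Set.ncard_prod, hG,
    Set.ncard_univ, Set.ncard_image_of_injective, hH]
  intro x y hxy
  exact (Prod.mk.inj hxy).2

theorem lex_cov {V U : Type} [Finite V] [Finite U] (G : SimpleGraph V) (H : SimpleGraph U)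
    (r q : ℕ) (hr : 0 < r) (χ : V → Bool) (hχ : ∀ u v, G.Adj u v → χ u ≠ χ v)
    (hdeg : ∀ v, (G.neighborSet v).ncard = r)
    (hrm : (Even r ∧ r ≤ 2 * Nat.card U) ∨ (Even (Nat.card U) ∧ 2 * r ≤ Nat.card U))
    (hcov : Cov H q)
    (hq : (∀ x, (H.neighborSet x).ncard + 2 ≤ 2 * q) ∨
      ((∀ x, (H.neighborSet x).ncard < 2 * q) ∧
        ∀ C : G.ConnectedComponent, 4 * r ≤ C.supp.ncard)) :
    Cov (LexG G H Prod.fst Prod.snd) (r * Nat.card U / 2 + q) := by
  classical
  have iU := Fintype.ofFinite U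
  obtain ⟨c, hlt, hc⟩ := exists_col hcov
  have hrm' : (Even r ∧ r ≤ 2 * Nat.card U) ∨
      (Even (Nat.card U) ∧ 0 < Nat.card U ∧ 2 * r ≤ Nat.card U) := by
    rcases hrm with h | h
    · exact Or.inl h
    · exact Or.inr ⟨h.1, by omega, h.2⟩
  have hbij : Function.Bijective (fun w : V × U => (w.1, w.2)) := Function.bijective_id
  have hsum : ∀ x, ∑ n ∈ range q, ((cls H c n).neighborSet x).ncard = (H.neighborSet x).ncard :=
    fun x => sum_cls H c q hlt x
  have hψ1 : ∀ x y, H.Adj x y → c s(x, y) = c s(y, x) := fun x y _ => by rw [Sym2.eq_swap]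
  have hψ2 : ∀ x y, H.Adj x y → c s(x, y) < q ∧ (cls H c (c s(x, y))).Adj x y :=
    fun x y h => ⟨hlt x y h, h, rfl⟩
  rcases hq with hq | ⟨hq, hC⟩
  · obtain ⟨idx, hsel⟩ := sel_all (cls H c) q hc (fun x => by rw [hsum]; exact hq x)
    exact (lex_rank G χ hχ r hr hdeg hrm' H Prod.fst Prod.snd hbij (cls H c) hc q
      (fun x y => c s(x, y)) hψ1 hψ2 univ idx hsel (Or.inl rfl)).cov
  · obtain ⟨Z, idx, hsel, hZ⟩ := sel_half (cls H c) q hc (fun x => by rw [hsum]; exact hq x)
    exact (lex_rank G χ hχ r hr hdeg hrm' H Prod.fst Prod.snd hbij (cls H c) hc q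
      (fun x y => c s(x, y)) hψ1 hψ2 Z idx hsel (Or.inr ⟨hZ, hC⟩)).cov

end Pool.Agent.X76.Lex
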