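import Pool.Agent.H79.LA.X76_Det19

set_option autoImplicit false

/-!
Paths, pairs of ends of paths, assignment of colours to the edges of a path.
-/

namespace Pool.Agent.X76.Det

open Finset SimpleGraph H931R3.LA

theorem exists_path {V : Type} [Finite V] [Nonempty V] (G : SimpleGraph V) (r : ℕ)
    (hdeg : ∀ v, r ≤ (G.neighborSet v).ncard) : ∀ k ≤ r, ∃ P : ℕ → V,
      (∀ j < k, G.Adj (P j) (P (j + 1))) ∧ ∀ i ≤ k, ∀ j ≤ k, P i = P j → i = j := by
  classical
  have iV := Fintype.ofFinite V
  intro k
  induction k with
  | zero =>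
    intro _
    obtain ⟨v⟩ := ‹Nonempty V›
    refine ⟨fun _ => v, fun j hj => by omega, fun i hi j hj _ => by omega⟩
  | succ k ih =>
    intro hk
    obtain ⟨P, h1, h2⟩ := ih (by omega)
    obtain ⟨z, hz1, hz2⟩ : ∃ z, G.Adj (P k) z ∧ ∀ i < k, P i ≠ z := by
      by_contra hno
      push Not at hno
      have h3 : G.neighborSet (P k) ⊆ ((range k).image P : Finset V) := by
        intro z hz
        obtain ⟨i, hi, hiz⟩ := hno z hz
        rw [Finset.mem_coe, mem_image]
        exact ⟨i, mem_range.2 hi, hiz⟩
      have h4 := Set.ncard_le_ncard h3 (Set.toFinite _)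
      rw [Set.ncard_coe_finset] at h4
      have h5 := card_image_le (s := range k) (f := P)
      rw [card_range] at h5
      have h6 := hdeg (P k)
      omega
    have hz3 : ∀ i ≤ k, P i ≠ z := by
      intro i hi
      rcases Nat.lt_or_ge i k with h | h
      · exact hz2 i h
      · have : i = k := le_antisymm hi h
        subst this
        exact hz1.ne
    refine ⟨fun n => if n = k + 1 then z else P n, ?_, ?_⟩
    · intro j hj
      by_cases hjk : j = k
      · subst hjk
        simp only [if_neg (Nat.succ_ne_self j).symm, if_true]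
        exact hz1
      · have h3 : j ≠ k + 1 := by omega
        have h4 : j + 1 ≠ k + 1 := by omega
        simp only [if_neg h3, if_neg h4]
        exact h1 j (by omega)
    · intro i hi j hj he
      simp only at he
      by_cases hi' : i = k + 1 <;> by_cases hj' : j = k + 1
      · rw [hi', hj']
      · rw [if_pos hi', if_neg hj'] at he
        exact absurd he.symm (hz3 j (by omega))
      · rw [if_neg hi', if_pos hj'] at he
        exact absurd he (hz3 i (by omega))
      · rw [if_neg hi', if_neg hj'] at he
        exact h2 i (by omega) j (by omega) he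

/-- every vertex is an end of a path; two types for the ends of the same path -/
def Typed {U : Type} (E : ℕ → SimpleGraph U) (q : ℕ) (idx : U → ℕ) (τ : U → Bool) : Prop :=
  (∀ x, idx x < q ∧ ((E (idx x)).neighborSet x).ncard ≤ 1) ∧
    ∀ x y, idx x = idx y → (E (idx x)).Reachable x y → τ x = τ y → x = y

theorem exists_typed {U : Type} [Fintype U] (E : ℕ → SimpleGraph U) (q : ℕ)
    (hE : ∀ n, IsLF (E n)) (hdeg : ∀ x, ∑ n ∈ range q, ((E n).neighborSet x).ncard < 2 * q) :
    ∃ (idx : U → ℕ) (τ : U → Bool), Typed E q idx τ ∧
      Fintype.card U ≤ 2 * (univ.filter fun x => τ x = true).card := by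
  classical
  have h1 : ∀ x, ∃ n, n < q ∧ ((E n).neighborSet x).ncard ≤ 1 := by
    intro x
    by_contra hcon
    push Not at hcon
    have h2 : ∑ n ∈ range q, 2 ≤ ∑ n ∈ range q, ((E n).neighborSet x).ncard := by
      apply sum_le_sum
      intro n hn
      exact hcon n (mem_range.1 hn)
    rw [sum_const, card_range, smul_eq_mul] at h2
    have := hdeg x
    omega
  choose idx hi1 hi2 using h1
  let s : Setoid U :=
    { r := fun x y => idx x = idx y ∧ (E (idx x)).Reachable x y
      iseqv := ⟨fun x => ⟨rfl, Reachable.refl _⟩, fun {x y} h => ⟨h.1.symm, h.1 ▸ h.2.symm⟩,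
        fun {x y z} h h' => ⟨h.1.trans h'.1, h.2.trans (h.1.symm ▸ h'.2)⟩⟩ }
  have hr : ∀ x y, Quotient.mk s x = Quotient.mk s y ↔
      idx x = idx y ∧ (E (idx x)).Reachable x y := fun x y => Quotient.eq (r := s)
  -- at most two members of a class
  have h3 : ∀ x y z, x ≠ y → x ≠ z → Quotient.mk s x = Quotient.mk s y →
      Quotient.mk s x = Quotient.mk s z → y = z := by
    intro x y z hxy hxz e1 e2
    rw [hr] at e1 e2
    exact Lex.ends_le_two (hE (idx x)) (hi2 x) e1.2 e2.2 (e1.1 ▸ hi2 y) (e2.1 ▸ hi2 z)
      (Ne.symm hxy) (Ne.symm hxz)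
  let τ : U → Bool := fun x => decide ((Quotient.mk s x).out = x)
  have hτ : ∀ x, τ x = true ↔ (Quotient.mk s x).out = x := fun x => by
    simp only [τ, decide_eq_true_eq]
  refine ⟨idx, τ, ⟨fun x => ⟨hi1 x, hi2 x⟩, ?_⟩, ?_⟩
  · intro x y e1 e2 e3
    have e4 : Quotient.mk s x = Quotient.mk s y := (hr x y).2 ⟨e1, e2⟩
    by_contra hne
    cases hx : τ x with
    | true =>
      have h5 := (hτ x).1 hx
      rw [hx] at e3
      have h6 := (hτ y).1 e3.symm
      rw [← e4, h5] at h6
      exact hne h6
    | false =>
      rw [hx] at e3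
      have h5 : ¬ (Quotient.mk s x).out = x := fun h => by
        rw [(hτ x).2 h] at hx
        exact absurd hx (by simp)
      have h6 : ¬ (Quotient.mk s y).out = y := fun h => by
        rw [(hτ y).2 h] at e3
        exact absurd e3 (by simp)
      have h7 : Quotient.mk s x = Quotient.mk s (Quotient.mk s x).out :=
        (Quotient.out_eq _).symm
      have h8 := h3 x y (Quotient.mk s x).out hne (fun h => h5 h.symm) e4 h7
      rw [← e4] at h6
      exact h6 h8.symm
  · have h2 := Finset.card_le_mul_card_image (s := (univ : Finset U))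
      (f := fun x => (Quotient.mk s x).out) 2 (by
      intro c _
      by_contra hcon
      push Not at hcon
      obtain ⟨x, hx, y, hy, z, hz, hxy, hxz, hyz⟩ := Finset.two_lt_card.1 hcon
      rw [mem_filter] at hx hy hz
      have e1 : Quotient.mk s x = Quotient.mk s y := by
        rw [← Quotient.out_eq (Quotient.mk s x), ← Quotient.out_eq (Quotient.mk s y)]
        exact congrArg _ (hx.2.trans hy.2.symm)
      have e2 : Quotient.mk s x = Quotient.mk s z := by
        rw [← Quotient.out_eq (Quotient.mk s x), ← Quotient.out_eq (Quotient.mk s z)]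
        exact congrArg _ (hx.2.trans hz.2.symm)
      exact hyz (h3 x y z hxy hxz e1 e2))
    rw [card_univ] at h2
    have h4 : univ.image (fun x => (Quotient.mk s x).out) ⊆
        univ.filter fun x => τ x = true := by
      intro x hx
      obtain ⟨y, -, rfl⟩ := mem_image.1 hx
      rw [mem_filter, hτ]
      refine ⟨mem_univ _, ?_⟩
      rw [Quotient.out_eq]
    have h5 := card_le_card h4
    omega

/-- assignment of colours to the edges of a path -/
theorem assign_path {U : Type} [Fintype U] (τ : U → Bool)
    (hτ : Fintype.card U ≤ 2 * (univ.filter fun x => τ x = true).card) (r : ℕ)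
    (hrm : Even (r * Fintype.card U)) :
    ∃ (J : Fin (r * Fintype.card U / 2) → ℕ) (κ : Fin (r * Fintype.card U / 2) → U),
      (∀ c, J c < r) ∧ (∀ c, τ (κ c) = true ↔ Even (J c)) ∧
      ∀ c c', J c = J c' → κ c = κ c' → c = c' := by
  classical
  let S : Finset (ℕ × U) := (range (r / 2)) ×ˢ univ ∪
    ({r / 2} ×ˢ (univ.filter fun x => τ x = true)).filter fun _ => ¬ Even r
  have hdisj : Disjoint ((range (r / 2)) ×ˢ (univ : Finset U))
      (({r / 2} ×ˢ (univ.filter fun x => τ x = true)).filter fun _ => ¬ Even r) := by
    rw [Finset.disjoint_left]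
    rintro ⟨b, x⟩ h1 h2
    rw [mem_product, mem_range] at h1
    rw [mem_filter, mem_product, mem_singleton] at h2
    have h3 := h1.1
    have h4 := h2.1.1
    simp only at h3 h4
    omega
  have hcard : r * Fintype.card U / 2 ≤ S.card := by
    rw [card_union_of_disjoint hdisj, card_product, card_range, card_univ]
    by_cases hr : Even r
    · obtain ⟨k, hk⟩ := hr
      have h1 : r / 2 = k := by omega
      have h2 : r * Fintype.card U / 2 = k * Fintype.card U := by
        rw [hk, ← two_mul, mul_assoc, Nat.mul_div_cancel_left _ two_pos]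
      rw [h1, h2]
      exact Nat.le_add_right _ _
    · have h1 : ((({r / 2} : Finset ℕ) ×ˢ (univ.filter fun x => τ x = true)).filter
          fun _ => ¬ Even r) = ({r / 2} : Finset ℕ) ×ˢ (univ.filter fun x => τ x = true) :=
        Finset.filter_true_of_mem fun _ _ => hr
      rw [h1, card_product, card_singleton, one_mul]
      have hr2 : r = 2 * (r / 2) + 1 := by
        rw [Nat.not_even_iff] at hr
        omega
      have hm : Even (Fintype.card U) := by
        rcases Nat.even_mul.1 hrm with h | h
        · exact absurd h hr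
        · exact h
      obtain ⟨m', hm'⟩ := hm
      have h2 : r * Fintype.card U = 2 * (r / 2 * Fintype.card U + m') := by
        conv_lhs => rw [hr2]
        rw [hm']
        ring
      omega
  obtain ⟨γ⟩ : Nonempty (Fin (r * Fintype.card U / 2) ↪ {p // p ∈ S}) := by
    apply Function.Embedding.nonempty_of_card_le
    rw [Fintype.card_fin, Fintype.card_coe]
    exact hcard
  let b : Fin (r * Fintype.card U / 2) → ℕ := fun c => (γ c).1.1
  let κ : Fin (r * Fintype.card U / 2) → U := fun c => (γ c).1.2
  let J : Fin (r * Fintype.card U / 2) → ℕ := fun c => 2 * b c + if τ (κ c) = true then 0 else 1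
  have hpar : ∀ c, τ (κ c) = true ↔ Even (J c) := by
    intro c
    simp only [J]
    by_cases h : τ (κ c) = true
    · simp [h]
    · rw [if_neg h]
      constructor
      · exact fun h' => absurd h' h
      · intro h'
        rw [Nat.even_iff] at h'
        omega
  refine ⟨J, κ, ?_, hpar, ?_⟩
  · intro c
    have h1 := (γ c).2
    simp only [S] at h1
    rw [mem_union, mem_product, mem_filter, mem_product, mem_range, mem_singleton,
      mem_filter] at h1
    rcases h1 with h1 | h1
    · have h2 : b c < r / 2 := h1.1
      simp only [J]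
      split_ifs <;> omega
    · have h2 : b c = r / 2 := h1.1.1
      have h3 : τ (κ c) = true := h1.1.2.2
      have h4 := h1.2
      rw [Nat.not_even_iff] at h4
      simp only [J, if_pos h3]
      omega
  · intro c c' h1 h2
    apply γ.injective
    apply Subtype.ext
    apply Prod.ext
    · have h3 : 2 * b c + (if τ (κ c) = true then 0 else 1) =
          2 * b c' + if τ (κ c') = true then 0 else 1 := h1
      rw [h2] at h3
      have h4 : b c = b c' := by omega
      exact h4
    · exact h2

/-- adding edges which are bridges -/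
theorem acyclic_bridges {W : Type} (F M : SimpleGraph W) (hF : F.IsAcyclic)
    (hM : ∀ x y, M.Adj x y → ¬ ((F ⊔ M).deleteEdges {s(x, y)}).Reachable x y) :
    (F ⊔ M).IsAcyclic := by
  intro v p hp
  have h1 : ∀ e ∈ p.edges, e ∈ F.edgeSet := by
    intro e he
    have h2 := p.edges_subset_edgeSet he
    induction e using Sym2.ind with
    | _ x y =>
      rw [mem_edgeSet] at h2
      rcases h2 with h2 | h2
      · exact h2
      · exfalso
        have h3 : (F ⊔ M).IsBridge s(x, y) := by
          rw [isBridge_iff]
          exact hM x y h2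
        have h4 : s(x, y) ∈ (F ⊔ M).edgeSet := Or.inr h2
        exact (isBridge_iff_forall_cycle_notMem h4).1 h3 p hp he
  exact hF _ (hp.transfer h1)

end Pool.Agent.X76.Det
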