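import Pool.Agent.H79.LA.X76_Det20
import Pool.Agent.H79.LA.X76_Det17

set_option autoImplicit false

/-!
Alignment of a matching over the edges of a path, and linear forests of lexicographic products.
-/

namespace Pool.Agent.X76.Det

open Finset SimpleGraph H931R3.LA

/-- alignment over a path -/
theorem align_P {V U W : Type} [Finite W] {L : ℕ} (f : W → V) (u : W → U)
    (hbij : Function.Bijective (fun w => (f w, u w))) (M : SimpleGraph W)
    (h1 : ∀ x y z, M.Adj x y → M.Adj x z → y = z) (pos : V → ℕ) (τ : U → Bool)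
    (J : Fin L → ℕ) (κ : Fin L → U) (hJ : ∀ c, τ (κ c) = true ↔ Even (J c))
    (hJκ : ∀ c c', J c = J c' → κ c = κ c' → c = c')
    (h2 : ∀ x y, M.Adj x y → pos (f y) = pos (f x) + 1 ∨ pos (f x) = pos (f y) + 1)
    (h3 : ∀ x y x' y', M.Adj x y → M.Adj x' y' → pos (f x) = pos (f x') → f x = f x')
    (hload : ∀ v, {x | f x = v ∧ ∃ y, M.Adj x y ∧ pos (f y) = pos v + 1}.ncard ≤
      (univ.filter fun c => J c = pos v).card) :
    ∃ Q : W ≃ W, (∀ w, f (Q w) = f w) ∧
      ∀ x y, M.Adj x y → pos (f y) = pos (f x) + 1 →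
        ∃ c, J c = pos (f x) ∧ u (Q x) = κ c ∧ u (Q y) = κ c := by
  classical
  have := Fintype.ofFinite W
  -- injections of the lower ends
  have hemb : ∀ v, ∃ j : W → Option (Fin L),
      (∀ x, (f x = v ∧ ∃ y, M.Adj x y ∧ pos (f y) = pos v + 1) →
        ∃ c, j x = some c ∧ J c = pos v) ∧
      Set.InjOn j {x | f x = v ∧ ∃ y, M.Adj x y ∧ pos (f y) = pos v + 1} := by
    intro v
    have h5 : Nonempty ({x // f x = v ∧ ∃ y, M.Adj x y ∧ pos (f y) = pos v + 1} ↪
        {c // c ∈ univ.filter fun c => J c = pos v}) := by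
      apply Function.Embedding.nonempty_of_card_le
      rw [Fintype.card_coe]
      refine le_trans (le_of_eq ?_) (hload v)
      rw [← Nat.card_coe_set_eq, Nat.card_eq_fintype_card]
      rfl
    obtain ⟨i⟩ := h5
    refine ⟨fun x => if h : f x = v ∧ ∃ y, M.Adj x y ∧ pos (f y) = pos v + 1 then
      some (i ⟨x, h⟩).1 else none, ?_, ?_⟩
    · intro x hx
      refine ⟨(i ⟨x, hx⟩).1, by simp only [dif_pos hx], ?_⟩
      exact (mem_filter.1 (i ⟨x, hx⟩).2).2
    · intro x hx x' hx' he
      simp only [Set.mem_ofPred_eq] at hx hx'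
      simp only [dif_pos hx, dif_pos hx'] at he
      exact congrArg Subtype.val (i.injective (Subtype.ext (Option.some.inj he)))
  choose j hj1 hj2 using hemb
  -- mates
  have hmate : ∀ x, ∃ y, (∃ y', M.Adj x y') → M.Adj x y := by
    intro x
    by_cases hx : ∃ y, M.Adj x y
    · obtain ⟨y, hy⟩ := hx
      exact ⟨y, fun _ => hy⟩
    · exact ⟨x, fun h => absurd h hx⟩
  choose mate hm using hmate
  have hmate' : ∀ x y, M.Adj x y → mate x = y := fun x y hxy => h1 x _ _ (hm x ⟨y, hxy⟩) hxy
  let low : W → Prop := fun x => pos (f (mate x)) = pos (f x) + 1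
  let γ : W → Option (Fin L) := fun x => if low x then j (f x) x else j (f (mate x)) (mate x)
  -- the colour of an edge
  have hγ : ∀ x y, M.Adj x y → pos (f y) = pos (f x) + 1 →
      γ x = j (f x) x ∧ γ y = j (f x) x ∧ ∃ c, j (f x) x = some c ∧ J c = pos (f x) := by
    intro x y hxy hp
    have e1 := hmate' x y hxy
    have e2 := hmate' y x hxy.symm
    have hl : low x := by
      simp only [low, e1]
      exact hp
    have hl' : ¬ low y := by
      simp only [low, e2]
      omega
    refine ⟨by simp only [γ, if_pos hl], ?_, hj1 _ _ ⟨rfl, y, hxy, hp⟩⟩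
    simp only [γ, if_neg hl', e2]
  -- injectivity
  have hinj : ∀ x x' y y' c c', M.Adj x y → M.Adj x' y' → f x = f x' → γ x = some c →
      γ x' = some c' → κ c = κ c' → x = x' := by
    intro x x' y y' c c' hxy hxy' hf hc hc' hk
    have hpar : Even (J c) ↔ Even (J c') := by rw [← hJ, ← hJ, hk]
    rcases h2 x y hxy with hp | hp
    · obtain ⟨a1, a2, c0, a3, a4⟩ := hγ x y hxy hp
      rw [a1, a3] at hc
      have hcc := Option.some.inj hc
      subst hcc
      rcases h2 x' y' hxy' with hp' | hp'
      · obtain ⟨b1, b2, c1, b3, b4⟩ := hγ x' y' hxy' hp'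
        rw [b1, b3] at hc'
        have hcc := Option.some.inj hc'
        subst hcc
        have h6 : c0 = c1 := hJκ c0 c1 (by rw [a4, b4, hf]) hk
        subst h6
        rw [← hf] at b3
        exact hj2 (f x) ⟨rfl, y, hxy, hp⟩ ⟨hf.symm, y', hxy', by rw [hf]; exact hp'⟩
          (a3.trans b3.symm)
      · obtain ⟨b1, b2, c1, b3, b4⟩ := hγ y' x' hxy'.symm hp'
        rw [b2, b3] at hc'
        have hcc := Option.some.inj hc'
        subst hcc
        exfalso
        rw [a4, b4, hf, hp'] at hpar
        rw [Nat.even_add_one] at hpar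
        tauto
    · obtain ⟨a1, a2, c0, a3, a4⟩ := hγ y x hxy.symm hp
      rw [a2, a3] at hc
      have hcc := Option.some.inj hc
      subst hcc
      rcases h2 x' y' hxy' with hp' | hp'
      · obtain ⟨b1, b2, c1, b3, b4⟩ := hγ x' y' hxy' hp'
        rw [b1, b3] at hc'
        have hcc := Option.some.inj hc'
        subst hcc
        exfalso
        rw [a4, b4, ← hf, hp] at hpar
        rw [Nat.even_add_one] at hpar
        tauto
      · obtain ⟨b1, b2, c1, b3, b4⟩ := hγ y' x' hxy'.symm hp'
        rw [b2, b3] at hc'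
        have hcc := Option.some.inj hc'
        subst hcc
        have h7 : pos (f y) = pos (f y') := by rw [hf] at hp; omega
        have h8 : f y = f y' := h3 y x y' x' hxy.symm hxy'.symm h7
        have h6 : c0 = c1 := hJκ c0 c1 (by rw [a4, b4, h7]) hk
        subst h6
        rw [← h8] at b3
        have h9 : y = y' := hj2 (f y) ⟨rfl, x, hxy.symm, hp⟩
          ⟨h8.symm, x', hxy'.symm, by rw [h8]; exact hp'⟩ (a3.trans b3.symm)
        subst h9
        exact h1 y x x' hxy.symm hxy'.symm
  have huf : ∀ x y, f x = f y → u x = u y → x = y := fun x y e1 e2 => hbij.1 (Prod.ext e1 e2)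
  -- permutations of the fibres
  have hρ : ∀ v, ∃ ρ : Equiv.Perm {w // f w = v}, ∀ a b, ((∃ y, M.Adj a.1 y) ∧
      ∃ c, γ a.1 = some c ∧ u b.1 = κ c) → ρ a = b := by
    intro v
    apply Lex.ext_perm
    · rintro a b b' ⟨-, c, h4, h5⟩ ⟨-, c', h4', h5'⟩
      have h6 : c = c' := Option.some.inj (h4.symm.trans h4')
      subst h6
      exact Subtype.ext (huf _ _ (b.2.trans b'.2.symm) (h5.trans h5'.symm))
    · rintro a a' b ⟨⟨y, hy⟩, c, h4, h5⟩ ⟨⟨y', hy'⟩, c', h4', h5'⟩
      exact Subtype.ext (hinj a.1 a'.1 y y' c c' hy hy' (a.2.trans a'.2.symm) h4 h4'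
        (h5.symm.trans h5'))
  choose ρ hρ using hρ
  let Q : W ≃ W := (Equiv.sigmaFiberEquiv f).symm.trans
    ((Equiv.sigmaCongrRight ρ).trans (Equiv.sigmaFiberEquiv f))
  have hQ : ∀ w, Q w = (ρ (f w) ⟨w, rfl⟩).1 := fun w => rfl
  refine ⟨Q, fun w => (ρ (f w) ⟨w, rfl⟩).2, ?_⟩
  have key : ∀ x y c, M.Adj x y → γ x = some c → u (Q x) = κ c := by
    intro x y c hxy hc
    obtain ⟨b, hb⟩ := hbij.2 (f x, κ c)
    have hb1 : f b = f x := congrArg Prod.fst hb
    have hb2 : u b = κ c := congrArg Prod.snd hb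
    have h4 := hρ (f x) ⟨x, rfl⟩ ⟨b, hb1⟩ ⟨⟨y, hxy⟩, c, hc, hb2⟩
    rw [hQ, h4]
    exact hb2
  intro x y hxy hp
  obtain ⟨a1, a2, c, a3, a4⟩ := hγ x y hxy hp
  exact ⟨c, a4, key x y c hxy (a1.trans a3), key y x c hxy.symm (a2.trans a3)⟩

/-- a linear forest of the product -/
theorem product_LF {V U W : Type} [Finite U] [Finite W] (E : ℕ → SimpleGraph U)
    (hE : ∀ n, IsLF (E n)) (q : ℕ) (idx : U → ℕ) (τ : U → Bool) (hty : Typed E q idx τ)
    (f : W → V) (u : W → U) (hinj : ∀ x y, f x = f y → u x = u y → x = y) (pos : V → ℕ)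
    (M : SimpleGraph W) (h1 : ∀ x y z, M.Adj x y → M.Adj x z → y = z)
    (h2 : ∀ x y, M.Adj x y → pos (f y) = pos (f x) + 1 ∨ pos (f x) = pos (f y) + 1)
    (h3 : ∀ x y x' y', M.Adj x y → M.Adj x' y' → pos (f x) = pos (f x') → f x = f x')
    (h4 : ∀ x y, M.Adj x y → u x = u y)
    (h5 : ∀ x y, M.Adj x y → pos (f y) = pos (f x) + 1 → (τ (u x) = true ↔ Even (pos (f x))))
    (i : ℕ) (h6 : ∀ x y, M.Adj x y → idx (u x) = i) : IsLF (copies (E i) f u ⊔ M) := by
  classical
  have hF := copies_LF (E i) (hE i) f u hinj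
  refine ⟨acyclic_bridges _ _ hF.1 ?_, ?_⟩
  · -- the edges of `M` are bridges
    have main : ∀ x y, M.Adj x y → pos (f y) = pos (f x) + 1 →
        ¬ ((copies (E i) f u ⊔ M).deleteEdges {s(x, y)}).Reachable x y := by
      intro x y hxy hp hr
      have h7 := closed_reach _ (fun w => pos (f w) ≤ pos (f x) ∧
          (E i).Reachable (u x) (u w)) (by
        intro w w' hw hww
        rw [deleteEdges_adj, Set.mem_singleton_iff] at hww
        rcases hww.1 with h8 | h8
        · exact ⟨by rw [← h8.1]; exact hw.1, hw.2.trans h8.2.reachable⟩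
        · refine ⟨?_, by rw [← h4 w w' h8]; exact hw.2⟩
          by_contra hlt
          push Not at hlt
          have h9 : pos (f w') = pos (f w) + 1 := by
            rcases h2 w w' h8 with h | h <;> have := hw.1 <;> omega
          have h10 : pos (f w) = pos (f x) := by have := hw.1; omega
          have h11 : f w = f x := h3 w w' x y h8 hxy h10
          have h12 : u x = u w := by
            apply hty.2 (u x) (u w)
            · rw [h6 x y hxy, h6 w w' h8]
            · rw [h6 x y hxy]; exact hw.2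
            · have e1 := h5 x y hxy hp
              have e2 := h5 w w' h8 h9
              rw [h10] at e2
              exact Bool.eq_iff_iff.2 (e1.trans e2.symm)
          have h13 : w = x := hinj w x h11 h12.symm
          subst h13
          have h14 : w' = y := h1 w w' y h8 hxy
          rw [h14] at hww
          exact hww.2 rfl) hr ⟨le_rfl, Reachable.refl _⟩
      have := h7.1
      omega
    intro x y hxy
    rcases h2 x y hxy with hp | hp
    · exact main x y hxy hp
    · intro hr
      apply main y x hxy.symm hp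
      rw [Sym2.eq_swap]
      exact hr.symm
  · intro x
    have hsub : (copies (E i) f u ⊔ M).neighborSet x =
        (copies (E i) f u).neighborSet x ∪ M.neighborSet x := rfl
    rw [hsub]
    by_cases hx : ∃ y, M.Adj x y
    · obtain ⟨y, hy⟩ := hx
      have h7 : M.neighborSet x = {y} := by
        ext z
        rw [mem_neighborSet, Set.mem_singleton_iff]
        exact ⟨fun h => (h1 x y z hy h).symm, fun h => h ▸ hy⟩
      have h8 := Set.ncard_union_le ((copies (E i) f u).neighborSet x) (M.neighborSet x)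
      rw [h7, Set.ncard_singleton] at h8
      have h9 := copies_ncard (E i) f u hinj x
      have h10 := (hty.1 (u x)).2
      rw [h6 x y hy] at h10
      rw [h7]
      omega
    · have h7 : M.neighborSet x = ∅ := by
        ext z
        rw [mem_neighborSet]
        exact ⟨fun h => absurd ⟨z, h⟩ hx, fun h => absurd h (Set.notMem_empty _)⟩
      rw [h7, Set.union_empty]
      exact hF.2 x

end Pool.Agent.X76.Det
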