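import Pool.Agent.H79.LA.X76_Det22

set_option autoImplicit false

/-!
Blow-ups of regular graphs with large components, with arbitrary graphs inside the classes.
-/

namespace Pool.Agent.X76.Det

open Finset SimpleGraph H931R3.LA Pool.Agent.X76.Lex

/-- large matchings of regular graphs -/
theorem large_matching {V : Type} [Fintype V] (G : SimpleGraph V) (r : ℕ) (hr : 0 < r)
    (hdeg : ∀ v, (G.neighborSet v).ncard = r) : ∀ k, 4 * k ≤ Fintype.card V →
      ∃ M : Finset (V × V), IsM G M ∧ M.card = k := by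
  classical
  intro k
  induction k with
  | zero => exact fun _ => ⟨∅, ⟨by simp, by simp⟩, rfl⟩
  | succ k ih =>
    intro hn
    obtain ⟨M, hM, hc⟩ := ih (by omega)
    let S : Finset V := M.image Prod.fst ∪ M.image Prod.snd
    have hS : S.card ≤ 2 * k := by
      refine (card_union_le _ _).trans ?_
      have h1 := card_image_le (s := M) (f := Prod.fst)
      have h2 := card_image_le (s := M) (f := Prod.snd)
      omega
    have hmemS : ∀ x, x ∉ S → ∀ e ∈ M, x ≠ e.1 ∧ x ≠ e.2 := by
      intro x hx e he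
      constructor
      · rintro rfl
        exact hx (mem_union_left _ (mem_image_of_mem _ he))
      · rintro rfl
        exact hx (mem_union_right _ (mem_image_of_mem _ he))
    by_cases hfree : ∃ x, x ∉ S ∧ ∃ z, z ∉ S ∧ G.Adj x z
    · obtain ⟨x, hx, z, hz, hxz⟩ := hfree
      obtain ⟨h3, h4⟩ := hM.insert hxz (hmemS x hx) (hmemS z hz)
      exact ⟨_, h3, by rw [card_insert_of_notMem h4, hc]⟩
    · exfalso
      push Not at hfree
      have hd : ∀ x, ∑ y, (if G.Adj x y then 1 else 0) = r := by
        intro x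
        rw [← hdeg x, Set.ncard_eq_toFinset_card', ← Finset.card_filter]
        congr 1
        ext v
        simp
      have h1 : ∑ x ∈ Sᶜ, ∑ y, (if G.Adj x y then 1 else 0) ≤
          ∑ y ∈ S, ∑ x, (if G.Adj y x then 1 else 0) := by
        have h2 : ∀ x ∈ Sᶜ, ∑ y, (if G.Adj x y then 1 else 0) =
            ∑ y ∈ S, (if G.Adj x y then 1 else 0) := by
          intro x hx
          symm
          apply Finset.sum_subset (Finset.subset_univ _)
          intro y _ hy
          rw [if_neg]
          exact hfree x (by simpa using hx) y hy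
        rw [Finset.sum_congr rfl h2, Finset.sum_comm]
        apply Finset.sum_le_sum
        intro y _
        have h3 : ∑ x ∈ Sᶜ, (if G.Adj x y then 1 else 0) =
            ∑ x ∈ Sᶜ, (if G.Adj y x then 1 else 0) := by
          apply Finset.sum_congr rfl
          intro x _
          by_cases h : G.Adj x y
          · rw [if_pos h, if_pos h.symm]
          · rw [if_neg h, if_neg (fun h' => h h'.symm)]
        rw [h3]
        exact Finset.sum_le_sum_of_subset (Finset.subset_univ _)
      rw [Finset.sum_congr rfl (fun x _ => hd x), Finset.sum_congr rfl (fun x _ => hd x),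
        Finset.sum_const, Finset.sum_const, smul_eq_mul, smul_eq_mul, card_compl] at h1
      have h2 := Nat.le_of_mul_le_mul_right h1 hr
      omega

/-- many ends of different paths of the same forest -/
theorem exists_slots {U : Type} [Fintype U] (E : ℕ → SimpleGraph U) (q : ℕ)
    (hE : ∀ n, IsLF (E n)) (hdeg : ∀ x, ∑ n ∈ range q, ((E n).neighborSet x).ncard < 2 * q)
    (t : ℕ) (ht : 2 * q * (t - 1) < Fintype.card U) :
    ∃ i < q, ∃ slot : Fin t → U, Function.Injective slot ∧
      (∀ k, ((E i).neighborSet (slot k)).ncard ≤ 1) ∧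
      ∀ k k', (E i).Reachable (slot k) (slot k') → k = k' := by
  classical
  obtain ⟨Z, idx, hsel, hZ⟩ := sel_half E q hE hdeg
  obtain ⟨i, hi, hc⟩ : ∃ i < q, t ≤ (Z.filter fun z => idx z = i).card := by
    by_contra hno
    push Not at hno
    have h1 : Z.card = ∑ i ∈ range q, (Z.filter fun z => idx z = i).card :=
      Finset.card_eq_sum_card_fiberwise (fun z hz => Finset.mem_coe.2
        (mem_range.2 (hsel.1 z hz).1))
    have h2 : ∑ i ∈ range q, (Z.filter fun z => idx z = i).card ≤ ∑ i ∈ range q, (t - 1) := by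
      apply Finset.sum_le_sum
      intro i hi
      have := hno i (mem_range.1 hi)
      omega
    rw [Finset.sum_const, card_range, smul_eq_mul] at h2
    have h3 : 2 * q * (t - 1) = 2 * (q * (t - 1)) := by ring
    omega
  obtain ⟨e⟩ : Nonempty (Fin t ↪ {z // z ∈ Z.filter fun z => idx z = i}) := by
    apply Function.Embedding.nonempty_of_card_le
    rw [Fintype.card_fin, Fintype.card_coe]
    exact hc
  have hmem : ∀ k, (e k).1 ∈ Z ∧ idx (e k).1 = i := fun k => mem_filter.1 (e k).2
  refine ⟨i, hi, fun k => (e k).1, fun k k' h => e.injective (Subtype.ext h), ?_, ?_⟩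
  · intro k
    have h1 := (hsel.1 _ (hmem k).1).2
    rw [(hmem k).2] at h1
    exact h1
  · intro k k' h
    apply e.injective
    apply Subtype.ext
    apply hsel.2 _ (hmem k).1 _ (hmem k').1 ((hmem k).2.trans (hmem k').2.symm)
    rw [(hmem k).2]
    exact h

theorem diff_conn {V W : Type} [Fintype V] [Fintype W] (G : SimpleGraph V)
    (hG : G.Connected) (r m q : ℕ) (hr : 0 < r) (hm : 0 < m) (f : W → V)
    (hf : ∀ v, {w | f w = v}.ncard = m) (hdeg : ∀ v, (G.neighborSet v).ncard = r)
    (hrm : (Even r ∧ r ≤ 2 * m) ∨ (Even m ∧ r ≤ m))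
    (X : SimpleGraph W) (hX : ∀ x y, f x ≠ f y → (X.Adj x y → G.Adj (f x) (f y)))
    (E : ℕ → SimpleGraph W) (hE : ∀ n, IsLF (E n)) (hE1 : ∀ n x y, (E n).Adj x y → f x = f y)
    (ψ : W → W → ℕ) (hψ : ∀ x y, f x = f y → X.Adj x y → ∀ i < q, (E i).Adj x y ↔ i = ψ x y)
    (hψ' : ∀ x y, f x = f y → X.Adj x y → ψ x y < q)
    (hin : ∀ x, ∑ n ∈ range q, ((E n).neighborSet x).ncard < 2 * q)
    (hn : 4 * (r * q) ≤ Fintype.card V) : Blow.Rank X (r * m / 2 + q) := by
  classical
  obtain ⟨T, h1, h2, h3, h3', h4⟩ := exists_T G r m hdeg hrm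
  obtain ⟨v0⟩ := hG.nonempty
  have hq : 0 < q := by
    obtain ⟨w, -⟩ : {w | f w = v0}.Nonempty := by
      rw [← Set.ncard_pos (Set.toFinite _), hf]; exact hm
    have := hin w
    by_contra h
    have h0 : q = 0 := by omega
    subst h0
    omega
  obtain ⟨M, hM, hMc⟩ := large_matching G r hr hdeg (r * q) hn
  let t : ℕ := (m - 1) / (2 * q) + 1
  have ht1 : 2 * q * (t - 1) < m := by
    simp only [t, Nat.add_sub_cancel]
    have := Nat.mul_div_le (m - 1) (2 * q)
    omega
  have ht2 : m ≤ 2 * q * t := by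
    simp only [t]
    have := Nat.lt_mul_div_succ (m - 1) (show 0 < 2 * q by omega)
    omega
  obtain ⟨a, b, hab, hab1, hab2, hab3, hD⟩ := assign G M hM (r * m / 2) t (by
    rw [hMc]
    have h5 : r * m ≤ r * (2 * q * t) := Nat.mul_le_mul_left r ht2
    have h6 : r * (2 * q * t) = 2 * (r * q * t) := by ring
    omega)
  -- slots in every class
  have hslots : ∀ v, ∃ i < q, ∃ slot : Fin t → W, Function.Injective slot ∧
      (∀ k, f (slot k) = v) ∧ (∀ k, ((E i).neighborSet (slot k)).ncard ≤ 1) ∧
      ∀ k k', (E i).Reachable (slot k) (slot k') → k = k' := by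
    intro v
    let U : Type := {w : W // f w = v}
    have hUc : Fintype.card U = m := by
      rw [← hf v, ← Nat.card_coe_set_eq, Nat.card_eq_fintype_card]
      rfl
    have hnb : ∀ n (x : U), (((E n).comap (Subtype.val : U → W)).neighborSet x).ncard =
        ((E n).neighborSet x.1).ncard := by
      intro n x
      rw [← Set.ncard_image_of_injective _ Subtype.val_injective]
      congr 1
      ext y
      simp only [Set.mem_image, mem_neighborSet, comap_adj]
      constructor
      · rintro ⟨y', h5, rfl⟩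
        exact h5
      · intro h5
        exact ⟨⟨y, (hE1 n _ _ h5).symm.trans x.2⟩, h5, rfl⟩
    obtain ⟨i, hi, slot, e1, e2, e3⟩ := exists_slots
      (fun n => (E n).comap (Subtype.val : U → W)) q (by
        intro n
        refine ⟨IsAcyclic.comap (⟨Subtype.val, fun h => h⟩ :
          (E n).comap (Subtype.val : U → W) →g E n) Subtype.val_injective (hE n).1, ?_⟩
        intro x
        rw [hnb]
        exact (hE n).2 x.1) (by
        intro x
        have h5 := hin x.1
        simp only [hnb]
        exact h5) t (by rw [hUc]; exact ht1)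
    refine ⟨i, hi, fun k => (slot k).1, fun k k' h => e1 (Subtype.ext h), fun k => (slot k).2,
      ?_, ?_⟩
    · intro k
      have h5 := e2 k
      simp only [hnb] at h5
      exact h5
    · intro k k' h
      apply e3
      obtain ⟨h5, h6⟩ := closed_reach (E i) (fun w => ∃ h : f w = v,
        ((E i).comap (Subtype.val : U → W)).Reachable (slot k) ⟨w, h⟩) (by
          rintro w w' ⟨h5, h6⟩ hww
          have h7 : f w' = v := (hE1 i _ _ hww).symm.trans h5
          refine ⟨h7, h6.trans (Adj.reachable ?_)⟩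
          exact hww) h ⟨(slot k).2, Reachable.refl _⟩
      exact h6
  choose best hbest slot hs1 hs2 hs3 hs4 using hslots
  -- permuted forests
  let i0 : Fin q := ⟨0, hq⟩
  let σ : V → Equiv.Perm (Fin q) := fun v => Equiv.swap i0 ⟨best v, hbest v⟩
  have hσ : ∀ v, (σ v i0).val = best v := by
    intro v
    simp only [σ, Equiv.swap_apply_left]
  let F : Fin q → SimpleGraph W := fun i =>
    { Adj := fun x y => (E (σ (f x) i)).Adj x y
      symm := ⟨fun x y h => by
        have h5 := hE1 _ _ _ h
        rw [← h5]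
        exact h.symm⟩
      loopless := ⟨fun x h => (E _).loopless.irrefl _ h⟩ }
  have hFE : ∀ i x y, (F i).Reachable x y → f y = f x ∧ (E (σ (f x) i)).Reachable x y := by
    intro i x y h
    refine closed_reach (F i) (fun w => f w = f x ∧ (E (σ (f x) i)).Reachable x w) ?_ h
      ⟨rfl, Reachable.refl _⟩
    intro w w' hw hww
    have h5 : (E (σ (f w) i)).Adj w w' := hww
    rw [hw.1] at h5
    exact ⟨(hE1 _ _ _ h5).symm.trans hw.1, hw.2.trans h5.reachable⟩
  have hFLF : ∀ i, IsLF (F i) := by
    intro i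
    refine ⟨?_, fun x => (hE (σ (f x) i)).2 x⟩
    rw [isAcyclic_iff_forall_adj_isBridge]
    intro x y hxy
    rw [isBridge_iff]
    intro hr'
    have h5 : (E (σ (f x) i)).Adj x y := hxy
    have h6 := (isAcyclic_iff_forall_adj_isBridge.1 (hE (σ (f x) i)).1) h5
    rw [isBridge_iff] at h6
    apply h6
    refine (closed_reach _ (fun w => f w = f x ∧
      ((E (σ (f x) i)).deleteEdges {s(x, y)}).Reachable x w) ?_ hr' ⟨rfl, Reachable.refl _⟩).2
    intro w w' hw hww
    rw [deleteEdges_adj] at hww
    have h7 : (E (σ (f w) i)).Adj w w' := hww.1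
    rw [hw.1] at h7
    refine ⟨(hE1 _ _ _ h7).symm.trans hw.1, hw.2.trans (Adj.reachable ?_)⟩
    rw [deleteEdges_adj]
    exact ⟨h7, hww.2⟩
  refine subst_conn (K := Fin t) G hG f (fun _ => m) hf (fun _ => hm) _ q T h1
    h2 h3 h3' h4 a b hab hab1 hab2 hab3 ?_ X hX F hFLF (fun i x y h => hE1 _ _ _ h) ?_
    slot hs2 hs1 (fun _ => i0) ?_ ?_
  · rw [Fintype.card_fin]
    exact hD
  · intro x y hxy hadj
    have h5 := hψ' x y hxy hadj
    refine ⟨(σ (f x)).symm ⟨ψ x y, h5⟩, ?_, ?_⟩
    · show (E (σ (f x) ((σ (f x)).symm ⟨ψ x y, h5⟩))).Adj x y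
      rw [Equiv.apply_symm_apply]
      exact (hψ x y hxy hadj _ h5).2 rfl
    · intro i hi
      have h6 : (E (σ (f x) i)).Adj x y := hi
      have h7 := (hψ x y hxy hadj _ (σ (f x) i).2).1 h6
      rw [Equiv.eq_symm_apply]
      exact Fin.ext h7
  · intro v k
    show ((E (σ (f (slot v k)) i0)).neighborSet (slot v k)).ncard ≤ 1
    rw [hs2, hσ]
    exact hs3 v k
  · intro v k k' _ h
    apply hs4 v k k'
    have h5 := (hFE i0 _ _ h).2
    rw [hs2, hσ] at h5
    exact h5

end Pool.Agent.X76.Det
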