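import Pool.Agent.H79.LA.X76_Det23

set_option autoImplicit false

/-!
Blow-ups of regular graphs with large components, with arbitrary graphs inside the classes:
components and coverings.
-/

namespace Pool.Agent.X76.Det

open Finset SimpleGraph H931R3.LA Pool.Agent.X76.Lex

/-- the edges inside the classes -/
def inner {V W : Type} (X : SimpleGraph W) (f : W → V) : SimpleGraph W where
  Adj x y := X.Adj x y ∧ f x = f y
  symm := ⟨fun _ _ h => ⟨h.1.symm, h.2.symm⟩⟩
  loopless := ⟨fun _ h => X.loopless.irrefl _ h.1⟩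

theorem diff_rank {V W : Type} [Finite V] [Finite W] (G : SimpleGraph V)
    (r m q : ℕ) (hr : 0 < r) (hm : 0 < m) (f : W → V)
    (hf : ∀ v, {w | f w = v}.ncard = m) (hdeg : ∀ v, (G.neighborSet v).ncard = r)
    (hrm : (Even r ∧ r ≤ 2 * m) ∨ (Even m ∧ r ≤ m))
    (X : SimpleGraph W) (hX : ∀ x y, f x ≠ f y → (X.Adj x y → G.Adj (f x) (f y)))
    (E : ℕ → SimpleGraph W) (hE : ∀ n, IsLF (E n)) (hE1 : ∀ n x y, (E n).Adj x y → f x = f y)
    (ψ : W → W → ℕ) (hψ : ∀ x y, f x = f y → X.Adj x y → ∀ i < q, (E i).Adj x y ↔ i = ψ x y)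
    (hψ' : ∀ x y, f x = f y → X.Adj x y → ψ x y < q)
    (hin : ∀ x, ∑ n ∈ range q, ((E n).neighborSet x).ncard < 2 * q)
    (hn : ∀ C : G.ConnectedComponent, 4 * (r * q) ≤ C.supp.ncard) :
    Blow.Rank X (r * m / 2 + q) := by
  classical
  apply Blow.Rank.comp X (fun w => G.connectedComponentMk (f w))
  · intro x y hxy
    by_cases h : f x = f y
    · rw [h]
    · exact ConnectedComponent.sound (Adj.reachable (hX x y h hxy))
  intro C
  let VC : Type := {v : V // G.connectedComponentMk v = C}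
  let WC : Type := {w : W // G.connectedComponentMk (f w) = C}
  have iV := Fintype.ofFinite VC
  have iW := Fintype.ofFinite WC
  let GC : SimpleGraph VC := G.comap Subtype.val
  let fC : WC → VC := fun w => ⟨f w.1, w.2⟩
  have hconn : GC.Connected := C.connected_toSimpleGraph
  have hdC : ∀ v : VC, (GC.neighborSet v).ncard = r := by
    intro v
    rw [← hdeg v.1, ← Set.ncard_image_of_injective _ Subtype.val_injective]
    congr 1
    ext u
    simp only [Set.mem_image, mem_neighborSet]
    constructor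
    · rintro ⟨u', h1, rfl⟩
      exact h1
    · intro h1
      refine ⟨⟨u, ?_⟩, h1, rfl⟩
      rw [← v.2]
      exact ConnectedComponent.sound (Adj.reachable h1.symm)
  have hfC : ∀ v : VC, {w | fC w = v}.ncard = m := by
    intro v
    rw [← hf v.1, ← Set.ncard_image_of_injective _ Subtype.val_injective]
    congr 1
    ext w
    simp only [Set.mem_image, Set.mem_setOf_eq]
    constructor
    · rintro ⟨w', h1, rfl⟩
      exact congrArg Subtype.val h1
    · intro h1
      exact ⟨⟨w, by rw [h1]; exact v.2⟩, Subtype.ext h1, rfl⟩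
  have hfe : ∀ x y : WC, fC x = fC y ↔ f x.1 = f y.1 := fun x y => Subtype.ext_iff
  refine diff_conn GC hconn r m q hr hm fC hfC hdC hrm (X.comap Subtype.val) ?_
    (fun n => (E n).comap (Subtype.val : WC → W)) ?_ ?_ (fun x y => ψ x.1 y.1) ?_ ?_ ?_ ?_
  · intro x y hxy hadj
    exact hX x.1 y.1 (fun h => hxy ((hfe x y).2 h)) hadj
  · intro n
    refine ⟨IsAcyclic.comap (⟨Subtype.val, fun h => h⟩ :
      (E n).comap (Subtype.val : WC → W) →g E n) Subtype.val_injective (hE n).1, ?_⟩
    intro x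
    refine le_trans ?_ ((hE n).2 x.1)
    rw [← Set.ncard_image_of_injective _ Subtype.val_injective]
    apply Set.ncard_le_ncard _ (Set.toFinite _)
    rintro _ ⟨y, hy, rfl⟩
    exact hy
  · intro n x y h
    exact (hfe x y).2 (hE1 n _ _ h)
  · intro x y hxy hadj i hi
    exact hψ x.1 y.1 ((hfe x y).1 hxy) hadj i hi
  · intro x y hxy hadj
    exact hψ' x.1 y.1 ((hfe x y).1 hxy) hadj
  · intro x
    refine lt_of_le_of_lt ?_ (hin x.1)
    apply Finset.sum_le_sum
    intro n _
    rw [← Set.ncard_image_of_injective _ Subtype.val_injective]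
    apply Set.ncard_le_ncard _ (Set.toFinite _)
    rintro _ ⟨y, hy, rfl⟩
    exact hy
  · have h1 : Fintype.card VC = C.supp.ncard := by
      rw [← Nat.card_eq_fintype_card, ← Nat.card_coe_set_eq]
      rfl
    rw [h1]
    exact hn C

theorem diff_cov {V W : Type} [Finite V] [Finite W] (G : SimpleGraph V)
    (r m q : ℕ) (hr : 0 < r) (hm : 0 < m) (f : W → V)
    (hf : ∀ v, {w | f w = v}.ncard = m) (hdeg : ∀ v, (G.neighborSet v).ncard = r)
    (hrm : (Even r ∧ r ≤ 2 * m) ∨ (Even m ∧ r ≤ m))
    (X : SimpleGraph W) (hX : ∀ x y, f x ≠ f y → X.Adj x y → G.Adj (f x) (f y))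
    (hcov : Cov (inner X f) q) (hq : ∀ x, ((inner X f).neighborSet x).ncard < 2 * q)
    (hn : ∀ C : G.ConnectedComponent, 4 * (r * q) ≤ C.supp.ncard) :
    Cov X (r * m / 2 + q) := by
  classical
  have iW := Fintype.ofFinite W
  obtain ⟨c, hlt, hc⟩ := exists_col hcov
  have hsum : ∀ x, ∑ n ∈ range q, ((cls (inner X f) c n).neighborSet x).ncard =
      ((inner X f).neighborSet x).ncard := fun x => sum_cls (inner X f) c q hlt x
  refine (diff_rank G r m q hr hm f hf hdeg hrm X hX (cls (inner X f) c) hc ?_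
    (fun x y => c s(x, y)) ?_ ?_ ?_ hn).cov
  · intro n x y h
    exact h.1.2
  · intro x y hxy hadj i _
    constructor
    · exact fun h => h.2.symm
    · exact fun h => ⟨⟨hadj, hxy⟩, h.symm⟩
  · intro x y hxy hadj
    exact hlt x y ⟨hadj, hxy⟩
  · intro x
    rw [hsum]
    exact hq x

end Pool.Agent.X76.Det
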