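import Pool.Agent.H79.LA.X76_Det6
import Pool.Agent.H79.LA.X76_Lex1

set_option autoImplicit false

/-!
Detachments with one vertex that is not split, and linear forests.
-/

namespace Pool.Agent.X76.Det

open Finset SimpleGraph

open Classical in
theorem detachP {C : Type} [Fintype C] (n : ℕ) :
    ∀ (X : Type) [Fintype X] (P : X → Prop) (g : X → ℕ) (a : X → X → ℕ) (m : C → X → X → ℕ),
      (∀ x y, a x y = a y x) → StP P g a m → ∑ x, (if P x then g x - 1 else 0) = n →
      ∃ (Y : Type) (_ : Fintype Y) (π : Y → X) (g' : Y → ℕ) (M : C → Y → Y → ℕ),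
        (∀ x, P x → {y | π y = x}.ncard = g x) ∧ (∀ x, ¬ P x → {y | π y = x}.ncard = 1) ∧
        (∀ y, P (π y) → g' y = 1) ∧ (∀ y, ¬ P (π y) → g' y = g (π y)) ∧
        StP (fun y => P (π y)) g' (fun y z => a (π y) (π z)) M := by
  induction n with
  | zero =>
    intro X _ P g a m ha h hn
    have hg : ∀ x, P x → g x = 1 := by
      intro x hx
      have h1 := (Finset.sum_eq_zero_iff.1 hn) x (mem_univ x)
      rw [if_pos hx] at h1
      have h2 := h.pos x hx
      omega
    have h1 : ∀ x : X, {y : X | id y = x} = {x} := by intro x; ext; simp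
    refine ⟨X, inferInstance, id, g, m, ?_, ?_, hg, fun _ _ => rfl, h⟩
    · intro x hx
      rw [h1, Set.ncard_singleton, hg x hx]
    · intro x _
      rw [h1, Set.ncard_singleton]
  | succ n ih =>
    intro X _ P g a m ha h hn
    obtain ⟨v, hPv, hv⟩ : ∃ v, P v ∧ 2 ≤ g v := by
      by_contra hno
      push Not at hno
      have h1 : ∑ x, (if P x then g x - 1 else 0) = 0 := Finset.sum_eq_zero fun x _ => by
        split_ifs with hx
        · have := hno x hx; omega
        · rfl
      omega
    obtain ⟨m', hm'⟩ := stepP P g a ha m h v hPv hv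
    have hsum : ∑ o : Option X, (if P (o.getD v) then gs g v o - 1 else 0) = n := by
      rw [Fintype.sum_option]
      simp only [gs, Option.getD_none, Option.getD_some, if_pos hPv]
      rw [← Finset.add_sum_erase _ _ (mem_univ v)] at hn ⊢
      simp only [if_true, if_pos hPv] at hn ⊢
      have h2 : ∑ x ∈ univ.erase v, (if P x then (if x = v then g v - 1 else g x) - 1 else 0) =
          ∑ x ∈ univ.erase v, (if P x then g x - 1 else 0) := by
        apply Finset.sum_congr rfl
        intro x hx
        rw [if_neg (Finset.ne_of_mem_erase hx)]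
      rw [h2]
      omega
    obtain ⟨Y, hY, π, g', M, h1, h2, h3, h4, h5⟩ := ih (Option X) _ (gs g v) _ m'
      (fun x y => ha _ _) hm' hsum
    refine ⟨Y, hY, fun y => (π y).getD v, g', M, ?_, ?_, h3, ?_, h5⟩
    · intro x hx
      by_cases hxv : x = v
      · subst hxv
        have h6 : {y | (π y).getD x = x} = {y | π y = none} ∪ {y | π y = some x} := by
          ext y
          simp only [Set.mem_ofPred_eq, Set.mem_union]
          rcases hπ : π y with _ | z
          · simp
          · simp
        rw [h6, Set.ncard_union_eq _ (Set.toFinite _) (Set.toFinite _), h1 none hPv,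
          h1 (some x) hPv]
        · simp only [gs, if_true]
          omega
        · rw [Set.disjoint_left]
          intro y hy hy'
          simp only [Set.mem_ofPred_eq] at hy hy'
          rw [hy] at hy'
          simp at hy'
      · have h6 : {y | (π y).getD v = x} = {y | π y = some x} := by
          ext y
          simp only [Set.mem_ofPred_eq]
          rcases hπ : π y with _ | z
          · simp [Ne.symm hxv]
          · simp
        rw [h6, h1 (some x) hx]
        simp only [gs, if_neg hxv]
    · intro x hx
      have hxv : x ≠ v := by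
        rintro rfl
        exact hx hPv
      have h6 : {y | (π y).getD v = x} = {y | π y = some x} := by
        ext y
        simp only [Set.mem_ofPred_eq]
        rcases hπ : π y with _ | z
        · simp [Ne.symm hxv]
        · simp
      rw [h6]
      exact h2 (some x) hx
    · intro y hy
      have h6 := h4 y hy
      rw [h6]
      change ¬ P ((π y).getD v) at hy
      change _ = g ((π y).getD v)
      rcases hπ : π y with _ | z
      · rw [hπ] at hy
        exact absurd hPv hy
      · rw [hπ] at hy
        simp only [gs, Option.getD_some]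
        rw [if_neg]
        rintro rfl
        exact hy hPv

/-- closed sets of vertices of connected graphs -/
theorem closed_all {Y : Type} {S : SimpleGraph Y} (hS : S.Connected) (K : Y → Prop) (y0 : Y)
    (h0 : K y0) (hK : ∀ y z, K y → S.Adj y z → K z) : ∀ y, K y := by
  intro y
  obtain ⟨p⟩ := hS.preconnected y0 y
  induction p with
  | nil => exact h0
  | cons h p ih => exact ih (hK _ _ h0 h)

/-- colour classes without the extra vertex are linear forests -/
theorem lf_of_class {Y W : Type} [Fintype Y] [Fintype W] [DecidableEq Y] (M : Y → Y → ℕ)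
    (hs : ∀ x y, M x y = M y x) (z : Y) (hd : ∀ y, y ≠ z → ∑ x, M y x = 2)
    (hc : (supp M).Connected) (e : W → Y) (he : Function.Injective e)
    (hez : ∀ w, e w ≠ z) (E : SimpleGraph W) (hE : ∀ u v, E.Adj u v → 1 ≤ M (e u) (e v)) :
    H931R3.LA.IsLF E := by
  classical
  -- at most two neighbours
  have h3 : ∀ u a b c, E.Adj u a → E.Adj u b → a ≠ b → c ≠ e a → c ≠ e b → M (e u) c = 0 := by
    intro u a b c ha hb hab hca hcb
    have h4 := hd (e u) (hez u)
    have h5 : M (e u) (e a) + (M (e u) (e b) + M (e u) c) ≤ ∑ x, M (e u) x := by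
      rw [← Finset.add_sum_erase _ _ (mem_univ (e a))]
      apply Nat.add_le_add_left
      rw [← Finset.add_sum_erase _ _ (Finset.mem_erase.2 ⟨he.ne hab.symm, mem_univ (e b)⟩)]
      apply Nat.add_le_add_left
      exact Finset.single_le_sum (f := fun x => M (e u) x) (fun i _ => Nat.zero_le _)
        (Finset.mem_erase.2 ⟨hcb, Finset.mem_erase.2 ⟨hca, mem_univ c⟩⟩)
    have h6 := hE u a ha
    have h7 := hE u b hb
    omega
  refine ⟨?_, ?_⟩
  · intro v p hp
    let K : Y → Prop := fun y => ∃ w ∈ p.support, y = e w
    have hall := closed_all hc K (e v) ⟨v, p.start_mem_support, rfl⟩ (by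
      rintro y z' ⟨w, hw, rfl⟩ hadj
      have h1 := hp.ncard_neighborSet_toSubgraph_eq_two hw
      obtain ⟨a, b, hab, h2⟩ := Set.ncard_eq_two.1 h1
      have ha : a ∈ p.toSubgraph.neighborSet w := by rw [h2]; simp
      have hb : b ∈ p.toSubgraph.neighborSet w := by rw [h2]; simp
      have ha1 : E.Adj w a := p.toSubgraph.adj_sub ha
      have hb1 : E.Adj w b := p.toSubgraph.adj_sub hb
      have ha2 : a ∈ p.support := by
        rw [← Walk.mem_verts_toSubgraph]
        exact p.toSubgraph.edge_vert (p.toSubgraph.symm.symm _ _ ha)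
      have hb2 : b ∈ p.support := by
        rw [← Walk.mem_verts_toSubgraph]
        exact p.toSubgraph.edge_vert (p.toSubgraph.symm.symm _ _ hb)
      by_contra hno
      have h4 := h3 w a b z' ha1 hb1 hab (fun h => hno ⟨a, ha2, h⟩) (fun h => hno ⟨b, hb2, h⟩)
      have h5 := hadj.2.1
      omega)
    obtain ⟨w, -, hw⟩ := hall z
    exact hez w hw.symm
  · intro u
    by_contra hno
    push Not at hno
    obtain ⟨a, b, c, ha, hb, hc', hab, hac, hbc⟩ :=
      (Set.two_lt_ncard_iff (Set.toFinite (E.neighborSet u))).1 hno
    have h4 := h3 u a b (e c) ha hb hab (he.ne hac.symm) (he.ne hbc.symm)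
    have h5 := hE u c hc'
    omega

end Pool.Agent.X76.Det
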