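import Pool.Agent.H79.LA.X76_Det7
import Pool.Agent.H79.LA.X76_Det5

set_option autoImplicit false

/-!
Balanced classes with a special row, and ranks from linear forests.
-/

namespace Pool.Agent.X76.Det

open Finset SimpleGraph Pool.Agent.H160R2.HF

/-- one balanced class of a matrix with a special index `z` -/
theorem one_class_z {X : Type} [Fintype X] [DecidableEq X] (o : X → X → ℕ) (D : ℕ) (hD : 0 < D)
    (z : X) (a : X → ℕ) (s : ℕ) (h1 : ∀ x, x ≠ z → ∑ y, o x y = D * a x)
    (h2 : ∀ y, y ≠ z → ∑ x, o x y = D * a y) (h3 : ∑ y, o z y = s) (h4 : ∑ x, o x z = s) :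
    ∃ (T : X → X → ℕ) (r : ℕ), (∀ x, x ≠ z → ∑ y, T x y = a x) ∧
      (∀ y, y ≠ z → ∑ x, T x y = a y) ∧ ∑ y, T z y = r ∧ ∑ x, T x z = r ∧
      s / D ≤ r ∧ r ≤ (s + (D - 1)) / D ∧
      ∀ x y, o x y / D ≤ T x y ∧ T x y ≤ (o x y + (D - 1)) / D := by
  let t : (X × X) ⊕ Unit → X ⊕ X := fun q => match q with
    | Sum.inl q => Sum.inl q.1
    | Sum.inr _ => Sum.inr z
  let h : (X × X) ⊕ Unit → X ⊕ X := fun q => match q with
    | Sum.inl q => Sum.inr q.2
    | Sum.inr _ => Sum.inl z
  let lo : (X × X) ⊕ Unit → ℤ := fun q => match q with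
    | Sum.inl q => ((o q.1 q.2 / D : ℕ) : ℤ)
    | Sum.inr _ => ((s / D : ℕ) : ℤ)
  let up : (X × X) ⊕ Unit → ℤ := fun q => match q with
    | Sum.inl q => (((o q.1 q.2 + (D - 1)) / D : ℕ) : ℤ)
    | Sum.inr _ => (((s + (D - 1)) / D : ℕ) : ℤ)
  let G : (X × X) ⊕ Unit → ℤ := fun q => match q with
    | Sum.inl q => (o q.1 q.2 : ℤ)
    | Sum.inr _ => (s : ℤ)
  let d : X ⊕ X → ℤ := fun v => match v with
    | Sum.inl x => if x = z then 0 else (a x : ℤ)
    | Sum.inr y => if y = z then 0 else - (a y : ℤ)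
  have hn1 : ∀ (g : (X × X) ⊕ Unit → ℤ) (x : X), net t h g (Sum.inl x) =
      ∑ y, g (Sum.inl (x, y)) - if z = x then g (Sum.inr ()) else 0 := by
    intro g x
    rw [net_eq, Fintype.sum_sum_type, Fintype.sum_sum_type, Fintype.sum_prod_type,
      Fintype.sum_prod_type]
    simp only [t, h, Sum.inl.injEq, reduceCtorEq, if_false, Finset.sum_const_zero, add_zero,
      zero_add, Finset.univ_unique, Finset.sum_singleton]
    congr 1
    rw [Finset.sum_eq_single x]
    · simp
    · intro x' _ hne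
      simp [hne]
    · simp
  have hn2 : ∀ (g : (X × X) ⊕ Unit → ℤ) (y : X), net t h g (Sum.inr y) =
      (if z = y then g (Sum.inr ()) else 0) - ∑ x, g (Sum.inl (x, y)) := by
    intro g y
    rw [net_eq, Fintype.sum_sum_type, Fintype.sum_sum_type, Fintype.sum_prod_type,
      Fintype.sum_prod_type]
    simp only [t, h, Sum.inr.injEq, reduceCtorEq, if_false, Finset.sum_const_zero, add_zero,
      zero_add, Finset.univ_unique, Finset.sum_singleton]
    congr 1
    simp
  have hbd : ∀ k : ℕ, (D : ℤ) * ((k / D : ℕ) : ℤ) ≤ (k : ℤ) ∧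
      (k : ℤ) ≤ (D : ℤ) * (((k + (D - 1)) / D : ℕ) : ℤ) := by
    intro k
    constructor
    · exact_mod_cast Nat.mul_div_le k D
    · have h3 : k ≤ D * ((k + (D - 1)) / D) := by
        have h4 := Nat.div_add_mod (k + (D - 1)) D
        have h5 := Nat.mod_lt (k + (D - 1)) hD
        omega
      exact_mod_cast h3
  obtain ⟨g, hg1, hg2⟩ := scaled t h lo up d (D : ℤ) (by exact_mod_cast hD) G
    (by
      rintro (⟨x, y⟩ | _)
      · exact hbd (o x y)
      · exact hbd s)
    (by
      rintro (x | y)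
      · rw [hn1]
        simp only [G, d]
        by_cases hx : x = z
        · rw [if_pos hx.symm, if_pos hx, hx]
          have h5 : (∑ y, (o z y : ℤ)) = s := by exact_mod_cast h3
          rw [h5]; ring
        · rw [if_neg (Ne.symm hx), if_neg hx, sub_zero]
          exact_mod_cast h1 x hx
      · rw [hn2]
        simp only [G, d]
        by_cases hy : y = z
        · rw [if_pos hy.symm, if_pos hy, hy]
          have h5 : (∑ x, (o x z : ℤ)) = s := by exact_mod_cast h4
          rw [h5]; ring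
        · rw [if_neg (Ne.symm hy), if_neg hy]
          have h5 : (∑ x, (o x y : ℤ)) = D * a y := by exact_mod_cast h2 y hy
          rw [h5]; ring)
  have hT : ∀ x y, ((g (Sum.inl (x, y))).toNat : ℤ) = g (Sum.inl (x, y)) := by
    intro x y
    apply Int.toNat_of_nonneg
    have h3 := (hg1 (Sum.inl (x, y))).1
    simp only [lo] at h3
    exact (by positivity : (0 : ℤ) ≤ ((o x y / D : ℕ) : ℤ)).trans h3
  have hR : ((g (Sum.inr ())).toNat : ℤ) = g (Sum.inr ()) := by
    apply Int.toNat_of_nonneg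
    have h3 := (hg1 (Sum.inr ())).1
    simp only [lo] at h3
    exact (by positivity : (0 : ℤ) ≤ ((s / D : ℕ) : ℤ)).trans h3
  have hrow : ∀ x, ((∑ y, (g (Sum.inl (x, y))).toNat : ℕ) : ℤ) = ∑ y, g (Sum.inl (x, y)) := by
    intro x
    push_cast
    exact Finset.sum_congr rfl fun y _ => by exact_mod_cast hT x y
  have hcol : ∀ y, ((∑ x, (g (Sum.inl (x, y))).toNat : ℕ) : ℤ) = ∑ x, g (Sum.inl (x, y)) := by
    intro y
    push_cast
    exact Finset.sum_congr rfl fun x _ => by exact_mod_cast hT x y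
  refine ⟨fun x y => (g (Sum.inl (x, y))).toNat, (g (Sum.inr ())).toNat, ?_, ?_, ?_, ?_, ?_, ?_,
    ?_⟩
  · intro x hx
    have h5 := hg2 (Sum.inl x)
    rw [hn1, if_neg (Ne.symm hx), sub_zero] at h5
    simp only [d, if_neg hx] at h5
    have h6 := hrow x
    rw [h5] at h6
    exact_mod_cast h6
  · intro y hy
    have h5 := hg2 (Sum.inr y)
    rw [hn2, if_neg (Ne.symm hy)] at h5
    simp only [d, if_neg hy] at h5
    have h6 := hcol y
    have h7 : ∑ x, g (Sum.inl (x, y)) = (a y : ℤ) := by linarith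
    rw [h7] at h6
    exact_mod_cast h6
  · have h5 := hg2 (Sum.inl z)
    rw [hn1, if_pos rfl] at h5
    simp only [d, if_true] at h5
    have h6 := hrow z
    have h7 : ∑ y, g (Sum.inl (z, y)) = g (Sum.inr ()) := by linarith
    rw [h7, ← hR] at h6
    exact_mod_cast h6
  · have h5 := hg2 (Sum.inr z)
    rw [hn2, if_pos rfl] at h5
    simp only [d, if_true] at h5
    have h6 := hcol z
    have h7 : ∑ x, g (Sum.inl (x, z)) = g (Sum.inr ()) := by linarith
    rw [h7, ← hR] at h6
    exact_mod_cast h6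
  · have h5 := (hg1 (Sum.inr ())).1
    simp only [lo] at h5
    rw [← hR] at h5
    exact_mod_cast h5
  · have h5 := (hg1 (Sum.inr ())).2
    simp only [up] at h5
    rw [← hR] at h5
    exact_mod_cast h5
  · intro x y
    have h3 := hg1 (Sum.inl (x, y))
    simp only [lo, up] at h3
    rw [← hT] at h3
    exact ⟨by exact_mod_cast h3.1, by exact_mod_cast h3.2⟩

theorem sub_ceil (D k t : ℕ) (hk : D + 1 ≤ k) (ht : t ≤ (k + D) / (D + 1)) : D ≤ k - t := by
  rcases Nat.eq_zero_or_pos D with hD | hD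
  · omega
  · have h9 : (k + D) / (D + 1) ≤ k - D := by
      obtain ⟨e, he⟩ : ∃ e, k = D + 1 + e := ⟨k - (D + 1), by omega⟩
      rw [he, show D + 1 + e - D = 1 + e by omega]
      apply Nat.lt_succ_iff.1
      rw [Nat.div_lt_iff_lt_mul (Nat.succ_pos D)]
      nlinarith [Nat.zero_le (D * e)]
    omega

theorem ceil_le (D k : ℕ) : (k + D) / (D + 1) ≤ k := by
  rcases Nat.eq_zero_or_pos k with h | h
  · rw [h, Nat.zero_add, Nat.div_eq_of_lt (Nat.lt_succ_self D)]
  · apply Nat.lt_succ_iff.1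
    rw [Nat.div_lt_iff_lt_mul (Nat.succ_pos D)]
    nlinarith [Nat.zero_le (D * k)]

/-- a decomposition in balanced classes, with a special index `z` -/
theorem classes_z {X : Type} [Fintype X] [DecidableEq X] (z : X) (D : ℕ) (a : X → ℕ) :
    ∀ (o : X → X → ℕ) (s : ℕ), (∀ x, x ≠ z → ∑ y, o x y = D * a x) →
    (∀ y, y ≠ z → ∑ x, o x y = D * a y) → ∑ y, o z y = s → ∑ x, o x z = s →
    (∀ x y, D = 0 → o x y = 0) →
    ∃ T : Fin D → X → X → ℕ, (∀ c x, x ≠ z → ∑ y, T c x y = a x) ∧
      (∀ c y, y ≠ z → ∑ x, T c x y = a y) ∧ (∀ c, ∑ y, T c z y = ∑ x, T c x z) ∧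
      (∀ x y, ∑ c, T c x y = o x y) ∧ (∀ x y, D ≤ o x y → ∀ c, 1 ≤ T c x y) ∧
      (D ≤ s → ∀ c, 1 ≤ ∑ y, T c z y) := by
  induction D with
  | zero =>
    intro o s h1 h2 h3 h4 h5
    refine ⟨fun c => c.elim0, fun c => c.elim0, fun c => c.elim0, fun c => c.elim0, ?_,
      fun x y _ c => c.elim0, fun _ c => c.elim0⟩
    intro x y
    rw [h5 x y rfl]
    simp
  | succ D ih =>
    intro o s h1 h2 h3 h4 _
    obtain ⟨T0, r, hT1, hT2, hT3, hT4, hT5, hT6, hT7⟩ := one_class_z o (D + 1) (Nat.succ_pos D) z a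
      s h1 h2 h3 h4
    rw [Nat.add_sub_cancel] at hT6
    have hle : ∀ x y, T0 x y ≤ o x y := by
      intro x y
      refine (hT7 x y).2.trans ?_
      rw [Nat.add_sub_cancel]
      exact ceil_le D _
    have hrow : ∀ x, ∑ y, (o x y - T0 x y) = ∑ y, o x y - ∑ y, T0 x y :=
      fun x => Finset.sum_tsub_distrib _ (fun y _ => hle x y)
    have hcol : ∀ y, ∑ x, (o x y - T0 x y) = ∑ x, o x y - ∑ x, T0 x y :=
      fun y => Finset.sum_tsub_distrib _ (fun x _ => hle x y)
    obtain ⟨T, h5, h6, h7, h8, h9, h10⟩ := ih (fun x y => o x y - T0 x y) (s - r)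
      (by
        intro x hx
        rw [hrow, h1 x hx, hT1 x hx, Nat.add_mul, one_mul, Nat.add_sub_cancel])
      (by
        intro y hy
        rw [hcol, h2 y hy, hT2 y hy, Nat.add_mul, one_mul, Nat.add_sub_cancel])
      (by rw [hrow, h3, hT3]) (by rw [hcol, h4, hT4])
      (by
        intro x y hD
        subst hD
        have h11 := (hT7 x y).1
        rw [Nat.zero_add, Nat.div_one] at h11
        omega)
    refine ⟨Fin.cons T0 T, ?_, ?_, ?_, ?_, ?_, ?_⟩
    · intro c x hx
      refine Fin.cases ?_ (fun c => ?_) c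
      · simpa using hT1 x hx
      · simpa using h5 c x hx
    · intro c y hy
      refine Fin.cases ?_ (fun c => ?_) c
      · simpa using hT2 y hy
      · simpa using h6 c y hy
    · intro c
      refine Fin.cases ?_ (fun c => ?_) c
      · simp only [Fin.cons_zero]; rw [hT3, hT4]
      · simpa using h7 c
    · intro x y
      rw [Fin.sum_univ_succ]
      simp only [Fin.cons_zero, Fin.cons_succ, h8]
      have := hle x y
      omega
    · intro x y hxy c
      obtain ⟨h11, h12⟩ := hT7 x y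
      refine Fin.cases ?_ (fun c => ?_) c
      · simp only [Fin.cons_zero]
        refine le_trans ?_ h11
        exact (Nat.one_le_div_iff (Nat.succ_pos D)).2 hxy
      · simp only [Fin.cons_succ]
        apply h9 x y
        rw [Nat.add_sub_cancel] at h12
        exact sub_ceil D _ _ hxy h12
    · intro hs c
      refine Fin.cases ?_ (fun c => ?_) c
      · simp only [Fin.cons_zero]
        rw [hT3]
        refine le_trans ?_ hT5
        exact (Nat.one_le_div_iff (Nat.succ_pos D)).2 hs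
      · simp only [Fin.cons_succ]
        exact h10 (sub_ceil D _ _ hs hT6) c

/-- ranks from a decomposition into linear forests -/
theorem rank_of_LF {W : Type} [Finite W] {L : ℕ} (X : SimpleGraph W) (E : Fin L → SimpleGraph W)
    (hE : ∀ c, H931R3.LA.IsLF (E c)) (hu : ∀ x y, X.Adj x y → ∃! c, (E c).Adj x y) :
    Blow.Rank X L := by
  classical
  choose R hR1 hR2 hR3 using fun c => Lex.exists_root (hE c)
  let φ : W → W → ℕ := fun x y => if h : ∃ c, (E c).Adj x y then h.choose.val else 0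
  have hφ : ∀ x y, X.Adj x y → ∀ c, (E c).Adj x y → φ x y = c.val := by
    intro x y hxy c hc
    have h1 : ∃ c, (E c).Adj x y := ⟨c, hc⟩
    have h2 : h1.choose = c := (hu x y hxy).unique h1.choose_spec hc
    simp only [φ, dif_pos h1, h2]
  let pos : ℕ → W → ℕ := fun n x => if hn : n < L then (E ⟨n, hn⟩).dist (R ⟨n, hn⟩ x) x else 0
  have hpos : ∀ (c : Fin L) x, pos c.val x = (E c).dist (R c x) x := by
    intro c x
    simp only [pos, dif_pos c.2]
  refine ⟨φ, pos, ?_, ?_, ?_, ?_, ?_⟩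
  · intro x y hxy
    obtain ⟨c, hc, -⟩ := hu x y hxy
    rw [hφ x y hxy c hc, hφ y x hxy.symm c hc.symm]
  · intro x y hxy
    obtain ⟨c, hc, -⟩ := hu x y hxy
    rw [hφ x y hxy c hc]
    exact c.2
  · intro x y hxy
    obtain ⟨c, hc, -⟩ := hu x y hxy
    rw [hφ x y hxy c hc, hpos, hpos, ← hR3 c x y hc.reachable]
    exact Lex.dist_ne (hE c) (hR1 c x) hc
  · intro x y y' hxy hxy' he
    obtain ⟨c, hc, -⟩ := hu x y hxy
    obtain ⟨c', hc', -⟩ := hu x y' hxy'
    rw [hφ x y hxy c hc, hφ x y' hxy' c' hc'] at he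
    have hcc : c = c' := Fin.ext he
    subst hcc
    rw [hφ x y hxy c hc, hpos, hpos, hpos, ← hR3 c x y hc.reachable, ← hR3 c x y' hc'.reachable]
    intro h1 h2
    exact Lex.near (hE c) (hR1 c x) hc hc' h1.le h2.le
  · intro x y y' hxy hxy' he
    obtain ⟨c, hc, -⟩ := hu x y hxy
    obtain ⟨c', hc', -⟩ := hu x y' hxy'
    rw [hφ x y hxy c hc, hφ x y' hxy' c' hc'] at he
    have hcc : c = c' := Fin.ext he
    subst hcc
    rw [hφ x y hxy c hc, hpos, hpos, hpos, ← hR3 c x y hc.reachable, ← hR3 c x y' hc'.reachable]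
    intro h1 h2
    exact Lex.far (hE c) (hR2 c x) (hR1 c x) hc hc' h1 h2

end Pool.Agent.X76.Det
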