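import Pool.Agent.H79.LA.X76_Lex1

set_option autoImplicit false

/-!
Linear forests of a lexicographic product from aligned Hamilton cycles of the blow-up.
-/

namespace Pool.Agent.X76.Lex

open SimpleGraph Finset H931R3.LA Pool.Agent.X76.Blow

/-- the lexicographic product in coordinates -/
def LexG {V U W : Type} (G : SimpleGraph V) (H : SimpleGraph U) (f : W → V) (u : W → U) :
    SimpleGraph W where
  Adj x y := G.Adj (f x) (f y) ∨ (f x = f y ∧ H.Adj (u x) (u y))
  symm := ⟨fun _ _ h => h.elim (fun h => Or.inl h.symm) (fun h => Or.inr ⟨h.1.symm, h.2.symm⟩)⟩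
  loopless := ⟨fun _ h => h.elim (fun h => G.loopless.irrefl _ h)
    (fun h => H.loopless.irrefl _ h.2)⟩

open Classical in
/-- root of a path: the prescribed end, if there is one -/
noncomputable def Rdef {U : Type} {h : ℕ} (κ : Fin h → U) (p1 p2 : Fin h → Prop) (r : U) : U :=
  if e : ∃ j, p1 j then κ e.choose else if e : ∃ j, p2 j then κ e.choose else r

theorem core2 {V U W : Type} [Finite U] (G : SimpleGraph V) (H : SimpleGraph U) (f : W → V)
    (u : W → U) (hinj : ∀ x y, f x = f y → u x = u y → x = y)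
    (E : ℕ → SimpleGraph U) (hE : ∀ n, IsLF (E n)) (q : ℕ) (ψ : U → U → ℕ)
    (hψ1 : ∀ x y, H.Adj x y → ψ x y = ψ y x)
    (hψ2 : ∀ x y, H.Adj x y → ψ x y < q ∧ (E (ψ x y)).Adj x y)
    (Z : Finset U) (idx : U → ℕ) (hsel : Sel E q Z idx)
    {L h : ℕ} [NeZero L] {F : Fin h → ZMod L → W} (hF : HD (G.comap f) L F)
    (T : Fin h → ZMod L)
    (hT : ∀ j j', j ≠ j' → F j (T j) ≠ F j' (T j') ∧ F j (T j) ≠ F j' (T j' + 1) ∧
      F j (T j + 1) ≠ F j' (T j' + 1))
    (κ : Fin h → U)
    (hκ : ∀ j, κ j ∈ Z ∧ u (F j (T j)) = κ j ∧ u (F j (T j + 1)) = κ j) :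
    Rank (LexG G H f u) (h + q) := by
  classical
  have hsub : ∀ D a b : ℕ, D - a < D - b → b < a := by
    intro D a b h
    omega
  choose Rt hRt1 hRt2 hRt3 using fun n => exists_root (hE n)
  obtain ⟨D, hD'⟩ := ((Set.toFinite (Set.univ : Set (Fin q × U × U))).image
    (fun p => (E p.1).dist p.2.1 p.2.2)).bddAbove
  have hD : ∀ i < q, ∀ x y, (E i).dist x y ≤ D := by
    intro i hi x y
    exact hD' ⟨(⟨i, hi⟩, x, y), Set.mem_univ _, rfl⟩
  have hadj : ∀ j s, G.Adj (f (F j s)) (f (F j (s + 1))) := fun j s => hF.2.1 j s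
  have hTne : ∀ j, f (F j (T j)) ≠ f (F j (T j + 1)) := fun j => (hadj j (T j)).ne
  have hL1 : ∀ j : Fin h, T j + 1 ≠ T j := by
    intro j h1
    apply hTne j
    rw [h1]
  let P1 : ℕ → W → Fin h → Prop := fun i w j =>
    idx (κ j) = i ∧ f w = f (F j (T j)) ∧ (E i).Reachable (κ j) (u w)
  let P2 : ℕ → W → Fin h → Prop := fun i w j =>
    idx (κ j) = i ∧ f w = f (F j (T j + 1)) ∧ (E i).Reachable (κ j) (u w)
  let R : ℕ → W → U := fun i w => Rdef κ (P1 i w) (P2 i w) (Rt i (u w))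
  let dn : ℕ → W → Prop := fun i w => ¬ (∃ j, P1 i w j) ∧ ∃ j, P2 i w j
  have huniq : ∀ i x j j', idx (κ j) = i → idx (κ j') = i → (E i).Reachable (κ j) x →
      (E i).Reachable (κ j') x → κ j = κ j' := by
    intro i x j j' h1 h2 h3 h4
    apply hsel.2 _ (hκ j).1 _ (hκ j').1 (h1.trans h2.symm)
    rw [h1]
    exact h3.trans h4.symm
  have hRspec : ∀ i w, (E i).Reachable (R i w) (u w) ∧ ((E i).neighborSet (R i w)).ncard ≤ 1 := by
    intro i w
    simp only [R, Rdef]
    split_ifs with e e'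
    · obtain ⟨h1, -, h3⟩ := e.choose_spec
      refine ⟨h3, ?_⟩
      have := (hsel.1 _ (hκ e.choose).1).2
      rw [h1] at this
      exact this
    · obtain ⟨h1, -, h3⟩ := e'.choose_spec
      refine ⟨h3, ?_⟩
      have := (hsel.1 _ (hκ e'.choose).1).2
      rw [h1] at this
      exact this
    · exact ⟨hRt1 i _, hRt2 i _⟩
  have hcongr : ∀ i w w', f w = f w' → (E i).Reachable (u w) (u w') →
      R i w = R i w' ∧ (dn i w ↔ dn i w') := by
    intro i w w' hf hr
    have h1 : P1 i w = P1 i w' := by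
      funext j
      simp only [P1, eq_iff_iff]
      constructor
      · rintro ⟨a, b, c⟩
        exact ⟨a, hf.symm.trans b, c.trans hr⟩
      · rintro ⟨a, b, c⟩
        exact ⟨a, hf.trans b, c.trans hr.symm⟩
    have h2 : P2 i w = P2 i w' := by
      funext j
      simp only [P2, eq_iff_iff]
      constructor
      · rintro ⟨a, b, c⟩
        exact ⟨a, hf.symm.trans b, c.trans hr⟩
      · rintro ⟨a, b, c⟩
        exact ⟨a, hf.trans b, c.trans hr.symm⟩
    constructor
    · show Rdef κ (P1 i w) (P2 i w) (Rt i (u w)) = Rdef κ (P1 i w') (P2 i w') (Rt i (u w'))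
      rw [h1, h2, hRt3 i _ _ hr]
    · show (¬ (∃ j, P1 i w j) ∧ ∃ j, P2 i w j) ↔ (¬ (∃ j, P1 i w' j) ∧ ∃ j, P2 i w' j)
      rw [h1, h2]
  have hfst : ∀ j, R (idx (κ j)) (F j (T j)) = κ j ∧ ¬ dn (idx (κ j)) (F j (T j)) := by
    intro j
    have h1 : P1 (idx (κ j)) (F j (T j)) j := by
      refine ⟨rfl, rfl, ?_⟩
      rw [(hκ j).2.1]
    have e : ∃ j', P1 (idx (κ j)) (F j (T j)) j' := ⟨j, h1⟩
    constructor
    · simp only [R, Rdef, dif_pos e]
      exact huniq _ _ _ _ e.choose_spec.1 rfl e.choose_spec.2.2 h1.2.2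
    · exact fun h2 => h2.1 e
  have hsnd : ∀ j, R (idx (κ j)) (F j (T j + 1)) = κ j ∧ dn (idx (κ j)) (F j (T j + 1)) := by
    intro j
    have h1 : P2 (idx (κ j)) (F j (T j + 1)) j := by
      refine ⟨rfl, rfl, ?_⟩
      rw [(hκ j).2.2]
    have e : ∃ j', P2 (idx (κ j)) (F j (T j + 1)) j' := ⟨j, h1⟩
    have hno : ¬ ∃ j', P1 (idx (κ j)) (F j (T j + 1)) j' := by
      rintro ⟨j', h2, h3, h4⟩
      have h5 : κ j' = κ j := huniq _ _ _ _ h2 rfl h4 h1.2.2
      have h6 : F j' (T j') = F j (T j + 1) := by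
        apply hinj _ _ h3.symm
        rw [(hκ j').2.1, (hκ j).2.2, h5]
      by_cases hjj : j' = j
      · subst hjj
        exact hL1 j' ((hF.1 j').1 h6).symm
      · exact (hT j' j hjj).2.1 h6
    constructor
    · simp only [R, Rdef, dif_neg hno, dif_pos e]
      exact huniq _ _ _ _ e.choose_spec.1 rfl e.choose_spec.2.2 h1.2.2
    · exact ⟨hno, e⟩
  -- colours
  let G' : Fin h → (ZMod L ≃ W) := fun j => Equiv.ofBijective (F j) (hF.1 j)
  have hG : ∀ j s, (G' j).symm (F j s) = s := fun j s => (G' j).symm_apply_apply s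
  let p : W → W → Fin h × ZMod L → Prop := fun x y r => s(F r.1 r.2, F r.1 (r.2 + 1)) = s(x, y)
  let φ : W → W → ℕ := fun x y => if f x = f y then h + ψ (u x) (u y) else
    if hp : ∃ r, p x y r then
      (if hp.choose.2 = T hp.choose.1 then h + idx (κ hp.choose.1) else hp.choose.1.val) else 0
  have hφ : ∀ x y, G.Adj (f x) (f y) → ∀ r, p x y r →
      φ x y = if r.2 = T r.1 then h + idx (κ r.1) else r.1.val := by
    intro x y hxy r hr
    have h1 : ∃ r, p x y r := ⟨r, hr⟩
    have h2 : h1.choose = r := (hF.2.2 x y hxy).unique h1.choose_spec hr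
    simp only [φ, dif_pos h1, h2, if_neg hxy.ne]
  let pos : ℕ → W → ℕ := fun n w => if hn : n < h then
    ((G' ⟨n, hn⟩).symm w - (T ⟨n, hn⟩ + 1)).val else
      (if dn (n - h) w then D - (E (n - h)).dist (R (n - h) w) (u w)
        else D + 1 + (E (n - h)).dist (R (n - h) w) (u w))
  have hpup : ∀ i w, ¬ dn i w → pos (h + i) w = D + 1 + (E i).dist (R i w) (u w) := by
    intro i w hw
    have h1 : ¬ h + i < h := by omega
    simp only [pos, dif_neg h1, Nat.add_sub_cancel_left, if_neg hw]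
  have hpdn : ∀ i w, dn i w → pos (h + i) w = D - (E i).dist (R i w) (u w) := by
    intro i w hw
    have h1 : ¬ h + i < h := by omega
    simp only [pos, dif_neg h1, Nat.add_sub_cancel_left, if_pos hw]
  have hposj : ∀ (j : Fin h) s, pos j.val (F j s) = (s - (T j + 1)).val := by
    intro j s
    simp only [pos, dif_pos j.2]
    rw [hG]
  have hpinj : ∀ (j : Fin h) x y, pos j.val x = pos j.val y → x = y := by
    intro j x y hxy
    simp only [pos, dif_pos j.2] at hxy
    have h1 := ZMod.val_injective L hxy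
    have h2 := sub_left_injective h1
    exact (G' j).symm.injective h2
  have hstep : ∀ (j : Fin h) s, s ≠ T j → pos j.val (F j (s + 1)) = pos j.val (F j s) + 1 := by
    intro j s hs
    rw [hposj, hposj]
    have h1 : s + 1 - (T j + 1) = (s - (T j + 1)) + 1 := by ring
    rw [h1, Euler.val_succ, if_neg]
    intro h2
    have h3 : (((s - (T j + 1)).val + 1 : ℕ) : ZMod L) = 0 := by
      rw [h2, ZMod.natCast_self]
    push_cast at h3
    rw [ZMod.natCast_zmod_val] at h3
    apply hs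
    linear_combination h3
  have hpT : ∀ j, pos (h + idx (κ j)) (F j (T j)) = D + 1 := by
    intro j
    rw [hpup _ _ (hfst j).2, (hfst j).1, (hκ j).2.1, dist_self]
  have hpT1 : ∀ j, pos (h + idx (κ j)) (F j (T j + 1)) = D := by
    intro j
    rw [hpdn _ _ (hsnd j).2, (hsnd j).1, (hκ j).2.2, dist_self, Nat.sub_zero]
  -- the structure of an edge
  have hcase : ∀ x y, (LexG G H f u).Adj x y →
      (∃ (j : Fin h) (s : ZMod L), s ≠ T j ∧ φ x y = j.val ∧
        ((x = F j s ∧ y = F j (s + 1)) ∨ (y = F j s ∧ x = F j (s + 1)))) ∨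
      (∃ j : Fin h, φ x y = h + idx (κ j) ∧ ((x = F j (T j) ∧ y = F j (T j + 1)) ∨
        (y = F j (T j) ∧ x = F j (T j + 1)))) ∨
      (f x = f y ∧ ∃ i, i < q ∧ φ x y = h + i ∧ (E i).Adj (u x) (u y)) := by
    intro x y hxy
    rcases hxy with hxy | ⟨hxy, hH⟩
    · obtain ⟨⟨j, s⟩, hq, -⟩ := hF.2.2 x y hxy
      have h1 := hφ x y hxy (j, s) hq
      simp only at h1 hq
      rw [Sym2.eq_iff] at hq
      have h2 : (x = F j s ∧ y = F j (s + 1)) ∨ (y = F j s ∧ x = F j (s + 1)) := by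
        rcases hq with ⟨a, b⟩ | ⟨a, b⟩
        · exact Or.inl ⟨a.symm, b.symm⟩
        · exact Or.inr ⟨a.symm, b.symm⟩
      by_cases hs : s = T j
      · rw [if_pos hs] at h1
        subst hs
        exact Or.inr (Or.inl ⟨j, h1, h2⟩)
      · rw [if_neg hs] at h1
        exact Or.inl ⟨j, s, hs, h1, h2⟩
    · obtain ⟨h1, h2⟩ := hψ2 _ _ hH
      refine Or.inr (Or.inr ⟨hxy, _, h1, ?_, h2⟩)
      simp only [φ, if_pos hxy]
  -- inner edges
  have hin : ∀ i x y, f x = f y → (E i).Adj (u x) (u y) →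
      R i y = R i x ∧ (dn i x ↔ dn i y) ∧ (E i).Reachable (R i x) (u x) ∧
        ((E i).neighborSet (R i x)).ncard ≤ 1 := by
    intro i x y hxy hE'
    obtain ⟨h1, h2⟩ := hcongr i x y hxy hE'.reachable
    exact ⟨h1.symm, h2, (hRspec i x).1, (hRspec i x).2⟩
  have hTT : ∀ x y z j j', ((x = F j (T j) ∧ y = F j (T j + 1)) ∨
      (y = F j (T j) ∧ x = F j (T j + 1))) → ((x = F j' (T j') ∧ z = F j' (T j' + 1)) ∨
      (z = F j' (T j') ∧ x = F j' (T j' + 1))) → y = z := by
    intro x y z j j' h3 h5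
    by_cases hjj : j = j'
    · subst hjj
      rcases h3 with ⟨a, b⟩ | ⟨a, b⟩ <;> rcases h5 with ⟨c, d⟩ | ⟨c, d⟩
      · rw [b, d]
      · exact absurd ((hF.1 j).1 (a.symm.trans d)).symm (hL1 j)
      · exact absurd ((hF.1 j).1 (b.symm.trans c)) (hL1 j)
      · rw [a, c]
    · obtain ⟨e1, e2, e3⟩ := hT j j' hjj
      obtain ⟨-, e4, -⟩ := hT j' j (Ne.symm hjj)
      rcases h3 with ⟨a, b⟩ | ⟨a, b⟩ <;> rcases h5 with ⟨c, d⟩ | ⟨c, d⟩
      · exact absurd (a.symm.trans c) e1
      · exact absurd (a.symm.trans d) e2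
      · exact absurd (c.symm.trans b) e4
      · exact absurd (b.symm.trans d) e3
  -- an end of a removed edge and an inner edge
  have hBC : ∀ x y z j i, ((x = F j (T j) ∧ y = F j (T j + 1)) ∨
      (y = F j (T j) ∧ x = F j (T j + 1))) → idx (κ j) = i → f x = f z → (E i).Adj (u x) (u z) →
      (pos (h + i) x < pos (h + i) z ∧ pos (h + i) y < pos (h + i) x) ∨
        (pos (h + i) z ≤ pos (h + i) x ∧ pos (h + i) x < pos (h + i) y) := by
    intro x y z j i h1 h2 h3 h4
    obtain ⟨e1, e2, -, -⟩ := hin i x z h3 h4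
    rcases h1 with ⟨rfl, rfl⟩ | ⟨rfl, rfl⟩
    · left
      subst h2
      rw [hpT, hpT1, hpup _ _ (fun h => (hfst j).2 (e2.2 h)), e1, (hfst j).1]
      have h5 : (E (idx (κ j))).dist (κ j) (u z) ≠ 0 := by
        intro h6
        have h8 : (E (idx (κ j))).Adj (κ j) (u z) := by
          have h9 := h4
          rw [(hκ j).2.1] at h9
          exact h9
        have h7 := (Reachable.dist_eq_zero_iff h8.reachable).1 h6
        exact h8.ne h7
      omega
    · right
      subst h2
      rw [hpT, hpT1, hpdn _ _ (e2.1 (hsnd j).2)]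
      omega
  refine ⟨φ, pos, ?_, ?_, ?_, ?_, ?_⟩
  · intro x y hxy
    rcases hxy with hxy | ⟨hxy, hH⟩
    · obtain ⟨r, hr, -⟩ := hF.2.2 x y hxy
      rw [hφ x y hxy r hr, hφ y x hxy.symm r (hr.trans Sym2.eq_swap)]
    · simp only [φ, if_pos hxy, if_pos hxy.symm, hψ1 _ _ hH]
  · intro x y hxy
    rcases hcase x y hxy with ⟨j, s, -, h1, -⟩ | ⟨j, h1, -⟩ | ⟨-, i, hi, h1, -⟩
    · have := j.2; omega
    · have := (hsel.1 _ (hκ j).1).1; omega
    · omega
  · intro x y hxy
    rcases hcase x y hxy with ⟨j, s, hs, h1, h2⟩ | ⟨j, h1, h2⟩ | ⟨hf, i, hi, h1, h2⟩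
    · rw [h1]
      have h3 := hstep j s hs
      rcases h2 with ⟨rfl, rfl⟩ | ⟨rfl, rfl⟩ <;> omega
    · rw [h1]
      have h3 := hpT j
      have h5 := hpT1 j
      rcases h2 with ⟨rfl, rfl⟩ | ⟨rfl, rfl⟩ <;> omega
    · rw [h1]
      obtain ⟨e1, e2, e3, e4⟩ := hin i x y hf h2
      have h3 := dist_ne (hE i) e3 h2
      have h4 := hD i hi (R i x) (u x)
      have h5 := hD i hi (R i x) (u y)
      by_cases hd : dn i x
      · rw [hpdn _ _ hd, hpdn _ _ (e2.1 hd), e1]
        omega
      · rw [hpup _ _ hd, hpup _ _ (fun h => hd (e2.2 h)), e1]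
        omega
  · intro x y z hxy hxz he
    rcases hcase x y hxy with ⟨j, s, hs, h1, h2⟩ | ⟨j, h1, h2⟩ | ⟨hf, i, hi, h1, h2⟩
    · rcases hcase x z hxz with ⟨j', s', hs', h1', h2'⟩ | ⟨j', h1', -⟩ | ⟨-, i', -, h1', -⟩
      · have hjj : j = j' := Fin.ext (by omega)
        subst hjj
        rw [h1]
        have h3 := hstep j s hs
        have h3' := hstep j s' hs'
        intro a b
        apply hpinj j
        rcases h2 with ⟨e1, e2⟩ | ⟨e1, e2⟩ <;> rcases h2' with ⟨e3, e4⟩ | ⟨e3, e4⟩ <;>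
          rw [← e1, ← e2] at h3 <;> rw [← e3, ← e4] at h3' <;> omega
      · have := j.2; omega
      · have := j.2; omega
    · rcases hcase x z hxz with ⟨j', s', hs', h1', h2'⟩ | ⟨j', h1', h2'⟩ | ⟨hf', i', -, h1', h2'⟩
      · have := j'.2; omega
      · intro _ _
        exact hTT x y z j j' h2 h2'
      · intro a b
        have h3 : idx (κ j) = i' := by omega
        have h4 := hBC x y z j i' h2 h3 hf' h2'
        rw [h1, h3] at a b
        omega
    · rcases hcase x z hxz with ⟨j', s', hs', h1', h2'⟩ | ⟨j', h1', h2'⟩ | ⟨hf', i', -, h1', h2'⟩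
      · have := j'.2; omega
      · intro a b
        have h3 : idx (κ j') = i := by omega
        have h4 := hBC x z y j' i h2' h3 hf h2
        rw [h1] at a b
        omega
      · intro a b
        have hii : i' = i := by omega
        subst hii
        rw [h1] at a b
        obtain ⟨e1, e2, e3, e4⟩ := hin i' x y hf h2
        obtain ⟨e1', e2', -, -⟩ := hin i' x z hf' h2'
        have h4 := hD i' hi (R i' x) (u x)
        apply hinj _ _ (hf.symm.trans hf')
        by_cases hd : dn i' x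
        · rw [hpdn _ _ hd, hpdn _ _ (e2.1 hd), e1] at a
          rw [hpdn _ _ hd, hpdn _ _ (e2'.1 hd), e1'] at b
          exact far (hE i') e4 e3 h2 h2' (hsub _ _ _ a) (hsub _ _ _ b)
        · rw [hpup _ _ hd, hpup _ _ (fun h => hd (e2.2 h)), e1] at a
          rw [hpup _ _ hd, hpup _ _ (fun h => hd (e2'.2 h)), e1'] at b
          exact near (hE i') e3 h2 h2' (by omega) (by omega)
  · intro x y z hxy hxz he
    rcases hcase x y hxy with ⟨j, s, hs, h1, h2⟩ | ⟨j, h1, h2⟩ | ⟨hf, i, hi, h1, h2⟩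
    · rcases hcase x z hxz with ⟨j', s', hs', h1', h2'⟩ | ⟨j', h1', -⟩ | ⟨-, i', -, h1', -⟩
      · have hjj : j = j' := Fin.ext (by omega)
        subst hjj
        rw [h1]
        have h3 := hstep j s hs
        have h3' := hstep j s' hs'
        intro a b
        apply hpinj j
        rcases h2 with ⟨e1, e2⟩ | ⟨e1, e2⟩ <;> rcases h2' with ⟨e3, e4⟩ | ⟨e3, e4⟩ <;>
          rw [← e1, ← e2] at h3 <;> rw [← e3, ← e4] at h3' <;> omega
      · have := j.2; omega
      · have := j.2; omega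
    · rcases hcase x z hxz with ⟨j', s', hs', h1', h2'⟩ | ⟨j', h1', h2'⟩ | ⟨hf', i', -, h1', h2'⟩
      · have := j'.2; omega
      · intro _ _
        exact hTT x y z j j' h2 h2'
      · intro a b
        have h3 : idx (κ j) = i' := by omega
        have h4 := hBC x y z j i' h2 h3 hf' h2'
        rw [h1, h3] at a b
        omega
    · rcases hcase x z hxz with ⟨j', s', hs', h1', h2'⟩ | ⟨j', h1', h2'⟩ | ⟨hf', i', -, h1', h2'⟩
      · have := j'.2; omega
      · intro a b
        have h3 : idx (κ j') = i := by omega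
        have h4 := hBC x z y j' i h2' h3 hf h2
        rw [h1] at a b
        omega
      · intro a b
        have hii : i' = i := by omega
        subst hii
        rw [h1] at a b
        obtain ⟨e1, e2, e3, e4⟩ := hin i' x y hf h2
        obtain ⟨e1', e2', -, -⟩ := hin i' x z hf' h2'
        have h4 := hD i' hi (R i' x) (u x)
        have h5 := hD i' hi (R i' x) (u y)
        have h6 := hD i' hi (R i' x) (u z)
        apply hinj _ _ (hf.symm.trans hf')
        by_cases hd : dn i' x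
        · rw [hpdn _ _ hd, hpdn _ _ (e2.1 hd), e1] at a
          rw [hpdn _ _ hd, hpdn _ _ (e2'.1 hd), e1'] at b
          exact near (hE i') e3 h2 h2' (hsub _ _ _ a).le (hsub _ _ _ b).le
        · rw [hpup _ _ hd, hpup _ _ (fun h => hd (e2.2 h)), e1] at a
          rw [hpup _ _ hd, hpup _ _ (fun h => hd (e2'.2 h)), e1'] at b
          exact far (hE i') e4 e3 h2 h2' (by omega) (by omega)

end Pool.Agent.X76.Lex
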