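import Pool.Agent.H79.LA.Y423_LA_Long
import Pool.Agent.H79.LA.W111_LAR_Top
import Pool.Agent.H79.LA.W111_LAR_Odd

set_option autoImplicit false

/-!
Distribution of the two-factors of the factors into classes.
-/

namespace Pool.Agent.Y423.LA

open SimpleGraph Pool.Agent.W111.LAR Finset H931R3.LA

theorem classes_fin (n : ℕ) (k : Fin n → ℕ) (q t : ℕ) (hk : ∀ i, k i ≤ q) (ht : t * q ≤ ∑ i, k i) :
    ∃ cl : Fin n → ℕ → ℕ, (∀ i, ∀ l < k i, cl i l < q) ∧
      (∀ i, ∀ l < k i, ∀ l' < k i, cl i l = cl i l' → l = l') ∧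
      ∀ c < q, t ≤ (univ.filter (fun i => ∃ l < k i, cl i l = c)).card := by
  let s : Fin n → ℕ := fun i => ∑ j : Fin i.1, k (Fin.castLE i.2.le j)
  refine ⟨fun i l => (s i + l) % q, ?_, ?_, ?_⟩
  · intro i l hl
    have := hk i
    exact Nat.mod_lt _ (by omega)
  · intro i l hl l' hl' h
    have h1 := hk i
    have h2 : s i + l ≡ s i + l' [MOD q] := h
    have h3 := Nat.ModEq.add_left_cancel' _ h2
    unfold Nat.ModEq at h3
    rwa [Nat.mod_eq_of_lt (by omega), Nat.mod_eq_of_lt (by omega)] at h3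
  · intro c hc
    have hx : ∀ r : Fin t, c + q * r.1 < ∑ i, k i := by
      intro r
      have h1 : q * (r.1 + 1) ≤ q * t := Nat.mul_le_mul_left q r.2
      rw [mul_comm t q] at ht
      rw [mul_add, mul_one] at h1
      omega
    let y : (r : Fin t) → (i : Fin n) × Fin (k i) := fun r =>
      finSigmaFinEquiv.symm ⟨c + q * r.1, hx r⟩
    have hy : ∀ r, s (y r).1 + ((y r).2 : ℕ) = c + q * r.1 := by
      intro r
      have h1 := finSigmaFinEquiv_apply (y r)
      rw [show finSigmaFinEquiv (y r) = ⟨c + q * r.1, hx r⟩ from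
        Equiv.apply_symm_apply _ _] at h1
      exact h1.symm
    have hinj : Function.Injective (fun r => (y r).1) := by
      have aux : ∀ r r' : Fin t, r.1 < r'.1 → (y r).1 ≠ (y r').1 := by
        intro r r' hlt heq
        have h1 := hy r
        have h2 := hy r'
        have hs : s (y r).1 = s (y r').1 := congrArg s heq
        have h3 : q * (r.1 + 1) ≤ q * r'.1 := Nat.mul_le_mul_left q hlt
        rw [mul_add, mul_one] at h3
        have h4 : ((y r').2 : ℕ) < q := lt_of_lt_of_le (y r').2.2 (hk _)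
        omega
      intro r r' h
      rcases lt_trichotomy r.1 r'.1 with h1 | h1 | h1
      · exact absurd h (aux r r' h1)
      · exact Fin.ext h1
      · exact absurd h.symm (aux r' r h1)
    have h1 := Finset.card_le_card_of_injOn (s := (univ : Finset (Fin t)))
      (t := univ.filter (fun i => ∃ l < k i, (s i + l) % q = c)) (fun r => (y r).1) (by
        intro r _
        rw [mem_coe, mem_filter]
        refine ⟨mem_univ _, (y r).2, (y r).2.2, ?_⟩
        rw [hy r, Nat.add_mul_mod_self_left, Nat.mod_eq_of_lt hc]) hinj.injOn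
    rwa [card_univ, Fintype.card_fin] at h1

open Classical in
theorem classes {ι : Type} [Fintype ι] (k : ι → ℕ) (q t : ℕ) (hk : ∀ i, k i ≤ q)
    (ht : t * q ≤ ∑ i, k i) :
    ∃ cl : ι → ℕ → ℕ, (∀ i, ∀ l < k i, cl i l < q) ∧
      (∀ i, ∀ l < k i, ∀ l' < k i, cl i l = cl i l' → l = l') ∧
      ∀ c < q, t ≤ (univ.filter (fun i => ∃ l < k i, cl i l = c)).card := by
  let e := Fintype.equivFin ι
  obtain ⟨cl, h1, h2, h3⟩ := classes_fin _ (fun i => k (e.symm i)) q t (fun i => hk _) (by
    rw [Equiv.sum_comp e.symm k]; exact ht)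
  refine ⟨fun i l => cl (e i) l, ?_, ?_, ?_⟩
  · intro i l hl
    exact h1 (e i) l (by rwa [e.symm_apply_apply])
  · intro i l hl l' hl' h
    exact h2 (e i) l (by rwa [e.symm_apply_apply]) l' (by rwa [e.symm_apply_apply]) h
  · intro c hc
    refine (h3 c hc).trans (le_of_eq ?_)
    refine card_equiv e.symm (fun i => ?_)
    simp only [mem_filter, mem_univ, true_and, e.apply_symm_apply]

theorem two_factors {V : Type} [Finite V] (G : SimpleGraph V) (k : ℕ)
    (hdeg : ∀ v, (G.neighborSet v).ncard = 2 * k) :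
    ∃ H : Fin k → SimpleGraph V, (∀ i v, ((H i).neighborSet v).ncard = 2) ∧
      (⨆ i, H i) = G := by
  obtain ⟨H, h1, h2⟩ := decomp G k (fun v => (hdeg v).le)
  refine ⟨H, ?_, h2⟩
  intro i v
  have h3 : (G.neighborSet v).ncard ≤ ∑ i, ((H i).neighborSet v).ncard := by
    have : G.neighborSet v = ⋃ i, (H i).neighborSet v := by
      ext u
      rw [← h2]
      simp [iSup_adj]
    rw [this]
    exact Set.ncard_iUnion_le_of_fintype _
  by_contra hne
  have h4 : ((H i).neighborSet v).ncard < 2 := lt_of_le_of_ne (h1 i v) hne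
  have h5 : ∑ i, ((H i).neighborSet v).ncard < ∑ _i : Fin k, 2 :=
    sum_lt_sum (fun j _ => h1 j v) ⟨i, mem_univ _, h4⟩
  rw [sum_const, card_univ, Fintype.card_fin, smul_eq_mul, mul_comm] at h5
  rw [hdeg v] at h3
  omega

theorem girth_size {V : Type} [Finite V] {G H : SimpleGraph V} (hHG : H ≤ G) (g : ℕ)
    (hg : ∀ (v : V) (c : G.Walk v v), c.IsCycle → g ≤ c.length)
    (hH : ∀ v, (H.neighborSet v).ncard = 2) (v : V) : g ≤ csize H v := by
  obtain ⟨w, c, hc, hlen⟩ := exists_cycle (cyc_of_two hH v)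
  have h2 := hg w (c.mapLe hHG) (hc.mapLe hHG)
  rw [Walk.length_mapLe] at h2
  omega

/-- Balanced products are unions of graphs with long cycles. -/
theorem long_balanced {ι : Type} [Finite ι] [Fintype ι] {V : ι → Type} [∀ i, Finite (V i)]
    (G : ∀ i, SimpleGraph (V i)) (k : ι → ℕ)
    (hdeg : ∀ i v, ((G i).neighborSet v).ncard = 2 * k i) (g : ℕ) (hg1 : 1 ≤ g)
    (hg : ∀ i (v : V i) (c : (G i).Walk v v), c.IsCycle → g ≤ c.length) (q j : ℕ)
    (hk : ∀ i, k i ≤ q) (hq : 2 ^ j * q ≤ ∑ i, k i) :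
    Long (piG G) (∑ i, k i) (g ^ 2 ^ j) := by
  classical
  have h0 := fun i => two_factors (G i) (k i) (hdeg i)
  choose F F1 F2 using h0
  obtain ⟨cl, c1, c2, c3⟩ := classes k q (2 ^ j) hk hq
  let S : Fin q → Finset ι := fun c => univ.filter (fun i => ∃ l < k i, cl i l = c.1)
  let Fc : Fin q → ∀ i, SimpleGraph (V i) := fun c i =>
    ⨆ l : Fin (k i), if cl i l.1 = c.1 then F i l else ⊥
  have key : ∀ c i (l : Fin (k i)), cl i l.1 = c.1 → Fc c i = F i l := by
    intro c i l hl
    ext x y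
    simp only [Fc, iSup_adj]
    constructor
    · rintro ⟨l', hl'⟩
      by_cases h : cl i l'.1 = c.1
      · rw [if_pos h] at hl'
        have : l' = l := Fin.ext (c2 i _ l'.2 _ l.2 (h.trans hl.symm))
        rwa [this] at hl'
      · rw [if_neg h] at hl'
        exact hl'.elim
    · intro h
      refine ⟨l, ?_⟩
      rw [if_pos hl]
      exact h
  have kbot : ∀ c i, i ∉ S c → Fc c i = ⊥ := by
    intro c i hi
    show (⨆ l : Fin (k i), if cl i l.1 = c.1 then F i l else ⊥) = ⊥
    rw [iSup_eq_bot]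
    intro l
    rw [if_neg]
    intro h
    exact hi (mem_filter.2 ⟨mem_univ _, l.1, l.2, h⟩)
  have hlong : ∀ c : Fin q, Long (piG (Fc c)) (S c).card (g ^ 2 ^ j) := by
    intro c
    refine long_pi g hg1 j ι V (Fc c) (S c) (c3 c.1 c.2) (kbot c) ?_ ?_
    · intro i hi v
      obtain ⟨-, l, hl, hl'⟩ := mem_filter.1 hi
      rw [key c i ⟨l, hl⟩ hl']
      exact F1 i _ v
    · intro i hi v
      obtain ⟨-, l, hl, hl'⟩ := mem_filter.1 hi
      rw [key c i ⟨l, hl⟩ hl']
      refine girth_size ?_ g (hg i) (F1 i _) v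
      rw [← F2 i]
      exact le_iSup (F i) _
  have hsum := Long.iSup hlong
  have e1 : (⨆ c, piG (Fc c)) = piG G := by
    rw [piG_iSup]
    congr 1
    funext i
    rw [← F2 i]
    ext x y
    simp only [Fc, iSup_adj]
    constructor
    · rintro ⟨c, l, hl⟩
      by_cases h : cl i l.1 = c.1
      · rw [if_pos h] at hl
        exact ⟨l, hl⟩
      · rw [if_neg h] at hl
        exact hl.elim
    · rintro ⟨l, hl⟩
      refine ⟨⟨cl i l.1, c1 i _ l.2⟩, l, ?_⟩
      rw [if_pos rfl]
      exact hl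
  have e2 : ∑ c, (S c).card = ∑ i, k i := by
    have h1 : ∀ c, (S c).card = ∑ i, if (∃ l < k i, cl i l = c.1) then 1 else 0 := by
      intro c
      rw [card_filter]
    rw [sum_congr rfl (fun c _ => h1 c), sum_comm]
    refine sum_congr rfl fun i _ => ?_
    rw [← card_filter]
    have h2 : (univ.filter (fun c : Fin q => ∃ l < k i, cl i l = c.1)) =
        (univ : Finset (Fin (k i))).map ⟨fun l => ⟨cl i l.1, c1 i _ l.2⟩, fun l l' h =>
          Fin.ext (c2 i _ l.2 _ l'.2 (Fin.ext_iff.1 h))⟩ := by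
      ext c
      simp only [mem_filter, mem_univ, true_and, mem_map, Function.Embedding.coeFn_mk]
      constructor
      · rintro ⟨l, hl, h⟩
        exact ⟨⟨l, hl⟩, Fin.ext h⟩
      · rintro ⟨l, rfl⟩
        exact ⟨l.1, l.2, rfl⟩
    rw [h2, card_map, card_univ, Fintype.card_fin]
  rwa [e1, e2] at hsum

/-- Degrees in products. -/
theorem piG_deg {ι : Type} [Fintype ι] {V : ι → Type} [∀ i, Finite (V i)]
    (G : ∀ i, SimpleGraph (V i)) (x : ∀ i, V i) :
    ((piG G).neighborSet x).ncard = ∑ i, ((G i).neighborSet (x i)).ncard := by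
  classical
  have h1 : (piG G).neighborSet x =
      ⋃ i, (fun u => Function.update x i u) '' ((G i).neighborSet (x i)) := by
    ext y
    simp only [Set.mem_iUnion, Set.mem_image]
    constructor
    · rintro ⟨i, h2, h3⟩
      refine ⟨i, y i, h2, ?_⟩
      funext j
      by_cases hj : j = i
      · subst hj; simp
      · rw [Function.update_of_ne hj, h3 j hj]
    · rintro ⟨i, u, hu, rfl⟩
      refine ⟨i, ?_, fun j hj => ?_⟩
      · rw [Function.update_self]; exact hu
      · rw [Function.update_of_ne hj]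
  rw [h1, Set.ncard_iUnion_of_finite (fun i => Set.toFinite _), finsum_eq_sum_of_fintype]
  · refine sum_congr rfl fun i _ => ?_
    exact Set.ncard_image_of_injective _ (Function.update_injective x i)
  · intro i i' hne
    rw [Function.onFun, Set.disjoint_left]
    rintro _ ⟨u, hu, rfl⟩ ⟨u', hu', h⟩
    have h2 := congrFun h i
    simp only at h2
    rw [Function.update_self, Function.update_of_ne hne] at h2
    rw [← h2] at hu
    exact (hu : (G i).Adj (x i) (x i)).ne rfl

theorem cov_of_long {V : Type} [Finite V] {G : SimpleGraph V} {K L : ℕ} (h : Long G K L)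
    (hL : 2 * K ≤ L) : Cov G (K + 1) := by
  obtain ⟨κ, i, H, h1, h2, h3, h4⟩ := h
  have := cov_small H K h1.le (fun i v => (h2 i v).le) (fun i v _ => hL.trans (h3 i v))
  rwa [h4, h1] at this

end Pool.Agent.Y423.LA
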