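import Pool.Agent.H79.LA.Y423_LA_Ori

set_option autoImplicit false

/-!
Kotzig's decomposition: the Cartesian product of two graphs of degree two is the union of two
graphs of degree two whose cycles are as long as possible.
-/

namespace Pool.Agent.Y423.LA

open SimpleGraph Pool.Agent.W111.LAR

theorem two_of_four {α : Type} (u1 u2 u3 u4 : α) (h12 : u1 ≠ u2) (h13 : u1 ≠ u3) (h14 : u1 ≠ u4)
    (h23 : u2 ≠ u3) (h24 : u2 ≠ u4) (h34 : u3 ≠ u4) (p q r s : Prop) (hpq : p → ¬ q)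
    (hrs : r → ¬ s) (hpr : p → ¬ r) (hqs : q → ¬ s) (S : Set α)
    (hS : ∀ w, w ∈ S ↔ (w = u1 ∧ ¬ p ∧ ¬ q) ∨ (w = u2 ∧ ¬ r ∧ ¬ s) ∨ (w = u3 ∧ (p ∨ r)) ∨
      (w = u4 ∧ (q ∨ s))) : S.ncard = 2 := by
  rw [Set.ncard_eq_two]
  by_cases hp : p
  · have hq := hpq hp
    have hr := hpr hp
    by_cases hs : s
    · refine ⟨u3, u4, h34, ?_⟩
      ext w
      rw [hS]
      simp [hp, hq, hr, hs]
    · refine ⟨u2, u3, h23, ?_⟩
      ext w
      rw [hS]
      simp [hp, hq, hr, hs]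
  · by_cases hq : q
    · have hs := hqs hq
      by_cases hr : r
      · refine ⟨u3, u4, h34, ?_⟩
        ext w
        rw [hS]
        simp [hp, hq, hr, hs]
      · refine ⟨u2, u4, h24, ?_⟩
        ext w
        rw [hS]
        simp [hp, hq, hr, hs]
    · by_cases hr : r
      · have hs := hrs hr
        refine ⟨u1, u3, h13, ?_⟩
        ext w
        rw [hS]
        simp [hp, hq, hr, hs]
      · by_cases hs : s
        · refine ⟨u1, u4, h14, ?_⟩
          ext w
          rw [hS]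
          simp [hp, hq, hr, hs]
        · refine ⟨u1, u2, h12, ?_⟩
          ext w
          rw [hS]
          simp [hp, hq, hr, hs]

section

variable {X Y : Type} {A : SimpleGraph X} {B : SimpleGraph Y}

theorem Ori.s_ne (o : Ori A) (x : X) : o.s x ≠ x := fun h => by
  have h1 := o.s_ix x
  rw [h] at h1
  have h3 := o.three x
  have h4 := o.lt x
  rcases lt_or_eq_of_le (show o.ix x + 1 ≤ csize A x by omega) with h5 | h5
  · rw [Nat.mod_eq_of_lt h5] at h1; omega
  · rw [h5, Nat.mod_self] at h1; omega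

theorem Ori.s_inj (o : Ori A) {x y : X} (h : o.s x = o.s y) : x = y := by
  rw [← o.ps x, h, o.ps]

theorem Ori.p_size (o : Ori A) (x : X) : csize A (o.p x) = csize A x := by
  have := o.s_size (o.p x)
  rw [o.sp] at this
  exact this.symm

theorem Ori.p_ix (o : Ori A) (x : X) : o.ix (o.p x) = (o.ix x + csize A x - 1) % csize A x := by
  have h1 := o.s_ix (o.p x)
  rw [o.sp, o.p_size] at h1
  have h2 := o.lt (o.p x)
  rw [o.p_size] at h2
  rcases lt_or_eq_of_le (show o.ix (o.p x) + 1 ≤ csize A x by omega) with h5 | h5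
  · rw [Nat.mod_eq_of_lt h5] at h1
    rw [h1, succ_mod_pred h2]
  · rw [h5, Nat.mod_self] at h1
    rw [h1, zero_mod_pred (by omega)]
    omega

theorem Ori.p_ne (o : Ori A) (x : X) : o.p x ≠ x := fun h => by
  have := o.s_ne (o.p x)
  rw [o.sp] at this
  exact this h.symm

theorem Ori.s_ne_p (o : Ori A) (x : X) : o.s x ≠ o.p x := fun h => by
  have h1 := o.s_ix x
  rw [h, o.p_ix] at h1
  have h3 := o.three x
  have h4 := o.lt x
  rcases Nat.eq_zero_or_pos (o.ix x) with h0 | h0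
  · rw [h0, zero_mod_pred (by omega), Nat.mod_eq_of_lt (by omega)] at h1
    omega
  · rw [show o.ix x + csize A x - 1 = o.ix x - 1 + csize A x by omega, Nat.add_mod_right,
      Nat.mod_eq_of_lt (by omega)] at h1
    rcases lt_or_eq_of_le (show o.ix x + 1 ≤ csize A x by omega) with h5 | h5
    · rw [Nat.mod_eq_of_lt h5] at h1; omega
    · rw [h5, Nat.mod_self] at h1; omega

/-- The oriented relation. -/
def hrel (oA : Ori A) (oB : Ori B) (T : ℕ → ℕ → ℕ → ℕ → Prop) (u v : X × Y) : Prop :=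
  (u.2 = v.2 ∧ v.1 = oA.s u.1 ∧ ¬ T (csize A u.1) (csize B u.2) (oA.ix u.1) (oB.ix u.2) ∧
    ¬ T (csize A u.1) (csize B u.2) (oA.ix u.1) ((oB.ix u.2 + csize B u.2 - 1) % csize B u.2)) ∨
  (u.1 = v.1 ∧ v.2 = oB.s u.2 ∧ (T (csize A u.1) (csize B u.2) (oA.ix u.1) (oB.ix u.2) ∨
    T (csize A u.1) (csize B u.2) ((oA.ix u.1 + csize A u.1 - 1) % csize A u.1) (oB.ix u.2)))

/-- One half. -/
def half (oA : Ori A) (oB : Ori B) (T : ℕ → ℕ → ℕ → ℕ → Prop) : SimpleGraph (X × Y) :=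
  fromRel (hrel oA oB T)

theorem hrel_ne {oA : Ori A} {oB : Ori B} {T : ℕ → ℕ → ℕ → ℕ → Prop} {u v : X × Y}
    (h : hrel oA oB T u v) : u ≠ v := by
  rintro rfl
  rcases h with h | h
  · exact oA.s_ne _ h.2.1.symm
  · exact oB.s_ne _ h.2.1.symm

theorem half_adj {oA : Ori A} {oB : Ori B} {T : ℕ → ℕ → ℕ → ℕ → Prop} {u v : X × Y} :
    (half oA oB T).Adj u v ↔ hrel oA oB T u v ∨ hrel oA oB T v u := by
  unfold half
  rw [fromRel_adj]
  constructor
  · exact fun h => h.2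
  · rintro (h | h)
    · exact ⟨hrel_ne h, Or.inl h⟩
    · exact ⟨(hrel_ne h).symm, Or.inr h⟩

theorem half_deg (oA : Ori A) (oB : Ori B) (T : ℕ → ℕ → ℕ → ℕ → Prop)
    (hT : ∀ a b, 3 ≤ a → 3 ≤ b → Good a b (T a b)) (x : X × Y) :
    ((half oA oB T).neighborSet x).ncard = 2 := by
  obtain ⟨x, y⟩ := x
  have ha := oA.three x
  have hb := oB.three y
  obtain ⟨g1, g2, -, -⟩ := hT _ _ ha hb
  have hi := oA.lt x
  have hj := oB.lt y
  have hi' : (oA.ix x + csize A x - 1) % csize A x < csize A x := Nat.mod_lt _ (by omega)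
  have hj' : (oB.ix y + csize B y - 1) % csize B y < csize B y := Nat.mod_lt _ (by omega)
  have back : ∀ n k, k < n → ((k + n - 1) % n + 1) % n = k := by
    intro n k hk
    rcases Nat.eq_zero_or_pos k with h0 | h0
    · subst h0
      rw [zero_mod_pred hk, show n - 1 + 1 = n by omega, Nat.mod_self]
    · obtain ⟨k, rfl⟩ : ∃ k', k = k' + 1 := ⟨k - 1, by omega⟩
      rw [succ_mod_pred (by omega), Nat.mod_eq_of_lt hk]
  refine two_of_four (oA.s x, y) (oA.p x, y) (x, oB.s y) (x, oB.p y) ?_ ?_ ?_ ?_ ?_ ?_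
    (T (csize A x) (csize B y) (oA.ix x) (oB.ix y))
    (T (csize A x) (csize B y) (oA.ix x) ((oB.ix y + csize B y - 1) % csize B y))
    (T (csize A x) (csize B y) ((oA.ix x + csize A x - 1) % csize A x) (oB.ix y))
    (T (csize A x) (csize B y) ((oA.ix x + csize A x - 1) % csize A x)
      ((oB.ix y + csize B y - 1) % csize B y)) ?_ ?_ ?_ ?_ _ ?_
  · exact fun h => oA.s_ne_p x (Prod.ext_iff.1 h).1
  · exact fun h => oA.s_ne x (Prod.ext_iff.1 h).1
  · exact fun h => oA.s_ne x (Prod.ext_iff.1 h).1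
  · exact fun h => oA.p_ne x (Prod.ext_iff.1 h).1
  · exact fun h => oA.p_ne x (Prod.ext_iff.1 h).1
  · exact fun h => oB.s_ne_p y (Prod.ext_iff.1 h).2
  · intro h1 h2
    have := g1 _ hi _ hj' h2
    rw [back _ _ hj] at this
    exact this h1
  · intro h1 h2
    have := g1 _ hi' _ hj' h2
    rw [back _ _ hj] at this
    exact this h1
  · intro h1 h2
    have := g2 _ hi' _ hj h2
    rw [back _ _ hi] at this
    exact this h1
  · intro h1 h2
    have := g2 _ hi' _ hj' h2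
    rw [back _ _ hi] at this
    exact this h1
  · rintro ⟨w, z⟩
    rw [mem_neighborSet, half_adj]
    unfold hrel
    simp only [Prod.mk.injEq]
    constructor
    · rintro ((⟨h1, h2, h3, h4⟩ | ⟨h1, h2, h3⟩) | (⟨h1, h2, h3, h4⟩ | ⟨h1, h2, h3⟩))
      · exact Or.inl ⟨⟨h2, h1.symm⟩, h3, h4⟩
      · exact Or.inr (Or.inr (Or.inl ⟨⟨h1.symm, h2⟩, h3⟩))
      · right; left
        have e : w = oA.p x := by rw [h2, oA.ps]
        subst h1
        rw [e, oA.p_ix, oA.p_size] at h3 h4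
        exact ⟨⟨e, rfl⟩, h3, h4⟩
      · right; right; right
        have e : z = oB.p y := by rw [h2, oB.ps]
        subst h1
        rw [e, oB.p_ix, oB.p_size] at h3
        exact ⟨⟨rfl, e⟩, h3⟩
    · rintro (⟨⟨h1, h2⟩, h3, h4⟩ | ⟨⟨h1, h2⟩, h3, h4⟩ | ⟨⟨h1, h2⟩, h3⟩ | ⟨⟨h1, h2⟩, h3⟩)
      · exact Or.inl (Or.inl ⟨h2.symm, h1, h3, h4⟩)
      · refine Or.inr (Or.inl ⟨h2, ?_, ?_⟩)
        · rw [h1, oA.sp]
        · rw [h1, h2, oA.p_ix, oA.p_size]
          exact ⟨h3, h4⟩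
      · exact Or.inl (Or.inr ⟨h1.symm, h2, h3⟩)
      · refine Or.inr (Or.inr ⟨h1, ?_, ?_⟩)
        · rw [h2, oB.sp]
        · rw [h1, h2, oB.p_ix, oB.p_size]
          exact h3

theorem half_size [Finite X] [Finite Y] (oA : Ori A) (oB : Ori B) (T : ℕ → ℕ → ℕ → ℕ → Prop)
    (hT : ∀ a b, 3 ≤ a → 3 ≤ b → Good a b (T a b)) (x : X × Y) :
    csize A x.1 * csize B x.2 ≤ csize (half oA oB T) x := by
  obtain ⟨x, y⟩ := x
  have ha := oA.three x
  have hb := oB.three y
  obtain ⟨-, -, g3, -⟩ := hT _ _ ha hb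
  have key := g3 _ (fun i j => (half oA oB T).connectedComponentMk (oA.f x i, oB.f y j))
    (fun i j => by simp only [oA.f_per]) (fun i j => by simp only [oB.f_per]) ?_ ?_
  · unfold csize
    rw [← Set.ncard_prod]
    refine Set.ncard_le_ncard ?_ (Set.toFinite _)
    rintro ⟨u, v⟩ ⟨hu, hv⟩
    obtain ⟨i, hi, hiu⟩ := (oA.f_reach x u).1 hu
    obtain ⟨j, hj, hjv⟩ := (oB.f_reach y v).1 hv
    obtain ⟨i0, hi0, hix⟩ := (oA.f_reach x x).1 (Reachable.refl _)
    obtain ⟨j0, hj0, hjy⟩ := (oB.f_reach y y).1 (Reachable.refl _)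
    have h1 := (key i0 hi0 j0 hj0).trans (key i hi j hj).symm
    have h2 := ConnectedComponent.exact h1
    rw [hix, hjy, hiu, hjv] at h2
    exact h2
  · intro i hi j hj h1 h2
    refine ConnectedComponent.sound (Adj.reachable ?_)
    rw [half_adj]
    refine Or.inl (Or.inl ⟨rfl, (oA.f_s x i).symm, ?_, ?_⟩)
    · simp only [oA.f_size, oB.f_size, oA.f_ix, oB.f_ix, Nat.mod_eq_of_lt hi, Nat.mod_eq_of_lt hj]
      exact h1
    · simp only [oA.f_size, oB.f_size, oA.f_ix, oB.f_ix, Nat.mod_eq_of_lt hi, Nat.mod_eq_of_lt hj]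
      exact h2
  · intro i hi j hj h1
    refine ConnectedComponent.sound (Adj.reachable ?_)
    rw [half_adj]
    refine Or.inl (Or.inr ⟨rfl, (oB.f_s y j).symm, ?_⟩)
    simp only [oA.f_size, oB.f_size, oA.f_ix, oB.f_ix, Nat.mod_eq_of_lt hi, Nat.mod_eq_of_lt hj]
    exact h1

theorem half_sup (oA : Ori A) (oB : Ori B) (T : ℕ → ℕ → ℕ → ℕ → Prop) (u v : X × Y) :
    (A.boxProd B).Adj u v ↔ (half oA oB T).Adj u v ∨
      (half oB oA (fun b a j i => T a b i j)).Adj u.swap v.swap := by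
  rw [boxProd_adj, half_adj, half_adj, oA.adj, oB.adj]
  constructor
  · rintro (⟨h1 | h1, h2⟩ | ⟨h1 | h1, h2⟩)
    · by_cases h : T (csize A u.1) (csize B u.2) (oA.ix u.1) (oB.ix u.2) ∨
        T (csize A u.1) (csize B u.2) (oA.ix u.1) ((oB.ix u.2 + csize B u.2 - 1) % csize B u.2)
      · exact Or.inr (Or.inl (Or.inr ⟨h2, h1, h⟩))
      · exact Or.inl (Or.inl (Or.inl ⟨h2, h1, not_or.1 h⟩))
    · by_cases h : T (csize A v.1) (csize B v.2) (oA.ix v.1) (oB.ix v.2) ∨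
        T (csize A v.1) (csize B v.2) (oA.ix v.1) ((oB.ix v.2 + csize B v.2 - 1) % csize B v.2)
      · exact Or.inr (Or.inr (Or.inr ⟨h2.symm, h1, h⟩))
      · exact Or.inl (Or.inr (Or.inl ⟨h2.symm, h1, not_or.1 h⟩))
    · by_cases h : T (csize A u.1) (csize B u.2) (oA.ix u.1) (oB.ix u.2) ∨
        T (csize A u.1) (csize B u.2) ((oA.ix u.1 + csize A u.1 - 1) % csize A u.1) (oB.ix u.2)
      · exact Or.inl (Or.inl (Or.inr ⟨h2, h1, h⟩))
      · exact Or.inr (Or.inl (Or.inl ⟨h2, h1, not_or.1 h⟩))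
    · by_cases h : T (csize A v.1) (csize B v.2) (oA.ix v.1) (oB.ix v.2) ∨
        T (csize A v.1) (csize B v.2) ((oA.ix v.1 + csize A v.1 - 1) % csize A v.1) (oB.ix v.2)
      · exact Or.inl (Or.inr (Or.inr ⟨h2.symm, h1, h⟩))
      · exact Or.inr (Or.inr (Or.inl ⟨h2.symm, h1, not_or.1 h⟩))
  · rintro (((⟨h1, h2, -⟩ | ⟨h1, h2, -⟩) | (⟨h1, h2, -⟩ | ⟨h1, h2, -⟩)) |
      ((⟨h1, h2, -⟩ | ⟨h1, h2, -⟩) | (⟨h1, h2, -⟩ | ⟨h1, h2, -⟩)))
    · exact Or.inl ⟨Or.inl h2, h1⟩
    · exact Or.inr ⟨Or.inl h2, h1⟩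
    · exact Or.inl ⟨Or.inr h2, h1.symm⟩
    · exact Or.inr ⟨Or.inr h2, h1.symm⟩
    · exact Or.inr ⟨Or.inl h2, h1⟩
    · exact Or.inl ⟨Or.inl h2, h1⟩
    · exact Or.inr ⟨Or.inr h2, h1.symm⟩
    · exact Or.inl ⟨Or.inr h2, h1.symm⟩

end

/-- Transport of degrees. -/
theorem deg_comap {V W : Type} (e : V ≃ W) (H : SimpleGraph W) (v : V) :
    ((H.comap e).neighborSet v).ncard = (H.neighborSet (e v)).ncard := by
  have : e '' ((H.comap e).neighborSet v) = H.neighborSet (e v) := by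
    ext w
    constructor
    · rintro ⟨u, hu, rfl⟩
      exact hu
    · intro hw
      refine ⟨e.symm w, ?_, e.apply_symm_apply w⟩
      show H.Adj (e v) (e (e.symm w))
      rw [e.apply_symm_apply]
      exact hw
  rw [← this, Set.ncard_image_of_injective _ e.injective]

/-- Transport of component sizes. -/
theorem size_comap {V W : Type} (e : V ≃ W) (H : SimpleGraph W) (v : V) :
    csize (H.comap e) v = csize H (e v) := by
  unfold csize
  have : e '' {w | (H.comap e).Reachable v w} = {w | H.Reachable (e v) w} := by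
    ext w
    constructor
    · rintro ⟨u, hu, rfl⟩
      exact Reachable.map (Iso.comap e H).toHom hu
    · intro hw
      refine ⟨e.symm w, ?_, e.apply_symm_apply w⟩
      have := Reachable.map (Iso.comap e H).symm.toHom hw
      simpa using this
  rw [← this, Set.ncard_image_of_injective _ e.injective]

/-- Kotzig's theorem for products of graphs of degree two. -/
theorem kotzig {X Y : Type} [Finite X] [Finite Y] (A : SimpleGraph X) (B : SimpleGraph Y)
    (hA : ∀ x, (A.neighborSet x).ncard = 2) (hB : ∀ y, (B.neighborSet y).ncard = 2) :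
    ∃ P Q : SimpleGraph (X × Y), P ⊔ Q = A.boxProd B ∧
      (∀ x, (P.neighborSet x).ncard = 2) ∧ (∀ x, (Q.neighborSet x).ncard = 2) ∧
      (∀ x, csize A x.1 * csize B x.2 ≤ csize P x) ∧
      (∀ x, csize A x.1 * csize B x.2 ≤ csize Q x) := by
  obtain ⟨oA⟩ := exists_ori A hA
  obtain ⟨oB⟩ := exists_ori B hB
  have hg : ∀ a b, ∃ T, 3 ≤ a → 3 ≤ b → Good a b T := by
    intro a b
    by_cases h : 3 ≤ a ∧ 3 ≤ b
    · obtain ⟨T, hT⟩ := exists_good a b h.1 h.2
      exact ⟨T, fun _ _ => hT⟩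
    · exact ⟨fun _ _ => True, fun h1 h2 => absurd ⟨h1, h2⟩ h⟩
  choose T hT using hg
  have hT' : ∀ b a, 3 ≤ b → 3 ≤ a → Good b a (fun j i => T a b i j) :=
    fun b a hb ha => (hT a b ha hb).symm
  refine ⟨half oA oB T, (half oB oA (fun b a j i => T a b i j)).comap (Equiv.prodComm X Y),
    ?_, half_deg oA oB T hT, ?_, half_size oA oB T hT, ?_⟩
  · ext u v
    rw [half_sup oA oB T]
    rfl
  · intro x
    rw [deg_comap]
    exact half_deg oB oA (fun b a j i => T a b i j) hT' (x.2, x.1)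
  · intro x
    rw [size_comap, mul_comm]
    exact half_size oB oA (fun b a j i => T a b i j) hT' (x.2, x.1)

end Pool.Agent.Y423.LA
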