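import Pool.Agent.H79.LA.W111_LAR_Sep
import Pool.Agent.H79.LA.Y423_LA_Pat3

set_option autoImplicit false

/-!
Orientations of graphs all of whose degrees are two.
-/

namespace Pool.Agent.Y423.LA

open SimpleGraph Pool.Agent.W111.LAR

/-- A cyclic orientation with positions. -/
structure Ori {X : Type} (A : SimpleGraph X) where
  s : X → X
  p : X → X
  ix : X → ℕ
  f : X → ℕ → X
  three : ∀ x, 3 ≤ csize A x
  lt : ∀ x, ix x < csize A x
  adj : ∀ x y, A.Adj x y ↔ y = s x ∨ x = s y
  sp : ∀ x, s (p x) = x
  ps : ∀ x, p (s x) = x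
  s_ix : ∀ x, ix (s x) = (ix x + 1) % csize A x
  s_size : ∀ x, csize A (s x) = csize A x
  f_s : ∀ x a, s (f x a) = f x (a + 1)
  f_per : ∀ x a, f x (a + csize A x) = f x a
  f_ix : ∀ x a, ix (f x a) = a % csize A x
  f_size : ∀ x a, csize A (f x a) = csize A x
  f_reach : ∀ x u, A.Reachable x u ↔ ∃ a < csize A x, f x a = u

theorem cyc_of_two {X : Type} {A : SimpleGraph X} (hA : ∀ x, (A.neighborSet x).ncard = 2) (x : X) :
    Cyc A x := fun w _ => hA w

theorem three_le {X : Type} [Finite X] {A : SimpleGraph X}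
    (hA : ∀ x, (A.neighborSet x).ncard = 2) (x : X) : 3 ≤ csize A x := by
  obtain ⟨u, v, huv, h⟩ := Set.ncard_eq_two.1 (hA x)
  have hu : A.Adj x u := by
    have : u ∈ A.neighborSet x := by rw [h]; exact Or.inl rfl
    exact this
  have hv : A.Adj x v := by
    have : v ∈ A.neighborSet x := by rw [h]; exact Or.inr rfl
    exact this
  have h3 : ({x, u, v} : Set X).ncard = 3 := Set.ncard_eq_three.2 ⟨x, u, v, hu.ne, hv.ne, huv, rfl⟩
  rw [← h3]
  refine Set.ncard_le_ncard ?_ (Set.toFinite _)
  rintro w (rfl | rfl | rfl)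
  · exact Reachable.refl _
  · exact hu.reachable
  · exact hv.reachable

theorem exists_ori {X : Type} [Finite X] (A : SimpleGraph X)
    (hA : ∀ x, (A.neighborSet x).ncard = 2) : Nonempty (Ori A) := by
  classical
  have hcyc := fun x => exists_cyc (fun v => (hA v).le) (cyc_of_two hA x)
  choose F F1 F2 F3 using hcyc
  -- the parametrization through the representative
  let f : X → ℕ → X := fun x a => F (rep A x) a
  have hrep : ∀ x, csize A (rep A x) = csize A x := fun x => csize_eq (rep_reach A x)
  have f1 : ∀ x a, A.Adj (f x a) (f x (a + 1)) := fun x a => F1 (rep A x) a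
  have f2 : ∀ x a b, f x a = f x b ↔ a % csize A x = b % csize A x := fun x a b => by
    have := F2 (rep A x) a b
    rw [hrep] at this
    exact this
  have f3 : ∀ x u, A.Reachable x u ↔ ∃ a < csize A x, f x a = u := fun x u => by
    have := F3 (rep A x) u
    rw [hrep] at this
    rw [← show A.Reachable (rep A x) u ↔ A.Reachable x u from
      ⟨fun h => (rep_reach A x).symm.trans h, fun h => (rep_reach A x).trans h⟩]
    exact this
  have f4 : ∀ x a, A.Reachable x (f x a) := fun x a => by
    rw [f3]
    refine ⟨a % csize A x, Nat.mod_lt _ (csize_pos A x), ?_⟩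
    rw [f2, Nat.mod_mod]
  have f5 : ∀ x y, A.Reachable x y → f x = f y := fun x y h => by
    show F (rep A x) = F (rep A y)
    rw [rep_eq h]
  have f6 : ∀ x, ∃ a < csize A x, f x a = x := fun x => (f3 x x).1 (Reachable.refl x)
  choose ix ix1 ix2 using f6
  have three : ∀ x, 3 ≤ csize A x := three_le hA
  have f7 : ∀ x a, csize A (f x a) = csize A x := fun x a => (csize_eq (f4 x a)).symm
  have f8 : ∀ x a, ix (f x a) = a % csize A x := fun x a => by
    have h1 := ix2 (f x a)
    rw [← f5 _ _ (f4 x a), f2] at h1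
    rw [← h1, Nat.mod_eq_of_lt]
    have := ix1 (f x a)
    rwa [f7] at this
  let s : X → X := fun x => f x (ix x + 1)
  let p : X → X := fun x => f x (ix x + csize A x - 1)
  have fs : ∀ x a, s (f x a) = f x (a + 1) := fun x a => by
    show f (f x a) (ix (f x a) + 1) = _
    rw [← f5 _ _ (f4 x a), f8, f2]
    exact Nat.ModEq.add_right 1 (Nat.mod_modEq a _)
  have fp : ∀ x a, p (f x a) = f x (a + csize A x - 1) := fun x a => by
    show f (f x a) (ix (f x a) + csize A (f x a) - 1) = _
    have h3 := three x
    rw [← f5 _ _ (f4 x a), f8, f2, f7]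
    have e1 : a % csize A x + csize A x - 1 = a % csize A x + (csize A x - 1) := by omega
    have e2 : a + csize A x - 1 = a + (csize A x - 1) := by omega
    rw [e1, e2]
    exact Nat.ModEq.add_right _ (Nat.mod_modEq a _)
  have fper : ∀ x a, f x (a + csize A x) = f x a := fun x a => by
    rw [f2, Nat.add_mod_right]
  have sp : ∀ x, s (p x) = x := fun x => by
    have h3 := three x
    conv_lhs => rw [← ix2 x, fp, fs]
    rw [show ix x + csize A x - 1 + 1 = ix x + csize A x by omega, fper, ix2]
  have ps : ∀ x, p (s x) = x := fun x => by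
    have h3 := three x
    conv_lhs => rw [← ix2 x, fs, fp]
    rw [show ix x + 1 + csize A x - 1 = ix x + csize A x by omega, fper, ix2]
  have adj1 : ∀ x, A.Adj x (s x) := fun x => by
    have := f1 x (ix x)
    rwa [ix2] at this
  have adj2 : ∀ x, A.Adj x (p x) := fun x => by
    have := adj1 (p x)
    rw [sp] at this
    exact this.symm
  have hne : ∀ x, s x ≠ p x := fun x h => by
    have h3 := three x
    have h4 : f x (ix x + 1) = f x (ix x + csize A x - 1) := h
    rw [f2, show ix x + csize A x - 1 = (ix x + 1) + (csize A x - 2) by omega] at h4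
    have h5 : (ix x + 1 + 0) ≡ ix x + 1 + (csize A x - 2) [MOD csize A x] := h4
    have h6 := Nat.ModEq.add_left_cancel' _ h5
    unfold Nat.ModEq at h6
    rw [Nat.zero_mod, Nat.mod_eq_of_lt (by omega)] at h6
    omega
  have hnb : ∀ x, A.neighborSet x = {s x, p x} := fun x => by
    symm
    refine Set.eq_of_subset_of_ncard_le ?_ ?_ (Set.toFinite _)
    · rintro y (rfl | rfl)
      · exact adj1 x
      · exact adj2 x
    · rw [hA x, Set.ncard_pair (hne x)]
  refine ⟨⟨s, p, ix, f, three, ix1, ?_, sp, ps, ?_, ?_, fs, fper, f8, f7, f3⟩⟩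
  · intro x y
    constructor
    · intro h
      have : y ∈ A.neighborSet x := h
      rw [hnb x] at this
      rcases this with rfl | rfl
      · exact Or.inl rfl
      · exact Or.inr (sp x).symm
    · rintro (rfl | h)
      · exact adj1 x
      · rw [h]
        exact (adj1 y).symm
  · intro x
    exact f8 x (ix x + 1)
  · intro x
    exact f7 x (ix x + 1)

end Pool.Agent.Y423.LA
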