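import Mathlib

set_option autoImplicit false

/-!
Switching patterns on a torus: the combinatorial part of the decomposition of the Cartesian product
of two cycles into two Hamiltonian cycles.  A function `c` on pairs of natural numbers which is
constant along the edges of one of the two factors is constant.
-/

namespace Pool.Agent.Y423.LA

theorem run {α : Type} (d : ℕ → α) (lo hi : ℕ) (h : ∀ j, lo ≤ j → j < hi → d j = d (j + 1)) :
    ∀ j, lo ≤ j → j ≤ hi → d j = d lo := by
  intro j hlo
  induction j, hlo using Nat.le_induction with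
  | base => intro _; rfl
  | succ j hj ih =>
    intro h1
    rw [← h j hj (by omega)]
    exact ih (by omega)

theorem circ {α : Type} (d : ℕ → α) (b u w : ℕ) (hu : u < b) (hw : w < b) (huw : u ≠ w)
    (per : d b = d 0) (h : ∀ j < b, j ≠ u → j ≠ w → d j = d (j + 1)) :
    d (w + 1) = d u ∧ d (u + 1) = d w ∧ ∀ j < b, d j = d u ∨ d j = d (u + 1) := by
  rcases lt_or_gt_of_ne huw with h1 | h1
  · have a1 := run d (u + 1) w (fun j h2 h3 => h j (by omega) (by omega) (by omega))
    have a2 := run d (w + 1) b (fun j h2 h3 => h j (by omega) (by omega) (by omega))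
    have a3 := run d 0 u (fun j h2 h3 => h j (by omega) (by omega) (by omega))
    have e1 : d (w + 1) = d u := by
      rw [← a2 b (by omega) le_rfl, per, a3 u (by omega) le_rfl]
    refine ⟨e1, (a1 w (by omega) le_rfl).symm, fun j hj => ?_⟩
    rcases le_or_gt j u with h2 | h2
    · left; rw [a3 j (by omega) h2, a3 u (by omega) le_rfl]
    · rcases le_or_gt j w with h3 | h3
      · right; exact a1 j (by omega) h3
      · left; rw [a2 j (by omega) (by omega), e1]
  · have a1 := run d (w + 1) u (fun j h2 h3 => h j (by omega) (by omega) (by omega))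
    have a2 := run d (u + 1) b (fun j h2 h3 => h j (by omega) (by omega) (by omega))
    have a3 := run d 0 w (fun j h2 h3 => h j (by omega) (by omega) (by omega))
    have e1 : d (u + 1) = d w := by
      rw [← a2 b (by omega) le_rfl, per, a3 w (by omega) le_rfl]
    refine ⟨(a1 u (by omega) le_rfl).symm, e1, fun j hj => ?_⟩
    rcases le_or_gt j w with h2 | h2
    · right; rw [e1, a3 j (by omega) h2, a3 w (by omega) le_rfl]
    · rcases le_or_gt j u with h3 | h3
      · left; rw [a1 j (by omega) h3, a1 u (by omega) le_rfl]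
      · right; exact a2 j (by omega) (by omega)

theorem circ1 {α : Type} (d : ℕ → α) (b w : ℕ) (hw : w < b)
    (per : d b = d 0) (h : ∀ j < b, j ≠ w → d j = d (j + 1)) :
    ∀ j ≤ b, d j = d 0 := by
  have a2 := run d (w + 1) b (fun j h2 h3 => h j (by omega) (by omega))
  have a3 := run d 0 w (fun j h2 h3 => h j (by omega) (by omega))
  intro j hj
  rcases le_or_gt j w with h2 | h2
  · exact a3 j (by omega) h2
  · rw [a2 j (by omega) hj, ← a2 b (by omega) le_rfl, per]

/-- The columns: planar sequence of switches. -/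
theorem q_planar {α : Type} (c : ℕ → ℕ → α) (a b : ℕ) (ha : 3 ≤ a) (Y : ℕ → ℕ)
    (hYb : ∀ i, i < a - 1 → Y i < b) (hYn : ∀ i, i + 1 < a - 1 → Y i ≠ Y (i + 1))
    (per2 : ∀ i, c i b = c i 0)
    (h1 : ∀ i, i < a - 1 → c i (Y i) = c (i + 1) (Y i))
    (h2 : ∀ i, i < a - 1 → c i (Y i + 1) = c (i + 1) (Y i + 1))
    (hv : ∀ i < a, ∀ j < b, (i < a - 1 → j ≠ Y i) → (∀ i', i = i' + 1 → j ≠ Y i') →
      c i j = c i (j + 1)) :
    ∀ i < a, ∀ j < b, c i j = c 0 0 := by
  have key : ∀ n, n < a → ∀ j ≤ b, c (a - 1 - n) j = c (a - 1) 0 := by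
    intro n
    induction n with
    | zero =>
      intro _
      refine circ1 (c (a - 1)) b (Y (a - 2)) (hYb _ (by omega)) (per2 _) (fun j hj hne => ?_)
      refine hv (a - 1) (by omega) j hj (fun h => by omega) (fun i' hi' => ?_)
      have : i' = a - 2 := by omega
      rw [this]; exact hne
    | succ n ih =>
      intro hn
      have ih' := ih (by omega)
      set i := a - 1 - (n + 1) with hi
      have hi1 : a - 1 - n = i + 1 := by omega
      rw [hi1] at ih'
      have hia : i < a - 1 := by omega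
      have hub := hYb i hia
      have e1 : c i (Y i) = c (a - 1) 0 := by rw [h1 i hia]; exact ih' _ (by omega)
      have e2 : c i (Y i + 1) = c (a - 1) 0 := by rw [h2 i hia]; exact ih' _ (by omega)
      have main : ∀ j < b, c i j = c (a - 1) 0 := by
        rcases Nat.eq_zero_or_pos i with h0 | h0
        · have h3 := circ1 (c i) b (Y i) hub (per2 _) (fun j hj hne =>
            hv i (by omega) j hj (fun _ => hne) (fun i' hi' => by omega))
          intro j hj
          rw [h3 j (by omega), ← h3 (Y i) (by omega), e1]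
        · obtain ⟨i', hi'⟩ : ∃ i', i = i' + 1 := ⟨i - 1, by omega⟩
          have hne : Y i ≠ Y i' := by
            have := hYn i' (by omega)
            rw [hi']; exact this.symm
          have h3 := circ (c i) b (Y i) (Y i') hub (hYb i' (by omega)) hne (per2 _)
            (fun j hj hj1 hj2 => hv i (by omega) j hj (fun _ => hj1) (fun i'' hi'' => by
              have : i'' = i' := by omega
              rw [this]; exact hj2))
          intro j hj
          rcases h3.2.2 j hj with h4 | h4
          · rw [h4, e1]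
          · rw [h4, e2]
      intro j hj
      rcases lt_or_eq_of_le hj with h4 | h4
      · exact main j h4
      · rw [h4, per2, main 0 (by omega)]
  intro i hi j hj
  have k1 := key (a - 1 - i) (by omega) j hj.le
  have k2 := key (a - 1) (by omega) 0 (by omega)
  rw [show a - 1 - (a - 1 - i) = i by omega] at k1
  rw [show a - 1 - (a - 1) = 0 by omega] at k2
  rw [k1, k2]

/-- The columns: closed sequence of an odd number of switches. -/
theorem q_closed {α : Type} (c : ℕ → ℕ → α) (a b : ℕ) (ha : a % 2 = 1) (Y : ℕ → ℕ)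
    (hYb : ∀ i, i < a → Y i < b) (hYn : ∀ i, i + 1 < a → Y i ≠ Y (i + 1)) (hY0 : Y 0 ≠ Y (a - 1))
    (ha3 : 3 ≤ a)
    (per1 : ∀ j, c a j = c 0 j) (per2 : ∀ i, c i b = c i 0)
    (h1 : ∀ i, i < a → c i (Y i) = c (i + 1) (Y i))
    (h2 : ∀ i, i < a → c i (Y i + 1) = c (i + 1) (Y i + 1))
    (hv : ∀ i < a, ∀ j < b, j ≠ Y i → (∀ i' < a, i = (i' + 1) % a → j ≠ Y i') →
      c i j = c i (j + 1)) :
    ∀ i < a, ∀ j < b, c i j = c 0 0 := by
  -- the previous column
  have cc : ∀ i < a, ∀ i' < a, i = (i' + 1) % a → Y i ≠ Y i' →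
      c i (Y i' + 1) = c i (Y i) ∧ c i (Y i + 1) = c i (Y i') ∧
        ∀ j < b, c i j = c i (Y i) ∨ c i j = c i (Y i + 1) := by
    intro i hi i' hi' hii hne
    refine circ (c i) b (Y i) (Y i') (hYb i hi) (hYb i' hi') hne (per2 i) (fun j hj hj1 hj2 => ?_)
    refine hv i hi j hj hj1 (fun i'' hi'' h3 => ?_)
    have : i'' = i' := by
      rw [hii] at h3
      rcases lt_or_eq_of_le (show i' + 1 ≤ a by omega) with h4 | h4
      · rw [Nat.mod_eq_of_lt h4] at h3
        rcases lt_or_eq_of_le (show i'' + 1 ≤ a by omega) with h5 | h5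
        · rw [Nat.mod_eq_of_lt h5] at h3; omega
        · rw [h5, Nat.mod_self] at h3; omega
      · rw [h4, Nat.mod_self] at h3
        rcases lt_or_eq_of_le (show i'' + 1 ≤ a by omega) with h5 | h5
        · rw [Nat.mod_eq_of_lt h5] at h3; omega
        · omega
    rw [this]; exact hj2
  have cs : ∀ i, i + 1 < a → c (i + 1) (Y i + 1) = c (i + 1) (Y (i + 1)) ∧
      c (i + 1) (Y (i + 1) + 1) = c (i + 1) (Y i) ∧
        ∀ j < b, c (i + 1) j = c (i + 1) (Y (i + 1)) ∨ c (i + 1) j = c (i + 1) (Y (i + 1) + 1) := by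
    intro i hi
    exact cc (i + 1) hi i (by omega) (by rw [Nat.mod_eq_of_lt hi]) (hYn i hi).symm
  have c0 := cc 0 (by omega) (a - 1) (by omega) (by
    rw [show a - 1 + 1 = a by omega, Nat.mod_self]) hY0
  -- D i = c i (Y i), U i = c i (Y i + 1)
  have s1 : ∀ i, i + 1 < a → c i (Y i) = c (i + 1) (Y (i + 1) + 1) := by
    intro i hi
    rw [h1 i (by omega), (cs i hi).2.1]
  have s2 : ∀ i, i + 1 < a → c i (Y i + 1) = c (i + 1) (Y (i + 1)) := by
    intro i hi
    rw [h2 i (by omega), (cs i hi).1]
  have par : ∀ i < a, (i % 2 = 0 → c i (Y i) = c 0 (Y 0) ∧ c i (Y i + 1) = c 0 (Y 0 + 1)) ∧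
      (i % 2 = 1 → c i (Y i) = c 0 (Y 0 + 1) ∧ c i (Y i + 1) = c 0 (Y 0)) := by
    intro i
    induction i with
    | zero => intro _; exact ⟨fun _ => ⟨rfl, rfl⟩, fun h => by omega⟩
    | succ i ih =>
      intro hi
      have ih' := ih (by omega)
      refine ⟨fun h => ?_, fun h => ?_⟩
      · have := ih'.2 (by omega)
        rw [← s2 i hi, ← s1 i hi]
        exact ⟨this.2, this.1⟩
      · have := ih'.1 (by omega)
        rw [← s2 i hi, ← s1 i hi]
        exact ⟨this.2, this.1⟩
  have last := (par (a - 1) (by omega)).1 (by omega)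
  have e0 : c 0 (Y 0) = c 0 (Y 0 + 1) := by
    have h5 := h1 (a - 1) (by omega)
    rw [show a - 1 + 1 = a by omega, per1, last.1] at h5
    rw [h5, c0.2.1]
  have all : ∀ i < a, c i (Y i) = c 0 (Y 0) ∧ c i (Y i + 1) = c 0 (Y 0) := by
    intro i hi
    rcases Nat.mod_two_eq_zero_or_one i with h | h
    · have := (par i hi).1 h
      exact ⟨this.1, this.2.trans e0.symm⟩
    · have := (par i hi).2 h
      exact ⟨this.1.trans e0.symm, this.2⟩
  have fin : ∀ i < a, ∀ j < b, c i j = c 0 (Y 0) := by
    intro i hi j hj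
    have h3 : c i j = c i (Y i) ∨ c i j = c i (Y i + 1) := by
      rcases Nat.eq_zero_or_pos i with h0 | h0
      · subst h0; exact c0.2.2 j hj
      · obtain ⟨i', rfl⟩ : ∃ i', i = i' + 1 := ⟨i - 1, by omega⟩
        exact (cs i' hi).2.2 j hj
    rcases h3 with h4 | h4
    · rw [h4, (all i hi).1]
    · rw [h4, (all i hi).2]
  intro i hi j hj
  have hb0 : 0 < b := by omega
  rw [fin i hi j hj, fin 0 (by omega) 0 hb0]

end Pool.Agent.Y423.LA
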