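import Pool.Agent.H79.LA.Y423_LA_Top
import Pool.Agent.H79.LA.Helper879_ECD_Tutte

set_option autoImplicit false

/-!
Perfect matchings in Cartesian products of odd degree.
-/

namespace Pool.Agent.Y423.LA

open SimpleGraph Pool.Agent.W111.LAR Finset H931R3.LA Pool.Agent.Helper879.ECD

/-- A regular graph in which every odd set has at least `r` boundary edges has a perfect
matching. -/
theorem pm_of_cut {V : Type} [Fintype V] [DecidableEq V] (G : SimpleGraph V)
    [DecidableRel G.Adj] (r : ℕ) (hr : 1 ≤ r) (hreg : ∀ v, (G.neighborSet v).ncard = r)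
    (hev : Even (Nat.card V)) (hcut : ∀ X : Finset V, Odd X.card → r ≤ cut G X) :
    ∃ M : G.Subgraph, M.IsPerfectMatching := by
  classical
  by_contra hno
  obtain ⟨U, hU, _⟩ := exists_min_barrier hev hno
  set XX : Finset (Finset V) := univ.filter (fun X => OddComp G U (X : Set V)) with hXX
  have hmemXX : ∀ X, X ∈ XX ↔ OddComp G U (X : Set V) := fun X => by
    rw [hXX, mem_filter]
    exact ⟨fun h => h.2, fun h => ⟨mem_univ _, h⟩⟩
  have hcount : {Z | OddComp G U Z}.ncard ≤ XX.card := by
    have hsub : {Z | OddComp G U Z} ⊆ ((fun X : Finset V => (X : Set V)) '' (XX : Set (Finset V))) := by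
      intro Z hZ
      refine ⟨(Set.toFinite Z).toFinset, ?_, Set.Finite.coe_toFinset _⟩
      rw [mem_coe, hmemXX, Set.Finite.coe_toFinset]
      exact hZ
    refine (Set.ncard_le_ncard hsub (Set.toFinite _)).trans ?_
    refine (Set.ncard_image_le (Set.toFinite _)).trans ?_
    rw [Set.ncard_coe_finset]
  have hdisj : ∀ X ∈ XX, ∀ X' ∈ XX, ∀ v, v ∈ X → v ∈ X' → X = X' := by
    intro X hXm X' hXm' v hv hv'
    have h1 := ((hmemXX X).1 hXm).eq_of_mem ((hmemXX X').1 hXm') (z := v)
      (by exact_mod_cast hv) (by exact_mod_cast hv')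
    exact_mod_cast h1
  have hodd : ∀ X ∈ XX, Odd X.card := by
    intro X hX
    have := ((hmemXX X).1 hX).2
    rwa [Set.ncard_coe_finset] at this
  set UV : Finset V := univ.filter (fun v => v ∈ U) with hUV
  have hUcard : UV.card = U.ncard := by
    rw [← Set.ncard_coe_finset]
    congr 1
    ext v
    simp [hUV]
  have h1 : XX.card * r ≤ UV.card * r := by
    calc XX.card * r
        = ∑ X ∈ XX, r := by rw [sum_const, smul_eq_mul]
      _ ≤ ∑ X ∈ XX, cut G X := sum_le_sum fun X hXm => hcut X (hodd X hXm)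
      _ ≤ ∑ X ∈ XX, ∑ u ∈ X, ∑ v ∈ UV, (if G.Adj u v then 1 else 0) := by
          refine sum_le_sum fun X hXm => ?_
          unfold cut wt
          refine sum_le_sum fun u hu => ?_
          rw [← sum_filter, ← sum_filter]
          refine sum_le_sum_of_subset ?_
          intro v hv
          obtain ⟨h2, h3⟩ := mem_filter.1 hv
          refine mem_filter.2 ⟨mem_filter.2 ⟨mem_univ _, ?_⟩, h3⟩
          by_contra hn
          have h4 := ((hmemXX X).1 hXm).closed (z := u) (y := v)
            (by exact_mod_cast hu) hn h3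
          exact (mem_compl.1 h2) (by exact_mod_cast h4)
      _ = ∑ u ∈ XX.biUnion id, ∑ v ∈ UV, (if G.Adj u v then 1 else 0) := by
          rw [sum_biUnion]
          · rfl
          · intro X hXm X' hXm' hne'
            rw [Function.onFun, Finset.disjoint_left]
            intro v hv hv'
            exact hne' (hdisj X hXm X' hXm' v hv hv')
      _ ≤ ∑ u, ∑ v ∈ UV, (if G.Adj u v then 1 else 0) :=
          sum_le_sum_of_subset (subset_univ _)
      _ = ∑ v ∈ UV, ∑ u, (if G.Adj u v then 1 else 0) := sum_comm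
      _ = ∑ v ∈ UV, r := by
          refine sum_congr rfl fun v _ => ?_
          rw [← card_filter, ← hreg v, Set.ncard_eq_toFinset_card']
          congr 1
          ext u
          simp [G.adj_comm]
      _ = UV.card * r := by rw [sum_const, smul_eq_mul]
  have h2 := Nat.le_of_mul_le_mul_right h1 (by omega)
  omega

section

variable {α β : Type} [Fintype α] [DecidableEq α] [Fintype β] [DecidableEq β]
  (X : SimpleGraph α) [DecidableRel X.Adj] (Y : SimpleGraph β) [DecidableRel Y.Adj]

/-- A set which does not contain a whole component has a boundary edge. -/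
theorem cut_pos {R : Finset α} {x x0 : α} (hx : x ∈ R) (hx0 : x0 ∉ R) (h : X.Reachable x x0) :
    1 ≤ cut X R := by
  by_contra hcon
  have h0 : cut X R = 0 := by omega
  unfold cut wt at h0
  refine hx0 (reach_induct h (R := fun w => w ∈ R) hx ?_)
  intro a b ha hab
  by_contra hb
  have h1 := (sum_eq_zero_iff.1 h0) a ha
  have h2 := (sum_eq_zero_iff.1 h1) b (mem_compl.2 hb)
  rw [if_pos hab] at h2
  exact one_ne_zero h2

theorem cut_deg {R : Finset α} {d : ℕ} (hd : ∀ v, (X.neighborSet v).ncard = d) {x : α}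
    (hx : x ∈ R) : d + 1 ≤ cut X R + R.card := by
  have h1 : (univ.filter (fun v => X.Adj x v)).card = d := by
    rw [← hd x, Set.ncard_eq_toFinset_card']
    congr 1
    ext u
    simp
  have h2 : (univ.filter (fun v => X.Adj x v)) ⊆
      (R.erase x) ∪ (Rᶜ.filter (fun v => X.Adj x v)) := by
    intro v hv
    obtain ⟨-, h3⟩ := mem_filter.1 hv
    rw [mem_union, mem_erase, mem_filter, mem_compl]
    by_cases h4 : v ∈ R
    · exact Or.inl ⟨h3.ne', h4⟩
    · exact Or.inr ⟨h4, h3⟩
  have h3 := (card_le_card h2).trans (card_union_le _ _)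
  rw [h1, card_erase_of_mem hx] at h3
  have h4 : (Rᶜ.filter (fun v => X.Adj x v)).card ≤ cut X R := by
    unfold cut wt
    have h5 := single_le_sum (f := fun u => ∑ v ∈ Rᶜ, if X.Adj u v then 1 else 0)
      (fun _ _ => Nat.zero_le _) hx
    refine le_trans (le_of_eq ?_) h5
    rw [card_filter]
  have h5 : 0 < R.card := card_pos.2 ⟨x, hx⟩
  omega

/-- The boundary in a product. -/
theorem cut_box [DecidableRel (X.boxProd Y).Adj] (C : Finset (α × β)) :
    ∑ y, cut X (univ.filter (fun x => (x, y) ∈ C)) +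
      ∑ x, cut Y (univ.filter (fun y => (x, y) ∈ C)) ≤ cut (X.boxProd Y) C := by
  classical
  have e1 : ∀ y, cut X (univ.filter (fun x => (x, y) ∈ C)) =
      ∑ x, ∑ x', if (x, y) ∈ C ∧ (x', y) ∉ C ∧ X.Adj x x' then 1 else 0 := by
    intro y
    unfold cut wt
    rw [sum_filter]
    refine sum_congr rfl fun x _ => ?_
    by_cases h : (x, y) ∈ C
    · rw [if_pos h]
      have : (univ.filter (fun x => (x, y) ∈ C))ᶜ = univ.filter (fun x => (x, y) ∉ C) := by
        ext; simp
      rw [this, sum_filter]
      refine sum_congr rfl fun x' _ => ?_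
      by_cases h' : (x', y) ∈ C
      · simp [h, h']
      · simp [h, h']
    · rw [if_neg h]
      simp [h]
  have e2 : ∀ x, cut Y (univ.filter (fun y => (x, y) ∈ C)) =
      ∑ y, ∑ y', if (x, y) ∈ C ∧ (x, y') ∉ C ∧ Y.Adj y y' then 1 else 0 := by
    intro x
    unfold cut wt
    rw [sum_filter]
    refine sum_congr rfl fun y _ => ?_
    by_cases h : (x, y) ∈ C
    · rw [if_pos h]
      have : (univ.filter (fun y => (x, y) ∈ C))ᶜ = univ.filter (fun y => (x, y) ∉ C) := by
        ext; simp
      rw [this, sum_filter]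
      refine sum_congr rfl fun y' _ => ?_
      by_cases h' : (x, y') ∈ C
      · simp [h, h']
      · simp [h, h']
    · rw [if_neg h]
      simp [h]
  have e3 : cut (X.boxProd Y) C = ∑ x, ∑ y, (if (x, y) ∈ C then
      ∑ v ∈ Cᶜ, (if (X.boxProd Y).Adj (x, y) v then 1 else 0) else 0) := by
    unfold cut wt
    rw [← Fintype.sum_prod_type (f := fun p : α × β => if p ∈ C then
      ∑ v ∈ Cᶜ, (if (X.boxProd Y).Adj p v then 1 else 0) else 0), ← sum_filter]
    congr 1
    ext p
    simp
  rw [sum_congr rfl (fun y _ => e1 y), sum_congr rfl (fun x _ => e2 x), e3, sum_comm,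
    ← sum_add_distrib]
  refine sum_le_sum fun x _ => ?_
  rw [← sum_add_distrib]
  refine sum_le_sum fun y _ => ?_
  by_cases h : (x, y) ∈ C
  · rw [if_pos h]
    rw [← card_filter, ← card_filter, ← card_filter]
    have hd : Disjoint ((univ.filter (fun x' => (x, y) ∈ C ∧ (x', y) ∉ C ∧ X.Adj x x')).image
        (fun x' => (x', y))) ((univ.filter (fun y' => (x, y) ∈ C ∧ (x, y') ∉ C ∧
          Y.Adj y y')).image (fun y' => (x, y'))) := by
      rw [Finset.disjoint_left]
      intro p hp hp'
      obtain ⟨x', hx', rfl⟩ := mem_image.1 hp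
      obtain ⟨y', hy', h3⟩ := mem_image.1 hp'
      have h4 := (mem_filter.1 hx').2.2.2
      have h5 : x = x' := congrArg Prod.fst h3
      exact h4.ne h5
    rw [← card_image_of_injective _ (Prod.mk_left_injective y),
      ← card_image_of_injective (univ.filter (fun y' => (x, y) ∈ C ∧ (x, y') ∉ C ∧ Y.Adj y y'))
        (Prod.mk_right_injective x), ← card_union_of_disjoint hd]
    refine card_le_card ?_
    intro p hp
    rw [mem_union] at hp
    rw [mem_filter, mem_compl]
    rcases hp with hp | hp
    · obtain ⟨x', hx', rfl⟩ := mem_image.1 hp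
      have h4 := (mem_filter.1 hx').2
      exact ⟨h4.2.1, boxProd_adj.2 (Or.inl ⟨h4.2.2, rfl⟩)⟩
    · obtain ⟨y', hy', rfl⟩ := mem_image.1 hp
      have h4 := (mem_filter.1 hy').2
      exact ⟨h4.2.1, boxProd_adj.2 (Or.inr ⟨h4.2.2, rfl⟩)⟩
  · rw [if_neg h]
    simp [h]

end

end Pool.Agent.Y423.LA
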