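import Pool.Agent.H79.LA.Y423_LA_Pm

set_option autoImplicit false

/-!
Perfect matchings in Cartesian products of odd degree: products of two graphs with large
components.
-/

namespace Pool.Agent.Y423.LA

open SimpleGraph Pool.Agent.W111.LAR Finset H931R3.LA

section

variable {α β : Type} [Fintype α] [DecidableEq α] [Fintype β] [DecidableEq β]
  (X : SimpleGraph α) [DecidableRel X.Adj] (Y : SimpleGraph β) [DecidableRel Y.Adj]

theorem cut_avoid [DecidableRel (X.boxProd Y).Adj] (d1 d2 : ℕ)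
    (hd1 : ∀ v, (X.neighborSet v).ncard = d1) (hd2 : ∀ v, (Y.neighborSet v).ncard = d2)
    (C : Finset (α × β)) (x1 : α) (y1 : β)
    (hC : ∀ p ∈ C, X.Reachable x1 p.1 ∧ Y.Reachable y1 p.2) (hne : C.Nonempty) (x0 : α) (y0 : β)
    (hx0 : X.Reachable x1 x0) (hy0 : Y.Reachable y1 y0) (h1 : ∀ y, (x0, y) ∉ C)
    (h2 : ∀ x, (x, y0) ∉ C) : d1 + d2 ≤ cut (X.boxProd Y) C := by
  obtain ⟨⟨x, y⟩, hxy⟩ := hne
  obtain ⟨hx, hy⟩ := hC _ hxy
  have key := cut_box X Y C
  have hxR : x ∈ univ.filter (fun x' => (x', y) ∈ C) := mem_filter.2 ⟨mem_univ _, hxy⟩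
  have hyQ : y ∈ univ.filter (fun y' => (x, y') ∈ C) := mem_filter.2 ⟨mem_univ _, hxy⟩
  have e1 := cut_deg X hd1 hxR
  have e2 := cut_deg Y hd2 hyQ
  have f1 : cut X (univ.filter (fun x' => (x', y) ∈ C)) +
      ((univ.filter (fun y' => (x, y') ∈ C)).card - 1) ≤
      ∑ y', cut X (univ.filter (fun x' => (x', y') ∈ C)) := by
    rw [← add_sum_erase univ _ (mem_univ y), add_le_add_iff_left]
    rw [← card_erase_of_mem hyQ, card_eq_sum_ones]
    refine le_trans (sum_le_sum (g := fun y' => cut X (univ.filter (fun x' => (x', y') ∈ C))) ?_)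
      (sum_le_sum_of_subset (erase_subset_erase _ (subset_univ _)))
    intro y' hy'
    have h3 : (x, y') ∈ C := (mem_filter.1 (mem_of_mem_erase hy')).2
    exact cut_pos X (x := x) (x0 := x0) (mem_filter.2 ⟨mem_univ _, h3⟩)
      (fun h => h1 y' (mem_filter.1 h).2) (hx.symm.trans hx0)
  have f2 : cut Y (univ.filter (fun y' => (x, y') ∈ C)) +
      ((univ.filter (fun x' => (x', y) ∈ C)).card - 1) ≤
      ∑ x', cut Y (univ.filter (fun y' => (x', y') ∈ C)) := by
    rw [← add_sum_erase univ _ (mem_univ x), add_le_add_iff_left]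
    rw [← card_erase_of_mem hxR, card_eq_sum_ones]
    refine le_trans (sum_le_sum (g := fun x' => cut Y (univ.filter (fun y' => (x', y') ∈ C))) ?_)
      (sum_le_sum_of_subset (erase_subset_erase _ (subset_univ _)))
    intro x' hx'
    have h3 : (x', y) ∈ C := (mem_filter.1 (mem_of_mem_erase hx')).2
    exact cut_pos Y (x := y) (x0 := y0) (mem_filter.2 ⟨mem_univ _, h3⟩)
      (fun h => h2 x' (mem_filter.1 h).2) (hy.symm.trans hy0)
  have g1 : 0 < (univ.filter (fun x' => (x', y) ∈ C)).card := card_pos.2 ⟨x, hxR⟩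
  have g2 : 0 < (univ.filter (fun y' => (x, y') ∈ C)).card := card_pos.2 ⟨y, hyQ⟩
  omega

theorem cut_comp [DecidableRel (X.boxProd Y).Adj] (d1 d2 : ℕ)
    (hd1 : ∀ v, (X.neighborSet v).ncard = d1) (hd2 : ∀ v, (Y.neighborSet v).ncard = d2)
    (C : Finset (α × β)) (x1 : α) (y1 : β)
    (hC : ∀ p ∈ C, X.Reachable x1 p.1 ∧ Y.Reachable y1 p.2) (hne : C.Nonempty)
    (hall : ∃ p : α × β, (X.Reachable x1 p.1 ∧ Y.Reachable y1 p.2) ∧ p ∉ C)
    (hK1 : d1 + d2 ≤ csize X x1) (hK2 : d1 + d2 ≤ csize Y y1) :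
    d1 + d2 ≤ cut (X.boxProd Y) C := by
  classical
  have key := cut_box X Y C
  by_cases hA : ∀ y0, Y.Reachable y1 y0 → (∃ x, (x, y0) ∈ C) ∧ ∃ x, X.Reachable x1 x ∧ (x, y0) ∉ C
  · -- all rows are mixed
    have h1 : csize Y y1 ≤ ∑ y, cut X (univ.filter (fun x => (x, y) ∈ C)) := by
      have h2 : csize Y y1 = (univ.filter (fun y => Y.Reachable y1 y)).card := by
        unfold csize
        rw [← Set.ncard_coe_finset]
        congr 1
        ext y
        simp
      rw [h2, card_eq_sum_ones]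
      refine le_trans (sum_le_sum (g := fun y => cut X (univ.filter (fun x => (x, y) ∈ C))) ?_)
        (sum_le_sum_of_subset (subset_univ _))
      intro y hy
      obtain ⟨⟨x, hx⟩, x', hx', hx''⟩ := hA y (mem_filter.1 hy).2
      exact cut_pos X (x := x) (x0 := x') (mem_filter.2 ⟨mem_univ _, hx⟩)
        (fun h => hx'' (mem_filter.1 h).2) ((hC _ hx).1.symm.trans hx')
    omega
  by_cases hB : ∀ x0, X.Reachable x1 x0 → (∃ y, (x0, y) ∈ C) ∧ ∃ y, Y.Reachable y1 y ∧ (x0, y) ∉ C
  · have h1 : csize X x1 ≤ ∑ x, cut Y (univ.filter (fun y => (x, y) ∈ C)) := by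
      have h2 : csize X x1 = (univ.filter (fun x => X.Reachable x1 x)).card := by
        unfold csize
        rw [← Set.ncard_coe_finset]
        congr 1
        ext y
        simp
      rw [h2, card_eq_sum_ones]
      refine le_trans (sum_le_sum (g := fun x => cut Y (univ.filter (fun y => (x, y) ∈ C))) ?_)
        (sum_le_sum_of_subset (subset_univ _))
      intro x hx
      obtain ⟨⟨y, hy⟩, y', hy', hy''⟩ := hB x (mem_filter.1 hx).2
      exact cut_pos Y (x := y) (x0 := y') (mem_filter.2 ⟨mem_univ _, hy⟩)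
        (fun h => hy'' (mem_filter.1 h).2) ((hC _ hy).2.symm.trans hy')
    omega
  push Not at hA hB
  obtain ⟨y0, hy0, hA⟩ := hA
  obtain ⟨x0, hx0, hB⟩ := hB
  by_cases h0 : (x0, y0) ∈ C
  · have hA' := hA ⟨x0, h0⟩
    have hB' := hB ⟨y0, h0⟩
    set C1 : Finset (α × β) := univ.filter (fun p =>
      (X.Reachable x1 p.1 ∧ Y.Reachable y1 p.2) ∧ p ∉ C) with hC1
    have hmem : ∀ p, p ∈ C1 ↔ (X.Reachable x1 p.1 ∧ Y.Reachable y1 p.2) ∧ p ∉ C := fun p => by
      rw [hC1, mem_filter]
      exact ⟨fun h => h.2, fun h => ⟨mem_univ _, h⟩⟩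
    have h3 := cut_avoid X Y d1 d2 hd1 hd2 C1 x1 y1 (fun p hp => ((hmem p).1 hp).1) (by
      obtain ⟨p, hp⟩ := hall
      exact ⟨p, (hmem p).2 hp⟩) x0 y0 hx0 hy0 (fun y h => by
        have h4 := (hmem _).1 h
        exact h4.2 (hB' y h4.1.2)) (fun x h => by
        have h4 := (hmem _).1 h
        exact h4.2 (hA' x h4.1.1))
    refine h3.trans ?_
    have h5 : cut (X.boxProd Y) C1 ≤ wt (X.boxProd Y) C1 C := by
      unfold cut wt
      refine sum_le_sum fun u hu => ?_
      rw [← sum_filter, ← sum_filter]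
      refine sum_le_sum_of_subset ?_
      intro v hv
      obtain ⟨h6, h7⟩ := mem_filter.1 hv
      refine mem_filter.2 ⟨?_, h7⟩
      by_contra hn
      refine (mem_compl.1 h6) ((hmem v).2 ⟨?_, hn⟩)
      have h8 := ((hmem u).1 hu).1
      rcases boxProd_adj.1 h7 with ⟨h9, h10⟩ | ⟨h9, h10⟩
      · exact ⟨h8.1.trans h9.reachable, h10 ▸ h8.2⟩
      · exact ⟨h10 ▸ h8.1, h8.2.trans h9.reachable⟩
    refine h5.trans ?_
    rw [wt_comm]
    unfold cut wt
    refine sum_le_sum fun u _ => sum_le_sum_of_subset ?_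
    intro p hp
    exact mem_compl.2 ((hmem p).1 hp).2
  · refine cut_avoid X Y d1 d2 hd1 hd2 C x1 y1 hC hne x0 y0 hx0 hy0 ?_ ?_
    · intro y hy
      exact h0 (hB ⟨y, hy⟩ y0 hy0)
    · intro x hx
      exact h0 (hA ⟨x, hx⟩ x0 hx0)

end

/-- Closed sets in regular graphs of odd degree are even. -/
theorem even_closed {V : Type} [Fintype V] (G : SimpleGraph V) (r : ℕ) (hodd : Odd r)
    (hreg : ∀ v, (G.neighborSet v).ncard = r) (K : Finset V)
    (hK : ∀ u v, u ∈ K → G.Adj u v → v ∈ K) : Even K.card := by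
  classical
  let G' : SimpleGraph V :=
    { Adj := fun u v => G.Adj u v ∧ u ∈ K ∧ v ∈ K
      symm := ⟨fun _ _ h => ⟨h.1.symm, h.2.2, h.2.1⟩⟩
      loopless := ⟨fun _ h => h.1.ne rfl⟩ }
  have h1 := G'.even_card_odd_degree_vertices
  have h2 : univ.filter (fun v => Odd (G'.degree v)) = K := by
    ext v
    rw [mem_filter]
    have hdeg : G'.degree v = if v ∈ K then r else 0 := by
      split_ifs with h
      · rw [← hreg v, Set.ncard_eq_toFinset_card', ← card_neighborFinset_eq_degree]
        congr 1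
        ext u
        rw [mem_neighborFinset, Set.mem_toFinset, mem_neighborSet]
        exact ⟨fun h' => h'.1, fun h' => ⟨h', h, hK v u h h'⟩⟩
      · rw [← card_neighborFinset_eq_degree, card_eq_zero]
        ext u
        rw [mem_neighborFinset]
        simp only [notMem_empty, iff_false]
        exact fun h' => h h'.2.1
    rw [hdeg]
    constructor
    · rintro ⟨-, h⟩
      by_contra hn
      rw [if_neg hn] at h
      exact absurd h (by decide)
    · intro h
      rw [if_pos h]
      exact ⟨mem_univ _, hodd⟩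
  rwa [h2] at h1

/-- Perfect matchings in products of two graphs with large components. -/
theorem pm_box {α β : Type} [Finite α] [Finite β] (X : SimpleGraph α) (Y : SimpleGraph β)
    (d1 d2 : ℕ) (hd1 : ∀ v, (X.neighborSet v).ncard = d1)
    (hd2 : ∀ v, (Y.neighborSet v).ncard = d2) (hodd : Odd (d1 + d2))
    (hX : ∀ x, d1 + d2 ≤ csize X x) (hY : ∀ y, d1 + d2 ≤ csize Y y) :
    ∃ M : (X.boxProd Y).Subgraph, M.IsPerfectMatching := by
  classical
  have := Fintype.ofFinite α
  have := Fintype.ofFinite β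
  have hreg : ∀ v, ((X.boxProd Y).neighborSet v).ncard = d1 + d2 :=
    deg_reg X Y d1 d2 hd1 hd2
  have hpos : 1 ≤ d1 + d2 := hodd.pos
  refine pm_of_cut (X.boxProd Y) (d1 + d2) hpos hreg ?_ ?_
  · have := even_closed (X.boxProd Y) (d1 + d2) hodd hreg univ (fun _ _ _ _ => mem_univ _)
    rwa [Nat.card_eq_fintype_card]
  · intro C hC
    -- an odd part
    obtain ⟨p1, hp1, hodd1⟩ : ∃ p1 ∈ C, Odd (C.filter (fun p => X.Reachable p1.1 p.1 ∧
        Y.Reachable p1.2 p.2)).card := by
      by_contra hcon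
      push Not at hcon
      have h1 := card_eq_sum_card_image (fun p : α × β =>
        (X.connectedComponentMk p.1, Y.connectedComponentMk p.2)) C
      have h2 : Even (∑ b ∈ C.image (fun p : α × β =>
        (X.connectedComponentMk p.1, Y.connectedComponentMk p.2)), (C.filter (fun p : α × β =>
        (X.connectedComponentMk p.1, Y.connectedComponentMk p.2) = b)).card) := by
        refine even_sum _ fun b hb => ?_
        obtain ⟨p1, hp1, rfl⟩ := mem_image.1 hb
        have h3 := hcon p1 hp1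
        rw [Nat.not_odd_iff_even] at h3
        have h4 : C.filter (fun p : α × β => (X.connectedComponentMk p.1,
            Y.connectedComponentMk p.2) = (X.connectedComponentMk p1.1,
            Y.connectedComponentMk p1.2)) =
            C.filter (fun p => X.Reachable p1.1 p.1 ∧ Y.Reachable p1.2 p.2) := by
          refine filter_congr fun p _ => ?_
          rw [Prod.mk.injEq, ConnectedComponent.eq, ConnectedComponent.eq]
          exact ⟨fun h => ⟨h.1.symm, h.2.symm⟩, fun h => ⟨h.1.symm, h.2.symm⟩⟩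
        beta_reduce
        rw [h4]
        exact h3
      rw [← h1] at h2
      exact (Nat.not_even_iff_odd.2 hC) h2
    set C0 := C.filter (fun p => X.Reachable p1.1 p.1 ∧ Y.Reachable p1.2 p.2) with hC0
    have hstep : ∀ u v : α × β, (X.boxProd Y).Adj u v →
        (X.Reachable p1.1 u.1 ∧ Y.Reachable p1.2 u.2) →
        (X.Reachable p1.1 v.1 ∧ Y.Reachable p1.2 v.2) := by
      intro u v h7 h8
      rcases boxProd_adj.1 h7 with ⟨h9, h10⟩ | ⟨h9, h10⟩
      · exact ⟨h8.1.trans h9.reachable, h10 ▸ h8.2⟩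
      · exact ⟨h10 ▸ h8.1, h8.2.trans h9.reachable⟩
    have hall : ∃ p : α × β, (X.Reachable p1.1 p.1 ∧ Y.Reachable p1.2 p.2) ∧ p ∉ C0 := by
      by_contra hcon
      push Not at hcon
      have h1 := even_closed (X.boxProd Y) (d1 + d2) hodd hreg C0 (fun u v hu huv =>
        hcon v (hstep u v huv (mem_filter.1 hu).2))
      exact (Nat.not_even_iff_odd.2 hodd1) h1
    have h1 := cut_comp X Y d1 d2 hd1 hd2 C0 p1.1 p1.2 (fun p hp => (mem_filter.1 hp).2)
      ⟨p1, mem_filter.2 ⟨hp1, Reachable.refl _, Reachable.refl _⟩⟩ hall (hX _) (hY _)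
    refine h1.trans ?_
    have h2 : cut (X.boxProd Y) C0 ≤ wt (X.boxProd Y) C0 Cᶜ := by
      unfold cut wt
      refine sum_le_sum fun u hu => ?_
      rw [← sum_filter, ← sum_filter]
      refine sum_le_sum_of_subset ?_
      intro v hv
      obtain ⟨h6, h7⟩ := mem_filter.1 hv
      refine mem_filter.2 ⟨mem_compl.2 (fun hn => ?_), h7⟩
      exact (mem_compl.1 h6) (mem_filter.2 ⟨hn, hstep u v h7 (mem_filter.1 hu).2⟩)
    refine h2.trans ?_
    unfold cut wt
    exact sum_le_sum_of_subset (filter_subset _ _)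

/-- A spanning subgraph of degree one. -/
def Mat {V : Type} (G : SimpleGraph V) : Prop :=
  ∃ Q : SimpleGraph V, Q ≤ G ∧ ∀ v, (Q.neighborSet v).ncard = 1

theorem Mat.comap {V W : Type} (e : V ≃ W) {G : SimpleGraph W} (h : Mat G) : Mat (G.comap e) := by
  obtain ⟨Q, h1, h2⟩ := h
  refine ⟨Q.comap e, fun u v huv => h1 huv, fun v => ?_⟩
  rw [deg_comap]
  exact h2 _

theorem Mat.of_pm {V : Type} [Finite V] {G : SimpleGraph V} (h : ∃ M : G.Subgraph,
    M.IsPerfectMatching) : Mat G := by
  obtain ⟨M, hM⟩ := h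
  exact ⟨M.spanningCoe, fun u v huv => M.adj_sub huv, fun v => (ncard_sdiff_matching hM v).1⟩

theorem reach_update {ι : Type} [DecidableEq ι] {V : ι → Type} (G : ∀ i, SimpleGraph (V i))
    (x : ∀ i, V i) (i₀ : ι) (u : V i₀) (hu : (G i₀).Reachable (x i₀) u) :
    (piG G).Reachable x (Function.update x i₀ u) := by
  have key : (piG G).Reachable (Function.update x i₀ (x i₀)) (Function.update x i₀ u) := by
    refine reach_induct hu (R := fun w => (piG G).Reachable
      (Function.update x i₀ (x i₀)) (Function.update x i₀ w)) (Reachable.refl _) ?_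
    intro a b ha hab
    refine ha.trans (Adj.reachable ⟨i₀, ?_, fun j hj => ?_⟩)
    · rw [Function.update_self, Function.update_self]; exact hab
    · rw [Function.update_of_ne hj, Function.update_of_ne hj]
  rwa [Function.update_eq_self] at key

theorem reach_pi {ι : Type} [Finite ι] {V : ι → Type} (G : ∀ i, SimpleGraph (V i))
    (x y : ∀ i, V i) (h : ∀ i, (G i).Reachable (x i) (y i)) : (piG G).Reachable x y := by
  classical
  have := Fintype.ofFinite ι
  have key : ∀ s : Finset ι, (piG G).Reachable x (fun i => if i ∈ s then y i else x i) := by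
    intro s
    induction s using Finset.induction_on with
    | empty => exact Reachable.refl _
    | insert a s ha ih =>
      refine ih.trans ?_
      have h1 := reach_update G (fun i => if i ∈ s then y i else x i) a (y a) (by
        rw [if_neg ha]; exact h a)
      convert h1 using 1
      funext i
      by_cases hi : i = a
      · subst hi
        rw [Function.update_self, if_pos (mem_insert_self _ _)]
      · rw [Function.update_of_ne hi]
        by_cases h2 : i ∈ s
        · rw [if_pos h2, if_pos (mem_insert_of_mem h2)]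
        · rw [if_neg h2, if_neg (fun h3 => h2 (mem_of_mem_insert_of_ne h3 hi))]
  have h1 := key univ
  simpa using h1

theorem csize_pi {ι : Type} [Fintype ι] {V : ι → Type} [∀ i, Finite (V i)]
    (G : ∀ i, SimpleGraph (V i)) (x : ∀ i, V i) :
    ∏ i, csize (G i) (x i) ≤ csize (piG G) x := by
  have h1 : ∏ i, csize (G i) (x i) =
      {y : ∀ i, V i | ∀ i, (G i).Reachable (x i) (y i)}.ncard := by
    rw [← Nat.card_coe_set_eq]
    have h2 : Nat.card {y : ∀ i, V i | ∀ i, (G i).Reachable (x i) (y i)} =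
        Nat.card (∀ i, {u : V i // (G i).Reachable (x i) u}) :=
      Nat.card_congr (Equiv.subtypePiEquivPi (p := fun i u => (G i).Reachable (x i) u))
    rw [h2, Nat.card_pi]
    refine prod_congr rfl fun i _ => ?_
    unfold csize
    rw [← Nat.card_coe_set_eq]
    rfl
  rw [h1]
  exact Set.ncard_le_ncard (fun y hy => reach_pi G x y hy) (Set.toFinite _)

theorem csize_reg {V : Type} [Finite V] (G : SimpleGraph V) (r : ℕ)
    (hreg : ∀ v, (G.neighborSet v).ncard = r) (v : V) : r + 1 ≤ csize G v := by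
  have h1 : (insert v (G.neighborSet v)).ncard = r + 1 := by
    rw [Set.ncard_insert_of_notMem (fun h => ((G.mem_neighborSet v v).1 h).ne rfl)
      (Set.toFinite _), hreg v]
  rw [← h1]
  refine Set.ncard_le_ncard ?_ (Set.toFinite _)
  rintro w (rfl | hw)
  · exact Reachable.refl _
  · exact Adj.reachable hw

/-- Perfect matchings in products. -/
theorem mat_pi {κ : Type} [Fintype κ] {V : κ → Type} [∀ i, Finite (V i)]
    (G : ∀ i, SimpleGraph (V i)) (r : κ → ℕ) (hdeg : ∀ i v, ((G i).neighborSet v).ncard = r i)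
    (p : κ → Prop) [DecidablePred p] (hodd : Odd (∑ i, r i))
    (h1 : ∑ i, r i ≤ ∏ i ∈ univ.filter p, (r i + 1))
    (h2 : ∑ i, r i ≤ ∏ i ∈ univ.filter (fun i => ¬ p i), (r i + 1)) : Mat (piG G) := by
  rw [piG_split G p]
  refine Mat.comap _ (Mat.of_pm ?_)
  have e0 : ∀ q : κ → Prop, [DecidablePred q] → ∀ x, ((piG fun i : {i // q i} =>
      G i.1).neighborSet x).ncard = ∑ i ∈ univ.filter q, r i := by
    intro q _ x
    rw [piG_deg, Finset.sum_subtype (univ.filter q) (p := q) (fun i => by simp) r]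
    exact sum_congr rfl fun i _ => hdeg _ _
  have e1 : ∀ q : κ → Prop, [DecidablePred q] → ∀ x : (∀ i : {i // q i}, V i.1),
      ∏ i ∈ univ.filter q, (r i + 1) ≤ csize (piG fun i : {i // q i} => G i.1) x := by
    intro q _ x
    refine le_trans ?_ (csize_pi _ x)
    rw [Finset.prod_subtype (univ.filter q) (p := q) (fun i => by simp)]
    exact prod_le_prod' fun i _ => csize_reg _ _ (hdeg i.1) _
  have e2 : ∑ i ∈ univ.filter p, r i + ∑ i ∈ univ.filter (fun i => ¬ p i), r i = ∑ i, r i :=
    sum_filter_add_sum_filter_not _ _ _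
  refine pm_box _ _ (∑ i ∈ univ.filter p, r i) (∑ i ∈ univ.filter (fun i => ¬ p i), r i)
    (e0 p) (e0 _) (by rw [e2]; exact hodd) ?_ ?_
  · intro x
    rw [e2]
    exact h1.trans (e1 p x)
  · intro x
    rw [e2]
    exact h2.trans (e1 _ x)

end Pool.Agent.Y423.LA
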