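import Pool.Agent.H79.LA.Y647_LAC_Closed
import Pool.Agent.H79.LA.Y647_LAC_ManyOdd
import Pool.Agent.H79.LA.Y647_LAC_Cyclic

set_option autoImplicit false

/-!
Connected Cayley graphs of degree four of cyclic groups, all cases.
-/

namespace Pool.Agent.Y647.LAC

open Finset SimpleGraph H931R3.LA Pool.Agent.W111.LAR Pool.Agent.TH486.LAC

section

variable {A : Type} [AddCommGroup A]

theorem DD_cond' {a b : A} {jj : ℕ → ℕ} {c : ℕ} (hg : 0 < oo a b) (hr : 2 ≤ addOrderOf a)
    (hc : oo a b • b = c • a) (he : ¬ c + jj (oo a b - 1) ≡ jj 0 [MOD addOrderOf a])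
    (hjj : ∀ i, jj (i + 1) = jj i + 1 ∨ jj i = jj (i + 1) + 1) :
    ∀ x ∈ DD a b jj (oo a b), x + a ∉ DD a b jj (oo a b) ∧ x + b ∉ DD a b jj (oo a b) := by
  rintro x ⟨i, hi, rfl⟩
  refine ⟨?_, ?_⟩
  · rintro ⟨i', hi', h⟩
    have h1 : i • b + (jj i + 1) • a = i' • b + jj i' • a := by
      rw [← h, succ_nsmul]; abel
    obtain ⟨h2, h3⟩ := coord_uniq (by omega) (by omega) h1
    subst h2
    exact mod_gap h3 (by omega) (by omega)
  · rintro ⟨i', hi', h⟩
    have h1 : (i + 1) • b + jj i • a = i' • b + jj i' • a := by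
      rw [← h, succ_nsmul]; abel
    rcases Nat.lt_or_ge (i + 1) (oo a b) with h4 | h4
    · obtain ⟨h2, h3⟩ := coord_uniq h4 (by omega) h1
      subst h2
      exact jj_step jj hjj hr i h3.symm
    · have h5 : i = oo a b - 1 := by omega
      have h6 : i + 1 = oo a b := by omega
      rw [h6, hc, ← add_nsmul, ← zero_add ((c + jj i) • a), ← zero_nsmul b] at h1
      obtain ⟨h2, h3⟩ := coord_uniq (by omega) (by omega) h1
      subst h2
      rw [h5] at h3
      exact he h3

/-- In a cyclic group the two relative orders are coprime. -/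
theorem oo_coprime [Finite A] [IsAddCyclic A] {a b : A} (hg : Gen a b) :
    Nat.Coprime (oo a b) (oo b a) := by
  obtain ⟨c, hc⟩ := IsAddCyclic.exists_generator (α := A)
  obtain ⟨α, _, hα⟩ := exists_nat_smul (hc a)
  obtain ⟨β, _, hβ⟩ := exists_nat_smul (hc b)
  have h1 : oo a b ∣ α := oo_dvd.2 (by
    have : α • b = β • a := by
      rw [hα, hβ, smul_smul, smul_smul, mul_comm]
    rw [this]
    exact AddSubgroup.nsmul_mem_zmultiples _ _)
  have h2 : oo b a ∣ β := oo_dvd.2 (by
    have : β • a = α • b := by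
      rw [hα, hβ, smul_smul, smul_smul, mul_comm]
    rw [this]
    exact AddSubgroup.nsmul_mem_zmultiples _ _)
  have h3 : oo a b ∣ addOrderOf c := by
    refine oo_dvd.2 ?_
    have : addOrderOf c • b = 0 := by
      rw [hβ, smul_smul, mul_comm, ← smul_smul, addOrderOf_nsmul_eq_zero, nsmul_zero]
    rw [this]
    exact zero_mem _
  obtain ⟨i, k, h4⟩ := hg c
  have h5 : (1 : ℕ) • c = (i * β + k * α) • c := by
    rw [one_nsmul, add_nsmul, mul_smul, mul_smul, ← hα, ← hβ]
    exact h4
  have h6 : 1 ≡ i * β + k * α [MOD addOrderOf c] := nsmul_eq_nsmul_iff_modEq.1 h5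
  set d := Nat.gcd (oo a b) (oo b a) with hd
  have h7 : d ∣ i * β + k * α :=
    dvd_add (Dvd.dvd.mul_left ((Nat.gcd_dvd_right _ _).trans h2) _)
      (Dvd.dvd.mul_left ((Nat.gcd_dvd_left _ _).trans h1) _)
  have h8 : 1 ≡ i * β + k * α [MOD d] := h6.of_dvd ((Nat.gcd_dvd_left _ _).trans h3)
  have h9 : d ∣ 1 := (h8.dvd_iff dvd_rfl).2 h7
  exact Nat.dvd_one.1 h9

/-- The closing multiple. -/
theorem exists_q [Finite A] {a b : A} : ∃ q < addOrderOf b, oo b a • a = q • b ∧ oo a b ∣ q ∧
    q + oo a b ≤ addOrderOf b := by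
  obtain ⟨q, hq, h⟩ := exists_nat_smul (oo_dvd.1 (dvd_refl (oo b a)))
  have h1 : oo a b ∣ q := oo_dvd.2 (by
    rw [← h]; exact AddSubgroup.nsmul_mem_zmultiples _ _)
  have h2 : oo a b ∣ addOrderOf b - q := Nat.dvd_sub (oo_dvd_order a b) h1
  have h3 := Nat.le_of_dvd (by omega) h2
  exact ⟨q, hq, h, h1, by omega⟩

theorem gen_hcov [Finite A] {a b : A} (hg : Gen a b) (x : A) :
    ∃ i < oo a b, ∃ k : ℕ, x = i • b + k • a := by
  obtain ⟨i, hi, k, _, h⟩ := hg.cov x
  exact ⟨i, hi, k, h⟩

/-- Even `oo a b`, odd `oo b a`. -/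
theorem two_D1 [Finite A] {a b : A} (hg : Gen a b) (h1 : oo b a < oo a b) (h2 : 3 ≤ oo b a)
    (he : oo a b % 2 = 0) (ho : oo b a % 2 = 1) : Two a b := by
  obtain ⟨q, hq, hqa, hqd, hqs⟩ := exists_q (a := a) (b := b)
  have hr : oo b a ∣ addOrderOf a := oo_dvd_order b a
  have hr3 := Nat.le_of_dvd (addOrderOf_pos a) hr
  obtain ⟨m, hm⟩ : ∃ m, oo a b - oo b a + 1 = 2 * m := ⟨(oo a b - oo b a + 1) / 2, by omega⟩
  have hL : oo a b - 1 + 1 = oo a b := by omega
  refine two_of (DD_cond (jj := stair m) (L := oo a b - 1) (by omega) (by omega)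
      (stair_step m (by omega))) ?_ ?_
  · exact chain hL _ (addOrderOf_nsmul_eq_zero a) (by omega) (gen_hcov hg)
        (fun i i' k k' hi hi' h => coord_uniq hi hi' h) (stair_step m (by omega))
  · exact many_odd (h := oo b a) (m := m) (s := addOrderOf b) (q := q) h2 ho (by omega)
      (by omega) (addOrderOf_nsmul_eq_zero b) hqa (by omega) hg.symm.cov
      (fun j j' l l' hj hj' h => coord_uniq hj hj' h)

/-- Odd `oo a b`, even `oo b a`. -/
theorem two_D3 [Finite A] {a b : A} (hg : Gen a b) (h1 : oo b a < oo a b) (h2 : 2 ≤ oo b a)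
    (ha : 3 ≤ addOrderOf a) (ho : oo a b % 2 = 1) (he : oo b a % 2 = 0) : Two a b := by
  obtain ⟨q, hq, hqa, hqd, hqs⟩ := exists_q (a := a) (b := b)
  obtain ⟨c, hc, hcb, hcd, _⟩ := exists_q (a := b) (b := a)
  have hr : oo b a ∣ addOrderOf a := oo_dvd_order b a
  have hs : oo a b ∣ addOrderOf b := oo_dvd_order a b
  have hr3 := Nat.le_of_dvd (addOrderOf_pos a) hr
  have hs3 := Nat.le_of_dvd (addOrderOf_pos b) hs
  rcases Nat.lt_or_ge 2 (oo b a) with h3 | h3
  · -- at least four cosets
    obtain ⟨m, hm⟩ : ∃ m, oo a b + 3 - oo b a = 2 * m := ⟨(oo a b + 3 - oo b a) / 2, by omega⟩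
    have hnot : ¬ c + stair m (oo a b - 1) ≡ stair m 0 [MOD addOrderOf a] := by
      intro h
      have e1 : stair m (oo a b - 1) = oo b a - 2 := by
        unfold stair
        rw [if_neg (by omega)]
        omega
      have e2 : stair m 0 = 0 := by
        unfold stair
        rw [if_pos (by omega)]
      rw [e1, e2] at h
      have h4 : oo b a ∣ c + (oo b a - 2) := hr.trans ((Nat.modEq_zero_iff_dvd).1 h)
      have h5 : oo b a ∣ oo b a - 2 := (Nat.dvd_add_right hcd).1 h4
      have := Nat.le_of_dvd (by omega) h5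
      omega
    refine two_of (DD_cond' (jj := stair m) (by omega) (by omega) hcb hnot
      (stair_step m (by omega))) ?_ ?_
    · exact closed ho (by omega) _ (addOrderOf_nsmul_eq_zero a) ha hcb (gen_hcov hg)
        (fun i i' k k' hi hi' h => coord_uniq hi hi' h) (stair_step m (by omega)) hnot
    · exact many (h := oo b a) (m := m) (s := addOrderOf b) (by omega) (by omega) (by omega)
        (by omega) (addOrderOf_nsmul_eq_zero b) hg.symm.cov
        (fun j j' l l' hj hj' h => coord_uniq hj hj' h)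
  · -- two cosets
    have h4 : oo b a = 2 := by omega
    have hq0 : 0 < q := by
      rcases Nat.eq_zero_or_pos q with h | h
      · rw [h, zero_nsmul, h4] at hqa
        have h5 := addOrderOf_dvd_of_nsmul_eq_zero hqa
        have := Nat.le_of_dvd (by norm_num) h5
        omega
      · exact h
    have hgq := Nat.le_of_dvd hq0 hqd
    have hnot : ¬ c + (fun i => i % 2) (oo a b - 1) ≡ (fun i => i % 2) 0 [MOD addOrderOf a] := by
      intro h
      have e1 : (fun i : ℕ => i % 2) (oo a b - 1) = 0 := by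
        show (oo a b - 1) % 2 = 0
        omega
      have e2 : (fun i : ℕ => i % 2) 0 = 0 := rfl
      rw [e1, e2, add_zero] at h
      have h5 : c • a = 0 := by
        rw [nsmul_modEq (addOrderOf_nsmul_eq_zero a) h, zero_nsmul]
      rw [h5] at hcb
      have h6 := addOrderOf_dvd_of_nsmul_eq_zero hcb
      have := Nat.le_of_dvd (by omega) h6
      omega
    refine two_of (DD_cond' (jj := fun i => i % 2) (by omega) (by omega) hcb hnot
      mod2_step) ?_ ?_
    · exact closed ho (by omega) _ (addOrderOf_nsmul_eq_zero a) ha hcb (gen_hcov hg)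
        (fun i i' k k' hi hi' h => coord_uniq hi hi' h) mod2_step hnot
    · refine many_two (q := q) (s := addOrderOf b) ho (by omega) (addOrderOf_nsmul_eq_zero b)
        (by rw [← h4]; exact hqa) hgq hqs ?_ ?_
      · intro x
        have := hg.symm.cov x
        rwa [h4] at this
      · intro j j' l l' hj hj' h
        exact coord_uniq (by omega) (by omega) h

/-- Connected Cayley graphs of degree four of cyclic groups. -/
theorem two_cyclic [Finite A] [IsAddCyclic A] {a b : A} (hg : Gen a b) (ha : 3 ≤ addOrderOf a)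
    (hb : 3 ≤ addOrderOf b) : Two a b := by
  have main : ∀ a b : A, Gen a b → 3 ≤ addOrderOf a → oo b a ≤ oo a b → Two a b := by
    intro a b hg ha h1
    have hcop := oo_coprime hg
    have hp1 := oo_pos a b
    have hp2 := oo_pos b a
    rcases Nat.lt_or_ge 1 (oo b a) with h2 | h2
    · have hne : oo b a ≠ oo a b := by
        intro h
        rw [h, Nat.coprime_self] at hcop
        omega
      rcases Nat.mod_two_eq_zero_or_one (oo a b) with h3 | h3 <;>
        rcases Nat.mod_two_eq_zero_or_one (oo b a) with h4 | h4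
      · exfalso
        have h5 : 2 ∣ Nat.gcd (oo a b) (oo b a) :=
          Nat.dvd_gcd (Nat.dvd_of_mod_eq_zero h3) (Nat.dvd_of_mod_eq_zero h4)
        rw [hcop] at h5
        omega
      · exact two_D1 hg (by omega) (by omega) h3 h4
      · exact two_D3 hg (by omega) (by omega) ha h3 h4
      · exact two_many hg h1 (by omega) (by omega)
    · rcases Nat.lt_or_ge 1 (oo a b) with h3 | h3
      · exact two_one hg (by omega) (by omega) ha
      · exact two_trivial hg (by omega) (by omega)
  rcases le_total (oo b a) (oo a b) with h | h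
  · exact main a b hg ha h
  · exact (main b a hg.symm hb h).symm

end

theorem pairOK (n : ℕ) [NeZero n] : PairOK n := by
  intro x y hx hxy hy H a b ha hb hg
  have key : ∀ (z : ℕ) (c : H), (c : ZMod n) = z → 0 < z → 2 * z < n → 3 ≤ addOrderOf c := by
    intro z c hc hz hzn
    have h1 : addOrderOf c = addOrderOf (z : ZMod n) := by
      rw [← hc]
      exact (AddSubgroup.addOrderOf_coe c).symm
    rw [h1]
    have h0 : 0 < addOrderOf (z : ZMod n) := addOrderOf_pos _
    by_contra hcon
    push Not at hcon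
    have h2 : 2 • (z : ZMod n) = 0 := by
      rcases (show addOrderOf (z : ZMod n) = 1 ∨ addOrderOf (z : ZMod n) = 2 by omega) with h | h
      · rw [AddMonoid.addOrderOf_eq_one_iff.1 h, nsmul_zero]
      · rw [← h, addOrderOf_nsmul_eq_zero]
    have h3 : ((2 * z : ℕ) : ZMod n) = 0 := by
      rw [← h2]; push_cast; rw [two_nsmul]; ring
    rw [ZMod.natCast_eq_zero_iff] at h3
    have := Nat.le_of_dvd (by omega) h3
    omega
  exact two_cyclic hg (key x a ha hx (by omega)) (key y b hb (by omega) hy)

theorem cay_deg_add' {V : Type} [AddCommGroup V] [Finite V] (S : Finset V) (G : SimpleGraph V)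
    (hG : ∀ v w, G.Adj v w ↔ w - v ∈ S) (v : V) : (G.neighborSet v).ncard = S.card := by
  have : G.neighborSet v = (fun x => v + x) '' (S : Set V) := by
    ext w
    constructor
    · intro hw
      exact ⟨w - v, (hG v w).1 hw, by simp⟩
    · rintro ⟨x, hx, rfl⟩
      show G.Adj v (v + x)
      rw [hG]
      simpa using hx
  rw [this, Set.ncard_image_of_injective _ (add_right_injective v), Set.ncard_coe_finset]

/-- The load of a circulant graph of even degree is at most one. -/
theorem ld_even (n : ℕ) [NeZero n] (S : Finset (ZMod n)) (hneg : ∀ s ∈ S, -s ∈ S)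
    (hinv : ∀ s ∈ S, s + s ≠ 0) (G : SimpleGraph (ZMod n))
    (hG : ∀ v w, G.Adj v w ↔ w - v ∈ S) : LD G (S.card / 2) := by
  classical
  have hn : 0 < n := Nat.pos_of_ne_zero (NeZero.ne n)
  set T : Finset ℕ := (range n).filter (fun d => 2 * d < n ∧ (d : ZMod n) ∈ S) with hT
  set l := T.sort (· ≤ ·) with hl
  have hmem : ∀ d, d ∈ l ↔ 2 * d < n ∧ (d : ZMod n) ∈ S := by
    intro d
    rw [hl, Finset.mem_sort, hT, mem_filter, mem_range]
    constructor
    · exact fun h => h.2
    · exact fun h => ⟨by omega, h⟩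
  have hpos : ∀ d ∈ l, 0 < d ∧ 2 * d < n := by
    intro d hd
    obtain ⟨h1, h2⟩ := (hmem d).1 hd
    refine ⟨?_, h1⟩
    rcases Nat.eq_zero_or_pos d with h | h
    · subst h
      exact absurd (by simp) (hinv _ h2)
    · exact h
  have hsort : l.Pairwise (· < ·) := Finset.sortedLT_sort T |>.pairwise
  have hS : ∀ z : ZMod n, z ∈ S ↔ ∃ d ∈ l, z = (d : ZMod n) ∨ z = -(d : ZMod n) := by
    intro z
    constructor
    · intro hz
      have hv : ((z.val : ℕ) : ZMod n) = z := ZMod.natCast_zmod_val z
      have hlt : z.val < n := ZMod.val_lt z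
      have hne : 2 * z.val ≠ n := by
        intro h
        apply hinv z hz
        have : ((2 * z.val : ℕ) : ZMod n) = 0 := by rw [h, ZMod.natCast_self]
        rw [← this]
        push_cast
        rw [hv]; ring
      rcases Nat.lt_or_ge (2 * z.val) n with h | h
      · exact ⟨z.val, (hmem _).2 ⟨h, by rwa [hv]⟩, Or.inl hv.symm⟩
      · refine ⟨n - z.val, (hmem _).2 ⟨by omega, ?_⟩, Or.inr ?_⟩
        · rw [Nat.cast_sub hlt.le, ZMod.natCast_self, hv, zero_sub]
          exact hneg z hz
        · rw [Nat.cast_sub hlt.le, ZMod.natCast_self, hv, zero_sub, neg_neg]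
    · rintro ⟨d, hd, h | h⟩
      · rw [h]; exact ((hmem d).1 hd).2
      · rw [h]; exact hneg _ ((hmem d).1 hd).2
  have hGl : G = CG n l := by
    ext v w
    rw [hG, hS]
    constructor
    · rintro ⟨d, hd, h⟩
      refine ⟨?_, d, hd, ?_⟩
      · rintro rfl
        rw [sub_self] at h
        have h2 := ((hmem d).1 hd).2
        apply hinv _ h2
        rcases h with h | h
        · rw [← h, add_zero]
        · have : (d : ZMod n) = 0 := by rw [← neg_eq_zero, ← h]
          rw [this, add_zero]
      · rcases h with h | h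
        · left; rw [← h]; abel
        · right
          have : v = w - (w - v) := by abel
          rw [this, h, sub_neg_eq_add]
          
    · rintro ⟨_, d, hd, h⟩
      refine ⟨d, hd, ?_⟩
      rcases h with h | h
      · left; rw [h]; abel
      · right; rw [h]; abel
  have hcard : S.card / 2 = l.length := by
    have h1 : S = T.image (fun d : ℕ => (d : ZMod n)) ∪ T.image (fun d : ℕ => -(d : ZMod n)) := by
      ext z
      rw [hS, mem_union, mem_image, mem_image]
      constructor
      · rintro ⟨d, hd, h | h⟩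
        · exact Or.inl ⟨d, (Finset.mem_sort _).1 hd, h.symm⟩
        · exact Or.inr ⟨d, (Finset.mem_sort _).1 hd, h.symm⟩
      · rintro (⟨d, hd, h⟩ | ⟨d, hd, h⟩)
        · exact ⟨d, (Finset.mem_sort _).2 hd, Or.inl h.symm⟩
        · exact ⟨d, (Finset.mem_sort _).2 hd, Or.inr h.symm⟩
    have hTpos : ∀ d ∈ T, 0 < d ∧ 2 * d < n := fun d hd => hpos d ((Finset.mem_sort _).2 hd)
    have hinj : Set.InjOn (fun d : ℕ => (d : ZMod n)) T := by
      intro d hd d' hd' h
      have h2 := (ZMod.natCast_eq_natCast_iff' _ _ _).1 h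
      have h3 := hTpos d hd
      have h4 := hTpos d' hd'
      rwa [Nat.mod_eq_of_lt (by omega), Nat.mod_eq_of_lt (by omega)] at h2
    have hinj' : Set.InjOn (fun d : ℕ => -(d : ZMod n)) T := by
      intro d hd d' hd' h
      exact hinj hd hd' (neg_injective h)
    have hdis : Disjoint (T.image (fun d : ℕ => (d : ZMod n)))
        (T.image (fun d : ℕ => -(d : ZMod n))) := by
      rw [Finset.disjoint_left]
      intro z hz hz'
      obtain ⟨d, hd, rfl⟩ := mem_image.1 hz
      obtain ⟨d', hd', h⟩ := mem_image.1 hz'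
      have h3 := hTpos d hd
      have h4 := hTpos d' hd'
      have h5 : ((d + d' : ℕ) : ZMod n) = 0 := by
        push_cast
        have h' : -(d' : ZMod n) = d := h
        rw [← h']; ring
      rw [ZMod.natCast_eq_zero_iff] at h5
      have := Nat.le_of_dvd (by omega) h5
      omega
    have h2 : S.card = T.card + T.card := by
      rw [h1, card_union_of_disjoint hdis, card_image_of_injOn hinj, card_image_of_injOn hinj']
    rw [h2, hl, Finset.length_sort]
    omega
  rw [hGl, hcard]
  exact ld_circ (pairOK n) l hsort hpos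

end Pool.Agent.Y647.LAC
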